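import Pool.Agent.Lib.MP_eeed5f_gt.Loc

section M_AL0

/-!
Row ec-AL0 (linear algebra of a Lorentz form b with timelike T).
Write `v = a T + v'` with `b T v' = 0`, `a = b(T,v)/b(T,T)`; on `T^⊥` the form b is positive definite.
`nondeg`: b(v,·)=0 gives b(T,v)=0, so v=0 or 0 < b(v,v)=0.
`rcs` (reversed Cauchy-Schwarz): t timelike, v arbitrary with b(v,v) ≤ 0: b(t,v)² ≥ b(t,t)b(v,v): if not, the plane...
 simplest: for u := v - (b(t,v)/b(t,t)) t one has b(t,u)=0; show `lor_of_timelike` first: every timelike t has the property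
 pos (b > 0 on t^⊥ \ 0): let b(t,u)=0, u ≠ 0, and suppose b(u,u) ≤ 0.  The plane span(t,u) then has b ≤ 0 on it
 (b(xt+yu,xt+yu) = x²b(t,t)+y²b(u,u) ≤ 0), but it contains a nonzero vector of T^⊥ (dimension 2 versus the kernel of one
 functional: x b(T,t) + y b(T,u) = 0 has a nonzero solution (x,y)), where b > 0: contradiction.
`b_FC_FC`: u FT, v FC: b(u,v) < 0:  `IsLor b u`; b(u,v)=0 would give v=0 (b(v,v) ≤ 0) but b(T,v)<0.  Sign: the function
 s ↦ b((1-s)T+s u, v) does not vanish on [0,1] ((1-s)T+su is timelike since b(T,u)<0) and is negative at s=0.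
`FC_add`, `FT_add`, convexity of the cones follow.
`null_partner`: n null ≠ 0: b(n,T) ≠ 0 (pos), take N = (T - (b(T,T)/(2b(n,T))) n)/b(n,T).
`ker2`: D ≥ 3: two functionals have a common nonzero kernel vector.
`unit_perp`: a nonzero vector of t^⊥ can be normalised to b(e,e)=1.
-/

open scoped ContDiff Topology
open Set

noncomputable section

set_option linter.unusedSectionVars false
set_option maxSynthPendingDepth 3

namespace Pool.Agent.EG

variable {E : Type*} [NormedAddCommGroup E] [NormedSpace ℝ E] [FiniteDimensional ℝ E]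
variable {V : Type*} [NormedAddCommGroup V] [NormedSpace ℝ V] [FiniteDimensional ℝ V]
variable {V' : Type*} [NormedAddCommGroup V'] [NormedSpace ℝ V'] [FiniteDimensional ℝ V']
variable {O O' S : Set E} {g g' : E → BF E} {f : E → E} {c : E → ℝ} {y : E}

variable {b : BF E} {T : E}

theorem IsLor.lor_of_timelike (h : IsLor b T) {t : E} (ht : b t t < 0) : IsLor b t := by
  refine ⟨h.symm, ht, fun u hu htu => ?_⟩
  by_contra hcon
  rw [not_lt] at hcon
  have hTt : b T t ≠ 0 := by
    intro h0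
    have ht0 : t ≠ 0 := by
      rintro rfl
      simp at ht
    exact absurd (h.pos t ht0 h0) (by linarith)
  have hut : b u t = 0 := by rw [h.symm, htu]
  have hw1 : b T (b T u • t - b T t • u) = 0 := by
    simp only [map_sub, map_smul, smul_eq_mul]
    ring
  have hw2 : b (b T u • t - b T t • u) (b T u • t - b T t • u)
      = (b T u) ^ 2 * b t t + (b T t) ^ 2 * b u u := by
    simp only [map_sub, map_smul, smul_eq_mul, sub_apply, smul_apply, htu, hut]
    ring
  have hle : b (b T u • t - b T t • u) (b T u • t - b T t • u) ≤ 0 := by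
    rw [hw2]
    have h1 : (b T u) ^ 2 * b t t ≤ 0 := mul_nonpos_of_nonneg_of_nonpos (sq_nonneg _) ht.le
    have h2 : (b T t) ^ 2 * b u u ≤ 0 := mul_nonpos_of_nonneg_of_nonpos (sq_nonneg _) hcon
    linarith
  by_cases hw : b T u • t - b T t • u = 0
  · have h3 : b t (b T u • t - b T t • u) = 0 := by rw [hw, map_zero]
    simp only [map_sub, map_smul, smul_eq_mul, htu, mul_zero, sub_zero] at h3
    have h4 : b T u = 0 := by
      rcases mul_eq_zero.1 h3 with h5 | h5
      · exact h5
      · exact absurd h5 ht.ne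
    rw [h4, zero_smul, zero_sub, neg_eq_zero] at hw
    rcases smul_eq_zero.1 hw with h5 | h5
    · exact hTt h5
    · exact hu h5
  · exact absurd (h.pos _ hw hw1) (by linarith)

theorem IsLor.nondeg (h : IsLor b T) {u : E} (hu : ∀ v, b u v = 0) : u = 0 := by
  by_contra hne
  have h1 : b T u = 0 := by rw [h.symm, hu]
  have h2 := h.pos u hne h1
  rw [hu] at h2
  exact lt_irrefl _ h2

theorem IsLor.FC_ne (h : IsLor b T) {v : E} (hv : FC b T v) : v ≠ 0 := by
  rintro rfl
  have := hv.2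
  simp at this

theorem IsLor.b_FT_FC (h : IsLor b T) {u v : E} (hu : FT b T u) (hv : FC b T v) : b u v < 0 := by
  have hv0 : v ≠ 0 := h.FC_ne hv
  obtain ⟨hu1, hu2⟩ := hu
  obtain ⟨hv1, hv2⟩ := hv
  have hLu := h.lor_of_timelike hu1
  by_contra hcon
  rw [not_lt] at hcon
  rcases hcon.eq_or_lt with h0 | hpos
  · exact absurd (hLu.pos v hv0 h0.symm) (by linarith)
  · have h1 : b (b u v • T - b T v • u) v = 0 := by
      simp only [map_sub, map_smul, smul_eq_mul, sub_apply, smul_apply]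
      ring
    have h2 : b (b u v • T - b T v • u) (b u v • T - b T v • u) < 0 := by
      have e1 : b (b u v • T - b T v • u) (b u v • T - b T v • u)
          = (b u v) ^ 2 * b T T - 2 * (b u v * (b T v * b T u)) + (b T v) ^ 2 * b u u := by
        simp only [map_sub, map_smul, smul_eq_mul, sub_apply, smul_apply, h.symm u T]
        ring
      rw [e1]
      have p1 : (b u v) ^ 2 * b T T < 0 := mul_neg_of_pos_of_neg (pow_pos hpos 2) h.neg
      have p2 : 0 < b u v * (b T v * b T u) := mul_pos hpos (mul_pos_of_neg_of_neg hv2 hu2)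
      have p3 : (b T v) ^ 2 * b u u ≤ 0 := mul_nonpos_of_nonneg_of_nonpos (sq_nonneg _) hu1.le
      linarith
    exact absurd ((h.lor_of_timelike h2).pos v hv0 h1) (by linarith)

theorem IsLor.b_FC_FC (h : IsLor b T) {u v : E} (hu : FC b T u) (hv : FC b T v) : b u v ≤ 0 := by
  by_contra hcon
  rw [not_le] at hcon
  have hv2 := hv.2
  have hε : 0 < b u v / (-(b T v)) := div_pos hcon (by linarith)
  set ε := b u v / (-(b T v)) with hεd
  have hFT : FT b T (u + ε • T) := by
    constructor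
    · have e1 : b (u + ε • T) (u + ε • T) = b u u + 2 * (ε * b T u) + ε ^ 2 * b T T := by
        simp only [map_add, map_smul, smul_eq_mul, add_apply, smul_apply, h.symm u T]
        ring
      rw [e1]
      have p1 : ε * b T u < 0 := mul_neg_of_pos_of_neg hε hu.2
      have p2 : ε ^ 2 * b T T < 0 := mul_neg_of_pos_of_neg (pow_pos hε 2) h.neg
      have p3 := hu.1
      linarith
    · have e1 : b T (u + ε • T) = b T u + ε * b T T := by
        simp only [map_add, map_smul, smul_eq_mul]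
      rw [e1]
      have p1 : ε * b T T < 0 := mul_neg_of_pos_of_neg hε h.neg
      have p3 := hu.2
      linarith
  have h1 := h.b_FT_FC hFT hv
  have e2 : b (u + ε • T) v = 0 := by
    simp only [map_add, map_smul, smul_eq_mul, add_apply, smul_apply]
    have hne : b T v ≠ 0 := hv2.ne
    rw [hεd]
    field_simp
    ring
  rw [e2] at h1
  exact lt_irrefl _ h1

theorem IsLor.FC_add (h : IsLor b T) {u v : E} (hu : FC b T u) (hv : FC b T v) :
    FC b T (u + v) := by
  have h1 := h.b_FC_FC hu hv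
  refine ⟨?_, ?_⟩
  · have e1 : b (u + v) (u + v) = b u u + 2 * b u v + b v v := by
      simp only [map_add, add_apply, h.symm v u]
      ring
    rw [e1]
    have := hu.1
    have := hv.1
    linarith
  · have := hu.2
    have := hv.2
    rw [map_add]
    linarith

theorem IsLor.FT_add (h : IsLor b T) {u v : E} (hu : FT b T u) (hv : FC b T v) :
    FT b T (u + v) := by
  have h1 := h.b_FT_FC hu hv
  refine ⟨?_, ?_⟩
  · have e1 : b (u + v) (u + v) = b u u + 2 * b u v + b v v := by
      simp only [map_add, add_apply, h.symm v u]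
      ring
    rw [e1]
    have := hu.1
    have := hv.1
    linarith
  · have := hu.2
    have := hv.2
    rw [map_add]
    linarith

theorem IsLor.FC_smul (h : IsLor b T) {v : E} (hv : FC b T v) {a : ℝ} (ha : 0 < a) :
    FC b T (a • v) := by
  refine ⟨?_, ?_⟩
  · have e1 : b (a • v) (a • v) = a ^ 2 * b v v := by
      simp only [map_smul, smul_apply, smul_eq_mul]
      ring
    rw [e1]
    exact mul_nonpos_of_nonneg_of_nonpos (sq_nonneg _) hv.1
  · rw [map_smul, smul_eq_mul]
    exact mul_neg_of_pos_of_neg ha hv.2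

theorem IsLor.FT_smul (h : IsLor b T) {v : E} (hv : FT b T v) {a : ℝ} (ha : 0 < a) :
    FT b T (a • v) := by
  refine ⟨?_, ?_⟩
  · have e1 : b (a • v) (a • v) = a ^ 2 * b v v := by
      simp only [map_smul, smul_apply, smul_eq_mul]
      ring
    rw [e1]
    exact mul_neg_of_pos_of_neg (pow_pos ha 2) hv.1
  · rw [map_smul, smul_eq_mul]
    exact mul_neg_of_pos_of_neg ha hv.2

theorem IsLor.FT_T (h : IsLor b T) : FT b T T := ⟨h.neg, h.neg⟩

theorem IsLor.null_ne (h : IsLor b T) {n : E} (hn : n ≠ 0) (hnn : b n n = 0) : b T n ≠ 0 := by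
  intro h0
  have := h.pos n hn h0
  rw [hnn] at this
  exact lt_irrefl _ this

theorem IsLor.null_partner (h : IsLor b T) {n : E} (hn : n ≠ 0) (hnn : b n n = 0) :
    ∃ N : E, b N N = 0 ∧ b n N = 1 := by
  have hTn := h.null_ne hn hnn
  have hs : b n T = b T n := h.symm n T
  refine ⟨(b T n)⁻¹ • (T - (b T T / (2 * b T n)) • n), ?_, ?_⟩
  · simp only [map_sub, map_smul, smul_apply, sub_apply, smul_eq_mul, hs, hnn]
    field_simp
    ring
  · simp only [map_sub, map_smul, smul_eq_mul, hs, hnn]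
    field_simp
    ring

theorem ker2 (hD : 3 ≤ Module.finrank ℝ E) (a a' : E →L[ℝ] ℝ) : ∃ v : E, v ≠ 0 ∧ a v = 0 ∧ a' v = 0 := by
  have h1 : Module.finrank ℝ (ℝ × ℝ) < Module.finrank ℝ E := by
    have : Module.finrank ℝ (ℝ × ℝ) = 2 := by simp
    omega
  have h2 := LinearMap.ker_ne_bot_of_finrank_lt (f := (a.toLinearMap.prod a'.toLinearMap)) h1
  obtain ⟨v, hv, hv0⟩ := Submodule.exists_mem_ne_zero_of_ne_bot h2
  have h3 : (a v, a' v) = ((0 : ℝ), (0 : ℝ)) := hv
  exact ⟨v, hv0, (Prod.ext_iff.1 h3).1, (Prod.ext_iff.1 h3).2⟩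

theorem IsLor.unit_perp (h : IsLor b T) (hD : 3 ≤ Module.finrank ℝ E) {t : E} (ht : b t t < 0) (w : E) :
    ∃ e : E, b e e = 1 ∧ b t e = 0 ∧ b w e = 0 := by
  obtain ⟨v, hv0, hv1, hv2⟩ := ker2 hD (b t) (b w)
  have hp : 0 < b v v := (h.lor_of_timelike ht).pos v hv0 hv1
  have hs : Real.sqrt (b v v) * Real.sqrt (b v v) = b v v := Real.mul_self_sqrt hp.le
  have hs0 : Real.sqrt (b v v) ≠ 0 := (Real.sqrt_pos.2 hp).ne'
  refine ⟨(Real.sqrt (b v v))⁻¹ • v, ?_, ?_, ?_⟩
  · simp only [map_smul, smul_apply, smul_eq_mul]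
    rw [← mul_assoc, ← mul_inv, hs]
    exact inv_mul_cancel₀ hp.ne'
  · simp [hv1]
  · simp [hv2]

/-- a spacelike vector, and a timelike future vector pairing positively with it -/
theorem IsLor.exists_FT_pos (h : IsLor b T) {e : E} (he : 0 < b e e) : ∃ N, FT b T N ∧ 0 < b N e := by
  have hs : b e T = b T e := h.symm e T
  have hn := h.neg
  rcases lt_trichotomy (b T e) 0 with hc | hc | hc
  · refine ⟨T - (2 * b T e / b e e) • e, ⟨?_, ?_⟩, ?_⟩
    · have e1 : b (T - (2 * b T e / b e e) • e) (T - (2 * b T e / b e e) • e) = b T T := by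
        simp only [map_sub, map_smul, smul_apply, sub_apply, smul_eq_mul, hs]
        field_simp
        ring
      rw [e1]
      exact hn
    · have e1 : b T (T - (2 * b T e / b e e) • e) = b T T - 2 * ((b T e) ^ 2 / b e e) := by
        simp only [map_sub, map_smul, smul_eq_mul]
        field_simp
      rw [e1]
      have : 0 ≤ (b T e) ^ 2 / b e e := div_nonneg (sq_nonneg _) he.le
      linarith
    · have e1 : b (T - (2 * b T e / b e e) • e) e = - b T e := by
        simp only [map_sub, map_smul, smul_apply, sub_apply, smul_eq_mul]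
        field_simp
        ring
      rw [e1]
      linarith
  · have hq : 0 < -(b T T) / (2 * b e e) := div_pos (by linarith) (by linarith)
    have hsq : Real.sqrt (-(b T T) / (2 * b e e)) * Real.sqrt (-(b T T) / (2 * b e e))
        = -(b T T) / (2 * b e e) := Real.mul_self_sqrt hq.le
    have hsp := Real.sqrt_pos.2 hq
    set l := Real.sqrt (-(b T T) / (2 * b e e)) with hl
    refine ⟨T + l • e, ⟨?_, ?_⟩, ?_⟩
    · have e1 : b (T + l • e) (T + l • e) = b T T + (l * l) * b e e := by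
        simp only [map_add, map_smul, smul_apply, add_apply, smul_eq_mul, hs, hc]
        ring
      rw [e1, hsq]
      have e2 : -(b T T) / (2 * b e e) * b e e = -(b T T) / 2 := by
        field_simp
      rw [e2]
      linarith
    · rw [map_add, map_smul, hc, smul_zero, add_zero]
      exact hn
    · have e1 : b (T + l • e) e = l * b e e := by
        simp only [map_add, map_smul, smul_apply, add_apply, smul_eq_mul, hc]
        ring
      rw [e1]
      exact mul_pos hsp he
  · exact ⟨T, ⟨hn, hn⟩, hc⟩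

end Pool.Agent.EG

end

end M_AL0

section M_AL3

/-!
Row ec-AL3 (algebra for the Cotton tensor, 'B8').  t : covector ≠ 0, n := t^# (b(n,·)=t), C X u := t(X)u + t(u)X - b(X,u) n.
K trilinear, antisymmetric in the first two slots, invariant: K(C X u,v,w)+K(u,C X v,w)+K(u,v,C X w)=0.  Then K=0.
X = n: C n u = t(n) u + t(u) n - t(u) n = t(n) u: 3 t(n) K = 0; if t(n) ≠ 0 done.
t(n)=b(n,n)=0, n ≠ 0: N = null_partner: b(N,N)=0, b(n,N)=t(N)=1.  C N n = t(N)n + t(n)N - b(N,n)n = 0;
 x with t(x)=0, b(N,x)=0: C N x = x;  C N N = 2N.  E = ℝn ⊕ {t = 0 = b(N,·)} ⊕ ℝN: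
 v = b(N,v) n + x + t(v) N.  On weight vectors (weights 0,1,2) (a+b+c) K(u,v,w) = 0, so K=0 unless all weights are 0, and
 K(n,n,n)=0 by antisymmetry.
-/

open scoped ContDiff Topology
open Set

noncomputable section

set_option linter.unusedSectionVars false
set_option maxSynthPendingDepth 3

namespace Pool.Agent.EG

variable {E : Type*} [NormedAddCommGroup E] [NormedSpace ℝ E] [FiniteDimensional ℝ E]
variable {V : Type*} [NormedAddCommGroup V] [NormedSpace ℝ V] [FiniteDimensional ℝ V]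
variable {V' : Type*} [NormedAddCommGroup V'] [NormedSpace ℝ V'] [FiniteDimensional ℝ V']
variable {O O' S : Set E} {g g' : E → BF E} {f : E → E} {c : E → ℝ} {y : E}

variable {b : BF E} {T : E}

theorem cot_alg (h : IsLor b T) {t : E →L[ℝ] ℝ} (ht : t ≠ 0) {n : E} (hn : ∀ v, b n v = t v)
    {K : E → E → E → ℝ}
    (hK1 : ∀ u u' v w, K (u + u') v w = K u v w + K u' v w)
    (hK1s : ∀ (a : ℝ) u v w, K (a • u) v w = a * K u v w)
    (hK2 : ∀ u v w, K v u w = - K u v w)
    (hK3 : ∀ u v w w', K u v (w + w') = K u v w + K u v w')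
    (hK3s : ∀ (a : ℝ) u v w, K u v (a • w) = a * K u v w)
    (hinv : ∀ X u v w, K (t X • u + t u • X - b X u • n) v w
      + K u (t X • v + t v • X - b X v • n) w + K u v (t X • w + t w • X - b X w • n) = 0) :
    ∀ u v w, K u v w = 0 := by
  have hn0 : n ≠ 0 := by
    rintro rfl
    apply ht
    ext v
    rw [← hn v]; simp
  have hK2a : ∀ u v v' w, K u (v + v') w = K u v w + K u v' w := by
    intro u v v' w
    rw [hK2, hK1, hK2 v u, hK2 v' u]
    rw [hK2 u v w, hK2 u v' w]; ring
  have hK2s : ∀ (a : ℝ) u v w, K u (a • v) w = a * K u v w := by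
    intro a u v w
    rw [hK2, hK1s, hK2 u v w]; ring
  by_cases htn : t n = 0
  · have hnn : b n n = 0 := by rw [hn, htn]
    obtain ⟨N, hNN, hnN⟩ := h.null_partner hn0 hnn
    have htN : t N = 1 := by rw [← hn, hnN]
    have hNn : b N n = 1 := by rw [h.symm, hnN]
    have wt : ∀ (a₁ a₂ a₃ : ℝ) (u v w : E), a₁ + a₂ + a₃ ≠ 0 →
        t N • u + t u • N - b N u • n = a₁ • u → t N • v + t v • N - b N v • n = a₂ • v →
        t N • w + t w • N - b N w • n = a₃ • w → K u v w = 0 := by
      intro a₁ a₂ a₃ u v w ha h1 h2 h3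
      have h4 := hinv N u v w
      rw [h1, h2, h3, hK1s, hK2s, hK3s] at h4
      have h5 : (a₁ + a₂ + a₃) * K u v w = 0 := by linarith
      exact (mul_eq_zero.mp h5).resolve_left ha
    have c0 : ∀ r : ℝ, t N • (r • n) + t (r • n) • N - b N (r • n) • n = (0 : ℝ) • (r • n) := by
      intro r
      simp only [map_smul, smul_eq_mul, htN, htn, hNn, mul_zero, mul_one, zero_smul, one_smul,
        add_zero, sub_self]
    have c2 : ∀ r : ℝ, t N • (r • N) + t (r • N) • N - b N (r • N) • n = (2 : ℝ) • (r • N) := by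
      intro r
      simp only [map_smul, smul_eq_mul, htN, hNN, mul_zero, mul_one, zero_smul, one_smul, sub_zero,
        two_smul]
    have c1 : ∀ u : E, t N • (u - b N u • n - t u • N) + t (u - b N u • n - t u • N) • N
        - b N (u - b N u • n - t u • N) • n = (1 : ℝ) • (u - b N u • n - t u • N) := by
      intro u
      have e1 : t (u - b N u • n - t u • N) = 0 := by
        simp only [map_sub, map_smul, smul_eq_mul, htN, htn]; ring
      have e2 : b N (u - b N u • n - t u • N) = 0 := by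
        simp only [map_sub, map_smul, smul_eq_mul, hNN, hNn]; ring
      rw [e1, e2, htN, zero_smul, zero_smul, add_zero, sub_zero]
    have dec : ∀ u : E, u = b N u • n + (u - b N u • n - t u • N) + t u • N := by
      intro u; abel
    have K000 : ∀ p q r : ℝ, K (p • n) (q • n) (r • n) = 0 := by
      intro p q r
      rw [hK1s, hK2s]
      have : K n n (r • n) = 0 := by
        have := hK2 n n (r • n)
        linarith
      rw [this]; ring
    intro u v w
    have key : ∀ (u0 u1 u2 v0 v1 v2 w0 w1 w2 : E),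
        K (u0 + u1 + u2) (v0 + v1 + v2) (w0 + w1 + w2) =
        K u0 v0 w0 + K u0 v0 w1 + K u0 v0 w2 + K u0 v1 w0 + K u0 v1 w1 + K u0 v1 w2
        + K u0 v2 w0 + K u0 v2 w1 + K u0 v2 w2 +
        (K u1 v0 w0 + K u1 v0 w1 + K u1 v0 w2 + K u1 v1 w0 + K u1 v1 w1 + K u1 v1 w2
        + K u1 v2 w0 + K u1 v2 w1 + K u1 v2 w2) +
        (K u2 v0 w0 + K u2 v0 w1 + K u2 v0 w2 + K u2 v1 w0 + K u2 v1 w1 + K u2 v1 w2
        + K u2 v2 w0 + K u2 v2 w1 + K u2 v2 w2) := by
      intro u0 u1 u2 v0 v1 v2 w0 w1 w2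
      simp only [hK1, hK2a, hK3]; ring
    rw [dec u, dec v, dec w, key]
    rw [K000]
    rw [wt 0 0 1 _ _ _ (by norm_num) (c0 _) (c0 _) (c1 _), wt 0 0 2 _ _ _ (by norm_num) (c0 _) (c0 _) (c2 _),
      wt 0 1 0 _ _ _ (by norm_num) (c0 _) (c1 _) (c0 _), wt 0 1 1 _ _ _ (by norm_num) (c0 _) (c1 _) (c1 _),
      wt 0 1 2 _ _ _ (by norm_num) (c0 _) (c1 _) (c2 _), wt 0 2 0 _ _ _ (by norm_num) (c0 _) (c2 _) (c0 _),
      wt 0 2 1 _ _ _ (by norm_num) (c0 _) (c2 _) (c1 _), wt 0 2 2 _ _ _ (by norm_num) (c0 _) (c2 _) (c2 _),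
      wt 1 0 0 _ _ _ (by norm_num) (c1 _) (c0 _) (c0 _), wt 1 0 1 _ _ _ (by norm_num) (c1 _) (c0 _) (c1 _),
      wt 1 0 2 _ _ _ (by norm_num) (c1 _) (c0 _) (c2 _), wt 1 1 0 _ _ _ (by norm_num) (c1 _) (c1 _) (c0 _),
      wt 1 1 1 _ _ _ (by norm_num) (c1 _) (c1 _) (c1 _), wt 1 1 2 _ _ _ (by norm_num) (c1 _) (c1 _) (c2 _),
      wt 1 2 0 _ _ _ (by norm_num) (c1 _) (c2 _) (c0 _), wt 1 2 1 _ _ _ (by norm_num) (c1 _) (c2 _) (c1 _),
      wt 1 2 2 _ _ _ (by norm_num) (c1 _) (c2 _) (c2 _), wt 2 0 0 _ _ _ (by norm_num) (c2 _) (c0 _) (c0 _),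
      wt 2 0 1 _ _ _ (by norm_num) (c2 _) (c0 _) (c1 _), wt 2 0 2 _ _ _ (by norm_num) (c2 _) (c0 _) (c2 _),
      wt 2 1 0 _ _ _ (by norm_num) (c2 _) (c1 _) (c0 _), wt 2 1 1 _ _ _ (by norm_num) (c2 _) (c1 _) (c1 _),
      wt 2 1 2 _ _ _ (by norm_num) (c2 _) (c1 _) (c2 _), wt 2 2 0 _ _ _ (by norm_num) (c2 _) (c2 _) (c0 _),
      wt 2 2 1 _ _ _ (by norm_num) (c2 _) (c2 _) (c1 _), wt 2 2 2 _ _ _ (by norm_num) (c2 _) (c2 _) (c2 _)]
    norm_num
  · have cn : ∀ u : E, t n • u + t u • n - b n u • n = t n • u := by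
      intro u; rw [hn]; abel
    intro u v w
    have h1 := hinv n u v w
    rw [cn, cn, cn, hK1s, hK2s, hK3s] at h1
    have h2 : t n * K u v w = 0 := by linarith
    exact (mul_eq_zero.mp h2).resolve_left htn

end Pool.Agent.EG

end

end M_AL3

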