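import Pool.Agent.Lib.MP_eeed5f_gt.A1

section M_AL1

/-!
Row ec-AL1 (a nonzero Weyl tensor has a good null vector).  W(a,b,c,d) := b(W a b c, d).
`pair`: pair symmetry from anti, bianchi, skew.
`zero_of_diag`: if b(W u x x, u) = 0 for all u,x then W = 0: polarise in u (pair symmetry): b(W u x x, w) = 0; polarise in x:
 b(W u x y, w) = - b(W u y x, w); so (u,x,y) ↦ b(W u x y,w) is antisymmetric in (u,x) and (x,y), hence totally antisymmetric,
 and bianchi gives 3 b(W u x y,w) = 0.
`exists_good`: suppose not: (*) b(W u v v,u)=0 for all null v with b(T,v)<0 and all u ⟂ v.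
 Let t be FT with b(t,t) = -1 and e ⟂ t, b(e,e)=1: t±e are null and FC (b(T,t±e)<0 by `b_FT_FC`: -t... use: t±e null, nonzero,
 b(t,t±e) = -1 < 0 and T, t in the same cone).  For u ⟂ t,e: (*) for t+e and t-e, added: q(u) := b(W u t t,u) = - b(W u e e,u)
 = - b(W e u u, e) (pair) so for e, u orthonormal in t^⊥: q(u) = q(e).   Fix a unit e0 ⟂ t (unit_perp), κ := q(e0).
 Every unit u ⟂ t has q(u)=κ: choose a unit f ⟂ t, e0 (unit_perp) with u in span(e0,f): (if u ∥ e0 take any f, otherwise
 f = normalised u - b(u,e0)e0); u = x e0 + y f, u' = -y e0 + x f, x²+y²=1: q(u)=q(u'), q(u)+q(u') = q(e0)+q(f) = 2κ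
 (q quadratic).  So q(u) = κ b(u,u) on t^⊥, J := (u ↦ W u t t) satisfies b(J u,w) = κ (b(u,w) + b(t,u)b(t,w)) for all u,w
 (J t = 0, b(J u,t)=0, J symmetric by pair), i.e. J u = κ(u + b(t,u)t), trace J = κ(D-1); but trace J = contr W t t = 0, so κ = 0.
 Hence b(W u t t,u)=0 for all u and all FT t with b(t,t)=-1, by scaling for all timelike FT t.  For any x: t + s x is FT for small s, so
 the polynomial s ↦ b(W u (t+sx)(t+sx), u) of degree ≤ 2 vanishes near 0: its s²-coefficient b(W u x x,u) = 0.  `zero_of_diag`.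
-/

open scoped ContDiff Topology
open Set

noncomputable section

set_option linter.unusedSectionVars false
set_option maxSynthPendingDepth 3

namespace Pool.Agent.EG

variable {E : Type*} [NormedAddCommGroup E] [NormedSpace ℝ E] [FiniteDimensional ℝ E]
variable {V : Type*} [NormedAddCommGroup V] [NormedSpace ℝ V] [FiniteDimensional ℝ V]
variable {V' : Type*} [NormedAddCommGroup V'] [NormedSpace ℝ V'] [FiniteDimensional ℝ V']
variable {O O' S : Set E} {g g' : E → BF E} {f : E → E} {c : E → ℝ} {y : E}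

variable {b : BF E} {T : E} {W : E →L[ℝ] E →L[ℝ] E →L[ℝ] E}

theorem IsWeylTensor.pair (hb : ∀ u v, b u v = b v u) (hW : IsWeylTensor b W) (X Y Z U : E) :
    b (W X Y Z) U = b (W Z U X) Y := by
  have an : ∀ X Y Z U, b (W X Y Z) U = - b (W Y X Z) U := by
    intro X Y Z U
    rw [hW.anti X Y Z, map_neg, neg_apply]
  have sk : ∀ X Y Z U, b (W X Y Z) U = - b (W X Y U) Z := by
    intro X Y Z U
    rw [hW.skew X Y Z U, hb Z]
  have bi : ∀ X Y Z U, b (W X Y Z) U + b (W Y Z X) U + b (W Z X Y) U = 0 := by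
    intro X Y Z U
    have h := congrArg (fun v => b v U) (hW.bianchi X Y Z)
    simpa only [map_add, add_apply, map_zero,
      zero_apply] using h
  have b1 := bi X Y Z U
  have b2 := bi Y Z U X
  have b3 := bi Z U X Y
  have b4 := bi U X Y Z
  have e1 := sk X Y Z U
  have e2 := an Z X Y U
  have e3 := sk Y Z X U
  have e4 := sk Z U Y X
  have e5 := sk U X Z Y
  have e6 := an U X Y Z
  have e7 := sk X Z U Y
  have e8 := an Y U X Z
  have e9 := sk U Y Z X
  have e10 := an X U Z Y
  have e11 := an Y U Z X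
  have e12 := sk Y U X Z
  have e13 := sk X Z Y U
  have e14 := an U Y X Z
  have e15 := sk U Y X Z
  have e16 := sk Z X Y U
  have e17 := an Z X U Y
  linarith

theorem IsWeylTensor.zero_of_diag (h : IsLor b T) (hW : IsWeylTensor b W)
    (h0 : ∀ u x, b (W u x x) u = 0) : W = 0 := by
  have an : ∀ X Y Z U, b (W X Y Z) U = - b (W Y X Z) U := by
    intro X Y Z U
    rw [hW.anti X Y Z, map_neg, neg_apply]
  have sk : ∀ X Y Z U, b (W X Y Z) U = - b (W X Y U) Z := by
    intro X Y Z U
    rw [hW.skew X Y Z U, h.symm Z]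
  have bi : ∀ X Y Z U, b (W X Y Z) U + b (W Y Z X) U + b (W Z X Y) U = 0 := by
    intro X Y Z U
    have h := congrArg (fun v => b v U) (hW.bianchi X Y Z)
    simpa only [map_add, add_apply, map_zero,
      zero_apply] using h
  have h1 : ∀ u x w, b (W u x x) w = 0 := by
    intro u x w
    have e1 := h0 (u + w) x
    simp only [map_add, add_apply] at e1
    have e2 := h0 u x
    have e3 := h0 w x
    have e4 := hW.pair h.symm u x x w
    have e5 := an x w u x
    have e6 := sk w x u x
    linarith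
  have h2 : ∀ u x y w, b (W u x y) w = - b (W u y x) w := by
    intro u x y w
    have e1 := h1 u (x + y) w
    simp only [map_add, add_apply] at e1
    have e2 := h1 u x w
    have e3 := h1 u y w
    linarith
  have h3 : ∀ u x y w, b (W u x y) w = 0 := by
    intro u x y w
    have e0 := bi u x y w
    have e1 := an x y u w
    have e2 := h2 y x u w
    have e3 := an y u x w
    have e4 := h2 u y x w
    linarith
  ext u x y
  exact h.nondeg (fun w => h3 u x y w)

/-- Good null vectors. -/
def Good (b : BF E) (T : E) (W : E →L[ℝ] E →L[ℝ] E →L[ℝ] E) (v : E) : Prop :=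
  b v v = 0 ∧ b T v < 0 ∧ ∃ u, b u v = 0 ∧ b (W u v v) u ≠ 0

/-- if there is no good null vector then `b(e,e) q(u) = - b(W u e e) u` on the orthogonal
complement of a unit timelike vector -/
private theorem al1_aux1 (h : IsLor b T) (hno : ∀ v, ¬ Good b T W v)
    {t e u : E} (ht : b t t = -1) (hTt : b T t < 0) (hte : b t e = 0) (hee : 0 < b e e)
    (htu : b t u = 0) (heu : b e u = 0) : b e e * b (W u t t) u = - b (W u e e) u := by
  have htt : b t t < 0 := by rw [ht]; norm_num
  have hlt : IsLor b t := h.lor_of_timelike htt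
  obtain ⟨s, hs, hs2⟩ : ∃ s : ℝ, 0 < s ∧ s * s = b e e :=
    ⟨Real.sqrt (b e e), Real.sqrt_pos.2 hee, Real.mul_self_sqrt hee.le⟩
  have het : b e t = 0 := by rw [h.symm]; exact hte
  have hut : b u t = 0 := by rw [h.symm]; exact htu
  have hue : b u e = 0 := by rw [h.symm]; exact heu
  have key : ∀ c : ℝ, c * c = 1 → b (W u (s • t + c • e) (s • t + c • e)) u = 0 := by
    intro c hc
    by_contra hne
    have hnull : b (s • t + c • e) (s • t + c • e) = 0 := by
      simp only [map_add, map_smul, add_apply,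
        smul_apply, smul_eq_mul, ht, hte, het]
      linear_combination (b e e) * hc - hs2
    have htv : b t (s • t + c • e) < 0 := by
      simp only [map_add, map_smul, smul_eq_mul, ht, hte]
      linarith
    have hT : FT b t T := ⟨h.neg, by rw [h.symm]; exact hTt⟩
    refine hno (s • t + c • e) ⟨hnull, hlt.b_FT_FC hT ⟨hnull.le, htv⟩, u, ?_, hne⟩
    simp only [map_add, map_smul, smul_eq_mul, hut, hue]
    ring
  have k1 := key 1 (by norm_num)
  have k2 := key (-1) (by norm_num)
  simp only [map_add, map_smul, add_apply,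
    smul_apply, smul_eq_mul] at k1 k2
  linear_combination (1 / 2 : ℝ) * k1 + (1 / 2 : ℝ) * k2 - (b (W u t t) u) * hs2

/-- the restriction of `u ↦ b(W u t t) u` to the orthogonal complement of `t` is a multiple
of `b` -/
private theorem al1_aux2 (h : IsLor b T) (hW : IsWeylTensor b W) (hno : ∀ v, ¬ Good b T W v)
    {t e0 : E} (ht : b t t = -1) (hTt : b T t < 0) (hte0 : b t e0 = 0) (hee0 : b e0 e0 = 1)
    {u : E} (htu : b t u = 0) : b (W u t t) u = b (W e0 t t) e0 * b u u := by
  have htt : b t t < 0 := by rw [ht]; norm_num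
  have hlt : IsLor b t := h.lor_of_timelike htt
  have swap : ∀ e f : E, b t e = 0 → b t f = 0 → b e f = 0 → 0 < b e e → 0 < b f f →
      b f f * b (W e t t) e = b e e * b (W f t t) f := by
    intro e f he hf hef hee hff
    have hfe : b f e = 0 := by rw [h.symm]; exact hef
    have e1 := al1_aux1 h hno ht hTt he hee hf hef
    have e2 := al1_aux1 h hno ht hTt hf hff he hfe
    have e3 := hW.pair h.symm f e e f
    linarith
  obtain ⟨x, hx⟩ : ∃ x, x = b e0 u := ⟨_, rfl⟩
  obtain ⟨w, hw⟩ : ∃ w, w = u - x • e0 := ⟨_, rfl⟩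
  have hu : u = x • e0 + w := by rw [hw]; abel
  have htw : b t w = 0 := by
    rw [hw]
    simp only [map_sub, map_smul, smul_eq_mul, htu, hte0]
    ring
  have he0w : b e0 w = 0 := by
    rw [hw]
    simp only [map_sub, map_smul, smul_eq_mul, hee0]
    linarith
  have hwe0 : b w e0 = 0 := by rw [h.symm]; exact he0w
  by_cases hw0 : w = 0
  · rw [hu, hw0, add_zero]
    simp only [map_smul, smul_apply, smul_eq_mul, hee0]
    ring
  · have hww : 0 < b w w := hlt.pos w hw0 htw
    obtain ⟨s, hs, hs2⟩ : ∃ s : ℝ, 0 < s ∧ s * s = b w w :=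
      ⟨Real.sqrt (b w w), Real.sqrt_pos.2 hww, Real.mul_self_sqrt hww.le⟩
    have hq := swap e0 w hte0 htw he0w (by rw [hee0]; norm_num) hww
    rw [hee0, one_mul] at hq
    have hc : ∀ c : ℝ, b (s • e0 + c • w) (s • e0 + c • w) = s * s + c * c * b w w := by
      intro c
      simp only [map_add, map_smul, add_apply,
        smul_apply, smul_eq_mul, hee0, he0w, hwe0]
      ring
    have h2 := swap (s • e0 + (1 : ℝ) • w) (s • e0 + (-1 : ℝ) • w)
      (by simp only [map_add, map_smul, smul_eq_mul, hte0, htw]; ring)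
      (by simp only [map_add, map_smul, smul_eq_mul, hte0, htw]; ring)
      (by
        simp only [map_add, map_smul, add_apply,
          smul_apply, smul_eq_mul, hee0, he0w, hwe0]
        linear_combination hs2)
      (by rw [hc]; nlinarith) (by rw [hc]; nlinarith)
    rw [hc, hc] at h2
    simp only [map_add, map_smul, add_apply,
      smul_apply, smul_eq_mul] at h2
    have h3 : (b (W e0 t t) w + b (W w t t) e0) * (4 * s * b w w) = 0 := by
      linear_combination h2 - (2 * s * (b (W e0 t t) w + b (W w t t) e0)) * hs2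
    have h4 : b (W e0 t t) w + b (W w t t) e0 = 0 := by
      rcases mul_eq_zero.1 h3 with h5 | h5
      · exact h5
      · exfalso
        have : 0 < 4 * s * b w w := by positivity
        linarith
    rw [hu]
    simp only [map_add, map_smul, add_apply,
      smul_apply, smul_eq_mul, hee0, he0w, hwe0]
    linear_combination x * h4 - hq

/-- if there is no good null vector then `b(W u t t) u = 0` for every unit timelike future
vector -/
private theorem al1_aux3 (h : IsLor b T) (hW : IsWeylTensor b W) (hD : 3 ≤ Module.finrank ℝ E)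
    (hno : ∀ v, ¬ Good b T W v) {t : E} (ht : b t t = -1) (hTt : b T t < 0) (u : E) :
    b (W u t t) u = 0 := by
  have htt : b t t < 0 := by rw [ht]; norm_num
  have hlt : IsLor b t := h.lor_of_timelike htt
  obtain ⟨e0, hee0, hte0, -⟩ := h.unit_perp hD htt t
  obtain ⟨κ, hκ⟩ : ∃ κ, κ = b (W e0 t t) e0 := ⟨_, rfl⟩
  have hq : ∀ u, b t u = 0 → b (W u t t) u = κ * b u u := by
    intro u hu
    rw [hκ]
    exact al1_aux2 h hW hno ht hTt hte0 hee0 hu
  have hsym : ∀ u w, b (W u t t) w = b (W w t t) u := by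
    intro u w
    have e4 := hW.pair h.symm u t t w
    have e5 : b (W t w u) t = - b (W w t u) t := by
      rw [hW.anti t w u, map_neg, neg_apply]
    have e6 : b (W w t u) t = - b (W w t t) u := by
      rw [hW.skew w t u t, h.symm u]
    linarith
  have hQ : ∀ u w, b t u = 0 → b t w = 0 → b (W u t t) w = κ * b u w := by
    intro u w hu hw
    have e1 := hq (u + w) (by rw [map_add, hu, hw, add_zero])
    have e2 := hq u hu
    have e3 := hq w hw
    simp only [map_add, add_apply] at e1
    have e4 := hsym u w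
    have e5 := h.symm w u
    linear_combination (1 / 2 : ℝ) * e1 - (1 / 2 : ℝ) * e2 - (1 / 2 : ℝ) * e3 +
      (1 / 2 : ℝ) * e4 + (1 / 2 : ℝ) * κ * e5
  have hJt : W t t t = 0 := by
    have h1 := hW.anti t t t
    have h2 : (2 : ℝ) • W t t t = 0 := by
      rw [two_smul]
      nth_rewrite 1 [h1]
      abel
    rcases smul_eq_zero.1 h2 with h3 | h3
    · norm_num at h3
    · exact h3
  have hJu : ∀ u, b (W u t t) t = 0 := by
    intro u
    rw [hsym, hJt]
    simp
  have hJ : ∀ u, W u t t = κ • (u + b t u • t) := by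
    intro u
    rw [← sub_eq_zero]
    apply h.nondeg
    intro w
    have h1 : b t (u + b t u • t) = 0 := by
      simp only [map_add, map_smul, smul_eq_mul, ht]
      ring
    have h2 : b t (w + b t w • t) = 0 := by
      simp only [map_add, map_smul, smul_eq_mul, ht]
      ring
    have h3 := hQ _ _ h1 h2
    simp only [map_add, map_smul, add_apply,
      smul_apply, smul_eq_mul, hJt, hJu, map_zero,
      zero_apply, ht] at h3
    simp only [map_sub, map_add, map_smul, sub_apply,
      add_apply, smul_apply, smul_eq_mul]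
    have h4 := h.symm u t
    linear_combination h3 + κ * (b t w) * h4
  have htr : κ * ((Module.finrank ℝ E : ℝ) - 1) = 0 := by
    have h1 : contr W t t = 0 := by rw [hW.traceless]; rfl
    rw [contr_apply] at h1
    have h2 : ((W.flip t).flip t : E →L[ℝ] E).toLinearMap =
        κ • (LinearMap.id + ((b t : E →L[ℝ] ℝ).toLinearMap).smulRight t) := by
      ext u
      exact hJ u
    unfold trE at h1
    rw [h2, map_smul, map_add, LinearMap.trace_id, LinearMap.trace_smulRight] at h1
    have h3 : (b t : E →L[ℝ] ℝ).toLinearMap t = -1 := ht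
    rw [h3, smul_eq_mul] at h1
    linarith
  have hκ0 : κ = 0 := by
    rcases mul_eq_zero.1 htr with h1 | h1
    · exact h1
    · exfalso
      have h2 : (3 : ℝ) ≤ (Module.finrank ℝ E : ℝ) := by exact_mod_cast hD
      linarith
  rw [hJ u, hκ0, zero_smul, map_zero, zero_apply]

theorem exists_good (h : IsLor b T) (hW : IsWeylTensor b W) (hD : 3 ≤ Module.finrank ℝ E)
    (hne : W ≠ 0) : ∃ v, Good b T W v := by
  by_contra hno'
  have hno : ∀ v, ¬ Good b T W v := fun v hv => hno' ⟨v, hv⟩
  have hFT : ∀ t, FT b T t → ∀ u, b (W u t t) u = 0 := by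
    intro t ht u
    have hpos : 0 < - b t t := by linarith [ht.1]
    obtain ⟨s, hs, hs2⟩ : ∃ s : ℝ, 0 < s ∧ s * s = - b t t :=
      ⟨Real.sqrt (- b t t), Real.sqrt_pos.2 hpos, Real.mul_self_sqrt hpos.le⟩
    have h1 : b (s⁻¹ • t) (s⁻¹ • t) = -1 := by
      simp only [map_smul, smul_apply, smul_eq_mul]
      have : b t t = - (s * s) := by linarith
      rw [this]
      field_simp
    have h2 : b T (s⁻¹ • t) < 0 := by
      rw [map_smul, smul_eq_mul]
      exact mul_neg_of_pos_of_neg (inv_pos.2 hs) ht.2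
    have h3 := al1_aux3 h hW hD hno h1 h2 u
    simp only [map_smul, smul_apply, smul_eq_mul] at h3
    have h4 : s⁻¹ ≠ 0 := (inv_pos.2 hs).ne'
    rcases mul_eq_zero.1 h3 with h5 | h5
    · exact absurd h5 h4
    · rcases mul_eq_zero.1 h5 with h6 | h6
      · exact absurd h6 h4
      · exact h6
  apply hne
  apply hW.zero_of_diag h
  intro u x
  have hev : ∀ x : E, ∀ᶠ s in 𝓝 (0 : ℝ), FT b T (T + s • x) := by
    intro x
    have h1 : Continuous (fun s : ℝ => b (T + s • x) (T + s • x)) := by
      have : (fun s : ℝ => b (T + s • x) (T + s • x)) =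
          fun s : ℝ => b T T + s * (b T x + b x T) + s * s * b x x := by
        funext s
        simp only [map_add, map_smul, add_apply,
          smul_apply, smul_eq_mul]
        ring
      rw [this]
      fun_prop
    have h2 : Continuous (fun s : ℝ => b T (T + s • x)) := by
      have : (fun s : ℝ => b T (T + s • x)) = fun s : ℝ => b T T + s * b T x := by
        funext s
        simp only [map_add, map_smul, smul_eq_mul]
      rw [this]
      fun_prop
    have h3 : ∀ᶠ s in 𝓝 (0 : ℝ), b (T + s • x) (T + s • x) < 0 :=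
      h1.continuousAt.eventually_lt continuousAt_const (by simpa using h.neg)
    have h4 : ∀ᶠ s in 𝓝 (0 : ℝ), b T (T + s • x) < 0 :=
      h2.continuousAt.eventually_lt continuousAt_const (by simpa using h.neg)
    exact h3.and h4
  obtain ⟨s, ⟨h1, h2⟩, h3⟩ := ((((hev x).and (hev (-x))).filter_mono
    nhdsWithin_le_nhds).and (self_mem_nhdsWithin : {(0 : ℝ)}ᶜ ∈ 𝓝[≠] (0 : ℝ))).exists
  have e0 := hFT T h.FT_T u
  have e1 := hFT _ h1 u
  have e2 := hFT _ h2 u
  simp only [map_add, map_smul, map_neg, smul_neg, add_apply,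
    smul_apply, neg_apply, smul_eq_mul] at e1 e2
  have h4 : s * s * b (W u x x) u = 0 := by
    linear_combination (1 / 2 : ℝ) * e1 + (1 / 2 : ℝ) * e2 - e0
  have hs : s ≠ 0 := h3
  rcases mul_eq_zero.1 h4 with h5 | h5
  · exact absurd h5 (mul_ne_zero hs hs)
  · exact h5

end Pool.Agent.EG

end

end M_AL1

section M_AL2

/-!
Row ec-AL2 (good null vectors span).  v0 good with u0.  N := null_partner (b N N = 0, b v0 N = 1); replace the sign so that
everything is as follows.  For x ∈ E and s near 0:
 ρ(s) = (2 s b(v0,x) + s² b(x,x)) / (2 (1 + s b(x,N))),  v_s = v0 + s x - ρ(s) N,   u_s = u0 - (b(u0,v_s)/b(N,v_s)) N,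
 b(v_s,v_s) = 2 s b(v0,x) + s² b(x,x) - 2ρ(1 + s b(x,N)) = 0,  b(N,v_s) = 1 + s b(x,N) ≠ 0,  b(u_s,v_s)=0.
 s ↦ v_s, u_s are continuous at 0, so for small s: b(T,v_s)<0 and b(W u_s v_s v_s,u_s) ≠ 0: v_s is good (lemma `good_path`).
`span_good`: let p := span of the good vectors; p is closed (finite dimension).  v0 ∈ p.  x ∈ v0^⊥: (v_s - v0)/s = x - (ρ(s)/s)N → x
 as s → 0 (ρ(s)=O(s²)), so x ∈ p.  x ∈ v0^⊥ with b(x,x) ≠ 0 (exists: ker of v0-functional has dimension ≥ 2, b is >0 on vectors of
 v0^⊥ not proportional to v0; or unit_perp with t, w=v0): v_s - v0 - s x = -ρ(s)N with ρ(s) ≠ 0: N ∈ p.  E = v0^⊥ + ℝN.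
`two_good`: v0 and v_s for this x: b(v0,v_s) = -ρ(s) ≠ 0.
-/

open scoped ContDiff Topology
open Set

noncomputable section

set_option linter.unusedSectionVars false
set_option maxSynthPendingDepth 3

namespace Pool.Agent.EG

variable {E : Type*} [NormedAddCommGroup E] [NormedSpace ℝ E] [FiniteDimensional ℝ E]
variable {V : Type*} [NormedAddCommGroup V] [NormedSpace ℝ V] [FiniteDimensional ℝ V]
variable {V' : Type*} [NormedAddCommGroup V'] [NormedSpace ℝ V'] [FiniteDimensional ℝ V']
variable {O O' S : Set E} {g g' : E → BF E} {f : E → E} {c : E → ℝ} {y : E}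

variable {b : BF E} {T : E} {W : E →L[ℝ] E →L[ℝ] E →L[ℝ] E}

def al2_rho (b : BF E) (v N x : E) (s : ℝ) : ℝ :=
  (2 * s * b v x + s ^ 2 * b x x) / (2 * (1 + s * b x N))

def al2_v (b : BF E) (v N x : E) (s : ℝ) : E := v + s • x - al2_rho b v N x s • N

theorem al2_rho_cont (v N x : E) : ContinuousAt (al2_rho b v N x) 0 := by
  unfold al2_rho
  refine ContinuousAt.div (by fun_prop) (by fun_prop) ?_
  simp

theorem al2_rho_zero (v N x : E) : al2_rho b v N x 0 = 0 := by
  simp [al2_rho]

theorem al2_v_cont (v N x : E) : ContinuousAt (al2_v b v N x) 0 := by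
  unfold al2_v
  have h1 := al2_rho_cont (b := b) v N x
  exact (ContinuousAt.add (by fun_prop) (by fun_prop)).sub (h1.smul continuousAt_const)

theorem al2_v_zero (v N x : E) : al2_v b v N x 0 = v := by
  simp [al2_v, al2_rho_zero]

theorem al2_den (N x : E) : ∀ᶠ s : ℝ in 𝓝 0, 1 + s * b x N ≠ 0 := by
  have h1 : ContinuousAt (fun s : ℝ => 1 + s * b x N) 0 := by fun_prop
  apply h1.eventually_ne
  simp

theorem al2_path (h : IsLor b T) {v N : E} (hv : Good b T W v) (hN : b N N = 0)
    (hvN : b v N = 1) (x : E) : ∀ᶠ s in 𝓝 (0 : ℝ), Good b T W (al2_v b v N x s) := by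
  obtain ⟨hvv, hTv, u0, hu, hW⟩ := hv
  have hvc := al2_v_cont (b := b) v N x
  have hdc : ContinuousAt (fun s : ℝ => 1 + s * b x N) 0 := by fun_prop
  have e1 : ∀ᶠ s in 𝓝 (0 : ℝ), b T (al2_v b v N x s) < 0 := by
    have h1 : ContinuousAt (fun s => b T (al2_v b v N x s)) 0 :=
      (b T).continuous.continuousAt.comp hvc
    have h2 : b T (al2_v b v N x 0) < 0 := by rw [al2_v_zero]; exact hTv
    exact h1.eventually_lt continuousAt_const h2
  let u : ℝ → E := fun s => u0 - (b u0 (al2_v b v N x s) / (1 + s * b x N)) • N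
  have huc : ContinuousAt u 0 := by
    have h1 : ContinuousAt (fun s => b u0 (al2_v b v N x s)) 0 :=
      (b u0).continuous.continuousAt.comp hvc
    refine continuousAt_const.sub (ContinuousAt.smul (h1.div hdc ?_) continuousAt_const)
    simp
  have hu0 : u 0 = u0 := by
    simp only [u]
    rw [al2_v_zero, hu]
    simp
  have e2 : ∀ᶠ s in 𝓝 (0 : ℝ), b (W (u s) (al2_v b v N x s) (al2_v b v N x s)) (u s) ≠ 0 := by
    have h1 : ContinuousAt (fun s => b (W (u s) (al2_v b v N x s) (al2_v b v N x s)) (u s)) 0 := by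
      have hWu : ContinuousAt (fun s => W (u s)) 0 := W.continuous.continuousAt.comp huc
      have hWuv : ContinuousAt (fun s => W (u s) (al2_v b v N x s)) 0 := hWu.clm_apply hvc
      have hWuvv : ContinuousAt (fun s => W (u s) (al2_v b v N x s) (al2_v b v N x s)) 0 :=
        hWuv.clm_apply hvc
      have hb : ContinuousAt (fun s => b (W (u s) (al2_v b v N x s) (al2_v b v N x s))) 0 :=
        b.continuous.continuousAt.comp hWuvv
      exact hb.clm_apply huc
    apply h1.eventually_ne
    rw [hu0, al2_v_zero]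
    exact hW
  filter_upwards [e1, e2, al2_den (b := b) N x] with s h1 h2 h3
  have hNv : b N (al2_v b v N x s) = 1 + s * b x N := by
    simp only [al2_v, map_sub, map_add, map_smul, smul_eq_mul, hN, h.symm N v, hvN, h.symm N x]
    ring
  refine ⟨?_, h1, u s, ?_, h2⟩
  · have h4 : al2_rho b v N x s * (2 * (1 + s * b x N)) = 2 * s * b v x + s ^ 2 * b x x := by
      unfold al2_rho
      field_simp
    simp only [al2_v, map_sub, map_add, map_smul, ContinuousLinearMap.sub_apply,
      ContinuousLinearMap.add_apply, ContinuousLinearMap.smul_apply, smul_eq_mul, hN, hvN, hvv,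
      h.symm N v, h.symm x v, h.symm N x]
    linear_combination - h4
  · simp only [u, map_sub, map_smul, ContinuousLinearMap.sub_apply,
      ContinuousLinearMap.smul_apply, smul_eq_mul]
    rw [hNv]
    field_simp
    ring

theorem span_good (h : IsLor b T) (hD : 3 ≤ Module.finrank ℝ E)
    {v : E} (hv : Good b T W v) : Submodule.span ℝ {v | Good b T W v} = ⊤ := by
  have hv0 : v ≠ 0 := by
    rintro rfl
    have := hv.2.1
    simp at this
  obtain ⟨N, hN, hvN⟩ := h.null_partner hv0 hv.1
  obtain ⟨p, hp⟩ : ∃ p, p = Submodule.span ℝ {v | Good b T W v} := ⟨_, rfl⟩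
  rw [← hp]
  have hgood : ∀ w, Good b T W w → w ∈ p := fun w hw => by
    rw [hp]
    exact Submodule.subset_span hw
  have hvp : v ∈ p := hgood v hv
  have hclosed : IsClosed (p : Set E) := p.closed_of_finiteDimensional
  have hx : ∀ x, b v x = 0 → x ∈ p := by
    intro x hx
    let w : ℝ → E := fun s => x - (s * b x x / (2 * (1 + s * b x N))) • N
    have hwc : ContinuousAt w 0 := by
      refine continuousAt_const.sub (ContinuousAt.smul (ContinuousAt.div (by fun_prop)
        (by fun_prop) ?_) continuousAt_const)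
      simp
    have hw0 : w 0 = x := by simp [w]
    have ht : Filter.Tendsto w (𝓝[≠] 0) (𝓝 x) := by
      have h1 := hwc.tendsto
      rw [hw0] at h1
      exact h1.mono_left nhdsWithin_le_nhds
    refine hclosed.mem_of_tendsto ht ?_
    have e1 := (al2_path h hv hN hvN x).filter_mono (nhdsWithin_le_nhds (s := {0}ᶜ))
    have e2 := (al2_den (b := b) N x).filter_mono (nhdsWithin_le_nhds (s := {0}ᶜ))
    filter_upwards [e1, e2, self_mem_nhdsWithin] with s h1 h2 h3
    have h3' : s ≠ 0 := h3
    have h4 : w s = s⁻¹ • (al2_v b v N x s - v) := by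
      have h5 : al2_rho b v N x s = s * (s * b x x / (2 * (1 + s * b x N))) := by
        unfold al2_rho
        rw [hx]
        field_simp
        ring
      simp only [w, al2_v]
      rw [h5, smul_sub, smul_sub, smul_add, smul_smul, smul_smul, ← mul_assoc,
        inv_mul_cancel₀ h3', one_mul, one_smul]
      abel
    rw [h4]
    exact p.smul_mem _ (p.sub_mem (hgood _ h1) hvp)
  have hNp : N ∈ p := by
    obtain ⟨e, he, -, hve⟩ := h.unit_perp hD h.neg v
    have e1 := (al2_path h hv hN hvN e).filter_mono (nhdsWithin_le_nhds (s := {0}ᶜ))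
    have e2 := (al2_den (b := b) N e).filter_mono (nhdsWithin_le_nhds (s := {0}ᶜ))
    have e3 : ∀ᶠ s in 𝓝[≠] (0 : ℝ), s ≠ 0 := self_mem_nhdsWithin
    obtain ⟨s, h1, h2, h3⟩ := (e1.and (e2.and e3)).exists
    have h4 : al2_rho b v N e s ≠ 0 := by
      unfold al2_rho
      rw [hve, he, mul_zero, zero_add, mul_one]
      exact div_ne_zero (pow_ne_zero 2 h3) (mul_ne_zero two_ne_zero h2)
    have h5 : N = (al2_rho b v N e s)⁻¹ • (v + s • e - al2_v b v N e s) := by
      unfold al2_v
      rw [sub_sub_cancel, smul_smul, inv_mul_cancel₀ h4, one_smul]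
    rw [h5]
    exact p.smul_mem _ (p.sub_mem (p.add_mem hvp (p.smul_mem _ (hx e hve))) (hgood _ h1))
  rw [eq_top_iff]
  intro y _
  have h1 : y = (y - b v y • N) + b v y • N := by abel
  rw [h1]
  refine p.add_mem (hx _ ?_) (p.smul_mem _ hNp)
  rw [map_sub, map_smul, hvN, smul_eq_mul, mul_one, sub_self]

theorem two_good (h : IsLor b T) (hD : 3 ≤ Module.finrank ℝ E)
    {v : E} (hv : Good b T W v) : ∃ v1 v2, Good b T W v1 ∧ Good b T W v2 ∧ b v1 v2 ≠ 0 := by
  have hv0 : v ≠ 0 := by
    rintro rfl
    have := hv.2.1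
    simp at this
  obtain ⟨N, hN, hvN⟩ := h.null_partner hv0 hv.1
  obtain ⟨e, he, -, hve⟩ := h.unit_perp hD h.neg v
  have e1 := (al2_path h hv hN hvN e).filter_mono (nhdsWithin_le_nhds (s := {0}ᶜ))
  have e2 := (al2_den (b := b) N e).filter_mono (nhdsWithin_le_nhds (s := {0}ᶜ))
  have e3 : ∀ᶠ s in 𝓝[≠] (0 : ℝ), s ≠ 0 := self_mem_nhdsWithin
  obtain ⟨s, h1, h2, h3⟩ := (e1.and (e2.and e3)).exists
  have h4 : al2_rho b v N e s ≠ 0 := by
    unfold al2_rho
    rw [hve, he, mul_zero, zero_add, mul_one]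
    exact div_ne_zero (pow_ne_zero 2 h3) (mul_ne_zero two_ne_zero h2)
  refine ⟨v, al2_v b v N e s, hv, h1, ?_⟩
  unfold al2_v
  rw [map_sub, map_add, map_smul, map_smul, hv.1, hve, hvN]
  simpa using h4

end Pool.Agent.EG

end

end M_AL2

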