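import Pool.Agent.Lib.MP_eeed5f_gt.S1

section M_AA1

/-!
Row ec-AA1 (box geometry).
`b1c`: apply `image_norm_le_of_norm_deriv_right_le_deriv_boundary'` on [s,t] to f r = ch(σ r) - ch(σ s) and B r = lam (l(ch σ r) - l(ch σ s)): right derivatives
v and lam l v (`DerivIn.chart`), ‖v‖ ≤ lam l v by Box.b1 (FC).
`b3c`: the segment p + s ε T0 is in the ball (convex) and has FT velocity ε T0 (Box.b3, FT_smul): `IsCurve.of_chart`, `tl_of_curve`.
`Box.rev`: same i, y0, r, lam, functional -l (FC for -T: v ↦ -v).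
`T0_ne`: T0 ≠ 0 since g(T0,T0) < 0.
-/

open scoped ContDiff Topology
open Set Filter

noncomputable section

set_option linter.unusedSectionVars false
set_option maxSynthPendingDepth 3

namespace Pool.Agent.EG

variable {E : Type*} [NormedAddCommGroup E] [NormedSpace ℝ E] [FiniteDimensional ℝ E]
variable {M : Type*} [TopologicalSpace M] {ι : Type*}
variable {𝒮 : LSys E M ι}

/-- the constant vector field of the box -/
def Box.T0 (B : Box 𝒮) : E := 𝒮.T B.i B.y0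

/-- point of `M` with coordinates `y` -/
def Box.pt (B : Box 𝒮) (y : E) : M := (𝒮.ch B.i).symm y

theorem aa1_mem (B : Box 𝒮) : B.y0 ∈ Metric.closedBall B.y0 (3 * B.r) :=
  Metric.mem_closedBall_self (by have := B.hr; linarith)

theorem Box.T0_ne (B : Box 𝒮) : B.T0 ≠ 0 := by
  intro h
  have h1 := (B.b3 B.y0 (aa1_mem B)).1
  rw [show 𝒮.T B.i B.y0 = 0 from h, map_zero] at h1
  exact lt_irrefl _ h1

theorem Box.pt_mem_K (B : Box 𝒮) {ρ : ℝ} (hρ : ρ ≤ 4 * B.r) {y : E}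
    (hy : y ∈ Metric.closedBall B.y0 ρ) : B.pt y ∈ B.K ρ ∧ 𝒮.ch B.i (B.pt y) = y := by
  have h1 : y ∈ (𝒮.ch B.i).target := B.ball (Metric.closedBall_subset_closedBall hρ hy)
  have h2 : 𝒮.ch B.i (B.pt y) = y := (𝒮.ch B.i).right_inv h1
  exact ⟨⟨(𝒮.ch B.i).map_target h1, by rw [h2]; exact hy⟩, h2⟩

theorem Box.pt_ch (B : Box 𝒮) {x : M} {ρ : ℝ} (hx : x ∈ B.K ρ) : B.pt (𝒮.ch B.i x) = x :=
  (𝒮.ch B.i).left_inv hx.1

theorem Box.b1c (B : Box 𝒮) {σ : ℝ → M} {a b : ℝ} (h : IsCurve 𝒮 FC σ a b)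
    (hK : ∀ t ∈ Icc a b, σ t ∈ B.K (3 * B.r)) {s t : ℝ} (hs : a ≤ s) (hst : s ≤ t) (ht : t ≤ b) :
    ‖𝒮.ch B.i (σ t) - 𝒮.ch B.i (σ s)‖
      ≤ B.lam * (B.l (𝒮.ch B.i (σ t)) - B.l (𝒮.ch B.i (σ s))) := by
  have hsub : Icc s t ⊆ Icc a b := Icc_subset_Icc hs ht
  have hsrc : ∀ r ∈ Icc s t, σ r ∈ (𝒮.ch B.i).source := fun r hr => (hK r (hsub hr)).1
  have hcont : ContinuousOn (fun r => 𝒮.ch B.i (σ r)) (Icc s t) :=
    (𝒮.ch B.i).continuousOn.comp (h.cont.mono hsub) hsrc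
  have hder : ∀ x ∈ Ico s t, ∃ v, HasDerivWithinAt (fun r => 𝒮.ch B.i (σ r)) v (Ici x) x ∧
      FC (𝒮.g B.i (𝒮.ch B.i (σ x))) (𝒮.T B.i (𝒮.ch B.i (σ x))) v := by
    intro x hx
    have hx' : x ∈ Ico a b := ⟨hs.trans hx.1, hx.2.trans_le ht⟩
    exact DerivIn.chart (Or.inr rfl) (h.right x hx') (sc5_cw_ge h.cont hx') self_mem_Ici
      (hsrc x (Ico_subset_Icc_self hx))
  choose! v hv1 hv2 using hder
  have key := image_norm_le_of_norm_deriv_right_le_deriv_boundary'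
    (f := fun r => 𝒮.ch B.i (σ r) - 𝒮.ch B.i (σ s)) (f' := v) (a := s) (b := t)
    (B := fun r => B.lam * (B.l (𝒮.ch B.i (σ r)) - B.l (𝒮.ch B.i (σ s))))
    (B' := fun r => B.lam * B.l (v r))
    (hcont.sub continuousOn_const) (fun x hx => (hv1 x hx).sub_const _)
    (by simp) (((B.l.continuous.comp_continuousOn hcont).sub continuousOn_const).const_mul _)
    (fun x hx => ((B.l.hasFDerivAt.comp_hasDerivWithinAt x (hv1 x hx)).sub_const _).const_mul _)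
    (fun x hx => B.b1 _ (hK x (hsub (Ico_subset_Icc_self hx))).2 _ (hv2 x hx))
  exact key ⟨hst, le_rfl⟩

theorem Box.b3c (B : Box 𝒮) {p : E} {ε : ℝ} (hε : 0 < ε) (hp : p ∈ Metric.closedBall B.y0 (3 * B.r))
    (hp' : p + ε • B.T0 ∈ Metric.closedBall B.y0 (3 * B.r)) : tl 𝒮 (B.pt p) (B.pt (p + ε • B.T0)) := by
  have hmem : ∀ s ∈ Icc (0 : ℝ) 1, p + s • (ε • B.T0) ∈ Metric.closedBall B.y0 (3 * B.r) :=
    fun s hs => (convex_closedBall B.y0 (3 * B.r)).add_smul_mem hp hp' hs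
  have hder : ∀ s : ℝ, HasDerivAt (fun s : ℝ => p + s • (ε • B.T0)) (ε • B.T0) s := by
    intro s
    have h1 := ((hasDerivAt_id s).smul_const (ε • B.T0)).const_add p
    rwa [one_smul] at h1
  have hFT : ∀ y ∈ Metric.closedBall B.y0 (3 * B.r), FT (𝒮.g B.i y) (𝒮.T B.i y) (ε • B.T0) := by
    intro y hy
    have h1 := B.b3 y hy
    constructor
    · rw [map_smul, map_smul, smul_apply, smul_eq_mul, smul_eq_mul]
      exact mul_neg_of_pos_of_neg hε (mul_neg_of_pos_of_neg hε h1.1)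
    · rw [map_smul, smul_eq_mul]
      exact mul_neg_of_pos_of_neg hε h1.2
  have hsub3 : Metric.closedBall B.y0 (3 * B.r) ⊆ (𝒮.ch B.i).target :=
    (Metric.closedBall_subset_closedBall (by have := B.hr; linarith)).trans B.ball
  have hcurve : IsCurve 𝒮 FT (fun r => (𝒮.ch B.i).symm (p + r • (ε • B.T0))) 0 1 :=
    IsCurve.of_chart (τ := fun r : ℝ => p + r • (ε • B.T0)) (by fun_prop)
      (fun t ht => hsub3 (hmem t ht))
      (fun t ht => ⟨_, (hder t).hasDerivWithinAt, hFT _ (hmem t (Ico_subset_Icc_self ht))⟩)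
      (fun t ht => ⟨_, (hder t).hasDerivWithinAt, hFT _ (hmem t (Ioc_subset_Icc_self ht))⟩)
  have h2 := tl_of_curve zero_lt_one hcurve
  simp only [zero_smul, add_zero, one_smul] at h2
  exact h2

/-- the time-reversed box -/
def Box.rev (B : Box 𝒮) : Box 𝒮.rev where
  i := B.i
  y0 := B.y0
  r := B.r
  l := - B.l
  lam := B.lam
  hr := B.hr
  hlam := B.hlam
  ball := B.ball
  b1 := by
    intro y hy v hv
    have h1 : FC (𝒮.g B.i y) (𝒮.T B.i y) (-v) := by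
      constructor
      · have h2 : 𝒮.g B.i y v v ≤ 0 := hv.1
        simpa using h2
      · have h2 : 𝒮.g B.i y (- 𝒮.T B.i y) v < 0 := hv.2
        simpa using h2
    have h2 := B.b1 y hy (-v) h1
    rw [norm_neg, map_neg] at h2
    exact h2
  b3 := by
    intro y hy
    have h1 := B.b3 y hy
    constructor
    · show 𝒮.g B.i y (- 𝒮.T B.i B.y0) (- 𝒮.T B.i B.y0) < 0
      simpa using h1.1
    · show 𝒮.g B.i y (- 𝒮.T B.i y) (- 𝒮.T B.i B.y0) < 0
      simpa using h1.2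

end Pool.Agent.EG

end

end M_AA1

section M_AA4

/-!
Row ec-AA4 (limit directions of causal curves are causal; paper A3).
Suppose g_y(e,e) > 0, y = ch B.i r0.  `exists_FT_pos`: N FT at y with g_y(N,e) > 0.  -g_y(N,·) is > 0 on FC vectors at y (b_FT_FC); by compactness of
{(y',v): ‖v‖=1, g(v,v) ≤ 0, g(T,v) ≤ 0} there is ρ > 0 with g_y(N,v) < 0 for all v FC at y' with ‖y'-y‖ ≤ ρ (fixed form g_y, moving cone).  By b1c the whole curve σ_k stays
within lam (l(q_k)-l(p_k)) → 0 of p_k → y: so it is in ball y ρ.  Then s ↦ g_y(N, ch σ_k(s)) has right derivative < 0: it is nonincreasing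
(`image_le_of_deriv_right_le_deriv_boundary` or the argument of b1c), g_y(N,q_k-p_k) ≤ 0; divide by e_k > 0 and take the limit: g_y(N,e) ≤ 0.
-/

open scoped ContDiff Topology
open Set Filter

noncomputable section

set_option linter.unusedSectionVars false
set_option maxSynthPendingDepth 3

namespace Pool.Agent.EG

variable {E : Type*} [NormedAddCommGroup E] [NormedSpace ℝ E] [FiniteDimensional ℝ E]
variable {M : Type*} [TopologicalSpace M] {ι : Type*}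
variable {𝒮 : LSys E M ι}

variable {κ : Type*}

theorem aa4_cone {i : ι} {y0 N : E} (hy : y0 ∈ (𝒮.ch i).target)
    (hN : FT (𝒮.g i y0) (𝒮.T i y0) N) :
    ∀ᶠ y in 𝓝 y0, ∀ v ∈ Metric.sphere (0 : E) 1,
      FC (𝒮.g i y) (𝒮.T i y) v → 𝒮.g i y0 N v < 0 := by
  have hL := 𝒮.lor i y0 hy
  have hsph : IsCompact (Metric.sphere (0 : E) 1) := isCompact_sphere _ _
  apply hsph.eventually_forall_of_forall_eventually
  intro v hv
  have hgc : ContinuousAt (fun z : E × E => 𝒮.g i z.1) (y0, v) :=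
    ContinuousAt.comp (g := 𝒮.g i) (f := Prod.fst) (bx1_gcont hy) continuousAt_fst
  have hTc : ContinuousAt (fun z : E × E => 𝒮.T i z.1) (y0, v) :=
    ContinuousAt.comp (g := 𝒮.T i) (f := Prod.fst) (bx1_Tcont hy) continuousAt_fst
  have h0 : v ≠ 0 := by
    intro h
    rw [h] at hv
    simp at hv
  by_cases hvC : 𝒮.g i y0 v v ≤ 0 ∧ 𝒮.g i y0 (𝒮.T i y0) v ≤ 0
  · have h3 : 𝒮.g i y0 (𝒮.T i y0) v ≠ 0 := by
      intro h
      exact absurd (hL.pos v h0 h) (not_lt.2 hvC.1)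
    have hFC : FC (𝒮.g i y0) (𝒮.T i y0) v := ⟨hvC.1, lt_of_le_of_ne hvC.2 h3⟩
    have hneg : 𝒮.g i y0 N v < 0 := hL.b_FT_FC hN hFC
    have h1 : ContinuousAt (fun z : E × E => 𝒮.g i y0 N z.2) (y0, v) :=
      ((𝒮.g i y0 N).continuous.comp continuous_snd).continuousAt
    filter_upwards [h1.eventually (gt_mem_nhds hneg)] with z hz _
    exact hz
  · have h2 : 0 < 𝒮.g i y0 v v ∨ 0 < 𝒮.g i y0 (𝒮.T i y0) v := by
      by_contra hcon
      push Not at hcon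
      exact hvC hcon
    rcases h2 with h2 | h2
    · have h3 : ContinuousAt (fun z : E × E => 𝒮.g i z.1 z.2 z.2) (y0, v) :=
        (hgc.clm_apply continuousAt_snd).clm_apply continuousAt_snd
      filter_upwards [h3.eventually (lt_mem_nhds h2)] with z hz hF
      exact absurd hF.1 (not_le.2 hz)
    · have h3 : ContinuousAt (fun z : E × E => 𝒮.g i z.1 (𝒮.T i z.1) z.2) (y0, v) :=
        (hgc.clm_apply hTc).clm_apply continuousAt_snd
      filter_upwards [h3.eventually (lt_mem_nhds h2)] with z hz hF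
      exact absurd hF.2 (not_lt.2 hz.le)

theorem aa4_cone' {i : ι} {y0 N : E} (hy : y0 ∈ (𝒮.ch i).target)
    (hN : FT (𝒮.g i y0) (𝒮.T i y0) N) :
    ∃ ρ > 0, ∀ y ∈ Metric.ball y0 ρ, y ∈ (𝒮.ch i).target → ∀ v,
      FC (𝒮.g i y) (𝒮.T i y) v → 𝒮.g i y0 N v < 0 := by
  obtain ⟨ρ, hρ, hball⟩ := Metric.eventually_nhds_iff_ball.1 (aa4_cone hy hN)
  refine ⟨ρ, hρ, fun y hy1 hyt v hv => ?_⟩
  have hL := 𝒮.lor i y hyt
  have hv0 : v ≠ 0 := hL.FC_ne hv
  have hn : 0 < ‖v‖ := norm_pos_iff.2 hv0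
  have hmem : (‖v‖⁻¹ • v) ∈ Metric.sphere (0 : E) 1 := by
    rw [mem_sphere_zero_iff_norm, norm_smul, norm_inv, norm_norm, inv_mul_cancel₀ hn.ne']
  have h1 := hball y hy1 _ hmem (hL.FC_smul hv (inv_pos.2 hn))
  rw [map_smul, smul_eq_mul] at h1
  by_contra hcon
  push Not at hcon
  exact absurd h1 (not_lt.2 (mul_nonneg (inv_pos.2 hn).le hcon))

theorem aa4_anti (B : Box 𝒮) {σ : ℝ → M} {a b : ℝ} (hab : a ≤ b) (h : IsCurve 𝒮 FC σ a b)
    (hsrc : ∀ t ∈ Icc a b, σ t ∈ (𝒮.ch B.i).source) (L : E →L[ℝ] ℝ)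
    (hL : ∀ t ∈ Icc a b, ∀ v, FC (𝒮.g B.i (𝒮.ch B.i (σ t))) (𝒮.T B.i (𝒮.ch B.i (σ t))) v → L v < 0) :
    L (𝒮.ch B.i (σ b)) ≤ L (𝒮.ch B.i (σ a)) := by
  have hder : ∀ t ∈ Ico a b, ∃ v, HasDerivWithinAt (fun r => 𝒮.ch B.i (σ r)) v (Ici t) t ∧
      FC (𝒮.g B.i (𝒮.ch B.i (σ t))) (𝒮.T B.i (𝒮.ch B.i (σ t))) v := fun t ht =>
    (h.right t ht).chart (Or.inr rfl) (sc5_cw_ge h.cont ht) self_mem_Ici
      (hsrc t (Ico_subset_Icc_self ht))
  choose! w hw1 hw2 using hder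
  have hc : ContinuousOn (fun r => 𝒮.ch B.i (σ r)) (Icc a b) :=
    (𝒮.ch B.i).continuousOn.comp h.cont hsrc
  have hc' : ContinuousOn (fun r => L (𝒮.ch B.i (σ r))) (Icc a b) :=
    L.continuous.comp_continuousOn hc
  have key := image_le_of_deriv_right_le_deriv_boundary (f := fun r => L (𝒮.ch B.i (σ r)))
    (f' := fun t => L (w t)) (a := a) (b := b) hc'
    (fun t ht => L.hasFDerivAt.comp_hasDerivWithinAt t (hw1 t ht))
    (B := fun _ => L (𝒮.ch B.i (σ a))) (B' := fun _ => 0) le_rfl continuousOn_const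
    (fun t ht => hasDerivWithinAt_const _ _ _)
    (fun t ht => (hL t (Ico_subset_Icc_self ht) _ (hw2 t ht)).le)
  exact key (right_mem_Icc.2 hab)

theorem cone_limit [T2Space M] (B : Box 𝒮) (U : Ultrafilter κ) {σ : κ → ℝ → M} {a b : κ → ℝ}
    (hab : ∀ᶠ k in U, a k ≤ b k) (hσ : ∀ᶠ k in U, IsCurve 𝒮 FC (σ k) (a k) (b k))
    (hK : ∀ᶠ k in U, ∀ t ∈ Icc (a k) (b k), σ k t ∈ B.K (2 * B.r)) {r0 : M} (hr0 : r0 ∈ B.K (2 * B.r))
    (hp : Tendsto (fun k => σ k (a k)) U (𝓝 r0)) (hq : Tendsto (fun k => σ k (b k)) U (𝓝 r0))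
    {ε : κ → ℝ} (hε : ∀ᶠ k in U, 0 < ε k) {e : E}
    (he : Tendsto (fun k => (ε k)⁻¹ • (𝒮.ch B.i (σ k (b k)) - 𝒮.ch B.i (σ k (a k)))) U (𝓝 e)) :
    𝒮.g B.i (𝒮.ch B.i r0) e e ≤ 0 := by
  by_contra hcon
  rw [not_le] at hcon
  have hsub3 : Metric.closedBall B.y0 (2 * B.r) ⊆ Metric.closedBall B.y0 (3 * B.r) :=
    Metric.closedBall_subset_closedBall (by have := B.hr; linarith)
  have hsubt : Metric.closedBall B.y0 (2 * B.r) ⊆ (𝒮.ch B.i).target :=
    (Metric.closedBall_subset_closedBall (by have := B.hr; linarith)).trans B.ball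
  have hy : 𝒮.ch B.i r0 ∈ (𝒮.ch B.i).target := hsubt hr0.2
  obtain ⟨N, hN, hNe⟩ := (𝒮.lor B.i _ hy).exists_FT_pos hcon
  obtain ⟨ρ, hρ, hcone⟩ := aa4_cone' hy hN
  have hcp : Tendsto (fun k => 𝒮.ch B.i (σ k (a k))) U (𝓝 (𝒮.ch B.i r0)) :=
    ((𝒮.ch B.i).continuousAt hr0.1).tendsto.comp hp
  have hcq : Tendsto (fun k => 𝒮.ch B.i (σ k (b k))) U (𝓝 (𝒮.ch B.i r0)) :=
    ((𝒮.ch B.i).continuousAt hr0.1).tendsto.comp hq
  have hl : Tendsto (fun k => B.lam * (B.l (𝒮.ch B.i (σ k (b k))) - B.l (𝒮.ch B.i (σ k (a k)))))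
      U (𝓝 0) := by
    have h1 := (((B.l.continuous.tendsto _).comp hcq).sub ((B.l.continuous.tendsto _).comp hcp)).const_mul
      B.lam
    simpa using h1
  have hsmall : ∀ᶠ k in U, B.lam * (B.l (𝒮.ch B.i (σ k (b k))) - B.l (𝒮.ch B.i (σ k (a k)))) < ρ / 2 :=
    hl.eventually (gt_mem_nhds (half_pos hρ))
  have hnear : ∀ᶠ k in U, dist (𝒮.ch B.i (σ k (a k))) (𝒮.ch B.i r0) < ρ / 2 :=
    (Metric.tendsto_nhds.1 hcp) _ (half_pos hρ)
  have hle : ∀ᶠ k in U, 𝒮.g B.i (𝒮.ch B.i r0) N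
      ((ε k)⁻¹ • (𝒮.ch B.i (σ k (b k)) - 𝒮.ch B.i (σ k (a k)))) ≤ 0 := by
    filter_upwards [hab, hσ, hK, hε, hsmall, hnear] with k hk1 hk2 hk3 hk4 hk5 hk6
    have hK3 : ∀ t ∈ Icc (a k) (b k), σ k t ∈ B.K (3 * B.r) := fun t ht =>
      ⟨(hk3 t ht).1, hsub3 (hk3 t ht).2⟩
    have hball : ∀ t ∈ Icc (a k) (b k), 𝒮.ch B.i (σ k t) ∈ Metric.ball (𝒮.ch B.i r0) ρ := by
      intro t ht
      have h1 := B.b1c hk2 hK3 le_rfl ht.1 ht.2
      have h2 := B.b1c hk2 hK3 ht.1 ht.2 le_rfl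
      have h3 : 0 ≤ B.lam * (B.l (𝒮.ch B.i (σ k (b k))) - B.l (𝒮.ch B.i (σ k t))) :=
        (norm_nonneg _).trans h2
      rw [Metric.mem_ball]
      have h4 : dist (𝒮.ch B.i (σ k t)) (𝒮.ch B.i (σ k (a k))) < ρ / 2 := by
        rw [dist_eq_norm]
        refine lt_of_le_of_lt h1 ?_
        have e1 : B.lam * (B.l (𝒮.ch B.i (σ k (b k))) - B.l (𝒮.ch B.i (σ k (a k)))) =
            B.lam * (B.l (𝒮.ch B.i (σ k (b k))) - B.l (𝒮.ch B.i (σ k t))) +
            B.lam * (B.l (𝒮.ch B.i (σ k t)) - B.l (𝒮.ch B.i (σ k (a k)))) := by ring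
        linarith
      calc dist (𝒮.ch B.i (σ k t)) (𝒮.ch B.i r0)
          ≤ dist (𝒮.ch B.i (σ k t)) (𝒮.ch B.i (σ k (a k))) + dist (𝒮.ch B.i (σ k (a k))) (𝒮.ch B.i r0) :=
            dist_triangle _ _ _
        _ < ρ := by linarith
    have h5 := aa4_anti B hk1 hk2 (fun t ht => (hk3 t ht).1) (𝒮.g B.i (𝒮.ch B.i r0) N)
      (fun t ht v hv => hcone _ (hball t ht) (hsubt (hk3 t ht).2) v hv)
    rw [map_smul, smul_eq_mul, map_sub]
    exact mul_nonpos_of_nonneg_of_nonpos (inv_pos.2 hk4).le (by linarith)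
  have hlim : Tendsto (fun k => 𝒮.g B.i (𝒮.ch B.i r0) N
      ((ε k)⁻¹ • (𝒮.ch B.i (σ k (b k)) - 𝒮.ch B.i (σ k (a k))))) U (𝓝 (𝒮.g B.i (𝒮.ch B.i r0) N e)) :=
    ((𝒮.g B.i (𝒮.ch B.i r0) N).continuous.tendsto _).comp he
  have := le_of_tendsto hlim hle
  linarith

end Pool.Agent.EG

end

end M_AA4

section M_AA5

/-!
Row ec-AA5 (one step; paper A4 STEP).
U-many k: σ_k(a_k) ∈ B.V.  Let s_k = sup of the s ∈ [a_k,b_k] such that σ_k([a_k,s]) ⊂ {x ∈ source : ‖ch x - ch σ_k(a_k)‖ ≤ r}.  This set of s is a closed interval [a_k,s_k]: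
(all its points are in the compact set B.K(2r) because ‖ch σ_k(a_k) - y0‖ < r; K compact hence closed, σ_k continuous).  If s_k < b_k then ‖ch σ_k(s_k) - ch σ_k(a_k)‖ = r
(otherwise < r, and the open condition continues a bit: source open, ch continuous).  The two cases are decided U-eventually; in the first case replace s by b.
σ_k(s_k) ∈ B.K(2r) converges (`Box.lim`), ch continuous at the limits (in source): ‖ch p' - ch p‖ = r.
-/

open scoped ContDiff Topology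
open Set Filter

noncomputable section

set_option linter.unusedSectionVars false
set_option maxSynthPendingDepth 3

namespace Pool.Agent.EG

variable {E : Type*} [NormedAddCommGroup E] [NormedSpace ℝ E] [FiniteDimensional ℝ E]
variable {M : Type*} [TopologicalSpace M] {ι : Type*}
variable {𝒮 : LSys E M ι}

variable {κ : Type*}

theorem aa5_one [T2Space M] (B : Box 𝒮) {σ : ℝ → M} {a b : ℝ} (hab : a ≤ b) (hσ : ContinuousOn σ (Icc a b))
    (hV : σ a ∈ B.V) : ∃ s, a ≤ s ∧ s ≤ b ∧ (∀ t ∈ Icc a s, σ t ∈ B.K (2 * B.r)) ∧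
      (s ≠ b → ‖𝒮.ch B.i (σ s) - 𝒮.ch B.i (σ a)‖ = B.r) := by
  have hr := B.hr
  set c0 := 𝒮.ch B.i (σ a) with hc0
  have hc0' : dist c0 B.y0 < B.r := hV.2
  set O : Set M := (𝒮.ch B.i).source ∩ 𝒮.ch B.i ⁻¹' (Metric.ball c0 B.r) with hO
  have hOo : IsOpen O := (𝒮.ch B.i).isOpen_inter_preimage Metric.isOpen_ball
  set C : Set M := (𝒮.ch B.i).symm '' (Metric.closedBall B.y0 (2 * B.r) ∩ Metric.closedBall c0 B.r) with hC
  have htar : Metric.closedBall B.y0 (2 * B.r) ⊆ (𝒮.ch B.i).target :=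
    (Metric.closedBall_subset_closedBall (by linarith)).trans B.ball
  have hCc : IsCompact C := by
    apply IsCompact.image_of_continuousOn
    · exact (isCompact_closedBall _ _).inter_right Metric.isClosed_closedBall
    · exact (𝒮.ch B.i).continuousOn_symm.mono (inter_subset_left.trans htar)
  have hCcl : IsClosed C := hCc.isClosed
  have hCK : ∀ x ∈ C, x ∈ B.K (2 * B.r) ∧ ‖𝒮.ch B.i x - c0‖ ≤ B.r := by
    rintro x ⟨y, ⟨hy1, hy2⟩, rfl⟩
    have h1 := htar hy1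
    refine ⟨⟨(𝒮.ch B.i).map_target h1, ?_⟩, ?_⟩
    · rw [(𝒮.ch B.i).right_inv h1]; exact hy1
    · rw [(𝒮.ch B.i).right_inv h1, ← dist_eq_norm]; exact hy2
  have hball : Metric.ball c0 B.r ⊆ Metric.closedBall B.y0 (2 * B.r) := by
    intro y hy
    rw [Metric.mem_ball] at hy
    rw [Metric.mem_closedBall]
    have := dist_triangle y c0 B.y0
    linarith
  have hOC : O ⊆ C := by
    rintro x ⟨hx1, hx2⟩
    refine ⟨𝒮.ch B.i x, ⟨hball hx2, Metric.ball_subset_closedBall hx2⟩, (𝒮.ch B.i).left_inv hx1⟩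
  have haO : σ a ∈ O := ⟨hV.1, by
    show 𝒮.ch B.i (σ a) ∈ Metric.ball c0 B.r
    rw [← hc0]; exact Metric.mem_ball_self hr⟩
  set Z : Set ℝ := Icc a b ∩ σ ⁻¹' Oᶜ with hZ
  have hZcl : IsClosed Z := hσ.preimage_isClosed_of_isClosed isClosed_Icc hOo.isClosed_compl
  have hZc : IsCompact Z := isCompact_Icc.of_isClosed_subset hZcl inter_subset_left
  rcases Z.eq_empty_or_nonempty with hZe | hZn
  · refine ⟨b, hab, le_rfl, ?_, fun h => absurd rfl h⟩
    intro t ht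
    have h1 : σ t ∈ O := by
      by_contra hcon
      have : t ∈ Z := ⟨ht, hcon⟩
      rw [hZe] at this
      exact this
    exact (hCK _ (hOC h1)).1
  · obtain ⟨s, hsZ, hsmin⟩ := hZc.exists_isLeast hZn
    have hsne : a ≠ s := by
      rintro rfl
      exact hsZ.2 haO
    have has : a < s := lt_of_le_of_ne hsZ.1.1 hsne
    have hlt : ∀ t ∈ Ico a s, σ t ∈ O := by
      intro t ht
      by_contra hcon
      have h1 : t ∈ Z := ⟨⟨ht.1, ht.2.le.trans hsZ.1.2⟩, hcon⟩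
      exact absurd (hsmin h1) (not_le.mpr ht.2)
    have hcl : closure (Ico a s) = Icc a s := closure_Ico hsne
    have hmaps : MapsTo σ (Icc a s) C := by
      have h1 : MapsTo σ (Ico a s) C := fun t ht => hOC (hlt t ht)
      have h2 := h1.closure_of_continuousOn (by
        rw [hcl]; exact hσ.mono (Icc_subset_Icc_right hsZ.1.2))
      rw [hcl, hCcl.closure_eq] at h2
      exact h2
    refine ⟨s, has.le, hsZ.1.2, fun t ht => (hCK _ (hmaps ht)).1, fun _ => ?_⟩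
    have h1 := hCK _ (hmaps (right_mem_Icc.mpr has.le))
    apply le_antisymm h1.2
    by_contra hcon
    push Not at hcon
    apply hsZ.2
    refine ⟨h1.1.1, ?_⟩
    show 𝒮.ch B.i (σ s) ∈ Metric.ball c0 B.r
    rw [Metric.mem_ball, dist_eq_norm]
    exact hcon

theorem step [T2Space M] (B : Box 𝒮) (U : Ultrafilter κ) {σ : κ → ℝ → M} {a b : κ → ℝ}
    (hab : ∀ᶠ k in U, a k ≤ b k) (hσ : ∀ᶠ k in U, ContinuousOn (σ k) (Icc (a k) (b k))) {p : M}
    (hp : Tendsto (fun k => σ k (a k)) U (𝓝 p)) (hB : p ∈ B.V) :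
    ∃ s : κ → ℝ, (∀ᶠ k in U, a k ≤ s k ∧ s k ≤ b k ∧ ∀ t ∈ Icc (a k) (s k), σ k t ∈ B.K (2 * B.r)) ∧
      ∃ p' ∈ B.K (2 * B.r), Tendsto (fun k => σ k (s k)) U (𝓝 p') ∧
        (s = b ∨ ‖𝒮.ch B.i p' - 𝒮.ch B.i p‖ = B.r) := by
  classical
  have hV : ∀ᶠ k in U, σ k (a k) ∈ B.V := hp (B.isOpen_V.mem_nhds hB)
  have hgood : ∀ᶠ k in U, ∃ s, a k ≤ s ∧ s ≤ b k ∧ (∀ t ∈ Icc (a k) s, σ k t ∈ B.K (2 * B.r)) ∧
      (s ≠ b k → ‖𝒮.ch B.i (σ k s) - 𝒮.ch B.i (σ k (a k))‖ = B.r) := by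
    filter_upwards [hab, hσ, hV] with k h1 h2 h3
    exact aa5_one B h1 h2 h3
  obtain ⟨s0, hs0⟩ : ∃ s0 : κ → ℝ, ∀ᶠ k in U, a k ≤ s0 k ∧ s0 k ≤ b k ∧ (∀ t ∈ Icc (a k) (s0 k), σ k t ∈ B.K (2 * B.r)) ∧
      (s0 k ≠ b k → ‖𝒮.ch B.i (σ k (s0 k)) - 𝒮.ch B.i (σ k (a k))‖ = B.r) := by
    refine ⟨fun k => if h : ∃ s, a k ≤ s ∧ s ≤ b k ∧ (∀ t ∈ Icc (a k) s, σ k t ∈ B.K (2 * B.r)) ∧
      (s ≠ b k → ‖𝒮.ch B.i (σ k s) - 𝒮.ch B.i (σ k (a k))‖ = B.r) then Classical.choose h else 0, ?_⟩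
    filter_upwards [hgood] with k hk
    rw [dif_pos hk]
    exact Classical.choose_spec hk
  have h2r : 2 * B.r ≤ 4 * B.r := by linarith [B.hr]
  rcases Ultrafilter.eventually_or.mp (Filter.Eventually.of_forall (f := (U : Filter κ))
    (fun k => em (s0 k = b k))) with hcase | hcase
  · have hall : ∀ᶠ k in U, a k ≤ b k ∧ b k ≤ b k ∧ ∀ t ∈ Icc (a k) (b k), σ k t ∈ B.K (2 * B.r) := by
      filter_upwards [hs0, hcase] with k hk hk'
      rw [hk'] at hk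
      exact ⟨hk.1, le_rfl, hk.2.2.1⟩
    obtain ⟨p', hp', hlim⟩ := Box.lim U B h2r (x := fun k => σ k (b k)) (by
      filter_upwards [hall] with k hk
      exact hk.2.2 _ (right_mem_Icc.mpr hk.1))
    exact ⟨b, hall, p', hp', hlim, Or.inl rfl⟩
  · obtain ⟨p', hp', hlim⟩ := Box.lim U B h2r (x := fun k => σ k (s0 k)) (by
      filter_upwards [hs0] with k hk
      exact hk.2.2.1 _ (right_mem_Icc.mpr hk.1))
    refine ⟨s0, ?_, p', hp', hlim, Or.inr ?_⟩
    · filter_upwards [hs0] with k hk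
      exact ⟨hk.1, hk.2.1, hk.2.2.1⟩
    · have hc1 : Tendsto (fun k => 𝒮.ch B.i (σ k (s0 k))) U (𝓝 (𝒮.ch B.i p')) :=
        ((𝒮.ch B.i).continuousAt hp'.1).tendsto.comp hlim
      have hc2 : Tendsto (fun k => 𝒮.ch B.i (σ k (a k))) U (𝓝 (𝒮.ch B.i p)) :=
        ((𝒮.ch B.i).continuousAt hB.1).tendsto.comp hp
      have hc3 : Tendsto (fun k => ‖𝒮.ch B.i (σ k (s0 k)) - 𝒮.ch B.i (σ k (a k))‖) U
          (𝓝 ‖𝒮.ch B.i p' - 𝒮.ch B.i p‖) := (hc1.sub hc2).norm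
      have hc4 : Tendsto (fun k => ‖𝒮.ch B.i (σ k (s0 k)) - 𝒮.ch B.i (σ k (a k))‖) U (𝓝 B.r) := by
        apply Tendsto.congr' _ tendsto_const_nhds
        filter_upwards [hs0, hcase] with k hk hk'
        exact (hk.2.2.2 hk').symm
      exact tendsto_nhds_unique hc3 hc4

end Pool.Agent.EG

end

end M_AA5

section M_AA6

/-!
Row ec-AA6 (chains with uniform steps do not converge; timelike chains exist; paper A4, A5).
`chain_nonconv`: J m := least index with p m ∈ (B (J m)).V.  If p m → q, q ∈ (B N).V (open), then p m ∈ (B N).V eventually, so J m ≤ N eventually; some j ≤ N is taken infinitely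
often (pigeonhole, `Filter.Frequently`), for these m: p m ∈ (B j).V ⊂ (B j).K r compact, so q ∈ (B j).K r ⊂ source and ch is continuous at q: ch(p (m+1)) - ch(p m) → 0,
contradicting ‖·‖ = r_j > 0.
`exists_chain`: z (n+1) = pt(ch (z n) + ρ T0), ρ = r/‖T0‖, in the least index box B_j ∋ z n (Nat.find): ‖difference‖ = r, both points in closedBall y0 (2r): b3c.
-/

open scoped ContDiff Topology
open Set Filter

noncomputable section

set_option linter.unusedSectionVars false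
set_option maxSynthPendingDepth 3

namespace Pool.Agent.EG

variable {E : Type*} [NormedAddCommGroup E] [NormedSpace ℝ E] [FiniteDimensional ℝ E]
variable {M : Type*} [TopologicalSpace M] {ι : Type*}
variable {𝒮 : LSys E M ι}

theorem chain_nonconv [T2Space M] {B : ℕ → Box 𝒮} (hB : ∀ x, ∃ n, x ∈ (B n).V) {p : ℕ → M}
    (hp : ∀ m, ∃ j, p m ∈ (B j).V ∧ (∀ i < j, p m ∉ (B i).V) ∧ p (m + 1) ∈ (B j).K (2 * (B j).r) ∧
      ‖𝒮.ch (B j).i (p (m + 1)) - 𝒮.ch (B j).i (p m)‖ = (B j).r) :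
    ¬ ∃ q, Tendsto p atTop (𝓝 q) := by
  rintro ⟨q, hq⟩
  choose J hJ1 hJ2 hJ3 hJ4 using hp
  obtain ⟨N, hN⟩ := hB q
  have e1 : ∀ᶠ m in atTop, p m ∈ (B N).V := hq ((B N).isOpen_V.mem_nhds hN)
  have e2 : ∀ᶠ m in atTop, J m ≤ N := by
    filter_upwards [e1] with m hm
    by_contra hlt
    exact hJ2 m N (not_le.mp hlt) hm
  have e3 : ∃ j, ∃ᶠ m in atTop, J m = j := by
    by_contra hcon
    push Not at hcon
    have h1 : ∀ᶠ m in atTop, ∀ j ∈ Finset.range (N + 1), ¬ J m = j := by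
      rw [Filter.eventually_all_finset]
      intro j _
      exact hcon j
    obtain ⟨m, hm1, hm2⟩ := (h1.and e2).exists
    exact hm1 (J m) (Finset.mem_range.mpr (Nat.lt_succ_of_le hm2)) rfl
  obtain ⟨j, hj⟩ := e3
  have hr := (B j).hr
  have hK : IsClosed ((B j).K (B j).r) := ((B j).isCompact_K (by linarith)).isClosed
  have hf : ∃ᶠ m in atTop, p m ∈ (B j).K (B j).r := by
    refine hj.mono ?_
    intro m hm
    have h1 := hJ1 m
    rw [hm] at h1
    exact (B j).V_sub_K le_rfl h1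
  have hqK : q ∈ (B j).K (B j).r := hK.mem_of_frequently_of_tendsto hf hq
  have hc : Tendsto (fun m => 𝒮.ch (B j).i (p m)) atTop (𝓝 (𝒮.ch (B j).i q)) :=
    ((𝒮.ch (B j).i).continuousAt hqK.1).tendsto.comp hq
  have hc' : Tendsto (fun m => 𝒮.ch (B j).i (p (m + 1))) atTop (𝓝 (𝒮.ch (B j).i q)) :=
    hc.comp (tendsto_add_atTop_nat 1)
  have hd : Tendsto (fun m => ‖𝒮.ch (B j).i (p (m + 1)) - 𝒮.ch (B j).i (p m)‖) atTop (𝓝 0) := by
    have h1 := (hc'.sub hc).norm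
    simpa using h1
  have he : ∀ᶠ m in atTop, ‖𝒮.ch (B j).i (p (m + 1)) - 𝒮.ch (B j).i (p m)‖ < (B j).r :=
    hd.eventually (Iio_mem_nhds hr)
  obtain ⟨m, hm1, hm2⟩ := (hj.and_eventually he).exists
  have h4 := hJ4 m
  rw [hm1] at h4
  exact absurd h4 hm2.ne

/-- the next point of the chain -/
theorem aa6_step (B : Box 𝒮) {x : M} (hx : x ∈ B.V) : ∃ y : M, tl 𝒮 x y ∧ y ∈ B.K (2 * B.r) ∧
    ‖𝒮.ch B.i y - 𝒮.ch B.i x‖ = B.r := by
  have hr := B.hr
  have hT : 0 < ‖B.T0‖ := norm_pos_iff.mpr B.T0_ne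
  have hxK : x ∈ B.K B.r := B.V_sub_K le_rfl hx
  have hρ : 0 < B.r / ‖B.T0‖ := div_pos hr hT
  have hn : ‖(B.r / ‖B.T0‖) • B.T0‖ = B.r := by
    rw [norm_smul, Real.norm_of_nonneg hρ.le]
    field_simp
  have h1 : 𝒮.ch B.i x ∈ Metric.closedBall B.y0 B.r := hxK.2
  have h2 : 𝒮.ch B.i x + (B.r / ‖B.T0‖) • B.T0 ∈ Metric.closedBall B.y0 (2 * B.r) := by
    rw [mem_closedBall_iff_norm] at h1 ⊢
    have e : 𝒮.ch B.i x + (B.r / ‖B.T0‖) • B.T0 - B.y0
        = (𝒮.ch B.i x - B.y0) + (B.r / ‖B.T0‖) • B.T0 := by abel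
    rw [e]
    refine (norm_add_le _ _).trans ?_
    rw [hn]
    linarith
  obtain ⟨h3, h4⟩ := B.pt_mem_K (by linarith) h2
  refine ⟨B.pt (𝒮.ch B.i x + (B.r / ‖B.T0‖) • B.T0), ?_, h3, ?_⟩
  · have h5 := B.b3c hρ (Metric.closedBall_subset_closedBall (by linarith) h1)
      (Metric.closedBall_subset_closedBall (by linarith) h2)
    rwa [B.pt_ch hxK] at h5
  · rw [h4, add_sub_cancel_left, hn]

theorem exists_chain [T2Space M] [SecondCountableTopology M] (𝒮 : LSys E M ι) (x : M) :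
    ∃ z : ℕ → M, z 0 = x ∧ (∀ n, tl 𝒮 (z n) (z (n + 1))) ∧ ¬ ∃ q, Tendsto z atTop (𝓝 q) := by
  classical
  have : Nonempty M := ⟨x⟩
  obtain ⟨B, hB⟩ := exists_box_cover 𝒮
  have hnext : ∀ y : M, ∃ y' : M, tl 𝒮 y y' ∧ y' ∈ (B (Nat.find (hB y))).K (2 * (B (Nat.find (hB y))).r) ∧
      ‖𝒮.ch (B (Nat.find (hB y))).i y' - 𝒮.ch (B (Nat.find (hB y))).i y‖ = (B (Nat.find (hB y))).r :=
    fun y => aa6_step _ (Nat.find_spec (hB y))
  choose nx h1 h2 h3 using hnext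
  refine ⟨fun n => nx^[n] x, rfl, ?_, ?_⟩
  · intro n
    show tl 𝒮 (nx^[n] x) (nx^[n + 1] x)
    rw [Function.iterate_succ_apply']
    exact h1 _
  · refine chain_nonconv hB ?_
    intro m
    refine ⟨Nat.find (hB (nx^[m] x)), Nat.find_spec (hB (nx^[m] x)), ?_, ?_, ?_⟩
    · intro i hi
      exact Nat.find_min (hB (nx^[m] x)) hi
    · show nx^[m + 1] x ∈ _
      rw [Function.iterate_succ_apply']
      exact h2 _
    · show ‖𝒮.ch _ (nx^[m + 1] x) - _‖ = _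
      rw [Function.iterate_succ_apply']
      exact h3 _

end Pool.Agent.EG

end

end M_AA6

section M_AA7

/-!
Row ec-AA7 (paper A5 = F1, A6, A11).
`F1`: M is metrizable (second countable + regular: locally compact T2; M is locally homeomorphic to E through the charts: every point has a compact neighbourhood B.K;
`LocallyCompactSpace M`, then `TopologicalSpace.metrizableSpace_of_t3_secondCountable`); fix a metric d.  Choose y n ≪ x n with d(y n, x n) < 1/(n+1) and y n ≪ y (n+1):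
y n ≪ x n ≤ x (n+1) gives y n ≪ x (n+1), so for y close to x (n+1) also y n ≪ y, and there are such y ≪ x (n+1) (exists_past, tl_open).  If y n converges so does x n.
Past chain from y 0: `exists_chain` for 𝒮.rev.  z i = y i (i ≥ 0), z (-m) = past chain.  `Noh.noh`: q ≪ z i; for i<0 z i ≪ y 0; so q ≪ y n for some n ≥ 0, y n ≪ x n.
`antisymm`: if x ≠ y and x ≤ y ≤ x, the sequence x,y,x,y,.. is a nonconvergent ≤-chain: F1 with q = x: x ≪ x or x ≪ y ≤ x ⇒ x ≪ x: contradiction.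
`directed'`: exists_chain through x both ways, z_i ≪ z_{i+1}, noh for q = x and q = y.
-/

open scoped ContDiff Topology
open Set Filter

noncomputable section

set_option linter.unusedSectionVars false
set_option maxSynthPendingDepth 3

namespace Pool.Agent.EG

variable {E : Type*} [NormedAddCommGroup E] [NormedSpace ℝ E] [FiniteDimensional ℝ E]
variable {M : Type*} [TopologicalSpace M] {ι : Type*}
variable {𝒮 : LSys E M ι}

theorem aa7_metrizable [T2Space M] [SecondCountableTopology M] (𝒮 : LSys E M ι) :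
    TopologicalSpace.MetrizableSpace M := by
  haveI : WeaklyLocallyCompactSpace M := by
    refine ⟨fun x => ?_⟩
    obtain ⟨B, hB⟩ := exists_box 𝒮 x
    refine ⟨B.K B.r, B.isCompact_K (by linarith [B.hr]), ?_⟩
    exact Filter.mem_of_superset (B.isOpen_V.mem_nhds hB) (B.V_sub_K le_rfl)
  exact TopologicalSpace.metrizableSpace_of_t3_secondCountable M

/-- a nonconvergent forward chain is entered by every point -/
theorem aa7_enter [T2Space M] [SecondCountableTopology M] (hN : Noh 𝒮) {y : ℕ → M}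
    (hy : ∀ n, tl 𝒮 (y n) (y (n + 1))) (hc : ¬ ∃ p, Tendsto y atTop (𝓝 p)) (q : M) :
    ∃ n, tl 𝒮 q (y n) := by
  obtain ⟨w, hw0, hw, hwc⟩ := exists_chain 𝒮.rev (y 0)
  have hw' : ∀ n, tl 𝒮 (w (n + 1)) (w n) := fun n => tl_rev.1 (hw n)
  let z : ℤ → M := fun i => if 0 ≤ i then y i.toNat else w (-i).toNat
  have hzpos : ∀ n : ℕ, z (n : ℤ) = y n := by
    intro n
    show (if 0 ≤ (n : ℤ) then y (n : ℤ).toNat else w (-(n : ℤ)).toNat) = y n
    rw [if_pos (Int.natCast_nonneg n), Int.toNat_natCast]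
  have hzneg : ∀ n : ℕ, z (-(n : ℤ)) = w n := by
    intro n
    rcases Nat.eq_zero_or_pos n with h | h
    · subst h
      rw [show (-((0 : ℕ) : ℤ)) = ((0 : ℕ) : ℤ) by simp, hzpos 0, hw0]
    · show (if 0 ≤ (-(n : ℤ)) then y (-(n : ℤ)).toNat else w (-(-(n : ℤ))).toNat) = w n
      rw [if_neg (by omega), neg_neg, Int.toNat_natCast]
  have hzchain : ∀ i : ℤ, tl 𝒮 (z i) (z (i + 1)) := by
    intro i
    rcases lt_or_ge i 0 with h | h
    · obtain ⟨n, rfl⟩ : ∃ n : ℕ, i = -((n : ℤ) + 1) := ⟨(-i - 1).toNat, by omega⟩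
      have e1 : (-((n : ℤ) + 1)) = -((n + 1 : ℕ) : ℤ) := by push_cast; ring
      have e2 : (-((n : ℤ) + 1)) + 1 = -((n : ℕ) : ℤ) := by ring
      rw [e2, hzneg n, e1, hzneg (n + 1)]
      exact hw' n
    · obtain ⟨n, rfl⟩ : ∃ n : ℕ, i = (n : ℤ) := ⟨i.toNat, by omega⟩
      have e2 : (n : ℤ) + 1 = ((n + 1 : ℕ) : ℤ) := by push_cast; ring
      rw [e2, hzpos n, hzpos (n + 1)]
      exact hy n
  have hztop : ¬ ∃ p, Tendsto z atTop (𝓝 p) := by
    rintro ⟨p, hp⟩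
    apply hc
    refine ⟨p, ?_⟩
    have h1 : Tendsto (fun n : ℕ => z (n : ℤ)) atTop (𝓝 p) := hp.comp tendsto_natCast_atTop_atTop
    exact h1.congr hzpos
  have hzbot : ¬ ∃ p, Tendsto z atBot (𝓝 p) := by
    rintro ⟨p, hp⟩
    apply hwc
    refine ⟨p, ?_⟩
    have h1 : Tendsto (fun n : ℕ => z (-(n : ℤ))) atTop (𝓝 p) :=
      hp.comp (tendsto_neg_atTop_atBot.comp tendsto_natCast_atTop_atTop)
    exact h1.congr hzneg
  obtain ⟨⟨i, hi⟩, -⟩ := hN.noh z hzchain hztop hzbot q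
  rcases lt_or_ge i 0 with h | h
  · obtain ⟨n, rfl⟩ : ∃ n : ℕ, i = -(n : ℤ) := ⟨(-i).toNat, by omega⟩
    rw [hzneg n] at hi
    have hdown : ∀ m : ℕ, tl 𝒮 q (w m) → tl 𝒮 q (w 0) := by
      intro m
      induction m with
      | zero => exact id
      | succ m ih => exact fun h => ih (tl_trans h (hw' m))
    refine ⟨0, ?_⟩
    rw [← hw0]
    exact hdown n hi
  · obtain ⟨n, rfl⟩ : ∃ n : ℕ, i = (n : ℤ) := ⟨i.toNat, by omega⟩
    rw [hzpos n] at hi
    exact ⟨n, hi⟩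

theorem F1 [T2Space M] [SecondCountableTopology M] (hN : Noh 𝒮) {x : ℕ → M}
    (hx : ∀ n, le 𝒮 (x n) (x (n + 1))) (hc : ¬ ∃ p, Tendsto x atTop (𝓝 p)) (q : M) :
    ∃ n, tl 𝒮 q (x n) := by
  haveI := aa7_metrizable 𝒮
  letI := TopologicalSpace.metrizableSpaceMetric M
  have hstep : ∀ (n : ℕ) (y : M), tl 𝒮 y (x n) → ∃ y', tl 𝒮 y y' ∧ tl 𝒮 y' (x (n + 1)) ∧
      dist y' (x (n + 1)) < 1 / ((n : ℝ) + 2) := by
    intro n y hy
    have h1 : tl 𝒮 y (x (n + 1)) := (hx n).1 y hy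
    have ho : IsOpen {z : M | tl 𝒮 y z} :=
      (tl_open (𝒮 := 𝒮)).preimage (by fun_prop : Continuous fun z : M => (y, z))
    have hn : {z : M | tl 𝒮 y z} ∩ Metric.ball (x (n + 1)) (1 / ((n : ℝ) + 2)) ∈ 𝓝 (x (n + 1)) :=
      Filter.inter_mem (ho.mem_nhds h1) (Metric.ball_mem_nhds _ (by positivity))
    obtain ⟨u, hu, hux⟩ := exists_past (𝒮 := 𝒮) hn
    exact ⟨u, hu.1, hux, hu.2⟩
  obtain ⟨y0, hy0, hy0x⟩ := exists_past (𝒮 := 𝒮)
    (Metric.ball_mem_nhds (x 0) (by norm_num : (0 : ℝ) < 1 / 1))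
  choose! f hf1 hf2 hf3 using hstep
  let y : ℕ → M := fun n => Nat.rec y0 (fun n y => f n y) n
  have hyx : ∀ n, tl 𝒮 (y n) (x n) := by
    intro n
    induction n with
    | zero => exact hy0x
    | succ n ih => exact hf2 n (y n) ih
  have hyy : ∀ n, tl 𝒮 (y n) (y (n + 1)) := fun n => hf1 n (y n) (hyx n)
  have hyd : ∀ n, dist (y n) (x n) ≤ 1 / ((n : ℝ) + 1) := by
    intro n
    cases n with
    | zero =>
      have : dist y0 (x 0) < 1 / 1 := hy0
      show dist y0 (x 0) ≤ 1 / (((0 : ℕ) : ℝ) + 1)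
      rw [Nat.cast_zero, zero_add]
      exact this.le
    | succ n =>
      have h := hf3 n (y n) (hyx n)
      have e : ((n + 1 : ℕ) : ℝ) + 1 = (n : ℝ) + 2 := by push_cast; ring
      rw [e]
      exact h.le
  have hyc : ¬ ∃ p, Tendsto y atTop (𝓝 p) := by
    rintro ⟨p, hp⟩
    apply hc
    refine ⟨p, ?_⟩
    refine tendsto_of_tendsto_of_dist hp ?_
    exact squeeze_zero (fun n => dist_nonneg) hyd tendsto_one_div_add_atTop_nhds_zero_nat
  obtain ⟨n, hn⟩ := aa7_enter hN hyy hyc q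
  exact ⟨n, tl_trans hn (hyx n)⟩

theorem antisymm [T2Space M] [SecondCountableTopology M] (hN : Noh 𝒮) {x y : M} (h : le 𝒮 x y)
    (h' : le 𝒮 y x) : x = y := by
  by_contra hne
  let s : ℕ → M := fun n => if Even n then x else y
  have hs : ∀ n, le 𝒮 (s n) (s (n + 1)) := by
    intro n
    show le 𝒮 (if Even n then x else y) (if Even (n + 1) then x else y)
    by_cases he : Even n
    · rw [if_pos he, if_neg (by rw [Nat.even_add_one]; exact not_not.2 he)]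
      exact h
    · rw [if_neg he, if_pos (by rw [Nat.even_add_one]; exact he)]
      exact h'
  have hsc : ¬ ∃ p, Tendsto s atTop (𝓝 p) := by
    rintro ⟨p, hp⟩
    have h1 : Tendsto (fun n : ℕ => s (2 * n)) atTop (𝓝 p) :=
      hp.comp (tendsto_atTop_mono (fun n => by omega : ∀ n : ℕ, n ≤ 2 * n) tendsto_id)
    have h2 : Tendsto (fun n : ℕ => s (2 * n + 1)) atTop (𝓝 p) :=
      hp.comp (tendsto_atTop_mono (fun n => by omega : ∀ n : ℕ, n ≤ 2 * n + 1) tendsto_id)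
    have e1 : ∀ n : ℕ, s (2 * n) = x := fun n => if_pos (even_two_mul n)
    have e2 : ∀ n : ℕ, s (2 * n + 1) = y := fun n =>
      if_neg (by rw [Nat.even_add_one]; exact not_not.2 (even_two_mul n))
    have hx : x = p := tendsto_nhds_unique tendsto_const_nhds (h1.congr e1)
    have hy : y = p := tendsto_nhds_unique tendsto_const_nhds (h2.congr e2)
    exact hne (hx.trans hy.symm)
  obtain ⟨n, hn⟩ := F1 hN hs hsc x
  have hn' : tl 𝒮 x (if Even n then x else y) := hn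
  by_cases he : Even n
  · rw [if_pos he] at hn'
    exact hN.chr x hn'
  · rw [if_neg he] at hn'
    exact hN.chr x (h'.1 x hn')

theorem directed' [T2Space M] [SecondCountableTopology M] (hN : Noh 𝒮) (x y : M) :
    ∃ c, tl 𝒮 x c ∧ tl 𝒮 y c := by
  obtain ⟨z, -, hz, hzc⟩ := exists_chain 𝒮 x
  have hup : ∀ (q : M) (i d : ℕ), tl 𝒮 q (z i) → tl 𝒮 q (z (i + d)) := by
    intro q i d h
    induction d with
    | zero => exact h
    | succ d ih => exact tl_trans ih (hz (i + d))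
  obtain ⟨i, hi⟩ := aa7_enter hN hz hzc x
  obtain ⟨j, hj⟩ := aa7_enter hN hz hzc y
  refine ⟨z (i + j), hup x i j hi, ?_⟩
  rw [Nat.add_comm i j]
  exact hup y j i hj

end Pool.Agent.EG

end

end M_AA7

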