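import Pool.Agent.Lib.MP_eeed5f_gt.AA

section M_AA2

/-!
Row ec-AA2 (shifting causal curves; paper A1 (b2)).
h(s) = exp(-C l(ch σ(s) - ch σ(a))), 0 < h ≤ 1 (l(ch σ) is nondecreasing by b1c), h ≥ δ := exp(-C ‖l‖ 4 r) (and take δ ≤ 1/2).
σ~(s) = ch σ(s) - ε h(s) T0, one-sided derivatives σ' + a T0 with a = ε C h l(σ') > 0.  With y = ch σ(s), y~ = σ~(s) in closedBall y0 (3r) for ε < ε0:
g_{y~}(σ~',σ~') = g_{y~}(σ',σ') + 2a g_{y~}(σ',T0) + a² g_{y~}(T0,T0);  g_{y~}(σ',σ') ≤ g_y(σ',σ') + K ε h ‖T0‖ ‖σ'‖² ≤ K ε h‖T0‖‖σ'‖²  (K = Lipschitz constant of g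
on the ball: g is C^1 on a neighbourhood of the compact convex ball), and g_{y~}(σ',T0) ≤ -c0 ‖σ'‖ for y~ close to y: by compactness
{(y,v): y ∈ closedBall y0 (2r), ‖v‖=1, g_y(v,v) ≤ 0, g_y(T,v) ≤ 0} : g_y(v,T0) < 0 there (b_FT_FC, T0 FT; note v with g(T,v) ≤ 0, g(v,v) ≤ 0, v ≠ 0 is FC), so
g_y(v,T0) ≤ -2c0, and for ε < ε0 the perturbed value is ≤ -c0.  2a g(σ',T0) ≤ -2 ε C h l(σ') c0‖σ'‖ ≤ -(2 ε C h c0/lam)‖σ'‖².  Choose C > K‖T0‖ lam/(2c0) : negative.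
So σ~' is timelike; future: g_{y~}(T(y~),σ~') < 0: g_{y~}(T0,σ~') = g(T0,σ')+a g(T0,T0) < 0, T0 FT, `FT_of_FT'`.  `IsCurve.of_chart`, `tl_of_curve` (a < b).
a = b: h = 1/2 and b3c.   `b2'` = `b2` for B.rev and the reversed curve (IsCurve.rev, tl_rev).
-/

open scoped ContDiff Topology
open Set Filter

noncomputable section

set_option linter.unusedSectionVars false
set_option maxSynthPendingDepth 3

namespace Pool.Agent.EG

variable {E : Type*} [NormedAddCommGroup E] [NormedSpace ℝ E] [FiniteDimensional ℝ E]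
variable {M : Type*} [TopologicalSpace M] {ι : Type*}
variable {𝒮 : LSys E M ι}

theorem aa2_sub (B : Box 𝒮) : Metric.closedBall B.y0 (3 * B.r) ⊆ (𝒮.ch B.i).target :=
  (Metric.closedBall_subset_closedBall (by linarith [B.hr])).trans B.ball

/-- Lipschitz bound for the metric on the box -/
theorem aa2_lip (B : Box 𝒮) : ∃ K, 0 ≤ K ∧ ∀ y ∈ Metric.closedBall B.y0 (3 * B.r),
    ∀ y' ∈ Metric.closedBall B.y0 (3 * B.r), ‖𝒮.g B.i y' - 𝒮.g B.i y‖ ≤ K * ‖y' - y‖ := by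
  have hc : IsCompact (Metric.closedBall B.y0 (3 * B.r)) := isCompact_closedBall _ _
  have hf : ContinuousOn (fun y => ‖fderiv ℝ (𝒮.g B.i) y‖) (Metric.closedBall B.y0 (3 * B.r)) :=
    ((smooth_fderiv (𝒮.ch B.i).open_target (𝒮.met B.i).smooth).continuousOn.mono (aa2_sub B)).norm
  obtain ⟨K, hK⟩ := hc.bddAbove_image hf
  refine ⟨max K 0, le_max_right _ _, fun y hy y' hy' => ?_⟩
  refine Convex.norm_image_sub_le_of_norm_fderiv_le (𝕜 := ℝ) ?_ ?_ (convex_closedBall _ _) hy hy'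
  · intro x hx
    exact ((𝒮.met B.i).smooth.contDiffAt
      ((𝒮.ch B.i).open_target.mem_nhds (aa2_sub B hx))).differentiableAt (by simp)
  · intro x hx
    exact (hK (mem_image_of_mem _ hx)).trans (le_max_left _ _)

/-- causal vectors and the constant field -/
theorem aa2_cone (B : Box 𝒮) : ∃ c0, 0 < c0 ∧ ∀ y ∈ Metric.closedBall B.y0 (3 * B.r), ∀ v,
    FC (𝒮.g B.i y) (𝒮.T B.i y) v → 𝒮.g B.i y v B.T0 ≤ - c0 * ‖v‖ := by
  set P : Set (E × E) := Metric.closedBall B.y0 (3 * B.r) ×ˢ Metric.sphere (0 : E) 1 with hPdef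
  have hP : IsCompact P := (isCompact_closedBall _ _).prod (isCompact_sphere _ _)
  have hg : ContinuousOn (fun p : E × E => 𝒮.g B.i p.1) P :=
    ((𝒮.met B.i).smooth.continuousOn.comp continuousOn_fst fun p hp => aa2_sub B hp.1)
  have hT : ContinuousOn (fun p : E × E => 𝒮.T B.i p.1) P :=
    ((𝒮.contT B.i).comp continuousOn_fst fun p hp => aa2_sub B hp.1)
  have f1 : ContinuousOn (fun p : E × E => 𝒮.g B.i p.1 p.2 p.2) P :=
    (hg.clm_apply continuousOn_snd).clm_apply continuousOn_snd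
  have f2 : ContinuousOn (fun p : E × E => 𝒮.g B.i p.1 (𝒮.T B.i p.1) p.2) P :=
    (hg.clm_apply hT).clm_apply continuousOn_snd
  have f3 : ContinuousOn (fun p : E × E => 𝒮.g B.i p.1 p.2 B.T0) P :=
    (hg.clm_apply continuousOn_snd).clm_apply continuousOn_const
  set S : Set (E × E) := (P ∩ (fun p : E × E => 𝒮.g B.i p.1 p.2 p.2) ⁻¹' Iic 0) ∩
    (P ∩ (fun p : E × E => 𝒮.g B.i p.1 (𝒮.T B.i p.1) p.2) ⁻¹' Iic 0) with hSdef
  have hS : IsCompact S := hP.of_isClosed_subset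
    ((f1.preimage_isClosed_of_isClosed hP.isClosed isClosed_Iic).inter
      (f2.preimage_isClosed_of_isClosed hP.isClosed isClosed_Iic))
    (fun p hp => hp.1.1)
  have hneg : ∀ p ∈ S, 𝒮.g B.i p.1 p.2 B.T0 < 0 := by
    rintro ⟨y, v⟩ ⟨⟨⟨hy, hv⟩, h1⟩, ⟨-, h2⟩⟩
    have hy' : y ∈ Metric.closedBall B.y0 (3 * B.r) := hy
    have hL := 𝒮.lor B.i y (aa2_sub B hy')
    have hv0 : v ≠ 0 := by
      rintro rfl
      simp at hv
    have h1' : 𝒮.g B.i y v v ≤ 0 := h1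
    have h2' : 𝒮.g B.i y (𝒮.T B.i y) v ≤ 0 := h2
    have h3 : 𝒮.g B.i y (𝒮.T B.i y) v < 0 := by
      rcases h2'.eq_or_lt with h0 | h0
      · exact absurd (hL.pos v hv0 h0) (by linarith)
      · exact h0
    show 𝒮.g B.i y v B.T0 < 0
    rw [hL.symm]
    exact hL.b_FT_FC (B.b3 y hy') ⟨h1', h3⟩
  obtain ⟨c0, hc0, hc⟩ : ∃ c0, 0 < c0 ∧ ∀ p ∈ S, 𝒮.g B.i p.1 p.2 B.T0 ≤ - c0 := by
    rcases S.eq_empty_or_nonempty with hE | hne
    · exact ⟨1, one_pos, fun p hp => by rw [hE] at hp; exact absurd hp (notMem_empty p)⟩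
    · obtain ⟨p, hp, hmax⟩ := hS.exists_isMaxOn hne (f3.mono fun p hp => hp.1.1)
      refine ⟨-(𝒮.g B.i p.1 p.2 B.T0), by linarith [hneg p hp], fun q hq => ?_⟩
      have := hmax hq
      rw [neg_neg]
      exact this
  refine ⟨c0, hc0, fun y hy v hv => ?_⟩
  have hL := 𝒮.lor B.i y (aa2_sub B hy)
  have hv0 : v ≠ 0 := hL.FC_ne hv
  have hn : 0 < ‖v‖ := norm_pos_iff.2 hv0
  have hn' : 0 < ‖v‖⁻¹ := inv_pos.2 hn
  have hmem : (y, ‖v‖⁻¹ • v) ∈ S := by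
    have hm : (y, ‖v‖⁻¹ • v) ∈ P := by
      refine ⟨hy, ?_⟩
      rw [mem_sphere_zero_iff_norm, norm_smul, norm_inv, norm_norm, inv_mul_cancel₀ hn.ne']
    refine ⟨⟨hm, ?_⟩, ⟨hm, ?_⟩⟩
    · show 𝒮.g B.i y (‖v‖⁻¹ • v) (‖v‖⁻¹ • v) ≤ 0
      rw [map_smul, map_smul, smul_apply, smul_eq_mul, smul_eq_mul]
      exact mul_nonpos_of_nonneg_of_nonpos hn'.le (mul_nonpos_of_nonneg_of_nonpos hn'.le hv.1)
    · show 𝒮.g B.i y (𝒮.T B.i y) (‖v‖⁻¹ • v) ≤ 0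
      rw [map_smul, smul_eq_mul]
      exact mul_nonpos_of_nonneg_of_nonpos hn'.le hv.2.le
  have h1 := hc _ hmem
  have h2 : ‖v‖⁻¹ * 𝒮.g B.i y v B.T0 ≤ - c0 := by
    have : 𝒮.g B.i y (‖v‖⁻¹ • v) B.T0 = ‖v‖⁻¹ * 𝒮.g B.i y v B.T0 := by
      rw [map_smul, smul_apply, smul_eq_mul]
    rw [← this]
    exact h1
  have h3 : ‖v‖ * (‖v‖⁻¹ * 𝒮.g B.i y v B.T0) ≤ ‖v‖ * (- c0) := mul_le_mul_of_nonneg_left h2 hn.le
  rw [← mul_assoc, mul_inv_cancel₀ hn.ne', one_mul] at h3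
  linarith

theorem aa2_key (B : Box 𝒮) {K c0 C : ℝ} (hK0 : 0 ≤ K)
    (hK : ∀ y ∈ Metric.closedBall B.y0 (3 * B.r),
      ∀ y' ∈ Metric.closedBall B.y0 (3 * B.r), ‖𝒮.g B.i y' - 𝒮.g B.i y‖ ≤ K * ‖y' - y‖)
    (hc0 : 0 < c0) (hcone : ∀ y ∈ Metric.closedBall B.y0 (3 * B.r), ∀ v,
      FC (𝒮.g B.i y) (𝒮.T B.i y) v → 𝒮.g B.i y v B.T0 ≤ - c0 * ‖v‖)
    (hC0 : 0 < C) (hC : K * ‖B.T0‖ * B.lam < c0 * C) {ε h : ℝ} (hε : 0 < ε) (hh : 0 < h)
    (hh1 : h ≤ 1) (h1 : ε * ‖B.T0‖ ≤ B.r) (h2 : ε * (K * ‖B.T0‖ ^ 2) ≤ c0 / 2)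
    {y v : E} (hy : y ∈ Metric.closedBall B.y0 (2 * B.r))
    (hv : FC (𝒮.g B.i y) (𝒮.T B.i y) v) :
    y - (ε * h) • B.T0 ∈ Metric.closedBall B.y0 (3 * B.r) ∧
      FT (𝒮.g B.i (y - (ε * h) • B.T0)) (𝒮.T B.i (y - (ε * h) • B.T0))
        (v + (ε * C * h * B.l v) • B.T0) := by
  have hy3 : y ∈ Metric.closedBall B.y0 (3 * B.r) :=
    Metric.closedBall_subset_closedBall (by linarith [B.hr]) hy
  have hd : ‖(y - (ε * h) • B.T0) - y‖ = ε * h * ‖B.T0‖ := by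
    rw [sub_sub_cancel_left, norm_neg, norm_smul, Real.norm_eq_abs, abs_of_pos (mul_pos hε hh)]
  have hεh : ε * h ≤ ε := by nlinarith
  have hd1 : ε * h * ‖B.T0‖ ≤ ε * ‖B.T0‖ := mul_le_mul_of_nonneg_right hεh (norm_nonneg _)
  have hmem : y - (ε * h) • B.T0 ∈ Metric.closedBall B.y0 (3 * B.r) := by
    rw [Metric.mem_closedBall] at hy ⊢
    have h3 : dist (y - (ε * h) • B.T0) y = ε * h * ‖B.T0‖ := by rw [dist_eq_norm, hd]
    have h4 := dist_triangle (y - (ε * h) • B.T0) y B.y0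
    linarith
  refine ⟨hmem, ?_⟩
  have hT0 := B.b3 _ hmem
  have hLor := 𝒮.lor B.i _ (aa2_sub B hmem)
  have hKd := hK y hy3 _ hmem
  rw [hd] at hKd
  have hcy := hcone y hy3 v hv
  have hlv := B.b1 y hy3 v hv
  have hv0 : v ≠ 0 := (𝒮.lor B.i y (aa2_sub B hy3)).FC_ne hv
  have hN : 0 < ‖v‖ := norm_pos_iff.2 hv0
  set y' := y - (ε * h) • B.T0 with hy'
  have hT0' : FT (𝒮.g B.i y') (𝒮.T B.i y') B.T0 := hT0
  -- perturbation
  have p1 : ∀ u w : E, 𝒮.g B.i y' u w ≤ 𝒮.g B.i y u w + K * (ε * h * ‖B.T0‖) * ‖u‖ * ‖w‖ := by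
    intro u w
    have e1 := (𝒮.g B.i y' - 𝒮.g B.i y).le_opNorm₂ u w
    have e2 : (𝒮.g B.i y' - 𝒮.g B.i y) u w = 𝒮.g B.i y' u w - 𝒮.g B.i y u w := by simp
    rw [e2, Real.norm_eq_abs] at e1
    have e3 := (abs_le.1 e1).2
    have e4 : ‖𝒮.g B.i y' - 𝒮.g B.i y‖ * ‖u‖ * ‖w‖ ≤ K * (ε * h * ‖B.T0‖) * ‖u‖ * ‖w‖ :=
      mul_le_mul_of_nonneg_right (mul_le_mul_of_nonneg_right hKd (norm_nonneg _)) (norm_nonneg _)
    linarith
  have hvv : 𝒮.g B.i y' v v ≤ K * (ε * h * ‖B.T0‖) * ‖v‖ * ‖v‖ := by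
    have := p1 v v
    linarith [hv.1]
  have hvT : 𝒮.g B.i y' v B.T0 ≤ - (c0 / 2) * ‖v‖ := by
    have e1 := p1 v B.T0
    have e2 : K * (ε * h * ‖B.T0‖) * ‖v‖ * ‖B.T0‖ ≤ (c0 / 2) * ‖v‖ := by
      have e3 : K * (ε * h * ‖B.T0‖) * ‖v‖ * ‖B.T0‖ = (ε * h) * (K * ‖B.T0‖ ^ 2) * ‖v‖ := by ring
      have e4 : (ε * h) * (K * ‖B.T0‖ ^ 2) ≤ ε * (K * ‖B.T0‖ ^ 2) :=
        mul_le_mul_of_nonneg_right hεh (by positivity)
      rw [e3]
      exact mul_le_mul_of_nonneg_right (e4.trans h2) hN.le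
    linarith
  have hlpos : 0 < B.l v := by
    by_contra hcon
    rw [not_lt] at hcon
    have : B.lam * B.l v ≤ 0 := mul_nonpos_of_nonneg_of_nonpos B.hlam.le hcon
    linarith
  set a := ε * C * h * B.l v with ha
  have ha0 : 0 < a := by positivity
  have hTT : 𝒮.g B.i y' B.T0 B.T0 < 0 := hT0'.1
  have hvT' : 𝒮.g B.i y' v B.T0 < 0 := by
    have : 0 < (c0 / 2) * ‖v‖ := by positivity
    linarith
  have hww : 𝒮.g B.i y' (v + a • B.T0) (v + a • B.T0) < 0 := by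
    have e1 : 𝒮.g B.i y' (v + a • B.T0) (v + a • B.T0)
        = 𝒮.g B.i y' v v + 2 * a * 𝒮.g B.i y' v B.T0 + a ^ 2 * 𝒮.g B.i y' B.T0 B.T0 := by
      simp only [map_add, map_smul, smul_eq_mul, add_apply, smul_apply, hLor.symm B.T0 v]
      ring
    rw [e1]
    have e2 : a ^ 2 * 𝒮.g B.i y' B.T0 B.T0 ≤ 0 :=
      mul_nonpos_of_nonneg_of_nonpos (sq_nonneg _) hTT.le
    have e3 : 2 * a * 𝒮.g B.i y' v B.T0 ≤ 2 * a * (- (c0 / 2) * ‖v‖) :=
      mul_le_mul_of_nonneg_left hvT (by positivity)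
    have e4 : K * ‖B.T0‖ * ‖v‖ < c0 * (C * B.l v) := by
      have e5 : K * ‖B.T0‖ * B.lam * ‖v‖ < c0 * C * ‖v‖ := mul_lt_mul_of_pos_right hC hN
      have e6 : c0 * C * ‖v‖ ≤ c0 * C * (B.lam * B.l v) :=
        mul_le_mul_of_nonneg_left hlv (by positivity)
      have e7 : B.lam * (K * ‖B.T0‖ * ‖v‖) < B.lam * (c0 * (C * B.l v)) := by nlinarith
      exact lt_of_mul_lt_mul_left e7 B.hlam.le
    have e8 : (ε * h * ‖v‖) * (K * ‖B.T0‖ * ‖v‖) < (ε * h * ‖v‖) * (c0 * (C * B.l v)) :=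
      mul_lt_mul_of_pos_left e4 (by positivity)
    have e9 : 2 * a * (- (c0 / 2) * ‖v‖) = - ((ε * h * ‖v‖) * (c0 * (C * B.l v))) := by
      rw [ha]; ring
    have e10 : K * (ε * h * ‖B.T0‖) * ‖v‖ * ‖v‖ = (ε * h * ‖v‖) * (K * ‖B.T0‖ * ‖v‖) := by ring
    rw [e10] at hvv
    linarith
  refine ⟨hww, FT_of_FT' hLor hT0' hww.le ?_⟩
  have e1 : 𝒮.g B.i y' B.T0 (v + a • B.T0)
      = 𝒮.g B.i y' v B.T0 + a * 𝒮.g B.i y' B.T0 B.T0 := by
    rw [map_add, map_smul, smul_eq_mul, hLor.symm B.T0 v]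
  rw [e1]
  have e2 : a * 𝒮.g B.i y' B.T0 B.T0 < 0 := mul_neg_of_pos_of_neg ha0 hTT
  linarith

theorem Box.b2 (B : Box 𝒮) : ∃ δ ∈ Ioo (0 : ℝ) 1, ∃ ε0 > 0, ∀ (σ : ℝ → M) (a b : ℝ), a ≤ b →
    IsCurve 𝒮 FC σ a b → (∀ t ∈ Icc a b, σ t ∈ B.K (2 * B.r)) → ∀ ε ∈ Ioo (0 : ℝ) ε0, ∃ h ∈ Icc δ 1,
      tl 𝒮 (B.pt (𝒮.ch B.i (σ a) - ε • B.T0)) (B.pt (𝒮.ch B.i (σ b) - (ε * h) • B.T0)) := by
  obtain ⟨K, hK0, hK⟩ := aa2_lip B
  obtain ⟨c0, hc0, hcone⟩ := aa2_cone B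
  have hr := B.hr
  have hlam := B.hlam
  have ht : 0 ≤ ‖B.T0‖ := norm_nonneg _
  set C : ℝ := K * ‖B.T0‖ * B.lam / c0 + 1 with hCdef
  have hC0 : 0 < C := by positivity
  have hC : K * ‖B.T0‖ * B.lam < c0 * C := by
    rw [hCdef, mul_add, mul_div_cancel₀ _ hc0.ne', mul_one]
    linarith
  have hδ1 : 0 < Real.exp (-(C * (‖B.l‖ * (4 * B.r)))) := Real.exp_pos _
  refine ⟨min (Real.exp (-(C * (‖B.l‖ * (4 * B.r))))) (1 / 2),
    ⟨lt_min hδ1 (by norm_num), (min_le_right _ _).trans_lt (by norm_num)⟩,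
    min (B.r / (‖B.T0‖ + 1)) (c0 / 2 / (K * ‖B.T0‖ ^ 2 + 1)), lt_min (by positivity) (by positivity),
    ?_⟩
  intro σ a b hab hσ hσK ε hε
  have hε0 : 0 < ε := hε.1
  have h1 : ε * ‖B.T0‖ ≤ B.r := by
    have e1 : ε ≤ B.r / (‖B.T0‖ + 1) := (hε.2.trans_le (min_le_left _ _)).le
    rw [le_div_iff₀ (by positivity)] at e1
    nlinarith
  have h2 : ε * (K * ‖B.T0‖ ^ 2) ≤ c0 / 2 := by
    have e1 : ε ≤ c0 / 2 / (K * ‖B.T0‖ ^ 2 + 1) := (hε.2.trans_le (min_le_right _ _)).le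
    rw [le_div_iff₀ (by positivity)] at e1
    nlinarith
  have hball : ∀ s ∈ Icc a b, 𝒮.ch B.i (σ s) ∈ Metric.closedBall B.y0 (2 * B.r) :=
    fun s hs => (hσK s hs).2
  have hsrc : ∀ s ∈ Icc a b, σ s ∈ (𝒮.ch B.i).source := fun s hs => (hσK s hs).1
  rcases hab.eq_or_lt with rfl | hlt
  · refine ⟨1 / 2, ⟨min_le_right _ _, by norm_num⟩, ?_⟩
    have ha : a ∈ Icc a a := ⟨le_rfl, le_rfl⟩
    have hya := hball a ha
    have hshift : ∀ q : ℝ, 0 ≤ q → q ≤ 1 →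
        𝒮.ch B.i (σ a) - (ε * q) • B.T0 ∈ Metric.closedBall B.y0 (3 * B.r) := by
      intro q hq hq1
      rw [Metric.mem_closedBall] at hya ⊢
      have h3 : dist (𝒮.ch B.i (σ a) - (ε * q) • B.T0) (𝒮.ch B.i (σ a)) = ε * q * ‖B.T0‖ := by
        rw [dist_eq_norm, sub_sub_cancel_left, norm_neg, norm_smul, Real.norm_eq_abs,
          abs_of_nonneg (by positivity)]
      have h4 := dist_triangle (𝒮.ch B.i (σ a) - (ε * q) • B.T0) (𝒮.ch B.i (σ a)) B.y0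
      have h5 : ε * q * ‖B.T0‖ ≤ ε * ‖B.T0‖ :=
        mul_le_mul_of_nonneg_right (by nlinarith) ht
      linarith
    have e1 : 𝒮.ch B.i (σ a) - ε • B.T0 + (ε / 2) • B.T0
        = 𝒮.ch B.i (σ a) - (ε * (1 / 2)) • B.T0 := by module
    have h6 := B.b3c (p := 𝒮.ch B.i (σ a) - ε • B.T0) (ε := ε / 2) (by positivity)
      (by simpa using hshift 1 zero_le_one le_rfl)
      (by rw [e1]; exact hshift (1 / 2) (by norm_num) (by norm_num))
    rw [e1] at h6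
    exact h6
  · set L : ℝ → ℝ := fun s => B.l (𝒮.ch B.i (σ s)) with hL
    set hf : ℝ → ℝ := fun s => Real.exp (-(C * (L s - L a))) with hhf
    set τ : ℝ → E := fun s => 𝒮.ch B.i (σ s) - (ε * hf s) • B.T0 with hτ
    have hK3 : ∀ t ∈ Icc a b, σ t ∈ B.K (3 * B.r) := fun t ht =>
      ⟨hsrc t ht, Metric.closedBall_subset_closedBall (by linarith) (hball t ht)⟩
    have hmono : ∀ s ∈ Icc a b, 0 ≤ L s - L a ∧ L s - L a ≤ ‖B.l‖ * (4 * B.r) := by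
      intro s hs
      have e1 := B.b1c hσ hK3 le_rfl hs.1 hs.2
      constructor
      · by_contra hcon
        rw [not_le] at hcon
        have e2 : B.lam * (B.l (𝒮.ch B.i (σ s)) - B.l (𝒮.ch B.i (σ a))) < 0 :=
          mul_neg_of_pos_of_neg hlam hcon
        linarith [norm_nonneg (𝒮.ch B.i (σ s) - 𝒮.ch B.i (σ a))]
      · have e2 : L s - L a = B.l (𝒮.ch B.i (σ s) - 𝒮.ch B.i (σ a)) := by
          rw [map_sub]
        rw [e2]
        have e3 := B.l.le_opNorm (𝒮.ch B.i (σ s) - 𝒮.ch B.i (σ a))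
        have e4 : ‖𝒮.ch B.i (σ s) - 𝒮.ch B.i (σ a)‖ ≤ 4 * B.r := by
          have e5 := hball s hs
          have e6 := hball a ⟨le_rfl, hab⟩
          rw [Metric.mem_closedBall] at e5 e6
          rw [← dist_eq_norm]
          have := dist_triangle_right (𝒮.ch B.i (σ s)) (𝒮.ch B.i (σ a)) B.y0
          linarith
        calc B.l (𝒮.ch B.i (σ s) - 𝒮.ch B.i (σ a)) ≤ ‖B.l (𝒮.ch B.i (σ s) - 𝒮.ch B.i (σ a))‖ :=
              le_abs_self _
          _ ≤ _ := e3.trans (mul_le_mul_of_nonneg_left e4 (norm_nonneg _))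
    have hf0 : ∀ s, 0 < hf s := fun s => Real.exp_pos _
    have hf1 : ∀ s ∈ Icc a b, hf s ≤ 1 := by
      intro s hs
      rw [hhf]
      refine Real.exp_le_one_iff.2 ?_
      have := mul_nonneg hC0.le (hmono s hs).1
      linarith
    have hcts : ContinuousOn (fun s => 𝒮.ch B.i (σ s)) (Icc a b) :=
      (𝒮.ch B.i).continuousOn.comp hσ.cont hsrc
    have hτc : ContinuousOn τ (Icc a b) := by
      have e1 : ContinuousOn L (Icc a b) := B.l.continuous.comp_continuousOn hcts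
      have e2 : ContinuousOn hf (Icc a b) :=
        Real.continuous_exp.comp_continuousOn ((e1.sub continuousOn_const).const_smul C).neg
      exact hcts.sub ((continuousOn_const.mul e2).smul continuousOn_const)
    have hder : ∀ (s : Set ℝ) (t : ℝ), t ∈ Icc a b → ∀ v : E,
        HasDerivWithinAt (fun r => 𝒮.ch B.i (σ r)) v s t →
        HasDerivWithinAt τ (v + (ε * C * hf t * B.l v) • B.T0) s t := by
      intro s t ht v hv
      have e1 : HasDerivWithinAt L (B.l v) s t := B.l.hasFDerivAt.comp_hasDerivWithinAt t hv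
      have e2 : HasDerivWithinAt (fun r => -(C * (L r - L a))) (-(C * B.l v)) s t :=
        ((e1.sub_const (L a)).const_mul C).neg
      have e3 : HasDerivWithinAt hf (hf t * (-(C * B.l v))) s t := e2.exp
      have e4 : HasDerivWithinAt (fun r => (ε * hf r) • B.T0)
          ((ε * (hf t * (-(C * B.l v)))) • B.T0) s t := (e3.const_mul ε).smul_const B.T0
      have e5 := hv.sub e4
      have e6 : v - (ε * (hf t * (-(C * B.l v)))) • B.T0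
          = v + (ε * C * hf t * B.l v) • B.T0 := by module
      rw [e6] at e5
      exact e5
    have hcurve : IsCurve 𝒮 FT (fun r => (𝒮.ch B.i).symm (τ r)) a b := by
      refine IsCurve.of_chart hτc ?_ ?_ ?_
      · intro t ht
        have e1 := hball t ht
        refine aa2_sub B ?_
        rw [Metric.mem_closedBall] at e1 ⊢
        have h3 : dist (τ t) (𝒮.ch B.i (σ t)) = ε * hf t * ‖B.T0‖ := by
          rw [hτ, dist_eq_norm]
          simp only [sub_sub_cancel_left, norm_neg]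
          rw [norm_smul, Real.norm_eq_abs, abs_of_pos (mul_pos hε0 (hf0 t))]
        have h4 := dist_triangle (τ t) (𝒮.ch B.i (σ t)) B.y0
        have h5 : ε * hf t * ‖B.T0‖ ≤ ε * ‖B.T0‖ :=
          mul_le_mul_of_nonneg_right (by nlinarith [hf1 t ht, hf0 t]) (norm_nonneg _)
        linarith
      · intro t ht
        have ht' : t ∈ Icc a b := ⟨ht.1, ht.2.le⟩
        obtain ⟨v, hv, hFC⟩ := (hσ.right t ht).chart (Or.inr rfl) (sc5_cw_ge hσ.cont ht)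
          (mem_Ici.2 le_rfl) (hsrc t ht')
        exact ⟨_, hder _ t ht' v hv, (aa2_key B hK0 hK hc0 hcone hC0 hC hε0 (hf0 t) (hf1 t ht') h1 h2
          (hball t ht') hFC).2⟩
      · intro t ht
        have ht' : t ∈ Icc a b := ⟨ht.1.le, ht.2⟩
        obtain ⟨v, hv, hFC⟩ := (hσ.left t ht).chart (Or.inr rfl) (sc5_cw_le hσ.cont ht)
          (mem_Iic.2 le_rfl) (hsrc t ht')
        exact ⟨_, hder _ t ht' v hv, (aa2_key B hK0 hK hc0 hcone hC0 hC hε0 (hf0 t) (hf1 t ht') h1 h2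
          (hball t ht') hFC).2⟩
    refine ⟨hf b, ⟨(min_le_left _ _).trans ?_, hf1 b ⟨hab, le_rfl⟩⟩, ?_⟩
    · rw [hhf]
      refine Real.exp_le_exp.2 (neg_le_neg (mul_le_mul_of_nonneg_left ?_ hC0.le))
      exact (hmono b ⟨hab, le_rfl⟩).2
    · have h3 := tl_of_curve hlt hcurve
      have h4 : hf a = 1 := by
        rw [hhf]
        simp
      have h5 : τ a = 𝒮.ch B.i (σ a) - ε • B.T0 := by
        rw [hτ]
        simp only [h4, mul_one]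
      simp only [h5] at h3
      exact h3

theorem Box.b2' (B : Box 𝒮) : ∃ δ ∈ Ioo (0 : ℝ) 1, ∃ ε0 > 0, ∀ (σ : ℝ → M) (a b : ℝ), a ≤ b →
    IsCurve 𝒮 FC σ a b → (∀ t ∈ Icc a b, σ t ∈ B.K (2 * B.r)) → ∀ ε ∈ Ioo (0 : ℝ) ε0, ∃ h ∈ Icc δ 1,
      tl 𝒮 (B.pt (𝒮.ch B.i (σ a) + (ε * h) • B.T0)) (B.pt (𝒮.ch B.i (σ b) + ε • B.T0)) := by
  obtain ⟨δ, hδ, ε0, hε0, hmain⟩ := B.rev.b2
  refine ⟨δ, hδ, ε0, hε0, fun σ a b hab hσ hK ε hε => ?_⟩
  obtain ⟨h, hh, htl⟩ := hmain (fun r => σ (-r)) (-b) (-a) (by linarith)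
    (IsCurve.rev (Or.inr rfl) hσ) (fun t ht => hK (-t) ⟨by linarith [ht.2], by linarith [ht.1]⟩) ε hε
  refine ⟨h, hh, tl_rev.1 ?_⟩
  have e1 : B.rev.T0 = - B.T0 := rfl
  have e2 : ∀ y : E, B.rev.pt y = B.pt y := fun y => rfl
  have e3 : ∀ (x : M), 𝒮.rev.ch B.rev.i x = 𝒮.ch B.i x := fun x => rfl
  simp only [neg_neg, e1, e2, e3, smul_neg, sub_neg_eq_add] at htl
  exact htl

end Pool.Agent.EG

end

end M_AA2

section M_AA3

/-!
Row ec-AA3 (limits of causal curves in a box; paper A2 and M0).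
`le_of_limit`: first half: u ≪ p ⇒ u ≪ q.  p ∈ B.K(2r) (compact, closed: T2).  For small e>0: u ≪ pt(ch p - eT0) (tl_open, pt(ch p - eT0) → p as e → 0), ≪ pt(ch p - (e/2)T0) (b3c)
≪ hence by openness u ≪ pt(ch σ_k(a_k) - (e/2)T0) for U-many k, ≪ pt(ch σ_k(b_k) - (e/2)h_k T0) (b2), h_k ≥ δ, ≪ pt(ch σ_k(b_k) - (e/2)(δ/2)T0) (b3c), and
pt(ch q - (e/2)(δ/2)T0) ≪ q (b3c), so by openness pt(ch σ_k(b_k) - (e/2)(δ/2)T0) ≪ q.  Second half: the same for 𝒮.rev (reversed curves; le_rev).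
`le_of_curve`: sup argument/compactness: the set {t ∈ [a,b] : le (σ a) (σ t)} is closed in the needed sense; simplest: by Lebesgue number: for every t ∈ [a,b] there is a
box around σ t and δ_t with σ((t-δ_t,t+δ_t)∩[a,b]) ⊂ B.K(2r); on such pieces le holds by `le_of_limit` with constant families (κ = Unit or any ultrafilter, e.g. pure);
`exists_monotone_Icc_subset_open_cover_Icc` gives a finite partition; le_trans'.
-/

open scoped ContDiff Topology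
open Set Filter

noncomputable section

set_option linter.unusedSectionVars false
set_option maxSynthPendingDepth 3

namespace Pool.Agent.EG

variable {E : Type*} [NormedAddCommGroup E] [NormedSpace ℝ E] [FiniteDimensional ℝ E]
variable {M : Type*} [TopologicalSpace M] {ι : Type*}
variable {𝒮 : LSys E M ι}

variable {κ : Type*}

theorem aa3_open_right {u x : M} (h : tl 𝒮 u x) : ∀ᶠ z in 𝓝 x, tl 𝒮 u z := by
  have h1 : {p : M × M | tl 𝒮 p.1 p.2} ∈ 𝓝 (u, x) := tl_open.mem_nhds h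
  have hc : Continuous (fun z : M => (u, z)) := by fun_prop
  exact (hc.tendsto x) h1

theorem aa3_open_left {x v : M} (h : tl 𝒮 x v) : ∀ᶠ z in 𝓝 x, tl 𝒮 z v := by
  have h1 : {p : M × M | tl 𝒮 p.1 p.2} ∈ 𝓝 (x, v) := tl_open.mem_nhds h
  have hc : Continuous (fun z : M => (z, v)) := by fun_prop
  exact (hc.tendsto x) h1

theorem aa3_ball (B : Box 𝒮) {y : E} (hy : y ∈ Metric.closedBall B.y0 (2 * B.r)) {c : ℝ}
    (hc : 0 ≤ c) (hcr : c * ‖B.T0‖ ≤ B.r) : y - c • B.T0 ∈ Metric.closedBall B.y0 (3 * B.r) := by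
  rw [Metric.mem_closedBall, dist_eq_norm] at *
  have h1 : y - c • B.T0 - B.y0 = (y - B.y0) - c • B.T0 := by abel
  rw [h1]
  refine (norm_sub_le _ _).trans ?_
  rw [norm_smul, Real.norm_of_nonneg hc]
  linarith

theorem aa3_shift (B : Box 𝒮) {y : E} (hy : y ∈ Metric.closedBall B.y0 (2 * B.r)) {c1 c2 : ℝ}
    (h2 : 0 ≤ c2) (h12 : c2 < c1) (hcr : c1 * ‖B.T0‖ ≤ B.r) :
    tl 𝒮 (B.pt (y - c1 • B.T0)) (B.pt (y - c2 • B.T0)) := by
  have e1 : y - c1 • B.T0 + (c1 - c2) • B.T0 = y - c2 • B.T0 := by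
    rw [sub_smul]; abel
  have hb2 : y - c2 • B.T0 ∈ Metric.closedBall B.y0 (3 * B.r) :=
    aa3_ball B hy h2 (le_trans (mul_le_mul_of_nonneg_right h12.le (norm_nonneg _)) hcr)
  have h := B.b3c (p := y - c1 • B.T0) (ε := c1 - c2) (by linarith)
    (aa3_ball B hy (by linarith) hcr) (by rw [e1]; exact hb2)
  rwa [e1] at h

theorem aa3_pt (B : Box 𝒮) {y : E} (hy : y ∈ Metric.closedBall B.y0 (3 * B.r)) :
    ContinuousAt B.pt y :=
  (𝒮.ch B.i).continuousAt_symm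
    (B.ball (Metric.closedBall_subset_closedBall (by linarith [B.hr]) hy))

theorem aa3_half [T2Space M] (B : Box 𝒮) (U : Ultrafilter κ) {σ : κ → ℝ → M} {a b : κ → ℝ}
    (hab : ∀ᶠ k in U, a k ≤ b k) (hσ : ∀ᶠ k in U, IsCurve 𝒮 FC (σ k) (a k) (b k))
    (hK : ∀ᶠ k in U, ∀ t ∈ Icc (a k) (b k), σ k t ∈ B.K (2 * B.r)) {p q : M}
    (hp : Tendsto (fun k => σ k (a k)) U (𝓝 p)) (hq : Tendsto (fun k => σ k (b k)) U (𝓝 q))
    {u : M} (hu : tl 𝒮 u p) : tl 𝒮 u q := by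
  obtain ⟨δ, hδ, ε0, hε0, hb2⟩ := B.b2
  have hr := B.hr
  have hT0 := norm_nonneg B.T0
  have hKcl : IsClosed (B.K (2 * B.r)) := (B.isCompact_K (by linarith)).isClosed
  have hpk : ∀ᶠ k in U, σ k (a k) ∈ B.K (2 * B.r) := by
    filter_upwards [hab, hK] with k h1 h2 using h2 _ ⟨le_rfl, h1⟩
  have hqk : ∀ᶠ k in U, σ k (b k) ∈ B.K (2 * B.r) := by
    filter_upwards [hab, hK] with k h1 h2 using h2 _ ⟨h1, le_rfl⟩
  have hpK : p ∈ B.K (2 * B.r) := hKcl.mem_of_tendsto hp hpk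
  have hqK : q ∈ B.K (2 * B.r) := hKcl.mem_of_tendsto hq hqk
  have hcp : Tendsto (fun k => 𝒮.ch B.i (σ k (a k))) U (𝓝 (𝒮.ch B.i p)) :=
    ((𝒮.ch B.i).continuousAt hpK.1).tendsto.comp hp
  have hcq : Tendsto (fun k => 𝒮.ch B.i (σ k (b k))) U (𝓝 (𝒮.ch B.i q)) :=
    ((𝒮.ch B.i).continuousAt hqK.1).tendsto.comp hq
  -- choice of e
  have ev1 : ∀ᶠ e in 𝓝 (0 : ℝ), tl 𝒮 u (B.pt (𝒮.ch B.i p - e • B.T0)) := by
    have hc : Tendsto (fun e : ℝ => 𝒮.ch B.i p - e • B.T0) (𝓝 0) (𝓝 (𝒮.ch B.i p)) := by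
      have hcc : Continuous (fun e : ℝ => 𝒮.ch B.i p - e • B.T0) := by fun_prop
      have := hcc.tendsto 0
      simpa using this
    have hpt : Tendsto B.pt (𝓝 (𝒮.ch B.i p)) (𝓝 p) := by
      have h1 := (aa3_pt B (Metric.closedBall_subset_closedBall (by linarith) hpK.2)).tendsto
      rwa [B.pt_ch hpK] at h1
    exact (hpt.comp hc).eventually (aa3_open_right hu)
  have ev2 : ∀ᶠ e in 𝓝 (0 : ℝ), e * ‖B.T0‖ < B.r := by
    have hcc : Continuous (fun e : ℝ => e * ‖B.T0‖) := by fun_prop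
    have := hcc.tendsto 0
    rw [zero_mul] at this
    exact this.eventually (gt_mem_nhds hr)
  have ev3 : ∀ᶠ e in 𝓝 (0 : ℝ), e / 2 < ε0 := by
    have hcc : Continuous (fun e : ℝ => e / 2) := by fun_prop
    have := hcc.tendsto 0
    rw [zero_div] at this
    exact this.eventually (gt_mem_nhds hε0)
  obtain ⟨e, ⟨he1, he2, he3⟩, he0⟩ :=
    (((ev1.and (ev2.and ev3)).filter_mono nhdsWithin_le_nhds).and
      (self_mem_nhdsWithin : Ioi (0 : ℝ) ∈ 𝓝[>] (0 : ℝ))).exists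
  have he0 : 0 < e := he0
  have heT : e / 2 * ‖B.T0‖ ≤ B.r := by
    have : e / 2 * ‖B.T0‖ ≤ e * ‖B.T0‖ := mul_le_mul_of_nonneg_right (by linarith) hT0
    linarith
  have hd1 := hδ.1
  have hd2 := hδ.2
  -- step 2, 3
  have s2 : tl 𝒮 (B.pt (𝒮.ch B.i p - e • B.T0)) (B.pt (𝒮.ch B.i p - (e / 2) • B.T0)) :=
    aa3_shift B hpK.2 (by linarith) (by linarith) he2.le
  have ptc : ∀ (y : E) (c : ℝ), y ∈ Metric.closedBall B.y0 (2 * B.r) → 0 ≤ c → c * ‖B.T0‖ ≤ B.r →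
      ∀ f : κ → E, Tendsto f U (𝓝 y) →
      Tendsto (fun k => B.pt (f k - c • B.T0)) U (𝓝 (B.pt (y - c • B.T0))) := by
    intro y c hy hc hcr f hf
    have h1 : Tendsto (fun k => f k - c • B.T0) U (𝓝 (y - c • B.T0)) := hf.sub tendsto_const_nhds
    exact (aa3_pt B (aa3_ball B hy hc hcr)).tendsto.comp h1
  have s3 : ∀ᶠ k in U, tl 𝒮 (B.pt (𝒮.ch B.i p - e • B.T0))
      (B.pt (𝒮.ch B.i (σ k (a k)) - (e / 2) • B.T0)) :=
    (ptc _ _ hpK.2 (by linarith) heT _ hcp).eventually (aa3_open_right s2)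
  -- step 6
  have hc6 : e / 2 * (δ / 2) * ‖B.T0‖ ≤ B.r := by
    have h1 : e / 2 * (δ / 2) ≤ e / 2 := by nlinarith
    have h2 : e / 2 * (δ / 2) * ‖B.T0‖ ≤ e / 2 * ‖B.T0‖ := mul_le_mul_of_nonneg_right h1 hT0
    linarith
  have hpos6 : 0 < e / 2 * (δ / 2) := by positivity
  have s6 : tl 𝒮 (B.pt (𝒮.ch B.i q - (e / 2 * (δ / 2)) • B.T0)) q := by
    have h1 := aa3_shift B hqK.2 (c1 := e / 2 * (δ / 2)) (c2 := 0) le_rfl hpos6 hc6
    rwa [zero_smul, sub_zero, B.pt_ch hqK] at h1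
  have s6' : ∀ᶠ k in U, tl 𝒮 (B.pt (𝒮.ch B.i (σ k (b k)) - (e / 2 * (δ / 2)) • B.T0)) q :=
    (ptc _ _ hqK.2 hpos6.le hc6 _ hcq).eventually (aa3_open_left s6)
  obtain ⟨k, k1, k2, k3, k4, k5, k6, k7⟩ :=
    (hab.and (hσ.and (hK.and (hpk.and (hqk.and (s3.and s6')))))).exists
  obtain ⟨h, hh, s4⟩ := hb2 (σ k) (a k) (b k) k1 k2 k3 (e / 2) ⟨by linarith, he3⟩
  have s5 : tl 𝒮 (B.pt (𝒮.ch B.i (σ k (b k)) - (e / 2 * h) • B.T0))
      (B.pt (𝒮.ch B.i (σ k (b k)) - (e / 2 * (δ / 2)) • B.T0)) := by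
    refine aa3_shift B k5.2 hpos6.le ?_ ?_
    · have := hh.1
      nlinarith
    · have h1 : e / 2 * h ≤ e / 2 := by nlinarith [hh.2]
      have h2 : e / 2 * h * ‖B.T0‖ ≤ e / 2 * ‖B.T0‖ := mul_le_mul_of_nonneg_right h1 hT0
      linarith
  exact tl_trans he1 (tl_trans k6 (tl_trans s4 (tl_trans s5 k7)))

theorem le_of_limit [T2Space M] (B : Box 𝒮) (U : Ultrafilter κ) {σ : κ → ℝ → M} {a b : κ → ℝ}
    (hab : ∀ᶠ k in U, a k ≤ b k) (hσ : ∀ᶠ k in U, IsCurve 𝒮 FC (σ k) (a k) (b k))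
    (hK : ∀ᶠ k in U, ∀ t ∈ Icc (a k) (b k), σ k t ∈ B.K (2 * B.r)) {p q : M}
    (hp : Tendsto (fun k => σ k (a k)) U (𝓝 p)) (hq : Tendsto (fun k => σ k (b k)) U (𝓝 q)) :
    le 𝒮 p q := by
  refine ⟨fun u hu => aa3_half B U hab hσ hK hp hq hu, fun v hv => ?_⟩
  have h := aa3_half (𝒮 := 𝒮.rev) B.rev U (σ := fun k r => σ k (-r)) (a := fun k => -(b k))
    (b := fun k => -(a k)) (p := q) (q := p) (u := v) ?_ ?_ ?_ ?_ ?_ (tl_rev.2 hv)
  · exact tl_rev.1 h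
  · filter_upwards [hab] with k h1 using neg_le_neg h1
  · filter_upwards [hσ] with k h1 using h1.rev (Or.inr rfl)
  · filter_upwards [hK] with k h1 t ht
    exact h1 (-t) ⟨by linarith [ht.2], by linarith [ht.1]⟩
  · simpa only [neg_neg] using hq
  · simpa only [neg_neg] using hp

theorem le_of_curve [T2Space M] {σ : ℝ → M} {a b : ℝ} (hab : a ≤ b) (h : IsCurve 𝒮 FC σ a b) :
    le 𝒮 (σ a) (σ b) := by
  have hcont : Continuous (fun t : Icc a b => σ t) := continuousOn_iff_continuous_domRestrict.1 h.cont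
  obtain ⟨t, ht0, htm, ⟨m, hm⟩, ht⟩ := exists_monotone_Icc_subset_open_cover_Icc hab
    (c := fun B : Box 𝒮 => {t : Icc a b | σ t ∈ B.V})
    (fun B => B.isOpen_V.preimage hcont)
    (fun t _ => by
      obtain ⟨B, hB⟩ := exists_box 𝒮 (σ t)
      exact mem_iUnion.2 ⟨B, hB⟩)
  have step : ∀ n, le 𝒮 (σ a) (σ (t n)) := by
    intro n
    induction n with
    | zero => rw [ht0]; exact le_refl' _
    | succ n ih =>
      refine le_trans' ih ?_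
      obtain ⟨B, hB⟩ := ht n
      have hle : (t n : ℝ) ≤ t (n + 1) := htm (Nat.le_succ n)
      refine le_of_limit B (pure ()) (σ := fun _ : Unit => σ) (a := fun _ => (t n : ℝ))
        (b := fun _ => (t (n + 1) : ℝ)) (Eventually.of_forall fun _ => hle)
        (Eventually.of_forall fun _ => h.sub (t n).2.1 (t (n + 1)).2.2)
        (Eventually.of_forall fun _ r hr => ?_) tendsto_const_nhds tendsto_const_nhds
      have hr' : r ∈ Icc a b := ⟨(t n).2.1.trans hr.1, hr.2.trans (t (n + 1)).2.2⟩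
      have h1 : (⟨r, hr'⟩ : Icc a b) ∈ Icc (t n) (t (n + 1)) := ⟨hr.1, hr.2⟩
      exact B.V_sub_K (by linarith [B.hr]) (hB h1)
  have h1 := step m
  rw [hm m le_rfl] at h1
  exact h1

end Pool.Agent.EG

end

end M_AA3

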