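import Pool.Agent.Lib.MP_eeed5f_gt.L1

section M_LB4

/-!
Row ec-LB4 (conformal maps, first and second order; identity (B1)).  L = fderiv ℝ f y, τ = tau c y.
`inj`: `L u = 0` gives `c² g(u,v) = g'(Lu,Lv) = 0` for all `v`, so `u = 0`; bijective by dimension
(`LinearMap.injective_iff_surjective`).
`sharp_pull`: for all `v`: `g'(L (g⁻¹(a∘L)), L v) = c² g(g⁻¹(a∘L), v) = c² a(Lv)`, and
`g'(c² g'⁻¹ a, L v) = c² a(Lv)`; `L` is surjective, use `eq_of_g`.
`hess` (B1).  Let `Q(X,Y) = D²f(X,Y) + Γ'(LX,LY) - L(Γ(X,Y) + C^τ_X Y)`: bilinear, symmetric (second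
derivatives are symmetric: `second_derivative_symmetric`/`ContDiffAt.isSymmSndFDerivAt`, `gam_symm` twice,
`Ct` symmetric).  Differentiate `g'(f)(LY, LZ) = c² g(Y,Z)` in the direction `X`:
`D_{LX}g'(LY,LZ) + g'(D²f(X,Y),LZ) + g'(LY,D²f(X,Z)) = 2c² τ(X) g(Y,Z) + c² D_X g(Y,Z)`; insert `compat` on
both sides and `g'(LC^τ_X Y, LZ) = c² g(C^τ_X Y, Z)`,
`g(C^τ_X Y,Z)+g(Y,C^τ_X Z) = 2τ(X)g(Y,Z)`: this gives `q(X,Y,Z) + q(X,Z,Y) = 0` for
`q(X,Y,Z) = g'(Q(X,Y),LZ)`; with `q` symmetric in `(X,Y)` this forces `q = 0`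
(q(X,Y,Z) = -q(X,Z,Y) = -q(Z,X,Y) = q(Z,Y,X) = q(Y,Z,X) = -q(Y,X,Z) = -q(X,Y,Z)).
-/

open scoped ContDiff Topology
open Set

noncomputable section

set_option linter.unusedSectionVars false
set_option maxSynthPendingDepth 3

namespace Pool.Agent.EG

variable {E : Type*} [NormedAddCommGroup E] [NormedSpace ℝ E] [FiniteDimensional ℝ E]
variable {V : Type*} [NormedAddCommGroup V] [NormedSpace ℝ V] [FiniteDimensional ℝ V]
variable {V' : Type*} [NormedAddCommGroup V'] [NormedSpace ℝ V'] [FiniteDimensional ℝ V']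
variable {O O' S : Set E} {g g' : E → BF E} {f : E → E} {c : E → ℝ} {y : E}

theorem IsLC.inj (h : IsLC O g O' g' S f c) (hy : y ∈ S) : Function.Injective (fderiv ℝ f y) := by
  rw [injective_iff_map_eq_zero]
  intro u hu
  refine h.met.nondeg y (h.sub hy) u fun v => ?_
  have h1 := h.conf y hy u v
  rw [hu, map_zero, zero_apply] at h1
  rcases mul_eq_zero.mp h1.symm with h2 | h2
  · exact absurd h2 (pow_ne_zero 2 (h.pos y hy).ne')
  · exact h2

theorem IsLC.bij (h : IsLC O g O' g' S f c) (hy : y ∈ S) : Function.Bijective (fderiv ℝ f y) := by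
  refine ⟨h.inj hy, ?_⟩
  exact (LinearMap.injective_iff_surjective (f := (fderiv ℝ f y).toLinearMap)).mp (h.inj hy)

/-- `L (g⁻¹ (α ∘ L)) = c² g'⁻¹ α`. -/
theorem IsLC.sharp_pull (h : IsLC O g O' g' S f c) (hy : y ∈ S) (a : E →L[ℝ] ℝ) :
    fderiv ℝ f y (sharp g y (a.comp (fderiv ℝ f y))) = c y ^ 2 • sharp g' (f y) a := by
  refine h.met'.eq_of_g (h.maps hy) fun w => ?_
  obtain ⟨v, rfl⟩ := (h.bij hy).2 w
  rw [h.conf y hy, h.met.g_sharp (h.sub hy), map_smul, h.met'.g_sharp (h.maps hy)]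
  rfl

theorem IsLC.snd_symm (h : IsLC O g O' g' S f c) (hy : y ∈ S) (X Y : E) :
    fderiv ℝ (fderiv ℝ f) y X Y = fderiv ℝ (fderiv ℝ f) y Y X := by
  have h1 : ContDiffAt ℝ ∞ f y := h.smooth_f.contDiffAt (h.isOpen.mem_nhds hy)
  have h2 : IsSymmSndFDerivAt ℝ f y := h1.isSymmSndFDerivAt (by
    simp only [minSmoothness_of_isRCLikeNormedField]
    exact WithTop.coe_le_coe.mpr le_top)
  exact h2.eq X Y

/-- the differentiated conformality relation -/
theorem lb4_diff (h : IsLC O g O' g' S f c) (hy : y ∈ S) (X Y Z : E) :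
    fderiv ℝ g' (f y) (fderiv ℝ f y X) (fderiv ℝ f y Y) (fderiv ℝ f y Z)
      + g' (f y) (fderiv ℝ (fderiv ℝ f) y X Y) (fderiv ℝ f y Z)
      + g' (f y) (fderiv ℝ f y Y) (fderiv ℝ (fderiv ℝ f) y X Z)
      = 2 * c y * fderiv ℝ c y X * g y Y Z + c y ^ 2 * fderiv ℝ g y X Y Z := by
  have hf : HasFDerivAt f (fderiv ℝ f y) y := (diffAt_of h.isOpen h.smooth_f hy).hasFDerivAt
  have hf2 : HasFDerivAt (fderiv ℝ f) (fderiv ℝ (fderiv ℝ f) y) y :=
    (diffAt_of h.isOpen (smooth_fderiv h.isOpen h.smooth_f) hy).hasFDerivAt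
  have hc : HasFDerivAt c (fderiv ℝ c y) y := (diffAt_of h.isOpen h.smooth_c hy).hasFDerivAt
  have hg : HasFDerivAt g (fderiv ℝ g y) y :=
    (diffAt_of h.met.isOpen h.met.smooth (h.sub hy)).hasFDerivAt
  have hg' : HasFDerivAt g' (fderiv ℝ g' (f y)) (f y) :=
    (diffAt_of h.met'.isOpen h.met'.smooth (h.maps hy)).hasFDerivAt
  have e1 : HasFDerivAt (fun z => g' (f z)) ((fderiv ℝ g' (f y)).comp (fderiv ℝ f y)) y :=
    hg'.comp y hf
  have eY : HasFDerivAt (fun z => fderiv ℝ f z Y) ((fderiv ℝ (fderiv ℝ f) y).flip Y) y :=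
    ((ContinuousLinearMap.apply ℝ E Y).hasFDerivAt.comp y hf2)
  have eZ : HasFDerivAt (fun z => fderiv ℝ f z Z) ((fderiv ℝ (fderiv ℝ f) y).flip Z) y :=
    ((ContinuousLinearMap.apply ℝ E Z).hasFDerivAt.comp y hf2)
  have e2 := (e1.clm_apply eY).clm_apply eZ
  have gY : HasFDerivAt (fun z => g z Y) ((fderiv ℝ g y).flip Y) y :=
    ((ContinuousLinearMap.apply ℝ (E →L[ℝ] ℝ) Y).hasFDerivAt.comp y hg)
  have gYZ : HasFDerivAt (fun z => g z Y Z) (((fderiv ℝ g y).flip Y).flip Z) y :=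
    ((ContinuousLinearMap.apply ℝ ℝ Z).hasFDerivAt.comp y gY)
  have e3 := (hc.pow 2).mul gYZ
  have e4 : HasFDerivAt (fun z => g' (f z) (fderiv ℝ f z Y) (fderiv ℝ f z Z)) _ y :=
    e3.congr_of_eventuallyEq (Filter.eventuallyEq_of_mem (h.isOpen.mem_nhds hy)
      (fun z hz => h.conf z hz Y Z))
  have e5 := congrArg (fun T => T X) (e2.unique e4)
  simp only [add_apply, ContinuousLinearMap.comp_apply,
    ContinuousLinearMap.flip_apply, smul_apply, smul_eq_mul] at e5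
  rw [nsmul_eq_mul, Nat.cast_ofNat, show (2 : ℕ) - 1 = 1 from rfl, pow_one] at e5
  linarith only [e5]

/-- the quadratic relation for `q` -/
theorem lb4_skew (h : IsLC O g O' g' S f c) (hy : y ∈ S) (X Y Z : E) :
    g' (f y) (fderiv ℝ (fderiv ℝ f) y X Y + Gam g' (f y) (fderiv ℝ f y X) (fderiv ℝ f y Y)
        - fderiv ℝ f y (Gam g y X Y + Ct g y (tau c y) X Y)) (fderiv ℝ f y Z)
      + g' (f y) (fderiv ℝ (fderiv ℝ f) y X Z + Gam g' (f y) (fderiv ℝ f y X) (fderiv ℝ f y Z)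
        - fderiv ℝ f y (Gam g y X Z + Ct g y (tau c y) X Z)) (fderiv ℝ f y Y) = 0 := by
  have hO := h.sub hy
  have hO' := h.maps hy
  have h1 := lb4_diff h hy X Y Z
  rw [h.met'.compat hO', h.met.compat hO] at h1
  have hsub : ∀ a b w : E, g' (f y) (a - b) w = g' (f y) a w - g' (f y) b w := by
    intro a b w; rw [map_sub]; rfl
  have hadd : ∀ a b w : E, g' (f y) (a + b) w = g' (f y) a w + g' (f y) b w := by
    intro a b w; rw [map_add]; rfl
  have hadg : ∀ a b w : E, g y (a + b) w = g y a w + g y b w := by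
    intro a b w; rw [map_add]; rfl
  rw [hsub, hsub, hadd, hadd, h.conf y hy, h.conf y hy, hadg, hadg]
  rw [h.met'.symm _ hO' (fderiv ℝ f y Y) (fderiv ℝ (fderiv ℝ f) y X Z),
    h.met'.symm _ hO' (fderiv ℝ f y Y) (Gam g' (f y) (fderiv ℝ f y X) (fderiv ℝ f y Z)),
    h.met.symm _ hO Y (Gam g y X Z)] at h1
  have hct : ∀ U W : E, g y (Ct g y (tau c y) X U) W =
      tau c y X * g y U W + tau c y U * g y X W - g y X U * tau c y W := by
    intro U W
    rw [Ct_apply, map_sub, map_add, map_smul, map_smul, map_smul, h.met.g_sharp hO]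
    rfl
  rw [hct, hct, h.met.symm _ hO Z Y]
  have ht : c y ^ 2 * tau c y X = c y * fderiv ℝ c y X := by
    have : tau c y X = (c y)⁻¹ * fderiv ℝ c y X := rfl
    rw [this, sq, mul_assoc, mul_inv_cancel_left₀ (h.pos y hy).ne']
  linear_combination h1 - 2 * g y Y Z * ht

/-- (B1) `D²f(X,Y) = L(Γ(X,Y) + C^τ_X Y) - Γ'(LX,LY)`. -/
theorem IsLC.hess (h : IsLC O g O' g' S f c) (hy : y ∈ S) (X Y : E) :
    fderiv ℝ (fderiv ℝ f) y X Y
      = fderiv ℝ f y (Gam g y X Y + Ct g y (tau c y) X Y)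
        - Gam g' (f y) (fderiv ℝ f y X) (fderiv ℝ f y Y) := by
  have hO := h.sub hy
  have hO' := h.maps hy
  set q : E → E → E → ℝ := fun X Y Z =>
    g' (f y) (fderiv ℝ (fderiv ℝ f) y X Y + Gam g' (f y) (fderiv ℝ f y X) (fderiv ℝ f y Y)
        - fderiv ℝ f y (Gam g y X Y + Ct g y (tau c y) X Y)) (fderiv ℝ f y Z) with hq
  have hsk : ∀ X Y Z, q X Y Z = - q X Z Y := fun X Y Z =>
    eq_neg_of_add_eq_zero_left (lb4_skew h hy X Y Z)
  have hsy : ∀ X Y Z, q X Y Z = q Y X Z := by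
    intro X Y Z
    have hc : Ct g y (tau c y) X Y = Ct g y (tau c y) Y X := by
      rw [Ct_apply, Ct_apply, h.met.symm _ hO X Y, add_comm]
    simp only [hq]
    rw [h.snd_symm hy X Y, h.met'.gam_symm hO' (fderiv ℝ f y X), h.met.gam_symm hO X Y, hc]
  have h0 : ∀ Z, q X Y Z = 0 := by
    intro Z
    have a1 := hsk X Y Z
    have a2 := hsy X Z Y
    have a3 := hsk Z X Y
    have a4 := hsy Z Y X
    have a5 := hsk Y Z X
    have a6 := hsy Y X Z
    linarith only [a1, a2, a3, a4, a5, a6]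
  have h1 : fderiv ℝ (fderiv ℝ f) y X Y + Gam g' (f y) (fderiv ℝ f y X) (fderiv ℝ f y Y)
        - fderiv ℝ f y (Gam g y X Y + Ct g y (tau c y) X Y) = 0 := by
    refine h.met'.nondeg _ hO' _ fun w => ?_
    obtain ⟨v, rfl⟩ := (h.bij hy).2 w
    exact h0 v
  rw [eq_sub_iff_add_eq]
  exact sub_eq_zero.mp h1

end Pool.Agent.EG

end

end M_LB4

section M_LB5

/-!
Row ec-LB5 (gauge lemma (B2)).  L = fderiv ℝ f y.
`D_Y(D_X H)` is symmetric in `X,Y` (H is C^∞ on the open set S).  By `hD` (valid on the open set `S`)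
`D_X H = H A(X) - A'(LX) H`, hence
`D_Y D_X H = (D_Y H) A(X) + H (D_Y A)(X) - ((D_{LY}A')(LX) + A'(D²f(Y,X))) H - A'(LX) D_Y H`.
Insert `D_Y H`, `D_X H`, antisymmetrise in X,Y (D²f is symmetric):
`0 = H[A(Y),A(X)] + H((D_Y A)(X)-(D_X A)(Y)) + ([A'(LX),A'(LY)] + (D_{LX}A')(LY) - (D_{LY}A')(LX)) H`
`= - H F(X,Y) + F'(LX,LY) H`.
-/

open scoped ContDiff Topology
open Set

noncomputable section

set_option linter.unusedSectionVars false
set_option maxSynthPendingDepth 3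

namespace Pool.Agent.EG

variable {E : Type*} [NormedAddCommGroup E] [NormedSpace ℝ E] [FiniteDimensional ℝ E]
variable {V : Type*} [NormedAddCommGroup V] [NormedSpace ℝ V] [FiniteDimensional ℝ V]
variable {V' : Type*} [NormedAddCommGroup V'] [NormedSpace ℝ V'] [FiniteDimensional ℝ V']
variable {O O' S : Set E} {g g' : E → BF E} {f : E → E} {c : E → ℝ} {y : E}

/-- Symmetry of the second derivative of a smooth map on an open set. -/
theorem lb5_symm {F : Type*} [NormedAddCommGroup F] [NormedSpace ℝ F] {G : E → F} (hS : IsOpen S)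
    (hG : ContDiffOn ℝ ∞ G S) (hy : y ∈ S) (X Y : E) :
    fderiv ℝ (fderiv ℝ G) y X Y = fderiv ℝ (fderiv ℝ G) y Y X := by
  have h1 : ContDiffAt ℝ 2 G y := (hG.contDiffAt (hS.mem_nhds hy)).of_le ENat.LEInfty.out
  exact (h1.isSymmSndFDerivAt (by simp)).eq X Y

/-- The differentiated equation. -/
theorem lb5_snd {f : E → E} {A : E → E →L[ℝ] V →L[ℝ] V} {A' : E → E →L[ℝ] V' →L[ℝ] V'}
    {H : E → V →L[ℝ] V'} (hO : IsOpen O) (hO' : IsOpen O') (hS : IsOpen S) (hSO : S ⊆ O)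
    (hA : ContDiffOn ℝ ∞ A O) (hA' : ContDiffOn ℝ ∞ A' O') (hf : ContDiffOn ℝ ∞ f S)
    (hmaps : MapsTo f S O') (hH : ContDiffOn ℝ ∞ H S)
    (hD : ∀ y ∈ S, ∀ X, fderiv ℝ H y X
      = (H y).comp (A y X) - (A' (f y) (fderiv ℝ f y X)).comp (H y))
    (hy : y ∈ S) (X Y : E) :
    fderiv ℝ (fderiv ℝ H) y Y X = (H y).comp (fderiv ℝ A y Y X) + (fderiv ℝ H y Y).comp (A y X)
      - ((A' (f y) (fderiv ℝ f y X)).comp (fderiv ℝ H y Y)
        + (fderiv ℝ A' (f y) (fderiv ℝ f y Y) (fderiv ℝ f y X)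
          + A' (f y) (fderiv ℝ (fderiv ℝ f) y Y X)).comp (H y)) := by
  have dH : HasFDerivAt H (fderiv ℝ H y) y := (diffAt_of hS hH hy).hasFDerivAt
  have dH2 : HasFDerivAt (fderiv ℝ H) (fderiv ℝ (fderiv ℝ H) y) y :=
    (diffAt_of hS (smooth_fderiv hS hH) hy).hasFDerivAt
  have dA : HasFDerivAt A (fderiv ℝ A y) y := (diffAt_of hO hA (hSO hy)).hasFDerivAt
  have df : HasFDerivAt f (fderiv ℝ f y) y := (diffAt_of hS hf hy).hasFDerivAt
  have df2 : HasFDerivAt (fderiv ℝ f) (fderiv ℝ (fderiv ℝ f) y) y :=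
    (diffAt_of hS (smooth_fderiv hS hf) hy).hasFDerivAt
  have dA' : HasFDerivAt A' (fderiv ℝ A' (f y)) (f y) :=
    (diffAt_of hO' hA' (hmaps hy)).hasFDerivAt
  -- the map on the left
  have e1 : HasFDerivAt (fun z => fderiv ℝ H z X)
      ((fderiv ℝ (fderiv ℝ H) y).flip X) y := by
    have := dH2.clm_apply (hasFDerivAt_const X y)
    refine this.congr_fderiv ?_
    ext u
    simp
  -- the map on the right
  have c1 : HasFDerivAt (fun z => A z X) ((fderiv ℝ A y).flip X) y := by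
    have := dA.clm_apply (hasFDerivAt_const X y)
    refine this.congr_fderiv ?_
    ext u
    simp
  have c2 : HasFDerivAt (fun z => fderiv ℝ f z X) ((fderiv ℝ (fderiv ℝ f) y).flip X) y := by
    have := df2.clm_apply (hasFDerivAt_const X y)
    refine this.congr_fderiv ?_
    ext u
    simp
  have c3 : HasFDerivAt (fun z => A' (f z)) ((fderiv ℝ A' (f y)).comp (fderiv ℝ f y)) y :=
    dA'.comp y df
  have c4 := c3.clm_apply c2
  have e2 := (dH.clm_comp c1).sub (c4.clm_comp dH)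
  have heq : (fun z => fderiv ℝ H z X) =ᶠ[nhds y]
      (fun z => (H z).comp (A z X) - (A' (f z) (fderiv ℝ f z X)).comp (H z)) := by
    filter_upwards [hS.mem_nhds hy] with z hz
    exact hD z hz X
  have e3 := e2.congr_of_eventuallyEq heq
  have e4 := congrArg (fun T => T Y) (e1.unique e3)
  simp only [ContinuousLinearMap.flip_apply, _root_.sub_apply,
    _root_.add_apply, ContinuousLinearMap.comp_apply,
    ContinuousLinearMap.compL_apply] at e4
  rw [e4]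
  simp only [ContinuousLinearMap.add_comp]
  abel

/-- (B2) If `D_X H = H A(X) - A'(LX) H` on `S` then `F'(LX,LY) H = H F(X,Y)`. -/
theorem gauge {f : E → E} {A : E → E →L[ℝ] V →L[ℝ] V} {A' : E → E →L[ℝ] V' →L[ℝ] V'}
    {H : E → V →L[ℝ] V'} (hO : IsOpen O) (hO' : IsOpen O') (hS : IsOpen S) (hSO : S ⊆ O)
    (hA : ContDiffOn ℝ ∞ A O) (hA' : ContDiffOn ℝ ∞ A' O') (hf : ContDiffOn ℝ ∞ f S)
    (hmaps : MapsTo f S O') (hH : ContDiffOn ℝ ∞ H S)
    (hD : ∀ y ∈ S, ∀ X, fderiv ℝ H y X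
      = (H y).comp (A y X) - (A' (f y) (fderiv ℝ f y X)).comp (H y))
    (hy : y ∈ S) (X Y : E) :
    (Curv A' (f y) (fderiv ℝ f y X) (fderiv ℝ f y Y)).comp (H y) = (H y).comp (Curv A y X Y) := by
  have h1 := lb5_snd hO hO' hS hSO hA hA' hf hmaps hH hD hy X Y
  have h2 := lb5_snd hO hO' hS hSO hA hA' hf hmaps hH hD hy Y X
  have h3 := lb5_symm hS hH hy Y X
  have h4 := lb5_symm hS hf hy Y X
  rw [h1, h2, hD y hy X, hD y hy Y, h4] at h3
  rw [Curv_apply, Curv_apply]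
  ext v
  have h5 := congrArg (fun T => T v) h3
  simp only [_root_.sub_apply, _root_.add_apply,
    ContinuousLinearMap.comp_apply, map_sub, map_add] at h5 ⊢
  rw [← sub_eq_zero] at h5 ⊢
  rw [← h5]
  abel

end Pool.Agent.EG

end

end M_LB5

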