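import Pool.Agent.Lib.MP_eeed5f_gt.S0
import Pool.Agent.Lib.MP_eeed5f_gt.A1
import Pool.Agent.Lib.MP_eeed5f_gt.L3

section M_SC1

/-!
Row ec-SC1 (pushing timelike/causal vectors forward; local conformal maps).
`FT_of_FT'`: T' FT, w causal with b T' w < 0 => b T w < 0: T is FT with respect to T' as well (`IsLor b T'`, b T' T < 0), apply
`b_FT_FC` for the orientation T'.
`push_FC`: L = Df: g'(Lv,Lv) = c² g(v,v) ≤ 0;  g'(LT,Lv) = c² g(T,v) < 0 and LT is FT in the target (g'(LT,LT) = c² g(T,T) < 0 and hypothesis ho),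
so g'(T',Lv) < 0 by `FT_of_FT'`.
-/

open scoped ContDiff Topology
open Set Filter

noncomputable section

set_option linter.unusedSectionVars false
set_option maxSynthPendingDepth 3

namespace Pool.Agent.EG

variable {E : Type*} [NormedAddCommGroup E] [NormedSpace ℝ E] [FiniteDimensional ℝ E]
variable {M : Type*} [TopologicalSpace M] {ι : Type*}
variable {𝒮 : LSys E M ι}

theorem FT_of_FT' {b : BF E} {T T' w : E} (h : IsLor b T) (hT' : FT b T T') (hw : b w w ≤ 0)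
    (h1 : b T' w < 0) : b T w < 0 :=
  (h.lor_of_timelike hT'.1).b_FT_FC (u := T) (v := w)
    ⟨h.neg, by rw [h.symm]; exact hT'.2⟩ ⟨hw, h1⟩

variable {O O' S : Set E} {g g' : E → BF E} {f : E → E} {c : E → ℝ} {y : E}

theorem push_FC (h : IsLC O g O' g' S f c) (hy : y ∈ S) {T T' : E} (hT : IsLor (g y) T)
    (hT' : IsLor (g' (f y)) T') (ho : g' (f y) T' (fderiv ℝ f y T) < 0) {v : E} (hv : FC (g y) T v) :
    FC (g' (f y)) T' (fderiv ℝ f y v) := by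
  have hc : 0 < c y ^ 2 := pow_pos (h.pos y hy) 2
  have hLT : FT (g' (f y)) T' (fderiv ℝ f y T) := by
    refine ⟨?_, ho⟩
    rw [h.conf y hy]
    exact mul_neg_of_pos_of_neg hc hT.neg
  have hvv : g' (f y) (fderiv ℝ f y v) (fderiv ℝ f y v) ≤ 0 := by
    rw [h.conf y hy]
    exact mul_nonpos_of_nonneg_of_nonpos hc.le hv.1
  refine ⟨hvv, FT_of_FT' hT' hLT hvv ?_⟩
  rw [h.conf y hy]
  exact mul_neg_of_pos_of_neg hc hv.2

theorem push_FT (h : IsLC O g O' g' S f c) (hy : y ∈ S) {T T' : E} (hT : IsLor (g y) T)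
    (hT' : IsLor (g' (f y)) T') (ho : g' (f y) T' (fderiv ℝ f y T) < 0) {v : E} (hv : FT (g y) T v) :
    FT (g' (f y)) T' (fderiv ℝ f y v) := by
  refine ⟨?_, (push_FC h hy hT hT' ho ⟨hv.1.le, hv.2⟩).2⟩
  rw [h.conf y hy]
  exact mul_neg_of_pos_of_neg (pow_pos (h.pos y hy) 2) hv.1

end Pool.Agent.EG

end

end M_SC1

section M_SC2

/-!
Row ec-SC2 (local representatives).
`isCf_id`: the identity with c = 1 (this is `trans`/`orient`).
`rep_comp`: rep e₂ e₃ ψ (rep e₁ e₂ φ y) = rep e₁ e₃ (ψ∘φ) y when φ(e₁⁻¹ y) ∈ e₂.source (e₂.left_inv).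
`rep_eventually`: near y ∈ domR e₁ e₂ φ the functions rep e₁ e₃ (ψ∘φ) and (rep e₂ e₃ ψ) ∘ (rep e₁ e₂ φ) agree (φ continuous).
`domR_open`: domR is open (φ continuous: e.target open, e.symm continuous on it).
`fderiv_comp`: chain rule for the representatives.
-/

open scoped ContDiff Topology
open Set Filter

noncomputable section

set_option linter.unusedSectionVars false
set_option maxSynthPendingDepth 3

namespace Pool.Agent.EG

variable {E : Type*} [NormedAddCommGroup E] [NormedSpace ℝ E] [FiniteDimensional ℝ E]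
variable {M : Type*} [TopologicalSpace M] {ι : Type*}
variable {𝒮 : LSys E M ι}

theorem isCf_id (𝒮 : LSys E M ι) : IsCf 𝒮 (Homeomorph.refl M) (fun _ => 1) := by
  exact ⟨fun i j => 𝒮.trans i j, fun i j => 𝒮.orient i j⟩

theorem domR_open (e e' : OpenPartialHomeomorph M E) {φ : M → M} (hφ : Continuous φ) :
    IsOpen (domR e e' φ) := by
  have h : ContinuousOn (fun y => φ (e.symm y)) e.target :=
    hφ.comp_continuousOn e.continuousOn_symm
  exact h.isOpen_inter_preimage e.open_target e'.open_source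

theorem mem_domR {e e' : OpenPartialHomeomorph M E} {φ : M → M} {x : M} (hx : x ∈ e.source)
    (hx' : φ x ∈ e'.source) : e x ∈ domR e e' φ := by
  refine ⟨e.map_source hx, ?_⟩
  show φ (e.symm (e x)) ∈ e'.source
  rw [e.left_inv hx]
  exact hx'

theorem rep_apply {e : OpenPartialHomeomorph M E} (e' : OpenPartialHomeomorph M E) (φ : M → M) {x : M}
    (hx : x ∈ e.source) : rep e e' φ (e x) = e' (φ x) := by
  show e' (φ (e.symm (e x))) = e' (φ x)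
  rw [e.left_inv hx]

theorem rep_comp_eventually {e₁ e₂ e₃ : OpenPartialHomeomorph M E} {φ ψ : M → M} (hφ : Continuous φ)
    {y : E} (hy : y ∈ domR e₁ e₂ φ) :
    rep e₁ e₃ (ψ ∘ φ) =ᶠ[𝓝 y] (rep e₂ e₃ ψ) ∘ (rep e₁ e₂ φ) := by
  filter_upwards [(domR_open e₁ e₂ hφ).mem_nhds hy] with z hz
  show e₃ (ψ (φ (e₁.symm z))) = e₃ (ψ (e₂.symm (e₂ (φ (e₁.symm z)))))
  rw [e₂.left_inv hz.2]

theorem sc2_aux_smooth {φ : M ≃ₜ M} {c : M → ℝ} (hφ : IsCf 𝒮 φ c) {i j : ι} {y : E}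
    (hy : y ∈ domR (𝒮.ch i) (𝒮.ch j) φ) :
    DifferentiableAt ℝ (rep (𝒮.ch i) (𝒮.ch j) φ) y :=
  (((hφ.lc i j).smooth_f).contDiffAt ((hφ.lc i j).isOpen.mem_nhds hy)).differentiableAt
    (by simp)

theorem IsCf.fderiv_comp {φ ψ : M ≃ₜ M} {c d : M → ℝ} (hφ : IsCf 𝒮 φ c) (hψ : IsCf 𝒮 ψ d)
    {i j k : ι} {y : E} (hy : y ∈ domR (𝒮.ch i) (𝒮.ch j) φ)
    (hy' : rep (𝒮.ch i) (𝒮.ch j) φ y ∈ domR (𝒮.ch j) (𝒮.ch k) ψ) :
    fderiv ℝ (rep (𝒮.ch i) (𝒮.ch k) (ψ ∘ φ)) y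
      = (fderiv ℝ (rep (𝒮.ch j) (𝒮.ch k) ψ) (rep (𝒮.ch i) (𝒮.ch j) φ y)).comp
          (fderiv ℝ (rep (𝒮.ch i) (𝒮.ch j) φ) y) := by
  rw [(rep_comp_eventually (e₃ := 𝒮.ch k) (ψ := ψ) φ.continuous hy).fderiv_eq]
  exact _root_.fderiv_comp y (sc2_aux_smooth hψ hy') (sc2_aux_smooth hφ hy)

end Pool.Agent.EG

end

end M_SC2

section M_SC4

/-!
Row ec-SC4 (one-sided derivatives of curves in charts).
`DerivIn.chart`: DerivIn (in chart i) gives the same in every other chart j at the point: ch_j ∘ σ = rep i j id ∘ (ch_i ∘ σ) near t within s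
(σ continuous within s at t, so σ r ∈ (ch i).source for r near t in s), chain rule `HasFDerivAt.comp_hasDerivWithinAt`, `push_FC`/`push_FT` for
`trans`, `orient`.
`DerivIn.map`: the same for φ in G: in charts i (source) and j (target).  `hP` says P is FT or FC.
`DerivIn.congr`: depends only on σ near t within s (and σ t).
`DerivIn.comp_affine`: reparametrisation t ↦ a t + b, a > 0 (P is invariant under positive scaling: `FT_smul`, `FC_smul`).
-/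

open scoped ContDiff Topology
open Set Filter

noncomputable section

set_option linter.unusedSectionVars false
set_option maxSynthPendingDepth 3

namespace Pool.Agent.EG

variable {E : Type*} [NormedAddCommGroup E] [NormedSpace ℝ E] [FiniteDimensional ℝ E]
variable {M : Type*} [TopologicalSpace M] {ι : Type*}
variable {𝒮 : LSys E M ι}

theorem sc4_aux {P : BF E → E → E → Prop} (hP : P = FT ∨ P = FC) {σ : ℝ → M} {s : Set ℝ} {t : ℝ}
    (h : DerivIn 𝒮 P σ s t) (hσ : ContinuousWithinAt σ s t)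
    {φ : M → M} {j : ι}
    (hlc : ∀ i, ∃ c : E → ℝ, IsLC (𝒮.ch i).target (𝒮.g i) (𝒮.ch j).target (𝒮.g j)
      (domR (𝒮.ch i) (𝒮.ch j) φ) (rep (𝒮.ch i) (𝒮.ch j) φ) c)
    (ho : ∀ i, ∀ y ∈ domR (𝒮.ch i) (𝒮.ch j) φ,
      𝒮.g j (rep (𝒮.ch i) (𝒮.ch j) φ y) (𝒮.T j (rep (𝒮.ch i) (𝒮.ch j) φ y))
      (fderiv ℝ (rep (𝒮.ch i) (𝒮.ch j) φ) y (𝒮.T i y)) < 0)
    (hj : φ (σ t) ∈ (𝒮.ch j).source) :
    ∃ v, HasDerivWithinAt (fun r => 𝒮.ch j (φ (σ r))) v s t ∧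
      P (𝒮.g j (𝒮.ch j (φ (σ t)))) (𝒮.T j (𝒮.ch j (φ (σ t)))) v := by
  obtain ⟨i, hi, v, hv, hPv⟩ := h
  obtain ⟨c, hc⟩ := hlc i
  have hy : 𝒮.ch i (σ t) ∈ domR (𝒮.ch i) (𝒮.ch j) φ := mem_domR hi hj
  have hrep : rep (𝒮.ch i) (𝒮.ch j) φ (𝒮.ch i (σ t)) = 𝒮.ch j (φ (σ t)) := rep_apply _ φ hi
  have hd : HasFDerivAt (rep (𝒮.ch i) (𝒮.ch j) φ)
      (fderiv ℝ (rep (𝒮.ch i) (𝒮.ch j) φ) (𝒮.ch i (σ t))) (𝒮.ch i (σ t)) :=
    ((hc.smooth_f.contDiffAt (hc.isOpen.mem_nhds hy)).differentiableAt (by simp)).hasFDerivAt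
  refine ⟨fderiv ℝ (rep (𝒮.ch i) (𝒮.ch j) φ) (𝒮.ch i (σ t)) v, ?_, ?_⟩
  · have h1 := HasFDerivAt.comp_hasDerivWithinAt t hd hv
    refine h1.congr_of_eventuallyEq ?_ hrep.symm
    have h2 : ∀ᶠ r in 𝓝[s] t, σ r ∈ (𝒮.ch i).source :=
      hσ.eventually ((𝒮.ch i).open_source.mem_nhds hi)
    filter_upwards [h2] with r hr
    exact (rep_apply _ φ hr).symm
  · have hT := 𝒮.lor i _ ((𝒮.ch i).map_source hi)
    have hT' := 𝒮.lor j _ ((𝒮.ch j).map_source hj)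
    have ho' := ho i _ hy
    rw [← hrep] at hT' ⊢
    rcases hP with rfl | rfl
    · exact push_FT hc hy hT hT' ho' hPv
    · exact push_FC hc hy hT hT' ho' hPv

theorem DerivIn.chart {P : BF E → E → E → Prop} (hP : P = FT ∨ P = FC) {σ : ℝ → M} {s : Set ℝ} {t : ℝ}
    (h : DerivIn 𝒮 P σ s t) (hσ : ContinuousWithinAt σ s t) (ht : t ∈ s) {j : ι}
    (hj : σ t ∈ (𝒮.ch j).source) :
    ∃ v, HasDerivWithinAt (fun r => 𝒮.ch j (σ r)) v s t ∧
      P (𝒮.g j (𝒮.ch j (σ t))) (𝒮.T j (𝒮.ch j (σ t))) v :=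
  sc4_aux (φ := id) hP h hσ (fun i => ⟨_, 𝒮.trans i j⟩) (fun i => 𝒮.orient i j) hj

theorem DerivIn.map {P : BF E → E → E → Prop} (hP : P = FT ∨ P = FC) {σ : ℝ → M} {s : Set ℝ} {t : ℝ}
    (h : DerivIn 𝒮 P σ s t) (hσ : ContinuousWithinAt σ s t) (ht : t ∈ s)
    {φ : M ≃ₜ M} {c : M → ℝ} (hφ : IsCf 𝒮 φ c) : DerivIn 𝒮 P (fun r => φ (σ r)) s t := by
  obtain ⟨j, hj⟩ := 𝒮.cover (φ (σ t))
  exact ⟨j, hj, sc4_aux (φ := φ) hP h hσ (fun i => ⟨_, hφ.lc i j⟩)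
    (fun i => hφ.orient i j) hj⟩

theorem DerivIn.congr {P : BF E → E → E → Prop} {σ τ : ℝ → M} {s : Set ℝ} {t : ℝ}
    (h : DerivIn 𝒮 P σ s t) (he : τ =ᶠ[𝓝[s] t] σ) (ht : τ t = σ t) : DerivIn 𝒮 P τ s t := by
  obtain ⟨i, hi, v, hv, hPv⟩ := h
  refine ⟨i, by rw [ht]; exact hi, v, ?_, by rw [ht]; exact hPv⟩
  refine hv.congr_of_eventuallyEq ?_ (by rw [ht])
  filter_upwards [he] with r hr
  rw [hr]

theorem DerivIn.mono {P : BF E → E → E → Prop} {σ : ℝ → M} {s s' : Set ℝ} {t : ℝ}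
    (h : DerivIn 𝒮 P σ s t) (hs : s' ⊆ s) : DerivIn 𝒮 P σ s' t := by
  obtain ⟨i, hi, v, hv, hPv⟩ := h
  exact ⟨i, hi, v, hv.mono hs, hPv⟩

theorem sc4_aux2 {P : BF E → E → E → Prop} (hP : P = FT ∨ P = FC) {σ : ℝ → M} {a b t : ℝ}
    (ha : 0 < a) {s s' : Set ℝ} (hm : MapsTo (fun r => a * r + b) s s')
    (h : DerivIn 𝒮 P σ s' (a * t + b)) : DerivIn 𝒮 P (fun r => σ (a * r + b)) s t := by
  obtain ⟨i, hi, v, hv, hPv⟩ := h
  refine ⟨i, hi, a • v, ?_, ?_⟩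
  · have h1 : HasDerivWithinAt (fun r : ℝ => a * r + b) a s t := by
      simpa using (((hasDerivAt_id t).const_mul a).add_const b).hasDerivWithinAt
    exact HasDerivWithinAt.scomp (h := fun r : ℝ => a * r + b)
      (g₁ := fun r => 𝒮.ch i (σ r)) t hv h1 hm
  · have hT := 𝒮.lor i _ ((𝒮.ch i).map_source hi)
    rcases hP with rfl | rfl
    · exact hT.FT_smul hPv ha
    · exact hT.FC_smul hPv ha

theorem DerivIn.comp_affine {P : BF E → E → E → Prop} (hP : P = FT ∨ P = FC) {σ : ℝ → M} {a b t : ℝ}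
    (ha : 0 < a) :
    (DerivIn 𝒮 P σ (Ici (a * t + b)) (a * t + b) → DerivIn 𝒮 P (fun r => σ (a * r + b)) (Ici t) t) ∧
    (DerivIn 𝒮 P σ (Iic (a * t + b)) (a * t + b) → DerivIn 𝒮 P (fun r => σ (a * r + b)) (Iic t) t) := by
  refine ⟨fun h => sc4_aux2 hP ha ?_ h, fun h => sc4_aux2 hP ha ?_ h⟩
  · intro r hr
    have hr : t ≤ r := hr
    have := mul_le_mul_of_nonneg_left hr ha.le
    show a * t + b ≤ a * r + b
    linarith
  · intro r hr
    have hr : r ≤ t := hr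
    have := mul_le_mul_of_nonneg_left hr ha.le
    show a * r + b ≤ a * t + b
    linarith

end Pool.Agent.EG

end

end M_SC4

section M_SC5

/-!
Row ec-SC5 (curves: restriction, concatenation, reparametrisation, images, time reversal).
All pieces from ec-SC4.  Concatenation: τ r = if r ≤ b then σ₁ r else σ₂ r; at the joint the left derivative is that of σ₁, the right one that of
σ₂ (`DerivIn.congr`).  Time reversal: r ↦ σ(-r), derivative -v in `𝒮.rev` (FT b (-T) (-v) ↔ ... : b(-T)(-v) = b T v).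
-/

open scoped ContDiff Topology
open Set Filter

noncomputable section

set_option linter.unusedSectionVars false
set_option maxSynthPendingDepth 3

namespace Pool.Agent.EG

variable {E : Type*} [NormedAddCommGroup E] [NormedSpace ℝ E] [FiniteDimensional ℝ E]
variable {M : Type*} [TopologicalSpace M] {ι : Type*}
variable {𝒮 : LSys E M ι}

theorem sc5_Icc_ge {a b t : ℝ} (h : t ∈ Ico a b) : Icc a b ∈ 𝓝[≥] t := by
  have h1 : Iio b ∈ 𝓝 t := Iio_mem_nhds h.2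
  refine Filter.mem_of_superset (Filter.inter_mem (mem_nhdsWithin_of_mem_nhds h1)
    (self_mem_nhdsWithin : Ici t ∈ 𝓝[Ici t] t)) ?_
  rintro r ⟨hr1, hr2⟩
  exact ⟨h.1.trans hr2, le_of_lt hr1⟩

theorem sc5_Icc_le {a b t : ℝ} (h : t ∈ Ioc a b) : Icc a b ∈ 𝓝[≤] t := by
  have h1 : Ioi a ∈ 𝓝 t := Ioi_mem_nhds h.1
  refine Filter.mem_of_superset (Filter.inter_mem (mem_nhdsWithin_of_mem_nhds h1)
    (self_mem_nhdsWithin : Iic t ∈ 𝓝[Iic t] t)) ?_
  rintro r ⟨hr1, hr2⟩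
  exact ⟨le_of_lt hr1, le_trans hr2 h.2⟩

theorem sc5_cw_ge {σ : ℝ → M} {a b t : ℝ} (hc : ContinuousOn σ (Icc a b)) (h : t ∈ Ico a b) :
    ContinuousWithinAt σ (Ici t) t :=
  (hc t ⟨h.1, h.2.le⟩).mono_of_mem_nhdsWithin (sc5_Icc_ge h)

theorem sc5_cw_le {σ : ℝ → M} {a b t : ℝ} (hc : ContinuousOn σ (Icc a b)) (h : t ∈ Ioc a b) :
    ContinuousWithinAt σ (Iic t) t :=
  (hc t ⟨h.1.le, h.2⟩).mono_of_mem_nhdsWithin (sc5_Icc_le h)

theorem IsCurve.sub {P : BF E → E → E → Prop} {σ : ℝ → M} {a b a' b' : ℝ} (h : IsCurve 𝒮 P σ a b)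
    (ha : a ≤ a') (hb : b' ≤ b) : IsCurve 𝒮 P σ a' b' := by
  refine ⟨h.cont.mono (Icc_subset_Icc ha hb), fun t ht => h.right t ⟨ha.trans ht.1, ht.2.trans_le hb⟩,
    fun t ht => h.left t ⟨lt_of_le_of_lt ha ht.1, ht.2.trans hb⟩⟩

theorem IsCurve.congr {P : BF E → E → E → Prop} {σ τ : ℝ → M} {a b : ℝ} (h : IsCurve 𝒮 P σ a b)
    (he : EqOn τ σ (Icc a b)) : IsCurve 𝒮 P τ a b := by
  refine ⟨h.cont.congr he, fun t ht => ?_, fun t ht => ?_⟩
  · refine (h.right t ht).congr ?_ (he ⟨ht.1, ht.2.le⟩)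
    filter_upwards [sc5_Icc_ge ht] with r hr using he hr
  · refine (h.left t ht).congr ?_ (he ⟨ht.1.le, ht.2⟩)
    filter_upwards [sc5_Icc_le ht] with r hr using he hr

theorem IsCurve.of_FT {σ : ℝ → M} {a b : ℝ} (h : IsCurve 𝒮 FT σ a b) : IsCurve 𝒮 FC σ a b := by
  have key : ∀ s t, DerivIn 𝒮 FT σ s t → DerivIn 𝒮 FC σ s t := by
    rintro s t ⟨i, hi, v, hv, h1, h2⟩
    exact ⟨i, hi, v, hv, h1.le, h2⟩
  exact ⟨h.cont, fun t ht => key _ _ (h.right t ht), fun t ht => key _ _ (h.left t ht)⟩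

theorem IsCurve.concat {P : BF E → E → E → Prop} {σ₁ σ₂ : ℝ → M} {a b c : ℝ}
    (h₁ : IsCurve 𝒮 P σ₁ a b) (h₂ : IsCurve 𝒮 P σ₂ b c) (hab : a ≤ b) (hbc : b ≤ c) (he : σ₁ b = σ₂ b) :
    IsCurve 𝒮 P (fun r => if r ≤ b then σ₁ r else σ₂ r) a c := by
  have e1 : ∀ r, r ≤ b → (fun r => if r ≤ b then σ₁ r else σ₂ r) r = σ₁ r := by
    intro r hr
    simp only [hr, if_true]
  have e2 : ∀ r, b ≤ r → (fun r => if r ≤ b then σ₁ r else σ₂ r) r = σ₂ r := by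
    intro r hr
    rcases eq_or_lt_of_le hr with h | h
    · subst h
      simp only [le_refl, if_true]
      exact he
    · simp only [not_le.mpr h, if_false]
  refine ⟨?_, fun t ht => ?_, fun t ht => ?_⟩
  · rw [← Icc_union_Icc_eq_Icc hab hbc]
    exact (h₁.cont.congr fun r hr => e1 r hr.2).union_of_isClosed
      (h₂.cont.congr fun r hr => e2 r hr.1) isClosed_Icc isClosed_Icc
  · rcases lt_or_ge t b with h | h
    · refine (h₁.right t ⟨ht.1, h⟩).congr ?_ (e1 t h.le)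
      filter_upwards [mem_nhdsWithin_of_mem_nhds (Iio_mem_nhds h)] with r hr using e1 r (le_of_lt hr)
    · refine (h₂.right t ⟨h, ht.2⟩).congr ?_ (e2 t h)
      filter_upwards [self_mem_nhdsWithin] with r hr using e2 r (h.trans hr)
  · rcases le_or_gt t b with h | h
    · refine (h₁.left t ⟨ht.1, h⟩).congr ?_ (e1 t h)
      filter_upwards [self_mem_nhdsWithin] with r hr using e1 r (le_trans hr h)
    · refine (h₂.left t ⟨h, ht.2⟩).congr ?_ (e2 t h.le)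
      filter_upwards [mem_nhdsWithin_of_mem_nhds (Ioi_mem_nhds h)] with r hr using e2 r (le_of_lt hr)

theorem IsCurve.affine {P : BF E → E → E → Prop} (hP : P = FT ∨ P = FC) {σ : ℝ → M} {a b k m : ℝ}
    (hk : 0 < k) (h : IsCurve 𝒮 P σ (k * a + m) (k * b + m)) :
    IsCurve 𝒮 P (fun r => σ (k * r + m)) a b := by
  refine ⟨?_, fun t ht => ?_, fun t ht => ?_⟩
  · have hc : Continuous fun r : ℝ => k * r + m := by fun_prop
    exact h.cont.comp hc.continuousOn fun r hr =>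
      ⟨by nlinarith [hr.1, hr.2], by nlinarith [hr.1, hr.2]⟩
  · exact (DerivIn.comp_affine hP hk).1 (h.right (k * t + m)
      ⟨by nlinarith [ht.1, ht.2], by nlinarith [ht.1, ht.2]⟩)
  · exact (DerivIn.comp_affine hP hk).2 (h.left (k * t + m)
      ⟨by nlinarith [ht.1, ht.2], by nlinarith [ht.1, ht.2]⟩)

theorem IsCurve.map {P : BF E → E → E → Prop} (hP : P = FT ∨ P = FC) {σ : ℝ → M} {a b : ℝ}
    (h : IsCurve 𝒮 P σ a b) {φ : M ≃ₜ M} {c : M → ℝ} (hφ : IsCf 𝒮 φ c) :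
    IsCurve 𝒮 P (fun r => φ (σ r)) a b := by
  refine ⟨φ.continuous.comp_continuousOn h.cont, fun t ht => ?_, fun t ht => ?_⟩
  · exact (h.right t ht).map hP (sc5_cw_ge h.cont ht) (mem_Ici.2 le_rfl) hφ
  · exact (h.left t ht).map hP (sc5_cw_le h.cont ht) (mem_Iic.2 le_rfl) hφ

theorem IsCurve.rev {P : BF E → E → E → Prop} (hP : P = FT ∨ P = FC) {σ : ℝ → M} {a b : ℝ}
    (h : IsCurve 𝒮 P σ a b) : IsCurve 𝒮.rev P (fun r => σ (-r)) (-b) (-a) := by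
  have key : ∀ (s s' : Set ℝ) (t : ℝ), MapsTo (fun r : ℝ => -r) s s' → DerivIn 𝒮 P σ s' (-t) →
      DerivIn 𝒮.rev P (fun r => σ (-r)) s t := by
    rintro s s' t hs ⟨i, hi, v, hv, hp⟩
    refine ⟨i, hi, -v, ?_, ?_⟩
    · have h1 : HasDerivWithinAt (fun r : ℝ => -r) (-1) s t := hasDerivWithinAt_neg t s
      have h2 := HasDerivWithinAt.scomp (h := fun r : ℝ => -r) t hv h1 hs
      have h3 : ((-1 : ℝ) • v) = -v := by simp
      rw [h3] at h2
      exact h2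
    · rcases hP with rfl | rfl
      · refine ⟨?_, ?_⟩
        · have := hp.1
          change (𝒮.g i (𝒮.ch i (σ (-t)))) (-v) (-v) < 0
          simpa using this
        · have := hp.2
          change (𝒮.g i (𝒮.ch i (σ (-t)))) (- 𝒮.T i (𝒮.ch i (σ (-t)))) (-v) < 0
          simpa using this
      · refine ⟨?_, ?_⟩
        · have := hp.1
          change (𝒮.g i (𝒮.ch i (σ (-t)))) (-v) (-v) ≤ 0
          simpa using this
        · have := hp.2
          change (𝒮.g i (𝒮.ch i (σ (-t)))) (- 𝒮.T i (𝒮.ch i (σ (-t)))) (-v) < 0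
          simpa using this
  refine ⟨?_, fun t ht => ?_, fun t ht => ?_⟩
  · exact h.cont.comp continuous_neg.continuousOn fun r hr =>
      ⟨by linarith [hr.1, hr.2], by linarith [hr.1, hr.2]⟩
  · refine key (Ici t) (Iic (-t)) t (fun r hr => ?_) (h.left (-t) ⟨?_, ?_⟩)
    · exact mem_Iic.2 (neg_le_neg (mem_Ici.1 hr))
    · linarith [ht.2]
    · linarith [ht.1]
  · refine key (Iic t) (Ici (-t)) t (fun r hr => ?_) (h.right (-t) ⟨?_, ?_⟩)
    · exact mem_Ici.2 (neg_le_neg (mem_Iic.1 hr))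
    · linarith [ht.2]
    · linarith [ht.1]

/-- curves in a chart: if `τ` has one-sided derivatives satisfying `P` then `ch_i⁻¹ ∘ τ` is a curve -/
theorem IsCurve.of_chart {P : BF E → E → E → Prop} {i : ι} {τ : ℝ → E} {a b : ℝ}
    (hc : ContinuousOn τ (Icc a b)) (ht : ∀ t ∈ Icc a b, τ t ∈ (𝒮.ch i).target)
    (hr : ∀ t ∈ Ico a b, ∃ v, HasDerivWithinAt τ v (Ici t) t ∧ P (𝒮.g i (τ t)) (𝒮.T i (τ t)) v)
    (hl : ∀ t ∈ Ioc a b, ∃ v, HasDerivWithinAt τ v (Iic t) t ∧ P (𝒮.g i (τ t)) (𝒮.T i (τ t)) v) :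
    IsCurve 𝒮 P (fun r => (𝒮.ch i).symm (τ r)) a b := by
  have hsrc : ∀ t ∈ Icc a b, (𝒮.ch i).symm (τ t) ∈ (𝒮.ch i).source := fun t h =>
    (𝒮.ch i).map_target (ht t h)
  have hinv : ∀ t ∈ Icc a b, 𝒮.ch i ((𝒮.ch i).symm (τ t)) = τ t := fun t h =>
    (𝒮.ch i).right_inv (ht t h)
  refine ⟨(𝒮.ch i).continuousOn_symm.comp hc ht, fun t h => ?_, fun t h => ?_⟩
  · obtain ⟨v, hv, hp⟩ := hr t h
    have ht' : t ∈ Icc a b := ⟨h.1, h.2.le⟩
    refine ⟨i, hsrc t ht', v, ?_, ?_⟩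
    · refine hv.congr_of_eventuallyEq ?_ (hinv t ht')
      filter_upwards [sc5_Icc_ge h] with r hr using hinv r hr
    · rw [hinv t ht']
      exact hp
  · obtain ⟨v, hv, hp⟩ := hl t h
    have ht' : t ∈ Icc a b := ⟨h.1.le, h.2⟩
    refine ⟨i, hsrc t ht', v, ?_, ?_⟩
    · refine hv.congr_of_eventuallyEq ?_ (hinv t ht')
      filter_upwards [sc5_Icc_le h] with r hr using hinv r hr
    · rw [hinv t ht']
      exact hp

end Pool.Agent.EG

end

end M_SC5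

section M_SC3

/-!
Row ec-SC3 (the group).
`IsCf.comp`: representatives of ψ∘φ: near y choose a chart j at φ(ch_i⁻¹ y) (cover); rep of ψ∘φ is locally the composition
(`rep_comp_eventually`), so it is smooth near y, factor d(φ x) c(x) (product of squares), conformality by the chain rule, orientation by `push_FT`
applied to the FT vector L T_i.  (ContDiffOn on the open set domR from ContDiffAt at every point.)
`IsCf.symm`: φ⁻¹ with factor 1/c(φ⁻¹ x).  In charts i, j: rep j i φ⁻¹ is the inverse of rep i j φ: near a point use the inverse function theorem: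
`ContDiffAt.to_localInverse` / `OpenPartialHomeomorph.contDiffAt_symm` for the local homeomorphism
(ch i).symm.trans (φ.toOpenPartialHomeomorph.trans (ch j)); its derivative is invertible (`IsLC.bij`).
Factor: continuous and smooth because c ∘ ch_i⁻¹ is smooth and φ⁻¹ is smooth.
`cf_unique`: the factor is determined by φ when E is nontrivial (g(T,T) ≠ 0): c² g(T,T) = g'(LT,LT), c > 0.
-/

open scoped ContDiff Topology
open Set Filter

noncomputable section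

set_option linter.unusedSectionVars false
set_option maxSynthPendingDepth 3

namespace Pool.Agent.EG

variable {E : Type*} [NormedAddCommGroup E] [NormedSpace ℝ E] [FiniteDimensional ℝ E]
variable {M : Type*} [TopologicalSpace M] {ι : Type*}
variable {𝒮 : LSys E M ι}

private theorem sc3_mem {e e' : OpenPartialHomeomorph M E} {φ : M → M} {y : E}
    (hy : y ∈ domR e e' φ) : rep e e' φ y ∈ e'.target := e'.map_source hy.2

private theorem sc3_left {e e' : OpenPartialHomeomorph M E} {φ : M → M} {y : E}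
    (hy : y ∈ domR e e' φ) : e'.symm (rep e e' φ y) = φ (e.symm y) := e'.left_inv hy.2

private theorem sc3_dom {e₁ e₂ e₃ : OpenPartialHomeomorph M E} {φ ψ : M → M} {y : E}
    (hy : y ∈ domR e₁ e₂ φ) (hy3 : ψ (φ (e₁.symm y)) ∈ e₃.source) :
    rep e₁ e₂ φ y ∈ domR e₂ e₃ ψ := by
  refine ⟨sc3_mem hy, ?_⟩
  change ψ (e₂.symm (rep e₁ e₂ φ y)) ∈ e₃.source
  rw [sc3_left hy]
  exact hy3

private theorem sc3_rep {e₁ e₂ e₃ : OpenPartialHomeomorph M E} {φ ψ : M → M} {y : E}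
    (hy : y ∈ domR e₁ e₂ φ) : rep e₂ e₃ ψ (rep e₁ e₂ φ y) = rep e₁ e₃ (ψ ∘ φ) y := by
  unfold rep
  change e₃ (ψ (e₂.symm (rep e₁ e₂ φ y))) = _
  rw [sc3_left hy]
  rfl

theorem IsCf.comp {φ ψ : M ≃ₜ M} {c d : M → ℝ} (hφ : IsCf 𝒮 φ c) (hψ : IsCf 𝒮 ψ d) :
    IsCf 𝒮 (φ.trans ψ) (fun x => d (φ x) * c x) := by
  have hco : (⇑(φ.trans ψ) : M → M) = ψ ∘ φ := rfl
  have hcont : Continuous (ψ ∘ φ : M → M) := ψ.continuous.comp φ.continuous
  constructor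
  · intro i k
    rw [hco]
    refine ⟨𝒮.met i, 𝒮.met k, domR_open _ _ hcont, inter_subset_left, fun y hy => sc3_mem hy,
      ?_, ?_, ?_, ?_⟩
    · intro y hy
      obtain ⟨j, hj⟩ := 𝒮.cover (φ ((𝒮.ch i).symm y))
      have hyj : y ∈ domR (𝒮.ch i) (𝒮.ch j) φ := ⟨hy.1, hj⟩
      have hyk := sc3_dom hyj (e₃ := 𝒮.ch k) (ψ := ψ) hy.2
      have h1 : ContDiffAt ℝ ∞ (rep (𝒮.ch i) (𝒮.ch j) φ) y :=
        (hφ.lc i j).smooth_f.contDiffAt ((hφ.lc i j).isOpen.mem_nhds hyj)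
      have h2 : ContDiffAt ℝ ∞ (rep (𝒮.ch j) (𝒮.ch k) ψ) (rep (𝒮.ch i) (𝒮.ch j) φ y) :=
        (hψ.lc j k).smooth_f.contDiffAt ((hψ.lc j k).isOpen.mem_nhds hyk)
      exact ((h2.comp y h1).congr_of_eventuallyEq
        (rep_comp_eventually φ.continuous hyj)).contDiffWithinAt
    · intro y hy
      obtain ⟨j, hj⟩ := 𝒮.cover (φ ((𝒮.ch i).symm y))
      have hyj : y ∈ domR (𝒮.ch i) (𝒮.ch j) φ := ⟨hy.1, hj⟩
      have hyk := sc3_dom hyj (e₃ := 𝒮.ch k) (ψ := ψ) hy.2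
      have h1 : ContDiffAt ℝ ∞ (rep (𝒮.ch i) (𝒮.ch j) φ) y :=
        (hφ.lc i j).smooth_f.contDiffAt ((hφ.lc i j).isOpen.mem_nhds hyj)
      have h2 : ContDiffAt ℝ ∞ (fun z => d ((𝒮.ch j).symm z)) (rep (𝒮.ch i) (𝒮.ch j) φ y) :=
        (hψ.lc j k).smooth_c.contDiffAt ((hψ.lc j k).isOpen.mem_nhds hyk)
      have h3 : ContDiffAt ℝ ∞ (fun z => c ((𝒮.ch i).symm z)) y :=
        (hφ.lc i j).smooth_c.contDiffAt ((hφ.lc i j).isOpen.mem_nhds hyj)
      have h4 := (h2.comp y h1).mul h3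
      refine (h4.congr_of_eventuallyEq ?_).contDiffWithinAt
      filter_upwards [(hφ.lc i j).isOpen.mem_nhds hyj] with z hz
      simp only [Function.comp_apply]
      rw [sc3_left hz]
    · intro y hy
      obtain ⟨j, hj⟩ := 𝒮.cover (φ ((𝒮.ch i).symm y))
      have hyj : y ∈ domR (𝒮.ch i) (𝒮.ch j) φ := ⟨hy.1, hj⟩
      have hyk := sc3_dom hyj (e₃ := 𝒮.ch k) (ψ := ψ) hy.2
      have h1 := (hφ.lc i j).pos y hyj
      have h2 := (hψ.lc j k).pos _ hyk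
      simp only [sc3_left hyj] at h2
      exact mul_pos h2 h1
    · intro y hy u v
      obtain ⟨j, hj⟩ := 𝒮.cover (φ ((𝒮.ch i).symm y))
      have hyj : y ∈ domR (𝒮.ch i) (𝒮.ch j) φ := ⟨hy.1, hj⟩
      have hyk := sc3_dom hyj (e₃ := 𝒮.ch k) (ψ := ψ) hy.2
      have h1 := (hφ.lc i j).conf y hyj u v
      have h2 := (hψ.lc j k).conf _ hyk (fderiv ℝ (rep (𝒮.ch i) (𝒮.ch j) φ) y u)
        (fderiv ℝ (rep (𝒮.ch i) (𝒮.ch j) φ) y v)
      rw [h1, sc3_rep hyj] at h2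
      simp only [sc3_left hyj] at h2
      rw [hφ.fderiv_comp hψ hyj hyk]
      simp only [ContinuousLinearMap.comp_apply]
      rw [h2]
      ring
  · intro i k y hy
    rw [hco] at hy ⊢
    obtain ⟨j, hj⟩ := 𝒮.cover (φ ((𝒮.ch i).symm y))
    have hyj : y ∈ domR (𝒮.ch i) (𝒮.ch j) φ := ⟨hy.1, hj⟩
    have hyk := sc3_dom hyj (e₃ := 𝒮.ch k) (ψ := ψ) hy.2
    have hT : FT (𝒮.g i y) (𝒮.T i y) (𝒮.T i y) := (𝒮.lor i y hy.1).FT_T
    have h1 := push_FT (hφ.lc i j) hyj (𝒮.lor i y hy.1) (𝒮.lor j _ (sc3_mem hyj))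
      (hφ.orient i j y hyj) hT
    have h2 := push_FT (hψ.lc j k) hyk (𝒮.lor j _ (sc3_mem hyj)) (𝒮.lor k _ (sc3_mem hyk))
      (hψ.orient j k _ hyk) h1
    have h3 := h2.2
    rw [sc3_rep hyj] at h3
    rw [hφ.fderiv_comp hψ hyj hyk]
    exact h3

theorem IsCf.pos {φ : M ≃ₜ M} {c : M → ℝ} (hφ : IsCf 𝒮 φ c) (x : M) : 0 < c x := by
  obtain ⟨i, hi⟩ := 𝒮.cover x
  obtain ⟨j, hj⟩ := 𝒮.cover (φ x)
  have h := (hφ.lc i j).pos _ (mem_domR hi hj)
  rw [(𝒮.ch i).left_inv hi] at h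
  exact h

/-- the chart expression of a homeomorphism as an local homeomorphism -/
private def sc3_oph (e e' : OpenPartialHomeomorph M E) (φ : M ≃ₜ M) : OpenPartialHomeomorph E E :=
  e.symm.trans (φ.toOpenPartialHomeomorph.trans e')

private theorem sc3_coe (e e' : OpenPartialHomeomorph M E) (φ : M ≃ₜ M) :
    (sc3_oph e e' φ : E → E) = rep e e' φ := rfl

private theorem sc3_symm_coe (e e' : OpenPartialHomeomorph M E) (φ : M ≃ₜ M) :
    ((sc3_oph e e' φ).symm : E → E) = rep e' e φ.symm := rfl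

private theorem sc3_target (e e' : OpenPartialHomeomorph M E) (φ : M ≃ₜ M) :
    (sc3_oph e e' φ).target = domR e' e φ.symm := by
  unfold sc3_oph domR
  ext y
  simp only [OpenPartialHomeomorph.trans_target, OpenPartialHomeomorph.symm_target,
    Homeomorph.toOpenPartialHomeomorph_target, mem_inter_iff, mem_preimage, mem_univ, and_true]
  exact Iff.rfl

/-- the derivatives of a chart expression and of its inverse -/
private theorem sc3_inv {φ : M ≃ₜ M} {c : M → ℝ} (hφ : IsCf 𝒮 φ c) {i j : ι} {y : E}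
    (hy : y ∈ domR (𝒮.ch i) (𝒮.ch j) φ.symm) :
    rep (𝒮.ch i) (𝒮.ch j) φ.symm y ∈ domR (𝒮.ch j) (𝒮.ch i) φ ∧
    rep (𝒮.ch j) (𝒮.ch i) φ (rep (𝒮.ch i) (𝒮.ch j) φ.symm y) = y ∧
    ContDiffAt ℝ ∞ (rep (𝒮.ch i) (𝒮.ch j) φ.symm) y ∧
    ∀ u, fderiv ℝ (rep (𝒮.ch j) (𝒮.ch i) φ) (rep (𝒮.ch i) (𝒮.ch j) φ.symm y)
      (fderiv ℝ (rep (𝒮.ch i) (𝒮.ch j) φ.symm) y u) = u := by
  have h1 : rep (𝒮.ch i) (𝒮.ch j) φ.symm y ∈ domR (𝒮.ch j) (𝒮.ch i) φ := by
    apply sc3_dom hy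
    rw [φ.apply_symm_apply]
    exact (𝒮.ch i).map_target hy.1
  have h2 : rep (𝒮.ch j) (𝒮.ch i) φ (rep (𝒮.ch i) (𝒮.ch j) φ.symm y) = y := by
    rw [sc3_rep hy]
    unfold rep
    simp only [Function.comp_apply, φ.apply_symm_apply]
    exact (𝒮.ch i).right_inv hy.1
  obtain ⟨z, hz⟩ : ∃ z, z = rep (𝒮.ch i) (𝒮.ch j) φ.symm y := ⟨_, rfl⟩
  rw [← hz] at h1 h2 ⊢
  have hl := hφ.lc j i
  have hbij := hl.bij h1
  let L : E ≃L[ℝ] E := (LinearEquiv.ofBijective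
    (fderiv ℝ (rep (𝒮.ch j) (𝒮.ch i) φ) z : E →ₗ[ℝ] E) hbij).toContinuousLinearEquiv
  have hL : (L : E →L[ℝ] E) = fderiv ℝ (rep (𝒮.ch j) (𝒮.ch i) φ) z := by
    ext u
    rfl
  have hsm : ContDiffAt ℝ ∞ (rep (𝒮.ch j) (𝒮.ch i) φ) z :=
    hl.smooth_f.contDiffAt (hl.isOpen.mem_nhds h1)
  have hd : HasFDerivAt (rep (𝒮.ch j) (𝒮.ch i) φ) (L : E →L[ℝ] E) z := by
    rw [hL]
    exact (hsm.differentiableAt (by simp)).hasFDerivAt
  have hyt : y ∈ (sc3_oph (𝒮.ch j) (𝒮.ch i) φ).target := by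
    rw [sc3_target]
    exact hy
  have hzs : (sc3_oph (𝒮.ch j) (𝒮.ch i) φ).symm y = z := by
    rw [hz]
    rfl
  have hd' : HasFDerivAt (sc3_oph (𝒮.ch j) (𝒮.ch i) φ) (L : E →L[ℝ] E)
      ((sc3_oph (𝒮.ch j) (𝒮.ch i) φ).symm y) := by
    rw [hzs]
    exact hd
  have hsm' : ContDiffAt ℝ ∞ (sc3_oph (𝒮.ch j) (𝒮.ch i) φ)
      ((sc3_oph (𝒮.ch j) (𝒮.ch i) φ).symm y) := by
    rw [hzs]
    exact hsm
  have h3 : ContDiffAt ℝ ∞ (rep (𝒮.ch i) (𝒮.ch j) φ.symm) y :=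
    (sc3_oph (𝒮.ch j) (𝒮.ch i) φ).contDiffAt_symm hyt hd' hsm'
  have h4 : HasFDerivAt (rep (𝒮.ch i) (𝒮.ch j) φ.symm) (L.symm : E →L[ℝ] E) y :=
    (sc3_oph (𝒮.ch j) (𝒮.ch i) φ).hasFDerivAt_symm hyt hd'
  refine ⟨h1, h2, h3, ?_⟩
  intro u
  rw [h4.fderiv, ← hL]
  exact L.apply_symm_apply u

theorem IsCf.symm {φ : M ≃ₜ M} {c : M → ℝ} (hφ : IsCf 𝒮 φ c) :
    IsCf 𝒮 φ.symm (fun x => (c (φ.symm x))⁻¹) := by
  constructor
  · intro i j
    refine ⟨𝒮.met i, 𝒮.met j, domR_open _ _ φ.symm.continuous, inter_subset_left,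
      fun y hy => sc3_mem hy, ?_, ?_, ?_, ?_⟩
    · intro y hy
      exact (sc3_inv hφ hy).2.2.1.contDiffWithinAt
    · intro y hy
      obtain ⟨h1, h2, h3, h4⟩ := sc3_inv hφ hy
      have h5 : ContDiffAt ℝ ∞ (fun z => c ((𝒮.ch j).symm z)) (rep (𝒮.ch i) (𝒮.ch j) φ.symm y) :=
        (hφ.lc j i).smooth_c.contDiffAt ((hφ.lc j i).isOpen.mem_nhds h1)
      have h6 := (h5.comp y h3).inv (hφ.pos _).ne'
      refine (h6.congr_of_eventuallyEq ?_).contDiffWithinAt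
      filter_upwards [(domR_open (𝒮.ch i) (𝒮.ch j) φ.symm.continuous).mem_nhds hy] with z hz
      change (c (φ.symm ((𝒮.ch i).symm z)))⁻¹ =
        (c ((𝒮.ch j).symm (rep (𝒮.ch i) (𝒮.ch j) φ.symm z)))⁻¹
      rw [sc3_left hz]
    · intro y _
      exact inv_pos.2 (hφ.pos _)
    · intro y hy u v
      obtain ⟨h1, h2, h3, h4⟩ := sc3_inv hφ hy
      have h5 := (hφ.lc j i).conf _ h1 (fderiv ℝ (rep (𝒮.ch i) (𝒮.ch j) φ.symm) y u)
        (fderiv ℝ (rep (𝒮.ch i) (𝒮.ch j) φ.symm) y v)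
      rw [h4, h4, h2] at h5
      simp only [sc3_left hy] at h5
      have h6 := (hφ.pos (φ.symm ((𝒮.ch i).symm y))).ne'
      rw [h5]
      field_simp
  · intro i j y hy
    obtain ⟨h1, h2, h3, h4⟩ := sc3_inv hφ hy
    have h5 := (hφ.lc j i).conf _ h1 (𝒮.T j (rep (𝒮.ch i) (𝒮.ch j) φ.symm y))
      (fderiv ℝ (rep (𝒮.ch i) (𝒮.ch j) φ.symm) y (𝒮.T i y))
    have h6 := hφ.orient j i _ h1
    rw [h4, h2] at h5
    rw [h2] at h6
    rw [(𝒮.lor i y hy.1).symm] at h6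
    have h7 := hφ.pos ((𝒮.ch j).symm (rep (𝒮.ch i) (𝒮.ch j) φ.symm y))
    rw [h5] at h6
    by_contra hcon
    push Not at hcon
    have h8 := mul_nonneg (sq_nonneg (c ((𝒮.ch j).symm (rep (𝒮.ch i) (𝒮.ch j) φ.symm y)))) hcon
    linarith

theorem IsCf.unique {φ : M ≃ₜ M} {c d : M → ℝ} (hc : IsCf 𝒮 φ c) (hd : IsCf 𝒮 φ d) : c = d := by
  funext x
  obtain ⟨i, hi⟩ := 𝒮.cover x
  obtain ⟨j, hj⟩ := 𝒮.cover (φ x)
  have hx := mem_domR hi hj
  have hy : 𝒮.ch i x ∈ (𝒮.ch i).target := (𝒮.ch i).map_source hi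
  have h1 := (hc.lc i j).conf _ hx (𝒮.T i (𝒮.ch i x)) (𝒮.T i (𝒮.ch i x))
  have h2 := (hd.lc i j).conf _ hx (𝒮.T i (𝒮.ch i x)) (𝒮.T i (𝒮.ch i x))
  rw [h1] at h2
  rw [(𝒮.ch i).left_inv hi] at h2
  have h3 := (𝒮.lor i _ hy).neg
  have h4 := mul_right_cancel₀ h3.ne h2
  exact (sq_eq_sq₀ (hc.pos x).le (hd.pos x).le).1 h4

theorem IsCf.cont {φ : M ≃ₜ M} {c : M → ℝ} (hφ : IsCf 𝒮 φ c) : Continuous c := by
  rw [continuous_iff_continuousAt]
  intro x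
  obtain ⟨i, hi⟩ := 𝒮.cover x
  obtain ⟨j, hj⟩ := 𝒮.cover (φ x)
  have hx := mem_domR hi hj
  have h1 : ContinuousAt (fun z => c ((𝒮.ch i).symm z)) (𝒮.ch i x) :=
    (hφ.lc i j).smooth_c.continuousOn.continuousAt ((hφ.lc i j).isOpen.mem_nhds hx)
  have h2 : ContinuousAt (𝒮.ch i) x := (𝒮.ch i).continuousAt hi
  have h3 : ContinuousAt ((fun z => c ((𝒮.ch i).symm z)) ∘ (𝒮.ch i)) x :=
    ContinuousAt.comp h1 h2
  refine h3.congr ?_
  filter_upwards [(𝒮.ch i).open_source.mem_nhds hi] with z hz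
  simp only [Function.comp_apply]
  rw [(𝒮.ch i).left_inv hz]

/-- inverse element -/
def Cf.inv (Φ : Cf 𝒮) : Cf 𝒮 := ⟨Φ.φ.symm, fun x => (Φ.c (Φ.φ.symm x))⁻¹, Φ.h.symm⟩

/-- composition: first `Φ`, then `Ψ` -/
def Cf.andThen (Φ Ψ : Cf 𝒮) : Cf 𝒮 := ⟨Φ.φ.trans Ψ.φ, fun x => Ψ.c (Φ.φ x) * Φ.c x, Φ.h.comp Ψ.h⟩

/-- identity -/
def Cf.one (𝒮 : LSys E M ι) : Cf 𝒮 := ⟨Homeomorph.refl M, fun _ => 1, isCf_id 𝒮⟩

end Pool.Agent.EG

end

end M_SC3

section M_SC6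

/-!
Row ec-SC6 (elementary properties of ≪; paper A0 first half).
`tl_of_curve`: affine reparametrisation of [a,b] to [0,1].  `tl_trans`: concat on [0,1] ∪ [1,2], then affine.
`tl_map`, `tl_map_iff` (use `IsCf.symm` for the converse), `tl_rev`: time reversal (rev.rev has the same data; prove both directions with
`IsCurve.rev`; for the converse apply it to `𝒮.rev`, `LSys.rev (LSys.rev 𝒮) = 𝒮` by `neg_neg`, or prove the statement for P directly).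
-/

open scoped ContDiff Topology
open Set Filter

noncomputable section

set_option linter.unusedSectionVars false
set_option maxSynthPendingDepth 3

namespace Pool.Agent.EG

variable {E : Type*} [NormedAddCommGroup E] [NormedSpace ℝ E] [FiniteDimensional ℝ E]
variable {M : Type*} [TopologicalSpace M] {ι : Type*}
variable {𝒮 : LSys E M ι}

theorem tl_of_curve {σ : ℝ → M} {a b : ℝ} (hab : a < b) (h : IsCurve 𝒮 FT σ a b) :
    tl 𝒮 (σ a) (σ b) := by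
  refine ⟨fun r => σ ((b - a) * r + a), ?_, ?_, ?_⟩
  · refine IsCurve.affine (Or.inl rfl) (sub_pos.mpr hab) ?_
    have e0 : (b - a) * 0 + a = a := by ring
    have e1 : (b - a) * 1 + a = b := by ring
    rw [e0, e1]
    exact h
  · show σ ((b - a) * 0 + a) = σ a
    congr 1; ring
  · show σ ((b - a) * 1 + a) = σ b
    congr 1; ring

theorem tl_trans {x y z : M} (h : tl 𝒮 x y) (h' : tl 𝒮 y z) : tl 𝒮 x z := by
  obtain ⟨σ, hσ, h0, h1⟩ := h
  obtain ⟨τ, hτ, k0, k1⟩ := h'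
  have e1 : IsCurve 𝒮 FT (fun r => τ (1 * r + (-1))) 1 2 := by
    refine IsCurve.affine (Or.inl rfl) one_pos ?_
    have e0 : (1 : ℝ) * 1 + (-1) = 0 := by norm_num
    have e1 : (1 : ℝ) * 2 + (-1) = 1 := by norm_num
    rw [e0, e1]
    exact hτ
  have e2 := IsCurve.concat hσ e1 zero_le_one one_le_two (by
    show σ 1 = τ (1 * 1 + (-1))
    rw [h1, ← k0]
    congr 1; norm_num)
  have e3 := tl_of_curve (by norm_num) e2
  have e4 : (if (0 : ℝ) ≤ 1 then σ 0 else τ (1 * 0 + (-1))) = x := by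
    rw [if_pos zero_le_one, h0]
  have e5 : (if (2 : ℝ) ≤ 1 then σ 2 else τ (1 * 2 + (-1))) = z := by
    rw [if_neg (by norm_num), ← k1]
    congr 1; norm_num
  simp only [e4, e5] at e3
  exact e3

theorem sc6_rev_rev (𝒮 : LSys E M ι) : 𝒮.rev.rev = 𝒮 := by
  cases 𝒮
  simp [LSys.rev]

theorem sc6_rev {x y : M} (h : tl 𝒮 y x) : tl 𝒮.rev x y := by
  obtain ⟨σ, hσ, h0, h1⟩ := h
  have e1 := IsCurve.rev (Or.inl rfl) hσ
  have e2 := tl_of_curve (by norm_num) e1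
  simp only [neg_neg, h0, h1] at e2
  exact e2

theorem tl_rev {x y : M} : tl 𝒮.rev x y ↔ tl 𝒮 y x := by
  refine ⟨fun h => ?_, sc6_rev⟩
  have := sc6_rev h
  rwa [sc6_rev_rev] at this

theorem le_rev {x y : M} : le 𝒮.rev x y ↔ le 𝒮 y x := by
  constructor
  · rintro ⟨h1, h2⟩
    exact ⟨fun u hu => tl_rev.1 (h2 u (tl_rev.2 hu)), fun v hv => tl_rev.1 (h1 v (tl_rev.2 hv))⟩
  · rintro ⟨h1, h2⟩
    exact ⟨fun u hu => tl_rev.2 (h2 u (tl_rev.1 hu)), fun v hv => tl_rev.2 (h1 v (tl_rev.1 hv))⟩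

theorem sc6_map {φ : M ≃ₜ M} {c : M → ℝ} (hφ : IsCf 𝒮 φ c) {x y : M} (h : tl 𝒮 x y) :
    tl 𝒮 (φ x) (φ y) := by
  obtain ⟨σ, hσ, h0, h1⟩ := h
  exact ⟨fun r => φ (σ r), IsCurve.map (Or.inl rfl) hσ hφ, congrArg φ h0, congrArg φ h1⟩

theorem tl_map {φ : M ≃ₜ M} {c : M → ℝ} (hφ : IsCf 𝒮 φ c) {x y : M} :
    tl 𝒮 (φ x) (φ y) ↔ tl 𝒮 x y := by
  refine ⟨fun h => ?_, sc6_map hφ⟩
  have := sc6_map hφ.symm h
  simpa using this

theorem le_refl' (x : M) : le 𝒮 x x := ⟨fun _ h => h, fun _ h => h⟩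

theorem le_trans' {x y z : M} (h : le 𝒮 x y) (h' : le 𝒮 y z) : le 𝒮 x z :=
  ⟨fun u hu => h'.1 u (h.1 u hu), fun v hv => h.2 v (h'.2 v hv)⟩

theorem le_of_tl {x y : M} (h : tl 𝒮 x y) : le 𝒮 x y :=
  ⟨fun _ hu => tl_trans hu h, fun _ hv => tl_trans h hv⟩

theorem Noh.rev (h : Noh 𝒮) : Noh 𝒮.rev := by
  refine ⟨fun x hx => h.chr x (tl_rev.1 hx), fun z hz h1 h2 q => ?_⟩
  have h3 := h.noh (fun i => z (-i)) (fun i => ?_) ?_ ?_ q
  · obtain ⟨⟨i, hi⟩, j, hj⟩ := h3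
    exact ⟨⟨-j, tl_rev.2 hj⟩, -i, tl_rev.2 hi⟩
  · have := tl_rev.1 (hz (-(i + 1)))
    have e : -(i + 1) + 1 = -i := by ring
    rw [e] at this
    exact this
  · rintro ⟨p, hp⟩
    refine h2 ⟨p, ?_⟩
    have := hp.comp (tendsto_neg_atBot_atTop (G := ℤ))
    simpa [Function.comp_def] using this
  · rintro ⟨p, hp⟩
    refine h1 ⟨p, ?_⟩
    have := hp.comp (tendsto_neg_atTop_atBot (G := ℤ))
    simpa [Function.comp_def] using this

end Pool.Agent.EG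

end

end M_SC6

section M_SC7

/-!
Row ec-SC7 (straight segments; ≪ is open; paper A0 second half).
`straight`: v FT at p0 ∈ target i.  The set {(p,w) : p ∈ target, w FT at p} is open (g, T continuous: FT is two strict inequalities), so it contains
ball p0 ρ × ball v ρ; N = ball p0 (ρ/2), δ ≤ ρ with δ(‖v‖+δ) < ρ/2; for p ∈ N, ‖w-v‖<δ, 0<h<δ the segment p + s h w (s ∈ [0,1]) stays in ball p0 ρ and
has derivative h w, FT: `IsCurve.of_chart`, `tl_of_curve`.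
`tl_open`: σ from x to y.  Right derivative v at 0 in chart i: (ch_i σ(h) - p0)/h → v as h → 0+; choose h < 1/2 so that it is within δ/2 of v; then for x'
near x also (ch_i σ(h) - ch_i x')/h is within δ of v: x' ≪ σ(h).  Dually σ(1-h') ≪ y' for y' near y (use `𝒮.rev`, `tl_rev`).  h < 1-h', join.
`exists_past`, `exists_future`: p - h T, p + h T for small h > 0 (straight with v = T).
-/

open scoped ContDiff Topology
open Set Filter

noncomputable section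

set_option linter.unusedSectionVars false
set_option maxSynthPendingDepth 3

namespace Pool.Agent.EG

variable {E : Type*} [NormedAddCommGroup E] [NormedSpace ℝ E] [FiniteDimensional ℝ E]
variable {M : Type*} [TopologicalSpace M] {ι : Type*}
variable {𝒮 : LSys E M ι}

theorem straight {i : ι} {p0 v : E} (hp : p0 ∈ (𝒮.ch i).target)
    (hv : FT (𝒮.g i p0) (𝒮.T i p0) v) :
    ∃ δ > 0, ∀ p ∈ Metric.ball p0 δ, ∀ w ∈ Metric.ball v δ, ∀ h ∈ Ioo (0 : ℝ) δ,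
      tl 𝒮 ((𝒮.ch i).symm p) ((𝒮.ch i).symm (p + h • w)) := by
  have hopen : (𝒮.ch i).target ∈ 𝓝 p0 := (𝒮.ch i).open_target.mem_nhds hp
  have hg : ContinuousAt (fun q : E × E => 𝒮.g i q.1) (p0, v) :=
    ContinuousAt.comp (f := fun q : E × E => q.1) ((𝒮.met i).smooth.continuousOn.continuousAt hopen)
      continuousAt_fst
  have hT : ContinuousAt (fun q : E × E => 𝒮.T i q.1) (p0, v) :=
    ContinuousAt.comp (f := fun q : E × E => q.1) ((𝒮.contT i).continuousAt hopen) continuousAt_fst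
  have hs : ContinuousAt (fun q : E × E => q.2) (p0, v) := continuousAt_snd
  have h1 : ∀ᶠ q : E × E in 𝓝 (p0, v), 𝒮.g i q.1 q.2 q.2 < 0 :=
    ((hg.clm_apply hs).clm_apply hs).eventually (gt_mem_nhds hv.1)
  have h2 : ∀ᶠ q : E × E in 𝓝 (p0, v), 𝒮.g i q.1 (𝒮.T i q.1) q.2 < 0 :=
    ((hg.clm_apply hT).clm_apply hs).eventually (gt_mem_nhds hv.2)
  have h3 : ∀ᶠ q : E × E in 𝓝 (p0, v), q.1 ∈ (𝒮.ch i).target :=
    (continuous_fst.tendsto (p0, v)).eventually hopen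
  obtain ⟨ρ, hρ, hρ'⟩ := Metric.eventually_nhds_iff.1 (h1.and (h2.and h3))
  have key : ∀ p w : E, dist p p0 < ρ → dist w v < ρ →
      p ∈ (𝒮.ch i).target ∧ FT (𝒮.g i p) (𝒮.T i p) w := by
    intro p w hpp hww
    have h4 := hρ' (y := (p, w)) (by rw [Prod.dist_eq]; exact max_lt hpp hww)
    exact ⟨h4.2.2, h4.1, h4.2.1⟩
  have hv0 := norm_nonneg v
  refine ⟨min (ρ / 2) (ρ / (2 * (‖v‖ + ρ + 1))), lt_min (by positivity) (by positivity), ?_⟩
  intro p hp' w hw h hh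
  set δ := min (ρ / 2) (ρ / (2 * (‖v‖ + ρ + 1))) with hδ
  have hδ0 : 0 < δ := lt_min (by positivity) (by positivity)
  have hδ1 : δ ≤ ρ / 2 := min_le_left _ _
  have hδ2 : δ * (‖v‖ + ρ + 1) ≤ ρ / 2 := by
    have : δ ≤ ρ / (2 * (‖v‖ + ρ + 1)) := min_le_right _ _
    rw [le_div_iff₀ (by positivity)] at this
    linarith
  have hwn : ‖w‖ ≤ ‖v‖ + ρ := by
    have h5 : ‖w - v‖ < δ := by rw [← dist_eq_norm]; exact hw
    have h6 := norm_add_le v (w - v)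
    rw [add_sub_cancel] at h6
    linarith
  have hseg : ∀ s ∈ Icc (0 : ℝ) 1, dist (p + s • (h • w)) p0 < ρ := by
    intro s hs'
    have h5 : dist (p + s • (h • w)) p0 ≤ ‖s • (h • w)‖ + dist p p0 := by
      rw [dist_eq_norm, dist_eq_norm]
      have : p + s • (h • w) - p0 = s • (h • w) + (p - p0) := by abel
      rw [this]
      exact norm_add_le _ _
    have h6 : ‖s • (h • w)‖ ≤ δ * (‖v‖ + ρ) := by
      rw [norm_smul, norm_smul, Real.norm_of_nonneg hs'.1, Real.norm_of_nonneg hh.1.le]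
      calc s * (h * ‖w‖) ≤ 1 * (h * ‖w‖) :=
            mul_le_mul_of_nonneg_right hs'.2 (mul_nonneg hh.1.le (norm_nonneg _))
        _ = h * ‖w‖ := one_mul _
        _ ≤ δ * (‖v‖ + ρ) := mul_le_mul hh.2.le hwn (norm_nonneg _) hδ0.le
    have h7 : dist p p0 < δ := hp'
    have h8 : δ * (‖v‖ + ρ + 1) = δ * (‖v‖ + ρ) + δ := by ring
    linarith
  have hwρ : dist w v < ρ := lt_of_lt_of_le hw (by linarith)
  have hd : ∀ t : ℝ, HasDerivAt (fun s : ℝ => p + s • (h • w)) (h • w) t := by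
    intro t
    have h5 := ((hasDerivAt_id t).smul_const (h • w)).const_add p
    rw [one_smul] at h5
    exact h5
  have hFT : ∀ t ∈ Icc (0 : ℝ) 1, FT (𝒮.g i (p + t • (h • w))) (𝒮.T i (p + t • (h • w))) (h • w) := by
    intro t ht
    obtain ⟨-, h5, h6⟩ := key _ w (hseg t ht) hwρ
    constructor
    · have e5 : 𝒮.g i (p + t • h • w) (h • w) (h • w) = h * (h * 𝒮.g i (p + t • h • w) w w) := by
        rw [map_smul, (𝒮.g i (p + t • h • w)).map_smul]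
        rfl
      rw [e5]
      exact mul_neg_of_pos_of_neg hh.1 (mul_neg_of_pos_of_neg hh.1 h5)
    · rw [map_smul, smul_eq_mul]
      exact mul_neg_of_pos_of_neg hh.1 h6
  have hcur : IsCurve 𝒮 FT (fun r => (𝒮.ch i).symm (p + r • (h • w))) 0 1 := by
    refine IsCurve.of_chart (τ := fun s : ℝ => p + s • (h • w)) ?_ ?_ ?_ ?_
    · exact fun t _ => (hd t).continuousAt.continuousWithinAt
    · exact fun t ht => (key _ w (hseg t ht) hwρ).1
    · exact fun t ht => ⟨h • w, (hd t).hasDerivWithinAt, hFT t ⟨ht.1, ht.2.le⟩⟩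
    · exact fun t ht => ⟨h • w, (hd t).hasDerivWithinAt, hFT t ⟨ht.1.le, ht.2⟩⟩
  have h9 := tl_of_curve one_pos hcur
  simp only [zero_smul, add_zero, one_smul] at h9
  exact h9

theorem sc7_start {σ : ℝ → M} (hσ : IsCurve 𝒮 FT σ 0 1) :
    ∃ h ∈ Ioo (0 : ℝ) (1 / 2), ∀ᶠ x' in 𝓝 (σ 0), tl 𝒮 x' (σ h) := by
  obtain ⟨i, hi, v, hd, hFT⟩ := hσ.right 0 ⟨le_rfl, one_pos⟩
  set e := 𝒮.ch i with he
  have hp0 : e (σ 0) ∈ e.target := e.map_source hi
  obtain ⟨δ, hδ, hst⟩ := straight (𝒮 := 𝒮) (i := i) hp0 hFT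
  have hslope : Tendsto (slope (fun r => e (σ r)) 0) (𝓝[>] 0) (𝓝 v) := by
    have h1 := hasDerivWithinAt_Ioi_iff_Ici.2 hd
    exact (hasDerivWithinAt_iff_tendsto_slope' (notMem_Ioi.2 le_rfl)).1 h1
  have ev1 : ∀ᶠ h in 𝓝[>] (0 : ℝ), dist (slope (fun r => e (σ r)) 0 h) v < δ / 2 :=
    hslope.eventually (Metric.ball_mem_nhds v (half_pos hδ))
  have hc0 : Tendsto σ (𝓝[>] 0) (𝓝 (σ 0)) := by
    have h1 : ContinuousWithinAt σ (Icc 0 1) 0 := hσ.cont 0 ⟨le_rfl, zero_le_one⟩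
    have h2 : Tendsto σ (𝓝[Ioo 0 1] 0) (𝓝 (σ 0)) := h1.mono_left (nhdsWithin_mono _ Ioo_subset_Icc_self)
    rwa [nhdsWithin_Ioo_eq_nhdsGT one_pos] at h2
  have ev2 : ∀ᶠ h in 𝓝[>] (0 : ℝ), σ h ∈ e.source := hc0.eventually (e.open_source.mem_nhds hi)
  have ev3 : ∀ᶠ h in 𝓝[>] (0 : ℝ), h ∈ Ioo (0 : ℝ) (min (1 / 2) δ) :=
    Ioo_mem_nhdsGT (lt_min (by norm_num) hδ)
  obtain ⟨h, ⟨hh1, hh2⟩, hh3⟩ := ((ev1.and ev2).and ev3).exists
  refine ⟨h, ⟨hh3.1, hh3.2.trans_le (min_le_left _ _)⟩, ?_⟩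
  have hec : ContinuousAt e (σ 0) := e.continuousAt hi
  have hw : Tendsto (fun x' => h⁻¹ • (e (σ h) - e x')) (𝓝 (σ 0)) (𝓝 (h⁻¹ • (e (σ h) - e (σ 0)))) :=
    (tendsto_const_nhds.sub hec).const_smul _
  have hmem : h⁻¹ • (e (σ h) - e (σ 0)) ∈ Metric.ball v δ := by
    rw [slope_def_module, sub_zero] at hh1
    exact lt_trans hh1 (half_lt_self hδ)
  filter_upwards [e.open_source.mem_nhds hi, hec.eventually (Metric.ball_mem_nhds _ hδ),
    hw.eventually (Metric.isOpen_ball.mem_nhds hmem)] with x' hx1 hx2 hx3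
  have h4 := hst (e x') hx2 _ hx3 h ⟨hh3.1, hh3.2.trans_le (min_le_right _ _)⟩
  rw [smul_inv_smul₀ hh3.1.ne', add_sub_cancel, e.left_inv hx1, e.left_inv hh2] at h4
  exact h4

theorem tl_open : IsOpen {p : M × M | tl 𝒮 p.1 p.2} := by
  rw [isOpen_iff_mem_nhds]
  rintro ⟨x, y⟩ ⟨σ, hσ, hx, hy⟩
  replace hx : σ 0 = x := hx
  replace hy : σ 1 = y := hy
  obtain ⟨h, hh, ev⟩ := sc7_start hσ
  have h1 : IsCurve 𝒮.rev FT (fun r => σ (-r)) (-1) (-0) := hσ.rev (Or.inl rfl)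
  have h2 : IsCurve 𝒮.rev FT (fun r => (fun r => σ (-r)) (1 * r + -1)) 0 1 := by
    refine IsCurve.affine (σ := fun r => σ (-r)) (Or.inl rfl) one_pos ?_
    have e1 : (1 : ℝ) * 0 + -1 = -1 := by norm_num
    have e2 : (1 : ℝ) * 1 + -1 = -0 := by norm_num
    rw [e1, e2]
    exact h1
  obtain ⟨h', hh', ev'⟩ := sc7_start h2
  have e3 : σ (-(1 * 0 + -1)) = y := by
    rw [← hy]
    congr 1
    norm_num
  have e4 : σ (-(1 * h' + -1)) = σ (1 - h') := by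
    congr 1
    ring
  simp only [e3, e4] at ev'
  rw [hx] at ev
  have hmid : tl 𝒮 (σ h) (σ (1 - h')) := by
    refine tl_of_curve ?_ (hσ.sub hh.1.le (by linarith [hh'.1]))
    linarith [hh.2, hh'.2]
  have h5 : ∀ᶠ p : M × M in 𝓝 (x, y), tl 𝒮 p.1 (σ h) ∧ tl 𝒮.rev p.2 (σ (1 - h')) := by
    rw [nhds_prod_eq]
    exact ev.prod_mk ev'
  filter_upwards [h5] with p hp
  exact tl_trans hp.1 (tl_trans hmid (tl_rev.1 hp.2))

theorem sc7_T {i : ι} {p0 : E} (hp : p0 ∈ (𝒮.ch i).target) : FT (𝒮.g i p0) (𝒮.T i p0) (𝒮.T i p0) :=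
  ⟨(𝒮.lor i p0 hp).neg, (𝒮.lor i p0 hp).neg⟩

theorem exists_past {x : M} {N : Set M} (hN : N ∈ 𝓝 x) : ∃ u ∈ N, tl 𝒮 u x := by
  obtain ⟨i, hi⟩ := 𝒮.cover x
  have hp : (𝒮.ch i) x ∈ (𝒮.ch i).target := (𝒮.ch i).map_source hi
  obtain ⟨δ, hδ, hst⟩ := straight (𝒮 := 𝒮) (i := i) hp (sc7_T hp)
  set p0 := (𝒮.ch i) x with hp0
  set v := 𝒮.T i p0 with hv
  have hc : Continuous (fun h : ℝ => p0 - h • v) := by fun_prop
  have ht : Tendsto (fun h : ℝ => p0 - h • v) (𝓝[>] 0) (𝓝 p0) := by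
    have h1 := (hc.tendsto 0).mono_left (nhdsWithin_le_nhds (s := Ioi 0))
    rwa [zero_smul, sub_zero] at h1
  have hN' : (𝒮.ch i).symm ⁻¹' N ∈ 𝓝 p0 := by
    have h1 := (𝒮.ch i).continuousAt_symm hp
    rw [ContinuousAt, (𝒮.ch i).left_inv hi] at h1
    exact h1 hN
  obtain ⟨h, ⟨h1, h2⟩, h3⟩ := (((ht.eventually hN').and (ht.eventually (Metric.ball_mem_nhds _ hδ))).and
    (Ioo_mem_nhdsGT hδ)).exists
  refine ⟨(𝒮.ch i).symm (p0 - h • v), h1, ?_⟩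
  have h4 := hst _ h2 v (Metric.mem_ball_self hδ) h h3
  rw [sub_add_cancel, hp0, (𝒮.ch i).left_inv hi] at h4
  exact h4

theorem exists_future {x : M} {N : Set M} (hN : N ∈ 𝓝 x) : ∃ v ∈ N, tl 𝒮 x v := by
  obtain ⟨u, hu, hu'⟩ := exists_past (𝒮 := 𝒮.rev) hN
  exact ⟨u, hu, tl_rev.1 hu'⟩

end Pool.Agent.EG

end

end M_SC7

section M_BX1

/-!
Row ec-BX1 (boxes).  `Box`: chart i, centre y0, radius r, functional l, constant lam.
`exists_box'`: l = - g_{y0}(T(y0),·), T0 = T(y0).  The set {(y,v) : y ∈ closedBall y0 ρ, ‖v‖=1, g(v,v) ≤ 0, g(T,v) ≤ 0} is compact; at y = y0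
every such v has g_{y0}(T0,v) < 0 (FC or: g(T,v)=0 would give g(v,v)>0), so l v ≥ 2κ > 0 there; by compactness/continuity there is ρ with l v ≥ κ for
all y ∈ closedBall y0 ρ (e.g. sequences or `IsCompact` tube argument): lam = 1/κ by homogeneity.  T0 is FT at y near y0 (open condition).
`Box.isCompact_K`: K ρ is the image of a closed ball under the continuous (on the target) map (ch i).symm.
`cover`: Lindelöf (second countable): countably many boxes B n with ∪ V = M.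
-/

open scoped ContDiff Topology
open Set Filter

noncomputable section

set_option linter.unusedSectionVars false
set_option maxSynthPendingDepth 3

namespace Pool.Agent.EG

variable {E : Type*} [NormedAddCommGroup E] [NormedSpace ℝ E] [FiniteDimensional ℝ E]
variable {M : Type*} [TopologicalSpace M] {ι : Type*}
variable {𝒮 : LSys E M ι}

/-- Boxes: a chart and a ball on which the cones are controlled. -/
structure Box (𝒮 : LSys E M ι) where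
  i : ι
  y0 : E
  r : ℝ
  l : E →L[ℝ] ℝ
  lam : ℝ
  hr : 0 < r
  hlam : 0 < lam
  ball : Metric.closedBall y0 (4 * r) ⊆ (𝒮.ch i).target
  b1 : ∀ y ∈ Metric.closedBall y0 (3 * r), ∀ v, FC (𝒮.g i y) (𝒮.T i y) v → ‖v‖ ≤ lam * l v
  b3 : ∀ y ∈ Metric.closedBall y0 (3 * r), FT (𝒮.g i y) (𝒮.T i y) (𝒮.T i y0)

/-- closed box of radius `ρ` in `M` -/
def Box.K (B : Box 𝒮) (ρ : ℝ) : Set M :=
  {x | x ∈ (𝒮.ch B.i).source ∧ 𝒮.ch B.i x ∈ Metric.closedBall B.y0 ρ}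

/-- open box in `M` -/
def Box.V (B : Box 𝒮) : Set M :=
  {x | x ∈ (𝒮.ch B.i).source ∧ 𝒮.ch B.i x ∈ Metric.ball B.y0 B.r}

theorem bx1_gcont {i : ι} {y0 : E} (hy : y0 ∈ (𝒮.ch i).target) : ContinuousAt (𝒮.g i) y0 :=
  (𝒮.met i).smooth.continuousOn.continuousAt ((𝒮.ch i).open_target.mem_nhds hy)

theorem bx1_Tcont {i : ι} {y0 : E} (hy : y0 ∈ (𝒮.ch i).target) : ContinuousAt (𝒮.T i) y0 :=
  (𝒮.contT i).continuousAt ((𝒮.ch i).open_target.mem_nhds hy)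

/-- uniform control of the causal cones near `y0` -/
theorem bx1_cone {i : ι} {y0 : E} (hy : y0 ∈ (𝒮.ch i).target) :
    ∃ κ : ℝ, 0 < κ ∧ ∀ᶠ y in 𝓝 y0, ∀ v ∈ Metric.sphere (0 : E) 1,
      FC (𝒮.g i y) (𝒮.T i y) v → κ ≤ (-(𝒮.g i y0 (𝒮.T i y0))) v := by
  have hL := 𝒮.lor i y0 hy
  set l : E →L[ℝ] ℝ := -(𝒮.g i y0 (𝒮.T i y0)) with hl
  have hsph : IsCompact (Metric.sphere (0 : E) 1) := isCompact_sphere _ _
  have hqc : Continuous fun v : E => 𝒮.g i y0 v v := by fun_prop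
  have hlc : Continuous fun v : E => 𝒮.g i y0 (𝒮.T i y0) v := by fun_prop
  set C : Set E := Metric.sphere (0 : E) 1 ∩
    ({v | 𝒮.g i y0 v v ≤ 0} ∩ {v | 𝒮.g i y0 (𝒮.T i y0) v ≤ 0}) with hC
  have hCc : IsCompact C := hsph.inter_right
    ((isClosed_le hqc continuous_const).inter (isClosed_le hlc continuous_const))
  have hpos : ∀ v ∈ C, 0 < l v := by
    rintro v ⟨hv1, hv2, hv3⟩
    have h0 : v ≠ 0 := by
      intro h
      rw [h] at hv1
      simp at hv1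
    have h3 : 𝒮.g i y0 (𝒮.T i y0) v ≠ 0 := by
      intro h
      exact absurd (hL.pos v h0 h) (not_lt.2 hv2)
    have h4 : 𝒮.g i y0 (𝒮.T i y0) v < 0 := lt_of_le_of_ne hv3 h3
    have h5 : l v = -(𝒮.g i y0 (𝒮.T i y0) v) := rfl
    rw [h5]
    linarith
  obtain ⟨κ, hκ, hκC⟩ : ∃ κ : ℝ, 0 < κ ∧ ∀ v ∈ C, κ < l v := by
    rcases C.eq_empty_or_nonempty with he | hne
    · exact ⟨1, one_pos, fun v hv => by rw [he] at hv; exact absurd hv (notMem_empty v)⟩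
    · obtain ⟨v0, hv0, hmin⟩ := hCc.exists_isMinOn hne l.continuous.continuousOn
      refine ⟨l v0 / 2, half_pos (hpos v0 hv0), fun v hv => ?_⟩
      have h1 : l v0 ≤ l v := hmin hv
      have h2 := hpos v0 hv0
      linarith
  refine ⟨κ, hκ, ?_⟩
  apply hsph.eventually_forall_of_forall_eventually
  intro v hv
  have hgc : ContinuousAt (fun z : E × E => 𝒮.g i z.1) (y0, v) :=
    ContinuousAt.comp (g := 𝒮.g i) (f := Prod.fst) (bx1_gcont hy) continuousAt_fst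
  have hTc : ContinuousAt (fun z : E × E => 𝒮.T i z.1) (y0, v) :=
    ContinuousAt.comp (g := 𝒮.T i) (f := Prod.fst) (bx1_Tcont hy) continuousAt_fst
  by_cases hvC : v ∈ C
  · have h1 : ContinuousAt (fun z : E × E => l z.2) (y0, v) :=
      (l.continuous.comp continuous_snd).continuousAt
    filter_upwards [h1.eventually (lt_mem_nhds (hκC v hvC))] with z hz _
    exact le_of_lt hz
  · have h2 : 0 < 𝒮.g i y0 v v ∨ 0 < 𝒮.g i y0 (𝒮.T i y0) v := by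
      by_contra hcon
      push Not at hcon
      exact hvC ⟨hv, hcon.1, hcon.2⟩
    rcases h2 with h2 | h2
    · have h3 : ContinuousAt (fun z : E × E => 𝒮.g i z.1 z.2 z.2) (y0, v) :=
        (hgc.clm_apply continuousAt_snd).clm_apply continuousAt_snd
      filter_upwards [h3.eventually (lt_mem_nhds h2)] with z hz hF
      exact absurd hF.1 (not_le.2 hz)
    · have h3 : ContinuousAt (fun z : E × E => 𝒮.g i z.1 (𝒮.T i z.1) z.2) (y0, v) :=
        (hgc.clm_apply hTc).clm_apply continuousAt_snd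
      filter_upwards [h3.eventually (lt_mem_nhds h2)] with z hz hF
      exact absurd hF.2 (not_lt.2 hz.le)

theorem bx1_T {i : ι} {y0 : E} (hy : y0 ∈ (𝒮.ch i).target) :
    ∀ᶠ y in 𝓝 y0, FT (𝒮.g i y) (𝒮.T i y) (𝒮.T i y0) := by
  have hL := 𝒮.lor i y0 hy
  have h1 : ContinuousAt (fun y : E => 𝒮.g i y (𝒮.T i y0) (𝒮.T i y0)) y0 :=
    ((bx1_gcont hy).clm_apply continuousAt_const).clm_apply continuousAt_const
  have h2 : ContinuousAt (fun y : E => 𝒮.g i y (𝒮.T i y) (𝒮.T i y0)) y0 :=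
    ((bx1_gcont hy).clm_apply (bx1_Tcont hy)).clm_apply continuousAt_const
  filter_upwards [h1.eventually (gt_mem_nhds hL.neg), h2.eventually (gt_mem_nhds hL.neg)]
    with y hy1 hy2
  exact ⟨hy1, hy2⟩

theorem exists_box' {i : ι} {x : M} (hx : x ∈ (𝒮.ch i).source) {ε : ℝ} (hε : 0 < ε) :
    ∃ B : Box 𝒮, B.i = i ∧ B.y0 = 𝒮.ch i x ∧ B.r < ε := by
  set y0 : E := 𝒮.ch i x with hy0
  have hy : y0 ∈ (𝒮.ch i).target := (𝒮.ch i).map_source hx
  obtain ⟨κ, hκ, hcone⟩ := bx1_cone hy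
  have htar : ∀ᶠ y in 𝓝 y0, y ∈ (𝒮.ch i).target := (𝒮.ch i).open_target.mem_nhds hy
  obtain ⟨R, hR, hball⟩ := Metric.eventually_nhds_iff_ball.1 ((htar.and hcone).and (bx1_T hy))
  have hr0 : 0 < min (R / 5) (ε / 2) := lt_min (by linarith) (by linarith)
  have hr1 : min (R / 5) (ε / 2) ≤ R / 5 := min_le_left _ _
  have hr2 : min (R / 5) (ε / 2) ≤ ε / 2 := min_le_right _ _
  have hsub : ∀ a : ℝ, a ≤ 4 * min (R / 5) (ε / 2) → Metric.closedBall y0 a ⊆ Metric.ball y0 R :=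
    fun a ha => Metric.closedBall_subset_ball (by linarith)
  refine ⟨{ i := i
            y0 := y0
            r := min (R / 5) (ε / 2)
            l := -(𝒮.g i y0 (𝒮.T i y0))
            lam := κ⁻¹
            hr := hr0
            hlam := inv_pos.2 hκ
            ball := fun y hyb => (hball y (hsub _ le_rfl hyb)).1.1
            b1 := ?_
            b3 := fun y hyb => (hball y (hsub _ (by linarith) hyb)).2 }, rfl, rfl, by
              show min (R / 5) (ε / 2) < ε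
              linarith⟩
  intro y hyb v hv
  have hc := (hball y (hsub _ (by linarith) hyb)).1.2
  have hv0 : v ≠ 0 := by
    intro h
    have := hv.2
    rw [h, map_zero] at this
    exact lt_irrefl _ this
  have hn : 0 < ‖v‖ := norm_pos_iff.2 hv0
  have hmem : (‖v‖⁻¹ • v) ∈ Metric.sphere (0 : E) 1 := by
    rw [mem_sphere_zero_iff_norm, norm_smul, norm_inv, norm_norm, inv_mul_cancel₀ hn.ne']
  have hFC : FC (𝒮.g i y) (𝒮.T i y) (‖v‖⁻¹ • v) := by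
    constructor
    · rw [map_smul, map_smul, smul_apply, smul_eq_mul, smul_eq_mul]
      have h1 : 0 ≤ ‖v‖⁻¹ := (inv_pos.2 hn).le
      exact mul_nonpos_of_nonneg_of_nonpos h1 (mul_nonpos_of_nonneg_of_nonpos h1 hv.1)
    · rw [map_smul, smul_eq_mul]
      exact mul_neg_of_pos_of_neg (inv_pos.2 hn) hv.2
  have h1 := hc _ hmem hFC
  rw [map_smul, smul_eq_mul, ← div_eq_inv_mul, le_div_iff₀ hn] at h1
  show ‖v‖ ≤ κ⁻¹ * (-(𝒮.g i y0 (𝒮.T i y0))) v
  rw [← div_eq_inv_mul, le_div_iff₀ hκ]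
  linarith

theorem exists_box (𝒮 : LSys E M ι) (x : M) : ∃ B : Box 𝒮, x ∈ B.V := by
  obtain ⟨i, hi⟩ := 𝒮.cover x
  obtain ⟨B, hBi, hB0, -⟩ := exists_box' hi one_pos
  subst hBi
  refine ⟨B, hi, ?_⟩
  rw [hB0]
  exact Metric.mem_ball_self B.hr

theorem Box.isOpen_V (B : Box 𝒮) : IsOpen B.V :=
  (𝒮.ch B.i).isOpen_inter_preimage Metric.isOpen_ball

theorem Box.isCompact_K (B : Box 𝒮) {ρ : ℝ} (hρ : ρ ≤ 4 * B.r) : IsCompact (B.K ρ) := by
  have hsub : Metric.closedBall B.y0 ρ ⊆ (𝒮.ch B.i).target :=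
    (Metric.closedBall_subset_closedBall hρ).trans B.ball
  have h : B.K ρ = (𝒮.ch B.i).symm '' Metric.closedBall B.y0 ρ := by
    ext x
    constructor
    · rintro ⟨h1, h2⟩
      exact ⟨𝒮.ch B.i x, h2, (𝒮.ch B.i).left_inv h1⟩
    · rintro ⟨y, hy, rfl⟩
      refine ⟨(𝒮.ch B.i).map_target (hsub hy), ?_⟩
      rw [(𝒮.ch B.i).right_inv (hsub hy)]
      exact hy
  rw [h]
  exact (isCompact_closedBall _ _).image_of_continuousOn
    ((𝒮.ch B.i).continuousOn_symm.mono hsub)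

theorem Box.V_sub_K (B : Box 𝒮) {ρ : ℝ} (hρ : B.r ≤ ρ) : B.V ⊆ B.K ρ := by
  rintro x ⟨h1, h2⟩
  exact ⟨h1, Metric.ball_subset_closedBall.trans (Metric.closedBall_subset_closedBall hρ) h2⟩

theorem exists_box_cover [SecondCountableTopology M] [Nonempty M] (𝒮 : LSys E M ι) :
    ∃ B : ℕ → Box 𝒮, ∀ x, ∃ n, x ∈ (B n).V := by
  choose B hB using exists_box 𝒮
  obtain ⟨s, hs, hU⟩ := TopologicalSpace.countable_cover_nhds
    (f := fun x => (B x).V) fun x => (B x).isOpen_V.mem_nhds (hB x)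
  have hne : s.Nonempty := by
    obtain ⟨x⟩ := ‹Nonempty M›
    have hx : x ∈ ⋃ y ∈ s, (B y).V := by rw [hU]; exact mem_univ x
    obtain ⟨y, hy, -⟩ := mem_iUnion₂.1 hx
    exact ⟨y, hy⟩
  obtain ⟨f, hf⟩ := hs.exists_eq_range hne
  refine ⟨fun n => B (f n), fun x => ?_⟩
  have hx : x ∈ ⋃ y ∈ s, (B y).V := by rw [hU]; exact mem_univ x
  obtain ⟨y, hy, hxy⟩ := mem_iUnion₂.1 hx
  rw [hf] at hy
  obtain ⟨n, rfl⟩ := hy
  exact ⟨n, hxy⟩

/-- a family in a closed box converges along an ultrafilter -/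
theorem Box.lim {κ : Type*} (U : Ultrafilter κ) (B : Box 𝒮) {ρ : ℝ} (hρ : ρ ≤ 4 * B.r) {x : κ → M}
    (hx : ∀ᶠ k in U, x k ∈ B.K ρ) : ∃ p ∈ B.K ρ, Tendsto x U (𝓝 p) := by
  obtain ⟨p, hp, hle⟩ := (B.isCompact_K hρ).ultrafilter_le_nhds' (U.map x) hx
  exact ⟨p, hp, hle⟩

end Pool.Agent.EG

end

end M_BX1

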