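import Pool.Agent.Lib.MP_eeed5f_gt.AB
import Pool.Agent.Lib.MP_eeed5f_gt.AA
import Pool.Agent.Lib.MP_eeed5f_gt.S1

section M_AA8

/-!
Row ec-AA8 (decomposition of causal curves or escape; paper A4, A7, A9).
B : ℕ → Box cover (exists_box_cover; M nonempty since p exists).  Assume the second alternative fails and Q a b fails.  Build by recursion (s^m, p^m), m = 0,1,..:
s^0 = a, p^0 = p; J least index with p^m ∈ (B J).V; `step` on [s^m,b] gives s^{m+1}, p^{m+1}.  hbox gives Q s^m s^{m+1}, and htrans gives Q a s^{m+1}.  If s^{m+1} = b then Q a b: excluded,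
so ‖ch p^{m+1} - ch p^m‖ = r_J.  le p^m p^{m+1} by le_of_limit (curve restricted: IsCurve.sub).  chain_nonconv, F1: for every q some m with q ≪ p^m, hence q ≪ σ_k(s^m_k) for U-many k
(tl_open), le (σ_k(s^m_k)) (σ_k(b_k)) by le_of_curve, so q ≪ σ_k(b_k): the second alternative.  (Formally: a dependent choice of a sequence of states, e.g. states = subtype of
(κ → ℝ) × M with: ∀ᶠ k, a ≤ s ≤ b, σ(s) → p, and (s = a ∨ Q a s).)
`SDI'`: if moreover σ_k(b_k) → q0 the second alternative is impossible: choose q with q0 ≪ q; σ_k(b_k) ≪ q ≪ σ_k(b_k) for some k: Chr.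
-/

open scoped ContDiff Topology
open Set Filter

noncomputable section

set_option linter.unusedSectionVars false
set_option maxSynthPendingDepth 3

namespace Pool.Agent.EG

variable {E : Type*} [NormedAddCommGroup E] [NormedSpace ℝ E] [FiniteDimensional ℝ E]
variable {M : Type*} [TopologicalSpace M] {ι : Type*}
variable {𝒮 : LSys E M ι}

variable {κ : Type*}

theorem SD_or [T2Space M] [SecondCountableTopology M] (hN : Noh 𝒮) (U : Ultrafilter κ)
    {σ : κ → ℝ → M} {a b : κ → ℝ} (hab : ∀ᶠ k in U, a k ≤ b k)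
    (hσ : ∀ᶠ k in U, IsCurve 𝒮 FC (σ k) (a k) (b k)) {p : M}
    (hp : Tendsto (fun k => σ k (a k)) U (𝓝 p))
    (Q : (κ → ℝ) → (κ → ℝ) → Prop) (htrans : ∀ r s t, Q r s → Q s t → Q r t)
    (hbox : ∀ s t : κ → ℝ, (∀ᶠ k in U, a k ≤ s k ∧ s k ≤ t k ∧ t k ≤ b k) →
      (∃ p', Tendsto (fun k => σ k (s k)) U (𝓝 p')) → (∃ q', Tendsto (fun k => σ k (t k)) U (𝓝 q')) →
      (∃ B : Box 𝒮, ∀ᶠ k in U, ∀ r ∈ Icc (s k) (t k), σ k r ∈ B.K (2 * B.r)) → Q s t) :
    Q a b ∨ ∀ q, ∀ᶠ k in U, tl 𝒮 q (σ k (b k)) := by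
  classical
  by_cases hQ : Q a b
  · exact Or.inl hQ
  refine Or.inr fun q => ?_
  haveI : Nonempty M := ⟨p⟩
  obtain ⟨B, hB⟩ := exists_box_cover 𝒮
  let St : Type _ := {x : (κ → ℝ) × M // (∀ᶠ k in U, a k ≤ x.1 k ∧ x.1 k ≤ b k) ∧
    Tendsto (fun k => σ k (x.1 k)) U (𝓝 x.2) ∧ (x.1 = a ∨ Q a x.1)}
  have hstep : ∀ x : St, ∃ y : St, (∃ j, x.1.2 ∈ (B j).V ∧ (∀ i < j, x.1.2 ∉ (B i).V) ∧
      y.1.2 ∈ (B j).K (2 * (B j).r) ∧ ‖𝒮.ch (B j).i y.1.2 - 𝒮.ch (B j).i x.1.2‖ = (B j).r) ∧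
      le 𝒮 x.1.2 y.1.2 := by
    rintro ⟨⟨s, p'⟩, hs1, hs2, hs3⟩
    simp only at hs1 hs2 hs3
    obtain ⟨j, hj1, hj2⟩ : ∃ j, p' ∈ (B j).V ∧ ∀ i < j, p' ∉ (B i).V :=
      ⟨Nat.find (hB p'), Nat.find_spec (hB p'), fun i hi => Nat.find_min (hB p') hi⟩
    have hcur : ∀ᶠ k in U, IsCurve 𝒮 FC (σ k) (s k) (b k) := by
      filter_upwards [hs1, hσ] with k hk1 hk2
      exact hk2.sub hk1.1 le_rfl
    obtain ⟨s', h1, p'', h2, h3, h4⟩ := step (B j) U (hs1.mono fun k hk => hk.2)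
      (hcur.mono fun k hk => hk.cont) hs2 hj1
    have hQs : Q s s' := by
      refine hbox s s' ?_ ⟨p', hs2⟩ ⟨p'', h3⟩ ⟨B j, h1.mono fun k hk => hk.2.2⟩
      filter_upwards [hs1, h1] with k hk1 hk2
      exact ⟨hk1.1, hk2.1, hk2.2.1⟩
    have hQa : Q a s' := by
      rcases hs3 with hs3 | hs3
      · rw [← hs3]; exact hQs
      · exact htrans _ _ _ hs3 hQs
    have hne : s' ≠ b := fun h => hQ (h ▸ hQa)
    have h5 := h4.resolve_left hne
    refine ⟨⟨(s', p''), ?_, h3, Or.inr hQa⟩, ⟨j, hj1, hj2, h2, h5⟩, ?_⟩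
    · filter_upwards [hs1, h1] with k hk1 hk2
      exact ⟨hk1.1.trans hk2.1, hk2.2.1⟩
    · refine le_of_limit (B j) U (a := s) (b := s') (h1.mono fun k hk => hk.1) ?_
        (h1.mono fun k hk => hk.2.2) hs2 h3
      filter_upwards [hcur, h1] with k hk1 hk2
      exact hk1.sub le_rfl hk2.2.1
  choose nx hnx1 hnx2 using hstep
  let x0 : St := ⟨(a, p), by filter_upwards [hab] with k hk using ⟨le_rfl, hk⟩, hp, Or.inl rfl⟩
  let x : ℕ → St := fun m => Nat.rec x0 (fun _ y => nx y) m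
  have hx : ∀ m, x (m + 1) = nx (x m) := fun m => rfl
  have hchain : ∀ m, ∃ j, (x m).1.2 ∈ (B j).V ∧ (∀ i < j, (x m).1.2 ∉ (B i).V) ∧
      (x (m + 1)).1.2 ∈ (B j).K (2 * (B j).r) ∧
      ‖𝒮.ch (B j).i (x (m + 1)).1.2 - 𝒮.ch (B j).i (x m).1.2‖ = (B j).r := by
    intro m
    rw [hx m]
    exact hnx1 (x m)
  have hnc := chain_nonconv hB (p := fun m => (x m).1.2) hchain
  obtain ⟨m, hm⟩ := F1 hN (x := fun m => (x m).1.2) (fun m => by
    show le 𝒮 (x m).1.2 (x (m + 1)).1.2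
    rw [hx m]
    exact hnx2 (x m)) hnc q
  have hopen : ∀ᶠ y in 𝓝 (x m).1.2, tl 𝒮 q y := by
    have h1 : Continuous fun y : M => ((q, y) : M × M) := by fun_prop
    exact (tl_open.preimage h1).mem_nhds hm
  filter_upwards [(x m).2.2.1.eventually hopen, (x m).2.1, hσ] with k hk1 hk2 hk3
  exact (le_of_curve hk2.2 (hk3.sub hk2.1 le_rfl)).1 _ hk1

theorem SDI' [T2Space M] [SecondCountableTopology M] (hN : Noh 𝒮) (U : Ultrafilter κ)
    {σ : κ → ℝ → M} {a b : κ → ℝ} (hab : ∀ᶠ k in U, a k ≤ b k)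
    (hσ : ∀ᶠ k in U, IsCurve 𝒮 FC (σ k) (a k) (b k)) {p q : M}
    (hp : Tendsto (fun k => σ k (a k)) U (𝓝 p)) (hq : Tendsto (fun k => σ k (b k)) U (𝓝 q))
    (Q : (κ → ℝ) → (κ → ℝ) → Prop) (htrans : ∀ r s t, Q r s → Q s t → Q r t)
    (hbox : ∀ s t : κ → ℝ, (∀ᶠ k in U, a k ≤ s k ∧ s k ≤ t k ∧ t k ≤ b k) →
      (∃ p', Tendsto (fun k => σ k (s k)) U (𝓝 p')) → (∃ q', Tendsto (fun k => σ k (t k)) U (𝓝 q')) →
      (∃ B : Box 𝒮, ∀ᶠ k in U, ∀ r ∈ Icc (s k) (t k), σ k r ∈ B.K (2 * B.r)) → Q s t) :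
    Q a b := by
  rcases SD_or hN U hab hσ hp Q htrans hbox with h | h
  · exact h
  exfalso
  obtain ⟨q', -, hq'⟩ := exists_future (𝒮 := 𝒮) (x := q) (N := univ) univ_mem
  have hopen : ∀ᶠ y in 𝓝 q, tl 𝒮 y q' := by
    have h1 : Continuous fun y : M => ((y, q') : M × M) := by fun_prop
    exact (tl_open.preimage h1).mem_nhds hq'
  obtain ⟨k, hk1, hk2⟩ := ((hq.eventually hopen).and (h q')).exists
  exact hN.chr _ (tl_trans hk1 hk2)

end Pool.Agent.EG

end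

end M_AA8

section M_AA9

/-!
Row ec-AA9 (paper A7, A8, A10).
`Dplus`: curves from a_k to b_k (tl: on [0,1]; choose them for the k where tl holds, arbitrary otherwise), SD_or with Q s t := ∃ q', σ(t) → q' (htrans trivial).
`Dminus`: Dplus for 𝒮.rev.
`CL`: SD_or with Q s t := (∃ p', σ(s) → p') ∧ (∃ q', σ(t) → q') ∧ ∀ p' q', σ(s) → p' → σ(t) → q' → le p' q' (box case: le_of_limit; transitivity through the middle limit; limits unique, T2);
the second alternative contradicts b_k → b (as in SDI').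
`le_closed`: u ≪ x: choose u' with u ≪ u' ≪ x (exists_past near x + openness: u ≪ u' for u' near x); u' ≪ x_k ≤ y_k so u' ≪ y_k, CL with the constant family: u' ≤ y, so u ≪ y.  The other half by 𝒮.rev.
-/

open scoped ContDiff Topology
open Set Filter

noncomputable section

set_option linter.unusedSectionVars false
set_option maxSynthPendingDepth 3

namespace Pool.Agent.EG

variable {E : Type*} [NormedAddCommGroup E] [NormedSpace ℝ E] [FiniteDimensional ℝ E]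
variable {M : Type*} [TopologicalSpace M] {ι : Type*}
variable {𝒮 : LSys E M ι}

variable {κ : Type*}

theorem AA9_curves {a b : κ → M} {U : Ultrafilter κ} (hab : ∀ᶠ k in U, tl 𝒮 (a k) (b k)) :
    ∃ σ : κ → ℝ → M, (∀ᶠ k in U, IsCurve 𝒮 FC (σ k) 0 1) ∧
      (∀ᶠ k in U, IsCurve 𝒮 FT (σ k) 0 1) ∧
      (∀ᶠ k in U, σ k 0 = a k) ∧ (∀ᶠ k in U, σ k 1 = b k) := by
  classical
  have h1 : ∀ k, ∃ σ : ℝ → M, tl 𝒮 (a k) (b k) → IsCurve 𝒮 FT σ 0 1 ∧ σ 0 = a k ∧ σ 1 = b k := by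
    intro k
    by_cases h : tl 𝒮 (a k) (b k)
    · obtain ⟨σ, hσ⟩ := h
      exact ⟨σ, fun _ => hσ⟩
    · exact ⟨fun _ => a k, fun h' => absurd h' h⟩
  choose σ hσ using h1
  exact ⟨σ, hab.mono fun k h => (hσ k h).1.of_FT, hab.mono fun k h => (hσ k h).1,
    hab.mono fun k h => (hσ k h).2.1, hab.mono fun k h => (hσ k h).2.2⟩

theorem Dplus [T2Space M] [SecondCountableTopology M] (hN : Noh 𝒮) (U : Ultrafilter κ) {a b : κ → M}
    {a0 : M} (ha : Tendsto a U (𝓝 a0)) (hab : ∀ᶠ k in U, tl 𝒮 (a k) (b k)) :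
    (∃ b0, Tendsto b U (𝓝 b0)) ∨ ∀ q, ∀ᶠ k in U, tl 𝒮 q (b k) := by
  obtain ⟨σ, hσ, -, h0, h1⟩ := AA9_curves hab
  have hp : Tendsto (fun k => σ k 0) U (𝓝 a0) :=
    ha.congr' (h0.mono fun k hk => hk.symm)
  have key := SD_or hN U (σ := σ) (a := fun _ => 0) (b := fun _ => 1)
    (Eventually.of_forall fun _ => zero_le_one) hσ hp
    (fun _ t => ∃ q', Tendsto (fun k => σ k (t k)) U (𝓝 q'))
    (fun _ _ _ _ h => h) (fun _ _ _ _ h _ => h)
  rcases key with ⟨q', hq'⟩ | h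
  · exact Or.inl ⟨q', hq'.congr' h1⟩
  · refine Or.inr fun q => ?_
    filter_upwards [h q, h1] with k hk hk1
    rw [hk1] at hk
    exact hk

theorem Dminus [T2Space M] [SecondCountableTopology M] (hN : Noh 𝒮) (U : Ultrafilter κ) {a b : κ → M}
    {b0 : M} (hb : Tendsto b U (𝓝 b0)) (hab : ∀ᶠ k in U, tl 𝒮 (a k) (b k)) :
    (∃ a0, Tendsto a U (𝓝 a0)) ∨ ∀ q, ∀ᶠ k in U, tl 𝒮 (a k) q := by
  rcases Dplus (𝒮 := 𝒮.rev) hN.rev U hb (hab.mono fun k hk => tl_rev.2 hk) with h | h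
  · exact Or.inl h
  · exact Or.inr fun q => (h q).mono fun k hk => tl_rev.1 hk

theorem CL [T2Space M] [SecondCountableTopology M] (hN : Noh 𝒮) (U : Ultrafilter κ) {a b : κ → M}
    {a0 b0 : M} (ha : Tendsto a U (𝓝 a0)) (hb : Tendsto b U (𝓝 b0))
    (hab : ∀ᶠ k in U, tl 𝒮 (a k) (b k)) : le 𝒮 a0 b0 := by
  obtain ⟨σ, hσ, -, h0, h1⟩ := AA9_curves hab
  have hp : Tendsto (fun k => σ k 0) U (𝓝 a0) :=
    ha.congr' (h0.mono fun k hk => hk.symm)
  have hq : Tendsto (fun k => σ k 1) U (𝓝 b0) :=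
    hb.congr' (h1.mono fun k hk => hk.symm)
  have key := SDI' hN U (σ := σ) (a := fun _ => 0) (b := fun _ => 1)
    (Eventually.of_forall fun _ => zero_le_one) hσ hp hq
    (fun s t => (∃ p', Tendsto (fun k => σ k (s k)) U (𝓝 p')) ∧
      (∃ q', Tendsto (fun k => σ k (t k)) U (𝓝 q')) ∧
      ∀ p' q', Tendsto (fun k => σ k (s k)) U (𝓝 p') →
        Tendsto (fun k => σ k (t k)) U (𝓝 q') → le 𝒮 p' q')
    ?_ ?_
  · exact key.2.2 _ _ hp hq
  · rintro r s t ⟨hr, ⟨m, hm⟩, h2⟩ ⟨_, ht, h3⟩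
    exact ⟨hr, ht, fun p' q' hp' hq' => le_trans' (h2 _ _ hp' hm) (h3 _ _ hm hq')⟩
  · rintro s t hst hs ht ⟨B, hB⟩
    refine ⟨hs, ht, fun p' q' hp' hq' => ?_⟩
    refine le_of_limit B U (hst.mono fun k hk => hk.2.1) ?_ hB hp' hq'
    filter_upwards [hst, hσ] with k hk hk1
    exact hk1.sub hk.1 hk.2.2

theorem AA9_half [T2Space M] [SecondCountableTopology M] (hN : Noh 𝒮) (U : Ultrafilter κ)
    {x y : κ → M} {x0 y0 : M} (hx : Tendsto x U (𝓝 x0)) (hy : Tendsto y U (𝓝 y0))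
    (h : ∀ᶠ k in U, le 𝒮 (x k) (y k)) (u : M) (hu : tl 𝒮 u x0) : tl 𝒮 u y0 := by
  have hN' : {z : M | tl 𝒮 u z} ∈ 𝓝 x0 := by
    have h1 : IsOpen {z : M | tl 𝒮 u z} :=
      (tl_open (𝒮 := 𝒮)).preimage (Continuous.prodMk_right u)
    exact h1.mem_nhds hu
  obtain ⟨u', hu', hu'x⟩ := exists_past (𝒮 := 𝒮) hN'
  have h2 : ∀ᶠ k in U, tl 𝒮 u' (x k) := by
    have h1 : IsOpen {z : M | tl 𝒮 u' z} :=
      (tl_open (𝒮 := 𝒮)).preimage (Continuous.prodMk_right u')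
    exact hx.eventually (h1.mem_nhds hu'x)
  have h3 : ∀ᶠ k in U, tl 𝒮 u' (y k) := by
    filter_upwards [h, h2] with k hk hk2
    exact hk.1 _ hk2
  have h4 : le 𝒮 u' y0 := CL hN U (a := fun _ => u') tendsto_const_nhds hy h3
  exact h4.1 _ hu'

theorem le_closed [T2Space M] [SecondCountableTopology M] (hN : Noh 𝒮) (U : Ultrafilter κ) {x y : κ → M}
    {x0 y0 : M} (hx : Tendsto x U (𝓝 x0)) (hy : Tendsto y U (𝓝 y0))
    (h : ∀ᶠ k in U, le 𝒮 (x k) (y k)) : le 𝒮 x0 y0 := by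
  refine ⟨AA9_half hN U hx hy h, fun v hv => ?_⟩
  have := AA9_half (𝒮 := 𝒮.rev) hN.rev U hy hx (h.mono fun k hk => le_rev.2 hk) v (tl_rev.2 hv)
  exact tl_rev.1 this

end Pool.Agent.EG

end

end M_AA9

section M_AA10

/-!
Row ec-AA10 (every point has an incomparable point; paper A12).
`half`: κ = ℕ, U = hyperfilter, box B ∋ r0 (exists_box), y = ch r0, e with g_y(e,e) > 0 (a nonzero vector of T^⊥; D ≥ 2), ε_k = 1/(k+1), s_k = pt(y + ε_k e) → r0.  Suppose le r0 s_k for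
U-many k.  Choose r'_k ≪ r0 with ‖ch r'_k - y‖ ≤ ε_k² (exists_past); tl r'_k s_k: curves σ_k on [0,1].  (ch s_k - ch r'_k)/ε_k → e.  `step` at p = r0 with box B: either s = 1: the whole curve is in
B.K(2r): `cone_limit` gives g_y(e,e) ≤ 0, contradiction; or p' with ‖ch p' - y‖ = r > 0, le r0 p' (le_of_limit), le (σ_k(s_k)) s_k (le_of_curve) so le p' r0 (le_closed), antisymm: p' = r0: contradiction.
`incomp`: half for 𝒮 and for 𝒮.rev with the same e: for U-many k neither relation holds (ultrafilter), pick such a k.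
-/

open scoped ContDiff Topology
open Set Filter

noncomputable section

set_option linter.unusedSectionVars false
set_option maxSynthPendingDepth 3

namespace Pool.Agent.EG

variable {E : Type*} [NormedAddCommGroup E] [NormedSpace ℝ E] [FiniteDimensional ℝ E]
variable {M : Type*} [TopologicalSpace M] {ι : Type*}
variable {𝒮 : LSys E M ι}

theorem half_incomp [T2Space M] [SecondCountableTopology M] (hN : Noh 𝒮) (B : Box 𝒮) {r0 : M}
    (hr : r0 ∈ B.V) {e : E} (he : 0 < 𝒮.g B.i (𝒮.ch B.i r0) e e) :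
    ∀ᶠ k : ℕ in (hyperfilter ℕ : Filter ℕ), ¬ le 𝒮 r0 (B.pt (𝒮.ch B.i r0 + ((k : ℝ) + 1)⁻¹ • e)) := by
  by_contra hcon
  rw [Ultrafilter.eventually_not, not_not] at hcon
  set y : E := 𝒮.ch B.i r0 with hy
  have hεpos : ∀ k : ℕ, 0 < ((k : ℝ) + 1)⁻¹ := fun k => by positivity
  have hεtop : Tendsto (fun k : ℕ => ((k : ℝ) + 1)⁻¹) atTop (𝓝 0) := by
    have h := tendsto_one_div_add_atTop_nhds_zero_nat (𝕜 := ℝ)
    simpa [one_div] using h
  have hε : Tendsto (fun k : ℕ => ((k : ℝ) + 1)⁻¹) (hyperfilter ℕ : Filter ℕ) (𝓝 0) :=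
    hεtop.mono_left Nat.hyperfilter_le_atTop
  have hyB : y ∈ Metric.ball B.y0 B.r := hr.2
  -- the points `s k`
  set sp : ℕ → M := fun k => B.pt (y + ((k : ℝ) + 1)⁻¹ • e) with hsp
  have hyk : Tendsto (fun k : ℕ => y + ((k : ℝ) + 1)⁻¹ • e) (hyperfilter ℕ : Filter ℕ) (𝓝 y) := by
    have h := (tendsto_const_nhds (x := y)).add (hε.smul_const e)
    simpa using h
  have hspch : ∀ᶠ k in (hyperfilter ℕ : Filter ℕ), 𝒮.ch B.i (sp k) = y + ((k : ℝ) + 1)⁻¹ • e := by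
    filter_upwards [hyk.eventually (Metric.isOpen_ball.mem_nhds hyB)] with k hk
    exact (B.pt_mem_K (by linarith [B.hr] : B.r ≤ 4 * B.r) (Metric.ball_subset_closedBall hk)).2
  have hytar : y ∈ (𝒮.ch B.i).target := (𝒮.ch B.i).map_source hr.1
  have hr0pt : (𝒮.ch B.i).symm y = r0 := (𝒮.ch B.i).left_inv hr.1
  have hspt : Tendsto sp (hyperfilter ℕ : Filter ℕ) (𝓝 r0) := by
    have h := ((𝒮.ch B.i).continuousAt_symm hytar).tendsto.comp hyk
    rw [hr0pt] at h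
    exact h
  -- the points `r' k`
  have hN : ∀ k : ℕ, ∃ u ∈ {x | x ∈ (𝒮.ch B.i).source ∧
      𝒮.ch B.i x ∈ Metric.ball y ((((k : ℝ) + 1)⁻¹) ^ 2)}, tl 𝒮 u r0 := by
    intro k
    apply exists_past
    apply ((𝒮.ch B.i).isOpen_inter_preimage Metric.isOpen_ball).mem_nhds
    exact ⟨hr.1, Metric.mem_ball_self (by positivity)⟩
  choose r' hr'N hr'tl using hN
  have hr'ch : Tendsto (fun k => 𝒮.ch B.i (r' k)) (hyperfilter ℕ : Filter ℕ) (𝓝 y) := by
    rw [tendsto_iff_dist_tendsto_zero]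
    have h2 : Tendsto (fun k : ℕ => (((k : ℝ) + 1)⁻¹) ^ 2) (hyperfilter ℕ : Filter ℕ) (𝓝 0) := by
      have h := hε.pow 2
      simpa using h
    exact squeeze_zero (fun k => dist_nonneg) (fun k => (Metric.mem_ball.1 (hr'N k).2).le) h2
  have hr't : Tendsto r' (hyperfilter ℕ : Filter ℕ) (𝓝 r0) := by
    have h := ((𝒮.ch B.i).continuousAt_symm hytar).tendsto.comp hr'ch
    rw [hr0pt] at h
    refine h.congr fun k => ?_
    exact (𝒮.ch B.i).left_inv (hr'N k).1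
  -- the curves
  have hcur : ∀ k : ℕ, ∃ σ : ℝ → M, le 𝒮 r0 (sp k) → (IsCurve 𝒮 FT σ 0 1 ∧ σ 0 = r' k ∧ σ 1 = sp k) := by
    intro k
    by_cases h : le 𝒮 r0 (sp k)
    · obtain ⟨σ, hσ⟩ := h.1 (r' k) (hr'tl k)
      exact ⟨σ, fun _ => hσ⟩
    · exact ⟨fun _ => r0, fun h' => absurd h' h⟩
  choose σ hσ using hcur
  have hev : ∀ᶠ k in (hyperfilter ℕ : Filter ℕ), IsCurve 𝒮 FT (σ k) 0 1 ∧ σ k 0 = r' k ∧ σ k 1 = sp k :=
    hcon.mono fun k hk => hσ k hk
  have hevC : ∀ᶠ k in (hyperfilter ℕ : Filter ℕ), IsCurve 𝒮 FC (σ k) 0 1 := hev.mono fun k hk => hk.1.of_FT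
  have hp : Tendsto (fun k => σ k 0) (hyperfilter ℕ : Filter ℕ) (𝓝 r0) :=
    hr't.congr' (hev.mono fun k hk => hk.2.1.symm)
  have hq : Tendsto (fun k => σ k 1) (hyperfilter ℕ : Filter ℕ) (𝓝 r0) :=
    hspt.congr' (hev.mono fun k hk => hk.2.2.symm)
  obtain ⟨s, hs, p', hp'K, hp't, hor⟩ := step B (hyperfilter ℕ) (σ := σ) (a := fun _ => (0 : ℝ))
    (b := fun _ => (1 : ℝ)) (Eventually.of_forall fun _ => zero_le_one)
    (hev.mono fun k hk => hk.1.cont) hp hr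
  rcases hor with hsb | hdist
  · -- the whole curve stays in the box
    have hK : ∀ᶠ k in (hyperfilter ℕ : Filter ℕ), ∀ t ∈ Icc (0 : ℝ) 1, σ k t ∈ B.K (2 * B.r) := by
      filter_upwards [hs] with k hk
      have := hk.2.2
      rw [hsb] at this
      exact this
    have hlim : Tendsto (fun k : ℕ => (((k : ℝ) + 1)⁻¹)⁻¹ •
        (𝒮.ch B.i (σ k 1) - 𝒮.ch B.i (σ k 0))) (hyperfilter ℕ : Filter ℕ) (𝓝 e) := by
      have h1 : Tendsto (fun k : ℕ => e - (((k : ℝ) + 1)⁻¹)⁻¹ • (𝒮.ch B.i (r' k) - y))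
          (hyperfilter ℕ : Filter ℕ) (𝓝 e) := by
        have h2 : Tendsto (fun k : ℕ => (((k : ℝ) + 1)⁻¹)⁻¹ • (𝒮.ch B.i (r' k) - y))
            (hyperfilter ℕ : Filter ℕ) (𝓝 0) := by
          rw [tendsto_zero_iff_norm_tendsto_zero]
          refine squeeze_zero (fun k => norm_nonneg _) (fun k => ?_) hε
          have hk := (Metric.mem_ball.1 (hr'N k).2).le
          rw [dist_eq_norm] at hk
          rw [norm_smul, norm_inv, Real.norm_of_nonneg (hεpos k).le]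
          calc (((k : ℝ) + 1)⁻¹)⁻¹ * ‖𝒮.ch B.i (r' k) - y‖
              ≤ (((k : ℝ) + 1)⁻¹)⁻¹ * (((k : ℝ) + 1)⁻¹) ^ 2 :=
                mul_le_mul_of_nonneg_left hk (inv_pos.2 (hεpos k)).le
            _ = ((k : ℝ) + 1)⁻¹ := by
                have := (hεpos k).ne'
                field_simp
        have h := (tendsto_const_nhds (x := e)).sub h2
        simpa using h
      refine h1.congr' ?_
      filter_upwards [hev, hspch] with k hk hk2
      rw [hk.2.1, hk.2.2, hk2]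
      have h3 : y + ((k : ℝ) + 1)⁻¹ • e - 𝒮.ch B.i (r' k)
          = ((k : ℝ) + 1)⁻¹ • e - (𝒮.ch B.i (r' k) - y) := by abel
      rw [h3, smul_sub (((k : ℝ) + 1)⁻¹)⁻¹ (((k : ℝ) + 1)⁻¹ • e), smul_smul,
        inv_mul_cancel₀ (hεpos k).ne', one_smul]
    have hfin := cone_limit B (hyperfilter ℕ) (σ := σ) (a := fun _ => (0 : ℝ)) (b := fun _ => (1 : ℝ))
      (Eventually.of_forall fun _ => zero_le_one) hevC hK (B.V_sub_K (by linarith [B.hr]) hr) hp hq
      (ε := fun k : ℕ => ((k : ℝ) + 1)⁻¹) (Eventually.of_forall hεpos) hlim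
    exact absurd he (not_lt.2 hfin)
  · -- the limit point `p'`
    have hle1 : le 𝒮 r0 p' := by
      refine le_of_limit B (hyperfilter ℕ) (σ := σ) (a := fun _ => (0 : ℝ)) (b := s)
        (hs.mono fun k hk => hk.1) ?_ (hs.mono fun k hk => hk.2.2) hp hp't
      filter_upwards [hevC, hs] with k hk hk2
      exact hk.sub le_rfl hk2.2.1
    have hle2 : le 𝒮 p' r0 := by
      refine le_closed hN (hyperfilter ℕ) hp't hq ?_
      filter_upwards [hevC, hs] with k hk hk2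
      exact le_of_curve hk2.2.1 (hk.sub hk2.1 le_rfl)
    have heq := antisymm hN hle1 hle2
    rw [← heq, sub_self, norm_zero] at hdist
    exact absurd hdist (ne_of_lt B.hr)

theorem incomp [T2Space M] [SecondCountableTopology M] (hD : 2 ≤ Module.finrank ℝ E) (hN : Noh 𝒮)
    (r0 : M) : ∃ s, ¬ le 𝒮 r0 s ∧ ¬ le 𝒮 s r0 := by
  obtain ⟨B, hB⟩ := exists_box 𝒮 r0
  have hytar : 𝒮.ch B.i r0 ∈ (𝒮.ch B.i).target := (𝒮.ch B.i).map_source hB.1
  have hL := 𝒮.lor B.i _ hytar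
  obtain ⟨e, he0, heT⟩ : ∃ e : E, e ≠ 0 ∧ 𝒮.g B.i (𝒮.ch B.i r0) (𝒮.T B.i (𝒮.ch B.i r0)) e = 0 := by
    set f : E →ₗ[ℝ] ℝ := (𝒮.g B.i (𝒮.ch B.i r0) (𝒮.T B.i (𝒮.ch B.i r0))).toLinearMap with hf
    have h1 := f.finrank_range_add_finrank_ker
    have h2 : Module.finrank ℝ (LinearMap.range f) ≤ 1 := by
      have := Submodule.finrank_le (LinearMap.range f)
      simpa using this
    have h3 : 0 < Module.finrank ℝ (LinearMap.ker f) := by omega
    have h4 : LinearMap.ker f ≠ ⊥ := by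
      intro h
      rw [h, finrank_bot] at h3
      exact lt_irrefl _ h3
    obtain ⟨e, he, he0⟩ := Submodule.exists_mem_ne_zero_of_ne_bot h4
    exact ⟨e, he0, LinearMap.mem_ker.1 he⟩
  have he := hL.pos e he0 heT
  have h1 := half_incomp hN B hB he
  have h2 := half_incomp hN.rev B.rev (r0 := r0) hB (e := e) he
  obtain ⟨k, hk1, hk2⟩ := (h1.and h2).exists
  exact ⟨_, hk1, fun h => hk2 (le_rev.2 h)⟩

end Pool.Agent.EG

end

end M_AA10

section M_AA11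

/-!
Row ec-AA11 (trichotomy along an ultrafilter; paper A13).
Fix y (M nonempty; if κ-family exists then U is nonempty so some s k; take y = s k0).  If y ≪ s_k U-ev.: Dplus (constant family y).  If s_k ≪ y: Dminus.  Otherwise neither, U-ev.  c_k with s_k, y ≪ c_k
(directed'), τ_k timelike curve on [0,1] from s_k to c_k; t_k = inf {t : y ≪ τ_k(t)}: the set is open (tl_open), contains 1, is upward closed, does not contain 0; b_k = τ_k(t_k): not y ≪ b_k; y ≪ τ_k(t) for t > t_k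
so le y b_k (le_closed along t → t_k+, or: u ≪ y ... ; use le_closed with κ = ℕ), le s_k b_k (le_of_curve).  y' ≪ y (exists_past): y' ≪ b_k; Dplus: the alternative '∀ q' fails for q = y, so b_k → b.
Dually (𝒮.rev): a_k with le a_k s_k, le a_k y.. and a_k → a.  a' ≪ a: a' ≪ a_k ≤ s_k: Dplus: s_k converges, or all q ≪ s_k; q with b ≪ q: b_k ≪ q ≪ s_k ≤ b_k: Chr, impossible.
-/

open scoped ContDiff Topology
open Set Filter

noncomputable section

set_option linter.unusedSectionVars false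
set_option maxSynthPendingDepth 3

namespace Pool.Agent.EG

variable {E : Type*} [NormedAddCommGroup E] [NormedSpace ℝ E] [FiniteDimensional ℝ E]
variable {M : Type*} [TopologicalSpace M] {ι : Type*}
variable {𝒮 : LSys E M ι}

variable {κ : Type*}

theorem aa11_right (y : M) : IsOpen {p : M | tl 𝒮 y p} :=
  (tl_open (𝒮 := 𝒮)).preimage (Continuous.prodMk_right y)

theorem aa11_left (y : M) : IsOpen {p : M | tl 𝒮 p y} :=
  (tl_open (𝒮 := 𝒮)).preimage (Continuous.prodMk_left y)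

/-- the first point of a curve from `x` to the common future of `x` and `y` which is not
chronologically after `y` -/
theorem aa11_key [T2Space M] [SecondCountableTopology M] (hN : Noh 𝒮) {x y c : M}
    (hxy : ¬ tl 𝒮 y x) (hxc : tl 𝒮 x c) (hyc : tl 𝒮 y c) :
    ∃ b, ¬ tl 𝒮 y b ∧ le 𝒮 y b ∧ le 𝒮 x b := by
  obtain ⟨σ, hσ, h0, h1⟩ := hxc
  set S : Set ℝ := {t | t ∈ Icc (0 : ℝ) 1 ∧ tl 𝒮 y (σ t)} with hS
  have h1S : (1 : ℝ) ∈ S := ⟨⟨zero_le_one, le_rfl⟩, by rw [h1]; exact hyc⟩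
  have h0S : (0 : ℝ) ∉ S := fun h => hxy (by rw [← h0]; exact h.2)
  have hbdd : BddBelow S := ⟨0, fun t ht => ht.1.1⟩
  have hup : ∀ t ∈ S, ∀ t' ∈ Icc (0 : ℝ) 1, t < t' → t' ∈ S := by
    intro t ht t' ht' htt
    exact ⟨ht', tl_trans ht.2 (tl_of_curve htt (hσ.sub ht.1.1 ht'.2))⟩
  set t0 := sInf S with ht0
  have ht0' : 0 ≤ t0 := le_csInf ⟨1, h1S⟩ fun t ht => ht.1.1
  have ht1' : t0 ≤ 1 := csInf_le hbdd h1S
  have hcont : ContinuousWithinAt σ (Icc 0 1) t0 := hσ.cont t0 ⟨ht0', ht1'⟩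
  have hnot : ¬ tl 𝒮 y (σ t0) := by
    intro h
    have hpos : 0 < t0 := by
      rcases eq_or_lt_of_le ht0' with h' | h'
      · have h3 : t0 ∈ S := ⟨⟨ht0', ht1'⟩, h⟩
        rw [← h'] at h3
        exact absurd h3 h0S
      · exact h'
    have hev : ∀ᶠ t in 𝓝[Icc 0 1] t0, tl 𝒮 y (σ t) :=
      hcont.eventually ((aa11_right (𝒮 := 𝒮) y).mem_nhds h)
    have hev2 : ∀ᶠ t in 𝓝[<] t0, tl 𝒮 y (σ t) := by
      rw [← nhdsWithin_Ioo_eq_nhdsLT hpos]
      exact hev.filter_mono (nhdsWithin_mono _ ((Ioo_subset_Icc_self (a := (0 : ℝ)) (b := t0)).trans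
        (Icc_subset_Icc le_rfl ht1')))
    have hev3 : ∀ᶠ t in 𝓝[<] t0, t ∈ Ioo 0 t0 := Ioo_mem_nhdsLT hpos
    obtain ⟨t, h2, h3⟩ := (hev2.and hev3).exists
    have : t ∈ S := ⟨⟨h3.1.le, h3.2.le.trans ht1'⟩, h2⟩
    exact absurd (csInf_le hbdd this) (not_le.2 h3.2)
  have hlt1 : t0 < 1 := by
    rcases eq_or_lt_of_le ht1' with h' | h'
    · exact absurd h1S.2 (by rw [← h']; exact hnot)
    · exact h'
  refine ⟨σ t0, hnot, ?_, ?_⟩
  · have hle : ((Ultrafilter.of (𝓝[>] t0) : Ultrafilter ℝ) : Filter ℝ) ≤ 𝓝[>] t0 := Ultrafilter.of_le _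
    have hc2 : Tendsto σ (𝓝[>] t0) (𝓝 (σ t0)) := by
      have h2 : Tendsto σ (𝓝[Ioo t0 1] t0) (𝓝 (σ t0)) :=
        hcont.mono_left (nhdsWithin_mono _ fun t ht => ⟨ht0'.trans ht.1.le, ht.2.le⟩)
      rwa [nhdsWithin_Ioo_eq_nhdsGT hlt1] at h2
    refine le_closed hN (Ultrafilter.of (𝓝[>] t0)) (x := fun _ => y) (y := σ) tendsto_const_nhds
      (hc2.mono_left hle) ?_
    have hev : ∀ᶠ t in 𝓝[>] t0, t ∈ Ioo t0 1 := Ioo_mem_nhdsGT hlt1
    refine (hev.mono fun t ht => ?_).filter_mono hle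
    obtain ⟨s, hs, hst⟩ := exists_lt_of_csInf_lt ⟨1, h1S⟩ ht.1
    exact le_of_tl (hup s hs t ⟨ht0'.trans ht.1.le, ht.2.le⟩ hst).2
  · have h2 := le_of_curve ht0' (IsCurve.of_FT (hσ.sub le_rfl ht1'))
    rwa [h0] at h2

theorem tricho [T2Space M] [SecondCountableTopology M] (hN : Noh 𝒮) (U : Ultrafilter κ) (s : κ → M) :
    (∃ p, Tendsto s U (𝓝 p)) ∨ (∀ q, ∀ᶠ k in U, tl 𝒮 q (s k)) ∨ (∀ q, ∀ᶠ k in U, tl 𝒮 (s k) q) := by
  obtain ⟨k0⟩ : Nonempty κ := (inferInstance : NeBot (U : Filter κ)).nonempty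
  set y := s k0 with hy
  by_cases h1 : ∀ᶠ k in U, tl 𝒮 y (s k)
  · rcases Dplus hN U (a := fun _ => y) (b := s) tendsto_const_nhds h1 with h | h
    · exact Or.inl h
    · exact Or.inr (Or.inl h)
  by_cases h2 : ∀ᶠ k in U, tl 𝒮 (s k) y
  · rcases Dminus hN U (a := s) (b := fun _ => y) tendsto_const_nhds h2 with h | h
    · exact Or.inl h
    · exact Or.inr (Or.inr h)
  replace h1 := Ultrafilter.eventually_not.2 h1
  replace h2 := Ultrafilter.eventually_not.2 h2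
  have hb : ∀ k, ∃ b, ¬ tl 𝒮 y (s k) → ¬ tl 𝒮 y b ∧ le 𝒮 y b ∧ le 𝒮 (s k) b := by
    intro k
    by_cases h : tl 𝒮 y (s k)
    · exact ⟨y, fun h' => absurd h h'⟩
    · obtain ⟨c, hc1, hc2⟩ := directed' hN (s k) y
      obtain ⟨b, hb⟩ := aa11_key hN h hc1 hc2
      exact ⟨b, fun _ => hb⟩
  have ha : ∀ k, ∃ a, ¬ tl 𝒮 (s k) y → ¬ tl 𝒮 a y ∧ le 𝒮 a y ∧ le 𝒮 a (s k) := by
    intro k
    by_cases h : tl 𝒮 (s k) y
    · exact ⟨y, fun h' => absurd h h'⟩
    · obtain ⟨c, hc1, hc2⟩ := directed' hN.rev (s k) y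
      obtain ⟨a, ha1, ha2, ha3⟩ := aa11_key hN.rev (fun h' => h (tl_rev.1 h')) hc1 hc2
      exact ⟨a, fun _ => ⟨fun h' => ha1 (tl_rev.2 h'), le_rev.1 ha2, le_rev.1 ha3⟩⟩
  choose b hb using hb
  choose a ha using ha
  have hb' : ∀ᶠ k in U, ¬ tl 𝒮 y (b k) ∧ le 𝒮 y (b k) ∧ le 𝒮 (s k) (b k) := h1.mono fun k hk => hb k hk
  have ha' : ∀ᶠ k in U, ¬ tl 𝒮 (a k) y ∧ le 𝒮 (a k) y ∧ le 𝒮 (a k) (s k) := h2.mono fun k hk => ha k hk
  obtain ⟨b0, hb0⟩ : ∃ b0, Tendsto b U (𝓝 b0) := by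
    obtain ⟨y', -, hy'⟩ := exists_past (𝒮 := 𝒮) (x := y) (N := univ) univ_mem
    rcases Dplus hN U (a := fun _ => y') (b := b) tendsto_const_nhds
      (hb'.mono fun k hk => hk.2.1.1 y' hy') with h | h
    · exact h
    · obtain ⟨k, hk1, hk2⟩ := (hb'.and (h y)).exists
      exact absurd hk2 hk1.1
  obtain ⟨a0, ha0⟩ : ∃ a0, Tendsto a U (𝓝 a0) := by
    obtain ⟨y', -, hy'⟩ := exists_future (𝒮 := 𝒮) (x := y) (N := univ) univ_mem
    rcases Dminus hN U (a := a) (b := fun _ => y') tendsto_const_nhds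
      (ha'.mono fun k hk => hk.2.1.2 y' hy') with h | h
    · exact h
    · obtain ⟨k, hk1, hk2⟩ := (ha'.and (h y)).exists
      exact absurd hk2 hk1.1
  obtain ⟨a', -, haa⟩ := exists_past (𝒮 := 𝒮) (x := a0) (N := univ) univ_mem
  have hev : ∀ᶠ k in U, tl 𝒮 a' (a k) := ha0.eventually ((aa11_right (𝒮 := 𝒮) a').mem_nhds haa)
  rcases Dplus hN U (a := fun _ => a') (b := s) tendsto_const_nhds
    ((ha'.and hev).mono fun k hk => hk.1.2.2.1 a' hk.2) with h | h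
  · exact Or.inl h
  · exfalso
    obtain ⟨q, -, hq⟩ := exists_future (𝒮 := 𝒮) (x := b0) (N := univ) univ_mem
    have hev2 : ∀ᶠ k in U, tl 𝒮 (b k) q := hb0.eventually ((aa11_left (𝒮 := 𝒮) q).mem_nhds hq)
    obtain ⟨k, ⟨hk1, hk2⟩, hk3⟩ := ((hb'.and hev2).and (h q)).exists
    exact hN.chr q (tl_trans (hk1.2.2.1 q hk3) hk2)

end Pool.Agent.EG

end

end M_AA11

section M_AA12

/-!
Row ec-AA12 (bounded orbits; paper A14), for an arbitrary family of maps φ_k : M → M with tl (φ_k x) (φ_k y) ↔ tl x y.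
type of a family w_k: 0 = converges, + = (∀ q, q ≪ w_k U-ev.), - = (∀ q, w_k ≪ q U-ev.); exhaustive by `tricho`, mutually exclusive (Chr).  If type(φ_k(a_k)) < type(φ_k(b_k)) then a_k ≪ b_k U-ev. (insert q; for type 0 with
limit α take q with α ≪ q, resp. q ≪ α).
(1) z_k, z'_k → z have the same type: otherwise say type(φz) < type(φz'); s incomparable to z (`incomp`); type(φ_k s) (constant family s) is either > type(φz) ⇒ z_k ≪ s ⇒ le z s (CL), or ≤ type(φz) < type(φz') ⇒ s ≪ z'_k ⇒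
le s z: contradiction.   (2) the same for constant families z_m at points near z: the set {z : type(φ_k z) = t} is open for each t: if z_m → z (any ultrafilter on neighbourhoods, or: the complement of {le s ·} ∪ {le · s} is open by
le_closed) and types differ at z and z_m, take s incomparable to z, hence to z_m for z_m near z.
(3) M is preconnected (any two points are joined through `directed'` by continuous curves), the type of constants is locally constant, so constant; by (1) for x0: type(φ_k x0) = type(φ_k x_k) = 0.  So all types are 0.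
-/

open scoped ContDiff Topology
open Set Filter

noncomputable section

set_option linter.unusedSectionVars false
set_option maxSynthPendingDepth 3

namespace Pool.Agent.EG

variable {E : Type*} [NormedAddCommGroup E] [NormedSpace ℝ E] [FiniteDimensional ℝ E]
variable {M : Type*} [TopologicalSpace M] {ι : Type*}
variable {𝒮 : LSys E M ι}

variable {κ : Type*}

/-- key lemma: a family which is incomparable to a constant family has the same type -/
theorem AA12_key [T2Space M] [SecondCountableTopology M] (hN : Noh 𝒮)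
    (U : Ultrafilter κ) (φ : κ → M → M) (hφ : ∀ k x y, tl 𝒮 (φ k x) (φ k y) ↔ tl 𝒮 x y)
    {A : κ → M} {s : M} (h1 : ¬ ∀ᶠ k in U, tl 𝒮 (A k) s) (h2 : ¬ ∀ᶠ k in U, tl 𝒮 s (A k)) :
    (∃ w0, Tendsto (fun k => φ k (A k)) U (𝓝 w0)) ↔ ∃ w0, Tendsto (fun k => φ k s) U (𝓝 w0) := by
  have hlt : ∀ {B C : κ → M} {p : M}, Tendsto B U (𝓝 p) → (∀ q, ∀ᶠ k in U, tl 𝒮 q (C k)) →
      ∀ᶠ k in U, tl 𝒮 (B k) (C k) := by
    intro B C p hB hC
    obtain ⟨q, -, hq⟩ := exists_future (𝒮 := 𝒮) (x := p) (N := univ) Filter.univ_mem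
    have hop : IsOpen {x : M | tl 𝒮 x q} :=
      (tl_open (𝒮 := 𝒮)).preimage (continuous_id.prodMk continuous_const)
    have h3 : ∀ᶠ k in U, tl 𝒮 (B k) q := hB.eventually (hop.mem_nhds hq)
    filter_upwards [h3, hC q] with k hk hk'
    exact tl_trans hk hk'
  have hgt : ∀ {B C : κ → M} {p : M}, Tendsto B U (𝓝 p) → (∀ q, ∀ᶠ k in U, tl 𝒮 (C k) q) →
      ∀ᶠ k in U, tl 𝒮 (C k) (B k) := by
    intro B C p hB hC
    obtain ⟨q, -, hq⟩ := exists_past (𝒮 := 𝒮) (x := p) (N := univ) Filter.univ_mem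
    have hop : IsOpen {x : M | tl 𝒮 q x} :=
      (tl_open (𝒮 := 𝒮)).preimage (continuous_const.prodMk continuous_id)
    have h3 : ∀ᶠ k in U, tl 𝒮 q (B k) := hB.eventually (hop.mem_nhds hq)
    filter_upwards [h3, hC q] with k hk hk'
    exact tl_trans hk' hk
  constructor
  · rintro ⟨w, hw⟩
    rcases tricho hN U (fun k => φ k s) with h | h | h
    · exact h
    · exfalso
      apply h1
      filter_upwards [hlt hw h] with k hk
      exact (hφ k _ _).1 hk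
    · exfalso
      apply h2
      filter_upwards [hgt hw h] with k hk
      exact (hφ k _ _).1 hk
  · rintro ⟨w, hw⟩
    rcases tricho hN U (fun k => φ k (A k)) with h | h | h
    · exact h
    · exfalso
      apply h2
      filter_upwards [hlt hw h] with k hk
      exact (hφ k _ _).1 hk
    · exfalso
      apply h1
      filter_upwards [hgt hw h] with k hk
      exact (hφ k _ _).1 hk

theorem AA12_near [T2Space M] [SecondCountableTopology M] (hN : Noh 𝒮) (U : Ultrafilter κ)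
    {A : κ → M} {z s : M} (hA : Tendsto A U (𝓝 z)) (h1 : ¬ le 𝒮 z s) (h2 : ¬ le 𝒮 s z) :
    (¬ ∀ᶠ k in U, tl 𝒮 (A k) s) ∧ ¬ ∀ᶠ k in U, tl 𝒮 s (A k) := by
  constructor
  · intro h
    exact h1 (CL hN U hA tendsto_const_nhds h)
  · intro h
    exact h2 (CL hN U tendsto_const_nhds hA h)

theorem AA12_const [T2Space M] [SecondCountableTopology M] (hN : Noh 𝒮) (U : Ultrafilter κ)
    {z s : M} (h1 : ¬ le 𝒮 z s) (h2 : ¬ le 𝒮 s z) :
    (¬ ∀ᶠ k in U, tl 𝒮 ((fun _ : κ => z) k) s) ∧ ¬ ∀ᶠ k in U, tl 𝒮 s ((fun _ : κ => z) k) :=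
  AA12_near hN U tendsto_const_nhds h1 h2

theorem AA12_open [T2Space M] [SecondCountableTopology M] (hN : Noh 𝒮) (s : M) :
    IsOpen {w : M | ¬ le 𝒮 w s ∧ ¬ le 𝒮 s w} := by
  have hc1 : IsClosed {w : M | le 𝒮 w s} := by
    rw [isClosed_iff_ultrafilter]
    intro x V hV hx
    exact le_closed hN V (x := fun w => w) (y := fun _ => s) hV tendsto_const_nhds hx
  have hc2 : IsClosed {w : M | le 𝒮 s w} := by
    rw [isClosed_iff_ultrafilter]
    intro x V hV hx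
    exact le_closed hN V (x := fun _ => s) (y := fun w => w) tendsto_const_nhds hV hx
  exact hc1.isOpen_compl.inter hc2.isOpen_compl

theorem BO [T2Space M] [SecondCountableTopology M] (hD : 2 ≤ Module.finrank ℝ E) (hN : Noh 𝒮)
    (U : Ultrafilter κ) (φ : κ → M → M) (hφ : ∀ k x y, tl 𝒮 (φ k x) (φ k y) ↔ tl 𝒮 x y)
    {x : κ → M} {x0 y0 : M} (hx : Tendsto x U (𝓝 x0)) (hy : Tendsto (fun k => φ k (x k)) U (𝓝 y0)) :
    ∀ (z : κ → M) (z0 : M), Tendsto z U (𝓝 z0) → ∃ w0, Tendsto (fun k => φ k (z k)) U (𝓝 w0) := by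
  -- families with the same limit
  have same : ∀ (z : κ → M) (z0 : M), Tendsto z U (𝓝 z0) →
      ((∃ w0, Tendsto (fun k => φ k (z k)) U (𝓝 w0)) ↔ ∃ w0, Tendsto (fun k => φ k z0) U (𝓝 w0)) := by
    intro z z0 hz
    obtain ⟨s, hs1, hs2⟩ := incomp hD hN z0
    have a := AA12_near hN U hz hs1 hs2
    have b := AA12_const hN U hs1 hs2
    exact (AA12_key hN U φ hφ a.1 a.2).trans (AA12_key hN U φ hφ b.1 b.2).symm
  -- local constancy
  set Z : Set M := {w | ∃ w0, Tendsto (fun k => φ k w) U (𝓝 w0)} with hZ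
  have loc : ∀ w : M, ∃ N ∈ 𝓝 w, ∀ w' ∈ N, (w' ∈ Z ↔ w ∈ Z) := by
    intro w
    obtain ⟨s, hs1, hs2⟩ := incomp hD hN w
    refine ⟨_, (AA12_open hN s).mem_nhds ⟨hs1, hs2⟩, ?_⟩
    rintro w' ⟨h1, h2⟩
    have a := AA12_const hN U h1 h2
    have b := AA12_const hN U hs1 hs2
    exact (AA12_key hN U φ hφ a.1 a.2).trans (AA12_key hN U φ hφ b.1 b.2).symm
  have hZo : IsOpen Z := by
    rw [isOpen_iff_mem_nhds]
    intro w hw
    obtain ⟨N, hN1, hN2⟩ := loc w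
    exact Filter.mem_of_superset hN1 fun w' hw' => (hN2 w' hw').2 hw
  have hZc : IsClosed Z := by
    rw [← isOpen_compl_iff, isOpen_iff_mem_nhds]
    intro w hw
    obtain ⟨N, hN1, hN2⟩ := loc w
    exact Filter.mem_of_superset hN1 fun w' hw' h => hw ((hN2 w' hw').1 h)
  have hcl : IsClopen Z := ⟨hZc, hZo⟩
  have hcurve : ∀ {p c : M}, tl 𝒮 p c → (p ∈ Z ↔ c ∈ Z) := by
    rintro p c ⟨σ, hσ, h0, h1⟩
    have hpre : IsPreconnected (σ '' Icc (0:ℝ) 1) := isPreconnected_Icc.image σ hσ.cont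
    have hp : p ∈ σ '' Icc (0:ℝ) 1 := ⟨0, left_mem_Icc.2 zero_le_one, h0⟩
    have hc : c ∈ σ '' Icc (0:ℝ) 1 := ⟨1, right_mem_Icc.2 zero_le_one, h1⟩
    constructor
    · intro h
      exact hpre.subset_isClopen hcl ⟨p, hp, h⟩ hc
    · intro h
      exact hpre.subset_isClopen hcl ⟨c, hc, h⟩ hp
  have hx0 : x0 ∈ Z := (same x x0 hx).1 ⟨y0, hy⟩
  intro z z0 hz
  rw [same z z0 hz]
  obtain ⟨c, hc1, hc2⟩ := directed' hN x0 z0
  exact (hcurve hc2).2 ((hcurve hc1).1 hx0)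

end Pool.Agent.EG

end

end M_AA12

section M_AIN

/-!
Interface of section A (causality): statements used by the later sections.  Proofs: rows of section A.
-/

open scoped ContDiff Topology
open Set Filter

noncomputable section

set_option linter.unusedSectionVars false
set_option maxSynthPendingDepth 3

namespace Pool.Agent.EG

variable {E : Type*} [NormedAddCommGroup E] [NormedSpace ℝ E] [FiniteDimensional ℝ E]
variable {M : Type*} [TopologicalSpace M] {ι : Type*}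
variable {𝒮 : LSys E M ι}

variable {κ : Type*}

/-- (A14) one convergent orbit: all orbits converge. -/
theorem bounded_orbits [T2Space M] [SecondCountableTopology M] (hD : 2 ≤ Module.finrank ℝ E)
    (hN : Noh 𝒮) (U : Ultrafilter κ) (Φ : κ → Cf 𝒮) {x : κ → M} {x0 y0 : M}
    (hx : Tendsto x U (𝓝 x0)) (hy : Tendsto (fun k => (Φ k).φ (x k)) U (𝓝 y0)) : BOf Φ U :=
  BO hD hN U (fun k => (Φ k).φ) (fun k _ _ => tl_map (Φ k).h) hx hy

/-- (A9) decomposition of causal curves with converging end points into finitely many pieces in boxes,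
as an induction principle. -/
theorem SDI [T2Space M] [SecondCountableTopology M] (hN : Noh 𝒮) (U : Ultrafilter κ)
    {σ : κ → ℝ → M} {a b : κ → ℝ} (hab : ∀ᶠ k in U, a k ≤ b k)
    (hσ : ∀ᶠ k in U, IsCurve 𝒮 FC (σ k) (a k) (b k)) {p q : M}
    (hp : Tendsto (fun k => σ k (a k)) U (𝓝 p)) (hq : Tendsto (fun k => σ k (b k)) U (𝓝 q))
    (Q : (κ → ℝ) → (κ → ℝ) → Prop) (htrans : ∀ r s t, Q r s → Q s t → Q r t)
    (hbox : ∀ s t : κ → ℝ, (∀ᶠ k in U, a k ≤ s k ∧ s k ≤ t k ∧ t k ≤ b k) →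
      (∃ p', Tendsto (fun k => σ k (s k)) U (𝓝 p')) → (∃ q', Tendsto (fun k => σ k (t k)) U (𝓝 q')) →
      (∃ B : Box 𝒮, ∀ᶠ k in U, ∀ r ∈ Icc (s k) (t k), σ k r ∈ B.K (2 * B.r)) → Q s t) :
    Q a b :=
  SDI' hN U hab hσ hp hq Q htrans hbox

/-- (A11) -/
theorem directed [T2Space M] [SecondCountableTopology M] (hN : Noh 𝒮) (x y : M) :
    ∃ c, tl 𝒮 x c ∧ tl 𝒮 y c := directed' hN x y

end Pool.Agent.EG

end

end M_AIN

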