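import Pool.Agent.Lib.MP_eeed5f_gt.S0
import Pool.Agent.Lib.MP_eeed5f_gt.A1
import Pool.Agent.Lib.MP_f72ae4_gt.LocalFlow

section M_DD2

/-!
Row ec-DD2 (a nonvanishing smooth vector field in the plane has a first integral).
X smooth near y0, X(y0) ≠ 0.  Flow Θ(t,z) from `Pool.Agent.SH.exists_local_smooth_flow` (import Pool.Agent.Lib.MP_f72ae4_gt.LocalFlow).  Choose a linear functional a with a(X(y0)) ≠ 0 and w ≠ 0 with a(w) = 0 (dim 2).
G(t,s) = Θ(t, y0 + s w) is smooth near (0,0) ∈ ℝ², DG(0,0)(t,s) = t X(y0) + s w bijective: inverse function theorem: local inverse (t(y), s(y)), smooth.  u := s(y): du(X) = 0 (along Θ(t,y0+sw) u is constant;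
X(G(t,s)) = ∂_t G), du(y0)(w) = 1 ≠ 0.
-/

open scoped ContDiff Topology
open Set Filter

noncomputable section

set_option linter.unusedSectionVars false
set_option maxSynthPendingDepth 3

namespace Pool.Agent.EG

variable {E : Type*} [NormedAddCommGroup E] [NormedSpace ℝ E] [FiniteDimensional ℝ E]
variable {M : Type*} [TopologicalSpace M] {ι : Type*}
variable {𝒮 : LSys E M ι}

theorem dd2_vec (hE : Module.finrank ℝ E = 2) {v : E} (hv : v ≠ 0) :
    ∃ w : E, ∀ t s : ℝ, t • v + s • w = 0 → t = 0 ∧ s = 0 := by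
  have h1 : Submodule.span ℝ {v} ≠ ⊤ := by
    intro h
    have h2 := finrank_span_singleton (K := ℝ) hv
    rw [h, finrank_top, hE] at h2
    exact absurd h2 (by norm_num)
  obtain ⟨w, -, hw⟩ := SetLike.exists_of_lt (lt_top_iff_ne_top.2 h1)
  refine ⟨w, fun t s h => ?_⟩
  have hs : s = 0 := by
    by_contra hs
    apply hw
    rw [Submodule.mem_span_singleton]
    refine ⟨-(s⁻¹ * t), ?_⟩
    have h3 : s • w = -(t • v) := by
      rw [eq_neg_iff_add_eq_zero, add_comm]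
      exact h
    have h4 : w = s⁻¹ • (s • w) := by rw [smul_smul, inv_mul_cancel₀ hs, one_smul]
    rw [h4, h3, smul_neg, smul_smul, neg_smul]
  refine ⟨?_, hs⟩
  rw [hs, zero_smul, add_zero] at h
  exact (smul_eq_zero.1 h).resolve_right hv

theorem first_integral {O : Set E} (hE : Module.finrank ℝ E = 2) (hO : IsOpen O) {X : E → E}
    (hX : ContDiffOn ℝ ∞ X O) {y0 : E} (hy : y0 ∈ O) (hne : X y0 ≠ 0) :
    ∃ r > 0, Metric.ball y0 r ⊆ O ∧ ∃ u : E → ℝ, ContDiffOn ℝ ∞ u (Metric.ball y0 r) ∧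
      ∀ y ∈ Metric.ball y0 r, fderiv ℝ u y (X y) = 0 ∧ fderiv ℝ u y ≠ 0 := by
  have hcomp : CompleteSpace E := FiniteDimensional.complete ℝ E
  obtain ⟨w, hw⟩ := dd2_vec hE hne
  obtain ⟨ε, hε, W, hWo, hWy, Θ, hΘs, hΘ0, hΘ⟩ := Pool.Agent.SH.exists_local_smooth_flow hO hX hy
  -- the map
  obtain ⟨G, hG⟩ : ∃ G : ℝ × ℝ → E, G = fun p => Θ (p.1, y0 + p.2 • w) := ⟨_, rfl⟩
  obtain ⟨D, hDdef⟩ : ∃ D : Set (ℝ × ℝ), D = {p | p.1 ∈ Ioo (-ε) ε ∧ y0 + p.2 • w ∈ W} := ⟨_, rfl⟩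
  have hlin : ContDiff ℝ ∞ (fun p : ℝ × ℝ => ((p.1, y0 + p.2 • w) : ℝ × E)) :=
    contDiff_fst.prodMk (contDiff_const.add (contDiff_snd.smul contDiff_const))
  have hDo : IsOpen D := by
    have : D = (fun p : ℝ × ℝ => ((p.1, y0 + p.2 • w) : ℝ × E)) ⁻¹' (Ioo (-ε) ε ×ˢ W) := by
      rw [hDdef]; rfl
    rw [this]
    exact (isOpen_Ioo.prod hWo).preimage hlin.continuous
  have hD0 : ((0, 0) : ℝ × ℝ) ∈ D := by
    rw [hDdef]
    refine ⟨⟨by show -ε < 0; linarith, hε⟩, ?_⟩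
    show y0 + (0 : ℝ) • w ∈ W
    rw [zero_smul, add_zero]
    exact hWy
  have hGs : ContDiffOn ℝ ∞ G D := by
    rw [hG]
    refine hΘs.comp hlin.contDiffOn ?_
    intro p hp
    rw [hDdef] at hp
    exact ⟨hp.1, hp.2⟩
  have hGat : ∀ p ∈ D, ContDiffAt ℝ ∞ G p := fun p hp => hGs.contDiffAt (hDo.mem_nhds hp)
  have hGd : ∀ p ∈ D, HasFDerivAt G (fderiv ℝ G p) p := fun p hp =>
    ((hGat p hp).differentiableAt (by simp)).hasFDerivAt
  have hdt : ∀ p ∈ D, fderiv ℝ G p (1, 0) = X (G p) := by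
    rintro ⟨t, s⟩ hp
    have h1 : HasDerivAt (fun r : ℝ => ((r, s) : ℝ × ℝ)) (1, 0) t :=
      (hasDerivAt_id t).prodMk (hasDerivAt_const t s)
    have h2 := (hGd _ hp).comp_hasDerivAt t h1
    have hp' := hp
    rw [hDdef] at hp'
    have h3 := (hΘ _ hp'.2 t hp'.1).2
    have h4 : HasDerivAt (G ∘ fun r : ℝ => ((r, s) : ℝ × ℝ)) (X (G (t, s))) t := by
      rw [hG]
      exact h3
    exact h2.unique h4
  have hG0 : G (0, 0) = y0 := by
    have e1 : y0 + (0 : ℝ) • w = y0 := by rw [zero_smul, add_zero]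
    rw [hG]
    show Θ (0, y0 + (0 : ℝ) • w) = y0
    rw [e1]
    exact hΘ0 y0 hWy
  have hds : fderiv ℝ G (0, 0) (0, 1) = w := by
    have h1 : HasDerivAt (fun r : ℝ => ((0, r) : ℝ × ℝ)) (0, 1) 0 :=
      (hasDerivAt_const (0 : ℝ) (0 : ℝ)).prodMk (hasDerivAt_id 0)
    have h2 := (hGd _ hD0).comp_hasDerivAt 0 h1
    have h3 : HasDerivAt (fun r : ℝ => y0 + r • w) w 0 := by
      have := ((hasDerivAt_id (0 : ℝ)).smul_const w).const_add y0
      rwa [one_smul] at this
    have hev : ∀ᶠ r : ℝ in 𝓝 0, y0 + r • w ∈ W := by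
      have hc : ContinuousAt (fun r : ℝ => y0 + r • w) 0 := h3.continuousAt
      apply hc.eventually
      apply hWo.mem_nhds
      show y0 + (0 : ℝ) • w ∈ W
      rw [zero_smul, add_zero]
      exact hWy
    have h4 : HasDerivAt (G ∘ fun r : ℝ => ((0, r) : ℝ × ℝ)) w 0 := by
      refine h3.congr_of_eventuallyEq ?_
      filter_upwards [hev] with r hr
      rw [hG]
      exact hΘ0 _ hr
    exact h2.unique h4
  have hA0 : ∀ t s : ℝ, fderiv ℝ G (0, 0) (t, s) = t • X y0 + s • w := by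
    intro t s
    have e : ((t, s) : ℝ × ℝ) = t • ((1, 0) : ℝ × ℝ) + s • ((0, 1) : ℝ × ℝ) := by
      ext <;> simp
    rw [e, map_add, map_smul, map_smul, hdt _ hD0, hds, hG0]
  have hinj : Function.Injective (fderiv ℝ G (0, 0)) := by
    rw [injective_iff_map_eq_zero]
    rintro ⟨t, s⟩ h
    rw [hA0] at h
    obtain ⟨h1, h2⟩ := hw t s h
    rw [h1, h2]
    rfl
  have hfr : Module.finrank ℝ (ℝ × ℝ) = Module.finrank ℝ E := by
    rw [hE, Module.finrank_prod, Module.finrank_self]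
  obtain ⟨L0, hL0⟩ : ∃ L : (ℝ × ℝ) ≃L[ℝ] E, (L : ℝ × ℝ →L[ℝ] E) = fderiv ℝ G (0, 0) := by
    refine ⟨(LinearMap.linearEquivOfInjective (fderiv ℝ G (0, 0)).toLinearMap hinj
      hfr).toContinuousLinearEquiv, ?_⟩
    refine ContinuousLinearMap.ext fun x => ?_
    rfl
  have hG' : HasFDerivAt G (L0 : ℝ × ℝ →L[ℝ] E) (0, 0) := by
    rw [hL0]
    exact hGd _ hD0
  -- the inverse function
  obtain ⟨e, he⟩ : ∃ e : OpenPartialHomeomorph (ℝ × ℝ) E,
      e = (hGat _ hD0).toOpenPartialHomeomorph G hG' (by simp) := ⟨_, rfl⟩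
  have heG : ∀ p, e p = G p := fun p => by rw [he]; rfl
  have heS : ((0, 0) : ℝ × ℝ) ∈ e.source := by
    rw [he]
    exact (hGat _ hD0).mem_toOpenPartialHomeomorph_source hG' (by simp)
  have heT : y0 ∈ e.target := by
    rw [← hG0, ← heG]
    exact e.map_source heS
  have he0 : e.symm y0 = (0, 0) := by
    rw [← hG0, ← heG]
    exact e.left_inv heS
  -- invertibility near the origin
  have hcf : ContinuousAt (fderiv ℝ G) (0, 0) :=
    ((hGs.continuousOn_fderiv_of_isOpen hDo (by simp)).continuousAt (hDo.mem_nhds hD0))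
  have hinv : ∀ᶠ p in 𝓝 ((0, 0) : ℝ × ℝ), p ∈ D ∧
      fderiv ℝ G p ∈ range ((↑) : ((ℝ × ℝ) ≃L[ℝ] E) → ℝ × ℝ →L[ℝ] E) := by
    refine Filter.Eventually.and (hDo.mem_nhds hD0) ?_
    apply hcf.eventually
    apply ContinuousLinearEquiv.isOpen.mem_nhds
    exact ⟨L0, hL0⟩
  have hcs : ContinuousAt e.symm y0 := e.symm.continuousAt (by simpa using heT)
  have hev : ∀ᶠ y in 𝓝 y0, y ∈ O ∧ y ∈ e.target ∧ (e.symm y ∈ D ∧
      fderiv ℝ G (e.symm y) ∈ range ((↑) : ((ℝ × ℝ) ≃L[ℝ] E) → ℝ × ℝ →L[ℝ] E)) := by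
    refine Filter.Eventually.and (hO.mem_nhds hy)
      (Filter.Eventually.and (e.open_target.mem_nhds heT) ?_)
    have h1 : Tendsto e.symm (𝓝 y0) (𝓝 (0, 0)) := by
      have := hcs.tendsto
      rwa [he0] at this
    exact h1.eventually hinv
  obtain ⟨r, hr, hball⟩ := Metric.eventually_nhds_iff_ball.1 hev
  have key : ∀ y ∈ Metric.ball y0 r, ∃ f : (ℝ × ℝ) ≃L[ℝ] E,
      (f : ℝ × ℝ →L[ℝ] E) = fderiv ℝ G (e.symm y) ∧ ContDiffAt ℝ ∞ e.symm y ∧
      HasFDerivAt e.symm (f.symm : E →L[ℝ] ℝ × ℝ) y := by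
    intro y hyb
    obtain ⟨-, hyT, hyD, f, hf⟩ := hball y hyb
    refine ⟨f, hf, ?_, ?_⟩
    · have h1 : HasFDerivAt e (f : ℝ × ℝ →L[ℝ] E) (e.symm y) := by
        rw [hf]
        exact (hGd _ hyD).congr_of_eventuallyEq (Filter.Eventually.of_forall heG)
      have h2 : ContDiffAt ℝ ∞ e (e.symm y) :=
        (hGat _ hyD).congr_of_eventuallyEq (Filter.Eventually.of_forall heG)
      exact e.contDiffAt_symm hyT h1 h2
    · have h1 : HasFDerivAt e (f : ℝ × ℝ →L[ℝ] E) (e.symm y) := by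
        rw [hf]
        exact (hGd _ hyD).congr_of_eventuallyEq (Filter.Eventually.of_forall heG)
      exact e.hasFDerivAt_symm hyT h1
  refine ⟨r, hr, fun y hyb => (hball y hyb).1, fun y => (e.symm y).2, ?_, ?_⟩
  · intro y hyb
    obtain ⟨f, -, h1, -⟩ := key y hyb
    exact (contDiffAt_snd.comp y h1).contDiffWithinAt
  · intro y hyb
    obtain ⟨f, hf, -, h1⟩ := key y hyb
    obtain ⟨-, hyT, hyD, -⟩ := hball y hyb
    have h2 : HasFDerivAt (fun y => (e.symm y).2)
        ((ContinuousLinearMap.snd ℝ ℝ ℝ).comp (f.symm : E →L[ℝ] ℝ × ℝ)) y :=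
      (hasFDerivAt_snd (𝕜 := ℝ)).comp y h1
    have hfG : ∀ p : ℝ × ℝ, f p = fderiv ℝ G (e.symm y) p := by
      intro p
      rw [← hf]
      rfl
    rw [h2.fderiv]
    constructor
    · have h3 : X y = f (1, 0) := by
        rw [hfG, hdt _ hyD, ← heG, e.right_inv hyT]
      rw [h3]
      show (f.symm (f (1, 0))).2 = 0
      rw [f.symm_apply_apply]
    · intro h4
      have h5 := congrArg (fun A : E →L[ℝ] ℝ => A (f (0, 1))) h4
      have h6 : ((ContinuousLinearMap.snd ℝ ℝ ℝ).comp (f.symm : E →L[ℝ] ℝ × ℝ)) (f (0, 1)) = 1 := by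
        show (f.symm (f (0, 1))).2 = 1
        rw [f.symm_apply_apply]
      exact one_ne_zero (h6.symm.trans h5)

end Pool.Agent.EG

end

end M_DD2

section M_DD3

/-!
Row ec-DD3 (null vector fields of a Lorentz surface).
On a small ball around y0: T0 = T(y0), e0 with g_{y0}(T0,e0)=0, e0 ≠ 0 (so g_{y0}(e0,e0)>0).  a = g(T0,T0) < 0, b = g(T0,e0), d = g(e0,e0) > 0 near y0 (smooth functions of y).
g(T0 + t e0, T0 + t e0) = a + 2bt + dt²: discriminant b² - ad > 0: two smooth roots t± = (-b ± √(b²-ad))/d, t+ ≠ t-.  X± = T0 + t± e0: smooth, null, linearly independent, nonzero.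
-/

open scoped ContDiff Topology
open Set Filter

noncomputable section

set_option linter.unusedSectionVars false
set_option maxSynthPendingDepth 3

namespace Pool.Agent.EG

variable {E : Type*} [NormedAddCommGroup E] [NormedSpace ℝ E] [FiniteDimensional ℝ E]
variable {M : Type*} [TopologicalSpace M] {ι : Type*}
variable {𝒮 : LSys E M ι}

theorem null_fields {O : Set E} {g : E → BF E} (hE : Module.finrank ℝ E = 2) (h : IsMet O g) {T : E → E}
    (hL : ∀ y ∈ O, IsLor (g y) (T y)) {y0 : E} (hy : y0 ∈ O) :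
    ∃ r > 0, Metric.ball y0 r ⊆ O ∧ ∃ X Y : E → E, ContDiffOn ℝ ∞ X (Metric.ball y0 r) ∧
      ContDiffOn ℝ ∞ Y (Metric.ball y0 r) ∧ ∀ y ∈ Metric.ball y0 r, g y (X y) (X y) = 0 ∧
        g y (Y y) (Y y) = 0 ∧ g y (X y) (Y y) ≠ 0 := by
  have hLor := hL y0 hy
  obtain ⟨T0, hT0⟩ : ∃ T0, T0 = T y0 := ⟨_, rfl⟩
  have hTT : g y0 T0 T0 < 0 := by rw [hT0]; exact hLor.neg
  have hT0ne : T0 ≠ 0 := by
    intro h0
    rw [h0] at hTT
    simp at hTT
  obtain ⟨w, hw⟩ := dd2_vec hE hT0ne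
  obtain ⟨e0, he0⟩ : ∃ e0, e0 = w - (g y0 T0 w / g y0 T0 T0) • T0 := ⟨_, rfl⟩
  have he0ne : e0 ≠ 0 := by
    intro h0
    rw [he0] at h0
    have h1 : (-(g y0 T0 w / g y0 T0 T0)) • T0 + (1 : ℝ) • w = 0 := by
      rw [neg_smul, one_smul, neg_add_eq_sub]
      exact h0
    exact one_ne_zero (hw _ _ h1).2
  have hTe : g y0 T0 e0 = 0 := by
    rw [he0, map_sub, map_smul, smul_eq_mul, div_mul_cancel₀ _ hTT.ne, sub_self]
  have hee : 0 < g y0 e0 e0 := hLor.pos e0 he0ne (by rw [← hT0]; exact hTe)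
  have hsm : ∀ u v : E, ContDiffOn ℝ ∞ (fun y => g y u v) O := fun u v =>
    (h.smooth.clm_apply contDiffOn_const).clm_apply contDiffOn_const
  have hcont : ∀ u v : E, ContinuousAt (fun y => g y u v) y0 := fun u v =>
    (hsm u v).continuousOn.continuousAt (h.isOpen.mem_nhds hy)
  have hev : ∀ᶠ y in 𝓝 y0, y ∈ O ∧ g y T0 T0 < 0 ∧ 0 < g y e0 e0 := by
    refine Filter.Eventually.and (h.isOpen.mem_nhds hy) (Filter.Eventually.and ?_ ?_)
    · exact (hcont T0 T0).eventually (Iio_mem_nhds hTT)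
    · exact (hcont e0 e0).eventually (Ioi_mem_nhds hee)
  obtain ⟨r, hr, hball⟩ := Metric.eventually_nhds_iff_ball.1 hev
  obtain ⟨a, ha⟩ : ∃ a : E → ℝ, a = fun y => g y T0 T0 := ⟨_, rfl⟩
  obtain ⟨b, hb⟩ : ∃ b : E → ℝ, b = fun y => g y T0 e0 := ⟨_, rfl⟩
  obtain ⟨d, hd⟩ : ∃ d : E → ℝ, d = fun y => g y e0 e0 := ⟨_, rfl⟩
  have hsub : Metric.ball y0 r ⊆ O := fun y hy' => (hball y hy').1
  have sa : ContDiffOn ℝ ∞ a (Metric.ball y0 r) := by rw [ha]; exact (hsm _ _).mono hsub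
  have sb : ContDiffOn ℝ ∞ b (Metric.ball y0 r) := by rw [hb]; exact (hsm _ _).mono hsub
  have sd : ContDiffOn ℝ ∞ d (Metric.ball y0 r) := by rw [hd]; exact (hsm _ _).mono hsub
  have pa : ∀ y ∈ Metric.ball y0 r, a y < 0 := fun y hy' => by rw [ha]; exact (hball y hy').2.1
  have pd : ∀ y ∈ Metric.ball y0 r, 0 < d y := fun y hy' => by rw [hd]; exact (hball y hy').2.2
  have pD : ∀ y ∈ Metric.ball y0 r, 0 < b y ^ 2 - a y * d y := by
    intro y hy'
    have h1 := mul_neg_of_neg_of_pos (pa y hy') (pd y hy')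
    nlinarith [sq_nonneg (b y)]
  have sR : ContDiffOn ℝ ∞ (fun y => Real.sqrt (b y ^ 2 - a y * d y)) (Metric.ball y0 r) :=
    ((sb.pow 2).sub (sa.mul sd)).sqrt (fun y hy' => (pD y hy').ne')
  have st1 : ContDiffOn ℝ ∞ (fun y => (-b y + Real.sqrt (b y ^ 2 - a y * d y)) / d y) (Metric.ball y0 r) :=
    (sb.neg.add sR).div sd (fun y hy' => (pd y hy').ne')
  have st2 : ContDiffOn ℝ ∞ (fun y => (-b y - Real.sqrt (b y ^ 2 - a y * d y)) / d y) (Metric.ball y0 r) :=
    (sb.neg.sub sR).div sd (fun y hy' => (pd y hy').ne')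
  refine ⟨r, hr, hsub, fun y => T0 + ((-b y + Real.sqrt (b y ^ 2 - a y * d y)) / d y) • e0,
    fun y => T0 + ((-b y - Real.sqrt (b y ^ 2 - a y * d y)) / d y) • e0,
    contDiffOn_const.add (st1.smul contDiffOn_const), contDiffOn_const.add (st2.smul contDiffOn_const), ?_⟩
  intro y hy'
  have hsymm : g y e0 T0 = g y T0 e0 := h.symm y (hsub hy') _ _
  have hexp : ∀ t t' : ℝ, g y (T0 + t • e0) (T0 + t' • e0) = a y + b y * (t + t') + d y * (t * t') := by
    intro t t'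
    rw [ha, hb, hd]
    simp only [map_add, map_smul, ContinuousLinearMap.add_apply, ContinuousLinearMap.smul_apply, smul_eq_mul, hsymm]
    ring
  have hdy := (pd y hy').ne'
  have hR : Real.sqrt (b y ^ 2 - a y * d y) ^ 2 = b y ^ 2 - a y * d y := Real.sq_sqrt (pD y hy').le
  have hRp : 0 < Real.sqrt (b y ^ 2 - a y * d y) := Real.sqrt_pos.2 (pD y hy')
  beta_reduce
  generalize hRR : Real.sqrt (b y ^ 2 - a y * d y) = R at *
  refine ⟨?_, ?_, ?_⟩
  · show g y (T0 + ((-b y + R) / d y) • e0) (T0 + ((-b y + R) / d y) • e0) = 0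
    rw [hexp]
    field_simp
    linear_combination hR
  · show g y (T0 + ((-b y - R) / d y) • e0) (T0 + ((-b y - R) / d y) • e0) = 0
    rw [hexp]
    field_simp
    linear_combination hR
  · show g y (T0 + ((-b y + R) / d y) • e0) (T0 + ((-b y - R) / d y) • e0) ≠ 0
    rw [hexp]
    have h2 : a y + b y * ((-b y + R) / d y + (-b y - R) / d y) + d y * ((-b y + R) / d y * ((-b y - R) / d y))
        = -2 * R ^ 2 / d y := by
      field_simp
      linear_combination hR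
    rw [h2]
    exact div_ne_zero (mul_ne_zero (by norm_num) (pow_ne_zero 2 hRp.ne')) hdy

end Pool.Agent.EG

end

end M_DD3

section M_DD4

/-!
Row ec-DD4 (null coordinates).
u first integral of X, v first integral of Y (first_integral): du(X)=0, dv(Y)=0, du ≠ 0, dv ≠ 0.  X, Y are a basis (g(X,Y) ≠ 0 with both null), so du(Y) ≠ 0, dv(X) ≠ 0.  For Z = xX+yY, Z' = x'X+y'Y:
g(Z,Z') = (xy'+x'y) g(X,Y), du(Z) = y du(Y), dv(Z) = x dv(X): g(Z,Z') = q (du(Z)dv(Z')+du(Z')dv(Z)), q = g(X,Y)/(du(Y)dv(X)) ≠ 0, of constant sign on the (connected) ball; replace v by -v if q > 0: then with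
s = (u+v)/2·..: take w0 = (u+v), w1 = (u-v): du dv' + du' dv = ½(w0w0' - w1w1'), so g = (q/2)(dw0 dw0' - dw1 dw1') with q < 0... choose signs such that g = l(-dw0dw0' + dw1dw1'), l > 0 smooth.
-/

open scoped ContDiff Topology
open Set Filter

noncomputable section

set_option linter.unusedSectionVars false
set_option maxSynthPendingDepth 3

namespace Pool.Agent.EG

variable {E : Type*} [NormedAddCommGroup E] [NormedSpace ℝ E] [FiniteDimensional ℝ E]
variable {M : Type*} [TopologicalSpace M] {ι : Type*}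
variable {𝒮 : LSys E M ι}

theorem dd4_span (hE : Module.finrank ℝ E = 2) {b : BF E} (hs : ∀ u v, b u v = b v u) {X Y : E}
    (hX : b X X = 0) (hY : b Y Y = 0) (hXY : b X Y ≠ 0) (Z : E) : ∃ x y : ℝ, x • X + y • Y = Z := by
  have hli : LinearIndependent ℝ ![X, Y] := by
    rw [LinearIndependent.pair_iff]
    intro a c h
    have h1 : b (a • X + c • Y) Y = 0 := by rw [h]; simp
    have h2 : b (a • X + c • Y) X = 0 := by rw [h]; simp
    have hYX : b Y X ≠ 0 := by rw [hs]; exact hXY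
    simp only [map_add, map_smul, ContinuousLinearMap.add_apply, ContinuousLinearMap.smul_apply,
      smul_eq_mul, hX, hY, mul_zero, add_zero, zero_add] at h1 h2
    exact ⟨(mul_eq_zero.mp h1).resolve_right hXY, (mul_eq_zero.mp h2).resolve_right hYX⟩
  have htop := hli.span_eq_top_of_card_eq_finrank' (by simp [hE])
  have hZ : Z ∈ Submodule.span ℝ (Set.range ![X, Y]) := by rw [htop]; trivial
  have hr : Set.range ![X, Y] = {X, Y} := by simp [Set.pair_comm]
  rw [hr, Submodule.mem_span_pair] at hZ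
  exact hZ

theorem dd4_alg (hE : Module.finrank ℝ E = 2) {b : BF E} (hs : ∀ u v, b u v = b v u) {X Y : E}
    (hX : b X X = 0) (hY : b Y Y = 0) (hXY : b X Y ≠ 0) {a c : E →L[ℝ] ℝ} (ha : a X = 0) (hc : c Y = 0)
    (ha0 : a ≠ 0) (hc0 : c ≠ 0) : a Y * c X ≠ 0 ∧
      ∀ Z Z', b Z Z' = b X Y / (a Y * c X) * (a Z * c Z' + a Z' * c Z) := by
  have haY : a Y ≠ 0 := by
    intro h
    apply ha0
    ext Z
    obtain ⟨x, y, rfl⟩ := dd4_span hE hs hX hY hXY Z
    simp [ha, h]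
  have hcX : c X ≠ 0 := by
    intro h
    apply hc0
    ext Z
    obtain ⟨x, y, rfl⟩ := dd4_span hE hs hX hY hXY Z
    simp [hc, h]
  refine ⟨mul_ne_zero haY hcX, fun Z Z' => ?_⟩
  obtain ⟨x, y, rfl⟩ := dd4_span hE hs hX hY hXY Z
  obtain ⟨x', y', rfl⟩ := dd4_span hE hs hX hY hXY Z'
  simp only [map_add, map_smul, ContinuousLinearMap.add_apply, ContinuousLinearMap.smul_apply,
    smul_eq_mul, hX, hY, ha, hc, mul_zero, add_zero, zero_add, hs Y X]
  field_simp

theorem flat2_local {O : Set E} {g : E → BF E} (hE : Module.finrank ℝ E = 2) (h : IsMet O g) {T : E → E}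
    (hL : ∀ y ∈ O, IsLor (g y) (T y)) {y0 : E} (hy : y0 ∈ O) :
    ∃ r > 0, Metric.ball y0 r ⊆ O ∧ ∃ (u v l : E → ℝ), ContDiffOn ℝ ∞ u (Metric.ball y0 r) ∧
      ContDiffOn ℝ ∞ v (Metric.ball y0 r) ∧ ContDiffOn ℝ ∞ l (Metric.ball y0 r) ∧
      ∀ y ∈ Metric.ball y0 r, 0 < l y ∧ ∀ Z Z',
        g y Z Z' = l y * (- (fderiv ℝ u y Z * fderiv ℝ u y Z') + fderiv ℝ v y Z * fderiv ℝ v y Z') := by
  obtain ⟨r0, hr0, hsub0, X, Y, hX, hY, hXY⟩ := null_fields hE h hL hy
  have hy0 : y0 ∈ Metric.ball y0 r0 := Metric.mem_ball_self hr0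
  have hX0 : X y0 ≠ 0 := by
    intro hz
    exact (hXY y0 hy0).2.2 (by rw [hz]; simp)
  have hY0 : Y y0 ≠ 0 := by
    intro hz
    exact (hXY y0 hy0).2.2 (by rw [hz]; simp)
  obtain ⟨r1, hr1, hsub1, u, hu, hu'⟩ := first_integral hE Metric.isOpen_ball hX hy0 hX0
  obtain ⟨r2, hr2, hsub2, v, hv, hv'⟩ := first_integral hE Metric.isOpen_ball hY hy0 hY0
  -- the common ball
  obtain ⟨r3, hr3, h31, h32⟩ : ∃ r3 > 0, r3 ≤ r1 ∧ r3 ≤ r2 :=
    ⟨min r1 r2, lt_min hr1 hr2, min_le_left _ _, min_le_right _ _⟩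
  have hb1 : Metric.ball y0 r3 ⊆ Metric.ball y0 r1 := Metric.ball_subset_ball h31
  have hb2 : Metric.ball y0 r3 ⊆ Metric.ball y0 r2 := Metric.ball_subset_ball h32
  have hb0 : Metric.ball y0 r3 ⊆ Metric.ball y0 r0 := hb1.trans hsub1
  have hbO : Metric.ball y0 r3 ⊆ O := hb0.trans hsub0
  have hop : IsOpen (Metric.ball y0 r3) := Metric.isOpen_ball
  have hy3 : y0 ∈ Metric.ball y0 r3 := Metric.mem_ball_self hr3
  have hu3 := hu.mono hb1
  have hv3 := hv.mono hb2
  have hdu : ContDiffOn ℝ ∞ (fun y => fderiv ℝ u y) (Metric.ball y0 r3) := hu3.fderiv_of_isOpen hop (by simp)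
  have hdv : ContDiffOn ℝ ∞ (fun y => fderiv ℝ v y) (Metric.ball y0 r3) := hv3.fderiv_of_isOpen hop (by simp)
  have hX3 := hX.mono hb0
  have hY3 := hY.mono hb0
  have halg : ∀ y ∈ Metric.ball y0 r3, fderiv ℝ u y (Y y) * fderiv ℝ v y (X y) ≠ 0 ∧
      ∀ Z Z', g y Z Z' = g y (X y) (Y y) / (fderiv ℝ u y (Y y) * fderiv ℝ v y (X y)) *
        (fderiv ℝ u y Z * fderiv ℝ v y Z' + fderiv ℝ u y Z' * fderiv ℝ v y Z) := fun y hy =>
    dd4_alg hE (h.symm y (hbO hy)) (hXY y (hb0 hy)).1 (hXY y (hb0 hy)).2.1 (hXY y (hb0 hy)).2.2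
      (hu' y (hb1 hy)).1 (hv' y (hb2 hy)).1 (hu' y (hb1 hy)).2 (hv' y (hb2 hy)).2
  obtain ⟨q, hq⟩ : ∃ q : E → ℝ, q = fun y =>
    g y (X y) (Y y) / (fderiv ℝ u y (Y y) * fderiv ℝ v y (X y)) := ⟨_, rfl⟩
  have hqs : ContDiffOn ℝ ∞ q (Metric.ball y0 r3) := by
    rw [hq]
    exact (((h.smooth.mono hbO).clm_apply hX3).clm_apply hY3).div
      ((hdu.clm_apply hY3).mul (hdv.clm_apply hX3)) fun y hy => (halg y hy).1
  have hq0 : q y0 ≠ 0 := by
    rw [hq]
    exact div_ne_zero (hXY y0 hy0).2.2 (halg y0 hy3).1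
  have hqc : ContinuousAt q y0 := hqs.continuousOn.continuousAt (hop.mem_nhds hy3)
  -- the sign
  obtain ⟨s, hs2, hs0⟩ : ∃ s : ℝ, s * s = 1 ∧ 0 < s * q y0 := by
    rcases lt_or_gt_of_ne hq0 with h1 | h1
    · exact ⟨-1, by norm_num, by linarith⟩
    · exact ⟨1, by norm_num, by linarith⟩
  have hev : ∀ᶠ y in 𝓝 y0, 0 < s * q y ∧ y ∈ Metric.ball y0 r3 :=
    ((continuousAt_const.mul hqc).eventually (lt_mem_nhds hs0)).and (hop.mem_nhds hy3)
  obtain ⟨r, hr, hball⟩ := Metric.eventually_nhds_iff_ball.mp hev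
  have hbr : Metric.ball y0 r ⊆ Metric.ball y0 r3 := fun y hy => (hball y hy).2
  refine ⟨r, hr, hbr.trans hbO, fun y => u y - s * v y, fun y => u y + s * v y, fun y => s / 2 * q y,
    (hu3.mono hbr).sub (contDiffOn_const.mul (hv3.mono hbr)),
    (hu3.mono hbr).add (contDiffOn_const.mul (hv3.mono hbr)),
    contDiffOn_const.mul (hqs.mono hbr), fun y hy => ⟨by have := (hball y hy).1; linarith, fun Z Z' => ?_⟩⟩
  have hdu1 : DifferentiableAt ℝ u y :=
    (hu3.differentiableOn (by simp)).differentiableAt (hop.mem_nhds (hbr hy))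
  have hdv1 : DifferentiableAt ℝ v y :=
    (hv3.differentiableOn (by simp)).differentiableAt (hop.mem_nhds (hbr hy))
  have e1 : fderiv ℝ (fun y => u y - s * v y) y = fderiv ℝ u y - s • fderiv ℝ v y := by
    rw [fderiv_fun_sub hdu1 (hdv1.const_mul s), fderiv_const_mul hdv1]
  have e2 : fderiv ℝ (fun y => u y + s * v y) y = fderiv ℝ u y + s • fderiv ℝ v y := by
    rw [fderiv_fun_add hdu1 (hdv1.const_mul s), fderiv_const_mul hdv1]
  rw [e1, e2, (halg y (hbr hy)).2 Z Z', hq]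
  simp only [ContinuousLinearMap.sub_apply, ContinuousLinearMap.add_apply,
    ContinuousLinearMap.smul_apply, smul_eq_mul]
  linear_combination (-(g y (X y) (Y y) / (fderiv ℝ u y (Y y) * fderiv ℝ v y (X y)) *
    (fderiv ℝ u y Z * fderiv ℝ v y Z' + fderiv ℝ u y Z' * fderiv ℝ v y Z))) * hs2

end Pool.Agent.EG

end

end M_DD4

section M_SY1

/-!
Row ec-SY1 (normal form of one Lorentz form).  b Lorentz on E, dim E = n+1: there is a linear isomorphism A : E ≃ ℝ^{n+1} with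
b(u,v) = -(Au)_0(Av)_0 + Σ_{i≥1} (Au)_i(Av)_i.  The form h(u,v) := b(u,v) - 2 b(T,u)b(T,v)/b(T,T) is positive definite
(u = aT+u': h(u,u) = -a²b(T,T)+b(u',u')).  Take on ker b(T,·) (dimension n) a b-orthonormal basis
(e.g. `LinearMap.BilinForm.exists_orthogonal_basis` + normalisation, or InnerProductSpace.Core and `stdOrthonormalBasis`), plus T/√(-b(T,T)).
-/

open scoped ContDiff Topology
open Set

noncomputable section

set_option linter.unusedSectionVars false
set_option maxSynthPendingDepth 3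

namespace Pool.Agent.EG

/-- an orthonormal basis of a positive definite form with given first vector (algebraic form) -/
theorem sy1_basis {F : Type*} [AddCommGroup F] [Module ℝ F] [FiniteDimensional ℝ F] {n : ℕ}
    (hn : Module.finrank ℝ F = n + 1) (h : F →ₗ[ℝ] F →ₗ[ℝ] ℝ) (hsymm : ∀ u v, h u v = h v u)
    (hpos : ∀ u, 0 ≤ h u u) (hdef : ∀ u, h u u = 0 → u = 0) (e0 : F) (he0 : h e0 e0 = 1) :
    ∃ A : F ≃ₗ[ℝ] (Fin (n + 1) → ℝ), (∀ u v, h u v = ∑ i, A u i * A v i) ∧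
      ∀ u, A u 0 = h e0 u := by
  let core : InnerProductSpace.Core ℝ F :=
    { inner := fun u v => h u v
      conj_inner_symm := fun u v => by simpa using hsymm v u
      re_inner_nonneg := fun u => by simpa using hpos u
      add_left := fun u v w => by simp
      smul_left := fun u v r => by simp
      definite := fun u hu => hdef u hu }
  let _ : NormedAddCommGroup F := core.toNormedAddCommGroup
  let _ : InnerProductSpace ℝ F := InnerProductSpace.ofCore core.toCore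
  have hinner : ∀ u v : F, inner ℝ u v = h u v := fun u v => rfl
  have hortho : Orthonormal ℝ (({0} : Set (Fin (n + 1))).domRestrict (fun _ : Fin (n + 1) => e0)) := by
    constructor
    · intro i
      have : ‖e0‖ ^ 2 = 1 := by
        rw [← real_inner_self_eq_norm_sq, hinner, he0]
      have h1 : ‖e0‖ = 1 := (pow_eq_one_iff_of_nonneg (norm_nonneg e0) two_ne_zero).1 this
      exact h1
    · intro i j hij
      exact absurd (Subtype.ext ((Set.mem_singleton_iff.1 i.2).trans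
        (Set.mem_singleton_iff.1 j.2).symm)) hij
  obtain ⟨v, hv⟩ := hortho.exists_orthonormalBasis_extension_of_card_eq
    (by rw [hn, Fintype.card_fin])
  refine ⟨v.toBasis.equivFun, ?_, ?_⟩
  · intro x y
    rw [← hinner, ← v.sum_inner_mul_inner x y]
    refine Finset.sum_congr rfl fun i _ => ?_
    rw [Module.Basis.equivFun_apply, Module.Basis.equivFun_apply, v.coe_toBasis_repr_apply,
      v.coe_toBasis_repr_apply, v.repr_apply_apply, v.repr_apply_apply, real_inner_comm x]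
  · intro x
    rw [Module.Basis.equivFun_apply, v.coe_toBasis_repr_apply, v.repr_apply_apply, hv 0 rfl, hinner]

variable {E : Type*} [NormedAddCommGroup E] [NormedSpace ℝ E] [FiniteDimensional ℝ E]
variable {V : Type*} [NormedAddCommGroup V] [NormedSpace ℝ V] [FiniteDimensional ℝ V]
variable {V' : Type*} [NormedAddCommGroup V'] [NormedSpace ℝ V'] [FiniteDimensional ℝ V']
variable {O O' S : Set E} {g g' : E → BF E} {f : E → E} {c : E → ℝ} {y : E}

theorem lor_normal {n : ℕ} (hn : Module.finrank ℝ E = n + 1) {b : BF E} {T : E} (h : IsLor b T) :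
    ∃ A : E ≃L[ℝ] EuclideanSpace ℝ (Fin (n + 1)), ∀ u v,
      b u v = - (A u 0 * A v 0) + ∑ i : Fin n, A u i.succ * A v i.succ := by
  have hT : b T T ≠ 0 := h.neg.ne
  have hT' : 0 < - b T T := neg_pos.2 h.neg
  set s : ℝ := Real.sqrt (- b T T) with hs
  have hs0 : 0 < s := Real.sqrt_pos.2 hT'
  have hss : s * s = - b T T := Real.mul_self_sqrt hT'.le
  -- the positive definite form
  let k : E →ₗ[ℝ] E →ₗ[ℝ] ℝ := LinearMap.mk₂ ℝ (fun u v => b u v - 2 * b T u * b T v / b T T)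
    (by intro u u' v; simp; ring) (by intro a u v; simp; ring)
    (by intro u v v'; simp; ring) (by intro a u v; simp; ring)
  have hk : ∀ u v, k u v = b u v - 2 * b T u * b T v / b T T := fun u v => rfl
  -- decomposition
  have hdec : ∀ u, k u u = - ((b T u / b T T) ^ 2 * b T T) +
      b (u - (b T u / b T T) • T) (u - (b T u / b T T) • T) := by
    intro u
    have h1 := h.symm u T
    rw [hk]
    simp only [map_sub, map_smul, sub_apply, smul_apply,
      smul_eq_mul, h1]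
    field_simp
    ring
  have hperp : ∀ u, b T (u - (b T u / b T T) • T) = 0 := by
    intro u
    simp only [map_sub, map_smul, smul_eq_mul]
    field_simp
    ring
  have hnn : ∀ u, 0 ≤ b (u - (b T u / b T T) • T) (u - (b T u / b T T) • T) := by
    intro u
    by_cases hu : u - (b T u / b T T) • T = 0
    · rw [hu]; simp
    · exact (h.pos _ hu (hperp u)).le
  have hnn' : ∀ u, 0 ≤ - ((b T u / b T T) ^ 2 * b T T) := by
    intro u
    nlinarith [sq_nonneg (b T u / b T T), mul_nonneg (sq_nonneg (b T u / b T T)) hT'.le]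
  obtain ⟨A, hA, hA0⟩ := sy1_basis hn k (fun u v => by rw [hk, hk, h.symm u v]; ring)
    (fun u => by rw [hdec]; linarith [hnn u, hnn' u])
    (fun u hu => by
      rw [hdec] at hu
      have h1 : - ((b T u / b T T) ^ 2 * b T T) = 0 := by linarith [hnn u, hnn' u]
      have h2 : b (u - (b T u / b T T) • T) (u - (b T u / b T T) • T) = 0 := by
        linarith [hnn u, hnn' u]
      have h3 : b T u / b T T = 0 := by
        rcases mul_eq_zero.1 (neg_eq_zero.1 h1) with h' | h'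
        · exact pow_eq_zero_iff (two_ne_zero) |>.1 h'
        · exact absurd h' hT
      by_contra hne
      have h4 : u - (b T u / b T T) • T ≠ 0 := by rw [h3, zero_smul, sub_zero]; exact hne
      exact (h.pos _ h4 (hperp u)).ne' h2)
    (s⁻¹ • T) (by
      rw [hk]
      simp only [map_smul, smul_apply, smul_eq_mul]
      field_simp
      rw [sq, hss]
      ring)
  refine ⟨A.toContinuousLinearEquiv.trans (EuclideanSpace.equiv (Fin (n + 1)) ℝ).symm, ?_⟩
  intro u v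
  have e1 : ∀ (x : E) (i : Fin (n + 1)),
      (A.toContinuousLinearEquiv.trans (EuclideanSpace.equiv (Fin (n + 1)) ℝ).symm) x i = A x i :=
    fun x i => rfl
  simp only [e1]
  have h1 := hA u v
  rw [hk, Fin.sum_univ_succ] at h1
  have h0 : ∀ x, A x 0 = - (s⁻¹ * b T x) := by
    intro x
    rw [hA0, hk]
    simp only [map_smul, smul_apply, smul_eq_mul]
    field_simp
    ring
  have h2 : A u 0 * A v 0 = - (b T u * b T v / b T T) := by
    rw [h0, h0, show -(s⁻¹ * b T u) * -(s⁻¹ * b T v) = b T u * b T v / (s * s) by field_simp, hss]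
    rw [div_neg]
  have h3 : 2 * b T u * b T v / b T T = 2 * (b T u * b T v / b T T) := by ring
  rw [h3] at h1
  linarith

end Pool.Agent.EG

end

end M_SY1

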