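import Pool.Agent.Lib.MP_eeed5f_gt.Loc

/-!
# The abstract manifold layer of MP_eeed5f_gt: a Lorentz manifold as a system of charts

`LSys E M ι`: charts `ch i : M ⇀ E` covering `M`, a metric `g i` and a continuous time orientation
`T i` on every chart target; the transition maps are isometric (`IsLC` with factor 1) and preserve
the time orientation.
-/

open scoped ContDiff Topology
open Set Filter

noncomputable section

set_option linter.unusedSectionVars false
set_option maxSynthPendingDepth 3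

namespace Pool.Agent.EG

variable {E : Type*} [NormedAddCommGroup E] [NormedSpace ℝ E] [FiniteDimensional ℝ E]
variable {M : Type*} [TopologicalSpace M] {ι : Type*}

/-- domain of the local representative of `φ` in the charts `e`, `e'` -/
def domR (e e' : OpenPartialHomeomorph M E) (φ : M → M) : Set E :=
  e.target ∩ {y | φ (e.symm y) ∈ e'.source}

/-- local representative of `φ` in the charts `e`, `e'` -/
def rep (e e' : OpenPartialHomeomorph M E) (φ : M → M) (y : E) : E := e' (φ (e.symm y))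

/-- A time oriented Lorentz manifold, given by charts. -/
structure LSys (E : Type*) [NormedAddCommGroup E] [NormedSpace ℝ E] [FiniteDimensional ℝ E]
    (M : Type*) [TopologicalSpace M] (ι : Type*) where
  ch : ι → OpenPartialHomeomorph M E
  g : ι → E → BF E
  T : ι → E → E
  cover : ∀ x : M, ∃ i, x ∈ (ch i).source
  met : ∀ i, IsMet (ch i).target (g i)
  contT : ∀ i, ContinuousOn (T i) (ch i).target
  lor : ∀ i, ∀ y ∈ (ch i).target, IsLor (g i y) (T i y)
  trans : ∀ i j, IsLC (ch i).target (g i) (ch j).target (g j) (domR (ch i) (ch j) id)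
    (rep (ch i) (ch j) id) (fun _ => 1)
  orient : ∀ i j, ∀ y ∈ domR (ch i) (ch j) id,
    g j (rep (ch i) (ch j) id y) (T j (rep (ch i) (ch j) id y))
      (fderiv ℝ (rep (ch i) (ch j) id) y (T i y)) < 0

/-- A time orientation preserving conformal homeomorphism with factor `c²`, `c : M → ℝ`. -/
structure IsCf (𝒮 : LSys E M ι) (φ : M ≃ₜ M) (c : M → ℝ) : Prop where
  lc : ∀ i j, IsLC (𝒮.ch i).target (𝒮.g i) (𝒮.ch j).target (𝒮.g j) (domR (𝒮.ch i) (𝒮.ch j) φ)
    (rep (𝒮.ch i) (𝒮.ch j) φ) (fun y => c ((𝒮.ch i).symm y))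
  orient : ∀ i j, ∀ y ∈ domR (𝒮.ch i) (𝒮.ch j) φ,
    𝒮.g j (rep (𝒮.ch i) (𝒮.ch j) φ y) (𝒮.T j (rep (𝒮.ch i) (𝒮.ch j) φ y))
      (fderiv ℝ (rep (𝒮.ch i) (𝒮.ch j) φ) y (𝒮.T i y)) < 0

/-- The group `Conf^↑` (elements with their conformal factor). -/
structure Cf (𝒮 : LSys E M ι) where
  φ : M ≃ₜ M
  c : M → ℝ
  h : IsCf 𝒮 φ c

/-- bounded orbits along the ultrafilter `U` -/
def BOf {𝒮 : LSys E M ι} {κ : Type*} (Φ : κ → Cf 𝒮) (U : Ultrafilter κ) : Prop :=
  ∀ (z : κ → M) (z0 : M), Tendsto z U (𝓝 z0) → ∃ w0, Tendsto (fun k => (Φ k).φ (z k)) U (𝓝 w0)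

variable (𝒮 : LSys E M ι)

/-- The curve `σ` has at `t` a derivative within `s` which (in some chart) satisfies `P`
(`P = FT`: future timelike, `P = FC`: future causal). -/
def DerivIn (P : BF E → E → E → Prop) (σ : ℝ → M) (s : Set ℝ) (t : ℝ) : Prop :=
  ∃ i, σ t ∈ (𝒮.ch i).source ∧ ∃ v, HasDerivWithinAt (fun r => 𝒮.ch i (σ r)) v s t ∧
    P (𝒮.g i (𝒮.ch i (σ t))) (𝒮.T i (𝒮.ch i (σ t))) v

/-- Continuous curves on `[a,b]` with one-sided derivatives everywhere which satisfy `P`. -/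
structure IsCurve (P : BF E → E → E → Prop) (σ : ℝ → M) (a b : ℝ) : Prop where
  cont : ContinuousOn σ (Icc a b)
  right : ∀ t ∈ Ico a b, DerivIn 𝒮 P σ (Ici t) t
  left : ∀ t ∈ Ioc a b, DerivIn 𝒮 P σ (Iic t) t

/-- chronology relation `x ≪ y` -/
def tl (x y : M) : Prop := ∃ σ : ℝ → M, IsCurve 𝒮 FT σ 0 1 ∧ σ 0 = x ∧ σ 1 = y

/-- the closed relation `x ≤ y` -/
def le (x y : M) : Prop := (∀ u, tl 𝒮 u x → tl 𝒮 u y) ∧ ∀ v, tl 𝒮 y v → tl 𝒮 x v

/-- chronology and no observer horizons, in the form used in the proof -/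
structure Noh : Prop where
  chr : ∀ x, ¬ tl 𝒮 x x
  noh : ∀ z : ℤ → M, (∀ i, tl 𝒮 (z i) (z (i + 1))) → (¬ ∃ p, Tendsto z atTop (𝓝 p)) →
    (¬ ∃ p, Tendsto z atBot (𝓝 p)) → ∀ q, (∃ i, tl 𝒮 q (z i)) ∧ ∃ i, tl 𝒮 (z i) q

/-- The reversed time orientation. -/
def LSys.rev (𝒮 : LSys E M ι) : LSys E M ι where
  ch := 𝒮.ch
  g := 𝒮.g
  T := fun i y => - 𝒮.T i y
  cover := 𝒮.cover
  met := 𝒮.met
  contT := fun i => (𝒮.contT i).neg
  lor := fun i y hy =>
    ⟨(𝒮.lor i y hy).symm, by simpa using (𝒮.lor i y hy).neg, fun v hv h0 =>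
      (𝒮.lor i y hy).pos v hv (by simpa using h0)⟩
  trans := 𝒮.trans
  orient := fun i j y hy => by simpa using 𝒮.orient i j y hy

end Pool.Agent.EG
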