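import Pool.Agent.Lib.MP_eeed5f_gt.Pub
import Pool.Agent.Lib.MP_eeed5f_gt.S0
import Pool.Agent.Lib.MP_eeed5f_gt.A1
import Pool.Agent.Lib.MP_eeed5f_gt.S1
import Pool.Agent.Lib.MP_eeed5f_gt.D1

section M_BR1

/-!
Row ec-BR1 (charts of the maximal atlas; bridge, part 1).
A chart e of the maximal atlas is MDifferentiable (see `gs_mdiff` in Pool/Agent/Lib/MP_f72ae4_gt/GeoSmooth.lean: contMDiffOn_of_mem_maximalAtlas,
contMDiffOn_symm_of_mem_maximalAtlas); `e.MDifferentiable.comp_symm_deriv` / `symm_comp_deriv` give that chartD e y and mfderiv e (e.symm y) are mutually inverse.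
`rep_mfderiv`: rep e e' φ = e' ∘ φ ∘ e.symm near y, chain rule `mfderiv_comp`, `mfderiv_eq_fderiv`.
`chartD_rep`: apply chartD e' (inverse of mfderiv e').
`coordForm_apply'`: unfold.  `coordForm_rep`: combine.
-/

open scoped Manifold ContDiff Topology
open Set Filter

noncomputable section

set_option linter.unusedSectionVars false
set_option maxSynthPendingDepth 3

namespace Pool.Agent.EG

open Pool.Agent.NOHS

variable {m : ℕ} {M : Type*} [TopologicalSpace M] [ChartedSpace (Euc m) M]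
  [IsManifold 𝓘(ℝ, Euc m) ∞ M]

theorem chart_md {e : OpenPartialHomeomorph M (Euc m)}
    (he : e ∈ IsManifold.maximalAtlas 𝓘(ℝ, Euc m) ∞ M) :
    e.MDifferentiable 𝓘(ℝ, Euc m) 𝓘(ℝ, Euc m) :=
  ⟨(contMDiffOn_of_mem_maximalAtlas he).mdifferentiableOn (by simp),
    (contMDiffOn_symm_of_mem_maximalAtlas he).mdifferentiableOn (by simp)⟩

theorem chartD_inv {e : OpenPartialHomeomorph M (Euc m)}
    (he : e ∈ IsManifold.maximalAtlas 𝓘(ℝ, Euc m) ∞ M) {y : Euc m} (hy : y ∈ e.target) (v : Euc m) :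
    mfderiv 𝓘(ℝ, Euc m) 𝓘(ℝ, Euc m) e (e.symm y) (chartD e y v) = v := by
  have h1 := (chart_md he).comp_symm_deriv hy
  exact DFunLike.congr_fun h1 v

theorem chartD_inv' {e : OpenPartialHomeomorph M (Euc m)}
    (he : e ∈ IsManifold.maximalAtlas 𝓘(ℝ, Euc m) ∞ M) {y : Euc m} (hy : y ∈ e.target)
    (v : TangentSpace 𝓘(ℝ, Euc m) (e.symm y)) :
    chartD e y (mfderiv 𝓘(ℝ, Euc m) 𝓘(ℝ, Euc m) e (e.symm y) v) = v := by
  have h1 := (chart_md he).symm_comp_deriv (e.map_target hy)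
  have h2 := DFunLike.congr_fun h1 v
  have h3 : e (e.symm y) = y := e.right_inv hy
  have h4 : mfderiv 𝓘(ℝ, Euc m) 𝓘(ℝ, Euc m) e.symm (e (e.symm y))
      (mfderiv 𝓘(ℝ, Euc m) 𝓘(ℝ, Euc m) e (e.symm y) v) = v := h2
  rw [h3] at h4
  exact h4

theorem br1_rep_mdiff {e e' : OpenPartialHomeomorph M (Euc m)}
    (he : e ∈ IsManifold.maximalAtlas 𝓘(ℝ, Euc m) ∞ M)
    (he' : e' ∈ IsManifold.maximalAtlas 𝓘(ℝ, Euc m) ∞ M) {φ : M → M}
    (hφ : ContMDiff 𝓘(ℝ, Euc m) 𝓘(ℝ, Euc m) ∞ φ) {y : Euc m} (hy : y ∈ domR e e' φ) :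
    mfderiv 𝓘(ℝ, Euc m) 𝓘(ℝ, Euc m) (rep e e' φ) y
      = (mfderiv 𝓘(ℝ, Euc m) 𝓘(ℝ, Euc m) e' (φ (e.symm y))).comp
        ((mfderiv 𝓘(ℝ, Euc m) 𝓘(ℝ, Euc m) φ (e.symm y)).comp (chartD e y)) := by
  have h1 : MDifferentiableAt 𝓘(ℝ, Euc m) 𝓘(ℝ, Euc m) e.symm y :=
    (chart_md he).mdifferentiableAt_symm hy.1
  have h2 : MDifferentiableAt 𝓘(ℝ, Euc m) 𝓘(ℝ, Euc m) φ (e.symm y) :=
    (hφ.mdifferentiable (by simp)) _
  have h3 : MDifferentiableAt 𝓘(ℝ, Euc m) 𝓘(ℝ, Euc m) e' (φ (e.symm y)) :=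
    (chart_md he').mdifferentiableAt hy.2
  have h4 : mfderiv 𝓘(ℝ, Euc m) 𝓘(ℝ, Euc m) (φ ∘ e.symm) y
      = (mfderiv 𝓘(ℝ, Euc m) 𝓘(ℝ, Euc m) φ (e.symm y)).comp
        (mfderiv 𝓘(ℝ, Euc m) 𝓘(ℝ, Euc m) e.symm y) := mfderiv_comp y h2 h1
  have h5 : mfderiv 𝓘(ℝ, Euc m) 𝓘(ℝ, Euc m) (e' ∘ (φ ∘ e.symm)) y
      = (mfderiv 𝓘(ℝ, Euc m) 𝓘(ℝ, Euc m) e' ((φ ∘ e.symm) y)).comp
        (mfderiv 𝓘(ℝ, Euc m) 𝓘(ℝ, Euc m) (φ ∘ e.symm) y) :=
    mfderiv_comp y h3 (h2.comp y h1)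
  rw [h4] at h5
  exact h5

theorem rep_mfderiv {e e' : OpenPartialHomeomorph M (Euc m)}
    (he : e ∈ IsManifold.maximalAtlas 𝓘(ℝ, Euc m) ∞ M)
    (he' : e' ∈ IsManifold.maximalAtlas 𝓘(ℝ, Euc m) ∞ M) {φ : M → M}
    (hφ : ContMDiff 𝓘(ℝ, Euc m) 𝓘(ℝ, Euc m) ∞ φ) {y : Euc m} (hy : y ∈ domR e e' φ) (v : Euc m) :
    fderiv ℝ (rep e e' φ) y v = mfderiv 𝓘(ℝ, Euc m) 𝓘(ℝ, Euc m) e' (φ (e.symm y))
      (mfderiv 𝓘(ℝ, Euc m) 𝓘(ℝ, Euc m) φ (e.symm y) (chartD e y v)) := by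
  have h1 := br1_rep_mdiff he he' hφ hy
  rw [mfderiv_eq_fderiv] at h1
  exact DFunLike.congr_fun h1 v

theorem rep_smooth {e e' : OpenPartialHomeomorph M (Euc m)}
    (he : e ∈ IsManifold.maximalAtlas 𝓘(ℝ, Euc m) ∞ M)
    (he' : e' ∈ IsManifold.maximalAtlas 𝓘(ℝ, Euc m) ∞ M) {φ : M → M}
    (hφ : ContMDiff 𝓘(ℝ, Euc m) 𝓘(ℝ, Euc m) ∞ φ) :
    IsOpen (domR e e' φ) ∧ ContDiffOn ℝ ∞ (rep e e' φ) (domR e e' φ) := by
  constructor
  · have h1 : ContinuousOn (fun y => φ (e.symm y)) e.target :=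
      hφ.continuous.comp_continuousOn e.continuousOn_symm
    exact h1.isOpen_inter_preimage e.open_target e'.open_source
  · have h1 : ContMDiffOn 𝓘(ℝ, Euc m) 𝓘(ℝ, Euc m) ∞ (e' ∘ (φ ∘ e.symm)) (domR e e' φ) := by
      refine (contMDiffOn_of_mem_maximalAtlas he').comp
        (hφ.comp_contMDiffOn ((contMDiffOn_symm_of_mem_maximalAtlas he).mono fun y hy => hy.1))
        (fun y hy => hy.2)
    exact contMDiffOn_iff_contDiffOn.1 h1

/-- metric at the image in the target chart -/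
theorem coordForm_rep (S : Spacetime m M) {e e' : OpenPartialHomeomorph M (Euc m)}
    (he : e ∈ IsManifold.maximalAtlas 𝓘(ℝ, Euc m) ∞ M)
    (he' : e' ∈ IsManifold.maximalAtlas 𝓘(ℝ, Euc m) ∞ M) {φ : M → M}
    (hφ : ContMDiff 𝓘(ℝ, Euc m) 𝓘(ℝ, Euc m) ∞ φ) {y : Euc m} (hy : y ∈ domR e e' φ) (u v : Euc m) :
    coordForm S.g e' (rep e e' φ y) (fderiv ℝ (rep e e' φ) y u) (fderiv ℝ (rep e e' φ) y v)
      = S.g (φ (e.symm y)) (mfderiv 𝓘(ℝ, Euc m) 𝓘(ℝ, Euc m) φ (e.symm y) (chartD e y u))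
          (mfderiv 𝓘(ℝ, Euc m) 𝓘(ℝ, Euc m) φ (e.symm y) (chartD e y v)) := by
  have hsrc : φ (e.symm y) ∈ e'.source := hy.2
  have hz : rep e e' φ y ∈ e'.target := e'.map_source hsrc
  have hzs : e'.symm (rep e e' φ y) = φ (e.symm y) := e'.left_inv hsrc
  have h2 : ∀ (p : M) (_ : e'.symm (rep e e' φ y) = p) (a b : TangentSpace 𝓘(ℝ, Euc m) p),
      S.g (e'.symm (rep e e' φ y))
        (chartD e' (rep e e' φ y) (mfderiv 𝓘(ℝ, Euc m) 𝓘(ℝ, Euc m) e' p a))
        (chartD e' (rep e e' φ y) (mfderiv 𝓘(ℝ, Euc m) 𝓘(ℝ, Euc m) e' p b)) = S.g p a b := by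
    rintro p rfl a b
    rw [chartD_inv' he' hz, chartD_inv' he' hz]
  have h3 := h2 _ hzs (mfderiv 𝓘(ℝ, Euc m) 𝓘(ℝ, Euc m) φ (e.symm y) (chartD e y u))
    (mfderiv 𝓘(ℝ, Euc m) 𝓘(ℝ, Euc m) φ (e.symm y) (chartD e y v))
  rw [rep_mfderiv he he' hφ hy, rep_mfderiv he he' hφ hy]
  exact h3

/-- the time orientation at the image in the target chart -/
theorem coordForm_rep_T (S : Spacetime m M) {e e' : OpenPartialHomeomorph M (Euc m)}
    (he : e ∈ IsManifold.maximalAtlas 𝓘(ℝ, Euc m) ∞ M)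
    (he' : e' ∈ IsManifold.maximalAtlas 𝓘(ℝ, Euc m) ∞ M) {φ : M → M}
    (hφ : ContMDiff 𝓘(ℝ, Euc m) 𝓘(ℝ, Euc m) ∞ φ) {y : Euc m} (hy : y ∈ domR e e' φ) (u : Euc m) :
    coordForm S.g e' (rep e e' φ y) (coordVec S.T e' (rep e e' φ y)) (fderiv ℝ (rep e e' φ) y u)
      = S.g (φ (e.symm y)) (S.T (φ (e.symm y)))
          (mfderiv 𝓘(ℝ, Euc m) 𝓘(ℝ, Euc m) φ (e.symm y) (chartD e y u)) := by
  have hsrc : φ (e.symm y) ∈ e'.source := hy.2
  have hz : rep e e' φ y ∈ e'.target := e'.map_source hsrc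
  have hzs : e'.symm (rep e e' φ y) = φ (e.symm y) := e'.left_inv hsrc
  have h2 : ∀ (p : M) (_ : e'.symm (rep e e' φ y) = p) (b : TangentSpace 𝓘(ℝ, Euc m) p),
      S.g (e'.symm (rep e e' φ y))
        (chartD e' (rep e e' φ y) (coordVec S.T e' (rep e e' φ y)))
        (chartD e' (rep e e' φ y) (mfderiv 𝓘(ℝ, Euc m) 𝓘(ℝ, Euc m) e' p b)) = S.g p (S.T p) b := by
    rintro p rfl b
    rw [chartD_inv' he' hz]
    unfold coordVec
    rw [chartD_inv' he' hz]
  have h3 := h2 _ hzs (mfderiv 𝓘(ℝ, Euc m) 𝓘(ℝ, Euc m) φ (e.symm y) (chartD e y u))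
  rw [rep_mfderiv he he' hφ hy]
  exact h3

theorem chartD_coordVec (S : Spacetime m M) {e : OpenPartialHomeomorph M (Euc m)}
    (he : e ∈ IsManifold.maximalAtlas 𝓘(ℝ, Euc m) ∞ M) {y : Euc m} (hy : y ∈ e.target) :
    chartD e y (coordVec S.T e y) = S.T (e.symm y) := by
  unfold coordVec
  exact chartD_inv' he hy _

end Pool.Agent.EG

end

end M_BR1

section M_BR2

/-!
Row ec-BR2 (the chart system of a spacetime; bridge, part 2).
-/

open scoped Manifold ContDiff Topology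
open Set Filter

noncomputable section

set_option linter.unusedSectionVars false
set_option maxSynthPendingDepth 3

namespace Pool.Agent.EG

open Pool.Agent.NOHS

variable {m : ℕ} {M : Type*} [TopologicalSpace M] [ChartedSpace (Euc m) M]
  [IsManifold 𝓘(ℝ, Euc m) ∞ M]

theorem br2_apply (S : Spacetime m M) (e : OpenPartialHomeomorph M (Euc m)) (y u v : Euc m) :
    coordForm S.g e y u v = S.g (e.symm y) (chartD e y u) (chartD e y v) := rfl

theorem br2_T (S : Spacetime m M) {e : OpenPartialHomeomorph M (Euc m)}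
    (he : e ∈ IsManifold.maximalAtlas 𝓘(ℝ, Euc m) ∞ M) {y : Euc m} (hy : y ∈ e.target) (v : Euc m) :
    coordForm S.g e y (coordVec S.T e y) v = S.g (e.symm y) (S.T (e.symm y)) (chartD e y v) := by
  rw [br2_apply, chartD_coordVec S he hy]

theorem br2_inj {e : OpenPartialHomeomorph M (Euc m)}
    (he : e ∈ IsManifold.maximalAtlas 𝓘(ℝ, Euc m) ∞ M) {y : Euc m} (hy : y ∈ e.target) {v : Euc m}
    (h : chartD e y v = 0) : v = 0 := by
  have h1 := chartD_inv he hy v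
  rw [h, map_zero] at h1
  exact h1.symm

theorem lor_coord (S : Spacetime m M) {e : OpenPartialHomeomorph M (Euc m)}
    (he : e ∈ IsManifold.maximalAtlas 𝓘(ℝ, Euc m) ∞ M) {y : Euc m} (hy : y ∈ e.target) :
    IsLor (coordForm S.g e y) (coordVec S.T e y) where
  symm u v := by
    rw [br2_apply, br2_apply, S.symm]
  neg := by
    rw [br2_T S he hy, chartD_coordVec S he hy]
    exact S.timelike _
  pos v hv h0 := by
    rw [br2_T S he hy] at h0
    rw [br2_apply]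
    exact S.lorentz _ _ (fun h => hv (br2_inj he hy h)) h0

theorem met_coord (S : Spacetime m M) {e : OpenPartialHomeomorph M (Euc m)}
    (he : e ∈ IsManifold.maximalAtlas 𝓘(ℝ, Euc m) ∞ M) : IsMet e.target (coordForm S.g e) where
  isOpen := e.open_target
  smooth := S.smooth_g e he
  symm y hy u v := (lor_coord S he hy).symm u v
  nondeg y hy u h := by
    by_contra hu
    have hl := lor_coord S he hy
    have h1 : coordForm S.g e y (coordVec S.T e y) u = 0 := by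
      rw [hl.symm]; exact h _
    have h2 := hl.pos u hu h1
    rw [h u] at h2
    exact lt_irrefl _ h2

theorem isLC_of_conf (S : Spacetime m M) {φ : M → M}
    (hφ : ContMDiff 𝓘(ℝ, Euc m) 𝓘(ℝ, Euc m) ∞ φ) {Ω : M → ℝ}
    (hΩ : ContMDiff 𝓘(ℝ, Euc m) 𝓘(ℝ, ℝ) ∞ Ω) (hpos : ∀ x, 0 < Ω x)
    (hconf : ∀ x u v, S.g (φ x) (mfderiv 𝓘(ℝ, Euc m) 𝓘(ℝ, Euc m) φ x u)
      (mfderiv 𝓘(ℝ, Euc m) 𝓘(ℝ, Euc m) φ x v) = Ω x * S.g x u v)
    {e e' : OpenPartialHomeomorph M (Euc m)}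
    (he : e ∈ IsManifold.maximalAtlas 𝓘(ℝ, Euc m) ∞ M)
    (he' : e' ∈ IsManifold.maximalAtlas 𝓘(ℝ, Euc m) ∞ M) :
    IsLC e.target (coordForm S.g e) e'.target (coordForm S.g e') (domR e e' φ) (rep e e' φ)
      (fun y => Real.sqrt (Ω (e.symm y))) where
  met := met_coord S he
  met' := met_coord S he'
  isOpen := (rep_smooth he he' hφ).1
  sub := inter_subset_left
  maps := fun y hy => e'.map_source hy.2
  smooth_f := (rep_smooth he he' hφ).2
  smooth_c := by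
    have h1 : ContMDiffOn 𝓘(ℝ, Euc m) 𝓘(ℝ, ℝ) ∞ (fun y => Ω (e.symm y)) (domR e e' φ) :=
      hΩ.comp_contMDiffOn ((contMDiffOn_symm_of_mem_maximalAtlas he).mono fun y hy => hy.1)
    have h2 : ContDiffOn ℝ ∞ (fun y => Ω (e.symm y)) (domR e e' φ) := contMDiffOn_iff_contDiffOn.1 h1
    exact h2.sqrt fun y _ => (hpos _).ne'
  pos := fun y _ => Real.sqrt_pos.2 (hpos _)
  conf := fun y hy u v => by
    rw [coordForm_rep S he he' hφ hy, hconf, Real.sq_sqrt (hpos _).le, br2_apply]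

theorem br2_id_iso (S : Spacetime m M) (x : M) (u v : TangentSpace 𝓘(ℝ, Euc m) x) :
    S.g (id x) (mfderiv 𝓘(ℝ, Euc m) 𝓘(ℝ, Euc m) id x u)
      (mfderiv 𝓘(ℝ, Euc m) 𝓘(ℝ, Euc m) id x v) = (1 : ℝ) * S.g x u v := by
  rw [mfderiv_id, one_mul]
  rfl

/-- the chart system of a spacetime: all charts of the maximal atlas -/
def toSys (S : Spacetime m M) :
    LSys (Euc m) M {e : OpenPartialHomeomorph M (Euc m) // e ∈ IsManifold.maximalAtlas 𝓘(ℝ, Euc m) ∞ M} where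
  ch := fun e => e.1
  g := fun e => coordForm S.g e.1
  T := fun e => coordVec S.T e.1
  cover := fun x => ⟨⟨chartAt (Euc m) x, IsManifold.chart_mem_maximalAtlas x⟩, mem_chart_source _ x⟩
  met := fun e => met_coord S e.2
  contT := fun e => (S.smooth_T e.1 e.2).continuousOn
  lor := fun e y hy => lor_coord S e.2 hy
  trans := fun e e' => by
    have h := isLC_of_conf S (φ := id) contMDiff_id (Ω := fun _ => 1) contMDiff_const
      (fun _ => one_pos) (br2_id_iso S) e.2 e'.2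
    simpa using h
  orient := fun e e' y hy => by
    rw [coordForm_rep_T S e.2 e'.2 contMDiff_id hy, mfderiv_id, chartD_coordVec S e.2 hy.1]
    exact S.timelike _

theorem isCf_of_confUp (S : Spacetime m M) {φ : M ≃ₘ⟮𝓘(ℝ, Euc m), 𝓘(ℝ, Euc m)⟯ M}
    (hφ : ConfUp S φ) : ∃ c : M → ℝ, IsCf (toSys S) φ.toHomeomorph c ∧ ∀ x u v,
      S.g (φ x) (mfderiv 𝓘(ℝ, Euc m) 𝓘(ℝ, Euc m) φ x u) (mfderiv 𝓘(ℝ, Euc m) 𝓘(ℝ, Euc m) φ x v)
        = c x ^ 2 * S.g x u v := by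
  obtain ⟨⟨Ω, hΩ, hpos, hconf⟩, hT⟩ := hφ
  refine ⟨fun x => Real.sqrt (Ω x), ⟨?_, ?_⟩, ?_⟩
  · intro e e'
    exact isLC_of_conf S φ.contMDiff hΩ hpos hconf e.2 e'.2
  · intro e e' y hy
    have h1 := coordForm_rep_T S e.2 e'.2 (φ := φ) φ.contMDiff hy (coordVec S.T e.1 y)
    rw [chartD_coordVec S e.2 hy.1] at h1
    have h2 : FutureCausal S (e.1.symm y) (S.T (e.1.symm y)) := ⟨(S.timelike _).le, S.timelike _⟩
    have h3 := (hT _ _ h2).2
    rw [← h1] at h3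
    exact h3
  · intro x u v
    rw [hconf, Real.sq_sqrt (hpos _).le]

end Pool.Agent.EG

end

end M_BR2

section M_BR0

/-!
Row ec-BR0 (a conformal coordinate map gives a chart of the maximal atlas).
At y0 the inverse function theorem (`ContDiffAt.toOpenPartialHomeomorph` or `HasStrictFDerivAt.toOpenPartialHomeomorph`) gives a local homeomorphism Ψ with Ψ = Φ on its source ∋ y0; restrict the
source to the ball (open): `OpenPartialHomeomorph.restr`/`restrOpen`.  Its inverse is smooth at every point of the target (`OpenPartialHomeomorph.contDiffAt_symm`, derivative of Φ bijective on the ball).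
So Ψ ∈ contDiffGroupoid ∞ and e' = e.trans Ψ (e ≫ₕ Ψ) is in the maximal atlas (`StructureGroupoid.compatible_of_mem_maximalAtlas`, `closedUnderRestriction`, or `contDiffGroupoid`-membership of the transitions
with all charts: compositions; see `IsManifold.maximalAtlas`, `StructureGroupoid.mem_maximalAtlas_of_...`).
coordForm S.g e' y = coordForm S.g e (z) (DΨ⁻¹ u, DΨ⁻¹ v), z = Ψ.symm y: `coordForm_rep` with φ = id for the charts e, e' (rep e e' id = Φ near z, DΦ surjective):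
coordForm S.g e' (Φ z) (DΦ u') (DΦ v') = coordForm S.g e z u' v' (unfold) = l z mink (DΦ u') (DΦ v').  l' = l ∘ Ψ.symm.
-/

open scoped Manifold ContDiff Topology
open Set Filter

noncomputable section

set_option linter.unusedSectionVars false
set_option maxSynthPendingDepth 3

namespace Pool.Agent.EG

open Pool.Agent.NOHS

variable {m : ℕ} {M : Type*} [TopologicalSpace M] [ChartedSpace (Euc m) M]
  [IsManifold 𝓘(ℝ, Euc m) ∞ M]

theorem br0_inv {V : Type*} [NormedAddCommGroup V] [NormedSpace ℝ V] [FiniteDimensional ℝ V] {L : V →L[ℝ] V}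
    (hL : Function.Bijective L) : ∃ L' : V ≃L[ℝ] V, (L' : V →L[ℝ] V) = L := by
  refine ⟨(LinearEquiv.ofBijective L.toLinearMap hL).toContinuousLinearEquiv, ?_⟩
  ext v
  rfl

/-- composition of a chart of the maximal atlas with a smooth coordinate change -/
theorem br0_atlas {V : Type*} [NormedAddCommGroup V] [NormedSpace ℝ V] {M : Type*} [TopologicalSpace M]
    [ChartedSpace V M] {e : OpenPartialHomeomorph M V} {Ψ : OpenPartialHomeomorph V V}
    (he : e ∈ IsManifold.maximalAtlas 𝓘(ℝ, V) ∞ M) (h1 : ContDiffOn ℝ ∞ Ψ Ψ.source)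
    (h2 : ContDiffOn ℝ ∞ Ψ.symm Ψ.target) : e.trans Ψ ∈ IsManifold.maximalAtlas 𝓘(ℝ, V) ∞ M := by
  have hΨ : Ψ ∈ contDiffGroupoid ∞ 𝓘(ℝ, V) := by
    rw [contDiffGroupoid, mem_groupoid_of_pregroupoid, contDiffPregroupoid]
    constructor
    · simpa using h1
    · simpa using h2
  intro e' he'
  have h3 := he e' he'
  constructor
  · rw [OpenPartialHomeomorph.trans_symm_eq_symm_trans_symm, OpenPartialHomeomorph.trans_assoc]
    exact StructureGroupoid.trans _ (StructureGroupoid.symm _ hΨ) h3.1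
  · rw [← OpenPartialHomeomorph.trans_assoc]
    exact StructureGroupoid.trans _ h3.2 hΨ

theorem chart_of_local {n : ℕ} {M : Type*} [TopologicalSpace M] [ChartedSpace (Euc (n + 1)) M]
    [IsManifold 𝓘(ℝ, Euc (n + 1)) ∞ M] (S : Spacetime (n + 1) M)
    {e : OpenPartialHomeomorph M (Euc (n + 1))} (he : e ∈ IsManifold.maximalAtlas 𝓘(ℝ, Euc (n + 1)) ∞ M)
    {y0 : Euc (n + 1)} {r : ℝ} (hr : 0 < r) (hball : Metric.ball y0 r ⊆ e.target)
    {Φ : Euc (n + 1) → Euc (n + 1)} {l : Euc (n + 1) → ℝ} (hΦ : ContDiffOn ℝ ∞ Φ (Metric.ball y0 r))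
    (hl : ContDiffOn ℝ ∞ l (Metric.ball y0 r))
    (h : ∀ y ∈ Metric.ball y0 r, 0 < l y ∧ Function.Bijective (fderiv ℝ Φ y) ∧ ∀ u v,
      coordForm S.g e y u v = l y * mink (fderiv ℝ Φ y u) (fderiv ℝ Φ y v)) :
    ∃ e' ∈ IsManifold.maximalAtlas 𝓘(ℝ, Euc (n + 1)) ∞ M, e.symm y0 ∈ e'.source ∧
      ∃ l' : Euc (n + 1) → ℝ, ContDiffOn ℝ ∞ l' e'.target ∧ ∀ y ∈ e'.target, 0 < l' y ∧
        ∀ u v, coordForm S.g e' y u v = l' y * mink u v := by
  have hy0 : y0 ∈ Metric.ball y0 r := Metric.mem_ball_self hr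
  have hcd : ∀ z ∈ Metric.ball y0 r, ContDiffAt ℝ ∞ Φ z := fun z hz =>
    hΦ.contDiffAt (Metric.isOpen_ball.mem_nhds hz)
  have hne : (∞ : WithTop ℕ∞) ≠ 0 := by simp
  have hdiff : ∀ z ∈ Metric.ball y0 r, DifferentiableAt ℝ Φ z := fun z hz =>
    (hcd z hz).differentiableAt hne
  -- the inverse function theorem at y0
  obtain ⟨L0, hL0⟩ := br0_inv (h y0 hy0).2.1
  have hF0 : HasFDerivAt Φ (L0 : Euc (n + 1) →L[ℝ] Euc (n + 1)) y0 := by
    rw [hL0]
    exact (hdiff y0 hy0).hasFDerivAt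
  set Ψ0 := (hcd y0 hy0).toOpenPartialHomeomorph Φ hF0 hne with hΨ0
  have hΨ0c : (Ψ0 : Euc (n + 1) → Euc (n + 1)) = Φ := rfl
  have hΨ0m : y0 ∈ Ψ0.source := (hcd y0 hy0).mem_toOpenPartialHomeomorph_source hF0 hne
  set Ψ := Ψ0.restrOpen (Metric.ball y0 r) Metric.isOpen_ball with hΨ
  have hΨc : (Ψ : Euc (n + 1) → Euc (n + 1)) = Φ := rfl
  have hΨs : Ψ.source = Ψ0.source ∩ Metric.ball y0 r := Ψ0.restrOpen_source _ _
  have hΨm : y0 ∈ Ψ.source := by
    rw [hΨs]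
    exact ⟨hΨ0m, hy0⟩
  have hsub : Ψ.source ⊆ Metric.ball y0 r := by
    rw [hΨs]
    exact inter_subset_right
  have hsm : ContDiffOn ℝ ∞ Ψ Ψ.source := hΦ.mono hsub
  have hsm' : ContDiffOn ℝ ∞ Ψ.symm Ψ.target := by
    intro a ha
    have hz : Ψ.symm a ∈ Metric.ball y0 r := hsub (Ψ.map_target ha)
    obtain ⟨L, hL⟩ := br0_inv (h _ hz).2.1
    have hF : HasFDerivAt Ψ (L : Euc (n + 1) →L[ℝ] Euc (n + 1)) (Ψ.symm a) := by
      rw [hL]
      exact (hdiff _ hz).hasFDerivAt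
    exact (Ψ.contDiffAt_symm ha hF (hcd _ hz)).contDiffWithinAt
  have he' : e.trans Ψ ∈ IsManifold.maximalAtlas 𝓘(ℝ, Euc (n + 1)) ∞ M := br0_atlas he hsm hsm'
  refine ⟨e.trans Ψ, he', ?_, fun y => l (Ψ.symm y), ?_, ?_⟩
  · rw [OpenPartialHomeomorph.trans_source]
    refine ⟨e.map_target (hball hy0), ?_⟩
    rw [mem_preimage, e.right_inv (hball hy0)]
    exact hΨm
  · refine hl.comp (hsm'.mono ?_) ?_
    · rw [OpenPartialHomeomorph.trans_target]
      exact inter_subset_left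
    · intro y hy
      rw [OpenPartialHomeomorph.trans_target] at hy
      exact hsub (Ψ.map_target hy.1)
  · intro y hy
    rw [OpenPartialHomeomorph.trans_target] at hy
    have hz : Ψ.symm y ∈ Ψ.source := Ψ.map_target hy.1
    have hzb : Ψ.symm y ∈ Metric.ball y0 r := hsub hz
    have hzt : Ψ.symm y ∈ e.target := hy.2
    set z := Ψ.symm y with hzdef
    have hΦz : Φ z = y := Ψ.right_inv hy.1
    refine ⟨(h z hzb).1, fun u v => ?_⟩
    obtain ⟨u', hu'⟩ := (h z hzb).2.1.2 u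
    obtain ⟨v', hv'⟩ := (h z hzb).2.1.2 v
    have hdom : z ∈ domR e (e.trans Ψ) id := by
      refine ⟨hzt, ?_⟩
      change e.symm z ∈ (e.trans Ψ).source
      rw [OpenPartialHomeomorph.trans_source]
      refine ⟨e.map_target hzt, ?_⟩
      rw [mem_preimage, e.right_inv hzt]
      exact hz
    have hrep : rep e (e.trans Ψ) id =ᶠ[𝓝 z] Φ := by
      filter_upwards [e.open_target.mem_nhds hzt] with z' hz'
      change Φ (e (e.symm z')) = Φ z'
      rw [e.right_inv hz']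
    have hfd : fderiv ℝ (rep e (e.trans Ψ) id) z = fderiv ℝ Φ z := hrep.fderiv_eq
    have hval : rep e (e.trans Ψ) id z = y := by
      rw [hrep.eq_of_nhds, hΦz]
    have key := coordForm_rep S he he' (φ := id) contMDiff_id hdom u' v'
    rw [hfd, hval, hu', hv'] at key
    rw [key, ← hu', ← hv', ← (h z hzb).2.2 u' v']
    have hid : mfderiv 𝓘(ℝ, Euc (n + 1)) 𝓘(ℝ, Euc (n + 1)) (id : M → M) (e.symm z) =
        ContinuousLinearMap.id ℝ _ := mfderiv_id
    rw [hid]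
    rfl

end Pool.Agent.EG

end

end M_BR0

section M_BR7

/-!
Row ec-BR7 (an invariant conformal factor makes the group inessential; bridge, part 7).
Ω := F; smooth: F ∘ e.symm smooth on e.target for all charts of the maximal atlas ⇒ ContMDiff (contMDiff_iff or pointwise with chartAt).
(⇒) φ ∈ ConfUp: `isCf_of_confUp` gives c with IsCf, g(dφ,dφ) = c² g, and F(φx) c² = F(x): F(φx) g(dφu,dφv) = F(φx)c² g(u,v) = F(x) g(u,v).
(⇐) φ ∈ IsomUp F: g(dφ,dφ) = (F(x)/F(φx)) g, the quotient is smooth and positive.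
-/

open scoped Manifold ContDiff Topology
open Set Filter

noncomputable section

set_option linter.unusedSectionVars false
set_option maxSynthPendingDepth 3

namespace Pool.Agent.EG

open Pool.Agent.NOHS

variable {m : ℕ} {M : Type*} [TopologicalSpace M] [ChartedSpace (Euc m) M]
  [IsManifold 𝓘(ℝ, Euc m) ∞ M]

/-- a function which is smooth in every chart is smooth -/
theorem br7_smooth {F : M → ℝ}
    (hsm : ∀ e ∈ IsManifold.maximalAtlas 𝓘(ℝ, Euc m) ∞ M, ContDiffOn ℝ ∞ (fun y => F (e.symm y)) e.target) :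
    ContMDiff 𝓘(ℝ, Euc m) 𝓘(ℝ, ℝ) ∞ F := by
  intro x
  have he : chartAt (Euc m) x ∈ IsManifold.maximalAtlas 𝓘(ℝ, Euc m) ∞ M :=
    IsManifold.chart_mem_maximalAtlas x
  have h1 : ContMDiffOn 𝓘(ℝ, Euc m) 𝓘(ℝ, ℝ) ∞ (fun y => F ((chartAt (Euc m) x).symm y))
      (chartAt (Euc m) x).target := contMDiffOn_iff_contDiffOn.2 (hsm _ he)
  have h2 : ContMDiffOn 𝓘(ℝ, Euc m) 𝓘(ℝ, Euc m) ∞ (chartAt (Euc m) x) (chartAt (Euc m) x).source :=
    contMDiffOn_of_mem_maximalAtlas he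
  have h3 := h1.comp h2 (fun y hy => (chartAt (Euc m) x).map_source hy)
  have h4 : ContMDiffOn 𝓘(ℝ, Euc m) 𝓘(ℝ, ℝ) ∞ F (chartAt (Euc m) x).source := by
    refine h3.congr fun y hy => ?_
    show F y = F ((chartAt (Euc m) x).symm (chartAt (Euc m) x y))
    rw [(chartAt (Euc m) x).left_inv hy]
  exact h4.contMDiffAt ((chartAt (Euc m) x).open_source.mem_nhds (mem_chart_source _ x))

theorem inessential_of (S : Spacetime m M) {F : M → ℝ} (hpos : ∀ x, 0 < F x)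
    (hsm : ∀ e ∈ IsManifold.maximalAtlas 𝓘(ℝ, Euc m) ∞ M, ContDiffOn ℝ ∞ (fun y => F (e.symm y)) e.target)
    (hinv : ∀ Φ : Cf (toSys S), ∀ x, F (Φ.φ x) * Φ.c x ^ 2 = F x) : ¬ Essential S := by
  intro hE
  apply hE
  have hF := br7_smooth hsm
  refine ⟨F, hF, hpos, fun φ => ⟨fun hφ => ?_, fun hφ => ?_⟩⟩
  · obtain ⟨c, hc, hconf⟩ := isCf_of_confUp S hφ
    refine ⟨fun x u v => ?_, hφ.2⟩
    have h1 := hinv ⟨φ.toHomeomorph, c, hc⟩ x
    have h2 : F (φ x) * c x ^ 2 = F x := h1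
    rw [hconf, ← mul_assoc, h2]
  · refine ⟨⟨fun x => F x / F (φ x), hF.div₀ (hF.comp φ.contMDiff) fun x => (hpos _).ne',
      fun x => div_pos (hpos _) (hpos _), fun x u v => ?_⟩, hφ.2⟩
    have h1 := hφ.1 x u v
    rw [div_mul_eq_mul_div, eq_div_iff (hpos _).ne', mul_comm]
    exact h1

end Pool.Agent.EG

end

end M_BR7

section M_DD1

/-!
Row ec-DD1 (dimension 1).  n = 0: mink u v = -u₀v₀.  In the chart e = chartAt x: coordForm S.g e y u v = g(y)(1,1) u₀ v₀ (Euc 1 is one dimensional) and g(y)(1,1) < 0 (the timelike vector T has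
coordinates t·e₀, t ≠ 0, g(T,T) < 0).  l y := -coordForm S.g e y e₀ e₀, smooth and positive.
-/

open scoped Manifold ContDiff Topology
open Set Filter

noncomputable section

set_option linter.unusedSectionVars false
set_option maxSynthPendingDepth 3

namespace Pool.Agent.EG

open Pool.Agent.NOHS

variable {m : ℕ} {M : Type*} [TopologicalSpace M] [ChartedSpace (Euc m) M]
  [IsManifold 𝓘(ℝ, Euc m) ∞ M]

theorem dd1_aux_single (u : Euc (0 + 1)) : u = u 0 • EuclideanSpace.single (0 : Fin (0 + 1)) (1 : ℝ) := by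
  ext i
  have hi : i = 0 := Fin.ext (by have h1 := i.2; simp only [Fin.val_zero]; omega)
  subst hi
  simp

theorem dd1_aux_form (F : Euc (0 + 1) →L[ℝ] Euc (0 + 1) →L[ℝ] ℝ) (u v : Euc (0 + 1)) :
    F u v = u 0 * v 0 * F (EuclideanSpace.single (0 : Fin (0 + 1)) (1 : ℝ))
      (EuclideanSpace.single (0 : Fin (0 + 1)) (1 : ℝ)) := by
  conv_lhs => rw [dd1_aux_single u, dd1_aux_single v]
  rw [map_smul, map_smul, _root_.smul_apply, smul_eq_mul, smul_eq_mul]
  ring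

theorem flat_dim1 {M : Type*} [TopologicalSpace M] [ChartedSpace (Euc (0 + 1)) M]
    [IsManifold 𝓘(ℝ, Euc (0 + 1)) ∞ M] (S : Spacetime (0 + 1) M) : ConformallyFlat S := by
  intro x
  have he : chartAt (Euc (0 + 1)) x ∈ IsManifold.maximalAtlas 𝓘(ℝ, Euc (0 + 1)) ∞ M :=
    IsManifold.chart_mem_maximalAtlas x
  refine ⟨chartAt (Euc (0 + 1)) x, he, mem_chart_source _ x,
    fun y => - coordForm S.g (chartAt (Euc (0 + 1)) x) y
      (EuclideanSpace.single (0 : Fin (0 + 1)) (1 : ℝ))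
      (EuclideanSpace.single (0 : Fin (0 + 1)) (1 : ℝ)), ?_, fun y hy => ⟨?_, fun u v => ?_⟩⟩
  · exact (((S.smooth_g _ he).clm_apply contDiffOn_const).clm_apply contDiffOn_const).neg
  · have h1 : coordForm S.g (chartAt (Euc (0 + 1)) x) y (coordVec S.T (chartAt (Euc (0 + 1)) x) y)
        (coordVec S.T (chartAt (Euc (0 + 1)) x) y) < 0 := by
      have h2 : coordForm S.g (chartAt (Euc (0 + 1)) x) y
          (coordVec S.T (chartAt (Euc (0 + 1)) x) y) (coordVec S.T (chartAt (Euc (0 + 1)) x) y) =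
          S.g ((chartAt (Euc (0 + 1)) x).symm y)
            (chartD (chartAt (Euc (0 + 1)) x) y (coordVec S.T (chartAt (Euc (0 + 1)) x) y))
            (chartD (chartAt (Euc (0 + 1)) x) y (coordVec S.T (chartAt (Euc (0 + 1)) x) y)) := rfl
      rw [h2, chartD_coordVec S he hy]
      exact S.timelike _
    rw [dd1_aux_form] at h1
    have h3 : 0 ≤ coordVec S.T (chartAt (Euc (0 + 1)) x) y 0 *
        coordVec S.T (chartAt (Euc (0 + 1)) x) y 0 := mul_self_nonneg _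
    by_contra hneg
    have h4 : 0 ≤ coordForm S.g (chartAt (Euc (0 + 1)) x) y
        (EuclideanSpace.single (0 : Fin (0 + 1)) (1 : ℝ))
        (EuclideanSpace.single (0 : Fin (0 + 1)) (1 : ℝ)) := by
      have h5 := not_lt.1 hneg
      linarith
    have h6 := mul_nonneg h3 h4
    linarith
  · rw [dd1_aux_form (coordForm S.g (chartAt (Euc (0 + 1)) x) y) u v]
    simp only [mink, Finset.univ_eq_empty, Finset.sum_empty, add_zero]
    ring

end Pool.Agent.EG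

end

end M_DD1

section M_DD5

/-!
Row ec-DD5 (dimension 2).  chart e = chartAt x, E = Euc 2; `flat2_local` for g = coordForm S.g e, T = coordVec S.T e; Φ(y) = (u y, v y) ∈ Euc 2 (EuclideanSpace vector with coordinates u, v) is smooth
with bijective derivative (g nondegenerate: DΦ Z = 0 implies g(Z,·) = 0).  Apply `chart_of_local` (BR0).  (mink for n = 1: -(u 0 * v 0) + u 1 * v 1.)
-/

open scoped Manifold ContDiff Topology
open Set Filter

noncomputable section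

set_option linter.unusedSectionVars false
set_option maxSynthPendingDepth 3

namespace Pool.Agent.EG

open Pool.Agent.NOHS

variable {m : ℕ} {M : Type*} [TopologicalSpace M] [ChartedSpace (Euc m) M]
  [IsManifold 𝓘(ℝ, Euc m) ∞ M]

theorem flat_dim2 {M : Type*} [TopologicalSpace M] [ChartedSpace (Euc (1 + 1)) M]
    [IsManifold 𝓘(ℝ, Euc (1 + 1)) ∞ M] (S : Spacetime (1 + 1) M) : ConformallyFlat S := by
  intro x
  have he : chartAt (Euc (1 + 1)) x ∈ IsManifold.maximalAtlas 𝓘(ℝ, Euc (1 + 1)) ∞ M :=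
    IsManifold.chart_mem_maximalAtlas x
  have hx : x ∈ (chartAt (Euc (1 + 1)) x).source := mem_chart_source _ x
  have hy : chartAt (Euc (1 + 1)) x x ∈ (chartAt (Euc (1 + 1)) x).target :=
    (chartAt (Euc (1 + 1)) x).map_source hx
  generalize chartAt (Euc (1 + 1)) x = e at he hx hy
  have hfin : Module.finrank ℝ (Euc (1 + 1)) = 2 := by simp
  have hmet := met_coord S he
  obtain ⟨r, hr, hball, u, v, l, hu, hv, hl, H⟩ :=
    flat2_local hfin hmet (fun y hy => lor_coord S he hy) hy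
  let Φ : Euc (1 + 1) → Euc (1 + 1) := fun y => WithLp.toLp 2 ![u y, v y]
  have hΦ : ContDiffOn ℝ ∞ Φ (Metric.ball (e x) r) := by
    rw [contDiffOn_euclidean]
    intro i
    fin_cases i
    · exact hu
    · exact hv
  have hdu : ∀ y ∈ Metric.ball (e x) r, DifferentiableAt ℝ u y := fun y hy' =>
    ((hu.contDiffAt (Metric.isOpen_ball.mem_nhds hy')).differentiableAt (by simp))
  have hdv : ∀ y ∈ Metric.ball (e x) r, DifferentiableAt ℝ v y := fun y hy' =>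
    ((hv.contDiffAt (Metric.isOpen_ball.mem_nhds hy')).differentiableAt (by simp))
  have hdΦ : ∀ y ∈ Metric.ball (e x) r, DifferentiableAt ℝ Φ y := fun y hy' =>
    ((hΦ.contDiffAt (Metric.isOpen_ball.mem_nhds hy')).differentiableAt (by simp))
  have h0 : ∀ y ∈ Metric.ball (e x) r, ∀ Z, fderiv ℝ Φ y Z 0 = fderiv ℝ u y Z := by
    intro y hy' Z
    have h2 : HasFDerivAt u ((EuclideanSpace.proj 0 : Euc (1 + 1) →L[ℝ] ℝ) ∘L fderiv ℝ Φ y) y :=
      (EuclideanSpace.proj 0 : Euc (1 + 1) →L[ℝ] ℝ).hasFDerivAt.comp y (hdΦ y hy').hasFDerivAt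
    rw [h2.fderiv]
    rfl
  have h1 : ∀ y ∈ Metric.ball (e x) r, ∀ Z, fderiv ℝ Φ y Z 1 = fderiv ℝ v y Z := by
    intro y hy' Z
    have h2 : HasFDerivAt v ((EuclideanSpace.proj 1 : Euc (1 + 1) →L[ℝ] ℝ) ∘L fderiv ℝ Φ y) y :=
      (EuclideanSpace.proj 1 : Euc (1 + 1) →L[ℝ] ℝ).hasFDerivAt.comp y (hdΦ y hy').hasFDerivAt
    rw [h2.fderiv]
    rfl
  obtain ⟨e', he', hx', l', hl', h'⟩ := chart_of_local S he hr hball hΦ hl (by
    intro y hy'
    refine ⟨(H y hy').1, ?_, ?_⟩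
    · have hinj : Function.Injective (fderiv ℝ Φ y).toLinearMap := by
        rw [← LinearMap.ker_eq_bot, LinearMap.ker_eq_bot']
        intro Z hZ
        have hZ' : fderiv ℝ Φ y Z = 0 := hZ
        refine hmet.nondeg y (hball hy') Z fun W => ?_
        rw [(H y hy').2 Z W, ← h0 y hy' Z, ← h1 y hy' Z, hZ']
        simp
      exact ⟨hinj, LinearMap.injective_iff_surjective.1 hinj⟩
    · intro Z W
      rw [(H y hy').2 Z W, mink]
      simp [h0 y hy', h1 y hy'])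
  rw [e.left_inv hx] at hx'
  exact ⟨e', he', hx', l', hl', h'⟩

end Pool.Agent.EG

end

end M_DD5

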