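import Pool.Agent.Lib.MP_eeed5f_gt.B1
import Pool.Agent.Lib.MP_eeed5f_gt.S1

section M_BR3

/-!
Row ec-BR3 (curves; bridge, part 3).
`seg_curve`: a C¹ segment with velocities in P is a curve in the sense of IsCurve: at r ∈ [s,t) the chart expression e ∘ γ has within Icc s t the derivative
mfderiv e (γ r) (mfderivWithin γ (Icc s t) r 1) (chain rule, `MDifferentiableWithinAt`), and [s,t] is a neighbourhood of r within Ici r (resp. Iic r); FT/FC of the coordinate vector: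
coordForm(mfderiv e w, mfderiv e w) = g(w,w) (chartD_inv').   `pw_curve`: concatenate (IsCurve of adjacent intervals with the same γ: directly from the definition).
`seg_of_chart`: straight segment r ↦ e.symm (p + (r - s) • w) on [s,t] in the target with FT velocity w is a Seg (smooth; derivative chartD e (..) w).
`pw_concat`: if PwCurve γ₁ on [a,b], γ₂ on [b',c'], γ₁ b = γ₂ b' then there is a PwCurve from γ₁ a to γ₂ c' (reparametrise by translation, glue; on each closed piece the glued curve coincides with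
γ₁ or the translate of γ₂, so Seg is preserved: `ContMDiffOn.congr`, `mfderivWithin_congr`).
-/

open scoped Manifold ContDiff Topology
open Set Filter

noncomputable section

set_option linter.unusedSectionVars false
set_option maxSynthPendingDepth 3

namespace Pool.Agent.EG

open Pool.Agent.NOHS

variable {m : ℕ} {M : Type*} [TopologicalSpace M] [ChartedSpace (Euc m) M]
  [IsManifold 𝓘(ℝ, Euc m) ∞ M]

theorem br3_congr {P : BF (Euc m) → Euc m → Euc m → Prop} (S : Spacetime m M)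
    (e : OpenPartialHomeomorph M (Euc m)) {z y : Euc m} (h : z = y) {v : Euc m}
    (hP : P (coordForm S.g e y) (coordVec S.T e y) v) :
    P (coordForm S.g e z) (coordVec S.T e z) v := by
  subst h
  exact hP

theorem br3_push (S : Spacetime m M) {e : OpenPartialHomeomorph M (Euc m)}
    (he : e ∈ IsManifold.maximalAtlas 𝓘(ℝ, Euc m) ∞ M) {x : M} (hx : x ∈ e.source)
    (w : TangentSpace 𝓘(ℝ, Euc m) x) :
    (FutureTimelike S x w → FT (coordForm S.g e (e x)) (coordVec S.T e (e x))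
      (mfderiv 𝓘(ℝ, Euc m) 𝓘(ℝ, Euc m) e x w : Euc m)) ∧
    (FutureCausal S x w → FC (coordForm S.g e (e x)) (coordVec S.T e (e x))
      (mfderiv 𝓘(ℝ, Euc m) 𝓘(ℝ, Euc m) e x w : Euc m)) := by
  obtain ⟨y, hy, rfl⟩ : ∃ y, y ∈ e.target ∧ e.symm y = x := ⟨e x, e.map_source hx, e.left_inv hx⟩
  have h1 : chartD e y (mfderiv 𝓘(ℝ, Euc m) 𝓘(ℝ, Euc m) e (e.symm y) w : Euc m) = w := chartD_inv' he hy w
  have h2 : chartD e y (coordVec S.T e y) = S.T (e.symm y) := chartD_coordVec S he hy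
  have h3 : coordForm S.g e y (mfderiv 𝓘(ℝ, Euc m) 𝓘(ℝ, Euc m) e (e.symm y) w : Euc m)
      (mfderiv 𝓘(ℝ, Euc m) 𝓘(ℝ, Euc m) e (e.symm y) w : Euc m) = S.g (e.symm y) w w := by
    show S.g (e.symm y) (chartD e y _) (chartD e y _) = _
    rw [h1]
  have h4 : coordForm S.g e y (coordVec S.T e y) (mfderiv 𝓘(ℝ, Euc m) 𝓘(ℝ, Euc m) e (e.symm y) w : Euc m)
      = S.g (e.symm y) (S.T (e.symm y)) w := by
    show S.g (e.symm y) (chartD e y _) (chartD e y _) = _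
    rw [h1, h2]
  constructor
  · intro h
    refine br3_congr (P := FT) S e (e.right_inv hy) ⟨?_, ?_⟩
    · rw [h3]; exact h.1
    · rw [h4]; exact h.2
  · intro h
    refine br3_congr (P := FC) S e (e.right_inv hy) ⟨?_, ?_⟩
    · rw [h3]; exact h.1
    · rw [h4]; exact h.2

theorem br3_hd {f : ℝ → Euc m} {D : ℝ →L[ℝ] Euc m} {s : Set ℝ} {r : ℝ}
    (h : HasFDerivWithinAt f D s r) : HasDerivWithinAt f (D (1 : ℝ)) s r :=
  h.hasDerivWithinAt

theorem br3_deriv {e : OpenPartialHomeomorph M (Euc m)}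
    (he : e ∈ IsManifold.maximalAtlas 𝓘(ℝ, Euc m) ∞ M) {γ : ℝ → M} {s : Set ℝ} {r : ℝ}
    (hγ : MDifferentiableWithinAt 𝓘(ℝ, ℝ) 𝓘(ℝ, Euc m) γ s r) (hr : γ r ∈ e.source) :
    HasDerivWithinAt (fun x => e (γ x))
      (mfderiv 𝓘(ℝ, Euc m) 𝓘(ℝ, Euc m) e (γ r) (mfderivWithin 𝓘(ℝ, ℝ) 𝓘(ℝ, Euc m) γ s r (1 : ℝ)) : Euc m) s r := by
  have h1 : MDifferentiableAt 𝓘(ℝ, Euc m) 𝓘(ℝ, Euc m) e (γ r) := (chart_md he).mdifferentiableAt hr
  have h2 := h1.hasMFDerivAt.comp_hasMFDerivWithinAt r hγ.hasMFDerivWithinAt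
  have h3 : HasFDerivWithinAt (fun x => e (γ x))
      ((mfderiv 𝓘(ℝ, Euc m) 𝓘(ℝ, Euc m) e (γ r)).comp
        (mfderivWithin 𝓘(ℝ, ℝ) 𝓘(ℝ, Euc m) γ s r) : ℝ →L[ℝ] Euc m) s r :=
    h2.hasFDerivWithinAt
  exact br3_hd h3

theorem br3_cont {P : (x : M) → TangentSpace 𝓘(ℝ, Euc m) x → Prop} {γ : ℝ → M} {s t : ℝ}
    (h : Seg P γ s t) : ContinuousOn γ (Icc s t) := h.1.continuousOn

theorem br3_curve (S : Spacetime m M) {P : (x : M) → TangentSpace 𝓘(ℝ, Euc m) x → Prop}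
    {Q : BF (Euc m) → Euc m → Euc m → Prop}
    (hPQ : ∀ (e : OpenPartialHomeomorph M (Euc m)), e ∈ IsManifold.maximalAtlas 𝓘(ℝ, Euc m) ∞ M →
      ∀ (x : M), x ∈ e.source → ∀ w : TangentSpace 𝓘(ℝ, Euc m) x, P x w →
      Q (coordForm S.g e (e x)) (coordVec S.T e (e x)) (mfderiv 𝓘(ℝ, Euc m) 𝓘(ℝ, Euc m) e x w : Euc m))
    {γ : ℝ → M} {s t : ℝ} (h : Seg P γ s t) : IsCurve (toSys S) Q γ s t := by
  have key : ∀ r ∈ Icc s t, ∀ s' : Set ℝ, Icc s t ∈ 𝓝[s'] r → DerivIn (toSys S) Q γ s' r := by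
    intro r hr s' hs'
    have hmem : chartAt (Euc m) (γ r) ∈ IsManifold.maximalAtlas 𝓘(ℝ, Euc m) ∞ M :=
      IsManifold.chart_mem_maximalAtlas (γ r)
    have hsrc : γ r ∈ (chartAt (Euc m) (γ r)).source := mem_chart_source _ _
    have hd := br3_deriv hmem ((h.1 r hr).mdifferentiableWithinAt (by simp)) hsrc
    refine ⟨⟨chartAt (Euc m) (γ r), hmem⟩, hsrc, _, hd.mono_of_mem_nhdsWithin hs', ?_⟩
    exact hPQ _ hmem _ hsrc _ (h.2 r hr)
  exact ⟨br3_cont h, fun r hr => key r ⟨hr.1, hr.2.le⟩ _ (sc5_Icc_ge hr),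
    fun r hr => key r ⟨hr.1.le, hr.2⟩ _ (sc5_Icc_le hr)⟩

theorem seg_curve (S : Spacetime m M) {γ : ℝ → M} {s t : ℝ} (hst : s < t) :
    (Seg (FutureTimelike S) γ s t → IsCurve (toSys S) FT γ s t) ∧
    (Seg (FutureCausal S) γ s t → IsCurve (toSys S) FC γ s t) :=
  ⟨fun h => br3_curve S (fun _ he _ hx w => (br3_push S he hx w).1) h,
    fun h => br3_curve S (fun _ he _ hx w => (br3_push S he hx w).2) h⟩

theorem br3_pw (S : Spacetime m M) {P : (x : M) → TangentSpace 𝓘(ℝ, Euc m) x → Prop}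
    {Q : BF (Euc m) → Euc m → Euc m → Prop} {γ : ℝ → M} {t : ℕ → ℝ} {n : ℕ}
    (hseg : ∀ s t, Seg P γ s t → IsCurve (toSys S) Q γ s t)
    (h : ∀ i < n, t i < t (i + 1) ∧ Seg P γ (t i) (t (i + 1))) :
    ∀ k, k < n → t 0 < t (k + 1) ∧ IsCurve (toSys S) Q γ (t 0) (t (k + 1)) := by
  intro k
  induction k with
  | zero => intro hk; exact ⟨(h 0 hk).1, hseg _ _ (h 0 hk).2⟩
  | succ k ih =>
    intro hk
    obtain ⟨h1, h2⟩ := ih (by omega)
    have h3 := h (k + 1) hk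
    refine ⟨h1.trans h3.1, ?_⟩
    have h4 := IsCurve.concat h2 (hseg _ _ h3.2) h1.le h3.1.le rfl
    simpa only [ite_self] using h4

theorem pw_curve (S : Spacetime m M) {γ : ℝ → M} {a b : ℝ} :
    (PwCurve (FutureTimelike S) γ a b → a < b ∧ IsCurve (toSys S) FT γ a b) ∧
    (PwCurve (FutureCausal S) γ a b → a < b ∧ IsCurve (toSys S) FC γ a b) := by
  constructor
  · rintro ⟨n, t, hn, rfl, rfl, h⟩
    obtain ⟨k, rfl⟩ : ∃ k, n = k + 1 := ⟨n - 1, by omega⟩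
    exact br3_pw S (fun s t h => br3_curve S (fun _ he _ hx w => (br3_push S he hx w).1) h) h k (by omega)
  · rintro ⟨n, t, hn, rfl, rfl, h⟩
    obtain ⟨k, rfl⟩ : ∃ k, n = k + 1 := ⟨n - 1, by omega⟩
    exact br3_pw S (fun s t h => br3_curve S (fun _ he _ hx w => (br3_push S he hx w).2) h) h k (by omega)

theorem tl_of_IPlus (S : Spacetime m M) {p q : M} (h : q ∈ IPlus S p) : tl (toSys S) p q := by
  obtain ⟨γ, a, b, h1, rfl, rfl⟩ := h
  obtain ⟨h2, h3⟩ := (pw_curve S).1 h1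
  exact tl_of_curve h2 h3

theorem br3_unique {s t r : ℝ} (hst : s < t) (hr : r ∈ Icc s t) :
    UniqueMDiffWithinAt 𝓘(ℝ, ℝ) (Icc s t) r :=
  (uniqueDiffOn_Icc hst r hr).uniqueMDiffWithinAt

theorem br3_seg_of {P : (x : M) → TangentSpace 𝓘(ℝ, Euc m) x → Prop} {γ : ℝ → M} {s t : ℝ} (hst : s < t)
    (h1 : ContMDiffOn 𝓘(ℝ, ℝ) 𝓘(ℝ, Euc m) 1 γ (Icc s t))
    (h2 : ∀ r ∈ Icc s t, ∃ D, HasMFDerivWithinAt 𝓘(ℝ, ℝ) 𝓘(ℝ, Euc m) γ (Icc s t) r D ∧ P (γ r) (D (1 : ℝ))) :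
    Seg P γ s t := by
  refine ⟨h1, fun r hr => ?_⟩
  obtain ⟨D, hD, hP⟩ := h2 r hr
  rw [hD.mfderivWithin (br3_unique hst hr)]
  exact hP

theorem straight_IPlus (S : Spacetime m M) {e : OpenPartialHomeomorph M (Euc m)}
    (he : e ∈ IsManifold.maximalAtlas 𝓘(ℝ, Euc m) ∞ M) {p w : Euc m}
    (h : ∀ r ∈ Icc (0 : ℝ) 1, p + r • w ∈ e.target ∧
      FT (coordForm S.g e (p + r • w)) (coordVec S.T e (p + r • w)) w) :
    e.symm (p + w) ∈ IPlus S (e.symm p) := by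
  refine ⟨fun r => e.symm (p + r • w), 0, 1, ⟨1, fun i => (i : ℝ), one_pos, by simp, by simp, ?_⟩, by simp, by simp⟩
  intro i hi
  obtain rfl : i = 0 := by omega
  refine ⟨by simp, ?_⟩
  have e0 : ((0 : ℕ) : ℝ) = 0 := Nat.cast_zero
  have e1 : ((0 + 1 : ℕ) : ℝ) = 1 := by simp
  simp only [e0, e1]
  have hline : ContMDiff 𝓘(ℝ, ℝ) 𝓘(ℝ, Euc m) 1 (fun r : ℝ => p + r • w) := by
    rw [contMDiff_iff_contDiff]
    fun_prop
  refine br3_seg_of one_pos ?_ ?_
  · have h1 : ContMDiffOn 𝓘(ℝ, Euc m) 𝓘(ℝ, Euc m) 1 e.symm e.target :=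
      (contMDiffOn_symm_of_mem_maximalAtlas he).of_le (by simp)
    exact h1.comp (t := e.target) hline.contMDiffOn (fun r hr => (h r hr).1)
  · intro r hr
    have h2 : MDifferentiableAt 𝓘(ℝ, Euc m) 𝓘(ℝ, Euc m) e.symm (p + r • w) :=
      (chart_md he).symm.mdifferentiableAt (h r hr).1
    have h3 : HasFDerivAt (fun r : ℝ => p + r • w) ((1 : ℝ →L[ℝ] ℝ).smulRight w) r := by
      have := ((hasFDerivAt_id (𝕜 := ℝ) r).smul_const w).const_add p
      exact this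
    have h4 : HasMFDerivWithinAt 𝓘(ℝ, ℝ) 𝓘(ℝ, Euc m) (fun r : ℝ => p + r • w) (Icc 0 1) r
        ((1 : ℝ →L[ℝ] ℝ).smulRight w) := h3.hasMFDerivAt.hasMFDerivWithinAt
    have h5 := h2.hasMFDerivAt.comp_hasMFDerivWithinAt r h4
    refine ⟨_, h5, ?_⟩
    have h6 : ((mfderiv 𝓘(ℝ, Euc m) 𝓘(ℝ, Euc m) e.symm (p + r • w)).comp ((1 : ℝ →L[ℝ] ℝ).smulRight w)) (1 : ℝ)
        = chartD e (p + r • w) w := by
      show chartD e (p + r • w) (((1 : ℝ →L[ℝ] ℝ).smulRight w) (1 : ℝ)) = _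
      simp
    have h7 := (h r hr).2
    have h8 : chartD e (p + r • w) (coordVec S.T e (p + r • w)) = S.T (e.symm (p + r • w)) :=
      chartD_coordVec S he (h r hr).1
    have h9 : FutureTimelike S (e.symm (p + r • w)) (chartD e (p + r • w) w) := by
      refine ⟨h7.1, ?_⟩
      rw [← h8]
      exact h7.2
    rw [← h6] at h9
    exact h9

theorem br3_P_congr {P : (x : M) → TangentSpace 𝓘(ℝ, Euc m) x → Prop} {x y : M} (h : x = y) (v : Euc m)
    (hP : P x v) : P y v := by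
  subst h
  exact hP

theorem br3_seg_congr {P : (x : M) → TangentSpace 𝓘(ℝ, Euc m) x → Prop} {γ γ' : ℝ → M} {s t : ℝ} (hst : s < t)
    (he : ∀ r ∈ Icc s t, γ' r = γ r) (h : Seg P γ s t) : Seg P γ' s t := by
  refine br3_seg_of hst (h.1.congr he) fun r hr => ?_
  have h1 : MDifferentiableWithinAt 𝓘(ℝ, ℝ) 𝓘(ℝ, Euc m) γ (Icc s t) r :=
    (h.1 r hr).mdifferentiableWithinAt (by simp)
  refine ⟨_, h1.hasMFDerivWithinAt.congr_of_eventuallyEq ?_ (he r hr), ?_⟩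
  · filter_upwards [self_mem_nhdsWithin] with x hx using he x hx
  · exact br3_P_congr (he r hr).symm _ (h.2 r hr)

theorem br3_seg_shift {P : (x : M) → TangentSpace 𝓘(ℝ, Euc m) x → Prop} {γ : ℝ → M} {s t c : ℝ} (hst : s < t)
    (h : Seg P γ (s + c) (t + c)) : Seg P (fun r => γ (r + c)) s t := by
  have hmaps : MapsTo (fun r : ℝ => r + c) (Icc s t) (Icc (s + c) (t + c)) := by
    intro r hr
    exact ⟨by linarith [hr.1], by linarith [hr.2]⟩
  have hsh : ContMDiff 𝓘(ℝ, ℝ) 𝓘(ℝ, ℝ) 1 (fun r : ℝ => r + c) := by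
    rw [contMDiff_iff_contDiff]
    fun_prop
  refine br3_seg_of hst (h.1.comp hsh.contMDiffOn hmaps) fun r hr => ?_
  have h1 : MDifferentiableWithinAt 𝓘(ℝ, ℝ) 𝓘(ℝ, Euc m) γ (Icc (s + c) (t + c)) (r + c) :=
    (h.1 _ (hmaps hr)).mdifferentiableWithinAt (by simp)
  have h3 : HasFDerivAt (fun r : ℝ => r + c) (ContinuousLinearMap.id ℝ ℝ) r := (hasFDerivAt_id r).add_const c
  have h4 : HasMFDerivWithinAt 𝓘(ℝ, ℝ) 𝓘(ℝ, ℝ) (fun r : ℝ => r + c) (Icc s t) r
      (ContinuousLinearMap.id ℝ ℝ) := h3.hasMFDerivAt.hasMFDerivWithinAt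
  refine ⟨_, HasMFDerivWithinAt.comp r h1.hasMFDerivWithinAt h4 hmaps, ?_⟩
  exact h.2 _ (hmaps hr)

theorem IPlus_trans (S : Spacetime m M) {p q r : M} (h : q ∈ IPlus S p) (h' : r ∈ IPlus S q) :
    r ∈ IPlus S p := by
  obtain ⟨γ₁, a, b, ⟨n₁, t₁, hn₁, ht0, ht1, hs₁⟩, rfl, hq⟩ := h
  obtain ⟨γ₂, b', c', ⟨n₂, t₂, hn₂, hu0, hu1, hs₂⟩, hq', rfl⟩ := h'
  have hmono : ∀ (n : ℕ) (t : ℕ → ℝ), (∀ i < n, t i < t (i + 1)) → ∀ i j, i ≤ j → j ≤ n → t i ≤ t j := by
    intro n t ht i j hij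
    induction j, hij using Nat.le_induction with
    | base => intro _; exact le_rfl
    | succ j hj ih => intro hjn; exact (ih (by omega)).trans (ht j (by omega)).le
  have hm₁ := hmono n₁ t₁ (fun i hi => (hs₁ i hi).1)
  have hm₂ := hmono n₂ t₂ (fun i hi => (hs₂ i hi).1)
  set γ : ℝ → M := fun x => if x ≤ b then γ₁ x else γ₂ (x + (b' - b)) with hγ
  have hγ1 : ∀ x, x ≤ b → γ x = γ₁ x := fun x hx => by simp only [hγ, if_pos hx]
  have hγ2 : ∀ x, b ≤ x → γ x = γ₂ (x + (b' - b)) := by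
    intro x hx
    rcases eq_or_lt_of_le hx with hx | hx
    · rw [hγ1 x hx.ge, ← hx, hq]
      have : b + (b' - b) = b' := by ring
      rw [this, hq']
    · simp only [hγ, if_neg (not_le.2 hx)]
  set t : ℕ → ℝ := fun i => if i ≤ n₁ then t₁ i else t₂ (i - n₁) + (b - b') with ht
  have htl : ∀ i, i ≤ n₁ → t i = t₁ i := fun i hi => by simp only [ht, if_pos hi]
  have htr : ∀ i, n₁ ≤ i → t i = t₂ (i - n₁) + (b - b') := by
    intro i hi
    rcases eq_or_lt_of_le hi with hi | hi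
    · rw [htl i hi.ge, ← hi, ht1, Nat.sub_self, hu0]
      ring
    · simp only [ht, if_neg (not_le.2 hi)]
  have hab : a ≤ b := by
    have := hm₁ 0 n₁ (Nat.zero_le _) le_rfl
    rw [ht0, ht1] at this
    exact this
  have hbc : b' ≤ c' := by
    have := hm₂ 0 n₂ (Nat.zero_le _) le_rfl
    rw [hu0, hu1] at this
    exact this
  refine ⟨γ, a, c' + (b - b'), ⟨n₁ + n₂, t, by omega, ?_, ?_, ?_⟩, hγ1 a hab, ?_⟩
  · rw [htl 0 (Nat.zero_le _), ht0]
  · rw [htr _ (by omega), Nat.add_sub_cancel_left, hu1]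
  · intro i hi
    rcases lt_or_ge i n₁ with hin | hin
    · rw [htl i hin.le, htl (i + 1) hin]
      refine ⟨(hs₁ i hin).1, br3_seg_congr (hs₁ i hin).1 (fun x hx => hγ1 x (hx.2.trans ?_)) (hs₁ i hin).2⟩
      have := hm₁ (i + 1) n₁ hin le_rfl
      rw [ht1] at this
      exact this
    · rw [htr i hin, htr (i + 1) (by omega)]
      obtain ⟨j, rfl⟩ : ∃ j, i = n₁ + j := ⟨i - n₁, by omega⟩
      have e1 : n₁ + j - n₁ = j := by omega
      have e2 : n₁ + j + 1 - n₁ = j + 1 := by omega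
      rw [e1, e2]
      have hj : j < n₂ := by omega
      have hlt := (hs₂ j hj).1
      have hlt' : t₂ j + (b - b') < t₂ (j + 1) + (b - b') := by linarith
      refine ⟨hlt', ?_⟩
      have hseg : Seg (FutureTimelike S) γ₂ (t₂ j + (b - b') + (b' - b)) (t₂ (j + 1) + (b - b') + (b' - b)) := by
        have e3 : t₂ j + (b - b') + (b' - b) = t₂ j := by ring
        have e4 : t₂ (j + 1) + (b - b') + (b' - b) = t₂ (j + 1) := by ring
        rw [e3, e4]
        exact (hs₂ j hj).2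
      refine br3_seg_congr hlt' (fun x hx => hγ2 x ?_) (br3_seg_shift hlt' hseg)
      have := hm₂ 0 j (Nat.zero_le _) hj.le
      rw [hu0] at this
      linarith [hx.1]
  · rw [hγ2 _ (by linarith)]
    congr 1
    ring

end Pool.Agent.EG

end

end M_BR3

section M_BR4

/-!
Row ec-BR4 (timelike LR-curves can be replaced by broken straight lines; bridge, part 4).
σ : IsCurve (toSys S) FT σ 0 1.  For t ∈ [0,1): right derivative v FT in the chart e at σ t: for small h > 0, w = ch σ(t+h) - ch σ(t) satisfies w/h → v, and the straight segment from ch σ(t) to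
ch σ(t+h) has FT velocity (open condition, as in `straight`, which gives δ and points p0 + h w): `straight_IPlus`: σ(t+h) ∈ IPlus (σ t) for 0<h<δ_t.  Similarly σ t ∈ IPlus (σ(t-h)) for t ∈ (0,1].
sup argument: A = {t ∈ (0,1] : σ t ∈ IPlus (σ 0)} contains (0,δ_0); s = sup A; left property at s: some s-h ∈ A with h<δ'_s, so s ∈ A (IPlus_trans); if s < 1 the right property gives points > s in A.
So σ 1 ∈ IPlus (σ 0).
-/

open scoped Manifold ContDiff Topology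
open Set Filter

noncomputable section

set_option linter.unusedSectionVars false
set_option maxSynthPendingDepth 3

namespace Pool.Agent.EG

open Pool.Agent.NOHS

variable {m : ℕ} {M : Type*} [TopologicalSpace M] [ChartedSpace (Euc m) M]
  [IsManifold 𝓘(ℝ, Euc m) ∞ M]

theorem br4_straight (S : Spacetime m M) {e : OpenPartialHomeomorph M (Euc m)}
    (he : e ∈ IsManifold.maximalAtlas 𝓘(ℝ, Euc m) ∞ M) {p0 v : Euc m} (hp : p0 ∈ e.target)
    (hv : FT (coordForm S.g e p0) (coordVec S.T e p0) v) :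
    ∃ δ > 0, ∀ p ∈ Metric.ball p0 δ, ∀ w ∈ Metric.ball v δ, ∀ h ∈ Ioo (0 : ℝ) δ,
      e.symm (p + h • w) ∈ IPlus S (e.symm p) := by
  have hopen : e.target ∈ 𝓝 p0 := e.open_target.mem_nhds hp
  have hg : ContinuousAt (fun q : Euc m × Euc m => coordForm S.g e q.1) (p0, v) :=
    ContinuousAt.comp (f := fun q : Euc m × Euc m => q.1) ((S.smooth_g e he).continuousOn.continuousAt hopen)
      continuousAt_fst
  have hT : ContinuousAt (fun q : Euc m × Euc m => coordVec S.T e q.1) (p0, v) :=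
    ContinuousAt.comp (f := fun q : Euc m × Euc m => q.1) ((S.smooth_T e he).continuousOn.continuousAt hopen)
      continuousAt_fst
  have hs : ContinuousAt (fun q : Euc m × Euc m => q.2) (p0, v) := continuousAt_snd
  have h1 : ∀ᶠ q : Euc m × Euc m in 𝓝 (p0, v), coordForm S.g e q.1 q.2 q.2 < 0 :=
    ((hg.clm_apply hs).clm_apply hs).eventually (gt_mem_nhds hv.1)
  have h2 : ∀ᶠ q : Euc m × Euc m in 𝓝 (p0, v), coordForm S.g e q.1 (coordVec S.T e q.1) q.2 < 0 :=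
    ((hg.clm_apply hT).clm_apply hs).eventually (gt_mem_nhds hv.2)
  have h3 : ∀ᶠ q : Euc m × Euc m in 𝓝 (p0, v), q.1 ∈ e.target :=
    (continuous_fst.tendsto (p0, v)).eventually hopen
  obtain ⟨ρ, hρ, hρ'⟩ := Metric.eventually_nhds_iff.1 (h1.and (h2.and h3))
  have key : ∀ p w : Euc m, dist p p0 < ρ → dist w v < ρ →
      p ∈ e.target ∧ FT (coordForm S.g e p) (coordVec S.T e p) w := by
    intro p w hpp hww
    have h4 := hρ' (y := (p, w)) (by rw [Prod.dist_eq]; exact max_lt hpp hww)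
    exact ⟨h4.2.2, h4.1, h4.2.1⟩
  have hv0 := norm_nonneg v
  refine ⟨min (ρ / 2) (ρ / (2 * (‖v‖ + ρ + 1))), lt_min (by positivity) (by positivity), ?_⟩
  intro p hp' w hw h hh
  set δ := min (ρ / 2) (ρ / (2 * (‖v‖ + ρ + 1))) with hδ
  have hδ0 : 0 < δ := lt_min (by positivity) (by positivity)
  have hδ1 : δ ≤ ρ / 2 := min_le_left _ _
  have hδ2 : δ * (‖v‖ + ρ + 1) ≤ ρ / 2 := by
    have : δ ≤ ρ / (2 * (‖v‖ + ρ + 1)) := min_le_right _ _
    rw [le_div_iff₀ (by positivity)] at this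
    linarith
  have hwn : ‖w‖ ≤ ‖v‖ + ρ := by
    have h5 : ‖w - v‖ < δ := by rw [← dist_eq_norm]; exact hw
    have h6 := norm_add_le v (w - v)
    rw [add_sub_cancel] at h6
    linarith
  have hseg : ∀ s ∈ Icc (0 : ℝ) 1, dist (p + s • (h • w)) p0 < ρ := by
    intro s hs'
    have h5 : dist (p + s • (h • w)) p0 ≤ ‖s • (h • w)‖ + dist p p0 := by
      rw [dist_eq_norm, dist_eq_norm]
      have : p + s • (h • w) - p0 = s • (h • w) + (p - p0) := by abel
      rw [this]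
      exact norm_add_le _ _
    have h6 : ‖s • (h • w)‖ ≤ δ * (‖v‖ + ρ) := by
      rw [norm_smul, norm_smul, Real.norm_of_nonneg hs'.1, Real.norm_of_nonneg hh.1.le]
      calc s * (h * ‖w‖) ≤ 1 * (h * ‖w‖) :=
            mul_le_mul_of_nonneg_right hs'.2 (mul_nonneg hh.1.le (norm_nonneg _))
        _ = h * ‖w‖ := one_mul _
        _ ≤ δ * (‖v‖ + ρ) := mul_le_mul hh.2.le hwn (norm_nonneg _) hδ0.le
    have h7 : dist p p0 < δ := hp'
    have h8 : δ * (‖v‖ + ρ + 1) = δ * (‖v‖ + ρ) + δ := by ring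
    linarith
  have hwρ : dist w v < ρ := lt_of_lt_of_le hw (by linarith)
  apply straight_IPlus S he
  intro t ht
  obtain ⟨h4, h5, h6⟩ := key _ w (hseg t ht) hwρ
  refine ⟨h4, ?_, ?_⟩
  · have e5 : coordForm S.g e (p + t • h • w) (h • w) (h • w)
        = h * (h * coordForm S.g e (p + t • h • w) w w) := by
      rw [map_smul, (coordForm S.g e (p + t • h • w)).map_smul]
      rfl
    rw [e5]
    exact mul_neg_of_pos_of_neg hh.1 (mul_neg_of_pos_of_neg hh.1 h5)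
  · rw [map_smul, smul_eq_mul]
    exact mul_neg_of_pos_of_neg hh.1 h6

theorem br4_right (S : Spacetime m M) {σ : ℝ → M} (hσ : IsCurve (toSys S) FT σ 0 1) {t : ℝ}
    (ht : t ∈ Ico (0 : ℝ) 1) : ∀ᶠ u in 𝓝[>] t, σ u ∈ IPlus S (σ t) := by
  obtain ⟨⟨e, he⟩, hi, v, hd, hFT⟩ := hσ.right t ht
  change σ t ∈ e.source at hi
  change HasDerivWithinAt (fun r => e (σ r)) v (Ici t) t at hd
  change FT (coordForm S.g e (e (σ t))) (coordVec S.T e (e (σ t))) v at hFT
  have hp0 : e (σ t) ∈ e.target := e.map_source hi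
  obtain ⟨δ, hδ, hst⟩ := br4_straight S he hp0 hFT
  have hslope : Tendsto (slope (fun r => e (σ r)) t) (𝓝[>] t) (𝓝 v) := by
    have h1 := hasDerivWithinAt_Ioi_iff_Ici.2 hd
    exact (hasDerivWithinAt_iff_tendsto_slope' (notMem_Ioi.2 le_rfl)).1 h1
  have ev1 : ∀ᶠ u in 𝓝[>] t, slope (fun r => e (σ r)) t u ∈ Metric.ball v δ :=
    hslope.eventually (Metric.ball_mem_nhds v hδ)
  have hc0 : Tendsto σ (𝓝[>] t) (𝓝 (σ t)) := by
    have h1 : ContinuousWithinAt σ (Icc 0 1) t := hσ.cont t ⟨ht.1, ht.2.le⟩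
    have h2 : Tendsto σ (𝓝[Ioo t 1] t) (𝓝 (σ t)) :=
      h1.mono_left (nhdsWithin_mono _ (fun x hx => ⟨ht.1.trans hx.1.le, hx.2.le⟩))
    rwa [nhdsWithin_Ioo_eq_nhdsGT ht.2] at h2
  have ev2 : ∀ᶠ u in 𝓝[>] t, σ u ∈ e.source := hc0.eventually (e.open_source.mem_nhds hi)
  have ev3 : ∀ᶠ u in 𝓝[>] t, u ∈ Ioo t (t + δ) := Ioo_mem_nhdsGT (by linarith)
  filter_upwards [ev1, ev2, ev3] with u h1 h2 h3
  have h4 := hst (e (σ t)) (Metric.mem_ball_self hδ) _ h1 (u - t) ⟨by linarith [h3.1], by linarith [h3.2]⟩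
  have h5 : u - t ≠ 0 := (sub_pos.mpr h3.1).ne'
  rw [slope_def_module, smul_inv_smul₀ h5, add_sub_cancel, e.left_inv h2, e.left_inv hi] at h4
  exact h4

theorem br4_left (S : Spacetime m M) {σ : ℝ → M} (hσ : IsCurve (toSys S) FT σ 0 1) {t : ℝ}
    (ht : t ∈ Ioc (0 : ℝ) 1) : ∀ᶠ u in 𝓝[<] t, σ t ∈ IPlus S (σ u) := by
  obtain ⟨⟨e, he⟩, hi, v, hd, hFT⟩ := hσ.left t ht
  change σ t ∈ e.source at hi
  change HasDerivWithinAt (fun r => e (σ r)) v (Iic t) t at hd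
  change FT (coordForm S.g e (e (σ t))) (coordVec S.T e (e (σ t))) v at hFT
  have hp0 : e (σ t) ∈ e.target := e.map_source hi
  obtain ⟨δ, hδ, hst⟩ := br4_straight S he hp0 hFT
  have hslope : Tendsto (slope (fun r => e (σ r)) t) (𝓝[<] t) (𝓝 v) := by
    have h1 := hasDerivWithinAt_Iio_iff_Iic.2 hd
    exact (hasDerivWithinAt_iff_tendsto_slope' (notMem_Iio.2 le_rfl)).1 h1
  have ev1 : ∀ᶠ u in 𝓝[<] t, slope (fun r => e (σ r)) t u ∈ Metric.ball v δ :=
    hslope.eventually (Metric.ball_mem_nhds v hδ)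
  have hc0 : Tendsto σ (𝓝[<] t) (𝓝 (σ t)) := by
    have h1 : ContinuousWithinAt σ (Icc 0 1) t := hσ.cont t ⟨ht.1.le, ht.2⟩
    have h2 : Tendsto σ (𝓝[Ioo 0 t] t) (𝓝 (σ t)) :=
      h1.mono_left (nhdsWithin_mono _ (fun x hx => ⟨hx.1.le, hx.2.le.trans ht.2⟩))
    rwa [nhdsWithin_Ioo_eq_nhdsLT ht.1] at h2
  have ev2 : ∀ᶠ u in 𝓝[<] t, σ u ∈ e.source := hc0.eventually (e.open_source.mem_nhds hi)
  have ev3 : ∀ᶠ u in 𝓝[<] t, u ∈ Ioo (t - δ) t := Ioo_mem_nhdsLT (by linarith)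
  have ev4 : ∀ᶠ u in 𝓝[<] t, e (σ u) ∈ Metric.ball (e (σ t)) δ := by
    have h1 : Tendsto (fun r => e (σ r)) (𝓝[<] t) (𝓝 (e (σ t))) :=
      (e.continuousAt hi).tendsto.comp hc0
    exact h1.eventually (Metric.ball_mem_nhds _ hδ)
  filter_upwards [ev1, ev2, ev3, ev4] with u h1 h2 h3 h6
  have h4 := hst (e (σ u)) h6 _ h1 (t - u) ⟨by linarith [h3.2], by linarith [h3.1]⟩
  have h5 : t - u ≠ 0 := (sub_pos.mpr h3.2).ne'
  rw [slope_comm, slope_def_module, smul_inv_smul₀ h5, add_sub_cancel, e.left_inv h2, e.left_inv hi] at h4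
  exact h4

theorem IPlus_of_tl (S : Spacetime m M) {p q : M} (h : tl (toSys S) p q) : q ∈ IPlus S p := by
  obtain ⟨σ, hσ, rfl, rfl⟩ := h
  set A : Set ℝ := {t | t ∈ Ioc (0 : ℝ) 1 ∧ σ t ∈ IPlus S (σ 0)} with hA
  have hne : A.Nonempty := by
    have h1 := br4_right S hσ (t := 0) ⟨le_rfl, one_pos⟩
    have h2 : ∀ᶠ u in 𝓝[>] (0 : ℝ), u ∈ Ioo (0 : ℝ) 1 := Ioo_mem_nhdsGT one_pos
    obtain ⟨u, hu1, hu2⟩ := (h1.and h2).exists
    exact ⟨u, ⟨hu2.1, hu2.2.le⟩, hu1⟩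
  have hbd : BddAbove A := ⟨1, fun t ht => ht.1.2⟩
  set s := sSup A with hs
  have hs1 : s ≤ 1 := csSup_le hne (fun t ht => ht.1.2)
  have hs0 : 0 < s := by
    obtain ⟨t, ht⟩ := hne
    exact ht.1.1.trans_le (le_csSup hbd ht)
  have hsA : s ∈ A := by
    have h1 := br4_left S hσ (t := s) ⟨hs0, hs1⟩
    obtain ⟨l, hl, hl'⟩ := (mem_nhdsLT_iff_exists_Ioo_subset.mp h1)
    obtain ⟨t, htA, hlt⟩ := exists_lt_of_lt_csSup hne hl
    have hts : t ≤ s := le_csSup hbd htA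
    rcases eq_or_lt_of_le hts with h2 | h2
    · rw [← h2]; exact htA
    · exact ⟨⟨hs0, hs1⟩, IPlus_trans S htA.2 (hl' ⟨hlt, h2⟩)⟩
  rcases eq_or_lt_of_le hs1 with h1 | h1
  · rw [← h1]; exact hsA.2
  · exfalso
    have h2 := br4_right S hσ (t := s) ⟨hs0.le, h1⟩
    have h3 : ∀ᶠ u in 𝓝[>] s, u ∈ Ioo s 1 := Ioo_mem_nhdsGT h1
    obtain ⟨u, hu1, hu2⟩ := (h2.and h3).exists
    have h4 : u ∈ A := ⟨⟨hs0.trans hu2.1, hu2.2.le⟩, IPlus_trans S hsA.2 hu1⟩
    exact absurd (le_csSup hbd h4) (not_le.mpr hu2.1)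

theorem IPlus_iff (S : Spacetime m M) {p q : M} : q ∈ IPlus S p ↔ tl (toSys S) p q :=
  ⟨tl_of_IPlus S, IPlus_of_tl S⟩

end Pool.Agent.EG

end

end M_BR4

section M_BR5

/-!
Row ec-BR5 (Noh from causality and NOH; bridge, part 5).
chr: tl x x gives a PwCurve FutureTimelike, hence FutureCausal, γ a = γ b = x.
noh: z : ℤ → M with z (i+1) ∈ IPlus (z i): PwCurve γ_i on [a_i,b_i]; reparametrise affinely to [i,i+1] (positive affine change keeps Seg, P invariant under positive scaling: FutureTimelike is) and glue: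
γ r = γ_⌊r⌋(r) ; γ i = z i; on [i,i+1] it coincides with γ_i (also at the right end point: γ_i(i+1) = z(i+1)).  PwCurve on every [a,b], a<b: subdivide at the integers and the break points: first show it for
integer end points [i,j] (concatenation of the partitions), then restriction of a PwCurve to a subinterval is a PwCurve.  FutureTimelike → FutureCausal.
If γ → p at +∞ then z i = γ i → p: excluded; the same at -∞.  NoObserverHorizons: q ∈ IMinus (γ t): γ t ∈ IPlus q; t < i for an integer i: z i ∈ IPlus (γ t); so tl q (z i).  Same for IPlus.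
-/

open scoped Manifold ContDiff Topology
open Set Filter

noncomputable section

set_option linter.unusedSectionVars false
set_option maxSynthPendingDepth 3

namespace Pool.Agent.EG

open Pool.Agent.NOHS

variable {m : ℕ} {M : Type*} [TopologicalSpace M] [ChartedSpace (Euc m) M]
  [IsManifold 𝓘(ℝ, Euc m) ∞ M]

section br5

variable {P Q : (x : M) → TangentSpace 𝓘(ℝ, Euc m) x → Prop}

theorem br5_mono {γ : ℝ → M} {a b : ℝ} (hPQ : ∀ x v, P x v → Q x v) (h : PwCurve P γ a b) :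
    PwCurve Q γ a b := by
  obtain ⟨n, t, hn, h0, h1, ht⟩ := h
  exact ⟨n, t, hn, h0, h1, fun i hi => ⟨(ht i hi).1, (ht i hi).2.1, fun r hr => hPQ _ _ ((ht i hi).2.2 r hr)⟩⟩

theorem br5_ud {s t r : ℝ} (hst : s < t) (hr : r ∈ Icc s t) :
    UniqueMDiffWithinAt 𝓘(ℝ, ℝ) (Icc s t) r :=
  (uniqueDiffOn_Icc hst r hr).uniqueMDiffWithinAt

theorem br5_seg_sub {γ : ℝ → M} {s t s' t' : ℝ} (h : Seg P γ s t) (hs : s ≤ s') (h' : s' < t')
    (ht : t' ≤ t) : Seg P γ s' t' := by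
  have hsub : Icc s' t' ⊆ Icc s t := Icc_subset_Icc hs ht
  refine ⟨h.1.mono hsub, fun r hr => ?_⟩
  have hd : MDifferentiableWithinAt 𝓘(ℝ, ℝ) 𝓘(ℝ, Euc m) γ (Icc s t) r :=
    (h.1 r (hsub hr)).mdifferentiableWithinAt (by simp)
  rw [mfderivWithin_subset hsub (br5_ud h' hr) hd]
  exact h.2 r (hsub hr)

theorem br5_seg_congr {γ γ' : ℝ → M} {s t : ℝ} (h : Seg P γ s t) (he : ∀ r ∈ Icc s t, γ' r = γ r) :
    Seg P γ' s t := by
  refine ⟨h.1.congr he, fun r hr => ?_⟩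
  have h1 : mfderivWithin 𝓘(ℝ, ℝ) 𝓘(ℝ, Euc m) γ' (Icc s t) r
      = mfderivWithin 𝓘(ℝ, ℝ) 𝓘(ℝ, Euc m) γ (Icc s t) r :=
    mfderivWithin_congr_of_mem he hr
  have h2 : ∀ (x y : M) (v : Euc m), x = y → P x v → P y v := by
    rintro x _ v rfl hv
    exact hv
  refine h2 _ _ _ (he r hr).symm ?_
  have h3 := h.2 r hr
  rw [← h1] at h3
  exact h3

theorem br5_pw_congr {γ γ' : ℝ → M} {a b : ℝ} (h : PwCurve P γ a b) (he : ∀ r ∈ Icc a b, γ' r = γ r) :
    PwCurve P γ' a b := by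
  obtain ⟨n, t, hn, h0, h1, ht⟩ := h
  have hmono : ∀ i ≤ n, a ≤ t i ∧ t i ≤ b := by
    have h2 : ∀ i ≤ n, a ≤ t i := by
      intro i
      induction i with
      | zero => intro _; exact h0.ge
      | succ i ih => intro hi; exact (ih (by omega)).trans (ht i (by omega)).1.le
    have h3 : ∀ k ≤ n, t (n - k) ≤ b := by
      intro k
      induction k with
      | zero => intro _; exact h1.le
      | succ k ih =>
        intro hk
        have h4 := (ht (n - (k + 1)) (by omega)).1.le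
        have e : n - (k + 1) + 1 = n - k := by omega
        rw [e] at h4
        exact h4.trans (ih (by omega))
    intro i hi
    refine ⟨h2 i hi, ?_⟩
    have h4 := h3 (n - i) (by omega)
    rwa [Nat.sub_sub_self hi] at h4
  exact ⟨n, t, hn, h0, h1, fun i hi => ⟨(ht i hi).1, br5_seg_congr (ht i hi).2 fun r hr =>
    he r ⟨(hmono i hi.le).1.trans hr.1, hr.2.trans (hmono (i + 1) hi).2⟩⟩⟩

theorem br5_pw_seg {γ : ℝ → M} {s t : ℝ} (h : Seg P γ s t) (hst : s < t) : PwCurve P γ s t := by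
  refine ⟨1, fun i => if i = 0 then s else t, one_pos, by simp, by simp, fun i hi => ?_⟩
  obtain rfl : i = 0 := by omega
  simpa using ⟨hst, h⟩

theorem br5_pw_join {γ : ℝ → M} {a b c : ℝ} (h : PwCurve P γ a b) (h' : PwCurve P γ b c) :
    PwCurve P γ a c := by
  obtain ⟨n, t, hn, h0, h1, ht⟩ := h
  obtain ⟨n', t', hn', h0', h1', ht'⟩ := h'
  refine ⟨n + n', fun i => if i ≤ n then t i else t' (i - n), by omega, by simp [h0], ?_, ?_⟩
  · beta_reduce
    rw [if_neg (by omega), Nat.add_sub_cancel_left]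
    exact h1'
  · intro i hi
    beta_reduce
    by_cases hin : i < n
    · rw [if_pos hin.le, if_pos (by omega)]
      exact ht i hin
    · by_cases hin' : i = n
      · subst hin'
        rw [if_pos le_rfl, if_neg (by omega), h1, Nat.add_sub_cancel_left, ← h0']
        exact ht' 0 hn'
      · rw [if_neg (by omega), if_neg (by omega)]
        have e : i + 1 - n = (i - n) + 1 := by omega
        rw [e]
        exact ht' (i - n) (by omega)

theorem br5_pw_sub' {γ : ℝ → M} (t : ℕ → ℝ) (n : ℕ) : 0 < n →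
    (∀ i < n, t i < t (i + 1) ∧ Seg P γ (t i) (t (i + 1))) → ∀ a' b', t 0 ≤ a' → a' < b' →
    b' ≤ t n → PwCurve P γ a' b' := by
  induction n with
  | zero => intro hn; exact absurd hn (lt_irrefl 0)
  | succ n ih =>
    intro hn ht a' b' ha hab hb
    by_cases hn0 : n = 0
    · subst hn0
      have h2 := ht 0 one_pos
      exact br5_pw_seg (br5_seg_sub h2.2 ha hab hb) hab
    · have hn1 : 0 < n := Nat.pos_of_ne_zero hn0
      have ht' : ∀ i < n, t i < t (i + 1) ∧ Seg P γ (t i) (t (i + 1)) := fun i hi => ht i (by omega)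
      obtain ⟨h3, h4⟩ := ht n (by omega)
      rcases le_or_gt b' (t n) with hb' | hb'
      · exact ih hn1 ht' a' b' ha hab hb'
      · rcases le_or_gt (t n) a' with ha' | ha'
        · exact br5_pw_seg (br5_seg_sub h4 ha' hab hb) hab
        · exact br5_pw_join (ih hn1 ht' a' (t n) ha ha' le_rfl)
            (br5_pw_seg (br5_seg_sub h4 le_rfl hb' hb) hb')

theorem br5_pw_sub {γ : ℝ → M} {a b a' b' : ℝ} (h : PwCurve P γ a b) (ha : a ≤ a') (hab : a' < b')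
    (hb : b' ≤ b) : PwCurve P γ a' b' := by
  obtain ⟨n, t, hn, h0, h1, ht⟩ := h
  exact br5_pw_sub' t n hn ht a' b' (h0.le.trans ha) hab (hb.trans h1.ge)

/-- affine reparametrisation -/
theorem br5_seg_aff {γ : ℝ → M} {s t α β : ℝ} (hα : 0 < α) (hst : s < t)
    (hP : ∀ x v (c : ℝ), 0 < c → P x v → P x (c • v)) (h : Seg P γ (α * s + β) (α * t + β)) :
    Seg P (fun r => γ (α * r + β)) s t := by
  have hmaps : MapsTo (fun r => α * r + β) (Icc s t) (Icc (α * s + β) (α * t + β)) := by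
    intro r hr
    exact ⟨by nlinarith [hr.1], by nlinarith [hr.2]⟩
  have hφ : ContMDiff 𝓘(ℝ, ℝ) 𝓘(ℝ, ℝ) 1 (fun r : ℝ => α * r + β) := by
    rw [contMDiff_iff_contDiff]
    fun_prop
  refine ⟨h.1.comp hφ.contMDiffOn hmaps, fun r hr => ?_⟩
  have hd : MDifferentiableWithinAt 𝓘(ℝ, ℝ) 𝓘(ℝ, Euc m) γ (Icc (α * s + β) (α * t + β)) (α * r + β) :=
    (h.1 _ (hmaps hr)).mdifferentiableWithinAt (by simp)
  have hd' : MDifferentiableWithinAt 𝓘(ℝ, ℝ) 𝓘(ℝ, ℝ) (fun r : ℝ => α * r + β) (Icc s t) r :=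
    (hφ r).mdifferentiableAt (by simp) |>.mdifferentiableWithinAt
  have h1 : mfderivWithin 𝓘(ℝ, ℝ) 𝓘(ℝ, Euc m) (fun r => γ (α * r + β)) (Icc s t) r
      = (mfderivWithin 𝓘(ℝ, ℝ) 𝓘(ℝ, Euc m) γ (Icc (α * s + β) (α * t + β)) (α * r + β)).comp
        (mfderivWithin 𝓘(ℝ, ℝ) 𝓘(ℝ, ℝ) (fun r : ℝ => α * r + β) (Icc s t) r) :=
    mfderivWithin_comp r hd hd' hmaps (br5_ud hst hr)
  have h2 : mfderivWithin 𝓘(ℝ, ℝ) 𝓘(ℝ, ℝ) (fun r : ℝ => α * r + β) (Icc s t) r (1 : ℝ) = α := by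
    rw [mfderivWithin_eq_fderivWithin]
    have h3 : HasDerivWithinAt (fun r : ℝ => α * r + β) α (Icc s t) r := by
      simpa using ((hasDerivWithinAt_id r (Icc s t)).const_mul α).add_const β
    have h4 := h3.hasFDerivWithinAt.fderivWithin (uniqueDiffOn_Icc hst r hr)
    rw [h4]
    exact one_smul ℝ α
  rw [h1]
  have h5 := h.2 _ (hmaps hr)
  have h6 := hP _ _ α hα h5
  have h7 : ∀ (L : ℝ →L[ℝ] Euc m), α • L 1 = L α := fun L => by
    rw [← map_smul, smul_eq_mul, mul_one]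
  have h8 : ((mfderivWithin 𝓘(ℝ, ℝ) 𝓘(ℝ, Euc m) γ (Icc (α * s + β) (α * t + β)) (α * r + β)).comp
        (mfderivWithin 𝓘(ℝ, ℝ) 𝓘(ℝ, ℝ) (fun r : ℝ => α * r + β) (Icc s t) r)) (1 : ℝ)
      = α • (mfderivWithin 𝓘(ℝ, ℝ) 𝓘(ℝ, Euc m) γ (Icc (α * s + β) (α * t + β)) (α * r + β)) (1 : ℝ) := by
    refine Eq.trans ?_ (h7 _).symm
    exact congrArg (mfderivWithin 𝓘(ℝ, ℝ) 𝓘(ℝ, Euc m) γ (Icc (α * s + β) (α * t + β)) (α * r + β)) h2
  have h9 : ∀ v v' : Euc m, v = v' → P (γ (α * r + β)) v' → P (γ (α * r + β)) v := by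
    rintro v _ rfl hv
    exact hv
  exact h9 _ _ h8 h6

theorem br5_pw_aff {γ : ℝ → M} {a b α β : ℝ} (hα : 0 < α)
    (hP : ∀ x v (c : ℝ), 0 < c → P x v → P x (c • v)) (h : PwCurve P γ (α * a + β) (α * b + β)) :
    PwCurve P (fun r => γ (α * r + β)) a b := by
  obtain ⟨n, t, hn, h0, h1, ht⟩ := h
  have hinv : ∀ x, α * ((x - β) / α) + β = x := by
    intro x
    field_simp
    ring
  refine ⟨n, fun i => (t i - β) / α, hn, ?_, ?_, fun i hi => ?_⟩
  · beta_reduce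
    rw [h0]
    field_simp
    ring
  · beta_reduce
    rw [h1]
    field_simp
    ring
  · beta_reduce
    have hlt : (t i - β) / α < (t (i + 1) - β) / α :=
      div_lt_div_of_pos_right (by linarith [(ht i hi).1]) hα
    refine ⟨hlt, br5_seg_aff hα hlt hP ?_⟩
    rw [hinv, hinv]
    exact (ht i hi).2

end br5

theorem br5_FT_FC (S : Spacetime m M) (x : M) (v : TangentSpace 𝓘(ℝ, Euc m) x)
    (h : FutureTimelike S x v) : FutureCausal S x v := ⟨h.1.le, h.2⟩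

theorem br5_FT_smul (S : Spacetime m M) (x : M) (v : TangentSpace 𝓘(ℝ, Euc m) x) (c : ℝ) (hc : 0 < c)
    (h : FutureTimelike S x v) : FutureTimelike S x (c • v) := by
  constructor
  · have e : S.g x (c • v) (c • v) = c * (c * S.g x v v) := by
      rw [map_smul, (S.g x).map_smul]
      rfl
    rw [e]
    exact mul_neg_of_pos_of_neg hc (mul_neg_of_pos_of_neg hc h.1)
  · rw [map_smul, smul_eq_mul]
    exact mul_neg_of_pos_of_neg hc h.2

/-- one timelike curve on `[i,i+1]` -/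
theorem br5_one (S : Spacetime m M) {p q : M} (h : q ∈ IPlus S p) (i : ℝ) :
    ∃ γ : ℝ → M, PwCurve (FutureTimelike S) γ i (i + 1) ∧ γ i = p ∧ γ (i + 1) = q := by
  obtain ⟨γ, a, b, hγ, ha, hb⟩ := h
  have hab : a < b := by
    obtain ⟨n, t, hn, h0, h1, ht⟩ := hγ
    have h2 : ∀ k ≤ n, 0 < k → a < t k := by
      intro k
      induction k with
      | zero => intro _ h; exact absurd h (lt_irrefl 0)
      | succ k ih =>
        intro hk _
        have h3 := (ht k (by omega)).1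
        rcases Nat.eq_zero_or_pos k with hk0 | hk0
        · subst hk0
          rw [← h0]
          exact h3
        · exact (ih (by omega) hk0).trans h3
    rw [← h1]
    exact h2 n le_rfl hn
  have e1 : (b - a) * i + (a - (b - a) * i) = a := by ring
  have e2 : (b - a) * (i + 1) + (a - (b - a) * i) = b := by ring
  refine ⟨fun r => γ ((b - a) * r + (a - (b - a) * i)), ?_, ?_, ?_⟩
  · refine br5_pw_aff (sub_pos.2 hab) (fun x v c hc h => br5_FT_smul S x v c hc h) ?_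
    rw [e1, e2]
    exact hγ
  · beta_reduce
    rw [e1, ha]
  · beta_reduce
    rw [e2, hb]

/-- gluing -/
theorem br5_glue (S : Spacetime m M) {z : ℤ → M} (hz : ∀ i, z (i + 1) ∈ IPlus S (z i)) :
    ∃ γ : ℝ → M, (∀ i : ℤ, γ i = z i) ∧ ∀ a b : ℝ, a < b → PwCurve (FutureTimelike S) γ a b := by
  choose δ h1 h2 h3 using fun i : ℤ => br5_one S (hz i) (i : ℝ)
  set γ : ℝ → M := fun r => δ ⌊r⌋ r with hγ
  have hint : ∀ i : ℤ, γ i = z i := by
    intro i
    rw [hγ]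
    beta_reduce
    rw [Int.floor_intCast, h2]
  have hpiece : ∀ i : ℤ, PwCurve (FutureTimelike S) γ i (i + 1) := by
    intro i
    refine br5_pw_congr (h1 i) fun r hr => ?_
    rcases eq_or_lt_of_le hr.2 with h | h
    · have e : r = ((i + 1 : ℤ) : ℝ) := by rw [h]; push_cast; rfl
      rw [h, h3 i]
      have e' : ((i : ℝ) + 1) = ((i + 1 : ℤ) : ℝ) := by push_cast; rfl
      rw [e', hint]
    · have e : ⌊r⌋ = i := Int.floor_eq_iff.2 ⟨hr.1, h⟩
      rw [hγ]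
      beta_reduce
      rw [e]
  have hmany : ∀ (n : ℕ) (i : ℤ), PwCurve (FutureTimelike S) γ i ((i : ℝ) + (n + 1 : ℕ)) := by
    intro n i
    induction n with
    | zero => simpa using hpiece i
    | succ n ih =>
      refine br5_pw_join ih ?_
      have h4 := hpiece (i + (n + 1 : ℕ))
      have e1 : ((i + (n + 1 : ℕ) : ℤ) : ℝ) = (i : ℝ) + (n + 1 : ℕ) := by push_cast; rfl
      rw [e1] at h4
      have e2 : (i : ℝ) + (n + 1 : ℕ) + 1 = (i : ℝ) + (n + 1 + 1 : ℕ) := by push_cast; ring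
      rw [e2] at h4
      exact h4
  refine ⟨γ, hint, fun a b hab => ?_⟩
  obtain ⟨n, hn⟩ := exists_nat_gt (b - ⌊a⌋)
  refine br5_pw_sub (hmany n ⌊a⌋) (Int.floor_le a) hab ?_
  push_cast
  linarith

theorem noh_of (S : Spacetime m M) (hc : IsCausal S) (hn : NoObserverHorizons S) : Noh (toSys S) := by
  refine ⟨fun x hx => ?_, fun z hz h1 h2 q => ?_⟩
  · obtain ⟨γ, a, b, hγ, ha, hb⟩ := IPlus_of_tl S hx
    exact hc ⟨γ, a, b, br5_mono (br5_FT_FC S) hγ, ha.trans hb.symm⟩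
  · obtain ⟨γ, hγz, hγ⟩ := br5_glue S (z := z) fun i => IPlus_of_tl S (hz i)
    have hI : Inextendible S γ := by
      refine ⟨fun a b hab => br5_mono (br5_FT_FC S) (hγ a b hab), ?_, ?_⟩
      · rintro ⟨p, hp⟩
        refine h1 ⟨p, ?_⟩
        have h3 := hp.comp (tendsto_intCast_atTop_atTop (R := ℝ))
        exact h3.congr fun i => hγz i
      · rintro ⟨p, hp⟩
        refine h2 ⟨p, ?_⟩
        have h3 := hp.comp ((tendsto_intCast_atBot_iff (R := ℝ)).2 tendsto_id)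
        exact h3.congr fun i => hγz i
    obtain ⟨hp, hm⟩ := hn γ hI
    constructor
    · have hq : q ∈ ⋃ t, IMinus S (γ t) := by rw [hm]; exact mem_univ q
      obtain ⟨t, ht⟩ := mem_iUnion.1 hq
      obtain ⟨n, hn'⟩ := exists_int_gt t
      refine ⟨n, (IPlus_iff S).1 (IPlus_trans S ht ?_)⟩
      exact ⟨γ, t, n, hγ t n hn', rfl, hγz n⟩
    · have hq : q ∈ ⋃ t, IPlus S (γ t) := by rw [hp]; exact mem_univ q
      obtain ⟨t, ht⟩ := mem_iUnion.1 hq
      obtain ⟨n, hn'⟩ := exists_int_lt t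
      refine ⟨n, (IPlus_iff S).1 (IPlus_trans S ?_ ht)⟩
      exact ⟨γ, n, t, hγ n t hn', hγz n, rfl⟩

end Pool.Agent.EG

end

end M_BR5

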