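import Pool.Agent.Lib.MP_eeed5f_gt.L6
import Pool.Agent.Lib.MP_eeed5f_gt.S1

section M_CC1

/-!
Row ec-CC1 (bounded jets along a family; independence of the charts).
`JBat`: in all charts i ∋ z0, j ∋ w0 the matrices HHm are U-bounded.  `JB_of_one`: if it holds for one pair of charts, it holds for all:
HHm_chart, HHm_chart_left and continuity of hTr at the limit points (norm of the transition matrices is U-bounded because
ch i (z k) → ch i z0 ∈ domR).  The same for LLbd with LLm_chart, LLm_chart_left, hTM_cont.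
`Cnv.of_BOf`: a convergent family with BOf is Cnv for some w0.
-/

open scoped ContDiff Topology
open Set Filter

noncomputable section

set_option linter.unusedSectionVars false
set_option maxSynthPendingDepth 3

namespace Pool.Agent.EG

variable {E : Type*} [NormedAddCommGroup E] [NormedSpace ℝ E] [FiniteDimensional ℝ E]
variable {M : Type*} [TopologicalSpace M] {ι : Type*}
variable {𝒮 : LSys E M ι}

variable {κ : Type*}

/-- the family `z` converges to `z0` and its images converge to `w0` -/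
structure Cnv (Φ : κ → Cf 𝒮) (U : Ultrafilter κ) (z : κ → M) (z0 w0 : M) : Prop where
  hz : Tendsto z U (𝓝 z0)
  hw : Tendsto (fun k => (Φ k).φ (z k)) U (𝓝 w0)

/-- the tractor jets are bounded along the family -/
def JBat (Φ : κ → Cf 𝒮) (U : Ultrafilter κ) (z : κ → M) (z0 w0 : M) : Prop :=
  ∀ i j, z0 ∈ (𝒮.ch i).source → w0 ∈ (𝒮.ch j).source → ∃ C, ∀ᶠ k in U, ‖HHm (Φ k) i j (z k)‖ ≤ C

/-- the first derivatives are bounded along the family -/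
def LLbd (Φ : κ → Cf 𝒮) (U : Ultrafilter κ) (z : κ → M) (z0 w0 : M) : Prop :=
  ∀ i j, z0 ∈ (𝒮.ch i).source → w0 ∈ (𝒮.ch j).source → ∃ C, ∀ᶠ k in U, ‖LLm (Φ k) i j (z k)‖ ≤ C

theorem cnv_exists {Φ : κ → Cf 𝒮} {U : Ultrafilter κ} (h : BOf Φ U) {z : κ → M} {z0 : M}
    (hz : Tendsto z U (𝓝 z0)) : ∃ w0, Cnv Φ U z z0 w0 := by
  obtain ⟨w0, hw⟩ := h z z0 hz
  exact ⟨w0, hz, hw⟩

/-- a function continuous on an open set is bounded along a family converging to a point of it -/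
theorem cc1_bdd {X : Type*} [NormedAddCommGroup X] {F : E → X} {D : Set E} (hF : ContinuousOn F D)
    (hD : IsOpen D) {U : Ultrafilter κ} {y : κ → E} {y0 : E} (hy0 : y0 ∈ D)
    (hy : Tendsto y U (𝓝 y0)) : ∃ B, ∀ᶠ k in U, ‖F (y k)‖ ≤ B := by
  have h1 : Tendsto (fun k => F (y k)) U (𝓝 (F y0)) :=
    (hF.continuousAt (hD.mem_nhds hy0)).tendsto.comp hy
  refine ⟨‖F y0‖ + 1, ?_⟩
  have h2 : Tendsto (fun k => ‖F (y k)‖) U (𝓝 ‖F y0‖) := h1.norm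
  filter_upwards [h2.eventually (gt_mem_nhds (lt_add_one ‖F y0‖))] with k hk
  exact hk.le

theorem cc1_app {X Y Z : Type*} [NormedAddCommGroup X] [NormedSpace ℝ X] [NormedAddCommGroup Y]
    [NormedSpace ℝ Y] {l : Filter Z} {f : Z → X →L[ℝ] Y} {f0 : X →L[ℝ] Y} {x : Z → X} {x0 : X}
    (hf : Tendsto f l (𝓝 f0)) (hx : Tendsto x l (𝓝 x0)) :
    Tendsto (fun k => f k (x k)) l (𝓝 (f0 x0)) :=
  (isBoundedBilinearMap_apply (𝕜 := ℝ) (E := X) (F := Y)).continuous.tendsto (f0, x0) |>.comp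
    (hf.prodMk_nhds hx)

theorem cc1_ch {U : Ultrafilter κ} {z : κ → M} {z0 : M} (hz : Tendsto z U (𝓝 z0)) {i : ι}
    (hi : z0 ∈ (𝒮.ch i).source) : Tendsto (fun k => 𝒮.ch i (z k)) U (𝓝 (𝒮.ch i z0)) :=
  ((𝒮.ch i).continuousAt hi).tendsto.comp hz

theorem cc1_src {U : Ultrafilter κ} {z : κ → M} {z0 : M} (hz : Tendsto z U (𝓝 z0)) {i : ι}
    (hi : z0 ∈ (𝒮.ch i).source) : ∀ᶠ k in U, z k ∈ (𝒮.ch i).source :=
  hz.eventually ((𝒮.ch i).open_source.mem_nhds hi)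

theorem cc1_hTr {U : Ultrafilter κ} {z : κ → M} {z0 : M} (hz : Tendsto z U (𝓝 z0)) {i j : ι}
    (hi : z0 ∈ (𝒮.ch i).source) (hj : z0 ∈ (𝒮.ch j).source) :
    ∃ B, ∀ᶠ k in U, ‖hTr 𝒮 i j (𝒮.ch i (z k))‖ ≤ B :=
  cc1_bdd (hTr_cont i j) (domR_open (𝒮.ch i) (𝒮.ch j) continuous_id) (mem_domR hi hj)
    (cc1_ch hz hi)

theorem cc1_hTM {U : Ultrafilter κ} {z : κ → M} {z0 : M} (hz : Tendsto z U (𝓝 z0)) {i j : ι}
    (hi : z0 ∈ (𝒮.ch i).source) (hj : z0 ∈ (𝒮.ch j).source) :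
    ∃ B, ∀ᶠ k in U, ‖hTM 𝒮 i j (𝒮.ch i (z k))‖ ≤ B :=
  cc1_bdd (hTM_cont i j) (domR_open (𝒮.ch i) (𝒮.ch j) continuous_id) (mem_domR hi hj)
    (cc1_ch hz hi)

theorem cc1_prod {X Y : Type*} [NormedAddCommGroup X] [NormedSpace ℝ X] [NormedAddCommGroup Y]
    [NormedSpace ℝ Y] {A B C : ℝ} {f : X →L[ℝ] Y} {g : Y →L[ℝ] Y} {h : X →L[ℝ] X}
    (hg : ‖g‖ ≤ A) (hf : ‖f‖ ≤ B) (hh : ‖h‖ ≤ C) : ‖g.comp (f.comp h)‖ ≤ |A| * (|B| * |C|) := by
  have h1 : ‖g.comp (f.comp h)‖ ≤ ‖g‖ * ‖f.comp h‖ := g.opNorm_comp_le _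
  have h2 : ‖f.comp h‖ ≤ ‖f‖ * ‖h‖ := f.opNorm_comp_le _
  refine h1.trans (mul_le_mul (hg.trans (le_abs_self _)) (h2.trans ?_) (norm_nonneg _)
    (abs_nonneg _))
  exact mul_le_mul (hf.trans (le_abs_self _)) (hh.trans (le_abs_self _)) (norm_nonneg _)
    (abs_nonneg _)

theorem JB_of_one {Φ : κ → Cf 𝒮} {U : Ultrafilter κ} {z : κ → M} {z0 w0 : M} (h : Cnv Φ U z z0 w0)
    {i j : ι} (hi : z0 ∈ (𝒮.ch i).source) (hj : w0 ∈ (𝒮.ch j).source) {C : ℝ}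
    (hC : ∀ᶠ k in U, ‖HHm (Φ k) i j (z k)‖ ≤ C) : JBat Φ U z z0 w0 := by
  intro i' j' hi' hj'
  obtain ⟨B1, hB1⟩ := cc1_hTr (𝒮 := 𝒮) h.hw hj hj'
  obtain ⟨B2, hB2⟩ := cc1_hTr (𝒮 := 𝒮) h.hz hi' hi
  refine ⟨|B1| * (|C| * |B2|), ?_⟩
  filter_upwards [hC, hB1, hB2, cc1_src (𝒮 := 𝒮) h.hz hi, cc1_src (𝒮 := 𝒮) h.hz hi',
    cc1_src (𝒮 := 𝒮) h.hw hj, cc1_src (𝒮 := 𝒮) h.hw hj'] with k h1 h2 h3 h4 h5 h6 h7
  rw [HHm_chart (Φ k) h5 h6 h7, HHm_chart_left (Φ k) h5 h4 h6]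
  exact cc1_prod h2 h1 h3

theorem LL_of_one {Φ : κ → Cf 𝒮} {U : Ultrafilter κ} {z : κ → M} {z0 w0 : M} (h : Cnv Φ U z z0 w0)
    {i j : ι} (hi : z0 ∈ (𝒮.ch i).source) (hj : w0 ∈ (𝒮.ch j).source) {C : ℝ}
    (hC : ∀ᶠ k in U, ‖LLm (Φ k) i j (z k)‖ ≤ C) : LLbd Φ U z z0 w0 := by
  intro i' j' hi' hj'
  obtain ⟨B1, hB1⟩ := cc1_hTM (𝒮 := 𝒮) h.hw hj hj'
  obtain ⟨B2, hB2⟩ := cc1_hTM (𝒮 := 𝒮) h.hz hi' hi
  refine ⟨|B1| * (|C| * |B2|), ?_⟩
  filter_upwards [hC, hB1, hB2, cc1_src (𝒮 := 𝒮) h.hz hi, cc1_src (𝒮 := 𝒮) h.hz hi',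
    cc1_src (𝒮 := 𝒮) h.hw hj, cc1_src (𝒮 := 𝒮) h.hw hj'] with k h1 h2 h3 h4 h5 h6 h7
  rw [LLm_chart (Φ k) h5 h6 h7, LLm_chart_left (Φ k) h5 h4 h6]
  exact cc1_prod h2 h1 h3

/-- the conformal factor is bounded as soon as the first derivatives are -/
theorem cc1_factor {Φ : κ → Cf 𝒮} {U : Ultrafilter κ} {z : κ → M} {z0 w0 : M}
    (h : Cnv Φ U z z0 w0) {i j : ι} (hi : z0 ∈ (𝒮.ch i).source) (hj : w0 ∈ (𝒮.ch j).source) {C : ℝ}
    (h1 : ∀ᶠ k in U, ‖LLm (Φ k) i j (z k)‖ ≤ C) : ∃ B, ∀ᶠ k in U, (Φ k).c (z k) ≤ B := by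
  have ht : 𝒮.ch i z0 ∈ (𝒮.ch i).target := (𝒮.ch i).map_source hi
  have hs : 𝒮.ch j w0 ∈ (𝒮.ch j).target := (𝒮.ch j).map_source hj
  have hTc : Tendsto (fun k => 𝒮.T i (𝒮.ch i (z k))) U (𝓝 (𝒮.T i (𝒮.ch i z0))) :=
    ((𝒮.contT i).continuousAt ((𝒮.ch i).open_target.mem_nhds ht)).tendsto.comp (cc1_ch h.hz hi)
  have hgc : Tendsto (fun k => 𝒮.g i (𝒮.ch i (z k))) U (𝓝 (𝒮.g i (𝒮.ch i z0))) :=
    ((𝒮.met i).smooth.continuousOn.continuousAt ((𝒮.ch i).open_target.mem_nhds ht)).tendsto.comp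
      (cc1_ch h.hz hi)
  have hgT : Tendsto (fun k => 𝒮.g i (𝒮.ch i (z k)) (𝒮.T i (𝒮.ch i (z k)))
      (𝒮.T i (𝒮.ch i (z k)))) U (𝓝 (𝒮.g i (𝒮.ch i z0) (𝒮.T i (𝒮.ch i z0))
      (𝒮.T i (𝒮.ch i z0)))) := cc1_app (cc1_app hgc hTc) hTc
  have hneg := (𝒮.lor i _ ht).neg
  obtain ⟨a, ha⟩ : ∃ a, a = 𝒮.g i (𝒮.ch i z0) (𝒮.T i (𝒮.ch i z0)) (𝒮.T i (𝒮.ch i z0)) := ⟨_, rfl⟩
  rw [← ha] at hneg hgT
  obtain ⟨B1, hB1⟩ := cc1_bdd (𝒮.met j).smooth.continuousOn (𝒮.ch j).open_target hs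
    (cc1_ch h.hw hj)
  obtain ⟨B2, hB2⟩ := cc1_bdd (𝒮.contT i) (𝒮.ch i).open_target ht (cc1_ch h.hz hi)
  obtain ⟨D, hD⟩ : ∃ D, D = |B1| * (|C| * |B2|) * (|C| * |B2|) := ⟨_, rfl⟩
  have hD0 : 0 ≤ D := by rw [hD]; positivity
  refine ⟨2 * D / (-a) + 1, ?_⟩
  have hev : ∀ᶠ k in U, 𝒮.g i (𝒮.ch i (z k)) (𝒮.T i (𝒮.ch i (z k))) (𝒮.T i (𝒮.ch i (z k))) < a / 2 :=
    hgT.eventually (gt_mem_nhds (show a < a / 2 by linarith))
  filter_upwards [h1, hB1, hB2, hev, cc1_src (𝒮 := 𝒮) h.hz hi, cc1_src (𝒮 := 𝒮) h.hw hj]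
    with k e1 e2 e3 e4 e5 e6
  have hconf := LLm_conf (Φ k) e5 e6 (𝒮.T i (𝒮.ch i (z k))) (𝒮.T i (𝒮.ch i (z k)))
  obtain ⟨t, ht'⟩ : ∃ t, t = 𝒮.T i (𝒮.ch i (z k)) := ⟨_, rfl⟩
  obtain ⟨L, hL⟩ : ∃ L, L = LLm (Φ k) i j (z k) := ⟨_, rfl⟩
  rw [← ht'] at hconf e3 e4
  rw [← hL] at hconf e1
  have b0 : ‖L t‖ ≤ |C| * |B2| :=
    (L.le_opNorm t).trans (mul_le_mul (e1.trans (le_abs_self _)) (e3.trans (le_abs_self _))
      (norm_nonneg _) (abs_nonneg _))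
  have b1 : ‖𝒮.g j (𝒮.ch j ((Φ k).φ (z k))) (L t) (L t)‖ ≤ D := by
    refine ((𝒮.g j (𝒮.ch j ((Φ k).φ (z k)))).le_opNorm₂ _ _).trans ?_
    rw [hD]
    exact mul_le_mul (mul_le_mul (e2.trans (le_abs_self _)) b0 (norm_nonneg _) (abs_nonneg _)) b0
      (norm_nonneg _) (by positivity)
  have b2 : -D ≤ 𝒮.g j (𝒮.ch j ((Φ k).φ (z k))) (L t) (L t) := by
    rw [Real.norm_eq_abs] at b1
    exact (abs_le.1 b1).1
  rw [hconf] at b2
  have hc0 : 0 < (Φ k).c (z k) := (Φ k).h.pos _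
  obtain ⟨c, hc⟩ : ∃ c, c = (Φ k).c (z k) := ⟨_, rfl⟩
  rw [← hc] at b2 hc0 ⊢
  have hna : 0 < -a := by linarith
  have b3 : c ^ 2 * (-a) ≤ 2 * D := by
    have := mul_nonneg (sq_nonneg c) (sub_nonneg.2 e4.le)
    nlinarith
  have b4 : c ^ 2 ≤ 2 * D / (-a) := by rw [le_div_iff₀ hna]; exact b3
  nlinarith [sq_nonneg (c - 1)]

/-- explicit bound for the tractor matrices -/
theorem cc1_Hm (g : E → BF E) (f : E → E) (c : E → ℝ) (y : E) {A B L t G : ℝ} (hA : |c y| ≤ A)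
    (hB : |(c y)⁻¹| ≤ B) (hL : ‖fderiv ℝ f y‖ ≤ L) (ht : ‖tau c y‖ ≤ t) (hG : ‖sharp g y‖ ≤ G) :
    ‖Hm g f c y‖ ≤ A + B * (L * (1 + G * t)) + B * (1 + t + t * (G * t)) := by
  have hA0 : 0 ≤ A := (abs_nonneg _).trans hA
  have hB0 : 0 ≤ B := (abs_nonneg _).trans hB
  have hL0 : 0 ≤ L := (norm_nonneg _).trans hL
  have ht0 : 0 ≤ t := (norm_nonneg _).trans ht
  have hG0 : 0 ≤ G := (norm_nonneg _).trans hG
  refine ContinuousLinearMap.opNorm_le_bound _ (by positivity) fun s => ?_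
  rw [Hm_apply]
  have hs1 : ‖s.1‖ ≤ ‖s‖ := norm_fst_le s
  have hs2 : ‖s.2.1‖ ≤ ‖s‖ := (norm_fst_le s.2).trans (norm_snd_le s)
  have hs3 : ‖s.2.2‖ ≤ ‖s‖ := (norm_snd_le s.2).trans (norm_snd_le s)
  have hs0 : 0 ≤ ‖s‖ := norm_nonneg s
  have hsh : ‖sharp g y (tau c y)‖ ≤ G * t :=
    ((sharp g y).le_opNorm _).trans (mul_le_mul hG ht (norm_nonneg _) hG0)
  have k1 : ‖c y * s.1‖ ≤ A * ‖s‖ := by
    rw [norm_mul, Real.norm_eq_abs]
    exact mul_le_mul hA hs1 (norm_nonneg _) hA0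
  have k2 : ‖(c y)⁻¹ • fderiv ℝ f y (s.2.1 + s.1 • sharp g y (tau c y))‖ ≤
      B * (L * (1 + G * t)) * ‖s‖ := by
    rw [norm_smul, Real.norm_eq_abs]
    have k3 : ‖s.2.1 + s.1 • sharp g y (tau c y)‖ ≤ (1 + G * t) * ‖s‖ := by
      refine (norm_add_le _ _).trans ?_
      rw [norm_smul, add_mul, one_mul]
      refine add_le_add hs2 ?_
      rw [mul_comm (G * t)]
      exact mul_le_mul hs1 hsh (norm_nonneg _) hs0
    have k4 : ‖fderiv ℝ f y (s.2.1 + s.1 • sharp g y (tau c y))‖ ≤ L * ((1 + G * t) * ‖s‖) :=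
      ((fderiv ℝ f y).le_opNorm _).trans (mul_le_mul hL k3 (norm_nonneg _) hL0)
    calc |(c y)⁻¹| * ‖fderiv ℝ f y (s.2.1 + s.1 • sharp g y (tau c y))‖
        ≤ B * (L * ((1 + G * t) * ‖s‖)) := mul_le_mul hB k4 (norm_nonneg _) hB0
      _ = B * (L * (1 + G * t)) * ‖s‖ := by ring
  have k5 : ‖(c y)⁻¹ * (s.2.2 - tau c y s.2.1 - (1 / 2) * tau c y (sharp g y (tau c y)) * s.1)‖ ≤
      B * (1 + t + t * (G * t)) * ‖s‖ := by
    rw [norm_mul, Real.norm_eq_abs ((c y)⁻¹)]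
    have k6 : ‖tau c y s.2.1‖ ≤ t * ‖s‖ :=
      ((tau c y).le_opNorm _).trans (mul_le_mul ht hs2 (norm_nonneg _) ht0)
    have k7 : ‖tau c y (sharp g y (tau c y))‖ ≤ t * (G * t) :=
      ((tau c y).le_opNorm _).trans (mul_le_mul ht hsh (norm_nonneg _) ht0)
    have k8 : ‖(1 / 2) * tau c y (sharp g y (tau c y)) * s.1‖ ≤ t * (G * t) * ‖s‖ := by
      rw [norm_mul, norm_mul]
      refine mul_le_mul ?_ hs1 (norm_nonneg _) (by positivity)
      have : ‖(1 / 2 : ℝ)‖ = 1 / 2 := by norm_num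
      rw [this]
      nlinarith [norm_nonneg (tau c y (sharp g y (tau c y)))]
    have k9 : ‖s.2.2 - tau c y s.2.1 - (1 / 2) * tau c y (sharp g y (tau c y)) * s.1‖ ≤
        ‖s‖ + t * ‖s‖ + t * (G * t) * ‖s‖ :=
      (norm_sub_le _ _).trans (add_le_add ((norm_sub_le _ _).trans (add_le_add hs3 k6)) k8)
    calc |(c y)⁻¹| * ‖s.2.2 - tau c y s.2.1 - (1 / 2) * tau c y (sharp g y (tau c y)) * s.1‖
        ≤ B * (‖s‖ + t * ‖s‖ + t * (G * t) * ‖s‖) := mul_le_mul hB k9 (norm_nonneg _) hB0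
      _ = B * (1 + t + t * (G * t)) * ‖s‖ := by ring
  have p1 : 0 ≤ A * ‖s‖ := by positivity
  have p2 : 0 ≤ B * (L * (1 + G * t)) * ‖s‖ := by positivity
  have p3 : 0 ≤ B * (1 + t + t * (G * t)) * ‖s‖ := by positivity
  rw [Prod.norm_mk, Prod.norm_mk, add_mul, add_mul]
  refine max_le (k1.trans (by linarith)) (max_le (k2.trans (by linarith)) (k5.trans (by linarith)))

/-- jets are bounded iff `L`, `τ` and `c⁻¹` are bounded (then `c` is bounded as well) -/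
theorem JB_of_bounds {Φ : κ → Cf 𝒮} {U : Ultrafilter κ} {z : κ → M} {z0 w0 : M} (h : Cnv Φ U z z0 w0)
    {i j : ι} (hi : z0 ∈ (𝒮.ch i).source) (hj : w0 ∈ (𝒮.ch j).source) {C : ℝ}
    (h1 : ∀ᶠ k in U, ‖LLm (Φ k) i j (z k)‖ ≤ C) (h2 : ∀ᶠ k in U, ‖tauM (Φ k) i (z k)‖ ≤ C)
    (h3 : ∀ᶠ k in U, ((Φ k).c (z k))⁻¹ ≤ C) : JBat Φ U z z0 w0 := by
  have ht : 𝒮.ch i z0 ∈ (𝒮.ch i).target := (𝒮.ch i).map_source hi
  obtain ⟨A, hA⟩ := cc1_factor h hi hj h1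
  obtain ⟨G, hG⟩ := cc1_bdd (𝒮.met i).smooth_sharp.continuousOn (𝒮.ch i).open_target ht
    (cc1_ch h.hz hi)
  refine JB_of_one h hi hj (C := A + C * (C * (1 + G * C)) + C * (1 + C + C * (G * C))) ?_
  filter_upwards [h1, h2, h3, hA, hG, cc1_src (𝒮 := 𝒮) h.hz hi] with k e1 e2 e3 e4 e5 e6
  have hc0 : 0 < (Φ k).c (z k) := (Φ k).h.pos _
  have hl : (𝒮.ch i).symm (𝒮.ch i (z k)) = z k := (𝒮.ch i).left_inv e6
  refine cc1_Hm _ _ _ _ ?_ ?_ e1 e2 e5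
  · simp only [hl]
    rw [abs_of_pos hc0]
    exact e4
  · simp only [hl]
    rw [abs_of_pos (inv_pos.2 hc0)]
    exact e3

end Pool.Agent.EG

end

end M_CC1

section M_G1

/-!
Section G of MP_eeed5f_gt (properness makes the conformal group inessential): definitions.  .

`AllJB`: jets are bounded along every family.  `cH`, `lH`: factor and first derivative read off from a
tractor two-jet `H`.  `Psi`: right hand side of the total differential equation `DY = Psi (y, Y)` of the pair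
`Y = (f, Hm)` (`Yl`).  `LimMap`: locally uniform limit of maps along a filter.  `LimCf`: the same for a conformal map and its
inverse.
-/

open scoped ContDiff Topology
open Set Filter

noncomputable section

set_option linter.unusedSectionVars false
set_option maxSynthPendingDepth 3

namespace Pool.Agent.EG

universe u

variable {E : Type*} [NormedAddCommGroup E] [NormedSpace ℝ E] [FiniteDimensional ℝ E]

/-- endomorphisms of the tractor space -/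
abbrev EndT (E : Type*) [NormedAddCommGroup E] [NormedSpace ℝ E] := Tr E →L[ℝ] Tr E

/-- the conformal factor of a tractor two-jet -/
def cH (H : EndT E) : ℝ := (H (1, 0, 0)).1

/-- inclusion `X ↦ (0, X, 0)` -/
def inE (E : Type*) [NormedAddCommGroup E] [NormedSpace ℝ E] : E →L[ℝ] Tr E :=
  (ContinuousLinearMap.inr ℝ ℝ (E × ℝ)).comp (ContinuousLinearMap.inl ℝ E ℝ)

/-- projection `(σ, X, ρ) ↦ X` -/
def prE (E : Type*) [NormedAddCommGroup E] [NormedSpace ℝ E] : Tr E →L[ℝ] E :=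
  (ContinuousLinearMap.fst ℝ E ℝ).comp (ContinuousLinearMap.snd ℝ ℝ (E × ℝ))

/-- the first derivative of a tractor two-jet -/
def lH (H : EndT E) : E →L[ℝ] E := cH H • (prE E).comp (H.comp (inE E))

theorem lH_apply (H : EndT E) (X : E) : lH H X = cH H • (H (0, X, 0)).2.1 := rfl

/-- right hand side of the differential equation of `(f, Hm g f c)` -/
def Psi (g g' : E → BF E) (p : E × E × EndT E) : E →L[ℝ] (E × EndT E) :=
  (lH p.2.2).prod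
    (((ContinuousLinearMap.compL ℝ (Tr E) (Tr E) (Tr E)) p.2.2).comp (At g p.1)
      - ((ContinuousLinearMap.compL ℝ (Tr E) (Tr E) (Tr E)).flip p.2.2).comp ((At g' p.2.1).comp (lH p.2.2)))

theorem Psi_fst (g g' : E → BF E) (p : E × E × EndT E) (Z : E) : (Psi g g' p Z).1 = lH p.2.2 Z := rfl

theorem Psi_snd (g g' : E → BF E) (p : E × E × EndT E) (Z : E) : (Psi g g' p Z).2 =
    p.2.2.comp (At g p.1 Z) - (At g' p.2.1 (lH p.2.2 Z)).comp p.2.2 := rfl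

/-- the pair of the map and its tractor two-jet -/
def Yl (g : E → BF E) (f : E → E) (c : E → ℝ) (y : E) : E × EndT E := (f y, Hm g f c y)

variable {M : Type*} [TopologicalSpace M] {ι : Type*}

/-- `(rep, Hm)` of `Φ` in the charts `i`, `j`, as a function on the chart -/
def Yf {𝒮 : LSys E M ι} (Φ : Cf 𝒮) (i j : ι) (y : E) : E × EndT E :=
  Yl (𝒮.g i) (rep (𝒮.ch i) (𝒮.ch j) Φ.φ) (fun y => Φ.c ((𝒮.ch i).symm y)) y

/-- locally uniform convergence of the family of maps `f k` to `F` along `U` -/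
def LimMap {κ : Type*} (f : κ → M → M) (U : Filter κ) (F : M → M) : Prop :=
  ∀ z0, Tendsto (fun p : κ × M => f p.1 p.2) (U ×ˢ 𝓝 z0) (𝓝 (F z0))

/-- locally uniform convergence of `Φ k` and of the inverses to `Ψ` -/
def LimCf {𝒮 : LSys E M ι} {κ : Type*} (Φ : κ → Cf 𝒮) (U : Filter κ) (Ψ : Cf 𝒮) : Prop :=
  LimMap (fun k => (Φ k).φ) U Ψ.φ ∧ LimMap (fun k => (Φ k).φ.symm) U Ψ.φ.symm

/-- The tractor jets are bounded along every family (of index type in the universe of `M`). -/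
def AllJB {E : Type*} [NormedAddCommGroup E] [NormedSpace ℝ E] [FiniteDimensional ℝ E] {M : Type u}
    [TopologicalSpace M] {ι : Type*} (𝒮 : LSys E M ι) : Prop :=
  ∀ (κ : Type u) (Φ : κ → Cf 𝒮) (U : Ultrafilter κ) (z : κ → M) (z0 w0 : M), Cnv Φ U z z0 w0 →
    JBat Φ U z z0 w0

end Pool.Agent.EG

end

end M_G1

section M_G2

/-!
Row ec-G2 (reading off factor and derivative from a two-jet; the equation DY = Psi(y,Y)).
`cH_Hm`, `lH_Hm`: Hm g f c y (1,0,0) = (c, ..), Hm (0,X,0) = (0, c⁻¹ • Df X, ..) (Hm_apply).  `HHm` is Hm at ch i x, and (ch i).symm (ch i x) = x.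
Norm bounds: ‖(1,0,0)‖ = 1, ‖(0,X,0)‖ ≤ ‖X‖ in the sup norm of Tr E = ℝ × E × ℝ, so |cH H| ≤ ‖H‖, ‖lH H‖ ≤ ‖H‖².
`one_le_norm_Hm`: Hm (0,0,1) = (0,0,c⁻¹), so c⁻¹ ≤ ‖Hm‖, i.e. 1 ≤ ‖Hm‖ * c for c > 0.
`contDiff_lH`, `contDiff_cH`: cH is linear in H, lH is a product (smul) of linear maps.
`Psi_smooth`: At g, At g' are smooth on O, O' (IsMet.smooth_At), everything else is composition with continuous (bi)linear maps
(ContDiffOn.clm_comp, ContinuousLinearMap.contDiff, ContDiffOn.prodMk / the prod of CLMs; `contDiffOn_clm_apply` to test on vectors Z is convenient: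
(Psi p Z).1 = lH p.2.2 Z and (Psi p Z).2 = H.comp (At g y Z) - (At g' w (lH H Z)).comp H).
`Yl_deriv`: f, Hm differentiable at y (smooth_f, smooth_Hm, diffAt_of); HasFDerivAt.prodMk; equality of the derivatives by ext Z: lH_Hm and IsLC.tractor.
-/

open scoped ContDiff Topology
open Set Filter

noncomputable section

set_option linter.unusedSectionVars false
set_option maxSynthPendingDepth 3

namespace Pool.Agent.EG

variable {E : Type*} [NormedAddCommGroup E] [NormedSpace ℝ E] [FiniteDimensional ℝ E]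
variable {O O' S : Set E} {g g' : E → BF E} {f : E → E} {c : E → ℝ} {y : E}

theorem cH_Hm : cH (Hm g f c y) = c y := by
  unfold cH
  rw [Hm_apply]
  simp

theorem lH_Hm (hc : c y ≠ 0) : lH (Hm g f c y) = fderiv ℝ f y := by
  refine ContinuousLinearMap.ext fun X => ?_
  rw [lH_apply, cH_Hm, Hm_apply]
  simp only [zero_smul, add_zero]
  rw [smul_smul, mul_inv_cancel₀ hc, one_smul]

theorem g2_app_le (H : EndT E) {s : Tr E} {a : ℝ} (hs : ‖s‖ ≤ a) : ‖H s‖ ≤ ‖H‖ * a :=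
  (H.le_opNorm s).trans (mul_le_mul_of_nonneg_left hs (norm_nonneg _))

theorem g2_norm1 : ‖((1, 0, 0) : Tr E)‖ ≤ 1 := by
  simp [Prod.norm_def]

theorem g2_norm3 : ‖((0, 0, 1) : Tr E)‖ ≤ 1 := by
  simp [Prod.norm_def]

theorem g2_norm2 (X : E) : ‖((0, X, 0) : Tr E)‖ ≤ ‖X‖ := by
  simp [Prod.norm_def]

theorem abs_cH_le (H : EndT E) : |cH H| ≤ ‖H‖ := by
  have h1 : ‖(H (1, 0, 0)).1‖ ≤ ‖H (1, 0, 0)‖ := norm_fst_le _
  have h2 := g2_app_le H (s := (1, 0, 0)) g2_norm1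
  rw [mul_one] at h2
  exact h1.trans h2

theorem norm_lH_le (H : EndT E) : ‖lH H‖ ≤ ‖H‖ ^ 2 := by
  refine ContinuousLinearMap.opNorm_le_bound _ (by positivity) fun X => ?_
  rw [lH_apply, norm_smul, Real.norm_eq_abs]
  have h1 : ‖(H (0, X, 0)).2.1‖ ≤ ‖H (0, X, 0)‖ := (norm_fst_le _).trans (norm_snd_le _)
  have h2 := g2_app_le H (s := (0, X, 0)) (g2_norm2 X)
  calc |cH H| * ‖(H (0, X, 0)).2.1‖ ≤ ‖H‖ * (‖H‖ * ‖X‖) :=
        mul_le_mul (abs_cH_le H) (h1.trans h2) (norm_nonneg _) (norm_nonneg _)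
    _ = ‖H‖ ^ 2 * ‖X‖ := by ring

theorem one_le_norm_Hm (hc : 0 < c y) : 1 ≤ ‖Hm g f c y‖ * c y := by
  have h1 : ‖(Hm g f c y (0, 0, 1)).2.2‖ ≤ ‖Hm g f c y (0, 0, 1)‖ :=
    (norm_snd_le _).trans (norm_snd_le _)
  have h2 := g2_app_le (Hm g f c y) (s := (0, 0, 1)) g2_norm3
  rw [mul_one] at h2
  have h3 : (Hm g f c y (0, 0, 1)).2.2 = (c y)⁻¹ := by
    rw [Hm_apply]
    simp
  rw [h3, Real.norm_eq_abs, abs_of_pos (inv_pos.2 hc)] at h1
  have h4 := h1.trans h2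
  calc (1 : ℝ) = (c y)⁻¹ * c y := (inv_mul_cancel₀ hc.ne').symm
    _ ≤ ‖Hm g f c y‖ * c y := mul_le_mul_of_nonneg_right h4 hc.le

theorem contDiff_cH : ContDiff ℝ ∞ (cH : EndT E → ℝ) := by
  have h1 : ContDiff ℝ ∞ (fun H : EndT E => H (1, 0, 0)) := contDiff_id.clm_apply contDiff_const
  exact h1.fst

theorem contDiff_lH : ContDiff ℝ ∞ (lH : EndT E → E →L[ℝ] E) := by
  have h1 : ContDiff ℝ ∞ (fun H : EndT E => (prE E).comp (H.comp (inE E))) :=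
    contDiff_const.clm_comp (contDiff_id.clm_comp contDiff_const)
  exact contDiff_cH.smul h1

theorem Psi_smooth (h : IsMet O g) (h' : IsMet O' g') :
    ContDiffOn ℝ ∞ (Psi g g') (O ×ˢ (O' ×ˢ (univ : Set (EndT E)))) := by
  set D : Set (E × E × EndT E) := O ×ˢ (O' ×ˢ (univ : Set (EndT E))) with hD
  have hH : ContDiffOn ℝ ∞ (fun p : E × E × EndT E => p.2.2) D :=
    (contDiff_snd.snd).contDiffOn
  have hl : ContDiffOn ℝ ∞ (fun p : E × E × EndT E => lH p.2.2) D :=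
    contDiff_lH.comp_contDiffOn hH
  have hA : ContDiffOn ℝ ∞ (fun p : E × E × EndT E => At g p.1) D :=
    h.smooth_At.comp contDiff_fst.contDiffOn (fun p hp => hp.1)
  have hA' : ContDiffOn ℝ ∞ (fun p : E × E × EndT E => At g' p.2.1) D :=
    h'.smooth_At.comp (contDiff_snd.fst).contDiffOn (fun p hp => hp.2.1)
  rw [contDiffOn_clm_apply]
  intro Z
  have hlZ : ContDiffOn ℝ ∞ (fun p : E × E × EndT E => lH p.2.2 Z) D :=
    hl.clm_apply contDiffOn_const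
  have hAZ : ContDiffOn ℝ ∞ (fun p : E × E × EndT E => At g p.1 Z) D :=
    hA.clm_apply contDiffOn_const
  have hAZ' : ContDiffOn ℝ ∞ (fun p : E × E × EndT E => At g' p.2.1 (lH p.2.2 Z)) D :=
    hA'.clm_apply hlZ
  exact hlZ.prodMk ((hH.clm_comp hAZ).sub (hAZ'.clm_comp hH))

theorem Yl_smooth (h : IsLC O g O' g' S f c) : ContDiffOn ℝ ∞ (Yl g f c) S :=
  h.smooth_f.prodMk h.smooth_Hm

theorem Yl_deriv (h : IsLC O g O' g' S f c) (hD : 3 ≤ Module.finrank ℝ E) (hy : y ∈ S) :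
    HasFDerivAt (Yl g f c) (Psi g g' (y, Yl g f c y)) y := by
  have d1 : HasFDerivAt f (fderiv ℝ f y) y := (diffAt_of h.isOpen h.smooth_f hy).hasFDerivAt
  have d2 : HasFDerivAt (Hm g f c) (fderiv ℝ (Hm g f c) y) y :=
    (diffAt_of h.isOpen h.smooth_Hm hy).hasFDerivAt
  have hl : lH (Hm g f c y) = fderiv ℝ f y := lH_Hm (h.pos y hy).ne'
  have e : Psi g g' (y, Yl g f c y) = (fderiv ℝ f y).prod (fderiv ℝ (Hm g f c) y) := by
    refine ContinuousLinearMap.ext fun Z => Prod.ext ?_ ?_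
    · rw [Psi_fst]
      change lH (Hm g f c y) Z = fderiv ℝ f y Z
      rw [hl]
    · rw [Psi_snd]
      change (Hm g f c y).comp (At g y Z) - (At g' (f y) (lH (Hm g f c y) Z)).comp (Hm g f c y)
        = fderiv ℝ (Hm g f c) y Z
      rw [hl, h.tractor hD hy Z]
  rw [e]
  exact d1.prodMk d2

variable {M : Type*} [TopologicalSpace M] {ι : Type*}
variable {𝒮 : LSys E M ι}

theorem cH_HHm (Φ : Cf 𝒮) {i j : ι} {x : M} (hx : x ∈ (𝒮.ch i).source) : cH (HHm Φ i j x) = Φ.c x := by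
  unfold HHm
  rw [cH_Hm, (𝒮.ch i).left_inv hx]

theorem lH_HHm (Φ : Cf 𝒮) {i j : ι} {x : M} (hx : x ∈ (𝒮.ch i).source) :
    lH (HHm Φ i j x) = LLm Φ i j x := by
  unfold HHm LLm
  refine lH_Hm ?_
  rw [(𝒮.ch i).left_inv hx]
  exact (Φ.h.pos x).ne'

theorem norm_LLm_le (Φ : Cf 𝒮) {i j : ι} {x : M} (hx : x ∈ (𝒮.ch i).source) :
    ‖LLm Φ i j x‖ ≤ ‖HHm Φ i j x‖ ^ 2 := by
  rw [← lH_HHm Φ hx]
  exact norm_lH_le _

theorem Yf_deriv (hD : 3 ≤ Module.finrank ℝ E) (Φ : Cf 𝒮) {i j : ι}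
    (hy : y ∈ domR (𝒮.ch i) (𝒮.ch j) Φ.φ) :
    HasFDerivAt (Yf Φ i j) (Psi (𝒮.g i) (𝒮.g j) (y, Yf Φ i j y)) y :=
  Yl_deriv (Φ.h.lc i j) hD hy

theorem Yf_fst (Φ : Cf 𝒮) (i j : ι) (y : E) : (Yf Φ i j y).1 = rep (𝒮.ch i) (𝒮.ch j) Φ.φ y := rfl

theorem Yf_chart (Φ : Cf 𝒮) (i j : ι) (x : M) : (Yf Φ i j (𝒮.ch i x)).2 = HHm Φ i j x := rfl

theorem Yf_symm (Φ : Cf 𝒮) (i j : ι) {y : E} (hy : y ∈ (𝒮.ch i).target) :
    (Yf Φ i j y).2 = HHm Φ i j ((𝒮.ch i).symm y) := by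
  unfold HHm
  rw [(𝒮.ch i).right_inv hy]
  rfl

end Pool.Agent.EG

end

end M_G2

section M_G10

/-!
The group structure and the topology of `Cf 𝒮` (definitions).
`Φ * Ψ` = first `Ψ`, then `Φ`.  Topology: induced by `Φ ↦ (Φ, Φ⁻¹) ∈ C(M,M) × C(M,M)` (compact-open topology).
-/

open scoped ContDiff Topology
open Set Filter

noncomputable section

set_option linter.unusedSectionVars false
set_option maxSynthPendingDepth 3

namespace Pool.Agent.EG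

variable {E : Type*} [NormedAddCommGroup E] [NormedSpace ℝ E] [FiniteDimensional ℝ E]
variable {M : Type*} [TopologicalSpace M] {ι : Type*}
variable {𝒮 : LSys E M ι}

/-- a conformal map is determined by its underlying homeomorphism -/
theorem Cf.ext_of {Φ Ψ : Cf 𝒮} (h : Φ.φ = Ψ.φ) : Φ = Ψ := by
  obtain ⟨φ, c, hc⟩ := Φ
  obtain ⟨ψ, d, hd⟩ := Ψ
  obtain rfl : φ = ψ := h
  obtain rfl : c = d := IsCf.unique hc hd
  rfl

instance : Group (Cf 𝒮) where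
  mul Φ Ψ := Ψ.andThen Φ
  one := Cf.one 𝒮
  inv := Cf.inv
  mul_assoc _ _ _ := Cf.ext_of (Homeomorph.ext fun _ => rfl)
  one_mul _ := Cf.ext_of (Homeomorph.ext fun _ => rfl)
  mul_one _ := Cf.ext_of (Homeomorph.ext fun _ => rfl)
  inv_mul_cancel Φ := Cf.ext_of (Homeomorph.ext fun x => Φ.φ.symm_apply_apply x)

theorem mul_φ (Φ Ψ : Cf 𝒮) (x : M) : (Φ * Ψ).φ x = Φ.φ (Ψ.φ x) := rfl

theorem inv_φ (Φ : Cf 𝒮) : (Φ⁻¹).φ = Φ.φ.symm := rfl

theorem one_φ (x : M) : (1 : Cf 𝒮).φ x = x := rfl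

theorem mul_c (Φ Ψ : Cf 𝒮) (x : M) : (Φ * Ψ).c x = Φ.c (Ψ.φ x) * Ψ.c x := rfl

theorem inv_c (Φ : Cf 𝒮) (x : M) : (Φ⁻¹).c x = (Φ.c (Φ.φ.symm x))⁻¹ := rfl

/-- `Φ ↦ (Φ, Φ⁻¹)` -/
def toCC (Φ : Cf 𝒮) : C(M, M) × C(M, M) := (⟨Φ.φ, Φ.φ.continuous⟩, ⟨Φ.φ.symm, Φ.φ.symm.continuous⟩)

instance : TopologicalSpace (Cf 𝒮) := TopologicalSpace.induced toCC inferInstance

end Pool.Agent.EG

end

end M_G10

section M_G11

/-!
Row ec-G11 (the topological group Cf 𝒮; M locally compact T2).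
`cf_tendsto_iff`: nhds_induced, tendsto_comap_iff, Prod.tendsto_iff: Φ k → Ψ iff Φ_k → Ψ and Φ_k⁻¹ → Ψ⁻¹ in C(M,M).  For one component: (a) f_k → f in C(M,M) implies LimMap: evaluation C(M,M) × M → M is continuous
(M locally compact: continuous_eval / ContinuousEval): (f_k, z) → f z0 along U ×ˢ 𝓝 z0.  (b) LimMap implies f_k → f: ContinuousMap.tendsto_nhds_compactOpen: K compact, O open, f(K) ⊆ O: for x ∈ K there are A_x ∈ U, N_x ∈ 𝓝 x with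
f_k(N_x) ⊆ O for k ∈ A_x; finitely many N_x cover K (IsCompact.eventually_forall_of_forall_eventually-type argument, or IsCompact.induction_on).
`topGroup`: mul: toCC (Φ*Ψ) = (Φ∘Ψ, Ψ⁻¹∘Φ⁻¹), composition C(M,M) × C(M,M) → C(M,M) is continuous (ContinuousMap.continuous_comp' / Continuous.compCM, M locally compact).  inv: swap.
`t2`: toCC injective (Cf.ext_of), continuous (induced), target T2: T2Space.of_injective_continuous.
-/

open scoped ContDiff Topology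
open Set Filter

noncomputable section

set_option linter.unusedSectionVars false
set_option maxSynthPendingDepth 3

namespace Pool.Agent.EG

variable {E : Type*} [NormedAddCommGroup E] [NormedSpace ℝ E] [FiniteDimensional ℝ E]
variable {M : Type*} [TopologicalSpace M] {ι : Type*}
variable {𝒮 : LSys E M ι}

theorem g11_lim [LocallyCompactSpace M] {κ : Type*} {f : κ → C(M, M)} {U : Filter κ} {F : C(M, M)} :
    Tendsto f U (𝓝 F) ↔ LimMap (fun k => (f k : M → M)) U (F : M → M) := by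
  constructor
  · intro h z0
    have h1 : Tendsto (fun p : C(M, M) × M => p.1 p.2) (𝓝 (F, z0)) (𝓝 (F z0)) :=
      (ContinuousEval.continuous_eval (F := C(M, M)) (X := M) (Y := M)).tendsto (F, z0)
    have h2 : Tendsto (fun p : κ × M => (f p.1, p.2)) (U ×ˢ 𝓝 z0) (𝓝 (F, z0)) := by
      rw [nhds_prod_eq]
      exact (h.comp tendsto_fst).prodMk tendsto_snd
    exact h1.comp h2
  · intro h
    rw [ContinuousMap.tendsto_nhds_compactOpen]
    intro K hK O hO hKO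
    have h1 : {p : κ × M | f p.1 p.2 ∈ O} ∈ U ×ˢ 𝓝ˢ K :=
      hK.mem_prod_nhdsSet_of_forall fun y hy => h y (hO.mem_nhds (hKO hy))
    obtain ⟨A, hA, B, hB, hAB⟩ := Filter.mem_prod_iff.mp h1
    have hKB : K ⊆ B := subset_of_mem_nhdsSet hB
    filter_upwards [hA] with k hk x hx
    exact hAB (Set.mk_mem_prod hk (hKB hx))

theorem cf_tendsto_iff [LocallyCompactSpace M] {κ : Type*} {Φ : κ → Cf 𝒮} {U : Filter κ} {Ψ : Cf 𝒮} :
    Tendsto Φ U (𝓝 Ψ) ↔ LimCf Φ U Ψ := by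
  have h1 : 𝓝 Ψ = comap toCC (𝓝 (toCC Ψ)) := nhds_induced toCC Ψ
  rw [h1, tendsto_comap_iff, nhds_prod_eq, tendsto_prod_iff']
  exact and_congr g11_lim g11_lim

theorem g11_cont : Continuous (toCC : Cf 𝒮 → C(M, M) × C(M, M)) := continuous_induced_dom

theorem cf_topGroup [LocallyCompactSpace M] : IsTopologicalGroup (Cf 𝒮) := by
  have hm : ContinuousMul (Cf 𝒮) := by
    refine ⟨continuous_induced_rng.2 ?_⟩
    have e : (toCC ∘ fun p : Cf 𝒮 × Cf 𝒮 => p.1 * p.2) = fun p =>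
        ((toCC p.1).1.comp (toCC p.2).1, (toCC p.2).2.comp (toCC p.1).2) := by
      funext p
      rfl
    rw [e]
    have c1 : Continuous fun p : Cf 𝒮 × Cf 𝒮 => toCC p.1 := g11_cont.comp continuous_fst
    have c2 : Continuous fun p : Cf 𝒮 × Cf 𝒮 => toCC p.2 := g11_cont.comp continuous_snd
    exact ((c1.fst).compCM (c2.fst)).prodMk ((c2.snd).compCM (c1.snd))
  have hi : ContinuousInv (Cf 𝒮) := by
    refine ⟨continuous_induced_rng.2 ?_⟩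
    have e : (toCC ∘ fun p : Cf 𝒮 => p⁻¹) = fun p => ((toCC p).2, (toCC p).1) := by
      funext p
      rfl
    rw [e]
    exact g11_cont.snd.prodMk g11_cont.fst
  exact { toContinuousMul := hm, toContinuousInv := hi }

theorem cf_t2 [T2Space M] : T2Space (Cf 𝒮) := by
  refine T2Space.of_injective_continuous (f := (toCC : Cf 𝒮 → C(M, M) × C(M, M))) ?_ g11_cont
  intro Φ Ψ h
  apply Cf.ext_of
  ext x
  have h1 := congrArg (fun q : C(M, M) × C(M, M) => q.1 x) h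
  exact h1

theorem cont_act [LocallyCompactSpace M] : Continuous (fun p : Cf 𝒮 × M => p.1.φ p.2) := by
  have c1 : Continuous fun p : Cf 𝒮 × M => ((toCC p.1).1, p.2) :=
    (g11_cont.comp continuous_fst).fst.prodMk continuous_snd
  exact (ContinuousEval.continuous_eval (F := C(M, M)) (X := M) (Y := M)).comp c1

theorem cont_act_inv [LocallyCompactSpace M] : Continuous (fun p : Cf 𝒮 × M => p.1.φ.symm p.2) := by
  have c1 : Continuous fun p : Cf 𝒮 × M => ((toCC p.1).2, p.2) :=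
    (g11_cont.comp continuous_fst).snd.prodMk continuous_snd
  exact (ContinuousEval.continuous_eval (F := C(M, M)) (X := M) (Y := M)).comp c1

end Pool.Agent.EG

end

end M_G11

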