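import Pool.Agent.Lib.MP_eeed5f_gt.Loc

section M_LB1

/-!
Row ec-LB1 (raising indices).  `sharp g y = (g y).inverse`.
`g y : E →L (E →L ℝ)` is injective by `IsMet.nondeg` and `finrank (E →L ℝ) = finrank E`
(`ContinuousLinearMap`/`Module.Dual`, see `contDiff_inverse_of_nondeg`, `inverse_apply_of_nondeg` in
Pool/Agent/Lib/MP_f72ae4_gt/Final.lean for the same argument), hence bijective; so
`(g y).inverse` is a genuine two-sided inverse (`ContinuousLinearMap.inverse_equiv`).
Smoothness: `contDiffAt_map_inverse` composed with `g` (pointwise on the open set, `ContDiffOn` from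
`ContDiffAt` at the points).
-/

open scoped ContDiff Topology
open Set

noncomputable section

set_option linter.unusedSectionVars false
set_option maxSynthPendingDepth 3

namespace Pool.Agent.EG

variable {E : Type*} [NormedAddCommGroup E] [NormedSpace ℝ E] [FiniteDimensional ℝ E]
variable {V : Type*} [NormedAddCommGroup V] [NormedSpace ℝ V] [FiniteDimensional ℝ V]
variable {V' : Type*} [NormedAddCommGroup V'] [NormedSpace ℝ V'] [FiniteDimensional ℝ V']
variable {O O' S : Set E} {g g' : E → BF E} {f : E → E} {c : E → ℝ} {y : E}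

theorem lb1_equiv (h : IsMet O g) (hy : y ∈ O) :
    ∃ e : E ≃L[ℝ] (E →L[ℝ] ℝ), (e : E →L[ℝ] E →L[ℝ] ℝ) = g y := by
  have hinj : Function.Injective (g y : E →ₗ[ℝ] (E →L[ℝ] ℝ)) := by
    rw [injective_iff_map_eq_zero]
    intro v hv
    exact h.nondeg y hy v fun w => by
      have := DFunLike.congr_fun hv w
      simpa using this
  have hfin : Module.finrank ℝ E = Module.finrank ℝ (E →L[ℝ] ℝ) := by
    rw [← (LinearMap.toContinuousLinearMap : (E →ₗ[ℝ] ℝ) ≃ₗ[ℝ] (E →L[ℝ] ℝ)).finrank_eq]
    exact (Subspace.dual_finrank_eq).symm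
  let e0 := LinearMap.linearEquivOfInjective (g y : E →ₗ[ℝ] (E →L[ℝ] ℝ)) hinj hfin
  refine ⟨e0.toContinuousLinearEquiv, ?_⟩
  ext v w
  rfl

theorem IsMet.bij (h : IsMet O g) (hy : y ∈ O) : Function.Bijective (g y) := by
  obtain ⟨e, he⟩ := lb1_equiv h hy
  rw [← he]
  exact e.bijective

theorem IsMet.g_sharp (h : IsMet O g) (hy : y ∈ O) (a : E →L[ℝ] ℝ) : g y (sharp g y a) = a := by
  obtain ⟨e, he⟩ := lb1_equiv h hy
  unfold sharp
  rw [← he, ContinuousLinearMap.inverse_equiv]
  exact e.apply_symm_apply a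

theorem IsMet.sharp_g (h : IsMet O g) (hy : y ∈ O) (u : E) : sharp g y (g y u) = u := by
  obtain ⟨e, he⟩ := lb1_equiv h hy
  unfold sharp
  rw [← he, ContinuousLinearMap.inverse_equiv]
  exact e.symm_apply_apply u

theorem IsMet.sharp_symm (h : IsMet O g) (hy : y ∈ O) (a b : E →L[ℝ] ℝ) :
    a (sharp g y b) = b (sharp g y a) := by
  have h1 : g y (sharp g y a) (sharp g y b) = a (sharp g y b) := by rw [h.g_sharp hy]
  have h2 : g y (sharp g y b) (sharp g y a) = b (sharp g y a) := by rw [h.g_sharp hy]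
  rw [← h1, ← h2, h.symm y hy]

theorem IsMet.eq_of_g (h : IsMet O g) (hy : y ∈ O) {u v : E} (huv : ∀ w, g y u w = g y v w) :
    u = v := by
  have := h.nondeg y hy (u - v) (fun w => by simp [huv w])
  exact sub_eq_zero.mp this

theorem IsMet.smooth_sharp (h : IsMet O g) : ContDiffOn ℝ ∞ (sharp g) O := by
  intro z hz
  obtain ⟨e, he⟩ := lb1_equiv h hz
  have h1 := contDiffAt_map_inverse (n := ∞) e
  rw [he] at h1
  exact h1.comp_contDiffWithinAt z (h.smooth z hz)

/-- Differentiability of a smooth map at a point of an open set. -/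
theorem diffAt_of {F : Type*} [NormedAddCommGroup F] [NormedSpace ℝ F] {G : E → F} {O : Set E}
    (hO : IsOpen O) (h : ContDiffOn ℝ ∞ G O) {y : E} (hy : y ∈ O) : DifferentiableAt ℝ G y :=
  (h.differentiableOn (by simp)).differentiableAt (hO.mem_nhds hy)

theorem smooth_fderiv {F : Type*} [NormedAddCommGroup F] [NormedSpace ℝ F] {G : E → F} {O : Set E}
    (hO : IsOpen O) (h : ContDiffOn ℝ ∞ G O) : ContDiffOn ℝ ∞ (fun y => fderiv ℝ G y) O :=
  h.fderiv_of_isOpen hO (by simp)

end Pool.Agent.EG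

end

end M_LB1

section M_LB2

/-!
Row ec-LB2 (Levi-Civita connection).
`gam_symm`: `lowerC g y u v = lowerC g y v u` because `fderiv ℝ g y w u v = fderiv ℝ g y w v u`
(differentiate `IsMet.symm` on the open set `O`; use `h.fderiv_symm` below).
`compat`: `g(Γ(w,u),v) = lowerC g y w u v` (by `g_sharp`), the same for `g(u,Γ(w,v)) = g(Γ(w,v),u)`
(`IsMet.symm`), add and use `fderiv_symm`.
`smooth_gam`: finite dimensional criterion `contDiffOn_clm_apply` twice; for fixed `u v`,
`y ↦ sharp g y (lowerC g y u v)` is `ContDiffOn.clm_apply` of `smooth_sharp` and the smooth map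
`y ↦ lowerC g y u v` (again `contDiffOn_clm_apply`, `smooth_fderiv`).
-/

open scoped ContDiff Topology
open Set

noncomputable section

set_option linter.unusedSectionVars false
set_option maxSynthPendingDepth 3

namespace Pool.Agent.EG

variable {E : Type*} [NormedAddCommGroup E] [NormedSpace ℝ E] [FiniteDimensional ℝ E]
variable {V : Type*} [NormedAddCommGroup V] [NormedSpace ℝ V] [FiniteDimensional ℝ V]
variable {V' : Type*} [NormedAddCommGroup V'] [NormedSpace ℝ V'] [FiniteDimensional ℝ V']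
variable {O O' S : Set E} {g g' : E → BF E} {f : E → E} {c : E → ℝ} {y : E}

/-- derivative of `z ↦ g z u v` -/
theorem lb2_eval (hd : DifferentiableAt ℝ g y) (u v : E) :
    HasFDerivAt (fun z => g z u v) (((fderiv ℝ g y).flip u).flip v) y := by
  have h1 := (hd.hasFDerivAt.clm_apply (hasFDerivAt_const u y)).clm_apply (hasFDerivAt_const v y)
  refine h1.congr_fderiv ?_
  ext w
  simp

theorem IsMet.fderiv_symm (h : IsMet O g) (hy : y ∈ O) (w u v : E) :
    fderiv ℝ g y w u v = fderiv ℝ g y w v u := by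
  have hd := diffAt_of h.isOpen h.smooth hy
  have h1 := lb2_eval hd u v
  have h2 := lb2_eval hd v u
  have h3 : (fun z => g z u v) =ᶠ[𝓝 y] fun z => g z v u := by
    filter_upwards [h.isOpen.mem_nhds hy] with z hz using h.symm z hz u v
  have h4 := (h2.congr_of_eventuallyEq h3).unique h1
  have h5 := congrArg (fun L : E →L[ℝ] ℝ => L w) h4
  exact h5.symm

theorem lb2_lowerC (g : E → BF E) (y u v w : E) : lowerC g y u v w =
    (1 / 2 : ℝ) * (fderiv ℝ g y u v w + fderiv ℝ g y v u w - fderiv ℝ g y w u v) := rfl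

theorem IsMet.gam_symm (h : IsMet O g) (hy : y ∈ O) (u v : E) : Gam g y u v = Gam g y v u := by
  rw [Gam_apply, Gam_apply]
  congr 1
  ext w
  rw [lb2_lowerC, lb2_lowerC, h.fderiv_symm hy w u v]
  ring

/-- metric compatibility `D_w g(u,v) = g(Γ(w,u),v) + g(u,Γ(w,v))`. -/
theorem IsMet.compat (h : IsMet O g) (hy : y ∈ O) (w u v : E) :
    fderiv ℝ g y w u v = g y (Gam g y w u) v + g y u (Gam g y w v) := by
  rw [h.symm y hy u, Gam_apply, Gam_apply, h.g_sharp hy, h.g_sharp hy, lb2_lowerC, lb2_lowerC,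
    h.fderiv_symm hy w v u]
  ring

theorem lb2_smooth_lowerC (h : IsMet O g) (u v : E) :
    ContDiffOn ℝ ∞ (fun y => lowerC g y u v) O := by
  have hs : ContDiffOn ℝ ∞ (fun y => fderiv ℝ g y) O := smooth_fderiv h.isOpen h.smooth
  have h1 : ∀ a b c : E, ContDiffOn ℝ ∞ (fun y => fderiv ℝ g y a b c) O := fun a b c =>
    ((hs.clm_apply contDiffOn_const).clm_apply contDiffOn_const).clm_apply contDiffOn_const
  rw [contDiffOn_clm_apply]
  intro w
  exact contDiffOn_const.mul (((h1 u v w).add (h1 v u w)).sub (h1 w u v))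

theorem IsMet.smooth_gam (h : IsMet O g) : ContDiffOn ℝ ∞ (Gam g) O := by
  rw [contDiffOn_clm_apply]
  intro u
  rw [contDiffOn_clm_apply]
  intro v
  exact h.smooth_sharp.clm_apply (lb2_smooth_lowerC h u v)

end Pool.Agent.EG

end

end M_LB2

section M_TR1

/-!
Row ec-TR1 (Grönwall with variable coefficient and one sided derivatives).
Forward: for η > 0 put B(s) = exp(Λ s - Λ a) (‖u a‖ + e (s-a) + η (s - a + 1)).  B has right derivative
Λ' B + exp(..)(e+η) > Λ' B + e when Λ s ≥ Λ a (Λ is monotone on [a,b] as Λ' ≥ 0: `image_le_of_...` or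
`monotoneOn_of_...` with right derivatives, e.g. apply `image_le_of_liminf_slope_right_le_deriv_boundary` / the same theorem to -Λ).
Apply `image_norm_le_of_norm_deriv_right_lt_deriv_boundary'` (‖u s‖ = B s → ‖u' s‖ ≤ Λ'‖u‖+e < B' s); let η → 0.
Backward: apply the forward version to s ↦ u(a+b-s), Λ~(s) = -Λ(a+b-s) (left derivatives become right derivatives).
-/

open scoped ContDiff Topology
open Set

noncomputable section

set_option linter.unusedSectionVars false
set_option maxSynthPendingDepth 3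

namespace Pool.Agent.EG

variable {E : Type*} [NormedAddCommGroup E] [NormedSpace ℝ E] [FiniteDimensional ℝ E]
variable {V : Type*} [NormedAddCommGroup V] [NormedSpace ℝ V] [FiniteDimensional ℝ V]
variable {V' : Type*} [NormedAddCommGroup V'] [NormedSpace ℝ V'] [FiniteDimensional ℝ V']
variable {O O' S : Set E} {g g' : E → BF E} {f : E → E} {c : E → ℝ} {y : E}

theorem gron_mono {L L' : ℝ → ℝ} {a b : ℝ} (hL : ContinuousOn L (Icc a b))
    (hL' : ∀ s ∈ Ico a b, HasDerivWithinAt L (L' s) (Ici s) s) (h0 : ∀ s ∈ Ico a b, 0 ≤ L' s) :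
    MonotoneOn L (Icc a b) := by
  intro x hx y hy hxy
  have hsub : Icc x y ⊆ Icc a b := Icc_subset_Icc hx.1 hy.2
  have hsub' : Ico x y ⊆ Ico a b := Ico_subset_Ico hx.1 hy.2
  exact image_le_of_deriv_right_le_deriv_boundary (f := fun _ => L x) (f' := fun _ => 0) (B := L) (B' := L')
    continuousOn_const (fun s _ => hasDerivWithinAt_const s (Ici s) (L x)) le_rfl (hL.mono hsub)
    (fun s hs => hL' s (hsub' hs)) (fun s hs => h0 s (hsub' hs)) ⟨hxy, le_rfl⟩

theorem gron_fwd {F : Type*} [NormedAddCommGroup F] [NormedSpace ℝ F] {u u' : ℝ → F}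
    {L L' : ℝ → ℝ} {a b e : ℝ} (he : 0 ≤ e)
    (hu : ContinuousOn u (Icc a b)) (hu' : ∀ s ∈ Ico a b, HasDerivWithinAt u (u' s) (Ici s) s)
    (hL : ContinuousOn L (Icc a b)) (hL' : ∀ s ∈ Ico a b, HasDerivWithinAt L (L' s) (Ici s) s)
    (h0 : ∀ s ∈ Ico a b, 0 ≤ L' s) (bound : ∀ s ∈ Ico a b, ‖u' s‖ ≤ L' s * ‖u s‖ + e) :
    ∀ s ∈ Icc a b, ‖u s‖ ≤ Real.exp (L s - L a) * (‖u a‖ + e * (s - a)) := by
  have hmono := gron_mono hL hL' h0
  intro s hs
  have hab : a ≤ b := hs.1.trans hs.2
  have key : ∀ η : ℝ, 0 < η →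
      ‖u s‖ ≤ Real.exp (L s - L a) * (‖u a‖ + e * (s - a) + η * (s - a + 1)) := by
    intro η hη
    have h1 := image_norm_le_of_norm_deriv_right_lt_deriv_boundary' (f := u) (f' := u') hu hu'
      (B := fun t => Real.exp (L t - L a) * (‖u a‖ + e * (t - a) + η * (t - a + 1)))
      (B' := fun t => Real.exp (L t - L a) * L' t * (‖u a‖ + e * (t - a) + η * (t - a + 1))
        + Real.exp (L t - L a) * (e + η)) ?_ ?_ ?_ ?_
    · exact h1 hs
    · rw [sub_self, sub_self, Real.exp_zero, one_mul, mul_zero, add_zero, zero_add, mul_one]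
      linarith
    · refine ContinuousOn.mul (Real.continuous_exp.comp_continuousOn (hL.sub continuousOn_const)) ?_
      exact Continuous.continuousOn (by fun_prop)
    · intro t ht
      have h2 : HasDerivWithinAt (fun t => Real.exp (L t - L a)) (Real.exp (L t - L a) * L' t) (Ici t) t :=
        ((hL' t ht).sub_const (L a)).exp
      have h3 : HasDerivWithinAt (fun t : ℝ => ‖u a‖ + e * (t - a) + η * (t - a + 1)) (e + η) (Ici t) t := by
        have h4 : HasDerivAt (fun t : ℝ => ‖u a‖ + e * (t - a) + η * (t - a + 1)) (e * 1 + η * 1) t :=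
          ((((hasDerivAt_id t).sub_const a).const_mul e).const_add ‖u a‖).add
            ((((hasDerivAt_id t).sub_const a).add_const 1).const_mul η)
        rw [mul_one, mul_one] at h4
        exact h4.hasDerivWithinAt
      exact h2.mul h3
    · intro t ht hut
      have htI : t ∈ Icc a b := ⟨ht.1, ht.2.le⟩
      have h5 := bound t ht
      have h6 : 1 ≤ Real.exp (L t - L a) := by
        apply Real.one_le_exp
        have := hmono ⟨le_rfl, hab⟩ htI ht.1
        linarith
      rw [hut] at h5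
      have h7 : e < Real.exp (L t - L a) * (e + η) := by
        nlinarith
      have h8 : L' t * (Real.exp (L t - L a) * (‖u a‖ + e * (t - a) + η * (t - a + 1)))
          = Real.exp (L t - L a) * L' t * (‖u a‖ + e * (t - a) + η * (t - a + 1)) := by ring
      calc ‖u' t‖ ≤ L' t * (Real.exp (L t - L a) * (‖u a‖ + e * (t - a) + η * (t - a + 1))) + e := h5
        _ < Real.exp (L t - L a) * L' t * (‖u a‖ + e * (t - a) + η * (t - a + 1))
            + Real.exp (L t - L a) * (e + η) := by rw [h8]; linarith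
  refine le_of_forall_pos_le_add fun ε hε => ?_
  have hK : 0 < Real.exp (L s - L a) * (s - a + 1) :=
    mul_pos (Real.exp_pos _) (by linarith [hs.1])
  have h9 := key (ε / (Real.exp (L s - L a) * (s - a + 1))) (div_pos hε hK)
  have h10 : Real.exp (L s - L a) * (ε / (Real.exp (L s - L a) * (s - a + 1)) * (s - a + 1)) = ε := by
    have hx : Real.exp (L s - L a) ≠ 0 := (Real.exp_pos _).ne'
    have hy : s - a + 1 ≠ 0 := by linarith [hs.1]
    field_simp
  calc ‖u s‖ ≤ _ := h9
    _ = Real.exp (L s - L a) * (‖u a‖ + e * (s - a)) + ε := by rw [mul_add, h10]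

theorem gron_bwd {F : Type*} [NormedAddCommGroup F] [NormedSpace ℝ F] {u u' : ℝ → F}
    {L L' : ℝ → ℝ} {a b e : ℝ} (he : 0 ≤ e)
    (hu : ContinuousOn u (Icc a b)) (hu' : ∀ s ∈ Ioc a b, HasDerivWithinAt u (u' s) (Iic s) s)
    (hL : ContinuousOn L (Icc a b)) (hL' : ∀ s ∈ Ioc a b, HasDerivWithinAt L (L' s) (Iic s) s)
    (h0 : ∀ s ∈ Ioc a b, 0 ≤ L' s) (bound : ∀ s ∈ Ioc a b, ‖u' s‖ ≤ L' s * ‖u s‖ + e) :
    ∀ s ∈ Icc a b, ‖u s‖ ≤ Real.exp (L b - L s) * (‖u b‖ + e * (b - s)) := by
  have hmap : MapsTo (fun x : ℝ => a + b - x) (Icc a b) (Icc a b) := by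
    intro x hx
    exact ⟨by linarith [hx.2], by linarith [hx.1]⟩
  have hmap' : ∀ x ∈ Ico a b, a + b - x ∈ Ioc a b := by
    intro x hx
    exact ⟨by linarith [hx.2], by linarith [hx.1]⟩
  have hc : ContinuousOn (fun x : ℝ => a + b - x) (Icc a b) := Continuous.continuousOn (by fun_prop)
  have hd : ∀ x : ℝ, HasDerivWithinAt (fun x : ℝ => a + b - x) (-1) (Ici x) x := fun x =>
    ((hasDerivAt_id x).const_sub (a + b)).hasDerivWithinAt
  have hm : ∀ x : ℝ, MapsTo (fun x : ℝ => a + b - x) (Ici x) (Iic (a + b - x)) := by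
    intro x y hy
    have : x ≤ y := hy
    show a + b - y ≤ a + b - x
    linarith
  have h1 := gron_fwd (u := fun x => u (a + b - x)) (u' := fun x => -(u' (a + b - x)))
    (L := fun x => -(L (a + b - x))) (L' := fun x => L' (a + b - x)) (a := a) (b := b) he
    (hu.comp hc hmap)
    (fun x hx => by
      have h2 := HasDerivWithinAt.scomp x (hu' _ (hmap' x hx)) (hd x) (hm x)
      rw [neg_one_smul] at h2
      exact h2)
    (hL.comp hc hmap).neg
    (fun x hx => by
      have h2 := (HasDerivWithinAt.scomp x (hL' _ (hmap' x hx)) (hd x) (hm x)).neg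
      rw [neg_one_smul, neg_neg] at h2
      exact h2)
    (fun x hx => h0 _ (hmap' x hx))
    (fun x hx => by rw [norm_neg]; exact bound _ (hmap' x hx))
  intro s hs
  have h3 := h1 (a + b - s) (hmap hs)
  have e1 : a + b - (a + b - s) = s := by ring
  have e2 : a + b - a = b := by ring
  simp only [e1, e2] at h3
  have e3 : -L s - -L b = L b - L s := by ring
  have e4 : a + b - s - a = b - s := by ring
  rw [e3, e4] at h3
  exact h3

end Pool.Agent.EG

end

end M_TR1

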