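import Pool.Agent.Lib.MP_eeed5f_gt.L4
import Pool.Agent.Lib.MP_eeed5f_gt.S0
import Pool.Agent.Lib.MP_eeed5f_gt.S1

section M_LB8

/-!
Row ec-LB8 ((B5): the tractor identity D_Z H = H A(Z) - A'(LZ) H).  L = Df, τ = tau c, V = X+στ^#.
Check it on a vector (σ,X,ρ), three components (H is smooth, so differentiate the three components).
1) `D_Z(cσ) = c τ(Z) σ`;  (HA)_1 = -c g(Z,X);  (A'H)_1 = -g'(LZ, c⁻¹L V) = -c g(Z,X) - c σ τ(Z).
2) `D_Z(c⁻¹ L V) = c⁻¹(-τ(Z) L V + D²f(Z,V) + σ L D_Z(τ^#))`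
   `= c⁻¹ L{Γ(Z,X) + σ (∇_Zτ)^# + τ(V)Z - g(Z,V)τ^#} - Γ'(LZ, c⁻¹LV)` by `hess` and `nab_sharp`.
   (HA)_2 = c⁻¹L(Γ(Z,X)+σP^#Z+ρZ - g(Z,X)τ^#);
   (A'H)_2 = Γ'(LZ,c⁻¹LV) + cσ P'^#(LZ) + c⁻¹(ρ-τ(X)-½|τ|²σ) LZ, and by sharp_pull + sch_pull
   P'^#(LZ) = c⁻² L (P - S)^#Z, (S^#Z) = (∇_Zτ)^# - τ(Z)τ^# + ½|τ|² Z.  Everything cancels.
3) `D_Z(c⁻¹(ρ-τ(X)-½|τ|²σ)) = c⁻¹(-τ(Z)(ρ-τ(X)-½|τ|²σ) - (D_Zτ)(X) - ½ σ D_Z|τ|²)`, `½D_Z|τ|² = (∇_Zτ)(τ^#)`,
   (HA)_3 = c⁻¹(-P(Z,X) - τ(Γ(Z,X)+σP^#Z+ρZ) + ½|τ|² g(Z,X)),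
   (A'H)_3 = -c⁻¹ (P-S)(Z, X+στ^#)   (sch_pull).
(The three components were verified by hand twice.)
-/

open scoped ContDiff Topology
open Set

noncomputable section

set_option linter.unusedSectionVars false
set_option maxSynthPendingDepth 3

namespace Pool.Agent.EG

variable {E : Type*} [NormedAddCommGroup E] [NormedSpace ℝ E] [FiniteDimensional ℝ E]
variable {V : Type*} [NormedAddCommGroup V] [NormedSpace ℝ V] [FiniteDimensional ℝ V]
variable {V' : Type*} [NormedAddCommGroup V'] [NormedSpace ℝ V'] [FiniteDimensional ℝ V']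
variable {O O' S : Set E} {g g' : E → BF E} {f : E → E} {c : E → ℝ} {y : E}

theorem lb8_line {F : Type*} [NormedAddCommGroup F] [NormedSpace ℝ F] {G : E → F} {y : E} (Z : E)
    (h : DifferentiableAt ℝ G y) :
    HasDerivAt (fun t : ℝ => G (y + t • Z)) (fderiv ℝ G y Z) 0 := by
  have h1 : HasDerivAt (fun t : ℝ => y + t • Z) Z 0 := by
    simpa using ((hasDerivAt_id (0 : ℝ)).smul_const Z).const_add y
  have h2 : HasFDerivAt G (fderiv ℝ G y) (y + (0 : ℝ) • Z) := by simpa using h.hasFDerivAt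
  exact h2.comp_hasDerivAt (0 : ℝ) h1

/-- The derivative of the tractor two-jet, evaluated on a vector. -/
theorem lb8_deriv (h : IsLC O g O' g' S f c) (hy : y ∈ S) (Z X : E) (σ ρ : ℝ) :
    fderiv ℝ (Hm g f c) y Z (σ, X, ρ)
      = ((fderiv ℝ c y Z * σ,
          (-fderiv ℝ c y Z / c y ^ 2) • fderiv ℝ f y (X + σ • sharp g y (tau c y))
            + (c y)⁻¹ • (fderiv ℝ (fderiv ℝ f) y Z (X + σ • sharp g y (tau c y))
              + fderiv ℝ f y (σ • fderiv ℝ (fun z => sharp g z (tau c z)) y Z)),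
          (-fderiv ℝ c y Z / c y ^ 2)
              * (ρ - tau c y X - (1 / 2) * tau c y (sharp g y (tau c y)) * σ)
            + (c y)⁻¹ * (- fderiv ℝ (tau c) y Z X
              - (1 / 2) * (fderiv ℝ (tau c) y Z (sharp g y (tau c y))
                + tau c y (fderiv ℝ (fun z => sharp g z (tau c z)) y Z)) * σ)) : Tr E) := by
  have hc0 : c y ≠ 0 := (h.pos y hy).ne'
  have hO : S ⊆ O := h.sub
  have dH : DifferentiableAt ℝ (Hm g f c) y := diffAt_of h.isOpen h.smooth_Hm hy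
  have dc : DifferentiableAt ℝ c y := diffAt_of h.isOpen h.smooth_c hy
  have df : DifferentiableAt ℝ (fderiv ℝ f) y :=
    diffAt_of h.isOpen (smooth_fderiv h.isOpen h.smooth_f) hy
  have dt : DifferentiableAt ℝ (tau c) y := diffAt_of h.isOpen h.smooth_tau hy
  have ds : DifferentiableAt ℝ (fun z => sharp g z (tau c z)) y :=
    diffAt_of h.isOpen ((h.met.smooth_sharp.mono hO).clm_apply h.smooth_tau) hy
  have L0 := lb8_line Z dH
  have Lc := lb8_line Z dc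
  have Lf := lb8_line Z df
  have Lt := lb8_line Z dt
  have Ls := lb8_line Z ds
  have e0 : y + (0 : ℝ) • Z = y := by simp
  have hinv : HasDerivAt (fun t : ℝ => (c (y + t • Z))⁻¹) (-fderiv ℝ c y Z / c y ^ 2) 0 := by
    have := Lc.inv (by simpa using hc0)
    simp only [e0] at this
    exact this
  have A1 : HasDerivAt (fun t : ℝ => c (y + t • Z) * σ) (fderiv ℝ c y Z * σ) 0 :=
    Lc.mul_const σ
  have Av : HasDerivAt (fun t : ℝ => X + σ • sharp g (y + t • Z) (tau c (y + t • Z)))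
      (σ • fderiv ℝ (fun z => sharp g z (tau c z)) y Z) 0 := by
    simpa using (Ls.const_smul σ).const_add X
  have Afv : HasDerivAt (fun t : ℝ => fderiv ℝ f (y + t • Z)
      (X + σ • sharp g (y + t • Z) (tau c (y + t • Z))))
      (fderiv ℝ (fderiv ℝ f) y Z (X + σ • sharp g y (tau c y))
        + fderiv ℝ f y (σ • fderiv ℝ (fun z => sharp g z (tau c z)) y Z)) 0 := by
    have := Lf.clm_apply Av
    simpa only [e0] using this
  have A2 : HasDerivAt (fun t : ℝ => (c (y + t • Z))⁻¹ • fderiv ℝ f (y + t • Z)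
      (X + σ • sharp g (y + t • Z) (tau c (y + t • Z))))
      ((c y)⁻¹ • (fderiv ℝ (fderiv ℝ f) y Z (X + σ • sharp g y (tau c y))
          + fderiv ℝ f y (σ • fderiv ℝ (fun z => sharp g z (tau c z)) y Z))
        + (-fderiv ℝ c y Z / c y ^ 2) • fderiv ℝ f y (X + σ • sharp g y (tau c y))) 0 := by
    have := hinv.smul Afv
    simp only [e0] at this
    exact this
  have Att : HasDerivAt (fun t : ℝ => tau c (y + t • Z)
      (sharp g (y + t • Z) (tau c (y + t • Z))))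
      (fderiv ℝ (tau c) y Z (sharp g y (tau c y))
        + tau c y (fderiv ℝ (fun z => sharp g z (tau c z)) y Z)) 0 := by
    have := Lt.clm_apply Ls
    simpa only [e0] using this
  have AtX : HasDerivAt (fun t : ℝ => tau c (y + t • Z) X) (fderiv ℝ (tau c) y Z X) 0 := by
    have := Lt.clm_apply (hasDerivAt_const (0 : ℝ) X)
    simpa using this
  have A3a : HasDerivAt (fun t : ℝ => ρ - tau c (y + t • Z) X
      - (1 / 2) * tau c (y + t • Z) (sharp g (y + t • Z) (tau c (y + t • Z))) * σ)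
      (- fderiv ℝ (tau c) y Z X
              - (1 / 2) * (fderiv ℝ (tau c) y Z (sharp g y (tau c y))
                + tau c y (fderiv ℝ (fun z => sharp g z (tau c z)) y Z)) * σ) 0 :=
    (AtX.const_sub ρ).sub ((Att.const_mul (1 / 2 : ℝ)).mul_const σ)
  have A3 := hinv.mul A3a
  have key := (A1.prodMk (A2.prodMk A3))
  have L1 : HasDerivAt (fun t : ℝ => Hm g f c (y + t • Z) ((σ, X, ρ) : Tr E))
      (fderiv ℝ (Hm g f c) y Z (σ, X, ρ)) 0 := by
    have := L0.clm_apply (hasDerivAt_const (0 : ℝ) ((σ, X, ρ) : Tr E))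
    simpa using this
  have := L1.unique key
  rw [this]
  refine Prod.ext rfl (Prod.ext ?_ ?_)
  · simp only
    rw [add_comm]
  · simp only [e0]

theorem IsLC.tractor (h : IsLC O g O' g' S f c) (hD : 3 ≤ Module.finrank ℝ E) (hy : y ∈ S)
    (Z : E) :
    fderiv ℝ (Hm g f c) y Z
      = (Hm g f c y).comp (At g y Z) - (At g' (f y) (fderiv ℝ f y Z)).comp (Hm g f c y) := by
  have hc0 : c y ≠ 0 := (h.pos y hy).ne'
  have hyO : y ∈ O := h.sub hy
  have dt : DifferentiableAt ℝ (tau c) y := diffAt_of h.isOpen h.smooth_tau hy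
  have dc : fderiv ℝ c y Z = c y * tau c y Z := by
    simp only [tau, ContinuousLinearMap.smul_apply, smul_eq_mul]
    field_simp
  have ns : fderiv ℝ (fun z => sharp g z (tau c z)) y Z
      = sharp g y (nab1 g (tau c) y Z) - Gam g y Z (sharp g y (tau c y)) := by
    rw [← nab_sharp h.met hyO dt Z, add_sub_cancel_right]
  have n1 : ∀ W, fderiv ℝ (tau c) y Z W = nab1 g (tau c) y Z W + tau c y (Gam g y Z W) := by
    intro W
    rw [nab1_apply]
    ring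
  have gT : ∀ W, g y W (sharp g y (tau c y)) = tau c y W := by
    intro W
    rw [h.met.symm y hyO, h.met.g_sharp hyO]
  have ab : ∀ a b : E →L[ℝ] ℝ, a (sharp g y b) = b (sharp g y a) := h.met.sharp_symm hyO
  -- the Schouten tensor of the target
  have sp : ∀ W, Sch g' (f y) (fderiv ℝ f y Z) (fderiv ℝ f y W)
      = Sch g y Z W - (nab1 g (tau c) y Z W - tau c y Z * tau c y W
        + (1 / 2 : ℝ) * tau c y (sharp g y (tau c y)) * g y Z W) := by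
    intro W
    rw [h.sch_pull hD hy]
    simp only [Stau, ContinuousLinearMap.add_apply, ContinuousLinearMap.sub_apply,
      ContinuousLinearMap.smul_apply, smul_eq_mul, sq1_apply]
  have spf : (Sch g' (f y) (fderiv ℝ f y Z)).comp (fderiv ℝ f y)
      = Sch g y Z - (nab1 g (tau c) y Z - tau c y Z • tau c y
        + ((1 / 2 : ℝ) * tau c y (sharp g y (tau c y))) • g y Z) := by
    ext W
    simp only [ContinuousLinearMap.comp_apply, sp W, ContinuousLinearMap.add_apply,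
      ContinuousLinearMap.sub_apply, ContinuousLinearMap.smul_apply, smul_eq_mul]
  have sh : sharp g' (f y) (Sch g' (f y) (fderiv ℝ f y Z))
      = (c y ^ 2)⁻¹ • fderiv ℝ f y (sharp g y (Sch g y Z) - (sharp g y (nab1 g (tau c) y Z)
        - tau c y Z • sharp g y (tau c y)
        + ((1 / 2 : ℝ) * tau c y (sharp g y (tau c y))) • Z)) := by
    have e := h.sharp_pull hy (Sch g' (f y) (fderiv ℝ f y Z))
    rw [spf] at e
    rw [eq_inv_smul_iff₀ (pow_ne_zero 2 hc0), ← e]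
    simp only [map_sub, map_add, map_smul, h.met.sharp_g hyO]
  have e1 : -(c y * tau c y Z) / c y ^ 2 = -((c y)⁻¹ * tau c y Z) := by
    field_simp
  have e2 : ∀ σ : ℝ, c y * σ * (c y ^ 2)⁻¹ = (c y)⁻¹ * σ := by
    intro σ
    field_simp
  refine ContinuousLinearMap.ext fun s => ?_
  obtain ⟨σ, X, ρ⟩ := s
  rw [lb8_deriv h hy]
  simp only [ContinuousLinearMap.sub_apply, ContinuousLinearMap.comp_apply, At_apply, Hm_apply]
  refine Prod.ext ?_ (Prod.ext ?_ ?_)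
  · simp only [Prod.fst_sub, map_smul, smul_eq_mul, h.conf y hy, map_add, gT, dc]
    field_simp
    ring
  · simp only [Prod.fst_sub, Prod.snd_sub, dc, h.hess hy, Ct_apply, ns, sh, e1, smul_smul, e2,
      map_smul, map_add, map_sub, gT,
      smul_add, smul_sub, smul_eq_mul]
    match_scalars <;> field_simp <;> ring
  · simp only [Prod.snd_sub, dc, e1, ns, n1, map_smul, smul_eq_mul, sp, map_add, map_sub, gT,
      ab (tau c y) (nab1 g (tau c) y Z), ab (tau c y) (Sch g y Z)]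
    ring

end Pool.Agent.EG

end

end M_LB8

section M_TR2

/-!
Row ec-TR2 (ODEs along curves; paper M5).
`Hm_along`: chain rule: (H∘γ)' = D_{γ'}H = H A(γ') - A'(Lγ')H (`IsLC.tractor`), product rule for ξ.
`X_parallel`: γ null geodesic at s.  β' = L γ'.  (L(γ s)(dγ s))' = D²f(γ',γ') + L γ'' = (hess) L(Γ(γ',γ') + C^τ_{γ'}γ') - Γ'(β',β') - LΓ(γ',γ')
 = 2τ(γ')β' - Γ'(β',β')  (C^τ_{γ'}γ' = 2τ(γ')γ' - g(γ',γ')τ^#, g(γ',γ')=0);  (c(γ)⁻²)' = -2 c⁻² τ(γ').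
 So X = c⁻² β' has X' = -Γ'(β',X).
`zeta_along`: ξ = (0, p γ', ρ) with p' = -ρ, ρ' = p P(γ',γ') is parallel: ξ' + A(γ')ξ = 0 for a null geodesic:
 A(γ')ξ = (-p g(γ',γ'), p Γ(γ',γ') + ρ γ', -p P(γ',γ')) and ξ' = (0, -ρ γ' - p Γ(γ',γ'), p P(γ',γ')).  Then `Hm_along`.
`Hm_null`: Hm_apply on (0, p v, ρ).
-/

open scoped ContDiff Topology
open Set

noncomputable section

set_option linter.unusedSectionVars false
set_option maxSynthPendingDepth 3

namespace Pool.Agent.EG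

variable {E : Type*} [NormedAddCommGroup E] [NormedSpace ℝ E] [FiniteDimensional ℝ E]
variable {V : Type*} [NormedAddCommGroup V] [NormedSpace ℝ V] [FiniteDimensional ℝ V]
variable {V' : Type*} [NormedAddCommGroup V'] [NormedSpace ℝ V'] [FiniteDimensional ℝ V']
variable {O O' S : Set E} {g g' : E → BF E} {f : E → E} {c : E → ℝ} {y : E}

theorem Hm_along (h : IsLC O g O' g' S f c) (hD : 3 ≤ Module.finrank ℝ E) {γ : ℝ → E} {v : E} {s : ℝ}
    (hγ : HasDerivAt γ v s) (hs : γ s ∈ S) {ξ : ℝ → Tr E} {dξ : Tr E} (hξ : HasDerivAt ξ dξ s) :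
    HasDerivAt (fun r => Hm g f c (γ r) (ξ r))
      (- At g' (f (γ s)) (fderiv ℝ f (γ s) v) (Hm g f c (γ s) (ξ s))
        + Hm g f c (γ s) (dξ + At g (γ s) v (ξ s))) s := by
  have hH : DifferentiableAt ℝ (Hm g f c) (γ s) := diffAt_of h.isOpen h.smooth_Hm hs
  have h1 : HasDerivAt (fun r => Hm g f c (γ r)) (fderiv ℝ (Hm g f c) (γ s) v) s :=
    hH.hasFDerivAt.comp_hasDerivAt s hγ
  have h2 := h1.clm_apply hξ
  refine h2.congr_deriv ?_
  rw [h.tractor hD hs v]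
  simp only [ContinuousLinearMap.sub_apply, ContinuousLinearMap.comp_apply, map_add]
  abel

theorem X_parallel (h : IsLC O g O' g' S f c) {γ dγ : ℝ → E} {s : ℝ}
    (hγ : HasDerivAt γ (dγ s) s) (hs : γ s ∈ S)
    (hdγ : HasDerivAt dγ (- Gam g (γ s) (dγ s) (dγ s)) s) (hnull : g (γ s) (dγ s) (dγ s) = 0) :
    HasDerivAt (fun r => ((c (γ r) ^ 2)⁻¹ : ℝ) • fderiv ℝ f (γ r) (dγ r))
      (- Gam g' (f (γ s)) (fderiv ℝ f (γ s) (dγ s))
        (((c (γ s) ^ 2)⁻¹ : ℝ) • fderiv ℝ f (γ s) (dγ s))) s := by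
  have hc0 : c (γ s) ≠ 0 := (h.pos _ hs).ne'
  have hc : DifferentiableAt ℝ c (γ s) := diffAt_of h.isOpen h.smooth_c hs
  have hL : DifferentiableAt ℝ (fun z => fderiv ℝ f z) (γ s) :=
    diffAt_of h.isOpen (smooth_fderiv h.isOpen h.smooth_f) hs
  have h1 : HasDerivAt (fun r => c (γ r)) (fderiv ℝ c (γ s) (dγ s)) s :=
    hc.hasFDerivAt.comp_hasDerivAt s hγ
  have h2 : HasDerivAt (fun r => ((c (γ r) ^ 2)⁻¹ : ℝ))
      (-(2 * (c (γ s) ^ 2)⁻¹ * tau c (γ s) (dγ s))) s := by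
    have h3 := (h1.pow 2).inv (pow_ne_zero 2 hc0)
    refine h3.congr_deriv ?_
    simp only [tau, ContinuousLinearMap.smul_apply, smul_eq_mul]
    simp only [Pi.pow_apply]
    field_simp
    norm_num
    ring
  have h4 : HasDerivAt (fun r => fderiv ℝ f (γ r)) (fderiv ℝ (fderiv ℝ f) (γ s) (dγ s)) s :=
    hL.hasFDerivAt.comp_hasDerivAt s hγ
  have h5 := h2.smul (h4.clm_apply hdγ)
  refine h5.congr_deriv ?_
  rw [h.hess hs (dγ s) (dγ s), Ct_apply, hnull]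
  simp only [map_add, map_neg, map_sub, map_smul, zero_smul, map_zero, sub_zero]
  module

theorem Hm_null (p ρ : ℝ) (v : E) :
    Hm g f c y ((0, p • v, ρ) : Tr E)
      = ((0, ((c y)⁻¹ * p) • fderiv ℝ f y v, (c y)⁻¹ * (ρ - p * tau c y v)) : Tr E) := by
  rw [Hm_apply]
  refine Prod.ext ?_ (Prod.ext ?_ ?_)
  · simp
  · simp [smul_smul]
  · simp

theorem zeta_along (h : IsLC O g O' g' S f c) (hD : 3 ≤ Module.finrank ℝ E) {γ dγ : ℝ → E}
    {p ρ : ℝ → ℝ} {s : ℝ}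
    (hγ : HasDerivAt γ (dγ s) s) (hs : γ s ∈ S)
    (hdγ : HasDerivAt dγ (- Gam g (γ s) (dγ s) (dγ s)) s) (hnull : g (γ s) (dγ s) (dγ s) = 0)
    (hp : HasDerivAt p (- ρ s) s) (hρ : HasDerivAt ρ (p s * Sch g (γ s) (dγ s) (dγ s)) s) :
    HasDerivAt (fun r => Hm g f c (γ r) ((0, p r • dγ r, ρ r) : Tr E))
      (- At g' (f (γ s)) (fderiv ℝ f (γ s) (dγ s)) (Hm g f c (γ s) ((0, p s • dγ s, ρ s) : Tr E))) s := by
  have h1 : HasDerivAt (fun r : ℝ => p r • dγ r)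
      (p s • (- Gam g (γ s) (dγ s) (dγ s)) + (- ρ s) • dγ s) s := hp.smul hdγ
  have hξ : HasDerivAt (fun r : ℝ => ((0, p r • dγ r, ρ r) : Tr E))
      ((0, p s • (- Gam g (γ s) (dγ s) (dγ s)) + (- ρ s) • dγ s,
        p s * Sch g (γ s) (dγ s) (dγ s)) : Tr E) s :=
    (hasDerivAt_const s (0 : ℝ)).prodMk (h1.prodMk hρ)
  have h2 := Hm_along h hD hγ hs hξ
  refine h2.congr_deriv ?_
  have h3 : ((0, p s • (- Gam g (γ s) (dγ s) (dγ s)) + (- ρ s) • dγ s,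
        p s * Sch g (γ s) (dγ s) (dγ s)) : Tr E) + At g (γ s) (dγ s) (0, p s • dγ s, ρ s) = 0 := by
    rw [At_apply]
    refine Prod.ext ?_ (Prod.ext ?_ ?_)
    · simp [hnull]
    · simp
      abel
    · simp
  rw [h3, map_zero, add_zero]

end Pool.Agent.EG

end

end M_TR2

section M_LB12

/-!
Row ec-LB12 (H is multiplicative; congruence).
`Hm_congr`: Hm depends only on f, c near y (fderiv of eventually equal functions, `Filter.EventuallyEq.fderiv_eq`, and c y).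
`tau_mul`: log derivative of a product: tau(c'∘f * c) = tau c + (tau c')(f y) ∘ L.
`Hm_comp`: with c = c2(f)c1, τ = τ1+τ2∘L1, L = L2 L1: component 1: c2 c1 σ;  component 2: c2⁻¹L2(c1⁻¹L1(X+στ1^#) + c1σ τ2^#') and
L1((τ2∘L1)^#) = c1² τ2^#' (`sharp_pull`), so it is c⁻¹L(X+στ^#);  component 3: c2⁻¹(ρ1 - τ2(X1) - ½|τ2|²σ1) with ρ1 = c1⁻¹(ρ-τ1(X)-½|τ1|²σ),
X1 = c1⁻¹L1(X+στ1^#), σ1 = c1σ and c1²|τ2|²_{g'} = |τ2∘L1|²_g.
`Hm_id`: Hm of (id, 1) is the identity.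
-/

open scoped ContDiff Topology
open Set Filter

noncomputable section

set_option linter.unusedSectionVars false
set_option maxSynthPendingDepth 3

namespace Pool.Agent.EG

variable {E : Type*} [NormedAddCommGroup E] [NormedSpace ℝ E] [FiniteDimensional ℝ E]
variable {M : Type*} [TopologicalSpace M] {ι : Type*}
variable {𝒮 : LSys E M ι}

variable {O O' O'' S S' : Set E} {g g' g'' : E → BF E} {f f' : E → E} {c c' : E → ℝ} {y : E}

theorem Hm_congr {f₁ : E → E} {c₁ : E → ℝ} (hf : f₁ =ᶠ[𝓝 y] f) (hc : c₁ =ᶠ[𝓝 y] c) :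
    Hm g f₁ c₁ y = Hm g f c y := by
  have h1 : fderiv ℝ f₁ y = fderiv ℝ f y := hf.fderiv_eq
  have h3 : c₁ y = c y := hc.eq_of_nhds
  have h2 : tau c₁ y = tau c y := by
    unfold tau
    rw [h3, hc.fderiv_eq]
  refine ContinuousLinearMap.ext fun s => ?_
  rw [Hm_apply, Hm_apply, h1, h2, h3]

theorem tau_congr {c₁ : E → ℝ} (hc : c₁ =ᶠ[𝓝 y] c) : tau c₁ y = tau c y := by
  unfold tau
  rw [hc.eq_of_nhds, hc.fderiv_eq]

theorem lb12_tau_comp (h1 : IsLC O g O' g' S f c) (h2 : IsLC O' g' O'' g'' S' f' c') (hy : y ∈ S)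
    (hy' : f y ∈ S') :
    tau (fun z => c' (f z) * c z) y = tau c y + (tau c' (f y)).comp (fderiv ℝ f y) := by
  have hc1 : c y ≠ 0 := (h1.pos y hy).ne'
  have hc2 : c' (f y) ≠ 0 := (h2.pos _ hy').ne'
  have df : DifferentiableAt ℝ f y := diffAt_of h1.isOpen h1.smooth_f hy
  have dc : DifferentiableAt ℝ c y := diffAt_of h1.isOpen h1.smooth_c hy
  have dc' : DifferentiableAt ℝ c' (f y) := diffAt_of h2.isOpen h2.smooth_c hy'
  have dcf : DifferentiableAt ℝ (fun z => c' (f z)) y := dc'.comp y df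
  have h3 : fderiv ℝ (fun z => c' (f z)) y = (fderiv ℝ c' (f y)).comp (fderiv ℝ f y) :=
    fderiv_comp y dc' df
  have h4 : fderiv ℝ (fun z => c' (f z) * c z) y
      = c' (f y) • fderiv ℝ c y + c y • (fderiv ℝ c' (f y)).comp (fderiv ℝ f y) := by
    rw [fderiv_fun_mul dcf dc, h3]
  unfold tau
  rw [h4]
  refine ContinuousLinearMap.ext fun v => ?_
  simp only [ContinuousLinearMap.smul_apply, ContinuousLinearMap.add_apply,
    ContinuousLinearMap.comp_apply, smul_eq_mul]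
  field_simp

theorem Hm_comp (h1 : IsLC O g O' g' S f c) (h2 : IsLC O' g' O'' g'' S' f' c') (hy : y ∈ S)
    (hy' : f y ∈ S') :
    Hm g (f' ∘ f) (fun z => c' (f z) * c z) y = (Hm g' f' c' (f y)).comp (Hm g f c y) := by
  have hc1 : c y ≠ 0 := (h1.pos y hy).ne'
  have hc2 : c' (f y) ≠ 0 := (h2.pos _ hy').ne'
  have df : DifferentiableAt ℝ f y := diffAt_of h1.isOpen h1.smooth_f hy
  have df' : DifferentiableAt ℝ f' (f y) := diffAt_of h2.isOpen h2.smooth_f hy'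
  have hL : fderiv ℝ (f' ∘ f) y = (fderiv ℝ f' (f y)).comp (fderiv ℝ f y) := fderiv_comp y df' df
  have ht := lb12_tau_comp h1 h2 hy hy'
  have hp := h1.sharp_pull hy (tau c' (f y))
  have hs := h1.met.sharp_symm (h1.sub hy) (tau c y) ((tau c' (f y)).comp (fderiv ℝ f y))
  have hp2 : tau c' (f y) (fderiv ℝ f y (sharp g y ((tau c' (f y)).comp (fderiv ℝ f y))))
      = c y ^ 2 * tau c' (f y) (sharp g' (f y) (tau c' (f y))) := by
    rw [hp, map_smul, smul_eq_mul]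
  refine ContinuousLinearMap.ext fun s => ?_
  rw [ContinuousLinearMap.comp_apply, Hm_apply, Hm_apply, Hm_apply, ht, hL]
  simp only [ContinuousLinearMap.comp_apply] at hs ⊢
  refine Prod.ext ?_ (Prod.ext ?_ ?_)
  · simp only
    ring
  · simp only [map_add, map_smul, hp, smul_add, smul_smul]
    have e1 : (c' (f y) * c y)⁻¹ = (c' (f y))⁻¹ * (c y)⁻¹ := mul_inv _ _
    have e2 : (c' (f y) * c y)⁻¹ * (s.1 * c y ^ 2) = (c' (f y))⁻¹ * (c y * s.1) := by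
      field_simp
    rw [e2, e1, add_assoc, mul_assoc]
  · simp only [map_add, map_smul, ContinuousLinearMap.add_apply, ContinuousLinearMap.comp_apply,
      smul_eq_mul, hs, hp2]
    field_simp
    ring

theorem Hm_id : Hm g id (fun _ => 1) y = ContinuousLinearMap.id ℝ (Tr E) := by
  have ht : tau (fun _ : E => (1 : ℝ)) y = 0 := by
    unfold tau
    simp
  refine ContinuousLinearMap.ext fun s => ?_
  rw [Hm_apply, ht]
  refine Prod.ext ?_ (Prod.ext ?_ ?_)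
  · simp
  · simp
  · simp

end Pool.Agent.EG

end

end M_LB12

section M_HC1

/-!
Row ec-HC1 (the jet matrices at manifold level and their cocycle property).
`HHm_comp`: charts i, j, k; x with x ∈ source i, φx ∈ source j, ψφx ∈ source k: `Hm_comp` for rep i j φ, rep j k ψ at ch i x, plus `Hm_congr`
(`rep_comp_eventually`; the factors agree near the point: c_ψ(ch_j⁻¹(rep i j φ y)) = c_ψ(φ(ch_i⁻¹y)) by left_inv).
`HHm_one_cont`: transition matrices are continuous on domR (smooth_Hm for `trans`).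
`HHm_chart`: change of the target chart: HHm Φ i j' x = HHm 1 j j' (φ x) ∘ HHm Φ i j x (HHm_comp with ψ = id, c = 1; rewrite `one_mul`).
`HHm_chart_left`: change of the source chart.  `LLm_chart`: the same for first derivatives.
-/

open scoped ContDiff Topology
open Set Filter

noncomputable section

set_option linter.unusedSectionVars false
set_option maxSynthPendingDepth 3

namespace Pool.Agent.EG

variable {E : Type*} [NormedAddCommGroup E] [NormedSpace ℝ E] [FiniteDimensional ℝ E]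
variable {M : Type*} [TopologicalSpace M] {ι : Type*}
variable {𝒮 : LSys E M ι}

/-- first derivative of `Φ` at `x` in the charts `i`, `j` -/
def LLm (Φ : Cf 𝒮) (i j : ι) (x : M) : E →L[ℝ] E :=
  fderiv ℝ (rep (𝒮.ch i) (𝒮.ch j) Φ.φ) (𝒮.ch i x)

/-- tractor two-jet of `Φ` at `x` in the charts `i`, `j` -/
def HHm (Φ : Cf 𝒮) (i j : ι) (x : M) : Tr E →L[ℝ] Tr E :=
  Hm (𝒮.g i) (rep (𝒮.ch i) (𝒮.ch j) Φ.φ) (fun y => Φ.c ((𝒮.ch i).symm y)) (𝒮.ch i x)

/-- logarithmic derivative of the factor at `x` in the chart `i` -/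
def tauM (Φ : Cf 𝒮) (i : ι) (x : M) : E →L[ℝ] ℝ := tau (fun y => Φ.c ((𝒮.ch i).symm y)) (𝒮.ch i x)

/-- transition matrices of the tractor bundle -/
def hTr (𝒮 : LSys E M ι) (i j : ι) (y : E) : Tr E →L[ℝ] Tr E :=
  Hm (𝒮.g i) (rep (𝒮.ch i) (𝒮.ch j) id) (fun _ => 1) y

/-- transition matrices of the tangent bundle -/
def hTM (𝒮 : LSys E M ι) (i j : ι) (y : E) : E →L[ℝ] E := fderiv ℝ (rep (𝒮.ch i) (𝒮.ch j) id) y

theorem hTr_cont (i j : ι) : ContinuousOn (hTr 𝒮 i j) (domR (𝒮.ch i) (𝒮.ch j) id) :=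
  (IsLC.smooth_Hm (𝒮.trans i j)).continuousOn

theorem hTM_cont (i j : ι) : ContinuousOn (hTM 𝒮 i j) (domR (𝒮.ch i) (𝒮.ch j) id) :=
  (smooth_fderiv (𝒮.trans i j).isOpen (𝒮.trans i j).smooth_f).continuousOn

theorem HHm_comp (Φ Ψ : Cf 𝒮) {i j k : ι} {x : M} (hx : x ∈ (𝒮.ch i).source)
    (hx' : Φ.φ x ∈ (𝒮.ch j).source) (hx'' : Ψ.φ (Φ.φ x) ∈ (𝒮.ch k).source) :
    HHm (Φ.andThen Ψ) i k x = (HHm Ψ j k (Φ.φ x)).comp (HHm Φ i j x) := by
  have hy : 𝒮.ch i x ∈ domR (𝒮.ch i) (𝒮.ch j) Φ.φ := mem_domR hx hx'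
  have hr : rep (𝒮.ch i) (𝒮.ch j) Φ.φ (𝒮.ch i x) = 𝒮.ch j (Φ.φ x) := rep_apply _ _ hx
  have hy' : rep (𝒮.ch i) (𝒮.ch j) Φ.φ (𝒮.ch i x) ∈ domR (𝒮.ch j) (𝒮.ch k) Ψ.φ := by
    rw [hr]; exact mem_domR hx' hx''
  have h1 := Hm_comp (Φ.h.lc i j) (Ψ.h.lc j k) hy hy'
  have hf : rep (𝒮.ch i) (𝒮.ch k) (Φ.andThen Ψ).φ =ᶠ[𝓝 (𝒮.ch i x)]
      (rep (𝒮.ch j) (𝒮.ch k) Ψ.φ) ∘ (rep (𝒮.ch i) (𝒮.ch j) Φ.φ) :=
    rep_comp_eventually Φ.φ.continuous hy
  have hc : (fun y => (Φ.andThen Ψ).c ((𝒮.ch i).symm y)) =ᶠ[𝓝 (𝒮.ch i x)]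
      (fun z => Ψ.c ((𝒮.ch j).symm (rep (𝒮.ch i) (𝒮.ch j) Φ.φ z)) * Φ.c ((𝒮.ch i).symm z)) := by
    filter_upwards [(domR_open (𝒮.ch i) (𝒮.ch j) Φ.φ.continuous).mem_nhds hy] with z hz
    have h2 : (𝒮.ch j).symm (rep (𝒮.ch i) (𝒮.ch j) Φ.φ z) = Φ.φ ((𝒮.ch i).symm z) :=
      (𝒮.ch j).left_inv hz.2
    rw [h2]
    rfl
  unfold HHm
  rw [Hm_congr hf hc, h1, hr]

theorem HHm_chart (Φ : Cf 𝒮) {i j j' : ι} {x : M} (hx : x ∈ (𝒮.ch i).source)
    (hx' : Φ.φ x ∈ (𝒮.ch j).source) (hx'' : Φ.φ x ∈ (𝒮.ch j').source) :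
    HHm Φ i j' x = (hTr 𝒮 j j' (𝒮.ch j (Φ.φ x))).comp (HHm Φ i j x) := by
  have h := HHm_comp Φ (Cf.one 𝒮) (k := j') hx hx' hx''
  have h1 : HHm (Φ.andThen (Cf.one 𝒮)) i j' x = HHm Φ i j' x := by
    unfold HHm
    have hc : (fun y => (Φ.andThen (Cf.one 𝒮)).c ((𝒮.ch i).symm y))
        = (fun y => Φ.c ((𝒮.ch i).symm y)) := by
      funext y
      exact one_mul _
    rw [hc]
    rfl
  rw [← h1, h]
  rfl

theorem HHm_chart_left (Φ : Cf 𝒮) {i i' j : ι} {x : M} (hx : x ∈ (𝒮.ch i).source)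
    (hx' : x ∈ (𝒮.ch i').source) (hx'' : Φ.φ x ∈ (𝒮.ch j).source) :
    HHm Φ i j x = (HHm Φ i' j x).comp (hTr 𝒮 i i' (𝒮.ch i x)) := by
  have h := HHm_comp (Cf.one 𝒮) Φ (i := i) (j := i') (k := j) (x := x) hx hx' hx''
  have h1 : HHm ((Cf.one 𝒮).andThen Φ) i j x = HHm Φ i j x := by
    unfold HHm
    have hc : (fun y => ((Cf.one 𝒮).andThen Φ).c ((𝒮.ch i).symm y))
        = (fun y => Φ.c ((𝒮.ch i).symm y)) := by
      funext y
      exact mul_one _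
    rw [hc]
    rfl
  rw [← h1, h]
  rfl

theorem LLm_chart (Φ : Cf 𝒮) {i j j' : ι} {x : M} (hx : x ∈ (𝒮.ch i).source)
    (hx' : Φ.φ x ∈ (𝒮.ch j).source) (hx'' : Φ.φ x ∈ (𝒮.ch j').source) :
    LLm Φ i j' x = (hTM 𝒮 j j' (𝒮.ch j (Φ.φ x))).comp (LLm Φ i j x) := by
  have hy : 𝒮.ch i x ∈ domR (𝒮.ch i) (𝒮.ch j) Φ.φ := mem_domR hx hx'
  have hr : rep (𝒮.ch i) (𝒮.ch j) Φ.φ (𝒮.ch i x) = 𝒮.ch j (Φ.φ x) := rep_apply _ _ hx
  have hy' : rep (𝒮.ch i) (𝒮.ch j) Φ.φ (𝒮.ch i x)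
      ∈ domR (𝒮.ch j) (𝒮.ch j') (Homeomorph.refl M) := by
    rw [hr]; exact mem_domR hx' hx''
  have h := IsCf.fderiv_comp Φ.h (isCf_id 𝒮) hy hy'
  rw [hr] at h
  exact h

theorem LLm_chart_left (Φ : Cf 𝒮) {i i' j : ι} {x : M} (hx : x ∈ (𝒮.ch i).source)
    (hx' : x ∈ (𝒮.ch i').source) (hx'' : Φ.φ x ∈ (𝒮.ch j).source) :
    LLm Φ i j x = (LLm Φ i' j x).comp (hTM 𝒮 i i' (𝒮.ch i x)) := by
  have hy : 𝒮.ch i x ∈ domR (𝒮.ch i) (𝒮.ch i') (Homeomorph.refl M) := mem_domR hx hx'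
  have hr : rep (𝒮.ch i) (𝒮.ch i') (Homeomorph.refl M) (𝒮.ch i x) = 𝒮.ch i' x := rep_apply _ _ hx
  have hy' : rep (𝒮.ch i) (𝒮.ch i') (Homeomorph.refl M) (𝒮.ch i x)
      ∈ domR (𝒮.ch i') (𝒮.ch j) Φ.φ := by
    rw [hr]; exact mem_domR hx' hx''
  have h := IsCf.fderiv_comp (isCf_id 𝒮) Φ.h hy hy'
  rw [hr] at h
  exact h

/-- the conformal relation at manifold level -/
theorem LLm_conf (Φ : Cf 𝒮) {i j : ι} {x : M} (hx : x ∈ (𝒮.ch i).source)
    (hx' : Φ.φ x ∈ (𝒮.ch j).source) (u v : E) :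
    𝒮.g j (𝒮.ch j (Φ.φ x)) (LLm Φ i j x u) (LLm Φ i j x v) = Φ.c x ^ 2 * 𝒮.g i (𝒮.ch i x) u v := by
  have h := (Φ.h.lc i j).conf (𝒮.ch i x) (mem_domR hx hx') u v
  rw [rep_apply _ _ hx] at h
  simp only [(𝒮.ch i).left_inv hx] at h
  exact h

end Pool.Agent.EG

end

end M_HC1

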