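import Pool.Agent.Lib.MP_eeed5f_gt.AC
import Pool.Agent.Lib.MP_eeed5f_gt.S1
import Pool.Agent.Lib.MP_eeed5f_gt.L1
import Pool.Agent.Lib.MP_eeed5f_gt.L6

section M_TRF

/-!
Row ec-TRF (transport along families of causal curves; paper TR).
ParSec: a section ξ (value ξ i in chart i) with compatibility ξ j = h i j ξ i and |ξ' + A(σ')ξ| ≤ K|ξ|.
Apply `SDI` with Q s t := (∃ p', σ(s) → p') ∧ (∃ q', σ(t) → q') ∧ (∀ᶠ k, a ≤ s ≤ t ≤ b) ∧ ∀ p' q' i j, σ(s) → p' → σ(t) → q' → p' ∈ source i → q' ∈ source j →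
  ∃ C, ∀ᶠ k, ∀ ξ, ParSec on [a_k,b_k] → ‖ξ j (t k)‖ ≤ C‖ξ i (s k)‖ ∧ ‖ξ i (s k)‖ ≤ C‖ξ j (t k)‖.
Transitivity: choose a chart at the middle limit point (cover), product of the constants (take C ≥ 0).
Box case: σ_k([s,t]) ⊂ B.K(2r).  In chart B.i: on the compact ball closedBall y0 (2r) ‖A‖ ≤ C0, so with v = (ch∘σ)' (the derivative of σ; it is FC by
`DerivIn.chart` for the curve: right derivative = v) ‖ξ'‖ ≤ C0‖v‖‖ξ‖ + K‖ξ‖ ≤ (C0 lam l(v) + K)‖ξ‖.  `gron_fwd`/`gron_bwd` with L(s) = C0 lam l(ch σ(s)) + K s: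
‖ξ(t)‖ ≤ exp(C0 lam 2‖l‖... + K R)‖ξ(s)‖ and backwards (|l(y)-l(y')| ≤ ‖l‖·4r).
From chart i to B.i at σ(s): ξ_{B.i} = h i B.i (..) ξ_i and h is continuous at the limit point p' ∈ source i ∩ source B.i (p' ∈ B.K(2r): compact, closed), so
‖h‖ ≤ C1 U-eventually; the other direction with h B.i i.
-/

open scoped ContDiff Topology
open Set Filter

noncomputable section

set_option linter.unusedSectionVars false
set_option maxSynthPendingDepth 3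

namespace Pool.Agent.EG

variable {E : Type*} [NormedAddCommGroup E] [NormedSpace ℝ E] [FiniteDimensional ℝ E]
variable {M : Type*} [TopologicalSpace M] {ι : Type*}
variable {𝒮 : LSys E M ι}

variable {κ : Type*} {V : Type*} [NormedAddCommGroup V] [NormedSpace ℝ V]

/-- approximately parallel sections along a curve, in all charts -/
structure ParSec (𝒮 : LSys E M ι) (A : ι → E → E →L[ℝ] V →L[ℝ] V) (h : ι → ι → E → V →L[ℝ] V) (K : ℝ)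
    (σ : ℝ → M) (a b : ℝ) (ξ : ι → ℝ → V) : Prop where
  compat : ∀ t ∈ Icc a b, ∀ i j, σ t ∈ (𝒮.ch i).source → σ t ∈ (𝒮.ch j).source →
    ξ j t = h i j (𝒮.ch i (σ t)) (ξ i t)
  deriv : ∀ t ∈ Icc a b, ∀ i, σ t ∈ (𝒮.ch i).source → ∃ v dξ, HasDerivAt (fun r => 𝒮.ch i (σ r)) v t ∧
    HasDerivAt (ξ i) dξ t ∧ ‖dξ + A i (𝒮.ch i (σ t)) v (ξ i t)‖ ≤ K * ‖ξ i t‖

/-- change of chart at a convergent family of points -/
theorem trf_chart (U : Ultrafilter κ)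
    {A : ι → E → E →L[ℝ] V →L[ℝ] V} {h : ι → ι → E → V →L[ℝ] V}
    (hh : ∀ i j, ContinuousOn (h i j) (domR (𝒮.ch i) (𝒮.ch j) id))
    {K : ℝ} {σ : κ → ℝ → M} {a b s : κ → ℝ} (hs : ∀ᶠ k in U, s k ∈ Icc (a k) (b k)) {p : M}
    (hp : Tendsto (fun k => σ k (s k)) U (𝓝 p))
    {i j : ι} (hi : p ∈ (𝒮.ch i).source) (hj : p ∈ (𝒮.ch j).source) :
    ∃ C, 0 ≤ C ∧ ∀ᶠ k in U, ∀ ξ, ParSec 𝒮 A h K (σ k) (a k) (b k) ξ →
      ‖ξ j (s k)‖ ≤ C * ‖ξ i (s k)‖ := by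
  have hmem : 𝒮.ch i p ∈ domR (𝒮.ch i) (𝒮.ch j) id := mem_domR hi hj
  have hopen : IsOpen (domR (𝒮.ch i) (𝒮.ch j) id) := domR_open _ _ continuous_id
  have hc : ContinuousAt (h i j) (𝒮.ch i p) := (hh i j).continuousAt (hopen.mem_nhds hmem)
  have hch : Tendsto (fun k => 𝒮.ch i (σ k (s k))) U (𝓝 (𝒮.ch i p)) :=
    ((𝒮.ch i).continuousAt hi).tendsto.comp hp
  have hn : Tendsto (fun k => ‖h i j (𝒮.ch i (σ k (s k)))‖) U (𝓝 ‖h i j (𝒮.ch i p)‖) :=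
    (hc.tendsto.comp hch).norm
  have hlt : ∀ᶠ k in U, ‖h i j (𝒮.ch i (σ k (s k)))‖ < ‖h i j (𝒮.ch i p)‖ + 1 :=
    hn.eventually (gt_mem_nhds (lt_add_one _))
  have hsi : ∀ᶠ k in U, σ k (s k) ∈ (𝒮.ch i).source :=
    hp.eventually ((𝒮.ch i).open_source.mem_nhds hi)
  have hsj : ∀ᶠ k in U, σ k (s k) ∈ (𝒮.ch j).source :=
    hp.eventually ((𝒮.ch j).open_source.mem_nhds hj)
  refine ⟨‖h i j (𝒮.ch i p)‖ + 1, by positivity, ?_⟩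
  filter_upwards [hs, hlt, hsi, hsj] with k h1 h2 h3 h4 ξ hξ
  rw [hξ.compat (s k) h1 i j h3 h4]
  refine ((h i j (𝒮.ch i (σ k (s k)))).le_opNorm (ξ i (s k))).trans ?_
  exact mul_le_mul_of_nonneg_right h2.le (norm_nonneg _)

/-- one curve in a box -/
theorem trf_box {A : ι → E → E →L[ℝ] V →L[ℝ] V} {h : ι → ι → E → V →L[ℝ] V}
    {K : ℝ} (hK : 0 ≤ K) {R C0 : ℝ} (hC0 : 0 ≤ C0) (B : Box 𝒮)
    (hA : ∀ y ∈ Metric.closedBall B.y0 (2 * B.r), ‖A B.i y‖ ≤ C0)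
    {σ : ℝ → M} {a b s t : ℝ} (has : a ≤ s) (hst : s ≤ t) (htb : t ≤ b) (hR : b - a ≤ R)
    (hσ : IsCurve 𝒮 FC σ a b) (hK' : ∀ r ∈ Icc s t, σ r ∈ B.K (2 * B.r))
    {ξ : ι → ℝ → V} (hξ : ParSec 𝒮 A h K σ a b ξ) :
    ‖ξ B.i t‖ ≤ Real.exp (C0 * B.lam * (‖B.l‖ * (4 * B.r)) + K * R) * ‖ξ B.i s‖ ∧
    ‖ξ B.i s‖ ≤ Real.exp (C0 * B.lam * (‖B.l‖ * (4 * B.r)) + K * R) * ‖ξ B.i t‖ := by
  have hr0 := B.hr
  have hlam := B.hlam
  -- derivatives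
  have hD : ∀ r, ∃ v dξ, r ∈ Icc s t → HasDerivAt (fun r => 𝒮.ch B.i (σ r)) v r ∧
      HasDerivAt (ξ B.i) dξ r ∧ ‖dξ + A B.i (𝒮.ch B.i (σ r)) v (ξ B.i r)‖ ≤ K * ‖ξ B.i r‖ := by
    intro r
    by_cases hr : r ∈ Icc s t
    · obtain ⟨v, dξ, h1, h2, h3⟩ := hξ.deriv r ⟨has.trans hr.1, hr.2.trans htb⟩ B.i (hK' r hr).1
      exact ⟨v, dξ, fun _ => ⟨h1, h2, h3⟩⟩
    · exact ⟨0, 0, fun h => absurd h hr⟩
  choose v dξ hvd using hD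
  have hFC : ∀ r, (r ∈ Ico s t ∨ r ∈ Ioc s t) → ‖v r‖ ≤ B.lam * B.l (v r) := by
    intro r hr
    have hrI : r ∈ Icc s t := by
      rcases hr with hr | hr
      · exact ⟨hr.1, hr.2.le⟩
      · exact ⟨hr.1.le, hr.2⟩
    have hy3 : 𝒮.ch B.i (σ r) ∈ Metric.closedBall B.y0 (3 * B.r) :=
      Metric.closedBall_subset_closedBall (by linarith) (hK' r hrI).2
    have hab : r ∈ Icc a b := ⟨has.trans hrI.1, hrI.2.trans htb⟩
    rcases hr with hr | hr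
    · have hrab : r ∈ Ico a b := ⟨has.trans hr.1, hr.2.trans_le htb⟩
      have hd := hσ.right r hrab
      have hcont : ContinuousWithinAt σ (Ici r) r := by
        have h1 : ContinuousWithinAt σ (Icc r b) r :=
          (hσ.cont r hab).mono (Icc_subset_Icc_left hrab.1)
        exact h1.mono_of_mem_nhdsWithin (Icc_mem_nhdsGE hrab.2)
      obtain ⟨v', hv', hF⟩ := hd.chart (Or.inr rfl) hcont self_mem_Ici (j := B.i) (hK' r hrI).1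
      have hvv : v' = v r :=
        (uniqueDiffWithinAt_Ici r).eq_deriv _ hv' (hvd r hrI).1.hasDerivWithinAt
      rw [← hvv]
      exact B.b1 _ hy3 _ hF
    · have hrab : r ∈ Ioc a b := ⟨has.trans_lt hr.1, hr.2.trans htb⟩
      have hd := hσ.left r hrab
      have hcont : ContinuousWithinAt σ (Iic r) r := by
        have h1 : ContinuousWithinAt σ (Icc a r) r :=
          (hσ.cont r hab).mono (Icc_subset_Icc_right hrab.2)
        exact h1.mono_of_mem_nhdsWithin (Icc_mem_nhdsLE hrab.1)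
      obtain ⟨v', hv', hF⟩ := hd.chart (Or.inr rfl) hcont self_mem_Iic (j := B.i) (hK' r hrI).1
      have hvv : v' = v r :=
        (uniqueDiffWithinAt_Iic r).eq_deriv _ hv' (hvd r hrI).1.hasDerivWithinAt
      rw [← hvv]
      exact B.b1 _ hy3 _ hF
  have hlv : ∀ r, (r ∈ Ico s t ∨ r ∈ Ioc s t) → 0 ≤ B.l (v r) := by
    intro r hr
    have h1 := (norm_nonneg (v r)).trans (hFC r hr)
    exact nonneg_of_mul_nonneg_right h1 hlam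
  have hbd : ∀ r, (r ∈ Ico s t ∨ r ∈ Ioc s t) →
      ‖dξ r‖ ≤ (C0 * B.lam * B.l (v r) + K) * ‖ξ B.i r‖ + 0 := by
    intro r hr
    have hrI : r ∈ Icc s t := by
      rcases hr with hr | hr
      · exact ⟨hr.1, hr.2.le⟩
      · exact ⟨hr.1.le, hr.2⟩
    obtain ⟨h1, h2, h3⟩ := hvd r hrI
    have h4 : ‖A B.i (𝒮.ch B.i (σ r)) (v r) (ξ B.i r)‖ ≤ C0 * (B.lam * B.l (v r)) * ‖ξ B.i r‖ := by
      refine ((A B.i (𝒮.ch B.i (σ r))).le_opNorm₂ (v r) (ξ B.i r)).trans ?_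
      refine mul_le_mul_of_nonneg_right ?_ (norm_nonneg _)
      exact mul_le_mul (hA _ (hK' r hrI).2) (hFC r hr) (norm_nonneg _) hC0
    have h5 : dξ r = (dξ r + A B.i (𝒮.ch B.i (σ r)) (v r) (ξ B.i r))
        - A B.i (𝒮.ch B.i (σ r)) (v r) (ξ B.i r) := by abel
    rw [h5]
    refine (norm_sub_le _ _).trans ?_
    have h6 := add_le_add h3 h4
    refine h6.trans (le_of_eq ?_)
    ring
  set L : ℝ → ℝ := fun r => C0 * B.lam * B.l (𝒮.ch B.i (σ r)) + K * r with hLdef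
  have hLd : ∀ r ∈ Icc s t, HasDerivAt L (C0 * B.lam * B.l (v r) + K) r := by
    intro r hr
    have h1 : HasDerivAt (fun r => B.l (𝒮.ch B.i (σ r))) (B.l (v r)) r :=
      B.l.hasFDerivAt.comp_hasDerivAt r (hvd r hr).1
    have h2 : HasDerivAt (fun r => C0 * B.lam * B.l (𝒮.ch B.i (σ r)) + K * r)
        (C0 * B.lam * B.l (v r) + K * 1) r :=
      (h1.const_mul (C0 * B.lam)).add ((hasDerivAt_id r).const_mul K)
    rw [mul_one] at h2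
    exact h2
  have hLc : ContinuousOn L (Icc s t) := fun r hr => (hLd r hr).continuousAt.continuousWithinAt
  have huc : ContinuousOn (ξ B.i) (Icc s t) :=
    fun r hr => (hvd r hr).2.1.continuousAt.continuousWithinAt
  have hLdiff : L t - L s ≤ C0 * B.lam * (‖B.l‖ * (4 * B.r)) + K * R := by
    have h1 : B.l (𝒮.ch B.i (σ t)) - B.l (𝒮.ch B.i (σ s)) ≤ ‖B.l‖ * (4 * B.r) := by
      rw [← map_sub]
      refine (le_abs_self _).trans ?_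
      rw [← Real.norm_eq_abs]
      refine (B.l.le_opNorm _).trans ?_
      refine mul_le_mul_of_nonneg_left ?_ (norm_nonneg _)
      have e1 := (hK' t ⟨hst, le_rfl⟩).2
      have e2 := (hK' s ⟨le_rfl, hst⟩).2
      rw [Metric.mem_closedBall] at e1 e2
      rw [← dist_eq_norm]
      have := dist_triangle_right (𝒮.ch B.i (σ t)) (𝒮.ch B.i (σ s)) B.y0
      linarith
    have h2 : K * (t - s) ≤ K * R := mul_le_mul_of_nonneg_left (by linarith) hK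
    have h3 : C0 * B.lam * (B.l (𝒮.ch B.i (σ t)) - B.l (𝒮.ch B.i (σ s)))
        ≤ C0 * B.lam * (‖B.l‖ * (4 * B.r)) :=
      mul_le_mul_of_nonneg_left h1 (mul_nonneg hC0 hlam.le)
    simp only [hLdef]
    linarith
  have hexp := Real.exp_le_exp.2 hLdiff
  constructor
  · have h1 := gron_fwd (u := ξ B.i) (u' := dξ) (L := L) (L' := fun r => C0 * B.lam * B.l (v r) + K)
      (le_refl (0 : ℝ)) huc (fun r hr => (hvd r ⟨hr.1, hr.2.le⟩).2.1.hasDerivWithinAt) hLc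
      (fun r hr => (hLd r ⟨hr.1, hr.2.le⟩).hasDerivWithinAt)
      (fun r hr => add_nonneg (mul_nonneg (mul_nonneg hC0 hlam.le) (hlv r (Or.inl hr))) hK)
      (fun r hr => hbd r (Or.inl hr)) t ⟨hst, le_rfl⟩
    refine h1.trans ?_
    rw [zero_mul, add_zero]
    exact mul_le_mul_of_nonneg_right hexp (norm_nonneg _)
  · have h1 := gron_bwd (u := ξ B.i) (u' := dξ) (L := L) (L' := fun r => C0 * B.lam * B.l (v r) + K)
      (le_refl (0 : ℝ)) huc (fun r hr => (hvd r ⟨hr.1.le, hr.2⟩).2.1.hasDerivWithinAt) hLc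
      (fun r hr => (hLd r ⟨hr.1.le, hr.2⟩).hasDerivWithinAt)
      (fun r hr => add_nonneg (mul_nonneg (mul_nonneg hC0 hlam.le) (hlv r (Or.inr hr))) hK)
      (fun r hr => hbd r (Or.inr hr)) s ⟨le_rfl, hst⟩
    refine h1.trans ?_
    rw [zero_mul, add_zero]
    exact mul_le_mul_of_nonneg_right hexp (norm_nonneg _)

theorem TRF [T2Space M] [SecondCountableTopology M] (hN : Noh 𝒮) (U : Ultrafilter κ)
    {A : ι → E → E →L[ℝ] V →L[ℝ] V} (hA : ∀ i, ContinuousOn (A i) (𝒮.ch i).target)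
    {h : ι → ι → E → V →L[ℝ] V} (hh : ∀ i j, ContinuousOn (h i j) (domR (𝒮.ch i) (𝒮.ch j) id))
    {K : ℝ} (hK : 0 ≤ K) {R : ℝ}
    {σ : κ → ℝ → M} {a b : κ → ℝ} (hab : ∀ᶠ k in U, a k ≤ b k) (hR : ∀ᶠ k in U, b k - a k ≤ R)
    (hσ : ∀ᶠ k in U, IsCurve 𝒮 FC (σ k) (a k) (b k)) {p q : M}
    (hp : Tendsto (fun k => σ k (a k)) U (𝓝 p)) (hq : Tendsto (fun k => σ k (b k)) U (𝓝 q))
    {i j : ι} (hi : p ∈ (𝒮.ch i).source) (hj : q ∈ (𝒮.ch j).source) :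
    ∃ C, ∀ᶠ k in U, ∀ ξ, ParSec 𝒮 A h K (σ k) (a k) (b k) ξ →
      ‖ξ j (b k)‖ ≤ C * ‖ξ i (a k)‖ ∧ ‖ξ i (a k)‖ ≤ C * ‖ξ j (b k)‖ := by
  have main := SDI hN U hab hσ hp hq
    (fun s t => (∃ p', Tendsto (fun k => σ k (s k)) U (𝓝 p')) ∧
      (∃ q', Tendsto (fun k => σ k (t k)) U (𝓝 q')) ∧
      (∀ᶠ k in U, a k ≤ s k ∧ s k ≤ t k ∧ t k ≤ b k) ∧
      ∀ p' q' i j, Tendsto (fun k => σ k (s k)) U (𝓝 p') → Tendsto (fun k => σ k (t k)) U (𝓝 q') →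
        p' ∈ (𝒮.ch i).source → q' ∈ (𝒮.ch j).source →
        ∃ C, 0 ≤ C ∧ ∀ᶠ k in U, ∀ ξ, ParSec 𝒮 A h K (σ k) (a k) (b k) ξ →
          ‖ξ j (t k)‖ ≤ C * ‖ξ i (s k)‖ ∧ ‖ξ i (s k)‖ ≤ C * ‖ξ j (t k)‖)
    ?_ ?_
  · obtain ⟨_, _, _, hfin⟩ := main
    obtain ⟨C, _, hC⟩ := hfin p q i j hp hq hi hj
    exact ⟨C, hC⟩
  · rintro r s t ⟨hr1, ⟨m, hm⟩, h3, h4⟩ ⟨_, ht1, g3, g4⟩
    refine ⟨hr1, ht1, ?_, ?_⟩
    · filter_upwards [h3, g3] with k e1 e2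
      exact ⟨e1.1, e1.2.1.trans e2.2.1, e2.2.2⟩
    · intro p' q' i j hp' hq' hi hj
      obtain ⟨l, hl⟩ := 𝒮.cover m
      obtain ⟨C1, hC1, H1⟩ := h4 p' m i l hp' hm hi hl
      obtain ⟨C2, hC2, H2⟩ := g4 m q' l j hm hq' hl hj
      refine ⟨C2 * C1, mul_nonneg hC2 hC1, ?_⟩
      filter_upwards [H1, H2] with k e1 e2 ξ hξ
      have a1 := e1 ξ hξ
      have a2 := e2 ξ hξ
      constructor
      · calc ‖ξ j (t k)‖ ≤ C2 * ‖ξ l (s k)‖ := a2.1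
          _ ≤ C2 * (C1 * ‖ξ i (r k)‖) := mul_le_mul_of_nonneg_left a1.1 hC2
          _ = C2 * C1 * ‖ξ i (r k)‖ := by ring
      · calc ‖ξ i (r k)‖ ≤ C1 * ‖ξ l (s k)‖ := a1.2
          _ ≤ C1 * (C2 * ‖ξ j (t k)‖) := mul_le_mul_of_nonneg_left a2.2 hC1
          _ = C2 * C1 * ‖ξ j (t k)‖ := by ring
  · rintro s t hst hs ht ⟨B, hB⟩
    refine ⟨hs, ht, hst, ?_⟩
    intro p' q' i j hp' hq' hi hj
    have hclosed : IsClosed (B.K (2 * B.r)) :=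
      (B.isCompact_K (by linarith [B.hr] : 2 * B.r ≤ 4 * B.r)).isClosed
    have hpB : p' ∈ B.K (2 * B.r) := by
      refine hclosed.mem_of_tendsto hp' ?_
      filter_upwards [hst, hB] with k e1 e2
      exact e2 _ ⟨le_rfl, e1.2.1⟩
    have hqB : q' ∈ B.K (2 * B.r) := by
      refine hclosed.mem_of_tendsto hq' ?_
      filter_upwards [hst, hB] with k e1 e2
      exact e2 _ ⟨e1.2.1, le_rfl⟩
    have hsI : ∀ᶠ k in U, s k ∈ Icc (a k) (b k) := by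
      filter_upwards [hst] with k e
      exact ⟨e.1, e.2.1.trans e.2.2⟩
    have htI : ∀ᶠ k in U, t k ∈ Icc (a k) (b k) := by
      filter_upwards [hst] with k e
      exact ⟨e.1.trans e.2.1, e.2.2⟩
    obtain ⟨C1, hC1, H1⟩ := trf_chart (A := A) (K := K) U hh hsI hp' hi hpB.1
    obtain ⟨C2, hC2, H2⟩ := trf_chart (A := A) (K := K) U hh hsI hp' hpB.1 hi
    obtain ⟨C3, hC3, H3⟩ := trf_chart (A := A) (K := K) U hh htI hq' hj hqB.1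
    obtain ⟨C4, hC4, H4⟩ := trf_chart (A := A) (K := K) U hh htI hq' hqB.1 hj
    obtain ⟨C0', hC0'⟩ := (isCompact_closedBall B.y0 (2 * B.r)).exists_bound_of_continuousOn
      ((hA B.i).mono ((Metric.closedBall_subset_closedBall (by linarith [B.hr])).trans B.ball))
    have hC0 : 0 ≤ max C0' 0 := le_max_right _ _
    set e : ℝ := Real.exp (max C0' 0 * B.lam * (‖B.l‖ * (4 * B.r)) + K * R) with he
    have he0 : 0 ≤ e := (Real.exp_pos _).le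
    refine ⟨C4 * (e * C1) + C2 * (e * C3), by positivity, ?_⟩
    filter_upwards [hst, hB, hR, hσ, H1, H2, H3, H4] with k e1 e2 e3 e4 f1 f2 f3 f4 ξ hξ
    have hb := trf_box hK (R := R) hC0 B (fun y hy => (hC0' y hy).trans (le_max_left _ _))
      e1.1 e1.2.1 e1.2.2 e3 e4 e2 hξ
    rw [← he] at hb
    constructor
    · calc ‖ξ j (t k)‖ ≤ C4 * ‖ξ B.i (t k)‖ := f4 ξ hξ
        _ ≤ C4 * (e * ‖ξ B.i (s k)‖) := mul_le_mul_of_nonneg_left hb.1 hC4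
        _ ≤ C4 * (e * (C1 * ‖ξ i (s k)‖)) :=
          mul_le_mul_of_nonneg_left (mul_le_mul_of_nonneg_left (f1 ξ hξ) he0) hC4
        _ = C4 * (e * C1) * ‖ξ i (s k)‖ := by ring
        _ ≤ (C4 * (e * C1) + C2 * (e * C3)) * ‖ξ i (s k)‖ :=
          mul_le_mul_of_nonneg_right (le_add_of_nonneg_right (by positivity)) (norm_nonneg _)
    · calc ‖ξ i (s k)‖ ≤ C2 * ‖ξ B.i (s k)‖ := f2 ξ hξ
        _ ≤ C2 * (e * ‖ξ B.i (t k)‖) := mul_le_mul_of_nonneg_left hb.2 hC2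
        _ ≤ C2 * (e * (C3 * ‖ξ j (t k)‖)) :=
          mul_le_mul_of_nonneg_left (mul_le_mul_of_nonneg_left (f3 ξ hξ) he0) hC2
        _ = C2 * (e * C3) * ‖ξ j (t k)‖ := by ring
        _ ≤ (C4 * (e * C1) + C2 * (e * C3)) * ‖ξ j (t k)‖ :=
          mul_le_mul_of_nonneg_right (le_add_of_nonneg_left (by positivity)) (norm_nonneg _)

end Pool.Agent.EG

end

end M_TRF

section M_HC2

/-!
Row ec-HC2 (parallel sections along images of chart curves).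
γ : ℝ → E a curve in chart i (γ s ∈ target i on a neighbourhood of [a,b]: hypothesis on Ioo a' b' ⊃ [a,b]), σ s = Φ((ch i).symm (γ s)).
`par_zeta`: ζ j s = Hm.. (rep i j Φ) (γ s) (0, p s dγ s, ρ s) is parallel (K = 0) for A = At (g j), h = hTr: derivative `zeta_along`, with
ch_j(σ r) = rep i j Φ (γ r) near s, derivative fderiv rep (dγ s); compat: `HHm_chart`.
`par_X`: X j s = c⁻² fderiv(rep i j Φ)(γ s)(dγ s), A = Gam (g j), h = hTM: `X_parallel`, `LLm_chart`.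
`par_H`: the matrix ξ j s = HHm Φ i j (ch_i⁻¹ γ s) with values in Tr E →L Tr E, A j y v = (At (g j) y v) ∘ ·  (post-composition,
`ContinuousLinearMap.compL`), h = post-composition with hTr; derivative `IsLC.tractor` + chain rule: ξ' + A(β')ξ = ξ ∘ At (g i)(γ s)(dγ s), norm ≤ ‖ξ‖ K
if ‖At (g i) (γ s) (dγ s)‖ ≤ K.
-/

open scoped ContDiff Topology
open Set Filter

noncomputable section

set_option linter.unusedSectionVars false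
set_option maxSynthPendingDepth 3

namespace Pool.Agent.EG

variable {E : Type*} [NormedAddCommGroup E] [NormedSpace ℝ E] [FiniteDimensional ℝ E]
variable {M : Type*} [TopologicalSpace M] {ι : Type*}
variable {𝒮 : LSys E M ι}

variable {κ : Type*}

theorem hc2_dom (Φ : Cf 𝒮) {i j : ι} {z : E} (hz : z ∈ (𝒮.ch i).target)
    (hj : Φ.φ ((𝒮.ch i).symm z) ∈ (𝒮.ch j).source) : z ∈ domR (𝒮.ch i) (𝒮.ch j) Φ.φ :=
  ⟨hz, hj⟩

theorem hc2_rep (Φ : Cf 𝒮) {i j : ι} {γ : ℝ → E} {v : E} {s : ℝ} (hγ : HasDerivAt γ v s)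
    (hz : γ s ∈ (𝒮.ch i).target) (hj : Φ.φ ((𝒮.ch i).symm (γ s)) ∈ (𝒮.ch j).source) :
    HasDerivAt (fun r => 𝒮.ch j (Φ.φ ((𝒮.ch i).symm (γ r))))
      (fderiv ℝ (rep (𝒮.ch i) (𝒮.ch j) Φ.φ) (γ s) v) s := by
  have hd : DifferentiableAt ℝ (rep (𝒮.ch i) (𝒮.ch j) Φ.φ) (γ s) :=
    diffAt_of (Φ.h.lc i j).isOpen (Φ.h.lc i j).smooth_f (hc2_dom Φ hz hj)
  exact hd.hasFDerivAt.comp_hasDerivAt s hγ

theorem par_zeta (hD : 3 ≤ Module.finrank ℝ E) (Φ : Cf 𝒮) {i : ι} {γ dγ : ℝ → E} {p ρ : ℝ → ℝ} {a b : ℝ}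
    (h : ∀ s ∈ Icc a b, γ s ∈ (𝒮.ch i).target ∧ HasDerivAt γ (dγ s) s ∧
      HasDerivAt dγ (- Gam (𝒮.g i) (γ s) (dγ s) (dγ s)) s ∧ 𝒮.g i (γ s) (dγ s) (dγ s) = 0 ∧
      HasDerivAt p (- ρ s) s ∧ HasDerivAt ρ (p s * Sch (𝒮.g i) (γ s) (dγ s) (dγ s)) s) :
    ParSec 𝒮 (fun j => At (𝒮.g j)) (hTr 𝒮) 0 (fun s => Φ.φ ((𝒮.ch i).symm (γ s))) a b
      (fun j s => Hm (𝒮.g i) (rep (𝒮.ch i) (𝒮.ch j) Φ.φ) (fun y => Φ.c ((𝒮.ch i).symm y)) (γ s)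
        ((0, p s • dγ s, ρ s) : Tr E)) := by
  refine ⟨?_, ?_⟩
  · intro t ht j j' hj hj'
    obtain ⟨hz, -⟩ := h t ht
    have hx : (𝒮.ch i).symm (γ t) ∈ (𝒮.ch i).source := (𝒮.ch i).map_target hz
    have e := HHm_chart Φ (i := i) (j := j) (j' := j') hx hj hj'
    have hr : 𝒮.ch i ((𝒮.ch i).symm (γ t)) = γ t := (𝒮.ch i).right_inv hz
    unfold HHm at e
    rw [hr] at e
    exact congrArg (fun F : Tr E →L[ℝ] Tr E => F ((0, p t • dγ t, ρ t) : Tr E)) e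
  · intro t ht j hj
    obtain ⟨hz, hγ, hdγ, hnull, hp, hρ⟩ := h t ht
    refine ⟨_, _, hc2_rep Φ hγ hz hj,
      zeta_along (Φ.h.lc i j) hD hγ (hc2_dom Φ hz hj) hdγ hnull hp hρ, ?_⟩
    have e : ∀ u : Tr E, -u + u = 0 := fun u => neg_add_cancel u
    rw [zero_mul]
    refine le_of_eq ?_
    rw [norm_eq_zero]
    exact e _

theorem par_X (Φ : Cf 𝒮) {i : ι} {γ dγ : ℝ → E} {a b : ℝ}
    (h : ∀ s ∈ Icc a b, γ s ∈ (𝒮.ch i).target ∧ HasDerivAt γ (dγ s) s ∧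
      HasDerivAt dγ (- Gam (𝒮.g i) (γ s) (dγ s) (dγ s)) s ∧ 𝒮.g i (γ s) (dγ s) (dγ s) = 0) :
    ParSec 𝒮 (fun j => Gam (𝒮.g j)) (hTM 𝒮) 0 (fun s => Φ.φ ((𝒮.ch i).symm (γ s))) a b
      (fun j s => ((Φ.c ((𝒮.ch i).symm (γ s)) ^ 2)⁻¹ : ℝ) •
        fderiv ℝ (rep (𝒮.ch i) (𝒮.ch j) Φ.φ) (γ s) (dγ s)) := by
  refine ⟨?_, ?_⟩
  · intro t ht j j' hj hj'
    obtain ⟨hz, -⟩ := h t ht
    have hx : (𝒮.ch i).symm (γ t) ∈ (𝒮.ch i).source := (𝒮.ch i).map_target hz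
    have e := LLm_chart Φ (i := i) (j := j) (j' := j') hx hj hj'
    have hr : 𝒮.ch i ((𝒮.ch i).symm (γ t)) = γ t := (𝒮.ch i).right_inv hz
    unfold LLm at e
    rw [hr] at e
    have e2 := congrArg (fun F : E →L[ℝ] E => F (dγ t)) e
    simp only [ContinuousLinearMap.comp_apply] at e2
    show ((Φ.c ((𝒮.ch i).symm (γ t)) ^ 2)⁻¹ : ℝ) •
        fderiv ℝ (rep (𝒮.ch i) (𝒮.ch j') Φ.φ) (γ t) (dγ t) = _
    rw [e2, map_smul]
  · intro t ht j hj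
    obtain ⟨hz, hγ, hdγ, hnull⟩ := h t ht
    refine ⟨_, _, hc2_rep Φ hγ hz hj,
      X_parallel (Φ.h.lc i j) hγ (hc2_dom Φ hz hj) hdγ hnull, ?_⟩
    have e : ∀ u : E, -u + u = 0 := fun u => neg_add_cancel u
    rw [zero_mul]
    refine le_of_eq ?_
    rw [norm_eq_zero]
    exact e _

/-- post-composition with the tractor connection -/
def AtPost (g : E → BF E) (y : E) : E →L[ℝ] (Tr E →L[ℝ] Tr E) →L[ℝ] (Tr E →L[ℝ] Tr E) :=
  (ContinuousLinearMap.compL ℝ (Tr E) (Tr E) (Tr E)).comp (At g y)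

/-- post-composition with the transition matrices -/
def hPost (𝒮 : LSys E M ι) (i j : ι) (y : E) : (Tr E →L[ℝ] Tr E) →L[ℝ] (Tr E →L[ℝ] Tr E) :=
  ContinuousLinearMap.compL ℝ (Tr E) (Tr E) (Tr E) (hTr 𝒮 i j y)

theorem par_H (hD : 3 ≤ Module.finrank ℝ E) (Φ : Cf 𝒮) {i : ι} {γ dγ : ℝ → E} {a b K : ℝ}
    (h : ∀ s ∈ Icc a b, γ s ∈ (𝒮.ch i).target ∧ HasDerivAt γ (dγ s) s ∧
      ‖At (𝒮.g i) (γ s) (dγ s)‖ ≤ K) :
    ParSec 𝒮 (fun j => AtPost (𝒮.g j)) (hPost 𝒮) K (fun s => Φ.φ ((𝒮.ch i).symm (γ s))) a b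
      (fun j s => Hm (𝒮.g i) (rep (𝒮.ch i) (𝒮.ch j) Φ.φ) (fun y => Φ.c ((𝒮.ch i).symm y)) (γ s)) := by
  refine ⟨?_, ?_⟩
  · intro t ht j j' hj hj'
    obtain ⟨hz, -⟩ := h t ht
    have hx : (𝒮.ch i).symm (γ t) ∈ (𝒮.ch i).source := (𝒮.ch i).map_target hz
    have e := HHm_chart Φ (i := i) (j := j) (j' := j') hx hj hj'
    have hr : 𝒮.ch i ((𝒮.ch i).symm (γ t)) = γ t := (𝒮.ch i).right_inv hz
    unfold HHm at e
    rw [hr] at e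
    exact e
  · intro t ht j hj
    obtain ⟨hz, hγ, hK⟩ := h t ht
    have hdom := hc2_dom Φ hz hj
    have hd : DifferentiableAt ℝ (Hm (𝒮.g i) (rep (𝒮.ch i) (𝒮.ch j) Φ.φ)
        (fun y => Φ.c ((𝒮.ch i).symm y))) (γ t) :=
      diffAt_of (Φ.h.lc i j).isOpen (Φ.h.lc i j).smooth_Hm hdom
    refine ⟨_, _, hc2_rep Φ hγ hz hj, hd.hasFDerivAt.comp_hasDerivAt t hγ, ?_⟩
    have e := (Φ.h.lc i j).tractor hD hdom (dγ t)
    rw [e]
    have e2 : ∀ a b : Tr E →L[ℝ] Tr E, a - b + b = a := fun a b => sub_add_cancel a b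
    have e3 : (Hm (𝒮.g i) (rep (𝒮.ch i) (𝒮.ch j) Φ.φ)
        (fun y => Φ.c ((𝒮.ch i).symm y)) (γ t)).comp (At (𝒮.g i) (γ t) (dγ t)) -
        (At (𝒮.g j) (rep (𝒮.ch i) (𝒮.ch j) Φ.φ (γ t))
          (fderiv ℝ (rep (𝒮.ch i) (𝒮.ch j) Φ.φ) (γ t) (dγ t))).comp
          (Hm (𝒮.g i) (rep (𝒮.ch i) (𝒮.ch j) Φ.φ) (fun y => Φ.c ((𝒮.ch i).symm y)) (γ t)) +
        AtPost (𝒮.g j) (rep (𝒮.ch i) (𝒮.ch j) Φ.φ (γ t))
          (fderiv ℝ (rep (𝒮.ch i) (𝒮.ch j) Φ.φ) (γ t) (dγ t))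
          (Hm (𝒮.g i) (rep (𝒮.ch i) (𝒮.ch j) Φ.φ) (fun y => Φ.c ((𝒮.ch i).symm y)) (γ t))
        = (Hm (𝒮.g i) (rep (𝒮.ch i) (𝒮.ch j) Φ.φ)
        (fun y => Φ.c ((𝒮.ch i).symm y)) (γ t)).comp (At (𝒮.g i) (γ t) (dγ t)) := e2 _ _
    refine (le_of_eq (congrArg norm e3)).trans ?_
    refine (ContinuousLinearMap.opNorm_comp_le _ _).trans ?_
    rw [mul_comm K]
    exact mul_le_mul_of_nonneg_left hK (norm_nonneg _)

/-- image of a smooth causal chart curve -/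
theorem img_curve {P : BF E → E → E → Prop} (hP : P = FT ∨ P = FC) (Φ : Cf 𝒮) {i : ι} {γ dγ : ℝ → E}
    {a b : ℝ} (h : ∀ s ∈ Icc a b, γ s ∈ (𝒮.ch i).target ∧ HasDerivAt γ (dγ s) s ∧
      P (𝒮.g i (γ s)) (𝒮.T i (γ s)) (dγ s)) :
    IsCurve 𝒮 P (fun s => Φ.φ ((𝒮.ch i).symm (γ s))) a b := by
  have hder : ∀ t ∈ Icc a b, ∀ S : Set ℝ, DerivIn 𝒮 P (fun s => Φ.φ ((𝒮.ch i).symm (γ s))) S t := by
    intro t ht S
    obtain ⟨hz, hγ, hv⟩ := h t ht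
    obtain ⟨j, hj⟩ := 𝒮.cover (Φ.φ ((𝒮.ch i).symm (γ t)))
    have hdom := hc2_dom Φ hz hj
    refine ⟨j, hj, _, (hc2_rep Φ hγ hz hj).hasDerivWithinAt, ?_⟩
    have hT := 𝒮.lor i (γ t) hz
    have hT' := 𝒮.lor j (rep (𝒮.ch i) (𝒮.ch j) Φ.φ (γ t)) ((Φ.h.lc i j).maps hdom)
    have ho := Φ.h.orient i j (γ t) hdom
    rcases hP with hP | hP
    · subst hP
      exact push_FT (Φ.h.lc i j) hdom hT hT' ho hv
    · subst hP
      exact push_FC (Φ.h.lc i j) hdom hT hT' ho hv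
  refine ⟨?_, fun t ht => hder t ⟨ht.1, ht.2.le⟩ _, fun t ht => hder t ⟨ht.1.le, ht.2⟩ _⟩
  intro t ht
  obtain ⟨hz, hγ, -⟩ := h t ht
  have h1 : ContinuousAt (𝒮.ch i).symm (γ t) := (𝒮.ch i).symm.continuousAt (by simpa using hz)
  have h2 : ContinuousAt (fun s => (𝒮.ch i).symm (γ s)) t :=
    ContinuousAt.comp (g := (𝒮.ch i).symm) h1 hγ.continuousAt
  exact (Φ.φ.continuous.continuousAt.comp h2).continuousWithinAt

end Pool.Agent.EG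

end

end M_HC2

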