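import Pool.Agent.Lib.MP_eeed5f_gt.C1
import Pool.Agent.Lib.MP_eeed5f_gt.T1

section M_CC2

/-!
Row ec-CC2 (JB is transported along timelike segments; paper C2).
For U-many k the segment γ_k(s) = y_k + s(y'_k - y_k), s ∈ [0,1] (defined for all real s), lies in the target and has FT velocity at every point: the set
{(p,w) : p ∈ target, FT w at p} is open and contains the compact set {(y0+s(y0'-y0), y0'-y0)}; use `generalized tube lemma`/Lebesgue number.
‖At (g i) (γ) (dγ)‖ ≤ K on a compact neighbourhood of the limit segment.  `img_curve` (FT, then `IsCurve.of_FT`), `par_H`, `TRF` with a = 0, b = 1,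
R = 1, A = AtPost (continuous on the target), h = hPost (continuous on domR: hTr_cont and compL continuous).  Note HHm Φ i j (ch_i⁻¹ y) is the matrix of
`par_H` (ch i (ch_i⁻¹ y) = y).  Both inequalities of TRF give the equivalence, together with `JB_of_one`.
-/

open scoped ContDiff Topology
open Set Filter

noncomputable section

set_option linter.unusedSectionVars false
set_option maxSynthPendingDepth 3

namespace Pool.Agent.EG

variable {E : Type*} [NormedAddCommGroup E] [NormedSpace ℝ E] [FiniteDimensional ℝ E]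
variable {M : Type*} [TopologicalSpace M] {ι : Type*}
variable {𝒮 : LSys E M ι}

variable {κ : Type*}

theorem cc2_unif {X : Type*} [TopologicalSpace X] (U : Ultrafilter κ) {f : κ → ℝ → X} {f0 : ℝ → X}
    (hf : ∀ s : κ → ℝ, ∀ s0 ∈ Icc (0 : ℝ) 1, Tendsto s U (𝓝 s0) →
      Tendsto (fun k => f k (s k)) U (𝓝 (f0 s0)))
    {G : Set X} (hG : IsOpen G) (h0 : ∀ s ∈ Icc (0 : ℝ) 1, f0 s ∈ G) :
    ∀ᶠ k in (U : Filter κ), ∀ s ∈ Icc (0 : ℝ) 1, f k s ∈ G := by
  by_contra hcon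
  have h1 : ∀ᶠ k in (U : Filter κ), ¬ ∀ s ∈ Icc (0 : ℝ) 1, f k s ∈ G :=
    Ultrafilter.eventually_not.2 hcon
  have hch : ∀ k, ∃ s, s ∈ Icc (0 : ℝ) 1 ∧
      ((¬ ∀ s ∈ Icc (0 : ℝ) 1, f k s ∈ G) → f k s ∉ G) := by
    intro k
    by_cases hk : ∀ s ∈ Icc (0 : ℝ) 1, f k s ∈ G
    · exact ⟨0, ⟨le_rfl, zero_le_one⟩, fun h => absurd hk h⟩
    · push Not at hk
      obtain ⟨s, hs, hs'⟩ := hk
      exact ⟨s, hs, fun _ => hs'⟩
  choose s hs hs' using hch
  obtain ⟨s0, hs0, hle⟩ := (isCompact_Icc (a := (0 : ℝ)) (b := 1)).ultrafilter_le_nhds'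
    (U.map s) (by rw [Ultrafilter.mem_map]; exact Filter.univ_mem' hs)
  have ht : Tendsto s U (𝓝 s0) := hle
  have h2 := (hf s s0 hs0 ht).eventually (hG.mem_nhds (h0 s0 hs0))
  obtain ⟨k, hk1, hk2⟩ := (h1.and h2).exists
  exact hs' k hk1 hk2

/-- the good pairs (point, vector) form an open set -/
theorem cc2_open (i : ι) (K : ℝ) : IsOpen {x : E × E | x.1 ∈ (𝒮.ch i).target ∧
    FT (𝒮.g i x.1) (𝒮.T i x.1) x.2 ∧ ‖At (𝒮.g i) x.1 x.2‖ < K} := by
  rw [isOpen_iff_mem_nhds]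
  rintro x ⟨h1, h2, h3⟩
  have hO := (𝒮.ch i).open_target.mem_nhds h1
  have hg : ContinuousAt (fun x : E × E => 𝒮.g i x.1) x :=
    ContinuousAt.comp (g := 𝒮.g i) ((𝒮.met i).smooth.continuousOn.continuousAt hO) continuousAt_fst
  have hT : ContinuousAt (fun x : E × E => 𝒮.T i x.1) x :=
    ContinuousAt.comp (g := 𝒮.T i) ((𝒮.contT i).continuousAt hO) continuousAt_fst
  have hA : ContinuousAt (fun x : E × E => At (𝒮.g i) x.1) x :=
    ContinuousAt.comp (g := At (𝒮.g i)) ((𝒮.met i).smooth_At.continuousOn.continuousAt hO)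
      continuousAt_fst
  have e1 : ContinuousAt (fun x : E × E => 𝒮.g i x.1 x.2 x.2) x :=
    (hg.clm_apply continuousAt_snd).clm_apply continuousAt_snd
  have e2 : ContinuousAt (fun x : E × E => 𝒮.g i x.1 (𝒮.T i x.1) x.2) x :=
    (hg.clm_apply hT).clm_apply continuousAt_snd
  have e3 : ContinuousAt (fun x : E × E => ‖At (𝒮.g i) x.1 x.2‖) x :=
    (hA.clm_apply continuousAt_snd).norm
  have e0 : ∀ᶠ x' : E × E in 𝓝 x, x'.1 ∈ (𝒮.ch i).target := continuousAt_fst.eventually hO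
  filter_upwards [e0, e1.tendsto.eventually (gt_mem_nhds h2.1), e2.tendsto.eventually (gt_mem_nhds h2.2),
    e3.tendsto.eventually (gt_mem_nhds h3)] with x' a0 a1 a2 a3
  exact ⟨a0, ⟨a1, a2⟩, a3⟩

theorem cc2_AtPost (i : ι) : ContinuousOn (AtPost (𝒮.g i)) (𝒮.ch i).target := by
  have h : ContinuousOn (At (𝒮.g i)) (𝒮.ch i).target := (𝒮.met i).smooth_At.continuousOn
  exact (continuousOn_const (c := ContinuousLinearMap.compL ℝ (Tr E) (Tr E) (Tr E))).clm_comp h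

theorem cc2_hPost (i j : ι) :
    ContinuousOn (hPost 𝒮 i j) (domR (𝒮.ch i) (𝒮.ch j) id) :=
  (ContinuousLinearMap.compL ℝ (Tr E) (Tr E) (Tr E)).continuous.comp_continuousOn (hTr_cont i j)

theorem JB_seg [T2Space M] [SecondCountableTopology M] (hN : Noh 𝒮) (hD : 3 ≤ Module.finrank ℝ E)
    {Φ : κ → Cf 𝒮} {U : Ultrafilter κ} {i : ι} {y y' : κ → E} {y0 y0' : E}
    (hy : Tendsto y U (𝓝 y0)) (hy' : Tendsto y' U (𝓝 y0'))
    (hseg : ∀ s ∈ Icc (0 : ℝ) 1, y0 + s • (y0' - y0) ∈ (𝒮.ch i).target ∧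
      FT (𝒮.g i (y0 + s • (y0' - y0))) (𝒮.T i (y0 + s • (y0' - y0))) (y0' - y0)) {w0 w0' : M}
    (hw : Cnv Φ U (fun k => (𝒮.ch i).symm (y k)) ((𝒮.ch i).symm y0) w0)
    (hw' : Cnv Φ U (fun k => (𝒮.ch i).symm (y' k)) ((𝒮.ch i).symm y0') w0') :
    JBat Φ U (fun k => (𝒮.ch i).symm (y k)) ((𝒮.ch i).symm y0) w0 ↔
      JBat Φ U (fun k => (𝒮.ch i).symm (y' k)) ((𝒮.ch i).symm y0') w0' := by
  have h0I : (0 : ℝ) ∈ Icc (0 : ℝ) 1 := ⟨le_rfl, zero_le_one⟩
  have h1I : (1 : ℝ) ∈ Icc (0 : ℝ) 1 := ⟨zero_le_one, le_rfl⟩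
  -- the bound of the connection on the limit segment
  have hcF : ContinuousOn (fun s : ℝ => At (𝒮.g i) (y0 + s • (y0' - y0)) (y0' - y0)) (Icc 0 1) := by
    have hAc : ContinuousOn (At (𝒮.g i)) (𝒮.ch i).target := (𝒮.met i).smooth_At.continuousOn
    have hl : Continuous fun s : ℝ => y0 + s • (y0' - y0) := by fun_prop
    exact (hAc.comp hl.continuousOn fun s hs => (hseg s hs).1).clm_apply continuousOn_const
  obtain ⟨C0, hC0⟩ := isCompact_Icc.exists_bound_of_continuousOn hcF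
  have hC0' : 0 ≤ C0 := (norm_nonneg _).trans (hC0 0 h0I)
  -- the good set
  have hgood : ∀ᶠ k in (U : Filter κ), ∀ s ∈ Icc (0 : ℝ) 1,
      ((y k + s • (y' k - y k), y' k - y k) : E × E) ∈ {x : E × E | x.1 ∈ (𝒮.ch i).target ∧
        FT (𝒮.g i x.1) (𝒮.T i x.1) x.2 ∧ ‖At (𝒮.g i) x.1 x.2‖ < C0 + 1} := by
    refine cc2_unif U (f := fun k s => ((y k + s • (y' k - y k), y' k - y k) : E × E))
      (f0 := fun s => ((y0 + s • (y0' - y0), y0' - y0) : E × E)) ?_ (cc2_open i (C0 + 1)) ?_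
    · intro s s0 _ hs
      exact (hy.add (hs.smul (hy'.sub hy))).prodMk_nhds (hy'.sub hy)
    · intro s hs
      exact ⟨(hseg s hs).1, (hseg s hs).2, lt_of_le_of_lt (hC0 s hs) (lt_add_one _)⟩
  -- charts at the images
  obtain ⟨j, hj⟩ := 𝒮.cover w0
  obtain ⟨j', hj'⟩ := 𝒮.cover w0'
  have hy0t : y0 ∈ (𝒮.ch i).target := by
    have h := (hseg 0 h0I).1
    rwa [zero_smul, add_zero] at h
  have hy0t' : y0' ∈ (𝒮.ch i).target := by
    have h := (hseg 1 h1I).1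
    rwa [one_smul, add_sub_cancel] at h
  have hi : (𝒮.ch i).symm y0 ∈ (𝒮.ch i).source := (𝒮.ch i).map_target hy0t
  have hi' : (𝒮.ch i).symm y0' ∈ (𝒮.ch i).source := (𝒮.ch i).map_target hy0t'
  have hder : ∀ k s, HasDerivAt (fun s : ℝ => y k + s • (y' k - y k)) (y' k - y k) s := by
    intro k s
    have h := ((hasDerivAt_id s).smul_const (y' k - y k)).const_add (y k)
    rwa [one_smul] at h
  have hpq := TRF (κ := κ) (V := Tr E →L[ℝ] Tr E) hN U (A := fun j => AtPost (𝒮.g j))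
    (fun j => cc2_AtPost j) (h := hPost 𝒮) (fun i j => cc2_hPost i j) (K := C0 + 1) (by linarith) (R := 1)
    (σ := fun k s => (Φ k).φ ((𝒮.ch i).symm (y k + s • (y' k - y k)))) (a := fun _ => 0)
    (b := fun _ => 1) (Filter.Eventually.of_forall fun _ => zero_le_one)
    (Filter.Eventually.of_forall fun _ => by norm_num)
    (by
      filter_upwards [hgood] with k hk
      exact (img_curve (Or.inl rfl) (Φ k) (γ := fun s => y k + s • (y' k - y k))
        (dγ := fun _ => y' k - y k) fun s hs => ⟨(hk s hs).1, hder k s, (hk s hs).2.1⟩).of_FT)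
    (p := w0) (q := w0')
    (by
      have h := hw.hw
      simp only [zero_smul, add_zero]
      exact h)
    (by
      have h := hw'.hw
      simp only [one_smul, add_sub_cancel]
      exact h)
    hj hj'
  obtain ⟨C, hC⟩ := hpq
  have hkey : ∀ᶠ k in (U : Filter κ),
      ‖HHm (Φ k) i j' ((𝒮.ch i).symm (y' k))‖ ≤ C * ‖HHm (Φ k) i j ((𝒮.ch i).symm (y k))‖ ∧
      ‖HHm (Φ k) i j ((𝒮.ch i).symm (y k))‖ ≤ C * ‖HHm (Φ k) i j' ((𝒮.ch i).symm (y' k))‖ := by
    filter_upwards [hC, hgood] with k h1 h2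
    have hp := par_H hD (Φ k) (i := i) (γ := fun s => y k + s • (y' k - y k))
      (dγ := fun _ => y' k - y k) (a := 0) (b := 1) (K := C0 + 1)
      fun s hs => ⟨(h2 s hs).1, hder k s, (h2 s hs).2.2.le⟩
    have h3 := h1 _ hp
    have ht0 : y k ∈ (𝒮.ch i).target := by
      have h := (h2 0 h0I).1
      simp only [zero_smul, add_zero] at h
      exact h
    have ht1 : y' k ∈ (𝒮.ch i).target := by
      have h := (h2 1 h1I).1
      simp only [one_smul, add_sub_cancel] at h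
      exact h
    simp only [zero_smul, add_zero, one_smul, add_sub_cancel] at h3
    unfold HHm
    rw [(𝒮.ch i).right_inv ht0, (𝒮.ch i).right_inv ht1]
    exact h3
  constructor
  · intro hJ
    obtain ⟨C1, hC1⟩ := hJ i j hi hj
    refine JB_of_one hw' hi' hj' (C := |C| * |C1|) ?_
    filter_upwards [hkey, hC1] with k h1 h2
    refine h1.1.trans ?_
    refine (mul_le_mul_of_nonneg_right (le_abs_self C) (norm_nonneg _)).trans ?_
    exact mul_le_mul_of_nonneg_left (h2.trans (le_abs_self _)) (abs_nonneg _)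
  · intro hJ
    obtain ⟨C1, hC1⟩ := hJ i j' hi' hj'
    refine JB_of_one hw hi hj (C := |C| * |C1|) ?_
    filter_upwards [hkey, hC1] with k h1 h2
    refine h1.2.trans ?_
    refine (mul_le_mul_of_nonneg_right (le_abs_self C) (norm_nonneg _)).trans ?_
    exact mul_le_mul_of_nonneg_left (h2.trans (le_abs_self _)) (abs_nonneg _)

end Pool.Agent.EG

end

end M_CC2

section M_CC3

/-!
Row ec-CC3 (JB is everywhere or nowhere).
`conn`: M is preconnected: for x,y take c with x ≪ c, y ≪ c (`directed`); a timelike curve is continuous on [0,1], so x, c and y, c lie in connected sets.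
`JB_loc`: box B at z0 (exists_box'), y0 = ch z0, T0 = T(y0) FT on closedBall y0 (3r).  y* = y0 + ε T0, ε small such that for ‖y-y0‖ ≤ δ all points of the
segment [y,y*] are in the ball and y*-y is FT there (FT is open and scale invariant: (y*-y)/ε = T0 + (y0-y)/ε close to T0 if δ ≪ ε).
For families z → z1, z' → z1' with z1, z1' in the nbhd: JB_seg for (ch z, y*) and (ch z', y*) (constant family y*; its images converge by BOf; two Cnv
of the same family have the same limit, T2).  z k = ch_i⁻¹(ch_i (z k)) eventually (left_inv): congruence of JBat under eventually equal families.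
`JB_all`: A = {z1 | JB for all Cnv families at z1}, complement = {z1 | no ...} are open by JB_loc, A is nonempty; preconnected.
-/

open scoped ContDiff Topology
open Set Filter

noncomputable section

set_option linter.unusedSectionVars false
set_option maxSynthPendingDepth 3

namespace Pool.Agent.EG

variable {E : Type*} [NormedAddCommGroup E] [NormedSpace ℝ E] [FiniteDimensional ℝ E]
variable {M : Type*} [TopologicalSpace M] {ι : Type*}
variable {𝒮 : LSys E M ι}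

variable {κ : Type*}

/-- future timelike vectors form an open set -/
theorem cc3_open {i : ι} {y0 : E} (hy : y0 ∈ (𝒮.ch i).target) :
    ∃ δ : ℝ, 0 < δ ∧ ∀ y, ‖y - y0‖ < δ → y ∈ (𝒮.ch i).target ∧
      ∀ v, ‖v - 𝒮.T i y0‖ < δ → FT (𝒮.g i y) (𝒮.T i y) v := by
  have hL := 𝒮.lor i y0 hy
  set p0 : E × E := (y0, 𝒮.T i y0) with hp0
  have hgc : ContinuousAt (fun z : E × E => 𝒮.g i z.1) p0 :=
    ContinuousAt.comp (g := 𝒮.g i) (f := Prod.fst) (bx1_gcont hy) continuousAt_fst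
  have hTc : ContinuousAt (fun z : E × E => 𝒮.T i z.1) p0 :=
    ContinuousAt.comp (g := 𝒮.T i) (f := Prod.fst) (bx1_Tcont hy) continuousAt_fst
  have h1 : ContinuousAt (fun z : E × E => 𝒮.g i z.1 z.2 z.2) p0 :=
    (hgc.clm_apply continuousAt_snd).clm_apply continuousAt_snd
  have h2 : ContinuousAt (fun z : E × E => 𝒮.g i z.1 (𝒮.T i z.1) z.2) p0 :=
    (hgc.clm_apply hTc).clm_apply continuousAt_snd
  have h3 : ∀ᶠ z : E × E in 𝓝 p0, z.1 ∈ (𝒮.ch i).target :=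
    continuousAt_fst.eventually ((𝒮.ch i).open_target.mem_nhds hy)
  obtain ⟨δ, hδ, hball⟩ := Metric.eventually_nhds_iff_ball.1
    (h3.and ((h1.eventually (gt_mem_nhds hL.neg)).and (h2.eventually (gt_mem_nhds hL.neg))))
  have hmem : ∀ y v, ‖y - y0‖ < δ → ‖v - 𝒮.T i y0‖ < δ → (y, v) ∈ Metric.ball p0 δ := by
    intro y v h4 h5
    rw [Metric.mem_ball, hp0, Prod.dist_eq, max_lt_iff, dist_eq_norm, dist_eq_norm]
    exact ⟨h4, h5⟩
  refine ⟨δ, hδ, fun y hyy => ⟨?_, fun v hv => ?_⟩⟩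
  · exact (hball _ (hmem y (𝒮.T i y0) hyy (by rw [sub_self, norm_zero]; exact hδ))).1
  · exact (hball _ (hmem y v hyy hv)).2

theorem cc3_FT_smul {b : BF E} {T v : E} (h : FT b T v) {ε : ℝ} (hε : 0 < ε) : FT b T (ε • v) := by
  constructor
  · rw [map_smul, map_smul, smul_apply, smul_eq_mul, smul_eq_mul]
    exact mul_neg_of_pos_of_neg hε (mul_neg_of_pos_of_neg hε h.1)
  · rw [map_smul, smul_eq_mul]
    exact mul_neg_of_pos_of_neg hε h.2

theorem cc3_congr {Φ : κ → Cf 𝒮} {U : Ultrafilter κ} {z z' : κ → M} {z0 w0 : M}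
    (h : ∀ᶠ k in U, z k = z' k) (hJ : JBat Φ U z z0 w0) : JBat Φ U z' z0 w0 := by
  intro i j hi hj
  obtain ⟨C, hC⟩ := hJ i j hi hj
  refine ⟨C, ?_⟩
  filter_upwards [h, hC] with k h1 h2
  rw [← h1]
  exact h2

theorem cc3_cnv_congr {Φ : κ → Cf 𝒮} {U : Ultrafilter κ} {z z' : κ → M} {z0 w0 : M}
    (h : ∀ᶠ k in U, z k = z' k) (hJ : Cnv Φ U z z0 w0) : Cnv Φ U z' z0 w0 := by
  constructor
  · exact hJ.hz.congr' h
  · refine hJ.hw.congr' ?_
    filter_upwards [h] with k h1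
    rw [h1]

theorem conn [T2Space M] [SecondCountableTopology M] (hN : Noh 𝒮) : PreconnectedSpace M := by
  constructor
  refine isPreconnected_of_forall_pair fun x _ y _ => ?_
  obtain ⟨c, ⟨σ, hσ, hσ0, hσ1⟩, ⟨σ', hσ', hσ'0, hσ'1⟩⟩ := directed hN x y
  have h0 : (0 : ℝ) ∈ Icc (0 : ℝ) 1 := ⟨le_rfl, zero_le_one⟩
  have h1 : (1 : ℝ) ∈ Icc (0 : ℝ) 1 := ⟨zero_le_one, le_rfl⟩
  refine ⟨σ '' Icc 0 1 ∪ σ' '' Icc 0 1, subset_univ _, Or.inl ⟨0, h0, hσ0⟩, Or.inr ⟨0, h0, hσ'0⟩, ?_⟩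
  exact IsPreconnected.union c ⟨1, h1, hσ1⟩ ⟨1, h1, hσ'1⟩ (isPreconnected_Icc.image _ hσ.cont)
    (isPreconnected_Icc.image _ hσ'.cont)

theorem JB_loc [T2Space M] [SecondCountableTopology M] (hN : Noh 𝒮) (hD : 3 ≤ Module.finrank ℝ E)
    {Φ : κ → Cf 𝒮} {U : Ultrafilter κ} (hΦ : BOf Φ U) (z0 : M) : ∃ N ∈ 𝓝 z0, ∀ z1 ∈ N, ∀ z1' ∈ N,
      ∀ (z z' : κ → M) (w w' : M), Cnv Φ U z z1 w → Cnv Φ U z' z1' w' →
        JBat Φ U z z1 w → JBat Φ U z' z1' w' := by
  obtain ⟨i, hi⟩ := 𝒮.cover z0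
  have hy : 𝒮.ch i z0 ∈ (𝒮.ch i).target := (𝒮.ch i).map_source hi
  obtain ⟨δ, hδ, hopen⟩ := cc3_open hy
  set y0 := 𝒮.ch i z0 with hy0
  set T0 := 𝒮.T i y0 with hT0
  -- the point `y*`
  obtain ⟨ε, hε, hε'⟩ : ∃ ε : ℝ, 0 < ε ∧ ε * ‖T0‖ < δ := by
    refine ⟨δ / (2 * (‖T0‖ + 1)), by positivity, ?_⟩
    rw [div_mul_eq_mul_div, div_lt_iff₀ (by positivity)]
    have := norm_nonneg T0
    nlinarith
  set ys := y0 + ε • T0 with hys
  have hyst : ys ∈ (𝒮.ch i).target := by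
    apply (hopen ys _).1
    rw [hys, add_sub_cancel_left, norm_smul, Real.norm_of_nonneg hε.le]
    exact hε'
  obtain ⟨ws, hws⟩ := cnv_exists hΦ (z := fun _ => (𝒮.ch i).symm ys) tendsto_const_nhds
  set η := min δ (ε * δ) with hη
  have hη0 : 0 < η := lt_min hδ (mul_pos hε hδ)
  have hsegm : ∀ y, ‖y - y0‖ < η → ∀ s ∈ Icc (0 : ℝ) 1, y + s • (ys - y) ∈ (𝒮.ch i).target ∧
      FT (𝒮.g i (y + s • (ys - y))) (𝒮.T i (y + s • (ys - y))) (ys - y) := by
    intro y hyy s hs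
    have h1 : ‖y + s • (ys - y) - y0‖ < δ := by
      have e : y + s • (ys - y) - y0 = (1 - s) • (y - y0) + s • (ε • T0) := by
        rw [hys]
        module
      rw [e]
      have h2 : ‖y - y0‖ < δ := hyy.trans_le (min_le_left _ _)
      have h3 : ‖(ε • T0 : E)‖ < δ := by
        rw [norm_smul, Real.norm_of_nonneg hε.le]
        exact hε'
      have h4 : ‖(1 - s) • (y - y0) + s • (ε • T0)‖ ≤ (1 - s) * ‖y - y0‖ + s * ‖(ε • T0 : E)‖ := by
        refine (norm_add_le _ _).trans ?_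
        rw [norm_smul, norm_smul s, Real.norm_of_nonneg (sub_nonneg.2 hs.2), Real.norm_of_nonneg hs.1]
      refine h4.trans_lt ?_
      rcases eq_or_lt_of_le hs.1 with h0 | h0
      · rw [← h0]
        linarith
      · nlinarith [hs.2]
    obtain ⟨h5, h6⟩ := hopen _ h1
    refine ⟨h5, ?_⟩
    have e : ys - y = ε • (T0 + ε⁻¹ • (y0 - y)) := by
      rw [hys, smul_add, smul_smul, mul_inv_cancel₀ hε.ne', one_smul]
      abel
    rw [e]
    have e2 : y + s • (ε • (T0 + ε⁻¹ • (y0 - y))) = y + s • (ys - y) := by rw [e]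
    rw [e2]
    apply cc3_FT_smul _ hε
    apply h6
    rw [add_sub_cancel_left, norm_smul, norm_inv, Real.norm_of_nonneg hε.le, norm_sub_rev,
      inv_mul_lt_iff₀ hε]
    exact hyy.trans_le (min_le_right _ _)
  -- the equivalence with the family `y*`
  have key : ∀ z1 ∈ (𝒮.ch i).source, ‖𝒮.ch i z1 - y0‖ < η → ∀ (z : κ → M) (w : M), Cnv Φ U z z1 w →
      (JBat Φ U z z1 w ↔ JBat Φ U (fun _ => (𝒮.ch i).symm ys) ((𝒮.ch i).symm ys) ws) := by
    intro z1 hz1 hz1' z w hC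
    have hev : ∀ᶠ k in U, z k = (𝒮.ch i).symm (𝒮.ch i (z k)) := by
      filter_upwards [hC.hz.eventually ((𝒮.ch i).open_source.mem_nhds hz1)] with k hk
      exact ((𝒮.ch i).left_inv hk).symm
    have hev' : ∀ᶠ k in U, (𝒮.ch i).symm (𝒮.ch i (z k)) = z k := by
      filter_upwards [hev] with k hk
      exact hk.symm
    have hlim : (𝒮.ch i).symm (𝒮.ch i z1) = z1 := (𝒮.ch i).left_inv hz1
    have h1 := JB_seg hN hD (Φ := Φ) (U := U) (i := i) (y := fun k => 𝒮.ch i (z k)) (y' := fun _ => ys)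
      (y0 := 𝒮.ch i z1) (y0' := ys) (((𝒮.ch i).continuousAt hz1).tendsto.comp hC.hz)
      tendsto_const_nhds (hsegm _ hz1') (w0 := w) (w0' := ws)
      (by rw [hlim]; exact cc3_cnv_congr hev hC) hws
    rw [hlim] at h1
    rw [← h1]
    exact ⟨cc3_congr hev, cc3_congr hev'⟩
  refine ⟨{x | x ∈ (𝒮.ch i).source ∧ ‖𝒮.ch i x - y0‖ < η}, ?_, ?_⟩
  · have h1 : IsOpen ((𝒮.ch i).source ∩ 𝒮.ch i ⁻¹' Metric.ball y0 η) :=
      (𝒮.ch i).isOpen_inter_preimage Metric.isOpen_ball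
    have h2 : {x | x ∈ (𝒮.ch i).source ∧ ‖𝒮.ch i x - y0‖ < η} =
        (𝒮.ch i).source ∩ 𝒮.ch i ⁻¹' Metric.ball y0 η := by
      ext x
      rw [mem_inter_iff, mem_preimage, mem_ball_iff_norm]
      rfl
    rw [h2]
    apply h1.mem_nhds
    exact ⟨hi, Metric.mem_ball_self hη0⟩
  · rintro z1 ⟨h1, h1'⟩ z1' ⟨h2, h2'⟩ z z' w w' hC hC' hJ
    rw [key z1 h1 h1' z w hC] at hJ
    rw [key z1' h2 h2' z' w' hC']
    exact hJ

theorem JB_all [T2Space M] [SecondCountableTopology M] (hN : Noh 𝒮) (hD : 3 ≤ Module.finrank ℝ E)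
    {Φ : κ → Cf 𝒮} {U : Ultrafilter κ} (hΦ : BOf Φ U) {z z' : κ → M} {z0 z0' w0 w0' : M}
    (h : Cnv Φ U z z0 w0) (h' : Cnv Φ U z' z0' w0') (hJ : JBat Φ U z z0 w0) :
    JBat Φ U z' z0' w0' := by
  have := conn (𝒮 := 𝒮) hN
  set A : Set M := {z1 | ∀ (z : κ → M) (w : M), Cnv Φ U z z1 w → JBat Φ U z z1 w} with hA
  have hloc : ∀ x : M, ∃ N ∈ 𝓝 x, ∀ z1 ∈ N, ∀ z1' ∈ N, z1 ∈ A → z1' ∈ A := by
    intro x
    obtain ⟨N, hN', hJB⟩ := JB_loc hN hD hΦ x
    refine ⟨N, hN', fun z1 hz1 z1' hz1' h1 z2 w2 hC2 => ?_⟩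
    obtain ⟨w3, hw3⟩ := cnv_exists hΦ (z := fun _ => z1) tendsto_const_nhds
    exact hJB z1 hz1 z1' hz1' _ _ _ _ hw3 hC2 (h1 _ _ hw3)
  have hopen : IsOpen A := by
    rw [isOpen_iff_mem_nhds]
    intro x hx
    obtain ⟨N, hN', hJB⟩ := hloc x
    filter_upwards [hN'] with x' hx'
    exact hJB x (mem_of_mem_nhds hN') x' hx' hx
  have hclosed : IsClosed A := by
    rw [← isOpen_compl_iff, isOpen_iff_mem_nhds]
    intro x hx
    obtain ⟨N, hN', hJB⟩ := hloc x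
    filter_upwards [hN'] with x' hx' hxA
    exact hx (hJB x' hx' x (mem_of_mem_nhds hN') hxA)
  have hz0 : z0 ∈ A := by
    obtain ⟨N, hN', hJB⟩ := JB_loc hN hD hΦ z0
    intro z2 w2 hC2
    exact hJB z0 (mem_of_mem_nhds hN') z0 (mem_of_mem_nhds hN') _ _ _ _ h hC2 hJ
  have huniv : A = univ := by
    rcases isClopen_iff.1 ⟨hclosed, hopen⟩ with h0 | h0
    · rw [h0] at hz0
      exact hz0.elim
    · exact h0
  have h1 : z0' ∈ A := by
    rw [huniv]
    exact mem_univ _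
  exact h1 z' w0' h'

end Pool.Agent.EG

end

end M_CC3

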