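import Pool.Agent.Lib.MP_eeed5f_gt.L7
import Pool.Agent.Lib.MP_eeed5f_gt.S0

/-!
Row ec-LB13 (derivative of the Cotton identity; paper C4).
`CotL`: Cot as a trilinear map.  `smooth_CotL`: ingredients are smooth (smooth_sch, smooth_gam, smooth_fderiv).
`cot_deriv`: K = CotL g, K' = CotL g'.  On S: K'(f)(LX,LY,LZ) = K(X,Y,Z) (`cot_pull`, W = 0 on S).  Differentiate in the direction U:
(D_{LU}K')(LX,LY,LZ) + K'(D²f(U,X),LY,LZ) + K'(LX,D²f(U,Y),LZ) + K'(LX,LY,D²f(U,Z)) = (D_UK)(X,Y,Z), insert `hess`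
D²f(U,X) = L(Γ(U,X)+C_U X) - Γ'(LU,LX), and use cot_pull again: K'(L·,L·,L·) = K.
-/

open scoped ContDiff Topology
open Set Filter

noncomputable section

set_option linter.unusedSectionVars false
set_option maxSynthPendingDepth 3

namespace Pool.Agent.EG

variable {E : Type*} [NormedAddCommGroup E] [NormedSpace ℝ E] [FiniteDimensional ℝ E]
variable {M : Type*} [TopologicalSpace M] {ι : Type*}
variable {𝒮 : LSys E M ι}

variable {O O' S : Set E} {g g' : E → BF E} {f : E → E} {c : E → ℝ} {y : E}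

/-- the Cotton tensor as a trilinear map -/
def CotL (g : E → BF E) (y : E) : E →L[ℝ] E →L[ℝ] E →L[ℝ] ℝ :=
  (LinearMap.mk₂ ℝ (fun X Y =>
      (fderiv ℝ (Sch g) y X Y - Sch g y (Gam g y X Y) - (Sch g y Y).comp (Gam g y X))
      - (fderiv ℝ (Sch g) y Y X - Sch g y (Gam g y Y X) - (Sch g y X).comp (Gam g y Y)))
    (by intro u u' v; ext w; simp; ring)
    (by intro a u v; ext w; simp; ring)
    (by intro u v v'; ext w; simp; ring)
    (by intro a u v; ext w; simp; ring)).toContinuousBilinearMap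

theorem CotL_apply (g : E → BF E) (y X Y Z : E) : CotL g y X Y Z = Cot g y X Y Z := rfl

theorem CotL_anti (g : E → BF E) (y X Y Z : E) : CotL g y Y X Z = - CotL g y X Y Z := by
  rw [CotL_apply, CotL_apply]
  unfold Cot
  ring

theorem IsMet.smooth_CotL (h : IsMet O g) : ContDiffOn ℝ ∞ (CotL g) O := by
  rw [contDiffOn_clm_apply]
  intro X
  rw [contDiffOn_clm_apply]
  intro Y
  rw [contDiffOn_clm_apply]
  intro Z
  exact h.smooth_cot X Y Z

/-- derivative of a trilinear expression -/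
theorem lb13_abs {V F : Type*} [NormedAddCommGroup V] [NormedSpace ℝ V] [NormedAddCommGroup F]
    [NormedSpace ℝ F] {K : V → F →L[ℝ] F →L[ℝ] F →L[ℝ] ℝ} {K' : V →L[ℝ] F →L[ℝ] F →L[ℝ] F →L[ℝ] ℝ}
    {a b c : V → F} {a' b' c' : V →L[ℝ] F} {y : V} (hK : HasFDerivAt K K' y) (ha : HasFDerivAt a a' y)
    (hb : HasFDerivAt b b' y) (hc : HasFDerivAt c c' y) :
    ∃ D : V →L[ℝ] ℝ, HasFDerivAt (fun z => K z (a z) (b z) (c z)) D y ∧ ∀ U, D U =
      K' U (a y) (b y) (c y) + K y (a' U) (b y) (c y) + K y (a y) (b' U) (c y)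
        + K y (a y) (b y) (c' U) := by
  refine ⟨_, ((hK.clm_apply ha).clm_apply hb).clm_apply hc, fun U => ?_⟩
  simp only [_root_.add_apply, ContinuousLinearMap.comp_apply, ContinuousLinearMap.flip_apply]
  ring

theorem lb13_app {V F : Type*} [NormedAddCommGroup V] [NormedSpace ℝ V] [NormedAddCommGroup F]
    [NormedSpace ℝ F] {L : V → V →L[ℝ] F} {L' : V →L[ℝ] V →L[ℝ] F} {y : V} (h : HasFDerivAt L L' y)
    (W : V) : HasFDerivAt (fun z => L z W) (L'.flip W) y :=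
  (ContinuousLinearMap.apply ℝ F W).hasFDerivAt.comp y h

/-- (C4), before inserting the Hessian -/
theorem lb13_diff (h : IsLC O g O' g' S f c) (hD : 3 ≤ Module.finrank ℝ E)
    (hW : ∀ y ∈ S, Wey g y = 0) (hy : y ∈ S) (U X Y Z : E) :
    fderiv ℝ (CotL g') (f y) (fderiv ℝ f y U) (fderiv ℝ f y X) (fderiv ℝ f y Y) (fderiv ℝ f y Z)
      + CotL g' (f y) (fderiv ℝ (fderiv ℝ f) y U X) (fderiv ℝ f y Y) (fderiv ℝ f y Z)
      + CotL g' (f y) (fderiv ℝ f y X) (fderiv ℝ (fderiv ℝ f) y U Y) (fderiv ℝ f y Z)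
      + CotL g' (f y) (fderiv ℝ f y X) (fderiv ℝ f y Y) (fderiv ℝ (fderiv ℝ f) y U Z)
      = fderiv ℝ (CotL g) y U X Y Z := by
  have hf : HasFDerivAt f (fderiv ℝ f y) y := (diffAt_of h.isOpen h.smooth_f hy).hasFDerivAt
  have hf2 : HasFDerivAt (fderiv ℝ f) (fderiv ℝ (fderiv ℝ f) y) y :=
    (diffAt_of h.isOpen (smooth_fderiv h.isOpen h.smooth_f) hy).hasFDerivAt
  have hK : HasFDerivAt (CotL g) (fderiv ℝ (CotL g) y) y :=
    (diffAt_of h.met.isOpen h.met.smooth_CotL (h.sub hy)).hasFDerivAt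
  have hK' : HasFDerivAt (CotL g') (fderiv ℝ (CotL g') (f y)) (f y) :=
    (diffAt_of h.met'.isOpen h.met'.smooth_CotL (h.maps hy)).hasFDerivAt
  have e1 : HasFDerivAt (fun z => CotL g' (f z)) ((fderiv ℝ (CotL g') (f y)).comp (fderiv ℝ f y)) y :=
    hK'.comp y hf
  obtain ⟨D1, hD1, h1⟩ := lb13_abs e1 (lb13_app hf2 X) (lb13_app hf2 Y) (lb13_app hf2 Z)
  obtain ⟨D2, hD2, h2⟩ := lb13_abs hK (hasFDerivAt_const X y) (hasFDerivAt_const Y y)
    (hasFDerivAt_const Z y)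
  have e4 : HasFDerivAt
      (fun z => CotL g' (f z) (fderiv ℝ f z X) (fderiv ℝ f z Y) (fderiv ℝ f z Z)) D2 y :=
    hD2.congr_of_eventuallyEq (Filter.eventuallyEq_of_mem (h.isOpen.mem_nhds hy)
      (fun z hz => h.cot_pull hD hz (hW z hz) X Y Z))
  have h3 := h1 U
  rw [hD1.unique e4, h2 U] at h3
  simp only [ContinuousLinearMap.flip_apply, ContinuousLinearMap.comp_apply,
    ContinuousLinearMap.zero_apply, map_zero, add_zero] at h3
  exact h3.symm

/-- covariant derivative of the Cotton tensor -/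
def nabCot (g : E → BF E) (y U X Y Z : E) : ℝ :=
  fderiv ℝ (CotL g) y U X Y Z - CotL g y (Gam g y U X) Y Z - CotL g y X (Gam g y U Y) Z
    - CotL g y X Y (Gam g y U Z)

theorem IsLC.cot_deriv (h : IsLC O g O' g' S f c) (hD : 3 ≤ Module.finrank ℝ E)
    (hW : ∀ y ∈ S, Wey g y = 0) (hy : y ∈ S) (U X Y Z : E) :
    CotL g y (Ct g y (tau c y) U X) Y Z + CotL g y X (Ct g y (tau c y) U Y) Z
      + CotL g y X Y (Ct g y (tau c y) U Z)
      = nabCot g y U X Y Z
        - nabCot g' (f y) (fderiv ℝ f y U) (fderiv ℝ f y X) (fderiv ℝ f y Y) (fderiv ℝ f y Z) := by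
  have h1 := lb13_diff h hD hW hy U X Y Z
  have hp : ∀ A B C : E, CotL g' (f y) (fderiv ℝ f y A) (fderiv ℝ f y B) (fderiv ℝ f y C)
      = CotL g y A B C := fun A B C => h.cot_pull hD hy (hW y hy) A B C
  rw [h.hess hy U X, h.hess hy U Y, h.hess hy U Z] at h1
  simp only [map_sub, _root_.sub_apply] at h1
  rw [hp, hp, hp] at h1
  simp only [map_add, _root_.add_apply] at h1
  unfold nabCot
  linarith only [h1]

end Pool.Agent.EG
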