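import Pool.Agent.Lib.MP_eeed5f_gt.T1
import Pool.Agent.Lib.MP_eeed5f_gt.C1
import Pool.Agent.Lib.MP_eeed5f_gt.L8
import Pool.Agent.Lib.MP_eeed5f_gt.A1
import Pool.Agent.Lib.MP_eeed5f_gt.C2

section M_CC4

/-!
Row ec-CC4 (operator norm from one timelike direction; bounded first derivatives on a dense set; paper C1, C3).
`LL_bound`: for ‖u‖ ≤ η: L(v+u), L(v-u) are FC (push_FT) in the box so ‖L(v±u)‖ ≤ lam l(L(v±u)); 2‖Lu‖ ≤ ‖L(v+u)‖+‖L(v-u)‖ ≤ 2 lam l(Lv).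
`dense_bounded`: choose z1 ∈ O, chart i, a short straight timelike segment γ(s) = y1 + s v, s ∈ [0,1], v FT with v+u FT for ‖u‖ ≤ η at all points of the
segment (v = ε T0, compactness), ch_i⁻¹γ([0,1]) ⊂ O.  σ_k = Φ_k(ch_i⁻¹γ(s)), ends converge (BOf).  Apply `SDI` with
Q s t := (t - s does not tend to 0 along U) → ∃ r : κ → ℝ, (∀ᶠ k, s k ≤ r k ≤ t k), ∃ C, and a box B with ∀ᶠ k, σ_k(r k) ∈ B.K(2r), ‖LLm Φ_k i B.i (ch_i⁻¹γ(r k))‖ ≤ C.
Transitivity: if t-r' does not tend to 0, one of the two parts does not.  Box case: t-s ≥ δ > 0 for U-many k (ultrafilter); mean value theorem for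
r ↦ B.l(ch σ_k(r)) on [s,t]: derivative B.l(L v) at some r_k equals the difference quotient ≤ ‖l‖ 4 r_B/δ; `LL_bound` gives ‖L‖ ≤ C.
Then z k = ch_i⁻¹γ(r k) converges to a point of ch_i⁻¹γ([0,1]) ⊂ O, images converge (Box.lim / BOf), `LL_of_one`.
-/

open scoped ContDiff Topology
open Set Filter

noncomputable section

set_option linter.unusedSectionVars false
set_option maxSynthPendingDepth 3

namespace Pool.Agent.EG

variable {E : Type*} [NormedAddCommGroup E] [NormedSpace ℝ E] [FiniteDimensional ℝ E]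
variable {M : Type*} [TopologicalSpace M] {ι : Type*}
variable {𝒮 : LSys E M ι}

variable {κ : Type*}

theorem LL_bound (B : Box 𝒮) (Φ : Cf 𝒮) {i : ι} {x : M} (hx : x ∈ (𝒮.ch i).source)
    (hx' : Φ.φ x ∈ B.K (3 * B.r)) {v : E} {η : ℝ} (hη : 0 < η)
    (hv : ∀ u : E, ‖u‖ ≤ η → FT (𝒮.g i (𝒮.ch i x)) (𝒮.T i (𝒮.ch i x)) (v + u)) :
    ‖LLm Φ i B.i x‖ ≤ B.lam / η * B.l (LLm Φ i B.i x v) := by
  obtain ⟨hs, hb⟩ := hx'
  have hdom : 𝒮.ch i x ∈ domR (𝒮.ch i) (𝒮.ch B.i) Φ.φ := mem_domR hx hs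
  have hr : rep (𝒮.ch i) (𝒮.ch B.i) Φ.φ (𝒮.ch i x) = 𝒮.ch B.i (Φ.φ x) := rep_apply _ _ hx
  have hT := 𝒮.lor i (𝒮.ch i x) ((𝒮.ch i).map_source hx)
  have hT' := 𝒮.lor B.i (rep (𝒮.ch i) (𝒮.ch B.i) Φ.φ (𝒮.ch i x)) ((Φ.h.lc i B.i).maps hdom)
  have ho := Φ.h.orient i B.i _ hdom
  have key : ∀ u : E, ‖u‖ ≤ η → ‖LLm Φ i B.i x (v + u)‖ ≤ B.lam * B.l (LLm Φ i B.i x (v + u)) := by
    intro u hu
    have h1 := push_FT (Φ.h.lc i B.i) hdom hT hT' ho (hv u hu)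
    rw [hr] at h1
    exact B.b1 _ hb _ ⟨h1.1.le, h1.2⟩
  obtain ⟨L, hL⟩ : ∃ L, L = LLm Φ i B.i x := ⟨_, rfl⟩
  rw [← hL] at key ⊢
  have key2 : ∀ u : E, ‖u‖ ≤ η → ‖L u‖ ≤ B.lam * B.l (L v) := by
    intro u hu
    have h1 := key u hu
    have h2 := key (-u) (by rwa [norm_neg])
    rw [map_add, map_add] at h1 h2
    rw [map_neg, map_neg] at h2
    have h3 : (2 : ℝ) * ‖L u‖ ≤ ‖L v + L u‖ + ‖L v + -L u‖ := by
      have h4 : (L v + L u) - (L v + -L u) = (2 : ℝ) • L u := by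
        rw [two_smul]; abel
      calc (2 : ℝ) * ‖L u‖ = ‖(2 : ℝ) • L u‖ := by rw [norm_smul]; norm_num
        _ = ‖(L v + L u) - (L v + -L u)‖ := by rw [h4]
        _ ≤ _ := norm_sub_le _ _
    nlinarith
  have h0 : 0 ≤ B.lam * B.l (L v) := (norm_nonneg _).trans (key2 0 (by simpa using hη.le))
  refine L.opNorm_le_bound (by rw [div_mul_eq_mul_div]; positivity) fun w => ?_
  rcases eq_or_ne w 0 with rfl | hw
  · simp
  · have hw0 : 0 < ‖w‖ := norm_pos_iff.2 hw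
    have h1 := key2 ((η / ‖w‖) • w) (by
      rw [norm_smul, Real.norm_of_nonneg (by positivity), div_mul_cancel₀ _ hw0.ne'])
    rw [map_smul, norm_smul, Real.norm_of_nonneg (by positivity)] at h1
    have h2 : ‖L w‖ = (η / ‖w‖ * ‖L w‖) * (‖w‖ / η) := by
      field_simp
    rw [h2]
    calc (η / ‖w‖ * ‖L w‖) * (‖w‖ / η) ≤ (B.lam * B.l (L v)) * (‖w‖ / η) :=
          mul_le_mul_of_nonneg_right h1 (by positivity)
      _ = _ := by ring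

/-- a short straight timelike segment in an open set -/
theorem cc4_seg {O : Set M} (hO : IsOpen O) (hne : O.Nonempty) :
    ∃ (i : ι) (y1 v : E) (η : ℝ), 0 < η ∧ ∀ s ∈ Icc (0 : ℝ) 1, y1 + s • v ∈ (𝒮.ch i).target ∧
      (𝒮.ch i).symm (y1 + s • v) ∈ O ∧
      ∀ u : E, ‖u‖ ≤ η → FT (𝒮.g i (y1 + s • v)) (𝒮.T i (y1 + s • v)) (v + u) := by
  obtain ⟨z1, hz1⟩ := hne
  obtain ⟨i, hi⟩ := 𝒮.cover z1
  obtain ⟨y1, hy1⟩ : ∃ y1, y1 = 𝒮.ch i z1 := ⟨_, rfl⟩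
  have hyt : y1 ∈ (𝒮.ch i).target := hy1 ▸ (𝒮.ch i).map_source hi
  obtain ⟨T0, hT0⟩ : ∃ T0, T0 = 𝒮.T i y1 := ⟨_, rfl⟩
  have hFT : FT (𝒮.g i y1) (𝒮.T i y1) T0 := hT0 ▸ (𝒮.lor i y1 hyt).FT_T
  have hopen : (𝒮.ch i).target ∈ 𝓝 y1 := (𝒮.ch i).open_target.mem_nhds hyt
  have hg : ContinuousAt (fun q : E × E => 𝒮.g i q.1) (y1, T0) :=
    ContinuousAt.comp (f := fun q : E × E => q.1) ((𝒮.met i).smooth.continuousOn.continuousAt hopen)
      continuousAt_fst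
  have hT : ContinuousAt (fun q : E × E => 𝒮.T i q.1) (y1, T0) :=
    ContinuousAt.comp (f := fun q : E × E => q.1) ((𝒮.contT i).continuousAt hopen) continuousAt_fst
  have hs : ContinuousAt (fun q : E × E => q.2) (y1, T0) := continuousAt_snd
  have h1 : ∀ᶠ q : E × E in 𝓝 (y1, T0), 𝒮.g i q.1 q.2 q.2 < 0 :=
    ((hg.clm_apply hs).clm_apply hs).eventually (gt_mem_nhds hFT.1)
  have h2 : ∀ᶠ q : E × E in 𝓝 (y1, T0), 𝒮.g i q.1 (𝒮.T i q.1) q.2 < 0 :=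
    ((hg.clm_apply hT).clm_apply hs).eventually (gt_mem_nhds hFT.2)
  have h3 : ∀ᶠ q : E × E in 𝓝 (y1, T0), q.1 ∈ (𝒮.ch i).target :=
    (continuous_fst.tendsto (y1, T0)).eventually hopen
  have h4 : ∀ᶠ q : E × E in 𝓝 (y1, T0), (𝒮.ch i).symm q.1 ∈ O := by
    have h5 : ContinuousAt (fun q : E × E => (𝒮.ch i).symm q.1) (y1, T0) :=
      ContinuousAt.comp (f := fun q : E × E => q.1) ((𝒮.ch i).symm.continuousAt (by simpa using hyt))
        continuousAt_fst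
    have h6 : (𝒮.ch i).symm y1 = z1 := by rw [hy1]; exact (𝒮.ch i).left_inv hi
    exact h5.eventually (hO.mem_nhds (by show (𝒮.ch i).symm y1 ∈ O; rw [h6]; exact hz1))
  obtain ⟨δ, hδ, hδ'⟩ := Metric.eventually_nhds_iff.1 (h1.and (h2.and (h3.and h4)))
  have key : ∀ p w : E, dist p y1 < δ → dist w T0 < δ →
      p ∈ (𝒮.ch i).target ∧ (𝒮.ch i).symm p ∈ O ∧ FT (𝒮.g i p) (𝒮.T i p) w := by
    intro p w hpp hww
    have h4 := hδ' (y := (p, w)) (by rw [Prod.dist_eq]; exact max_lt hpp hww)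
    exact ⟨h4.2.2.1, h4.2.2.2, h4.1, h4.2.1⟩
  have hn := norm_nonneg T0
  obtain ⟨ε, hε⟩ : ∃ ε, ε = δ / (2 * (‖T0‖ + 1)) := ⟨_, rfl⟩
  have hε0 : 0 < ε := by rw [hε]; positivity
  have hε1 : ε * ‖T0‖ < δ := by
    have : ε * (2 * (‖T0‖ + 1)) = δ := by rw [hε]; field_simp
    nlinarith
  refine ⟨i, y1, ε • T0, ε * δ / 2, by positivity, fun s hs' => ?_⟩
  have hd : dist (y1 + s • ε • T0) y1 < δ := by
    rw [dist_eq_norm, add_sub_cancel_left, norm_smul, norm_smul, Real.norm_of_nonneg hs'.1,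
      Real.norm_of_nonneg hε0.le]
    have : s * (ε * ‖T0‖) ≤ 1 * (ε * ‖T0‖) := mul_le_mul_of_nonneg_right hs'.2 (by positivity)
    linarith
  have h5 := key _ T0 hd (by simpa using hδ)
  refine ⟨h5.1, h5.2.1, fun u hu => ?_⟩
  have h6 : ‖ε⁻¹ • u‖ < δ := by
    rw [norm_smul, norm_inv, Real.norm_of_nonneg hε0.le]
    calc ε⁻¹ * ‖u‖ ≤ ε⁻¹ * (ε * δ / 2) := mul_le_mul_of_nonneg_left hu (by positivity)
      _ = δ / 2 := by field_simp
      _ < δ := by linarith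
  have h7 := (key _ (T0 + ε⁻¹ • u) hd (by rw [dist_eq_norm, add_sub_cancel_left]; exact h6)).2.2
  have h8 : ε • T0 + u = ε • (T0 + ε⁻¹ • u) := by
    rw [smul_add, smul_inv_smul₀ hε0.ne']
  rw [h8]
  exact (𝒮.lor i _ h5.1).FT_smul h7 hε0

theorem dense_bounded [T2Space M] [SecondCountableTopology M] (hN : Noh 𝒮)
    {Φ : κ → Cf 𝒮} {U : Ultrafilter κ} (hΦ : BOf Φ U) {O : Set M} (hO : IsOpen O) (hne : O.Nonempty) :
    ∃ (z : κ → M) (z0 w0 : M), z0 ∈ O ∧ Cnv Φ U z z0 w0 ∧ LLbd Φ U z z0 w0 := by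
  obtain ⟨i, y1, v, η, hη, hseg⟩ := cc4_seg (𝒮 := 𝒮) hO hne
  obtain ⟨γ, hγ⟩ : ∃ γ : ℝ → E, γ = fun s => y1 + s • v := ⟨_, rfl⟩
  have hγd : ∀ s, HasDerivAt γ v s := by
    intro s
    rw [hγ]
    have h1 : HasDerivAt (fun s : ℝ => s • v) ((1 : ℝ) • v) s := (hasDerivAt_id s).smul_const v
    rw [one_smul] at h1
    exact h1.const_add y1
  have hγc : Continuous γ := continuous_iff_continuousAt.2 fun s => (hγd s).continuousAt
  have hseg' : ∀ s ∈ Icc (0 : ℝ) 1, γ s ∈ (𝒮.ch i).target ∧ (𝒮.ch i).symm (γ s) ∈ O ∧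
      ∀ u : E, ‖u‖ ≤ η → FT (𝒮.g i (γ s)) (𝒮.T i (γ s)) (v + u) := by
    intro s hs
    rw [hγ]
    exact hseg s hs
  have hvFT : ∀ s ∈ Icc (0 : ℝ) 1, FT (𝒮.g i (γ s)) (𝒮.T i (γ s)) v := by
    intro s hs
    have := (hseg' s hs).2.2 0 (by simpa using hη.le)
    rwa [add_zero] at this
  obtain ⟨σ, hσ⟩ : ∃ σ : κ → ℝ → M, σ = fun k s => (Φ k).φ ((𝒮.ch i).symm (γ s)) := ⟨_, rfl⟩
  have hσk : ∀ k s, σ k s = (Φ k).φ ((𝒮.ch i).symm (γ s)) := fun k s => by rw [hσ]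
  have hcurve : ∀ k, IsCurve 𝒮 FC (σ k) 0 1 := by
    intro k
    have := img_curve (Or.inr rfl) (Φ k) (i := i) (γ := γ) (dγ := fun _ => v) (a := 0) (b := 1)
      (P := FC) (fun s hs => ⟨(hseg' s hs).1, hγd s, (hvFT s hs).1.le, (hvFT s hs).2⟩)
    rw [hσ]
    exact this
  obtain ⟨p, hp⟩ := hΦ (fun _ => (𝒮.ch i).symm (γ 0)) _ tendsto_const_nhds
  obtain ⟨q, hq⟩ := hΦ (fun _ => (𝒮.ch i).symm (γ 1)) _ tendsto_const_nhds
  have main := SDI hN U (σ := σ) (a := fun _ => 0) (b := fun _ => 1)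
    (Eventually.of_forall fun _ => zero_le_one) (Eventually.of_forall hcurve)
    (p := p) (q := q) (by simp only [hσk]; exact hp) (by simp only [hσk]; exact hq)
    (fun s t => (∀ᶠ k in U, s k ≤ t k) ∧ (¬ Tendsto (fun k => t k - s k) U (𝓝 0) →
      ∃ r : κ → ℝ, (∀ᶠ k in U, s k ≤ r k ∧ r k ≤ t k) ∧ ∃ (C : ℝ) (B : Box 𝒮),
        ∀ᶠ k in U, σ k (r k) ∈ B.K (2 * B.r) ∧
          ‖LLm (Φ k) i B.i ((𝒮.ch i).symm (γ (r k)))‖ ≤ C))
    ?_ ?_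
  · obtain ⟨-, h1⟩ := main
    obtain ⟨r, hr, C, B, hB⟩ := h1 (by
      intro h
      have h2 : Tendsto (fun _ : κ => (1 : ℝ) - 0) U (𝓝 ((1 : ℝ) - 0)) := tendsto_const_nhds
      have := tendsto_nhds_unique h h2
      norm_num at this)
    obtain ⟨r0, hr0, hle⟩ := (isCompact_Icc (a := (0 : ℝ)) (b := 1)).ultrafilter_le_nhds' (U.map r)
      (hr.mono fun k hk => hk)
    have hrt : Tendsto r U (𝓝 r0) := hle
    have hzt : Tendsto (fun k => (𝒮.ch i).symm (γ (r k))) U (𝓝 ((𝒮.ch i).symm (γ r0))) := by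
      have h2 : ContinuousAt (𝒮.ch i).symm (γ r0) :=
        (𝒮.ch i).symm.continuousAt (by simpa using (hseg' r0 hr0).1)
      exact h2.tendsto.comp ((hγc.tendsto r0).comp hrt)
    obtain ⟨w0, hC⟩ := cnv_exists hΦ hzt
    refine ⟨_, _, w0, (hseg' r0 hr0).2.1, hC, ?_⟩
    obtain ⟨p', hp', hpt⟩ := B.lim (ρ := 2 * B.r) U (by linarith [B.hr]) (x := fun k => σ k (r k))
      (hB.mono fun k hk => hk.1)
    have hw : w0 = p' := by
      have h3 := hC.hw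
      refine tendsto_nhds_unique h3 ?_
      simp only [hσk] at hpt
      exact hpt
    exact LL_of_one hC ((𝒮.ch i).map_target (hseg' r0 hr0).1) (hw ▸ hp'.1)
      (hB.mono fun k hk => hk.2)
  · rintro r s t ⟨h1, h1'⟩ ⟨h2, h2'⟩
    refine ⟨by filter_upwards [h1, h2] with k a b using a.trans b, fun hn => ?_⟩
    by_cases h3 : Tendsto (fun k => s k - r k) U (𝓝 0)
    · have h4 : ¬ Tendsto (fun k => t k - s k) U (𝓝 0) := by
        intro h4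
        apply hn
        have := h4.add h3
        simpa using this
      obtain ⟨ρ, hρ, hρ'⟩ := h2' h4
      refine ⟨ρ, ?_, hρ'⟩
      filter_upwards [hρ, h1] with k a b using ⟨b.trans a.1, a.2⟩
    · obtain ⟨ρ, hρ, hρ'⟩ := h1' h3
      refine ⟨ρ, ?_, hρ'⟩
      filter_upwards [hρ, h2] with k a b using ⟨a.1, a.2.trans b⟩
  · rintro s t hst - - ⟨B, hB⟩
    refine ⟨hst.mono fun k hk => hk.2.1, fun hn => ?_⟩
    obtain ⟨δ, hδ, hδ'⟩ : ∃ δ > 0, ∀ᶠ k in U, δ ≤ t k - s k := by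
      by_contra hcon
      push Not at hcon
      apply hn
      rw [Metric.tendsto_nhds]
      intro ε hε
      have h1 := hcon ε hε
      filter_upwards [h1, hst] with k hk hk'
      rw [Real.dist_eq, sub_zero, abs_of_nonneg (by linarith [hk'.2.1])]
      exact hk
    have hC : ∀ᶠ k in U, ∃ ρ : ℝ, (s k ≤ ρ ∧ ρ ≤ t k) ∧ σ k ρ ∈ B.K (2 * B.r) ∧
        ‖LLm (Φ k) i B.i ((𝒮.ch i).symm (γ ρ))‖ ≤ B.lam / η * (‖B.l‖ * (4 * B.r) / δ) := by
      filter_upwards [hst, hB, hδ'] with k h1 h2 h3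
      have hlt : s k < t k := by linarith
      have hder : ∀ ρ ∈ Icc (s k) (t k), HasDerivAt (fun r => B.l (𝒮.ch B.i (σ k r)))
          (B.l (LLm (Φ k) i B.i ((𝒮.ch i).symm (γ ρ)) v)) ρ := by
        intro ρ hρ
        have hρ1 : ρ ∈ Icc (0 : ℝ) 1 := ⟨h1.1.trans hρ.1, hρ.2.trans h1.2.2⟩
        have hz := (hseg' ρ hρ1).1
        have h4 := hc2_rep (Φ k) (i := i) (j := B.i) (hγd ρ) hz (by
          have := (h2 ρ hρ).1
          rwa [hσk] at this)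
        have h5 : LLm (Φ k) i B.i ((𝒮.ch i).symm (γ ρ)) =
            fderiv ℝ (rep (𝒮.ch i) (𝒮.ch B.i) (Φ k).φ) (γ ρ) := by
          unfold LLm
          rw [(𝒮.ch i).right_inv hz]
        rw [h5]
        simp only [hσk]
        exact B.l.hasFDerivAt.comp_hasDerivAt ρ h4
      obtain ⟨ρ, hρ, hρ'⟩ := exists_hasDerivAt_eq_slope (fun r => B.l (𝒮.ch B.i (σ k r)))
        (fun ρ => B.l (LLm (Φ k) i B.i ((𝒮.ch i).symm (γ ρ)) v)) hlt
        (fun ρ hρ => (hder ρ hρ).continuousAt.continuousWithinAt)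
        (fun ρ hρ => hder ρ ⟨hρ.1.le, hρ.2.le⟩)
      have hρI : ρ ∈ Icc (s k) (t k) := ⟨hρ.1.le, hρ.2.le⟩
      have hρ1 : ρ ∈ Icc (0 : ℝ) 1 := ⟨h1.1.trans hρI.1, hρI.2.trans h1.2.2⟩
      have hz := (hseg' ρ hρ1).1
      refine ⟨ρ, ⟨hρI.1, hρI.2⟩, h2 ρ hρI, ?_⟩
      have h6 : (Φ k).φ ((𝒮.ch i).symm (γ ρ)) ∈ B.K (3 * B.r) := by
        have := h2 ρ hρI
        rw [hσk] at this
        exact ⟨this.1, Metric.closedBall_subset_closedBall (by linarith [B.hr]) this.2⟩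
      have h7 := LL_bound B (Φ k) ((𝒮.ch i).map_target hz) h6 hη (v := v) (by
        rw [(𝒮.ch i).right_inv hz]
        exact (hseg' ρ hρ1).2.2)
      refine h7.trans (mul_le_mul_of_nonneg_left ?_ (div_nonneg B.hlam.le hη.le))
      rw [hρ', ← map_sub]
      have h8 : B.l (𝒮.ch B.i (σ k (t k)) - 𝒮.ch B.i (σ k (s k))) ≤ ‖B.l‖ * (4 * B.r) := by
        refine (le_abs_self _).trans ((B.l.le_opNorm _).trans ?_)
        refine mul_le_mul_of_nonneg_left ?_ (norm_nonneg _)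
        have e1 := (h2 (t k) ⟨hlt.le, le_rfl⟩).2
        have e2 := (h2 (s k) ⟨le_rfl, hlt.le⟩).2
        rw [Metric.mem_closedBall] at e1 e2
        rw [← dist_eq_norm]
        calc dist (𝒮.ch B.i (σ k (t k))) (𝒮.ch B.i (σ k (s k)))
            ≤ dist (𝒮.ch B.i (σ k (t k))) B.y0 + dist (𝒮.ch B.i (σ k (s k))) B.y0 :=
              dist_triangle_right _ _ _
          _ ≤ 4 * B.r := by linarith
      calc B.l (𝒮.ch B.i (σ k (t k)) - 𝒮.ch B.i (σ k (s k))) / (t k - s k)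
          ≤ ‖B.l‖ * (4 * B.r) / (t k - s k) := div_le_div_of_nonneg_right h8 (by linarith)
        _ ≤ ‖B.l‖ * (4 * B.r) / δ :=
            div_le_div_of_nonneg_left (mul_nonneg (norm_nonneg _) (by linarith [B.hr])) hδ h3
    obtain ⟨r, hr⟩ := hC.choice
    exact ⟨r, hr.mono fun k hk => hk.1, _, B, hr.mono fun k hk => hk.2⟩

end Pool.Agent.EG

end

end M_CC4

section M_CC5

/-!
Row ec-CC5 (Cotton tensor, paper C4-C6).
`tau_bdd`: charts i ∋ z0, j ∋ w0; y_k = ch i (z k) → y0.  By `cot_deriv` (f = rep i j Φ_k, W = 0) the trilinear expression with τ_k is bounded by a constant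
(L_k bounded; nabCot g, nabCot g' bounded near y0, ch j w0).  If ‖τ_k‖ → ∞ along U (not U-bounded), t_k = τ_k/‖τ_k‖ converges along U to t ≠ 0 (unit sphere of
the dual), `Ct` is linear in τ: the limit t satisfies the hypothesis of `cot_alg` for K = CotL g y0 (continuity of sharp, g, CotL), so CotL = 0: contradiction.
`cot_step`: not JB, LLbd, W = 0, Cot_{z0} ≠ 0: τ_k bounded by tau_bdd; by `JB_of_bounds` c_k⁻¹ is not U-bounded, so c_k → 0.  L_k → A along U (bounded linear maps of a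
finite dimensional space); g_w(Au,Av) = lim c_k² g(u,v) = 0 (LLm_conf); so AX, AY are null and orthogonal, hence proportional (`null_plane`), so
Cot_w(AX,AY,AZ) = 0 by antisymmetry; but it is lim Cot(L_kX,L_kY,L_kZ) = Cot_{z0}(X,Y,Z) (`cot_pull`, continuity).
`cot_zero`: otherwise the open set {Cot ≠ 0} of M is nonempty: `dense_bounded`, `JB_all` (not JB at one family ⇒ not JB at this one), `cot_step`.
-/

open scoped ContDiff Topology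
open Set Filter

noncomputable section

set_option linter.unusedSectionVars false
set_option maxSynthPendingDepth 3

namespace Pool.Agent.EG

variable {E : Type*} [NormedAddCommGroup E] [NormedSpace ℝ E] [FiniteDimensional ℝ E]
variable {M : Type*} [TopologicalSpace M] {ι : Type*}
variable {𝒮 : LSys E M ι}

variable {κ : Type*}

theorem null_plane {b : BF E} {T u v : E} (h : IsLor b T) (hu : b u u = 0) (hv : b v v = 0)
    (huv : b u v = 0) : ∃ a c : ℝ, (a ≠ 0 ∨ c ≠ 0) ∧ a • u + c • v = 0 := by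
  by_cases hu0 : u = 0
  · exact ⟨1, 0, Or.inl one_ne_zero, by simp [hu0]⟩
  · refine ⟨b T v, - b T u, Or.inr (neg_ne_zero.2 (h.null_ne hu0 hu)), ?_⟩
    by_contra hw
    have h1 : b T (b T v • u + (- b T u) • v) = 0 := by
      simp only [map_add, map_smul, smul_eq_mul]; ring
    have h2 := h.pos _ hw h1
    have h3 : b (b T v • u + (- b T u) • v) (b T v • u + (- b T u) • v) = 0 := by
      simp only [map_add, map_smul, ContinuousLinearMap.add_apply, ContinuousLinearMap.smul_apply,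
        smul_eq_mul, hu, hv, huv, h.symm v u]
      ring
    exact absurd h3 h2.ne'

/-- bounded families in a finite dimensional space converge along an ultrafilter -/
theorem cc5_lim {F : Type*} [NormedAddCommGroup F] [ProperSpace F] {U : Ultrafilter κ}
    {x : κ → F} {C : ℝ} (h : ∀ᶠ k in U, ‖x k‖ ≤ C) : ∃ A, ‖A‖ ≤ C ∧ Tendsto x U (𝓝 A) := by
  have hK : IsCompact (Metric.closedBall (0 : F) C) := isCompact_closedBall 0 C
  have h1 : ((U.map x : Ultrafilter F) : Filter F) ≤ 𝓟 (Metric.closedBall (0 : F) C) := by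
    rw [le_principal_iff, Ultrafilter.coe_map, mem_map]
    filter_upwards [h] with k hk
    simpa using hk
  obtain ⟨A, hA, hA'⟩ := hK.ultrafilter_le_nhds (U.map x) h1
  exact ⟨A, by simpa using hA, hA'⟩

theorem cc5_unbdd {U : Ultrafilter κ} {r : κ → ℝ} (h : ¬ ∃ C, ∀ᶠ k in U, r k ≤ C) :
    Tendsto r U atTop := by
  rw [tendsto_atTop]
  intro C
  push Not at h
  filter_upwards [h C] with k hk
  exact hk.le


theorem cc5_app {F G : Type*} [NormedAddCommGroup F] [NormedSpace ℝ F] [NormedAddCommGroup G]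
    [NormedSpace ℝ G] {l : Filter κ} {A : κ → F →L[ℝ] G} {x : κ → F} {A0 : F →L[ℝ] G} {x0 : F}
    (hA : Tendsto A l (𝓝 A0)) (hx : Tendsto x l (𝓝 x0)) :
    Tendsto (fun k => A k (x k)) l (𝓝 (A0 x0)) :=
  (isBoundedBilinearMap_apply.continuous.tendsto (A0, x0)).comp (hA.prodMk_nhds hx)

theorem cc5_y {Φ : κ → Cf 𝒮} {U : Ultrafilter κ} {z : κ → M} {z0 w0 : M}
    (h : Cnv Φ U z z0 w0) {i j : ι} (hi : z0 ∈ (𝒮.ch i).source) (hj : w0 ∈ (𝒮.ch j).source) :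
    (∀ᶠ k in U, z k ∈ (𝒮.ch i).source ∧ (Φ k).φ (z k) ∈ (𝒮.ch j).source) ∧
    Tendsto (fun k => 𝒮.ch i (z k)) U (𝓝 (𝒮.ch i z0)) ∧
    Tendsto (fun k => 𝒮.ch j ((Φ k).φ (z k))) U (𝓝 (𝒮.ch j w0)) := by
  refine ⟨?_, ?_, ?_⟩
  · exact (h.hz.eventually ((𝒮.ch i).open_source.mem_nhds hi)).and
      (h.hw.eventually ((𝒮.ch j).open_source.mem_nhds hj))
  · exact ((𝒮.ch i).continuousAt hi).tendsto.comp h.hz
  · exact ((𝒮.ch j).continuousAt hj).tendsto.comp h.hw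

theorem cc5_at {F : Type*} [NormedAddCommGroup F] [NormedSpace ℝ F] {O : Set E} (hO : IsOpen O)
    {G : E → F} (hG : ContDiffOn ℝ ∞ G O) {y0 : E} (hy0 : y0 ∈ O) {l : Filter κ} {y : κ → E}
    (hy : Tendsto y l (𝓝 y0)) : Tendsto (fun k => G (y k)) l (𝓝 (G y0)) :=
  ((hG.continuousOn.continuousAt (hO.mem_nhds hy0)).tendsto).comp hy

theorem cc5_tri {l : Filter κ} {K : κ → E →L[ℝ] E →L[ℝ] E →L[ℝ] ℝ}
    {K0 : E →L[ℝ] E →L[ℝ] E →L[ℝ] ℝ} (hK : Tendsto K l (𝓝 K0)) {X Y Z : κ → E} {X0 Y0 Z0 : E}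
    (hX : Tendsto X l (𝓝 X0)) (hY : Tendsto Y l (𝓝 Y0)) (hZ : Tendsto Z l (𝓝 Z0)) :
    Tendsto (fun k => K k (X k) (Y k) (Z k)) l (𝓝 (K0 X0 Y0 Z0)) :=
  cc5_app (cc5_app (cc5_app hK hX) hY) hZ

theorem cc5_nab_abs {l : Filter κ} {A : κ → E →L[ℝ] E →L[ℝ] E →L[ℝ] E →L[ℝ] ℝ}
    {A0 : E →L[ℝ] E →L[ℝ] E →L[ℝ] E →L[ℝ] ℝ} (hA : Tendsto A l (𝓝 A0))
    {B : κ → E →L[ℝ] E →L[ℝ] E →L[ℝ] ℝ} {B0 : E →L[ℝ] E →L[ℝ] E →L[ℝ] ℝ} (hB : Tendsto B l (𝓝 B0))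
    {G : κ → E →L[ℝ] E →L[ℝ] E} {G0 : E →L[ℝ] E →L[ℝ] E} (hG : Tendsto G l (𝓝 G0))
    {P X Y Z : κ → E} {P0 X0 Y0 Z0 : E}
    (hP : Tendsto P l (𝓝 P0)) (hX : Tendsto X l (𝓝 X0)) (hY : Tendsto Y l (𝓝 Y0))
    (hZ : Tendsto Z l (𝓝 Z0)) :
    Tendsto (fun k => A k (P k) (X k) (Y k) (Z k) - B k (G k (P k) (X k)) (Y k) (Z k)
      - B k (X k) (G k (P k) (Y k)) (Z k) - B k (X k) (Y k) (G k (P k) (Z k))) l
      (𝓝 (A0 P0 X0 Y0 Z0 - B0 (G0 P0 X0) Y0 Z0 - B0 X0 (G0 P0 Y0) Z0 - B0 X0 Y0 (G0 P0 Z0))) := by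
  have t1 := cc5_tri (cc5_app hA hP) hX hY hZ
  have t2 := cc5_tri hB (cc5_app (cc5_app hG hP) hX) hY hZ
  have t3 := cc5_tri hB hX (cc5_app (cc5_app hG hP) hY) hZ
  have t4 := cc5_tri hB hX hY (cc5_app (cc5_app hG hP) hZ)
  exact ((t1.sub t2).sub t3).sub t4

theorem cc5_nab {O : Set E} {g : E → BF E} (hg : IsMet O g) {y0 : E} (hy0 : y0 ∈ O)
    {l : Filter κ} {y : κ → E} (hy : Tendsto y l (𝓝 y0)) {P X Y Z : κ → E} {P0 X0 Y0 Z0 : E}
    (hP : Tendsto P l (𝓝 P0)) (hX : Tendsto X l (𝓝 X0)) (hY : Tendsto Y l (𝓝 Y0))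
    (hZ : Tendsto Z l (𝓝 Z0)) :
    Tendsto (fun k => nabCot g (y k) (P k) (X k) (Y k) (Z k)) l (𝓝 (nabCot g y0 P0 X0 Y0 Z0)) := by
  have h1 : Tendsto (fun k => CotL g (y k)) l (𝓝 (CotL g y0)) :=
    cc5_at hg.isOpen hg.smooth_CotL hy0 hy
  have h2 : Tendsto (fun k => fderiv ℝ (CotL g) (y k)) l (𝓝 (fderiv ℝ (CotL g) y0)) :=
    cc5_at hg.isOpen (smooth_fderiv hg.isOpen hg.smooth_CotL) hy0 hy
  have h3 : Tendsto (fun k => Gam g (y k)) l (𝓝 (Gam g y0)) :=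
    cc5_at hg.isOpen hg.smooth_gam hy0 hy
  exact cc5_nab_abs h2 h1 h3 hP hX hY hZ

theorem cc5_Ct_smul (g : E → BF E) (y : E) (a : ℝ) (t : E →L[ℝ] ℝ) (X Y : E) :
    Ct g y (a • t) X Y = a • Ct g y t X Y := by
  simp only [Ct_apply, ContinuousLinearMap.smul_apply, map_smul, smul_eq_mul]
  module

theorem cc5_Ct_lim {O : Set E} {g : E → BF E} (hg : IsMet O g) {y0 : E} (hy0 : y0 ∈ O)
    {l : Filter κ} {y : κ → E} (hy : Tendsto y l (𝓝 y0)) {t : κ → E →L[ℝ] ℝ} {t0 : E →L[ℝ] ℝ}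
    (ht : Tendsto t l (𝓝 t0)) (X Y : E) :
    Tendsto (fun k => Ct g (y k) (t k) X Y) l (𝓝 (Ct g y0 t0 X Y)) := by
  have h1 : Tendsto (fun k => g (y k)) l (𝓝 (g y0)) := cc5_at hg.isOpen hg.smooth hy0 hy
  have h2 : Tendsto (fun k => sharp g (y k)) l (𝓝 (sharp g y0)) :=
    cc5_at hg.isOpen hg.smooth_sharp hy0 hy
  simp only [Ct_apply]
  exact (((cc5_app ht tendsto_const_nhds).smul tendsto_const_nhds).add
    ((cc5_app ht tendsto_const_nhds).smul tendsto_const_nhds)).sub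
    ((cc5_app (cc5_app h1 tendsto_const_nhds) tendsto_const_nhds).smul (cc5_app h2 ht))

theorem tau_bdd (hD : 3 ≤ Module.finrank ℝ E)
    (hW : ∀ i, ∀ y ∈ (𝒮.ch i).target, Wey (𝒮.g i) y = 0)
    {Φ : κ → Cf 𝒮} {U : Ultrafilter κ} {z : κ → M} {z0 w0 : M}
    (h : Cnv Φ U z z0 w0) (hL : LLbd Φ U z z0 w0) {i : ι} (hi : z0 ∈ (𝒮.ch i).source)
    (hC : CotL (𝒮.g i) (𝒮.ch i z0) ≠ 0) : ∃ C, ∀ᶠ k in U, ‖tauM (Φ k) i (z k)‖ ≤ C := by
  obtain ⟨j, hj⟩ := 𝒮.cover w0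
  obtain ⟨CL, hCL⟩ := hL i j hi hj
  obtain ⟨A, -, hA⟩ := cc5_lim hCL
  obtain ⟨hs, hy, hw⟩ := cc5_y h hi hj
  have hy0 : 𝒮.ch i z0 ∈ (𝒮.ch i).target := (𝒮.ch i).map_source hi
  have hw0 : 𝒮.ch j w0 ∈ (𝒮.ch j).target := (𝒮.ch j).map_source hj
  by_contra hno
  have hinf : Tendsto (fun k => ‖tauM (Φ k) i (z k)‖) U atTop := cc5_unbdd hno
  have hn : ∀ᶠ k in U, ‖(‖tauM (Φ k) i (z k)‖)⁻¹ • tauM (Φ k) i (z k)‖ ≤ 1 := by
    filter_upwards with k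
    rw [norm_smul, norm_inv, norm_norm]
    exact inv_mul_le_one
  obtain ⟨t, -, ht⟩ := cc5_lim hn
  have ht1 : ‖t‖ = 1 := by
    have h1 := ht.norm
    have h2 : Tendsto (fun k => ‖(‖tauM (Φ k) i (z k)‖)⁻¹ • tauM (Φ k) i (z k)‖) U (𝓝 1) := by
      refine (tendsto_const_nhds (x := (1 : ℝ))).congr' ?_
      filter_upwards [hinf.eventually_gt_atTop 0] with k hk
      rw [norm_smul, norm_inv, norm_norm, inv_mul_cancel₀ hk.ne']
    exact tendsto_nhds_unique h1 h2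
  have ht0 : t ≠ 0 := by
    rintro rfl
    simp at ht1
  have hK : Tendsto (fun k => CotL (𝒮.g i) (𝒮.ch i (z k))) U (𝓝 (CotL (𝒮.g i) (𝒮.ch i z0))) :=
    cc5_at (𝒮.met i).isOpen (𝒮.met i).smooth_CotL hy0 hy
  have heq : ∀ P X Y Z : E,
      CotL (𝒮.g i) (𝒮.ch i z0) (Ct (𝒮.g i) (𝒮.ch i z0) t P X) Y Z
      + CotL (𝒮.g i) (𝒮.ch i z0) X (Ct (𝒮.g i) (𝒮.ch i z0) t P Y) Z
      + CotL (𝒮.g i) (𝒮.ch i z0) X Y (Ct (𝒮.g i) (𝒮.ch i z0) t P Z) = 0 := by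
    intro P X Y Z
    have c : ∀ V : E, Tendsto (fun _ : κ => V) U (𝓝 V) := fun V => tendsto_const_nhds
    have h1 := ((cc5_tri hK (cc5_Ct_lim (𝒮.met i) hy0 hy ht P X) (c Y) (c Z)).add
      (cc5_tri hK (c X) (cc5_Ct_lim (𝒮.met i) hy0 hy ht P Y) (c Z))).add
      (cc5_tri hK (c X) (c Y) (cc5_Ct_lim (𝒮.met i) hy0 hy ht P Z))
    have h2 := (cc5_nab (𝒮.met i) hy0 hy (c P) (c X) (c Y) (c Z)).sub
      (cc5_nab (𝒮.met j) hw0 hw (cc5_app hA (c P)) (cc5_app hA (c X)) (cc5_app hA (c Y))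
        (cc5_app hA (c Z)))
    have h3 := (tendsto_inv_atTop_zero.comp hinf).mul h2
    rw [zero_mul] at h3
    refine tendsto_nhds_unique h1 (h3.congr' ?_)
    filter_upwards [hs] with k hk
    have hdom : 𝒮.ch i (z k) ∈ domR (𝒮.ch i) (𝒮.ch j) (Φ k).φ := mem_domR hk.1 hk.2
    have h4 := ((Φ k).h.lc i j).cot_deriv hD (fun y hy => hW i y hy.1) hdom P X Y Z
    rw [rep_apply _ _ hk.1] at h4
    simp only [cc5_Ct_smul, map_smul, ContinuousLinearMap.smul_apply, smul_eq_mul]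
    show (‖tauM (Φ k) i (z k)‖)⁻¹ * (nabCot (𝒮.g i) (𝒮.ch i (z k)) P X Y Z
      - nabCot (𝒮.g j) (𝒮.ch j ((Φ k).φ (z k))) (LLm (Φ k) i j (z k) P) (LLm (Φ k) i j (z k) X)
        (LLm (Φ k) i j (z k) Y) (LLm (Φ k) i j (z k) Z)) = _
    have h5 : nabCot (𝒮.g i) (𝒮.ch i (z k)) P X Y Z
      - nabCot (𝒮.g j) (𝒮.ch j ((Φ k).φ (z k))) (LLm (Φ k) i j (z k) P) (LLm (Φ k) i j (z k) X)
        (LLm (Φ k) i j (z k) Y) (LLm (Φ k) i j (z k) Z) =
      CotL (𝒮.g i) (𝒮.ch i (z k)) (Ct (𝒮.g i) (𝒮.ch i (z k)) (tauM (Φ k) i (z k)) P X) Y Z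
      + CotL (𝒮.g i) (𝒮.ch i (z k)) X (Ct (𝒮.g i) (𝒮.ch i (z k)) (tauM (Φ k) i (z k)) P Y) Z
      + CotL (𝒮.g i) (𝒮.ch i (z k)) X Y (Ct (𝒮.g i) (𝒮.ch i (z k)) (tauM (Φ k) i (z k)) P Z) :=
      h4.symm
    rw [h5]
    ring
  apply hC
  have hz := cot_alg (𝒮.lor i _ hy0) ht0 (n := sharp (𝒮.g i) (𝒮.ch i z0) t)
    (fun v => by rw [(𝒮.met i).g_sharp hy0])
    (K := fun u v w => CotL (𝒮.g i) (𝒮.ch i z0) u v w)
    (by intro u u' v w; simp) (by intro a u v w; simp)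
    (by intro u v w; exact CotL_anti _ _ _ _ _)
    (by intro u v w w'; simp) (by intro a u v w; simp)
    (by
      intro X u v w
      have := heq X u v w
      simp only [Ct_apply] at this
      exact this)
  ext u v w
  exact hz u v w

theorem cot_step (hD : 3 ≤ Module.finrank ℝ E)
    (hW : ∀ i, ∀ y ∈ (𝒮.ch i).target, Wey (𝒮.g i) y = 0)
    {Φ : κ → Cf 𝒮} {U : Ultrafilter κ} {z : κ → M} {z0 w0 : M}
    (h : Cnv Φ U z z0 w0) (hL : LLbd Φ U z z0 w0) (hJ : ¬ JBat Φ U z z0 w0) {i : ι}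
    (hi : z0 ∈ (𝒮.ch i).source) : CotL (𝒮.g i) (𝒮.ch i z0) = 0 := by
  by_contra hC
  obtain ⟨Ct0, hCt⟩ := tau_bdd hD hW h hL hi hC
  obtain ⟨j, hj⟩ := 𝒮.cover w0
  obtain ⟨CL, hCL⟩ := hL i j hi hj
  obtain ⟨A, -, hA⟩ := cc5_lim hCL
  obtain ⟨hs, hy, hw⟩ := cc5_y h hi hj
  have hy0 : 𝒮.ch i z0 ∈ (𝒮.ch i).target := (𝒮.ch i).map_source hi
  have hw0 : 𝒮.ch j w0 ∈ (𝒮.ch j).target := (𝒮.ch j).map_source hj
  have hinf : Tendsto (fun k => ((Φ k).c (z k))⁻¹) U atTop := by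
    apply cc5_unbdd
    rintro ⟨C, hC'⟩
    apply hJ
    refine JB_of_bounds h hi hj (C := max C (max Ct0 CL)) ?_ ?_ ?_
    · exact hCL.mono fun k hk => hk.trans ((le_max_right _ _).trans (le_max_right _ _))
    · exact hCt.mono fun k hk => hk.trans ((le_max_left _ _).trans (le_max_right _ _))
    · exact hC'.mono fun k hk => hk.trans (le_max_left _ _)
  have hc0 : Tendsto (fun k => (Φ k).c (z k)) U (𝓝 0) := by
    have := tendsto_inv_atTop_zero.comp hinf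
    refine this.congr fun k => ?_
    simp
  have c : ∀ V : E, Tendsto (fun _ : κ => V) U (𝓝 V) := fun V => tendsto_const_nhds
  have hgi : Tendsto (fun k => 𝒮.g i (𝒮.ch i (z k))) U (𝓝 (𝒮.g i (𝒮.ch i z0))) :=
    cc5_at (𝒮.met i).isOpen (𝒮.met i).smooth hy0 hy
  have hgj : Tendsto (fun k => 𝒮.g j (𝒮.ch j ((Φ k).φ (z k)))) U (𝓝 (𝒮.g j (𝒮.ch j w0))) :=
    cc5_at (𝒮.met j).isOpen (𝒮.met j).smooth hw0 hw
  have hnull : ∀ u v : E, 𝒮.g j (𝒮.ch j w0) (A u) (A v) = 0 := by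
    intro u v
    have h1 := cc5_app (cc5_app hgj (cc5_app hA (c u))) (cc5_app hA (c v))
    have h2 := (hc0.pow 2).mul (cc5_app (cc5_app hgi (c u)) (c v))
    have h3 := tendsto_nhds_unique h1 (h2.congr' (by
      filter_upwards [hs] with k hk
      exact (LLm_conf (Φ k) hk.1 hk.2 u v).symm))
    rw [h3]
    simp
  apply hC
  ext X Y Z
  have hKi : Tendsto (fun k => CotL (𝒮.g i) (𝒮.ch i (z k))) U (𝓝 (CotL (𝒮.g i) (𝒮.ch i z0))) :=
    cc5_at (𝒮.met i).isOpen (𝒮.met i).smooth_CotL hy0 hy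
  have hKj : Tendsto (fun k => CotL (𝒮.g j) (𝒮.ch j ((Φ k).φ (z k)))) U
      (𝓝 (CotL (𝒮.g j) (𝒮.ch j w0))) :=
    cc5_at (𝒮.met j).isOpen (𝒮.met j).smooth_CotL hw0 hw
  have h1 := cc5_tri hKi (c X) (c Y) (c Z)
  have h2 := cc5_tri hKj (cc5_app hA (c X)) (cc5_app hA (c Y)) (cc5_app hA (c Z))
  have h3 := tendsto_nhds_unique h1 (h2.congr' (by
    filter_upwards [hs] with k hk
    have hdom : 𝒮.ch i (z k) ∈ domR (𝒮.ch i) (𝒮.ch j) (Φ k).φ := mem_domR hk.1 hk.2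
    have h4 := ((Φ k).h.lc i j).cot_pull hD hdom (hW i _ hdom.1) X Y Z
    rw [rep_apply _ _ hk.1] at h4
    rw [CotL_apply, CotL_apply]
    exact h4))
  rw [h3]
  have hself : ∀ V W : E, CotL (𝒮.g j) (𝒮.ch j w0) V V W = 0 := by
    intro V W
    have := CotL_anti (𝒮.g j) (𝒮.ch j w0) V V W
    linarith
  obtain ⟨a, b, hab, hlin⟩ := null_plane (𝒮.lor j _ hw0) (hnull X X) (hnull Y Y) (hnull X Y)
  show CotL (𝒮.g j) (𝒮.ch j w0) (A X) (A Y) (A Z) = 0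
  rcases hab with ha | hb
  · have h5 : CotL (𝒮.g j) (𝒮.ch j w0) (a • A X + b • A Y) (A Y) (A Z) = 0 := by
      rw [hlin]; simp
    simp only [map_add, map_smul, ContinuousLinearMap.add_apply, ContinuousLinearMap.smul_apply,
      smul_eq_mul, hself, mul_zero, add_zero] at h5
    exact (mul_eq_zero.1 h5).resolve_left ha
  · have h5 : CotL (𝒮.g j) (𝒮.ch j w0) (A X) (a • A X + b • A Y) (A Z) = 0 := by
      rw [hlin]; simp
    simp only [map_add, map_smul, ContinuousLinearMap.add_apply, ContinuousLinearMap.smul_apply,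
      smul_eq_mul, hself, mul_zero, zero_add] at h5
    exact (mul_eq_zero.1 h5).resolve_left hb

end Pool.Agent.EG

end

end M_CC5

section M_CC6

/-!
Row ec-CC6 (Cotton tensor vanishes everywhere if JB fails; last step of C6).  See the docstring of CC5: if CotL (g i) y ≠ 0 for some y ∈ target i, then by
continuity CotL (g i) ≠ 0 on an open subset of the target, hence O = ch_i⁻¹ of it is open nonempty in M; `dense_bounded` gives z → z0 ∈ O with LLbd; not JB at this family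
(otherwise `JB_all` would give JB at the given family); `cot_step` at z0 in chart i: contradiction.
-/

open scoped ContDiff Topology
open Set Filter

noncomputable section

set_option linter.unusedSectionVars false
set_option maxSynthPendingDepth 3

namespace Pool.Agent.EG

variable {E : Type*} [NormedAddCommGroup E] [NormedSpace ℝ E] [FiniteDimensional ℝ E]
variable {M : Type*} [TopologicalSpace M] {ι : Type*}
variable {𝒮 : LSys E M ι}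

variable {κ : Type*}

theorem cot_zero [T2Space M] [SecondCountableTopology M] (hN : Noh 𝒮) (hD : 3 ≤ Module.finrank ℝ E)
    (hW : ∀ i, ∀ y ∈ (𝒮.ch i).target, Wey (𝒮.g i) y = 0)
    {Φ : κ → Cf 𝒮} {U : Ultrafilter κ} (hΦ : BOf Φ U) {z : κ → M} {z0 w0 : M}
    (h : Cnv Φ U z z0 w0) (hJ : ¬ JBat Φ U z z0 w0) :
    ∀ i, ∀ y ∈ (𝒮.ch i).target, CotL (𝒮.g i) y = 0 := by
  intro i y hy
  by_contra hne
  have hop : IsOpen ((𝒮.ch i).target ∩ CotL (𝒮.g i) ⁻¹' {0}ᶜ) :=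
    ((𝒮.met i).smooth_CotL.continuousOn).isOpen_inter_preimage (𝒮.ch i).open_target
      isOpen_compl_singleton
  have hO : IsOpen ((𝒮.ch i).source ∩
      (𝒮.ch i) ⁻¹' ((𝒮.ch i).target ∩ CotL (𝒮.g i) ⁻¹' {0}ᶜ)) :=
    (𝒮.ch i).isOpen_inter_preimage hop
  have hOne : ((𝒮.ch i).source ∩
      (𝒮.ch i) ⁻¹' ((𝒮.ch i).target ∩ CotL (𝒮.g i) ⁻¹' {0}ᶜ)).Nonempty := by
    refine ⟨(𝒮.ch i).symm y, (𝒮.ch i).map_target hy, ?_⟩
    rw [mem_preimage, (𝒮.ch i).right_inv hy]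
    exact ⟨hy, hne⟩
  obtain ⟨z1, p1, w1, hp1, hc1, hb1⟩ := dense_bounded hN hΦ hO hOne
  have hJ1 : ¬ JBat Φ U z1 p1 w1 := fun hJB => hJ (JB_all hN hD hΦ hc1 h hJB)
  exact hp1.2.2 (cot_step hD hW hc1 hb1 hJ1 hp1.1)

end Pool.Agent.EG

end

end M_CC6

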