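import Pool.Agent.Lib.MP_eeed5f_gt.L2
import Pool.Agent.Lib.MP_f72ae4_gt.LocalFlow

section M_FL1

/-!
Row ec-FL1 (parallel sections of a flat connection D + A on a ball; linear Frobenius).
WLOG y0; choose a closed ball in O.  Existence of the radial transport, smooth in the end point: use
`Pool.Agent.SH.exists_local_smooth_flow` (import Pool.Agent.Lib.MP_f72ae4_gt.LocalFlow) on F = E × E × (V →L[ℝ] V) (state (x,z,Q)),
field (z, 0, -(A_x z) ∘ Q), on U = {x ∈ O}, near (y0,0,id): flow Θ(τ,(y0,z,id)) = (y0+τz, z, Q(τ,z)), smooth for |τ|<ε, z near 0.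
Put P(y) = Q(t0, (y-y0)/t0), t0 = ε/2, s(y) = P(y) s0.
Flatness: K(t) = D_Z Q(t,v) + A(y0+tv)(tZ) Q(t,v) has K(0)=0 and K' = -A(v)K (symmetry of D²Q and
Curv A (v, tZ) = 0), hence K=0 (Grönwall), at t = t0 this is D_Z P + A(Z)P = 0.
-/

open scoped ContDiff Topology
open Set

noncomputable section

set_option linter.unusedSectionVars false
set_option maxSynthPendingDepth 3

namespace Pool.Agent.EG

variable {E : Type*} [NormedAddCommGroup E] [NormedSpace ℝ E] [FiniteDimensional ℝ E]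
variable {V : Type*} [NormedAddCommGroup V] [NormedSpace ℝ V] [FiniteDimensional ℝ V]
variable {V' : Type*} [NormedAddCommGroup V'] [NormedSpace ℝ V'] [FiniteDimensional ℝ V']
variable {O O' S : Set E} {g g' : E → BF E} {f : E → E} {c : E → ℝ} {y : E}

theorem fl1_line (y0 v : E) (t : ℝ) : HasDerivAt (fun s : ℝ => y0 + s • v) v t := by
  have h := ((hasDerivAt_id t).smul_const v).const_add y0
  simpa using h

theorem fl1_line' (y0 v Z : E) (t : ℝ) : HasDerivAt (fun s : ℝ => y0 + t • (v + s • Z)) (t • Z) 0 := by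
  have h := ((((hasDerivAt_id (0 : ℝ)).smul_const Z).const_add v).const_smul t).const_add y0
  simpa using h

theorem fl1_line2 (v Z : E) : HasDerivAt (fun s : ℝ => v + s • Z) Z 0 := fl1_line v Z 0

/-- the derivative of `t ↦ (A (y0 + t v) (t Z)) ∘ G (t, v)` -/
theorem fl1_dt {A : E → E →L[ℝ] V →L[ℝ] V} {y0 v Z : E} {t : ℝ} {Q : ℝ → V →L[ℝ] V}
    {Q' : V →L[ℝ] V} (hA : DifferentiableAt ℝ A (y0 + t • v)) (hQ : HasDerivAt Q Q' t) :
    HasDerivAt (fun s : ℝ => (A (y0 + s • v) (s • Z)).comp (Q s))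
      ((fderiv ℝ A (y0 + t • v) v (t • Z) + A (y0 + t • v) Z).comp (Q t) +
        (A (y0 + t • v) (t • Z)).comp Q') t := by
  have h1 : HasDerivAt (fun s : ℝ => A (y0 + s • v)) (fderiv ℝ A (y0 + t • v) v) t :=
    hA.hasFDerivAt.comp_hasDerivAt t (fl1_line y0 v t)
  have h2 : HasDerivAt (fun s : ℝ => s • Z) Z t := by
    simpa using (hasDerivAt_id t).smul_const Z
  exact (h1.clm_apply h2).clm_comp hQ

/-- the derivative of `s ↦ -(A (y0 + t (v + s Z)) (v + s Z)) ∘ Q s` at `s = 0` -/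
theorem fl1_ds {A : E → E →L[ℝ] V →L[ℝ] V} {y0 v Z : E} {t : ℝ} {Q : ℝ → V →L[ℝ] V}
    {Q' : V →L[ℝ] V} (hA : DifferentiableAt ℝ A (y0 + t • v)) (hQ : HasDerivAt Q Q' 0) :
    HasDerivAt (fun s : ℝ => -(A (y0 + t • (v + s • Z)) (v + s • Z)).comp (Q s))
      (-((fderiv ℝ A (y0 + t • v) (t • Z) v + A (y0 + t • v) Z).comp (Q 0) +
        (A (y0 + t • v) v).comp Q')) 0 := by
  have e0 : y0 + t • (v + (0 : ℝ) • Z) = y0 + t • v := by simp
  have e1 : v + (0 : ℝ) • Z = v := by simp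
  have h1 : HasDerivAt (fun s : ℝ => A (y0 + t • (v + s • Z))) (fderiv ℝ A (y0 + t • v) (t • Z)) 0 := by
    have hA' : HasFDerivAt A (fderiv ℝ A (y0 + t • v)) (y0 + t • (v + (0 : ℝ) • Z)) := by
      rw [e0]; exact hA.hasFDerivAt
    exact hA'.comp_hasDerivAt 0 (fl1_line' y0 v Z t)
  have h2 := ((h1.clm_apply (fl1_line2 v Z)).clm_comp hQ).neg
  simp only [e1] at h2
  exact h2

theorem fl1_key {A : E → E →L[ℝ] V →L[ℝ] V} (hO : IsOpen O) (hA : ContDiffOn ℝ ∞ A O)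
    (hflat : ∀ y ∈ O, Curv A y = 0) {y0 : E} {ε : ℝ} {N : Set E} (hN : IsOpen N)
    {G : ℝ × E → V →L[ℝ] V} (hG : ContDiffOn ℝ ∞ G (Ioo (-ε) ε ×ˢ N))
    (hmem : ∀ t ∈ Ioo (-ε) ε, ∀ v ∈ N, y0 + t • v ∈ O)
    (h0 : ∀ v ∈ N, G (0, v) = ContinuousLinearMap.id ℝ V)
    (hd : ∀ t ∈ Ioo (-ε) ε, ∀ v ∈ N,
      HasDerivAt (fun s => G (s, v)) (-(A (y0 + t • v) v).comp (G (t, v))) t)
    {t : ℝ} (ht : t ∈ Ioo (-ε) ε) (ht0 : 0 ≤ t) {v : E} (hv : v ∈ N) (Z : E) :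
    fderiv ℝ G (t, v) (0, Z) = -(A (y0 + t • v) (t • Z)).comp (G (t, v)) := by
  have hD : IsOpen (Ioo (-ε) ε ×ˢ N) := isOpen_Ioo.prod hN
  have hGat : ∀ p ∈ Ioo (-ε) ε ×ˢ N, ContDiffAt ℝ ∞ G p := fun p hp =>
    hG.contDiffAt (hD.mem_nhds hp)
  have hGd : ∀ p ∈ Ioo (-ε) ε ×ˢ N, DifferentiableAt ℝ G p := fun p hp =>
    (hGat p hp).differentiableAt (by simp)
  have hG2 : ∀ p ∈ Ioo (-ε) ε ×ˢ N, DifferentiableAt ℝ (fderiv ℝ G) p := fun p hp =>
    ((hG.fderiv_of_isOpen hD (m := ∞) (by simp)).contDiffAt (hD.mem_nhds hp)).differentiableAt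
      (by simp)
  have hAd : ∀ y ∈ O, DifferentiableAt ℝ A y := fun y hy => diffAt_of hO hA hy
  -- the partial derivative in time
  have hpt : ∀ p ∈ Ioo (-ε) ε ×ˢ N,
      fderiv ℝ G p (1, 0) = -(A (y0 + p.1 • p.2) p.2).comp (G p) := by
    rintro ⟨s, w⟩ hp
    have h1 : HasDerivAt (fun r : ℝ => ((r, w) : ℝ × E)) (1, 0) s :=
      (hasDerivAt_id s).prodMk (hasDerivAt_const s w)
    have h2 := (hGd _ hp).hasFDerivAt.comp_hasDerivAt s h1
    exact h2.unique (hd s hp.1 w hp.2)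
  -- the key computation
  have hK : ∀ s ∈ Ioo (-ε) ε, HasDerivAt
      (fun r : ℝ => fderiv ℝ G (r, v) (0, Z) + (A (y0 + r • v) (r • Z)).comp (G (r, v)))
      (-(A (y0 + s • v) v).comp
        (fderiv ℝ G (s, v) (0, Z) + (A (y0 + s • v) (s • Z)).comp (G (s, v)))) s := by
    intro s hs
    have hp : ((s, v) : ℝ × E) ∈ Ioo (-ε) ε ×ˢ N := ⟨hs, hv⟩
    have hyO : y0 + s • v ∈ O := hmem s hs v hv
    have h1 : HasDerivAt (fun r : ℝ => ((r, v) : ℝ × E)) (1, 0) s :=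
      (hasDerivAt_id s).prodMk (hasDerivAt_const s v)
    have h2 : HasDerivAt (fun r : ℝ => fderiv ℝ G (r, v) (0, Z))
        (fderiv ℝ (fderiv ℝ G) (s, v) (1, 0) (0, Z)) s := by
      have h3 := (hG2 _ hp).hasFDerivAt.comp_hasDerivAt s h1
      have h4 := h3.clm_apply (hasDerivAt_const s ((0, Z) : ℝ × E))
      simpa using h4
    have h5 : HasDerivAt (fun r : ℝ => ((s, v + r • Z) : ℝ × E)) (0, Z) 0 :=
      (hasDerivAt_const 0 s).prodMk (fl1_line2 v Z)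
    have e1 : v + (0 : ℝ) • Z = v := by simp
    have h6 : HasDerivAt (fun r : ℝ => fderiv ℝ G (s, v + r • Z) (1, 0))
        (fderiv ℝ (fderiv ℝ G) (s, v) (0, Z) (1, 0)) 0 := by
      have h3' : HasFDerivAt (fderiv ℝ G) (fderiv ℝ (fderiv ℝ G) (s, v)) (s, v + (0 : ℝ) • Z) := by
        rw [e1]; exact (hG2 _ hp).hasFDerivAt
      have h3 := h3'.comp_hasDerivAt 0 h5
      have h4 := h3.clm_apply (hasDerivAt_const (0 : ℝ) ((1, 0) : ℝ × E))
      simpa using h4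
    have h7 : HasDerivAt (fun r : ℝ => G (s, v + r • Z)) (fderiv ℝ G (s, v) (0, Z)) 0 := by
      have h3' : HasFDerivAt G (fderiv ℝ G (s, v)) (s, v + (0 : ℝ) • Z) := by
        rw [e1]; exact (hGd _ hp).hasFDerivAt
      exact h3'.comp_hasDerivAt 0 h5
    have h8 := fl1_ds (Z := Z) (hAd _ hyO) h7
    have h9 : ∀ᶠ r : ℝ in 𝓝 0, fderiv ℝ G (s, v + r • Z) (1, 0) =
        -(A (y0 + s • (v + r • Z)) (v + r • Z)).comp (G (s, v + r • Z)) := by
      have hc : ContinuousAt (fun r : ℝ => v + r • Z) 0 := (fl1_line2 v Z).continuousAt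
      have hNn : N ∈ 𝓝 (v + (0 : ℝ) • Z) := by rw [e1]; exact hN.mem_nhds hv
      filter_upwards [hc hNn] with r hr
      exact hpt (s, v + r • Z) ⟨hs, hr⟩
    have h10 := h6.unique (h8.congr_of_eventuallyEq h9)
    have hsymm : fderiv ℝ (fderiv ℝ G) (s, v) (1, 0) (0, Z) =
        fderiv ℝ (fderiv ℝ G) (s, v) (0, Z) (1, 0) :=
      (hGat _ hp).isSymmSndFDerivAt (by
        rw [minSmoothness_of_isRCLikeNormedField]
        exact WithTop.coe_le_coe.2 (le_top : (2 : ℕ∞) ≤ ⊤)) (1, 0) (0, Z)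
    have h11 := h2.add (fl1_dt (Z := Z) (hAd _ hyO) (hd s hs v hv))
    refine h11.congr_deriv ?_
    rw [hsymm, h10]
    have hc := congrArg (fun B : E →L[ℝ] E →L[ℝ] V →L[ℝ] V => B v (s • Z)) (hflat _ hyO)
    simp only [Curv_apply, zero_apply] at hc
    rw [e1]
    ext x
    have hc' := congrArg (fun B : V →L[ℝ] V => B (G (s, v) x)) hc
    simp only [add_apply, sub_apply, ContinuousLinearMap.comp_apply, zero_apply,
      neg_apply, map_add, map_neg] at hc' ⊢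
    have hc'' : fderiv ℝ A (y0 + s • v) v (s • Z) (G (s, v) x) =
      fderiv ℝ A (y0 + s • v) (s • Z) v (G (s, v) x) -
      A (y0 + s • v) v (A (y0 + s • v) (s • Z) (G (s, v) x)) +
      A (y0 + s • v) (s • Z) (A (y0 + s • v) v (G (s, v) x)) := by
      rw [← sub_eq_zero]
      rw [← hc']
      abel
    rw [hc'']
    abel
  -- initial value
  have hK0 : fderiv ℝ G (0, v) (0, Z) + (A (y0 + (0 : ℝ) • v) ((0 : ℝ) • Z)).comp (G (0, v)) = 0 := by
    have h00 : (0 : ℝ) ∈ Ioo (-ε) ε := ⟨by linarith [ht.1, ht.2], lt_of_le_of_lt ht0 ht.2⟩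
    have hp : ((0, v) : ℝ × E) ∈ Ioo (-ε) ε ×ˢ N := ⟨h00, hv⟩
    have e1 : v + (0 : ℝ) • Z = v := by simp
    have h5 : HasDerivAt (fun r : ℝ => ((0, v + r • Z) : ℝ × E)) (0, Z) 0 :=
      (hasDerivAt_const 0 0).prodMk (fl1_line2 v Z)
    have h7 : HasDerivAt (fun r : ℝ => G (0, v + r • Z)) (fderiv ℝ G (0, v) (0, Z)) 0 := by
      have h3' : HasFDerivAt G (fderiv ℝ G (0, v)) (0, v + (0 : ℝ) • Z) := by
        rw [e1]; exact (hGd _ hp).hasFDerivAt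
      exact h3'.comp_hasDerivAt 0 h5
    have h9 : ∀ᶠ r : ℝ in 𝓝 0, G (0, v + r • Z) = ContinuousLinearMap.id ℝ V := by
      have hc : ContinuousAt (fun r : ℝ => v + r • Z) 0 := (fl1_line2 v Z).continuousAt
      have hNn : N ∈ 𝓝 (v + (0 : ℝ) • Z) := by rw [e1]; exact hN.mem_nhds hv
      filter_upwards [hc hNn] with r hr
      exact h0 _ hr
    have h10 := h7.unique ((hasDerivAt_const (0 : ℝ) (ContinuousLinearMap.id ℝ V)).congr_of_eventuallyEq h9)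
    rw [h10]
    simp
  -- Gronwall
  have hsub : Icc 0 t ⊆ Ioo (-ε) ε := fun s hs =>
    ⟨by linarith [hs.1, ht.1, ht.2], lt_of_le_of_lt hs.2 ht.2⟩
  have hcont : ContinuousOn (fun s : ℝ => A (y0 + s • v) v) (Icc 0 t) := by
    intro s hs
    have h1 : ContinuousAt (fun s : ℝ => A (y0 + s • v)) s :=
      ((hAd _ (hmem s (hsub hs) v hv)).hasFDerivAt.comp_hasDerivAt s (fl1_line y0 v s)).continuousAt
    exact (h1.clm_apply continuousAt_const).continuousWithinAt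
  obtain ⟨C, hC⟩ := isCompact_Icc.exists_bound_of_continuousOn hcont
  have hgr := norm_le_gronwallBound_of_norm_deriv_right_le (δ := 0) (K := C) (ε := 0) (a := 0) (b := t)
    (f := fun r : ℝ => fderiv ℝ G (r, v) (0, Z) + (A (y0 + r • v) (r • Z)).comp (G (r, v)))
    (f' := fun s : ℝ => -(A (y0 + s • v) v).comp
        (fderiv ℝ G (s, v) (0, Z) + (A (y0 + s • v) (s • Z)).comp (G (s, v))))
    (fun s hs => (hK s (hsub hs)).continuousAt.continuousWithinAt)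
    (fun s hs => (hK s (hsub ⟨hs.1, hs.2.le⟩)).hasDerivWithinAt)
    (by rw [hK0]; simp)
    (fun s hs => by
      rw [norm_neg, add_zero]
      refine (ContinuousLinearMap.opNorm_comp_le _ _).trans ?_
      exact mul_le_mul_of_nonneg_right (hC s ⟨hs.1, hs.2.le⟩) (norm_nonneg _))
    t ⟨ht0, le_rfl⟩
  rw [gronwallBound_ε0_δ0, norm_le_zero_iff] at hgr
  exact eq_neg_of_add_eq_zero_left hgr

theorem flat_sections {A : E → E →L[ℝ] V →L[ℝ] V} (hO : IsOpen O) (hA : ContDiffOn ℝ ∞ A O)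
    (hflat : ∀ y ∈ O, Curv A y = 0) {y0 : E} (hy0 : y0 ∈ O) :
    ∃ r > 0, Metric.ball y0 r ⊆ O ∧ ∃ s : V → E → V, (∀ s0, s s0 y0 = s0) ∧
      (∀ y ∈ Metric.ball y0 r, ∀ s0 s1 : V, s (s0 + s1) y = s s0 y + s s1 y) ∧
      (∀ y ∈ Metric.ball y0 r, ∀ (a : ℝ) (s0 : V), s (a • s0) y = a • s s0 y) ∧
      ∀ s0, ContDiffOn ℝ ∞ (s s0) (Metric.ball y0 r) ∧
        ∀ y ∈ Metric.ball y0 r, ∀ Z, fderiv ℝ (s s0) y Z = - A y Z (s s0 y) := by
  have hU : IsOpen {p : E × E × (V →L[ℝ] V) | p.1 ∈ O} := hO.preimage continuous_fst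
  have hX : ContDiffOn ℝ ∞ (fun p : E × E × (V →L[ℝ] V) =>
      ((p.2.1, 0, -(A p.1 p.2.1).comp p.2.2) : E × E × (V →L[ℝ] V)))
      {p : E × E × (V →L[ℝ] V) | p.1 ∈ O} := by
    have h1 : ContDiffOn ℝ ∞ (fun p : E × E × (V →L[ℝ] V) => A p.1)
        {p : E × E × (V →L[ℝ] V) | p.1 ∈ O} :=
      hA.comp contDiff_fst.contDiffOn (fun p hp => hp)
    have h2 : ContDiffOn ℝ ∞ (fun p : E × E × (V →L[ℝ] V) => p.2.1)
        {p : E × E × (V →L[ℝ] V) | p.1 ∈ O} := (contDiff_fst.comp contDiff_snd).contDiffOn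
    have h3 : ContDiffOn ℝ ∞ (fun p : E × E × (V →L[ℝ] V) => p.2.2)
        {p : E × E × (V →L[ℝ] V) | p.1 ∈ O} := (contDiff_snd.comp contDiff_snd).contDiffOn
    exact h2.prodMk (contDiffOn_const.prodMk ((h1.clm_apply h2).clm_comp h3).neg)
  obtain ⟨ε, hε, W, hW, hW0, Θ, hΘ, hΘ0, hΘd⟩ := Pool.Agent.SH.exists_local_smooth_flow hU hX
    (z₀ := ((y0, 0, ContinuousLinearMap.id ℝ V) : E × E × (V →L[ℝ] V))) hy0
  set N : Set E := {v | ((y0, v, ContinuousLinearMap.id ℝ V) : E × E × (V →L[ℝ] V)) ∈ W} with hNdef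
  have hemb : ContDiff ℝ ∞ (fun v : E => ((y0, v, ContinuousLinearMap.id ℝ V) : E × E × (V →L[ℝ] V))) :=
    contDiff_const.prodMk (contDiff_id.prodMk contDiff_const)
  have hN : IsOpen N := hW.preimage hemb.continuous
  have h0N : (0 : E) ∈ N := hW0
  set G : ℝ × E → V →L[ℝ] V := fun p => (Θ (p.1, (y0, p.2, ContinuousLinearMap.id ℝ V))).2.2 with hGdef
  have hG : ContDiffOn ℝ ∞ G (Ioo (-ε) ε ×ˢ N) := by
    have h1 : ContDiffOn ℝ ∞ (fun p : ℝ × E => Θ (p.1, (y0, p.2, ContinuousLinearMap.id ℝ V)))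
        (Ioo (-ε) ε ×ˢ N) :=
      hΘ.comp (contDiff_fst.prodMk (hemb.comp contDiff_snd)).contDiffOn (fun p hp => ⟨hp.1, hp.2⟩)
    exact (contDiff_snd.comp contDiff_snd).comp_contDiffOn h1
  have h00 : (0 : ℝ) ∈ Ioo (-ε) ε := ⟨by linarith, hε⟩
  -- the first two components
  have hz : ∀ v ∈ N, ∀ t ∈ Ioo (-ε) ε, (Θ (t, (y0, v, ContinuousLinearMap.id ℝ V))).2.1 = v := by
    intro v hv t ht
    have h1 : ∀ s ∈ Ioo (-ε) ε,
        HasDerivAt (fun s => (Θ (s, (y0, v, ContinuousLinearMap.id ℝ V))).2.1) 0 s := by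
      intro s hs
      exact (hΘd _ hv s hs).2.snd.fst
    have h2 := isOpen_Ioo.is_const_of_deriv_eq_zero isPreconnected_Ioo
      (fun s hs => (h1 s hs).differentiableAt.differentiableWithinAt)
      (fun s hs => (h1 s hs).deriv) ht h00
    rw [h2, hΘ0 _ hv]
  have hx : ∀ v ∈ N, ∀ t ∈ Ioo (-ε) ε, (Θ (t, (y0, v, ContinuousLinearMap.id ℝ V))).1 = y0 + t • v := by
    intro v hv t ht
    have h1 : ∀ s ∈ Ioo (-ε) ε,
        HasDerivAt (fun s => (Θ (s, (y0, v, ContinuousLinearMap.id ℝ V))).1 - (y0 + s • v)) 0 s := by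
      intro s hs
      have h3 : HasDerivAt (fun s => (Θ (s, (y0, v, ContinuousLinearMap.id ℝ V))).1)
          ((Θ (s, (y0, v, ContinuousLinearMap.id ℝ V))).2.1) s := (hΘd _ hv s hs).2.fst
      rw [hz v hv s hs] at h3
      have h4 := h3.sub (fl1_line y0 v s)
      rw [sub_self] at h4
      exact h4
    have h2 := isOpen_Ioo.is_const_of_deriv_eq_zero isPreconnected_Ioo
      (fun s hs => (h1 s hs).differentiableAt.differentiableWithinAt)
      (fun s hs => (h1 s hs).deriv) ht h00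
    simp only [hΘ0 _ hv, zero_smul, add_zero, sub_self] at h2
    exact sub_eq_zero.1 h2
  have hmem : ∀ t ∈ Ioo (-ε) ε, ∀ v ∈ N, y0 + t • v ∈ O := by
    intro t ht v hv
    rw [← hx v hv t ht]
    exact (hΘd _ hv t ht).1
  have hG0 : ∀ v ∈ N, G (0, v) = ContinuousLinearMap.id ℝ V := by
    intro v hv
    show (Θ (0, (y0, v, ContinuousLinearMap.id ℝ V))).2.2 = _
    rw [hΘ0 _ hv]
  have hGd : ∀ t ∈ Ioo (-ε) ε, ∀ v ∈ N,
      HasDerivAt (fun s => G (s, v)) (-(A (y0 + t • v) v).comp (G (t, v))) t := by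
    intro t ht v hv
    have h3 := (hΘd _ hv t ht).2.snd.snd
    simp only [hz v hv t ht, hx v hv t ht] at h3
    exact h3
  have hkey := fun (t : ℝ) (ht : t ∈ Ioo (-ε) ε) (ht0 : 0 ≤ t) (v : E) (hv : v ∈ N) (Z : E) =>
    fl1_key hO hA hflat hN hG hmem hG0 hGd ht ht0 hv Z
  -- the time `t₀`
  set t₀ : ℝ := ε / 2 with ht₀def
  have ht₀ : 0 < t₀ := by positivity
  have ht₀' : t₀ ∈ Ioo (-ε) ε := ⟨by linarith, by rw [ht₀def]; linarith⟩
  -- the ball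
  set φ : E → E := fun y => t₀⁻¹ • (y - y0) with hφdef
  have hφ : ContDiff ℝ ∞ φ := contDiff_const.smul (contDiff_id.sub contDiff_const)
  have hO1 : IsOpen (φ ⁻¹' N) := hN.preimage hφ.continuous
  have hy1 : y0 ∈ φ ⁻¹' N := by
    show t₀⁻¹ • (y0 - y0) ∈ N
    rw [sub_self, smul_zero]; exact h0N
  obtain ⟨r, hr, hball⟩ := Metric.isOpen_iff.1 hO1 y0 hy1
  have hyφ : ∀ y, y0 + t₀ • φ y = y := by
    intro y
    show y0 + t₀ • (t₀⁻¹ • (y - y0)) = y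
    rw [smul_smul, mul_inv_cancel₀ ht₀.ne', one_smul]
    abel
  set P : E → V →L[ℝ] V := fun y => G (t₀, φ y) with hPdef
  have hP : ContDiffOn ℝ ∞ P (Metric.ball y0 r) :=
    hG.comp (contDiff_const.prodMk hφ).contDiffOn (fun y hy => ⟨ht₀', hball hy⟩)
  have hPd : ∀ y ∈ Metric.ball y0 r, ∀ Z, fderiv ℝ P y Z = -(A y Z).comp (P y) := by
    intro y hy Z
    have hp : ((t₀, φ y) : ℝ × E) ∈ Ioo (-ε) ε ×ˢ N := ⟨ht₀', hball hy⟩
    have h1 : HasDerivAt (fun s : ℝ => ((t₀, φ (y + s • Z)) : ℝ × E)) (0, t₀⁻¹ • Z) 0 := by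
      refine (hasDerivAt_const 0 t₀).prodMk ?_
      have h2 := (((fl1_line y Z 0).sub_const y0).const_smul t₀⁻¹)
      exact h2
    have e1 : y + (0 : ℝ) • Z = y := by simp
    have h3 : HasDerivAt (fun s : ℝ => P (y + s • Z)) (fderiv ℝ G (t₀, φ y) (0, t₀⁻¹ • Z)) 0 := by
      have h4 : HasFDerivAt G (fderiv ℝ G (t₀, φ y)) (t₀, φ (y + (0 : ℝ) • Z)) := by
        rw [e1]
        exact ((hG.contDiffAt ((isOpen_Ioo.prod hN).mem_nhds hp)).differentiableAt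
          (by simp)).hasFDerivAt
      exact h4.comp_hasDerivAt 0 h1
    have h5 : HasDerivAt (fun s : ℝ => P (y + s • Z)) (fderiv ℝ P y Z) 0 := by
      have h4 : HasFDerivAt P (fderiv ℝ P y) (y + (0 : ℝ) • Z) := by
        rw [e1]
        exact (diffAt_of Metric.isOpen_ball hP hy).hasFDerivAt
      exact h4.comp_hasDerivAt 0 (fl1_line y Z 0)
    rw [h5.unique h3, hkey t₀ ht₀' ht₀.le (φ y) (hball hy), hyφ, smul_smul,
      mul_inv_cancel₀ ht₀.ne', one_smul]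
  have hP0 : P y0 = ContinuousLinearMap.id ℝ V := by
    have e : φ y0 = 0 := by
      show t₀⁻¹ • (y0 - y0) = 0
      rw [sub_self, smul_zero]
    have h1 : ∀ s ∈ Ioo (-ε) ε, HasDerivAt (fun s => G (s, (0 : E))) 0 s := by
      intro s hs
      have h2 := hGd s hs 0 h0N
      simpa using h2
    have h2 := isOpen_Ioo.is_const_of_deriv_eq_zero isPreconnected_Ioo
      (fun s hs => (h1 s hs).differentiableAt.differentiableWithinAt)
      (fun s hs => (h1 s hs).deriv) ht₀' h00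
    show G (t₀, φ y0) = _
    rw [e, h2, hG0 0 h0N]
  refine ⟨r, hr, ?_, fun s0 y => P y s0, ?_, ?_, ?_, ?_⟩
  · intro y hy
    rw [← hyφ y]
    exact hmem t₀ ht₀' _ (hball hy)
  · intro s0
    show P y0 s0 = s0
    rw [hP0]; rfl
  · intro y _ s0 s1
    exact map_add _ _ _
  · intro y _ a s0
    exact map_smul _ _ _
  · intro s0
    refine ⟨hP.clm_apply contDiffOn_const, ?_⟩
    intro y hy Z
    have h1 : HasFDerivAt P (fderiv ℝ P y) y := (diffAt_of Metric.isOpen_ball hP hy).hasFDerivAt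
    have h2 := (h1.clm_apply (hasFDerivAt_const s0 y)).fderiv
    show fderiv ℝ (fun y => P y s0) y Z = -A y Z (P y s0)
    rw [h2]
    simp [hPd y hy Z]

end Pool.Agent.EG

end

end M_FL1

section M_GE1

/-!
Row ec-GE1 (short geodesics with uniform time, together with two parallel tractors along them).
Import Pool.Agent.Lib.MP_f72ae4_gt.LocalFlow and use `Pool.Agent.SH.exists_local_smooth_flow` with
F = E × E × ℝ × ℝ × ℝ × ℝ, state (x,v,p1,r1,p2,r2), vector field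
V = (v, -Γ_x(v,v), -r1, p1 P_x(v,v), -r2, p2 P_x(v,v))   (P = Sch g; smooth: smooth_gam, smooth_sch), on the open set
U = {x ∈ O ∩ ball z η, v ∈ ball v0 η, |p1| < 1/2, |r1+1| < 1/2, |p2-1| < 1/2, |r2| < 1/2}, z₀ = (z,v0,0,-1,1,0).
The flow lines stay in U.  ε0 = ε (from the flow), r from the open set W ∋ z₀ (initial state (y,v,0,-1,1,0)).
`p1_lower`: p1' = -r1 ≥ 1/2 so p1(s) ≥ s/2 for s ≥ 0 (mean value).  `wronsk`: (p2 r1 - p1 r2)' = 0, value -1 at s = 0.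
`geodesic_null`: g(γ',γ') has derivative 0 by `compat`.
-/

open scoped ContDiff Topology
open Set

noncomputable section

set_option linter.unusedSectionVars false
set_option maxSynthPendingDepth 3

namespace Pool.Agent.EG

variable {E : Type*} [NormedAddCommGroup E] [NormedSpace ℝ E] [FiniteDimensional ℝ E]
variable {V : Type*} [NormedAddCommGroup V] [NormedSpace ℝ V] [FiniteDimensional ℝ V]
variable {V' : Type*} [NormedAddCommGroup V'] [NormedSpace ℝ V'] [FiniteDimensional ℝ V']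
variable {O O' S : Set E} {g g' : E → BF E} {f : E → E} {c : E → ℝ} {y : E}

/-- the state space of the geodesic equation with two tractors -/
abbrev GE1St (E : Type*) := (E × E) × (ℝ × ℝ) × (ℝ × ℝ)

/-- the vector field -/
def ge1_field (g : E → BF E) (q : GE1St E) : GE1St E :=
  ((q.1.2, - Gam g q.1.1 q.1.2 q.1.2),
    (- q.2.1.2, q.2.1.1 * Sch g q.1.1 q.1.2 q.1.2),
    (- q.2.2.2, q.2.2.1 * Sch g q.1.1 q.1.2 q.1.2))

theorem ge1_const {φ : ℝ → ℝ} {ε0 : ℝ} (hε : 0 < ε0)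
    (h : ∀ s ∈ Ioo (-ε0) ε0, HasDerivAt φ 0 s) : ∀ s ∈ Ioo (-ε0) ε0, φ s = φ 0 := by
  intro s hs
  have hopen : IsOpen (Ioo (-ε0) ε0) := isOpen_Ioo
  have hpre : IsPreconnected (Ioo (-ε0) ε0) := isPreconnected_Ioo
  have hdiff : DifferentiableOn ℝ φ (Ioo (-ε0) ε0) := fun t ht =>
    (h t ht).differentiableAt.differentiableWithinAt
  have h0 : (0 : ℝ) ∈ Ioo (-ε0) ε0 := ⟨by linarith, hε⟩
  exact hopen.is_const_of_deriv_eq_zero hpre hdiff (fun t ht => (h t ht).deriv) hs h0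

theorem exists_geodesic (h : IsMet O g) {z : E} (hz : z ∈ O) (v0 : E) {η : ℝ} (hη : 0 < η) :
    ∃ ε0 > 0, ∃ r > 0, ∀ y ∈ Metric.ball z r, ∀ v ∈ Metric.ball v0 r,
      ∃ (γ dγ : ℝ → E) (p1 r1 p2 r2 : ℝ → ℝ),
      γ 0 = y ∧ dγ 0 = v ∧ p1 0 = 0 ∧ r1 0 = -1 ∧ p2 0 = 1 ∧ r2 0 = 0 ∧
      (∀ s ∈ Ioo (-ε0) ε0,
        γ s ∈ O ∧ ‖γ s - z‖ < η ∧ ‖dγ s - v0‖ < η ∧ |p2 s - 1| < 1 / 2 ∧ HasDerivAt γ (dγ s) s ∧
        HasDerivAt dγ (- Gam g (γ s) (dγ s) (dγ s)) s ∧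
        HasDerivAt p1 (- r1 s) s ∧ HasDerivAt r1 (p1 s * Sch g (γ s) (dγ s) (dγ s)) s ∧
        HasDerivAt p2 (- r2 s) s ∧ HasDerivAt r2 (p2 s * Sch g (γ s) (dγ s) (dγ s)) s ∧
        p2 s * r1 s - p1 s * r2 s = -1) ∧
      ∀ s ∈ Ico 0 ε0, s / 2 ≤ p1 s := by
  -- the open set
  let U : Set (GE1St E) := {q | q.1.1 ∈ O ∩ Metric.ball z η} ∩ {q | q.1.2 ∈ Metric.ball v0 η} ∩
    {q | q.2.1.2 ∈ Metric.ball (-1 : ℝ) (1 / 2)} ∩ {q | q.2.2.1 ∈ Metric.ball (1 : ℝ) (1 / 2)}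
  have hU : IsOpen U := by
    refine IsOpen.inter (IsOpen.inter (IsOpen.inter ?_ ?_) ?_) ?_
    · exact (h.isOpen.inter Metric.isOpen_ball).preimage (continuous_fst.comp continuous_fst)
    · exact Metric.isOpen_ball.preimage (continuous_snd.comp continuous_fst)
    · exact Metric.isOpen_ball.preimage
        (continuous_snd.comp (continuous_fst.comp continuous_snd))
    · exact Metric.isOpen_ball.preimage
        (continuous_fst.comp (continuous_snd.comp continuous_snd))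
  have hx : ContDiffOn ℝ ∞ (fun q : GE1St E => q.1.1) U := (contDiff_fst.comp contDiff_fst).contDiffOn
  have hv : ContDiffOn ℝ ∞ (fun q : GE1St E => q.1.2) U := (contDiff_snd.comp contDiff_fst).contDiffOn
  have hp1 : ContDiffOn ℝ ∞ (fun q : GE1St E => q.2.1.1) U :=
    (contDiff_fst.comp (contDiff_fst.comp contDiff_snd)).contDiffOn
  have hr1 : ContDiffOn ℝ ∞ (fun q : GE1St E => q.2.1.2) U :=
    (contDiff_snd.comp (contDiff_fst.comp contDiff_snd)).contDiffOn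
  have hp2 : ContDiffOn ℝ ∞ (fun q : GE1St E => q.2.2.1) U :=
    (contDiff_fst.comp (contDiff_snd.comp contDiff_snd)).contDiffOn
  have hr2 : ContDiffOn ℝ ∞ (fun q : GE1St E => q.2.2.2) U :=
    (contDiff_snd.comp (contDiff_snd.comp contDiff_snd)).contDiffOn
  have hmaps : MapsTo (fun q : GE1St E => q.1.1) U O := fun q hq => hq.1.1.1.1
  have hG : ContDiffOn ℝ ∞ (fun q : GE1St E => Gam g q.1.1) U := h.smooth_gam.comp hx hmaps
  have hS : ContDiffOn ℝ ∞ (fun q : GE1St E => Sch g q.1.1) U := h.smooth_sch.comp hx hmaps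
  have hGvv : ContDiffOn ℝ ∞ (fun q : GE1St E => Gam g q.1.1 q.1.2 q.1.2) U :=
    (hG.clm_apply hv).clm_apply hv
  have hSvv : ContDiffOn ℝ ∞ (fun q : GE1St E => Sch g q.1.1 q.1.2 q.1.2) U :=
    (hS.clm_apply hv).clm_apply hv
  have hV : ContDiffOn ℝ ∞ (ge1_field g) U := by
    refine ContDiffOn.prodMk (ContDiffOn.prodMk hv hGvv.neg) (ContDiffOn.prodMk
      (ContDiffOn.prodMk hr1.neg (hp1.mul hSvv)) (ContDiffOn.prodMk hr2.neg (hp2.mul hSvv)))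
  let z0 : GE1St E := ((z, v0), ((0 : ℝ), (-1 : ℝ)), ((1 : ℝ), (0 : ℝ)))
  have hz0 : z0 ∈ U := by
    refine ⟨⟨⟨⟨hz, Metric.mem_ball_self hη⟩, Metric.mem_ball_self hη⟩, ?_⟩, ?_⟩
    · exact Metric.mem_ball_self (by norm_num)
    · exact Metric.mem_ball_self (by norm_num)
  obtain ⟨ε, hε, W, hWo, hWz, Θ, -, hΘ0, hΘ⟩ :=
    Pool.Agent.SH.exists_local_smooth_flow hU hV hz0
  -- radius
  have hcont : Continuous (fun q : E × E => ((q, ((0 : ℝ), (-1 : ℝ)), ((1 : ℝ), (0 : ℝ))) : GE1St E)) :=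
    continuous_id.prodMk continuous_const
  have hW' : IsOpen ((fun q : E × E =>
      ((q, ((0 : ℝ), (-1 : ℝ)), ((1 : ℝ), (0 : ℝ))) : GE1St E)) ⁻¹' W) := hWo.preimage hcont
  obtain ⟨r, hr, hball⟩ := Metric.isOpen_iff.1 hW' (z, v0) hWz
  refine ⟨ε, hε, r, hr, fun y hy v hvb => ?_⟩
  have hmem : ((((y, v) : E × E), ((0 : ℝ), (-1 : ℝ)), ((1 : ℝ), (0 : ℝ))) : GE1St E) ∈ W := by
    have : ((y, v) : E × E) ∈ Metric.ball ((z, v0) : E × E) r := by
      rw [Metric.mem_ball, Prod.dist_eq]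
      exact max_lt hy hvb
    exact hball this
  set w0 : GE1St E := (((y, v) : E × E), ((0 : ℝ), (-1 : ℝ)), ((1 : ℝ), (0 : ℝ))) with hw0
  have hflow := hΘ w0 hmem
  have hd : ∀ s ∈ Ioo (-ε) ε, HasDerivAt (fun s => Θ (s, w0)) (ge1_field g (Θ (s, w0))) s :=
    fun s hs => (hflow s hs).2
  have hin : ∀ s ∈ Ioo (-ε) ε, Θ (s, w0) ∈ U := fun s hs => (hflow s hs).1
  have hγ : ∀ s ∈ Ioo (-ε) ε, HasDerivAt (fun s => (Θ (s, w0)).1.1) ((Θ (s, w0)).1.2) s :=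
    fun s hs => (hd s hs).fst.fst
  have hdγ : ∀ s ∈ Ioo (-ε) ε, HasDerivAt (fun s => (Θ (s, w0)).1.2)
      (- Gam g (Θ (s, w0)).1.1 (Θ (s, w0)).1.2 (Θ (s, w0)).1.2) s :=
    fun s hs => (hd s hs).fst.snd
  have hdp1 : ∀ s ∈ Ioo (-ε) ε, HasDerivAt (fun s => (Θ (s, w0)).2.1.1)
      (- (Θ (s, w0)).2.1.2) s := fun s hs => (hd s hs).snd.fst.fst
  have hdr1 : ∀ s ∈ Ioo (-ε) ε, HasDerivAt (fun s => (Θ (s, w0)).2.1.2)
      ((Θ (s, w0)).2.1.1 * Sch g (Θ (s, w0)).1.1 (Θ (s, w0)).1.2 (Θ (s, w0)).1.2) s :=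
    fun s hs => (hd s hs).snd.fst.snd
  have hdp2 : ∀ s ∈ Ioo (-ε) ε, HasDerivAt (fun s => (Θ (s, w0)).2.2.1)
      (- (Θ (s, w0)).2.2.2) s := fun s hs => (hd s hs).snd.snd.fst
  have hdr2 : ∀ s ∈ Ioo (-ε) ε, HasDerivAt (fun s => (Θ (s, w0)).2.2.2)
      ((Θ (s, w0)).2.2.1 * Sch g (Θ (s, w0)).1.1 (Θ (s, w0)).1.2 (Θ (s, w0)).1.2) s :=
    fun s hs => (hd s hs).snd.snd.snd
  have hinit : Θ (0, w0) = w0 := hΘ0 w0 hmem
  have hwr : ∀ s ∈ Ioo (-ε) ε, (Θ (s, w0)).2.2.1 * (Θ (s, w0)).2.1.2 -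
      (Θ (s, w0)).2.1.1 * (Θ (s, w0)).2.2.2 = -1 := by
    intro s hs
    have h1 := ge1_const (φ := fun s => (Θ (s, w0)).2.2.1 * (Θ (s, w0)).2.1.2 -
      (Θ (s, w0)).2.1.1 * (Θ (s, w0)).2.2.2) hε (by
        intro t ht
        have e1 := ((hdp2 t ht).mul (hdr1 t ht)).sub ((hdp1 t ht).mul (hdr2 t ht))
        refine e1.congr_deriv ?_
        ring) s hs
    have h2 : (fun s => (Θ (s, w0)).2.2.1 * (Θ (s, w0)).2.1.2 -
      (Θ (s, w0)).2.1.1 * (Θ (s, w0)).2.2.2) 0 = -1 := by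
      show (Θ (0, w0)).2.2.1 * (Θ (0, w0)).2.1.2 - (Θ (0, w0)).2.1.1 * (Θ (0, w0)).2.2.2 = -1
      rw [hinit, hw0]
      norm_num
    exact h1.trans h2
  refine ⟨fun s => (Θ (s, w0)).1.1, fun s => (Θ (s, w0)).1.2, fun s => (Θ (s, w0)).2.1.1,
    fun s => (Θ (s, w0)).2.1.2, fun s => (Θ (s, w0)).2.2.1, fun s => (Θ (s, w0)).2.2.2,
    ?_, ?_, ?_, ?_, ?_, ?_, ?_, ?_⟩
  · show (Θ (0, w0)).1.1 = y
    rw [hinit]
  · show (Θ (0, w0)).1.2 = v
    rw [hinit]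
  · show (Θ (0, w0)).2.1.1 = 0
    rw [hinit]
  · show (Θ (0, w0)).2.1.2 = -1
    rw [hinit]
  · show (Θ (0, w0)).2.2.1 = 1
    rw [hinit]
  · show (Θ (0, w0)).2.2.2 = 0
    rw [hinit]
  · intro s hs
    have hq := hin s hs
    refine ⟨hq.1.1.1.1, ?_, ?_, ?_, hγ s hs, hdγ s hs, hdp1 s hs, hdr1 s hs, hdp2 s hs,
      hdr2 s hs, hwr s hs⟩
    · have := hq.1.1.1.2
      rwa [mem_ball_iff_norm] at this
    · have := hq.1.1.2
      rwa [mem_setOf_eq, mem_ball_iff_norm] at this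
    · have := hq.2
      rwa [mem_setOf_eq, mem_ball_iff_norm, Real.norm_eq_abs] at this
  · intro s hs
    have hmono : MonotoneOn (fun t => (Θ (t, w0)).2.1.1 - t / 2) (Ico 0 ε) := by
      refine monotoneOn_of_deriv_nonneg (convex_Ico 0 ε) ?_ ?_ ?_
      · intro t ht
        have ht' : t ∈ Ioo (-ε) ε := ⟨by linarith [ht.1], ht.2⟩
        exact (((hdp1 t ht').sub ((hasDerivAt_id t).div_const 2)).continuousAt).continuousWithinAt
      · intro t ht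
        rw [interior_Ico] at ht
        have ht' : t ∈ Ioo (-ε) ε := ⟨by linarith [ht.1], ht.2⟩
        exact (((hdp1 t ht').sub ((hasDerivAt_id t).div_const 2)).differentiableAt).differentiableWithinAt
      · intro t ht
        rw [interior_Ico] at ht
        have ht' : t ∈ Ioo (-ε) ε := ⟨by linarith [ht.1], ht.2⟩
        have e1 := ((hdp1 t ht').sub ((hasDerivAt_id t).div_const 2)).deriv
        have e2 : deriv (fun t => (Θ (t, w0)).2.1.1 - t / 2) t = - (Θ (t, w0)).2.1.2 - 1 / 2 := e1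
        rw [e2]
        have hq := (hin t ht').1.2
        rw [mem_setOf_eq, mem_ball_iff_norm, Real.norm_eq_abs, abs_lt] at hq
        linarith [hq.2]
    have h0 : (0 : ℝ) ∈ Ico 0 ε := ⟨le_refl _, hε⟩
    have h1 := hmono h0 hs hs.1
    have h2 : (Θ (0, w0)).2.1.1 = 0 := by rw [hinit]
    have h3 : (Θ (0, w0)).2.1.1 - 0 / 2 ≤ (Θ (s, w0)).2.1.1 - s / 2 := h1
    rw [h2] at h3
    show s / 2 ≤ (Θ (s, w0)).2.1.1
    linarith

theorem geodesic_null (h : IsMet O g) {ε0 : ℝ} {γ dγ : ℝ → E} (hε : 0 < ε0)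
    (hγ : ∀ s ∈ Ioo (-ε0) ε0, γ s ∈ O ∧ HasDerivAt γ (dγ s) s ∧
        HasDerivAt dγ (- Gam g (γ s) (dγ s) (dγ s)) s) (h0 : g (γ 0) (dγ 0) (dγ 0) = 0) :
    ∀ s ∈ Ioo (-ε0) ε0, g (γ s) (dγ s) (dγ s) = 0 := by
  intro s hs
  have h1 := ge1_const (φ := fun s => g (γ s) (dγ s) (dγ s)) hε (by
    intro t ht
    obtain ⟨htO, hd1, hd2⟩ := hγ t ht
    have hg : HasFDerivAt g (fderiv ℝ g (γ t)) (γ t) := (diffAt_of h.isOpen h.smooth htO).hasFDerivAt
    have hg' : HasDerivAt (fun s => g (γ s)) (fderiv ℝ g (γ t) (dγ t)) t :=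
      hg.comp_hasDerivAt t hd1
    have e1 := (hg'.clm_apply hd2).clm_apply hd2
    refine e1.congr_deriv ?_
    have e2 := h.compat htO (dγ t) (dγ t) (dγ t)
    simp only [ContinuousLinearMap.add_apply, map_neg, ContinuousLinearMap.neg_apply]
    rw [e2]
    ring) s hs
  exact h1.trans h0

end Pool.Agent.EG

end

end M_GE1

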