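import Pool.Agent.Lib.MP_eeed5f_gt.L2
import Pool.Agent.Lib.MP_eeed5f_gt.L3

section M_LB6

/-!
Row ec-LB6 ((B3): curvature of Γ + C^τ).
`curv_hat`: with `C_X Y = t(X)Y + t(Y)X - g(X,Y)t^#`:
`Curv(Γ+C)(X,Y)Z = R(X,Y)Z + (∇_X C)_Y Z - (∇_Y C)_X Z + [C_X,C_Y]Z` where (use `compat`, and
`D_X(t^#) + Γ(X,t^#) = (∇_X t)^#`: lemma `nab_sharp`)
`(∇_X C)_Y Z = (∇_X t)(Y)Z + (∇_X t)(Z)Y - g(Y,Z)(∇_X t)^#`; `∇t` is symmetric (hsymm, `gam_symm`), so the first
terms cancel;
`[C_X,C_Y]Z = t(Y)t(Z)X - t(X)t(Z)Y + (t(X)g(Y,Z)-t(Y)g(X,Z))t^# - |t|²(g(Y,Z)X-g(X,Z)Y)`, `|t|² = t(t^#)`.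
Together this is `- curly (Stau) (X,Y)Z`, i.e. `S(X,Z)Y - S(Y,Z)X - g(Y,Z)S_X^# + g(X,Z)S_Y^#`.
`tau_symm`: `tau c = D(log c)` on S, symmetry of second derivatives.
`riem_hat`: apply `gauge` with `H = fderiv ℝ f`, `A = Γ + C^τ` (on S), `A' = Γ'` (hD is `IsLC.hess`).
-/

open scoped ContDiff Topology
open Set

noncomputable section

set_option linter.unusedSectionVars false
set_option maxSynthPendingDepth 3

namespace Pool.Agent.EG

variable {E : Type*} [NormedAddCommGroup E] [NormedSpace ℝ E] [FiniteDimensional ℝ E]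
variable {V : Type*} [NormedAddCommGroup V] [NormedSpace ℝ V] [FiniteDimensional ℝ V]
variable {V' : Type*} [NormedAddCommGroup V'] [NormedSpace ℝ V'] [FiniteDimensional ℝ V']
variable {O O' S : Set E} {g g' : E → BF E} {f : E → E} {c : E → ℝ} {y : E}

/-- `D_X(t^#) + Γ(X,t^#) = (∇_X t)^#`. -/
theorem nab_sharp (h : IsMet O g) {t : E → E →L[ℝ] ℝ} (hy : y ∈ O)
    (ht : DifferentiableAt ℝ t y) (X : E) :
    fderiv ℝ (fun z => sharp g z (t z)) y X + Gam g y X (sharp g y (t y))
      = sharp g y (nab1 g t y X) := by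
  have hg : DifferentiableAt ℝ g y := diffAt_of h.isOpen h.smooth hy
  have hs : DifferentiableAt ℝ (fun z => sharp g z (t z)) y :=
    (diffAt_of h.isOpen h.smooth_sharp hy).clm_apply ht
  have h1 : (fun z => g z (sharp g z (t z))) =ᶠ[𝓝 y] t := by
    filter_upwards [h.isOpen.mem_nhds hy] with z hz
    exact h.g_sharp hz (t z)
  have h2 : fderiv ℝ (fun z => g z (sharp g z (t z))) y X = fderiv ℝ t y X := by
    rw [h1.fderiv_eq]
  rw [fderiv_clm_apply hg hs] at h2
  refine h.eq_of_g hy fun v => ?_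
  have h3 : g y (fderiv ℝ (fun z => sharp g z (t z)) y X) v
      + fderiv ℝ g y X (sharp g y (t y)) v = fderiv ℝ t y X v := by
    rw [← h2]
    simp
  have h4 := h.compat hy X (sharp g y (t y)) v
  have h5 : g y (sharp g y (t y)) (Gam g y X v) = t y (Gam g y X v) := by
    rw [h.g_sharp hy]
  rw [h.g_sharp hy, nab1_apply, map_add, add_apply]
  linarith

theorem curv_hat (h : IsMet O g) {t : E → E →L[ℝ] ℝ} (hS : IsOpen S) (hSO : S ⊆ O)
    (ht : ContDiffOn ℝ ∞ t S)
    (hsymm : ∀ y ∈ S, ∀ X Y, fderiv ℝ t y X Y = fderiv ℝ t y Y X) (hy : y ∈ S) (X Y Z : E) :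
    Curv (fun z => Gam g z + Ct g z (t z)) y X Y Z
      = Riem g y X Y Z - curly g y (Stau g t y) X Y Z := by
  have hg : ContDiffOn ℝ ∞ g S := h.smooth.mono hSO
  have hsh : ContDiffOn ℝ ∞ (fun z => sharp g z (t z)) S :=
    (h.smooth_sharp.mono hSO).clm_apply ht
  have hC : ContDiffOn ℝ ∞ (fun z => Ct g z (t z)) S := by
    refine contDiffOn_clm_apply.2 fun U => contDiffOn_clm_apply.2 fun W => ?_
    have e : (fun z => Ct g z (t z) U W) =
        fun z => t z U • W + t z W • U - g z U W • sharp g z (t z) := by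
      funext z
      rfl
    rw [e]
    exact (((ht.clm_apply contDiffOn_const).smul contDiffOn_const).add
      ((ht.clm_apply contDiffOn_const).smul contDiffOn_const)).sub
      (((hg.clm_apply contDiffOn_const).clm_apply contDiffOn_const).smul hsh)
  have hyO : y ∈ O := hSO hy
  have hGd : DifferentiableAt ℝ (Gam g) y := diffAt_of h.isOpen h.smooth_gam hyO
  have hCd : DifferentiableAt ℝ (fun z => Ct g z (t z)) y := diffAt_of hS hC hy
  have htd : DifferentiableAt ℝ t y := diffAt_of hS ht hy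
  have hgd : DifferentiableAt ℝ g y := diffAt_of h.isOpen h.smooth hyO
  have hsd : DifferentiableAt ℝ (fun z => sharp g z (t z)) y := diffAt_of hS hsh hy
  have hA : fderiv ℝ (fun z => Gam g z + Ct g z (t z)) y =
      fderiv ℝ (Gam g) y + fderiv ℝ (fun z => Ct g z (t z)) y := fderiv_fun_add hGd hCd
  -- the derivative of the difference tensor
  have hDC : ∀ U V W : E, fderiv ℝ (fun z => Ct g z (t z)) y U V W =
      fderiv ℝ t y U V • W + fderiv ℝ t y U W • V - fderiv ℝ g y U V W • sharp g y (t y)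
        - g y V W • fderiv ℝ (fun z => sharp g z (t z)) y U := by
    intro U V W
    have e1 : HasFDerivAt (fun z => Ct g z (t z) V W)
        (((fderiv ℝ (fun z => Ct g z (t z)) y).flip V).flip W) y := by
      have a1 := (hCd.hasFDerivAt.clm_apply (hasFDerivAt_const V y)).clm_apply
        (hasFDerivAt_const W y)
      exact a1.congr_fderiv (by ext U'; simp)
    have e2 : HasFDerivAt (fun z => t z V • W + t z W • V - g z V W • sharp g z (t z))
        (((fderiv ℝ t y).flip V).smulRight W + ((fderiv ℝ t y).flip W).smulRight V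
          - (g y V W • fderiv ℝ (fun z => sharp g z (t z)) y
            + (((fderiv ℝ g y).flip V).flip W).smulRight (sharp g y (t y)))) y := by
      have b1 : ∀ V : E, HasFDerivAt (fun z => t z V) ((fderiv ℝ t y).flip V) y := by
        intro V
        have a1 := htd.hasFDerivAt.clm_apply (hasFDerivAt_const V y)
        exact a1.congr_fderiv (by ext U'; simp)
      have b2 : HasFDerivAt (fun z => g z V W) (((fderiv ℝ g y).flip V).flip W) y := by
        have a1 := (hgd.hasFDerivAt.clm_apply (hasFDerivAt_const V y)).clm_apply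
          (hasFDerivAt_const W y)
        exact a1.congr_fderiv (by ext U'; simp)
      exact (((b1 V).smul_const W).add ((b1 W).smul_const V)).sub (b2.smul hsd.hasFDerivAt)
    have e3 := e1.unique e2
    have e4 := congrArg (fun L : E →L[ℝ] E => L U) e3
    simp only [ContinuousLinearMap.flip_apply, sub_apply,
      add_apply, ContinuousLinearMap.smulRight_apply,
      smul_apply] at e4
    rw [e4]
    module
  have hns : ∀ U, fderiv ℝ (fun z => sharp g z (t z)) y U =
      sharp g y (nab1 g t y U) - Gam g y U (sharp g y (t y)) := fun U =>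
    eq_sub_of_add_eq (nab_sharp h hyO htd U)
  have hcg : ∀ U V W, fderiv ℝ g y U V W = g y (Gam g y U V) W + g y V (Gam g y U W) :=
    h.compat hyO
  have hnt : ∀ U V, fderiv ℝ t y U V = nab1 g t y U V + t y (Gam g y U V) := by
    intro U V
    rw [nab1_apply]
    ring
  have hgs : ∀ U, g y U (sharp g y (t y)) = t y U := by
    intro U
    rw [h.symm y hyO, h.g_sharp hyO]
  have hN : nab1 g t y Y X = nab1 g t y X Y := by
    rw [nab1_apply, nab1_apply, hsymm y hy Y X, h.gam_symm hyO Y X]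
  have hG : Gam g y Y X = Gam g y X Y := h.gam_symm hyO Y X
  have hgYX : g y Y X = g y X Y := h.symm y hyO Y X
  have hss : sharp g y (g y X) = X := h.sharp_g hyO X
  have hss' : sharp g y (g y Y) = Y := h.sharp_g hyO Y
  have hsq : ∀ U, sharp g y (Stau g t y U) = sharp g y (nab1 g t y U) - t y U • sharp g y (t y)
      + ((1 / 2 : ℝ) * t y (sharp g y (t y))) • U := by
    intro U
    have e : Stau g t y U = nab1 g t y U - t y U • t y
        + ((1 / 2 : ℝ) * t y (sharp g y (t y))) • g y U := by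
      ext W
      simp [Stau, sq1_apply]
    rw [e, map_add, map_sub, map_smul, map_smul, h.sharp_g hyO]
  have hS' : ∀ U V, Stau g t y U V = nab1 g t y U V - t y U * t y V
      + ((1 / 2 : ℝ) * t y (sharp g y (t y))) * g y U V := by
    intro U V
    simp [Stau, sq1_apply]
  simp only [Riem, Curv_apply, hA, add_apply, sub_apply,
    ContinuousLinearMap.comp_apply, hDC, hns, hcg, hnt, Ct_apply, curly_apply, hsq, hS', map_add,
    map_sub, map_smul, hgs, hN, hG, hgYX]
  module

theorem IsLC.tau_symm (h : IsLC O g O' g' S f c) (hy : y ∈ S) (X Y : E) :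
    fderiv ℝ (tau c) y X Y = fderiv ℝ (tau c) y Y X := by
  have hcy : c y ≠ 0 := (h.pos y hy).ne'
  have hcd : DifferentiableAt ℝ c y := diffAt_of h.isOpen h.smooth_c hy
  have hDc : DifferentiableAt ℝ (fderiv ℝ c) y :=
    diffAt_of h.isOpen (smooth_fderiv h.isOpen h.smooth_c) hy
  have h2 : fderiv ℝ (fderiv ℝ c) y X Y = fderiv ℝ (fderiv ℝ c) y Y X := by
    have h3 : ContDiffAt ℝ ∞ c y := h.smooth_c.contDiffAt (h.isOpen.mem_nhds hy)
    exact (h3.isSymmSndFDerivAt (by simpa using WithTop.coe_le_coe.2 (le_top (a := (2 : ℕ∞))))).eq X Y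
  have h4 : HasFDerivAt (tau c) ((c y)⁻¹ • fderiv ℝ (fderiv ℝ c) y
      + ((-((c y) ^ 2)⁻¹) • fderiv ℝ c y).smulRight (fderiv ℝ c y)) y := by
    have h5 : HasFDerivAt (fun z => (c z)⁻¹) ((-((c y) ^ 2)⁻¹) • fderiv ℝ c y) y :=
      (hasDerivAt_inv hcy).comp_hasFDerivAt y hcd.hasFDerivAt
    exact h5.smul hDc.hasFDerivAt
  rw [h4.fderiv]
  simp only [add_apply, smul_apply,
    ContinuousLinearMap.smulRight_apply, smul_eq_mul, h2]
  ring

theorem IsLC.riem_hat (h : IsLC O g O' g' S f c) (hy : y ∈ S) (X Y Z : E) :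
    Riem g' (f y) (fderiv ℝ f y X) (fderiv ℝ f y Y) (fderiv ℝ f y Z)
      = fderiv ℝ f y (Riem g y X Y Z - curly g y (Stau g (tau c) y) X Y Z) := by
  have hAS : ContDiffOn ℝ ∞ (fun z => Gam g z + Ct g z (tau c z)) S := by
    have hC : ContDiffOn ℝ ∞ (fun z => Ct g z (tau c z)) S := by
      refine contDiffOn_clm_apply.2 fun U => contDiffOn_clm_apply.2 fun W => ?_
      have e : (fun z => Ct g z (tau c z) U W) =
          fun z => tau c z U • W + tau c z W • U - g z U W • sharp g z (tau c z) := by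
        funext z
        rfl
      rw [e]
      exact (((h.smooth_tau.clm_apply contDiffOn_const).smul contDiffOn_const).add
        ((h.smooth_tau.clm_apply contDiffOn_const).smul contDiffOn_const)).sub
        ((((h.met.smooth.mono h.sub).clm_apply contDiffOn_const).clm_apply
          contDiffOn_const).smul ((h.met.smooth_sharp.mono h.sub).clm_apply h.smooth_tau))
    exact (h.met.smooth_gam.mono h.sub).add hC
  have h1 := gauge (f := f) (A := fun z => Gam g z + Ct g z (tau c z)) (A' := Gam g')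
    (H := fderiv ℝ f) (O := S) (O' := O') (S := S) h.isOpen h.met'.isOpen h.isOpen subset_rfl hAS
    h.met'.smooth_gam h.smooth_f h.maps (smooth_fderiv h.isOpen h.smooth_f)
    (by
      intro z hz U
      ext W
      rw [h.hess hz U W]
      rfl) hy X Y
  have h2 := congrArg (fun L : E →L[ℝ] E => L Z) h1
  have h3 := curv_hat h.met h.isOpen h.sub h.smooth_tau (fun z hz U W => h.tau_symm hz U W) hy
    X Y Z
  rw [← h3]
  exact h2

end Pool.Agent.EG

end

end M_LB6

section M_LB7

/-!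
Row ec-LB7 ((B4): Schouten and Weyl tensors under conformal maps).
`trG_g`: `trG g y (g y) = dimR E` (`sharp ∘ g = id`, `LinearMap.trace_id`).
`ric_sch`: unfold `Sch`; `trG (Sch) = trG(Ric)/(2(D-1))`.
`contr_curly`: `tr(X ↦ B(Y,Z)X - B(X,Z)Y + g(Y,Z)B_X^# - g(X,Z)B_Y^#)
 = D B(Y,Z) - B(Y,Z) + g(Y,Z) trG B - g(B_Y^#,Z) = (D-2)B(Y,Z) + g(Y,Z) trG B`
(trace of `X ↦ φ(X) w` is `φ(w)`: `LinearMap.trace_smulRight` or similar; `g(B_Y^#,Z) = B(Y,Z)`).
`sch_pull`: from `riem_hat`, since L is bijective, `tr(X' ↦ R'(X',LY)LZ) = tr(X ↦ L⁻¹R'(LX,LY)LZ)`: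
`Ric'(LY,LZ) = Ric(Y,Z) - (D-2)S(Y,Z) - g(Y,Z) trG S`.  With `P̃(Y,Z) := P'(LY,LZ)` one has
`g'(LY,LZ) trG' P' = g(Y,Z) trG P̃` (sharp_pull), so `(D-2)P̃ + (trG P̃)g = (D-2)(P-S) + (trG (P-S)) g`;
the map `B ↦ (D-2)B + (trG B) g` is injective for D ≥ 3 (take trG: (2D-2) trG B).
`wey_pull`: `W' = R' - {P'}'`, `{P'}'(LX,LY)LZ = L({P̃}(X,Y)Z)` (sharp_pull; g' = c² g, g'⁻¹ scales by c⁻²), so
`W'(LX,LY)LZ = L(R - {S} - {P-S}) = L W(X,Y)Z`.
-/

open scoped ContDiff Topology
open Set

noncomputable section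

set_option linter.unusedSectionVars false
set_option maxSynthPendingDepth 3

namespace Pool.Agent.EG

variable {E : Type*} [NormedAddCommGroup E] [NormedSpace ℝ E] [FiniteDimensional ℝ E]
variable {V : Type*} [NormedAddCommGroup V] [NormedSpace ℝ V] [FiniteDimensional ℝ V]
variable {V' : Type*} [NormedAddCommGroup V'] [NormedSpace ℝ V'] [FiniteDimensional ℝ V']
variable {O O' S : Set E} {g g' : E → BF E} {f : E → E} {c : E → ℝ} {y : E}

theorem lb7_trE_id : trE (ContinuousLinearMap.id ℝ E) = dimR E := by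
  unfold trE dimR
  exact LinearMap.trace_id ℝ E

theorem lb7_trE_smulRight (φ : E →L[ℝ] ℝ) (w : E) : trE (φ.smulRight w) = φ w := by
  unfold trE
  exact LinearMap.trace_smulRight (φ : E →ₗ[ℝ] ℝ) w

theorem lb7_trE_conj {L A B : E →L[ℝ] E} (hL : Function.Bijective L)
    (h : ∀ X, B (L X) = L (A X)) : trE B = trE A := by
  unfold trE
  let e : E ≃ₗ[ℝ] E := LinearEquiv.ofBijective (L : E →ₗ[ℝ] E) hL
  have he : (B : E →ₗ[ℝ] E) = e.conj (A : E →ₗ[ℝ] E) := by
    ext x
    obtain ⟨z, rfl⟩ := hL.2 x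
    have h1 : e.symm (L z) = z := e.symm_apply_apply z
    rw [LinearEquiv.conj_apply_apply, h1]
    exact h z
  rw [he, LinearMap.trace_conj']

theorem lb7_trG_add (g : E → BF E) (y : E) (A B : BF E) :
    trG g y (A + B) = trG g y A + trG g y B := by
  unfold trG
  rw [ContinuousLinearMap.comp_add, trE_add]

theorem lb7_trG_smul (g : E → BF E) (y : E) (a : ℝ) (A : BF E) :
    trG g y (a • A) = a * trG g y A := by
  unfold trG
  rw [ContinuousLinearMap.comp_smul, trE_smul]

theorem lb7_trG_sub (g : E → BF E) (y : E) (A B : BF E) :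
    trG g y (A - B) = trG g y A - trG g y B := by
  have h := lb7_trG_add g y (A - B) B
  rw [sub_add_cancel] at h
  rw [h, add_sub_cancel_right]

theorem IsMet.trG_g (h : IsMet O g) (hy : y ∈ O) : trG g y (g y) = dimR E := by
  unfold trG
  have h1 : (sharp g y).comp (g y) = ContinuousLinearMap.id ℝ E := by
    ext u
    exact h.sharp_g hy u
  rw [h1, lb7_trE_id]

theorem IsMet.ric_sch (h : IsMet O g) (hD : 3 ≤ Module.finrank ℝ E) (hy : y ∈ O) :
    Ric g y = (dimR E - 2) • Sch g y + trG g y (Sch g y) • g y := by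
  have hD' : (3 : ℝ) ≤ dimR E := by
    unfold dimR
    exact_mod_cast hD
  have h2 : dimR E - 2 ≠ 0 := by linarith
  have h1 : dimR E - 1 ≠ 0 := by linarith
  have ht : trG g y (Sch g y) = trG g y (Ric g y) / (2 * (dimR E - 1)) := by
    unfold Sch
    rw [lb7_trG_smul, lb7_trG_sub, lb7_trG_smul, h.trG_g hy]
    field_simp
    ring
  rw [ht]
  unfold Sch
  rw [smul_smul, mul_inv_cancel₀ h2, one_smul, sub_add_cancel]

theorem IsMet.contr_curly (h : IsMet O g) (hy : y ∈ O) (B : BF E) :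
    contr (curly g y B) = (dimR E - 2) • B + trG g y B • g y := by
  ext Y Z
  rw [contr_apply]
  have h1 : ((curly g y B).flip Y).flip Z = (B Y Z) • ContinuousLinearMap.id ℝ E
      + ((-1 : ℝ) • (B.flip Z).smulRight Y
      + ((g y Y Z) • (sharp g y).comp B + (-1 : ℝ) • ((g y).flip Z).smulRight (sharp g y (B Y)))) := by
    ext X
    simp only [ContinuousLinearMap.flip_apply, curly_apply, ContinuousLinearMap.add_apply,
      ContinuousLinearMap.smul_apply, ContinuousLinearMap.id_apply,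
      ContinuousLinearMap.smulRight_apply, ContinuousLinearMap.comp_apply]
    module
  have h2 : g y (sharp g y (B Y)) Z = B Y Z := by rw [h.g_sharp hy]
  rw [h1, trE_add, trE_add, trE_add, trE_smul, trE_smul, trE_smul, trE_smul, lb7_trE_id,
    lb7_trE_smulRight, lb7_trE_smulRight, ContinuousLinearMap.flip_apply,
    ContinuousLinearMap.flip_apply, h2, ContinuousLinearMap.add_apply,
    ContinuousLinearMap.add_apply, ContinuousLinearMap.smul_apply, ContinuousLinearMap.smul_apply,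
    ContinuousLinearMap.smul_apply, ContinuousLinearMap.smul_apply]
  change _ = (dimR E - 2) * B Y Z + trE ((sharp g y).comp B) * g y Y Z
  ring

/-- linearity of `curly` -/
theorem lb7_curly_sub (g : E → BF E) (y : E) (A B : BF E) (X Y Z : E) :
    curly g y (A - B) X Y Z = curly g y A X Y Z - curly g y B X Y Z := by
  simp only [curly_apply, ContinuousLinearMap.sub_apply, map_sub]
  module

theorem lb7_contr_sub (R S : E →L[ℝ] E →L[ℝ] E →L[ℝ] E) (Y Z : E) :
    contr (R - S) Y Z = contr R Y Z - contr S Y Z := by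
  simp only [contr_apply]
  have h1 : (R.flip Y).flip Z = ((R - S).flip Y).flip Z + (S.flip Y).flip Z := by
    ext X
    simp
  rw [h1, trE_add, add_sub_cancel_right]

/-- the trace of a pulled back form -/
theorem IsLC.lb7_trG_pull (h : IsLC O g O' g' S f c) (hy : y ∈ S) (B : BF E) :
    trG g y (B.bilinearComp (fderiv ℝ f y) (fderiv ℝ f y)) = c y ^ 2 * trG g' (f y) B := by
  unfold trG
  rw [← trE_smul]
  symm
  refine lb7_trE_conj (L := fderiv ℝ f y) (h.bij hy) fun X => ?_
  have h1 := h.sharp_pull hy (B (fderiv ℝ f y X))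
  have h2 : (B.bilinearComp (fderiv ℝ f y) (fderiv ℝ f y)) X
      = (B (fderiv ℝ f y X)).comp (fderiv ℝ f y) := by
    ext Y
    rfl
  rw [ContinuousLinearMap.comp_apply, h2, h1, ContinuousLinearMap.smul_apply,
    ContinuousLinearMap.comp_apply]

theorem IsLC.lb7_ric_pull (h : IsLC O g O' g' S f c) (hy : y ∈ S) (Y Z : E) :
    Ric g' (f y) (fderiv ℝ f y Y) (fderiv ℝ f y Z)
      = Ric g y Y Z - ((dimR E - 2) * Stau g (tau c) y Y Z
        + trG g y (Stau g (tau c) y) * g y Y Z) := by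
  unfold Ric
  rw [contr_apply]
  have h1 : trE (((Riem g' (f y)).flip (fderiv ℝ f y Y)).flip (fderiv ℝ f y Z))
      = trE (((Riem g y - curly g y (Stau g (tau c) y)).flip Y).flip Z) := by
    refine lb7_trE_conj (L := fderiv ℝ f y) (h.bij hy) fun X => ?_
    exact h.riem_hat hy X Y Z
  rw [h1, ← contr_apply, lb7_contr_sub, h.met.contr_curly (h.sub hy)]
  rfl

theorem IsLC.lb7_pull_eq (h : IsLC O g O' g' S f c) (hD : 3 ≤ Module.finrank ℝ E) (hy : y ∈ S) :
    (Sch g' (f y)).bilinearComp (fderiv ℝ f y) (fderiv ℝ f y)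
      = Sch g y - Stau g (tau c) y := by
  have hD' : (3 : ℝ) ≤ dimR E := by
    unfold dimR
    exact_mod_cast hD
  have hyO : y ∈ O := h.sub hy
  set P1 : BF E := (Sch g' (f y)).bilinearComp (fderiv ℝ f y) (fderiv ℝ f y) with hP1
  set B : BF E := P1 - (Sch g y - Stau g (tau c) y) with hB
  have key : (dimR E - 2) • B + trG g y B • g y = 0 := by
    ext Y Z
    have h1 := h.lb7_ric_pull hy Y Z
    rw [h.met'.ric_sch hD (h.maps hy), h.met.ric_sch hD hyO] at h1
    simp only [ContinuousLinearMap.add_apply, ContinuousLinearMap.smul_apply, smul_eq_mul] at h1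
    rw [h.conf y hy Y Z] at h1
    have h2 : P1 Y Z = Sch g' (f y) (fderiv ℝ f y Y) (fderiv ℝ f y Z) := rfl
    have h3 : trG g y B = trG g y P1 - (trG g y (Sch g y) - trG g y (Stau g (tau c) y)) := by
      rw [hB, lb7_trG_sub, lb7_trG_sub]
    have h4 : trG g y P1 = c y ^ 2 * trG g' (f y) (Sch g' (f y)) := h.lb7_trG_pull hy _
    have h5 : B Y Z = P1 Y Z - (Sch g y Y Z - Stau g (tau c) y Y Z) := rfl
    simp only [ContinuousLinearMap.add_apply, ContinuousLinearMap.smul_apply, smul_eq_mul,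
      ContinuousLinearMap.zero_apply]
    rw [h3, h4, h5, h2]
    linear_combination h1
  have htr : trG g y B = 0 := by
    have h1 := congrArg (trG g y) key
    rw [lb7_trG_add, lb7_trG_smul, lb7_trG_smul, h.met.trG_g hyO] at h1
    have h2 : trG g y (0 : BF E) = 0 := by
      have := lb7_trG_sub g y (0 : BF E) 0
      rwa [sub_self, sub_self] at this
    rw [h2] at h1
    have h3 : (2 * dimR E - 2) * trG g y B = 0 := by linear_combination h1
    rcases mul_eq_zero.1 h3 with h4 | h4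
    · linarith
    · exact h4
  rw [htr, zero_smul, add_zero] at key
  rcases smul_eq_zero.1 key with h4 | h4
  · linarith
  · exact sub_eq_zero.1 h4

theorem IsLC.sch_pull (h : IsLC O g O' g' S f c) (hD : 3 ≤ Module.finrank ℝ E) (hy : y ∈ S)
    (X Y : E) :
    Sch g' (f y) (fderiv ℝ f y X) (fderiv ℝ f y Y) = Sch g y X Y - Stau g (tau c) y X Y := by
  have h1 := congrArg (fun B : BF E => B X Y) (h.lb7_pull_eq hD hy)
  exact h1

theorem IsLC.wey_pull (h : IsLC O g O' g' S f c) (hD : 3 ≤ Module.finrank ℝ E) (hy : y ∈ S)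
    (X Y Z : E) :
    Wey g' (f y) (fderiv ℝ f y X) (fderiv ℝ f y Y) (fderiv ℝ f y Z)
      = fderiv ℝ f y (Wey g y X Y Z) := by
  have h0 : ∀ W : E, fderiv ℝ f y (sharp g y ((Sch g y - Stau g (tau c) y) W))
      = c y ^ 2 • sharp g' (f y) (Sch g' (f y) (fderiv ℝ f y W)) := by
    intro W
    rw [← h.sharp_pull hy, ← h.lb7_pull_eq hD hy]
    rfl
  have h1 : curly g' (f y) (Sch g' (f y)) (fderiv ℝ f y X) (fderiv ℝ f y Y) (fderiv ℝ f y Z)
      = fderiv ℝ f y (curly g y (Sch g y - Stau g (tau c) y) X Y Z) := by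
    rw [curly_apply, curly_apply, map_sub, map_add, map_sub, map_smul, map_smul, map_smul,
      map_smul, h0, h0, h.sch_pull hD hy, h.sch_pull hD hy, h.conf y hy, h.conf y hy]
    simp only [ContinuousLinearMap.sub_apply]
    module
  have h2 : Wey g' (f y) (fderiv ℝ f y X) (fderiv ℝ f y Y) (fderiv ℝ f y Z)
      = Riem g' (f y) (fderiv ℝ f y X) (fderiv ℝ f y Y) (fderiv ℝ f y Z)
        - curly g' (f y) (Sch g' (f y)) (fderiv ℝ f y X) (fderiv ℝ f y Y) (fderiv ℝ f y Z) := rfl
  have h3 : Wey g y X Y Z = Riem g y X Y Z - curly g y (Sch g y) X Y Z := rfl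
  rw [h2, h3, h.riem_hat hy, h1, lb7_curly_sub, ← map_sub]
  congr 1
  abel

end Pool.Agent.EG

end

end M_LB7

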