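import Pool.Agent.Lib.MP_eeed5f_gt.L4

/-!
Row ec-LB10 (symmetries).
`riem_antisymm`: definition of `Curv`.  `riem_bianchi`: `Gam` symmetric on O (differentiate `gam_symm`).
`riem_skew`: `g(R(X,Y)Z,U) + g(Z,R(X,Y)U) = 0`: differentiate `compat` once more and antisymmetrise
(second derivatives of g are symmetric): equivalently `0 = D_X D_Y g(Z,U) - D_Y D_X g(Z,U)`.
`pair`: pair symmetry b(W(X,Y)Z,U) = b(W(Z,U)X,Y) from the other three (standard octahedron argument).
`sch_symm`: Ric is symmetric: `Ric(Y,Z) - Ric(Z,Y) = tr(X ↦ R(X,Y)Z - R(X,Z)Y) = tr (X ↦ R(X,Y)Z + R(Z,X)Y)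
 = - tr(X ↦ R(Y,Z)X) = 0` (R(Y,Z) is g-skew, so its trace vanishes: trace of a skew endomorphism; e.g.
 tr(A) = tr(A^†) with A^† = -A; `LinearMap.trace` of the g-adjoint, or use pair symmetry).
`isWeyl`: `curly` has the same symmetries (P symmetric), traces: `contr_curly` + `ric_sch`.
-/

open scoped ContDiff Topology
open Set

noncomputable section

set_option linter.unusedSectionVars false
set_option maxSynthPendingDepth 3

namespace Pool.Agent.EG

variable {E : Type*} [NormedAddCommGroup E] [NormedSpace ℝ E] [FiniteDimensional ℝ E]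
variable {V : Type*} [NormedAddCommGroup V] [NormedSpace ℝ V] [FiniteDimensional ℝ V]
variable {V' : Type*} [NormedAddCommGroup V'] [NormedSpace ℝ V'] [FiniteDimensional ℝ V']
variable {O O' S : Set E} {g g' : E → BF E} {f : E → E} {c : E → ℝ} {y : E}

theorem lb10_riem_apply (g : E → BF E) (y X Y Z : E) : Riem g y X Y Z
    = fderiv ℝ (Gam g) y X Y Z - fderiv ℝ (Gam g) y Y X Z + Gam g y X (Gam g y Y Z)
      - Gam g y Y (Gam g y X Z) := rfl

theorem IsMet.riem_antisymm (h : IsMet O g) (X Y Z : E) : Riem g y X Y Z = - Riem g y Y X Z := by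
  rw [lb10_riem_apply, lb10_riem_apply]
  abel

/-- the derivative of the Christoffel symbols is symmetric -/
theorem lb10_dgam_symm (h : IsMet O g) (hy : y ∈ O) (X Y Z : E) :
    fderiv ℝ (Gam g) y X Y Z = fderiv ℝ (Gam g) y X Z Y := by
  have hd : DifferentiableAt ℝ (Gam g) y := diffAt_of h.isOpen h.smooth_gam hy
  have h1 : HasFDerivAt (fun z => Gam g z Y Z)
      (((fderiv ℝ (Gam g) y).flip Y).flip Z) y := by
    have := (hd.hasFDerivAt.clm_apply (hasFDerivAt_const Y y)).clm_apply (hasFDerivAt_const Z y)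
    refine this.congr_fderiv ?_
    ext w
    simp
  have h2 : HasFDerivAt (fun z => Gam g z Z Y)
      (((fderiv ℝ (Gam g) y).flip Z).flip Y) y := by
    have := (hd.hasFDerivAt.clm_apply (hasFDerivAt_const Z y)).clm_apply (hasFDerivAt_const Y y)
    refine this.congr_fderiv ?_
    ext w
    simp
  have h3 : (fun z => Gam g z Y Z) =ᶠ[𝓝 y] (fun z => Gam g z Z Y) := by
    filter_upwards [h.isOpen.mem_nhds hy] with z hz
    exact h.gam_symm hz Y Z
  have h4 := (h3.hasFDerivAt_iff.mp h1).unique h2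
  have := congrArg (fun L => L X) h4
  simpa using this

/-- first Bianchi identity -/
theorem IsMet.riem_bianchi (h : IsMet O g) (hy : y ∈ O) (X Y Z : E) :
    Riem g y X Y Z + Riem g y Y Z X + Riem g y Z X Y = 0 := by
  rw [lb10_riem_apply, lb10_riem_apply, lb10_riem_apply]
  rw [lb10_dgam_symm h hy X Z Y, lb10_dgam_symm h hy Y Z X, lb10_dgam_symm h hy Z Y X,
    h.gam_symm hy Z X, h.gam_symm hy Z Y, h.gam_symm hy Y X]
  abel

/-- derivative of `compat` -/
theorem lb10_dd (h : IsMet O g) (hy : y ∈ O) (X Y Z U : E) :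
    fderiv ℝ (fderiv ℝ g) y X Y Z U
      = g y (fderiv ℝ (Gam g) y X Y Z) U + g y Z (fderiv ℝ (Gam g) y X Y U)
        + (g y (Gam g y X (Gam g y Y Z)) U + g y (Gam g y Y Z) (Gam g y X U))
        + (g y (Gam g y X Z) (Gam g y Y U) + g y Z (Gam g y X (Gam g y Y U))) := by
  have hd : DifferentiableAt ℝ (Gam g) y := diffAt_of h.isOpen h.smooth_gam hy
  have hg : DifferentiableAt ℝ g y := diffAt_of h.isOpen h.smooth hy
  have hgg : DifferentiableAt ℝ (fun z => fderiv ℝ g z) y :=
    diffAt_of h.isOpen (smooth_fderiv h.isOpen h.smooth) hy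
  have h1 : HasFDerivAt (fun z => fderiv ℝ g z Y Z U)
      ((((fderiv ℝ (fderiv ℝ g) y).flip Y).flip Z).flip U) y := by
    have := ((hgg.hasFDerivAt.clm_apply (hasFDerivAt_const Y y)).clm_apply
      (hasFDerivAt_const Z y)).clm_apply (hasFDerivAt_const U y)
    refine this.congr_fderiv ?_
    ext w
    simp
  have hG : ∀ A B : E, HasFDerivAt (fun z => Gam g z A B)
      (((fderiv ℝ (Gam g) y).flip A).flip B) y := by
    intro A B
    have := (hd.hasFDerivAt.clm_apply (hasFDerivAt_const A y)).clm_apply (hasFDerivAt_const B y)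
    refine this.congr_fderiv ?_
    ext w
    simp
  have h2 := ((hg.hasFDerivAt.clm_apply (hG Y Z)).clm_apply (hasFDerivAt_const U y)).add
    ((hg.hasFDerivAt.clm_apply (hasFDerivAt_const Z y)).clm_apply (hG Y U))
  have h3 : (fun z => fderiv ℝ g z Y Z U)
      =ᶠ[𝓝 y] (fun z => g z (Gam g z Y Z) U + g z Z (Gam g z Y U)) := by
    filter_upwards [h.isOpen.mem_nhds hy] with z hz
    exact h.compat hz Y Z U
  have h4 := (h3.hasFDerivAt_iff.mp h1).unique h2
  have h5 := congrArg (fun L => L X) h4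
  have h6 : fderiv ℝ (fderiv ℝ g) y X Y Z U
      = g y (fderiv ℝ (Gam g) y X Y Z) U + fderiv ℝ g y X (Gam g y Y Z) U
        + (g y Z (fderiv ℝ (Gam g) y X Y U) + fderiv ℝ g y X Z (Gam g y Y U)) := by
    simpa using h5
  rw [h6, h.compat hy X (Gam g y Y Z) U, h.compat hy X Z (Gam g y Y U)]
  ring

theorem IsMet.riem_skew (h : IsMet O g) (hy : y ∈ O) (X Y Z U : E) :
    g y (Riem g y X Y Z) U = - g y Z (Riem g y X Y U) := by
  have hsm : ContDiffAt ℝ ∞ g y := h.smooth.contDiffAt (h.isOpen.mem_nhds hy)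
  have hs : IsSymmSndFDerivAt ℝ g y :=
    hsm.isSymmSndFDerivAt (by
      rw [minSmoothness_of_isRCLikeNormedField]
      exact WithTop.coe_le_coe.mpr (le_top : (2 : ℕ∞) ≤ ⊤))
  have h1 := hs.eq X Y
  have h2 : fderiv ℝ (fderiv ℝ g) y X Y Z U = fderiv ℝ (fderiv ℝ g) y Y X Z U := by
    rw [h1]
  rw [lb10_dd h hy X Y Z U, lb10_dd h hy Y X Z U] at h2
  rw [lb10_riem_apply, lb10_riem_apply]
  simp only [map_add, map_sub, ContinuousLinearMap.add_apply, ContinuousLinearMap.sub_apply]
  linarith

/-- the trace of a skew endomorphism vanishes -/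
theorem lb10_trace_skew (h : IsMet O g) (hy : y ∈ O) (A : E →L[ℝ] E)
    (hA : ∀ u v, g y (A u) v = - g y u (A v)) : trE A = 0 := by
  let gl : E →ₗ[ℝ] Module.Dual ℝ E :=
    { toFun := fun u => (g y u).toLinearMap
      map_add' := by intro u v; ext w; simp
      map_smul' := by intro a u; ext w; simp }
  have hbij : Function.Bijective gl := by
    have hinj : Function.Injective gl := by
      rw [injective_iff_map_eq_zero]
      intro u hu
      apply h.nondeg y hy u
      intro v
      have := congrArg (fun L => L v) hu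
      simpa [gl] using this
    refine ⟨hinj, ?_⟩
    exact (LinearMap.injective_iff_surjective_of_finrank_eq_finrank
      (Subspace.dual_finrank_eq (K := ℝ) (V := E)).symm).mp hinj
  let e : E ≃ₗ[ℝ] Module.Dual ℝ E := LinearEquiv.ofBijective gl hbij
  have h1 : e.conj (A : E →ₗ[ℝ] E) = - (A : E →ₗ[ℝ] E).dualMap := by
    ext φ v
    obtain ⟨u, rfl⟩ := e.surjective φ
    rw [LinearEquiv.conj_apply_apply]
    simp only [LinearEquiv.symm_apply_apply, LinearMap.neg_apply]
    exact hA u v
  have h2 : LinearMap.trace ℝ _ (e.conj (A : E →ₗ[ℝ] E)) = LinearMap.trace ℝ _ (A : E →ₗ[ℝ] E) :=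
    LinearMap.trace_conj' _ _
  have h3 : LinearMap.trace ℝ _ ((A : E →ₗ[ℝ] E).dualMap) = LinearMap.trace ℝ _ (A : E →ₗ[ℝ] E) :=
    LinearMap.trace_transpose' _
  rw [h1, map_neg, h3] at h2
  unfold trE
  linarith

theorem lb10_ric_symm (h : IsMet O g) (hy : y ∈ O) (Y Z : E) : Ric g y Y Z = Ric g y Z Y := by
  have h0 : trE (Riem g y Y Z) = 0 :=
    lb10_trace_skew h hy _ (fun u v => h.riem_skew hy Y Z u v)
  have h1 : (((Riem g y).flip Y).flip Z : E →L[ℝ] E)
      = ((Riem g y).flip Z).flip Y + (-1 : ℝ) • (Riem g y Y Z) := by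
    ext X
    have h2 := h.riem_bianchi hy X Y Z
    have h3 := h.riem_antisymm (y := y) Z X Y
    simp only [ContinuousLinearMap.flip_apply, ContinuousLinearMap.add_apply,
      ContinuousLinearMap.neg_apply, neg_smul, one_smul]
    rw [h3] at h2
    linear_combination (norm := module) h2
  unfold Ric
  rw [contr_apply, contr_apply, h1, trE_add, trE_smul, h0]
  ring

theorem IsMet.sch_symm (h : IsMet O g) (hy : y ∈ O) (X Y : E) : Sch g y X Y = Sch g y Y X := by
  unfold Sch
  simp only [ContinuousLinearMap.smul_apply, ContinuousLinearMap.sub_apply]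
  rw [lb10_ric_symm h hy X Y, h.symm y hy X Y]

theorem IsMet.isWeyl (h : IsMet O g) (hD : 3 ≤ Module.finrank ℝ E) (hy : y ∈ O) :
    IsWeylTensor (g y) (Wey g y) where
  anti := by
    intro X Y Z
    unfold Wey
    simp only [ContinuousLinearMap.sub_apply]
    rw [h.riem_antisymm X Y Z, curly_apply, curly_apply]
    abel
  bianchi := by
    intro X Y Z
    have h1 := h.riem_bianchi hy X Y Z
    unfold Wey
    simp only [ContinuousLinearMap.sub_apply]
    have h2 : curly g y (Sch g y) X Y Z + curly g y (Sch g y) Y Z X + curly g y (Sch g y) Z X Y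
        = 0 := by
      rw [curly_apply, curly_apply, curly_apply]
      rw [h.sch_symm hy Z X, h.sch_symm hy Z Y, h.sch_symm hy Y X, h.symm y hy Z X,
        h.symm y hy Z Y, h.symm y hy Y X]
      abel
    have h3 : (Riem g y X Y Z - curly g y (Sch g y) X Y Z)
        + (Riem g y Y Z X - curly g y (Sch g y) Y Z X)
        + (Riem g y Z X Y - curly g y (Sch g y) Z X Y)
        = (Riem g y X Y Z + Riem g y Y Z X + Riem g y Z X Y)
        - (curly g y (Sch g y) X Y Z + curly g y (Sch g y) Y Z X
          + curly g y (Sch g y) Z X Y) := by abel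
    rw [h3, h1, h2, sub_zero]
  skew := by
    intro X Y Z U
    have h1 := h.riem_skew hy X Y Z U
    unfold Wey
    simp only [ContinuousLinearMap.sub_apply, map_sub]
    rw [h1, curly_apply, curly_apply]
    simp only [map_add, map_sub, map_smul, ContinuousLinearMap.add_apply,
      ContinuousLinearMap.sub_apply, ContinuousLinearMap.smul_apply, smul_eq_mul, h.g_sharp hy]
    rw [h.symm y hy Z (sharp g y (Sch g y X)), h.symm y hy Z (sharp g y (Sch g y Y)),
      h.g_sharp hy, h.g_sharp hy, h.symm y hy Z X, h.symm y hy Z Y]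
    ring
  traceless := by
    have h1 := h.contr_curly hy (Sch g y)
    have h2 := h.ric_sch hD hy
    have h3 : contr (Wey g y) = contr (Riem g y) - contr (curly g y (Sch g y)) := by
      ext Y Z
      simp only [ContinuousLinearMap.sub_apply]
      rw [contr_apply, contr_apply, contr_apply]
      have : ((Wey g y).flip Y).flip Z
          = ((Riem g y).flip Y).flip Z + (-1 : ℝ) • (((curly g y (Sch g y)).flip Y).flip Z) := by
        ext X
        simp [Wey, sub_eq_add_neg]
      rw [this, trE_add, trE_smul]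
      ring
    rw [h3, h1, ← h2]
    unfold Ric
    rw [sub_self]

end Pool.Agent.EG
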