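import Pool.Agent.Lib.MP_eeed5f_gt.L2
import Pool.Agent.Lib.MP_eeed5f_gt.L5
import Pool.Agent.Lib.MP_eeed5f_gt.L6
import Pool.Agent.Lib.MP_eeed5f_gt.A2
import Pool.Agent.Lib.MP_eeed5f_gt.L4

section M_LB9

/-!
Row ec-LB9 ((B6): curvature of the tractor connection), F = Curv (At g) y X Y on s = (σ,Z,ρ):
F = D_X A(Y) - D_Y A(X) + [A(X),A(Y)].
comp 1: -D_Xg(Y,Z)+D_Yg(X,Z) - g(X,Γ(Y,Z)+σP^#Y+ρY) + g(Y,Γ(X,Z)+σP^#X+ρX) = 0 (compat, gam_symm, P symmetric).
comp 2: R(X,Y)Z + σ[(D_X P^#)Y + Γ(X,P^#Y) - (D_Y P^#)X - Γ(Y,P^#X)] - g(Y,Z)P^#X + g(X,Z)P^#Y - P(Y,Z)X + P(X,Z)Y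
        = W(X,Y)Z + σ ((∇_X P)(Y) - (∇_Y P)(X))^#   (pair with a vector, `nab_sharp` for t = P(·)(Y)).
comp 3: -D_XP(Y,Z)+D_YP(X,Z) - P(X,Γ(Y,Z)+σP^#Y+ρY) + P(Y,Γ(X,Z)+σP^#X+ρX) = -Cot(X,Y)(Z).
`tractor_flat`: if W = 0 and Cot = 0 at y then the curvature vanishes at y.
`cot_pull`: if `Wey g y = 0`, `Wey g' (f y) = 0`: apply `gauge` with H = Hm, A = At g, A' = At g' (hD = `IsLC.tractor`; this
last statement is in LB11, not here).
-/

open scoped ContDiff Topology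
open Set

noncomputable section

set_option linter.unusedSectionVars false
set_option maxSynthPendingDepth 3

namespace Pool.Agent.EG

variable {E : Type*} [NormedAddCommGroup E] [NormedSpace ℝ E] [FiniteDimensional ℝ E]
variable {V : Type*} [NormedAddCommGroup V] [NormedSpace ℝ V] [FiniteDimensional ℝ V]
variable {V' : Type*} [NormedAddCommGroup V'] [NormedSpace ℝ V'] [FiniteDimensional ℝ V']
variable {O O' S : Set E} {g g' : E → BF E} {f : E → E} {c : E → ℝ} {y : E}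

theorem lb9_eval {F K : Type*} [NormedAddCommGroup F] [NormedSpace ℝ F] [NormedAddCommGroup K]
    [NormedSpace ℝ K] {A : E → F →L[ℝ] K} (hA : DifferentiableAt ℝ A y) (u : F) :
    HasFDerivAt (fun z => A z u) ((fderiv ℝ A y).flip u) y := by
  have h := hA.hasFDerivAt.clm_apply (hasFDerivAt_const u y)
  refine h.congr_fderiv ?_
  ext X
  simp

theorem lb9_eval2 {F G K : Type*} [NormedAddCommGroup F] [NormedSpace ℝ F]
    [NormedAddCommGroup G] [NormedSpace ℝ G] [NormedAddCommGroup K]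
    [NormedSpace ℝ K] {A : E → F →L[ℝ] G →L[ℝ] K} (hA : DifferentiableAt ℝ A y) (u : F) (v : G) :
    HasFDerivAt (fun z => A z u v) (((fderiv ℝ A y).flip u).flip v) y := by
  have h := (lb9_eval hA u).clm_apply (hasFDerivAt_const v y)
  refine h.congr_fderiv ?_
  ext X
  simp

/-- the derivative of `z ↦ P^# Y` -/
def lb9_dps (g : E → BF E) (y Y : E) : E →L[ℝ] E := fderiv ℝ (fun z => sharp g z (Sch g z Y)) y

theorem IsMet.lb9_ps (h : IsMet O g) (hy : y ∈ O) (Y : E) :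
    HasFDerivAt (fun z => sharp g z (Sch g z Y)) (lb9_dps g y Y) y := by
  have h1 : DifferentiableAt ℝ (sharp g) y := diffAt_of h.isOpen h.smooth_sharp hy
  have h2 : DifferentiableAt ℝ (Sch g) y := diffAt_of h.isOpen h.smooth_sch hy
  exact (h1.clm_apply (lb9_eval h2 Y).differentiableAt).hasFDerivAt

theorem IsMet.lb9_pair (h : IsMet O g) (hy : y ∈ O) (X Y U : E) :
    g y (lb9_dps g y Y X) U
      = fderiv ℝ (Sch g) y X Y U - fderiv ℝ g y X (sharp g y (Sch g y Y)) U := by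
  have hg : DifferentiableAt ℝ g y := diffAt_of h.isOpen h.smooth hy
  have h2 : DifferentiableAt ℝ (Sch g) y := diffAt_of h.isOpen h.smooth_sch hy
  have e1 := (hg.hasFDerivAt.clm_apply (h.lb9_ps hy Y)).clm_apply (hasFDerivAt_const U y)
  have e2 := lb9_eval2 h2 Y U
  have e3 : (fun z => g z (sharp g z (Sch g z Y)) U) =ᶠ[𝓝 y] fun z => Sch g z Y U := by
    filter_upwards [h.isOpen.mem_nhds hy] with z hz
    rw [h.g_sharp hz]
  have e4 := (e1.congr_of_eventuallyEq e3.symm).unique e2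
  have e5 := congrArg (fun L : E →L[ℝ] ℝ => L X) e4
  simp at e5
  linarith

theorem IsMet.lb9_dAt (h : IsMet O g) (hy : y ∈ O) (X Y : E) (s : Tr E) :
    fderiv ℝ (At g) y X Y s = ((- fderiv ℝ g y X Y s.2.1,
      fderiv ℝ (Gam g) y X Y s.2.1 + s.1 • lb9_dps g y Y X,
      - fderiv ℝ (Sch g) y X Y s.2.1) : Tr E) := by
  have hg : DifferentiableAt ℝ g y := diffAt_of h.isOpen h.smooth hy
  have h2 : DifferentiableAt ℝ (Sch g) y := diffAt_of h.isOpen h.smooth_sch hy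
  have h3 : DifferentiableAt ℝ (Gam g) y := diffAt_of h.isOpen h.smooth_gam hy
  have h4 : DifferentiableAt ℝ (At g) y := diffAt_of h.isOpen h.smooth_At hy
  have e1 := lb9_eval2 h4 Y s
  have e2 := (lb9_eval2 hg Y s.2.1).neg.prodMk
    ((((lb9_eval2 h3 Y s.2.1).add ((h.lb9_ps hy Y).const_smul s.1)).add
      (hasFDerivAt_const (s.2.2 • Y) y)).prodMk (lb9_eval2 h2 Y s.2.1).neg)
  have e3 := e1.unique e2
  have e5 := congrArg (fun L : E →L[ℝ] Tr E => L X) e3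
  refine e5.trans ?_
  refine Prod.ext ?_ (Prod.ext ?_ ?_)
  · simp
  · simp
  · simp

theorem IsMet.tractor_curv (h : IsMet O g) (hD : 3 ≤ Module.finrank ℝ E) (hy : y ∈ O) (X Y : E)
    (s : Tr E) :
    (Curv (At g) y X Y s).1 = 0 ∧
    (∀ Z, g y (Curv (At g) y X Y s).2.1 Z
      = g y (Wey g y X Y s.2.1) Z + s.1 * Cot g y X Y Z) ∧
    (Curv (At g) y X Y s).2.2 = - Cot g y X Y s.2.1 := by
  obtain ⟨σ, Z, ρ⟩ := s
  have hGs := h.gam_symm hy Y X
  have hPs := h.sch_symm hy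
  have hgs := h.symm y hy
  have hsh : ∀ X Y, g y (sharp g y (Sch g y Y)) X = Sch g y Y X := fun X Y => by
    rw [h.g_sharp hy]
  have e : Curv (At g) y X Y (σ, Z, ρ) = fderiv ℝ (At g) y X Y (σ, Z, ρ)
      - fderiv ℝ (At g) y Y X (σ, Z, ρ) + At g y X (At g y Y (σ, Z, ρ))
      - At g y Y (At g y X (σ, Z, ρ)) := rfl
  rw [e, h.lb9_dAt hy, h.lb9_dAt hy, At_apply, At_apply, At_apply, At_apply]
  refine ⟨?_, fun U => ?_, ?_⟩
  · simp only [Prod.fst_sub, Prod.fst_add, map_add, map_smul, smul_eq_mul]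
    rw [h.compat hy, h.compat hy, hGs, hgs X (sharp g y (Sch g y Y)),
      hgs Y (sharp g y (Sch g y X)), hsh, hsh, hPs Y X, hgs Y X]
    ring
  · have hW : Wey g y X Y Z = Riem g y X Y Z - curly g y (Sch g y) X Y Z := rfl
    have hR : Riem g y X Y Z = fderiv ℝ (Gam g) y X Y Z - fderiv ℝ (Gam g) y Y X Z
      + Gam g y X (Gam g y Y Z) - Gam g y Y (Gam g y X Z) := rfl
    have hC : Cot g y X Y U = fderiv ℝ (Sch g) y X Y U - Sch g y (Gam g y X Y) U
      - Sch g y Y (Gam g y X U) - (fderiv ℝ (Sch g) y Y X U - Sch g y (Gam g y Y X) U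
      - Sch g y X (Gam g y Y U)) := rfl
    have p1 := h.lb9_pair hy X Y U
    have p2 := h.lb9_pair hy Y X U
    rw [h.compat hy, hsh] at p1 p2
    rw [hW, hR, hC, curly_apply, hGs]
    simp only [Prod.fst_sub, Prod.fst_add, Prod.snd_sub, Prod.snd_add, map_add, map_sub, map_smul,
      ContinuousLinearMap.add_apply, ContinuousLinearMap.sub_apply,
      ContinuousLinearMap.smul_apply, smul_eq_mul, p1, p2, hGs, hsh]
    ring
  · have hC : Cot g y X Y Z = fderiv ℝ (Sch g) y X Y Z - Sch g y (Gam g y X Y) Z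
      - Sch g y Y (Gam g y X Z) - (fderiv ℝ (Sch g) y Y X Z - Sch g y (Gam g y Y X) Z
      - Sch g y X (Gam g y Y Z)) := rfl
    rw [hC, hGs]
    simp only [Prod.snd_sub, Prod.snd_add, map_add, map_smul, smul_eq_mul]
    rw [h.sharp_symm hy (Sch g y Y) (Sch g y X), hPs Y X]
    ring

theorem IsMet.tractor_flat (h : IsMet O g) (hD : 3 ≤ Module.finrank ℝ E) (hy : y ∈ O)
    (hW : Wey g y = 0) (hC : ∀ X Y Z, Cot g y X Y Z = 0) : Curv (At g) y = 0 := by
  refine ContinuousLinearMap.ext fun X => ContinuousLinearMap.ext fun Y =>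
    ContinuousLinearMap.ext fun s => ?_
  obtain ⟨h1, h2, h3⟩ := h.tractor_curv hD hy X Y s
  refine Prod.ext h1 (Prod.ext ?_ ?_)
  · refine h.eq_of_g hy fun U => ?_
    rw [h2 U, hW, hC]
    simp
  · rw [h3, hC]
    simp

end Pool.Agent.EG

end

end M_LB9

section M_LB11

/-!
Row ec-LB11 (Cotton tensor under conformal maps when W = 0).
Apply `gauge` with `H = Hm g f c`, `A = At g`, `A' = At g'`, hD = `IsLC.tractor` (all y ∈ S), to get
`F'(LX,LY) H = H F(X,Y)`.  Evaluate on s = (0,Z,0): `H s = (0, c⁻¹LZ, -c⁻¹τ(Z))`; third component: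
left `-Cot'(LX,LY)(c⁻¹LZ)` (tractor_curv at f y), right: `F s = (0, v, -Cot(X,Y)(Z))` with `g(v,·) = g(W(X,Y)Z,·) = 0` so
`v = 0`, and `H(0,0,r) = (0,0,c⁻¹r)`.  (Cot is linear in the last slot: add a lemma.)
-/

open scoped ContDiff Topology
open Set

noncomputable section

set_option linter.unusedSectionVars false
set_option maxSynthPendingDepth 3

namespace Pool.Agent.EG

variable {E : Type*} [NormedAddCommGroup E] [NormedSpace ℝ E] [FiniteDimensional ℝ E]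
variable {V : Type*} [NormedAddCommGroup V] [NormedSpace ℝ V] [FiniteDimensional ℝ V]
variable {V' : Type*} [NormedAddCommGroup V'] [NormedSpace ℝ V'] [FiniteDimensional ℝ V']
variable {O O' S : Set E} {g g' : E → BF E} {f : E → E} {c : E → ℝ} {y : E}

theorem Cot_smul (r : ℝ) (X Y Z : E) : Cot g y X Y (r • Z) = r * Cot g y X Y Z := by
  unfold Cot nabB
  simp only [map_smul, smul_eq_mul]
  ring

theorem IsLC.cot_pull (h : IsLC O g O' g' S f c) (hD : 3 ≤ Module.finrank ℝ E) (hy : y ∈ S)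
    (hW : Wey g y = 0) (X Y Z : E) :
    Cot g' (f y) (fderiv ℝ f y X) (fderiv ℝ f y Y) (fderiv ℝ f y Z) = Cot g y X Y Z := by
  have hyO : y ∈ O := h.sub hy
  have hc : c y ≠ 0 := (h.pos y hy).ne'
  have hg := gauge (H := Hm g f c) (A := At g) (A' := At g') h.met.isOpen h.met'.isOpen h.isOpen
    h.sub h.met.smooth_At h.met'.smooth_At h.smooth_f h.maps h.smooth_Hm
    (fun z hz W => h.tractor hD hz W) hy X Y
  set s : Tr E := (0, Z, 0) with hs
  have h1 : Curv (At g') (f y) (fderiv ℝ f y X) (fderiv ℝ f y Y) (Hm g f c y s) =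
      Hm g f c y (Curv (At g) y X Y s) := DFunLike.congr_fun hg s
  have h2 := (h.met'.tractor_curv hD (h.maps hy) (fderiv ℝ f y X) (fderiv ℝ f y Y)
    (Hm g f c y s)).2.2
  obtain ⟨h3, h4, h5⟩ := h.met.tractor_curv hD hyO X Y s
  have h6 : (Curv (At g) y X Y s).2.1 = 0 := by
    apply h.met.nondeg y hyO
    intro v
    rw [h4 v, hW]
    simp [hs]
  have h7 : (Hm g f c y s).2.1 = (c y)⁻¹ • fderiv ℝ f y Z := by
    rw [Hm_apply]
    simp [hs]
  rw [h7, Cot_smul, h1, Hm_apply] at h2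
  simp only [h3, h5, h6, map_zero, sub_zero, mul_zero] at h2
  have h8 : s.2.1 = Z := rfl
  rw [h8] at h2
  have h9 : (c y)⁻¹ * (Cot g y X Y Z -
      Cot g' (f y) (fderiv ℝ f y X) (fderiv ℝ f y Y) (fderiv ℝ f y Z)) = 0 := by
    linarith
  rcases mul_eq_zero.mp h9 with h10 | h10
  · exact absurd h10 (inv_ne_zero hc)
  · linarith

end Pool.Agent.EG

end

end M_LB11

section M_MB2

/-!
Row ec-MB2 (box inequality and lower bound; paper M2, M3).
`pos_unif`: K ⊂ O compact, g, T continuous on O, IsLor (g y) (T y): there is κ > 0 with κ‖u‖² ≤ g_y(u,u) for y ∈ K, g_y(T_y,u)=0.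
 (compact set {(y,u) : y ∈ K, ‖u‖ = 1, g_y(T_y,u) = 0}, the continuous function g_y(u,u) is > 0 on it; homogeneity.)
`box_ineq`: v null, ≠ 0, u ⟂ v: put u'' = u - (g(T,u)/g(T,v)) v (g(T,v) ≠ 0: null_ne): g(T,u'')=0, g(u'',u'')=g(u,u),
 W u'' v v = W u v v (anti: W v v v = 0) and g(W u v v, v) = -g(v, W u v v)... = 0 (skew: g(W u v v,v) = -g(v,W u v v), so it is 0), hence
 g(W u v v,u) = g(W u'' v v,u''), |.| ≤ ‖g‖ ‖W‖ ‖v‖² ‖u''‖² ≤ ‖g‖‖W‖‖v‖² g(u,u)/κ.
`lower`: f LC map: by wey_pull g'(W'(Lu,Lv)Lv,Lu) = g'(L W(u,v)v, Lu) = c² g(W(u,v)v,u), g'(Lu,Lu) = c² g(u,u), Lv null ≠ 0, Lu ⟂ Lv.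
-/

open scoped ContDiff Topology
open Set

noncomputable section

set_option linter.unusedSectionVars false
set_option maxSynthPendingDepth 3

namespace Pool.Agent.EG

variable {E : Type*} [NormedAddCommGroup E] [NormedSpace ℝ E] [FiniteDimensional ℝ E]
variable {V : Type*} [NormedAddCommGroup V] [NormedSpace ℝ V] [FiniteDimensional ℝ V]
variable {V' : Type*} [NormedAddCommGroup V'] [NormedSpace ℝ V'] [FiniteDimensional ℝ V']
variable {O O' S : Set E} {g g' : E → BF E} {f : E → E} {c : E → ℝ} {y : E}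

variable {T T' : E → E}

theorem mb2_compact (h : IsMet O g) (hT : ContinuousOn T O) {K : Set E} (hK : IsCompact K)
    (hKO : K ⊆ O) :
    IsCompact {q : E × E | q ∈ K ×ˢ Metric.sphere (0 : E) 1 ∧ g q.1 (T q.1) q.2 = 0} := by
  have hc : IsCompact (K ×ˢ Metric.sphere (0 : E) 1) := hK.prod (isCompact_sphere _ _)
  have hg : ContinuousOn (fun q : E × E => g q.1) (K ×ˢ Metric.sphere (0 : E) 1) :=
    h.smooth.continuousOn.comp continuousOn_fst fun q hq => hKO hq.1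
  have hT' : ContinuousOn (fun q : E × E => T q.1) (K ×ˢ Metric.sphere (0 : E) 1) :=
    hT.comp continuousOn_fst fun q hq => hKO hq.1
  have hF : ContinuousOn (fun q : E × E => g q.1 (T q.1) q.2) (K ×ˢ Metric.sphere (0 : E) 1) :=
    (hg.clm_apply hT').clm_apply continuousOn_snd
  have hcl := hF.preimage_isClosed_of_isClosed hc.isClosed (isClosed_singleton (x := (0 : ℝ)))
  exact hc.of_isClosed_subset hcl fun q hq => hq.1

theorem mb2_kappa (h : IsMet O g) (hT : ContinuousOn T O) (hL : ∀ y ∈ O, IsLor (g y) (T y))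
    {K : Set E} (hK : IsCompact K) (hKO : K ⊆ O) :
    ∃ κ > 0, ∀ y ∈ K, ∀ u, ‖u‖ = 1 → g y (T y) u = 0 → κ ≤ g y u u := by
  by_cases hne : {q : E × E | q ∈ K ×ˢ Metric.sphere (0 : E) 1 ∧ g q.1 (T q.1) q.2 = 0}.Nonempty
  · have hg : ContinuousOn (fun q : E × E => g q.1)
        {q : E × E | q ∈ K ×ˢ Metric.sphere (0 : E) 1 ∧ g q.1 (T q.1) q.2 = 0} :=
      h.smooth.continuousOn.comp continuousOn_fst fun q hq => hKO hq.1.1
    have hF := (hg.clm_apply continuousOn_snd).clm_apply continuousOn_snd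
    obtain ⟨q, hq, hm⟩ := (mb2_compact h hT hK hKO).exists_isMinOn hne hF
    refine ⟨g q.1 q.2 q.2, (hL q.1 (hKO hq.1.1)).pos q.2 ?_ hq.2, fun y hy u hu h0 => ?_⟩
    · intro hz
      have h1 := hq.1.2
      rw [hz] at h1
      simp at h1
    · exact hm (show ((y, u) : E × E) ∈ {q : E × E | q ∈ K ×ˢ Metric.sphere (0 : E) 1 ∧
        g q.1 (T q.1) q.2 = 0} from ⟨⟨hy, by simpa using hu⟩, h0⟩)
  · refine ⟨1, one_pos, fun y hy u hu h0 => ?_⟩
    exact absurd ⟨((y, u) : E × E), ⟨⟨hy, by simpa using hu⟩, h0⟩⟩ hne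

theorem pos_unif (h : IsMet O g) (hT : ContinuousOn T O) (hL : ∀ y ∈ O, IsLor (g y) (T y))
    {K : Set E} (hK : IsCompact K) (hKO : K ⊆ O) :
    ∃ κ > 0, ∀ y ∈ K, ∀ u, g y (T y) u = 0 → κ * ‖u‖ ^ 2 ≤ g y u u := by
  obtain ⟨κ, h0, hκ⟩ := mb2_kappa h hT hL hK hKO
  refine ⟨κ, h0, fun y hy u hu => ?_⟩
  by_cases hz : u = 0
  · simp [hz]
  have hn : 0 < ‖u‖ := norm_pos_iff.2 hz
  have h1 := hκ y hy (‖u‖⁻¹ • u) (by
    rw [norm_smul, norm_inv, norm_norm, inv_mul_cancel₀ hn.ne']) (by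
    rw [map_smul, hu, smul_zero])
  simp only [map_smul, ContinuousLinearMap.smul_apply, smul_eq_mul] at h1
  rw [← mul_assoc] at h1
  have h2 := mul_le_mul_of_nonneg_right h1 (sq_nonneg ‖u‖)
  have h3 : ‖u‖⁻¹ * ‖u‖⁻¹ * g y u u * ‖u‖ ^ 2 = g y u u := by
    field_simp
  rwa [h3] at h2

theorem box_ineq (h : IsMet O g) (hT : ContinuousOn T O) (hL : ∀ y ∈ O, IsLor (g y) (T y))
    {K : Set E} (hK : IsCompact K) (hKO : K ⊆ O) :
    ∃ C > 0, ∀ y ∈ K, ∀ W, IsWeylTensor (g y) W → ∀ u v, v ≠ 0 → g y v v = 0 → g y u v = 0 →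
      |g y (W u v v) u| ≤ C * ‖W‖ * g y u u * ‖v‖ ^ 2 := by
  obtain ⟨κ, h0, hκ⟩ := pos_unif h hT hL hK hKO
  obtain ⟨M, hM⟩ := hK.exists_bound_of_continuousOn (h.smooth.continuousOn.mono hKO)
  refine ⟨(|M| + 1) / κ, by positivity, fun y hy W hW u v hv hvv huv => ?_⟩
  have hyO := hKO hy
  have hs := h.symm y hyO
  have hTv : g y (T y) v ≠ 0 := (hL y hyO).null_ne hv hvv
  obtain ⟨a, ha⟩ : ∃ a, a = g y (T y) u / g y (T y) v := ⟨_, rfl⟩
  obtain ⟨w, hw⟩ : ∃ w, w = u - a • v := ⟨_, rfl⟩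
  have hTw : g y (T y) w = 0 := by
    rw [hw, map_sub, map_smul, smul_eq_mul, ha, div_mul_cancel₀ _ hTv, sub_self]
  have hvu : g y v u = 0 := by rw [hs]; exact huv
  have hww : g y w w = g y u u := by
    rw [hw]
    simp only [map_sub, map_smul, ContinuousLinearMap.sub_apply, ContinuousLinearMap.smul_apply,
      smul_eq_mul, huv, hvu, hvv]
    ring
  have hWv : W v v v = 0 := by
    have h1 := hW.anti v v v
    have h2 : (2 : ℝ) • W v v v = 0 := by
      rw [two_smul]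
      nth_rewrite 1 [h1]
      exact neg_add_cancel _
    exact (smul_eq_zero.1 h2).resolve_left two_ne_zero
  have hWw : W w v v = W u v v := by
    rw [hw, map_sub, map_smul, ContinuousLinearMap.sub_apply, ContinuousLinearMap.sub_apply,
      ContinuousLinearMap.smul_apply, ContinuousLinearMap.smul_apply, hWv, smul_zero, sub_zero]
  have hWvv : g y (W u v v) v = 0 := by
    have h1 := hW.skew u v v v
    rw [hs v] at h1
    linarith
  have e1 : g y (W u v v) u = g y (W w v v) w := by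
    rw [hWw, hw, map_sub, map_smul, hWvv, smul_zero, sub_zero]
  rw [e1, ← Real.norm_eq_abs]
  have b1 : ‖g y (W w v v) w‖ ≤ ‖g y‖ * ‖W w v v‖ * ‖w‖ := (g y).le_opNorm₂ _ _
  have b2 : ‖W w v v‖ ≤ ‖W w‖ * ‖v‖ * ‖v‖ := (W w).le_opNorm₂ _ _
  have b3 : ‖W w‖ ≤ ‖W‖ * ‖w‖ := W.le_opNorm _
  have b4 : ‖g y‖ ≤ |M| + 1 := (hM y hy).trans ((le_abs_self M).trans (by linarith))
  have b5 : κ * ‖w‖ ^ 2 ≤ g y u u := by rw [← hww]; exact hκ y hy w hTw
  calc ‖g y (W w v v) w‖ ≤ ‖g y‖ * ‖W w v v‖ * ‖w‖ := b1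
    _ ≤ (|M| + 1) * (‖W‖ * ‖w‖ * ‖v‖ * ‖v‖) * ‖w‖ := by
        refine mul_le_mul_of_nonneg_right (mul_le_mul b4 (b2.trans ?_) (norm_nonneg _)
          (by positivity)) (norm_nonneg _)
        exact mul_le_mul_of_nonneg_right (mul_le_mul_of_nonneg_right b3 (norm_nonneg _))
          (norm_nonneg _)
    _ = (|M| + 1) / κ * ‖W‖ * (κ * ‖w‖ ^ 2) * ‖v‖ ^ 2 := by
        field_simp
    _ ≤ (|M| + 1) / κ * ‖W‖ * g y u u * ‖v‖ ^ 2 := by
        refine mul_le_mul_of_nonneg_right (mul_le_mul_of_nonneg_left b5 (by positivity))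
          (sq_nonneg _)

theorem lower (h : IsLC O g O' g' S f c) (hD : 3 ≤ Module.finrank ℝ E)
    {K : Set E} (hKO : K ⊆ O') {C : ℝ}
    (hC : ∀ y ∈ K, ∀ W, IsWeylTensor (g' y) W → ∀ u v, v ≠ 0 → g' y v v = 0 → g' y u v = 0 →
      |g' y (W u v v) u| ≤ C * ‖W‖ * g' y u u * ‖v‖ ^ 2)
    (hy : y ∈ S) (hyK : f y ∈ K) {u v : E} (hv : v ≠ 0) (hvv : g y v v = 0) (huv : g y u v = 0) :
    |g y (Wey g y u v v) u| ≤ C * ‖Wey g' (f y)‖ * g y u u * ‖fderiv ℝ f y v‖ ^ 2 := by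
  have hc := h.pos y hy
  have hc2 : 0 < c y ^ 2 := by positivity
  have hLv : fderiv ℝ f y v ≠ 0 := by
    intro h0
    refine hv (h.met.nondeg y (h.sub hy) v fun w => ?_)
    have h1 := h.conf y hy v w
    rw [h0, map_zero, ContinuousLinearMap.zero_apply] at h1
    rcases mul_eq_zero.1 h1.symm with h2 | h2
    · exact absurd h2 hc2.ne'
    · exact h2
  have h1 := hC (f y) hyK (Wey g' (f y)) (h.met'.isWeyl hD (h.maps hy)) (fderiv ℝ f y u)
    (fderiv ℝ f y v) hLv (by rw [h.conf y hy, hvv, mul_zero]) (by rw [h.conf y hy, huv, mul_zero])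
  rw [h.wey_pull hD hy, h.conf y hy, h.conf y hy, abs_mul, abs_of_pos hc2] at h1
  have h2 : c y ^ 2 * |g y (Wey g y u v v) u| ≤
      c y ^ 2 * (C * ‖Wey g' (f y)‖ * g y u u * ‖fderiv ℝ f y v‖ ^ 2) := by
    refine h1.trans (le_of_eq ?_)
    ring
  exact le_of_mul_le_mul_left h2 hc2

end Pool.Agent.EG

end

end M_MB2

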