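import Pool.Agent.Lib.MP_eeed5f_gt.F1
import Pool.Agent.Lib.MP_eeed5f_gt.L7
import Pool.Agent.Lib.MP_eeed5f_gt.B1
import Pool.Agent.Lib.MP_eeed5f_gt.D1

section M_FL2

/-!
Row ec-FL2 (W = 0 and Cot = 0 imply conformally flat, paper F).
A := At g is flat on O (`tractor_flat`).  Sections s(s0) from `flat_sections`.  h(s,s') := g_y(X,X')+σρ'+σ'ρ for s=(σ,X,ρ):
it is constant along parallel sections (derivative 0: `tractor_metric`, by compat and the formula for At).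
s_0 := section with value (1,0,0) at y0, s_x := section with value (0,x,0), x ∈ E.  σ_0, σ_x first components, X_0, X_x the middle ones:
D_Zσ = g(Z,X), i.e. X = (dσ)^#.  Near y0 σ_0 > 0.  u_x := σ_x/σ_0 (linear in x), du_x^# = (σ_0X_x-σ_xX_0)/σ_0².
g(du_x^#,du_x'^#) = σ_0⁻² g_{y0}(x,x')  (insert g(X_x,X_x')=g_{y0}(x,x')-σ_xρ_x'-σ_x'ρ_x, g(X_x,X_0) = -σ_xρ_0-σ_0ρ_x, g(X_0,X_0)=-2σ_0ρ_0).
Define F(y) ∈ E by g_{y0}(F(y),x) = u_x(y) for all x (F = sharp g y0 ∘ (x ↦ u_x(y))), smooth.  ξ_x := du_x^#: g_y(ξ_x,Z) = g_{y0}(DF Z,x).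
DF ξ_x = σ_0⁻² x  (pair with x').  So DF is onto, hence bijective, and g_y(Y,Z) = σ_0² g_{y0}(DF Y,DF Z): write Y = ξ_x with x = σ_0² DF Y,
g_y(ξ_x,Z) = g_{y0}(DF Z,x).
-/

open scoped ContDiff Topology
open Set

noncomputable section

set_option linter.unusedSectionVars false
set_option maxSynthPendingDepth 3

namespace Pool.Agent.EG

variable {E : Type*} [NormedAddCommGroup E] [NormedSpace ℝ E] [FiniteDimensional ℝ E]
variable {V : Type*} [NormedAddCommGroup V] [NormedSpace ℝ V] [FiniteDimensional ℝ V]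
variable {V' : Type*} [NormedAddCommGroup V'] [NormedSpace ℝ V'] [FiniteDimensional ℝ V']
variable {O O' S : Set E} {g g' : E → BF E} {f : E → E} {c : E → ℝ} {y : E}

/-- parallel sections of the tractor connection on a set `B` -/
def FL2_par (g : E → BF E) (B : Set E) (s : E → Tr E) : Prop :=
  ContDiffOn ℝ ∞ s B ∧ ∀ y ∈ B, ∀ Z, fderiv ℝ s y Z = - At g y Z (s y)

/-- the tractor metric -/
def FL2_h (g : E → BF E) (y : E) (s t : Tr E) : ℝ :=
  g y s.2.1 t.2.1 + s.1 * t.2.2 + t.1 * s.2.2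

theorem FL2_d {B : Set E} (hB : IsOpen B) {s : E → Tr E} (hs : FL2_par g B s) {y : E}
    (hy : y ∈ B) : ∃ (d1 : E →L[ℝ] ℝ) (d2 : E →L[ℝ] E) (d3 : E →L[ℝ] ℝ),
      HasFDerivAt (fun y => (s y).1) d1 y ∧ HasFDerivAt (fun y => (s y).2.1) d2 y ∧
      HasFDerivAt (fun y => (s y).2.2) d3 y ∧ (∀ Z, d1 Z = g y Z (s y).2.1) ∧
      (∀ Z, d2 Z = - (Gam g y Z (s y).2.1 + (s y).1 • sharp g y (Sch g y Z) + (s y).2.2 • Z)) ∧
      (∀ Z, d3 Z = Sch g y Z (s y).2.1) := by
  have h1 : HasFDerivAt s (fderiv ℝ s y) y := (diffAt_of hB hs.1 hy).hasFDerivAt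
  have h2 := hs.2 y hy
  refine ⟨(ContinuousLinearMap.fst ℝ ℝ (E × ℝ)).comp (fderiv ℝ s y),
    ((ContinuousLinearMap.fst ℝ E ℝ).comp (ContinuousLinearMap.snd ℝ ℝ (E × ℝ))).comp
      (fderiv ℝ s y),
    ((ContinuousLinearMap.snd ℝ E ℝ).comp (ContinuousLinearMap.snd ℝ ℝ (E × ℝ))).comp
      (fderiv ℝ s y), ?_, ?_, ?_, ?_, ?_, ?_⟩
  · exact (ContinuousLinearMap.fst ℝ ℝ (E × ℝ)).hasFDerivAt.comp y h1
  · exact ((ContinuousLinearMap.fst ℝ E ℝ).comp
      (ContinuousLinearMap.snd ℝ ℝ (E × ℝ))).hasFDerivAt.comp y h1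
  · exact ((ContinuousLinearMap.snd ℝ E ℝ).comp
      (ContinuousLinearMap.snd ℝ ℝ (E × ℝ))).hasFDerivAt.comp y h1
  · intro Z
    show (fderiv ℝ s y Z).1 = _
    rw [h2 Z, At_apply]
    simp
  · intro Z
    show (fderiv ℝ s y Z).2.1 = _
    rw [h2 Z, At_apply]
    simp
  · intro Z
    show (fderiv ℝ s y Z).2.2 = _
    rw [h2 Z, At_apply]
    simp

/-- the tractor metric is constant along parallel sections -/
theorem FL2_const (h : IsMet O g) {y0 : E} {r : ℝ} (hr : Metric.ball y0 r ⊆ O)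
    {s t : E → Tr E} (hs : FL2_par g (Metric.ball y0 r) s) (ht : FL2_par g (Metric.ball y0 r) t)
    {y : E} (hy : y ∈ Metric.ball y0 r) : FL2_h g y (s y) (t y) = FL2_h g y0 (s y0) (t y0) := by
  have hr0 : 0 < r := Metric.pos_of_mem_ball hy
  have key : ∀ z ∈ Metric.ball y0 r, HasFDerivAt (fun z => FL2_h g z (s z) (t z)) (0 : E →L[ℝ] ℝ) z := by
    intro z hz
    have hzO := hr hz
    obtain ⟨d1, d2, d3, e1, e2, e3, f1, f2, f3⟩ := FL2_d Metric.isOpen_ball hs hz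
    obtain ⟨d1', d2', d3', e1', e2', e3', f1', f2', f3'⟩ := FL2_d Metric.isOpen_ball ht hz
    have hg : HasFDerivAt g (fderiv ℝ g z) z := (diffAt_of h.isOpen h.smooth hzO).hasFDerivAt
    have h1 := (hg.clm_apply e2).clm_apply e2'
    have h2 := (h1.add (e1.mul e3')).add (e1'.mul e3)
    refine h2.congr_fderiv ?_
    ext Z
    simp only [add_apply, ContinuousLinearMap.comp_apply,
      ContinuousLinearMap.flip_apply, smul_apply, smul_eq_mul,
      zero_apply, f1, f2, f3, f1', f2', f3', map_add, map_neg, map_smul,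
      neg_apply]
    rw [h.compat hzO, h.g_sharp hzO]
    have q1 : ∀ a, g z (s z).2.1 (sharp g z a) = a (s z).2.1 := by
      intro a
      rw [h.symm z hzO, h.g_sharp hzO]
    rw [q1, h.symm z hzO (s z).2.1 Z]
    ring
  have hconv : Convex ℝ (Metric.ball y0 r) := convex_ball y0 r
  have := hconv.is_const_of_fderivWithin_eq_zero (𝕜 := ℝ)
    (f := fun z => FL2_h g z (s z) (t z))
    (fun z hz => (key z hz).differentiableAt.differentiableWithinAt)
    (fun z hz => by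
      rw [fderivWithin_of_isOpen Metric.isOpen_ball hz]
      exact (key z hz).fderiv) hy (Metric.mem_ball_self hr0)
  exact this

theorem conf_flat_local (h : IsMet O g) (hD : 3 ≤ Module.finrank ℝ E)
    (hW : ∀ y ∈ O, Wey g y = 0) (hC : ∀ y ∈ O, ∀ X Y Z, Cot g y X Y Z = 0) {y0 : E} (hy0 : y0 ∈ O) :
    ∃ r > 0, Metric.ball y0 r ⊆ O ∧ ∃ (F : E → E) (l : E → ℝ),
      ContDiffOn ℝ ∞ F (Metric.ball y0 r) ∧ ContDiffOn ℝ ∞ l (Metric.ball y0 r) ∧
      ∀ y ∈ Metric.ball y0 r, 0 < l y ∧ Function.Bijective (fderiv ℝ F y) ∧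
        ∀ Y Z, g y Y Z = l y ^ 2 * g y0 (fderiv ℝ F y Y) (fderiv ℝ F y Z) := by
  obtain ⟨r0, hr0, hb0, s, hs0, hsa, hsm, hsp⟩ := flat_sections h.isOpen h.smooth_At
    (fun y hy => h.tractor_flat hD hy (hW y hy) (hC y hy)) hy0
  -- the first section
  set e0 : Tr E := ((1 : ℝ), (0 : E), (0 : ℝ)) with he0
  have hcont : ContinuousOn (fun y => (s e0 y).1) (Metric.ball y0 r0) :=
    continuous_fst.comp_continuousOn (hsp e0).1.continuousOn
  have hpos0 : ∀ᶠ y in 𝓝 y0, 0 < (s e0 y).1 := by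
    have h1 : ContinuousAt (fun y => (s e0 y).1) y0 :=
      hcont.continuousAt (Metric.isOpen_ball.mem_nhds (Metric.mem_ball_self hr0))
    refine h1.eventually (lt_mem_nhds ?_)
    show (0 : ℝ) < (s e0 y0).1
    rw [hs0]
    simp [he0]
  obtain ⟨r1, hr1, hb1⟩ := Metric.eventually_nhds_iff_ball.1 hpos0
  set r := min r0 r1 with hr
  have hrpos : 0 < r := lt_min hr0 hr1
  set B := Metric.ball y0 r with hBdef
  have hBo : IsOpen B := Metric.isOpen_ball
  have hBr0 : B ⊆ Metric.ball y0 r0 := Metric.ball_subset_ball (min_le_left _ _)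
  have hBO : B ⊆ O := hBr0.trans hb0
  have hpos : ∀ y ∈ B, 0 < (s e0 y).1 := fun y hy =>
    hb1 y (Metric.ball_subset_ball (min_le_right _ _) hy)
  have hpar : ∀ v : Tr E, FL2_par g B (s v) := fun v =>
    ⟨(hsp v).1.mono hBr0, fun y hy Z => (hsp v).2 y (hBr0 hy) Z⟩
  -- the sections of the vectors
  let ι : E → Tr E := fun x => ((0 : ℝ), x, (0 : ℝ))
  have hιa : ∀ x x', ι (x + x') = ι x + ι x' := by
    intro x x'
    refine Prod.ext ?_ (Prod.ext ?_ ?_) <;> simp [ι]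
  have hιm : ∀ (a : ℝ) x, ι (a • x) = a • ι x := by
    intro a x
    refine Prod.ext ?_ (Prod.ext ?_ ?_) <;> simp [ι]
  -- pairings
  have hxx : ∀ y ∈ B, ∀ x x', FL2_h g y (s (ι x) y) (s (ι x') y) = g y0 x x' := by
    intro y hy x x'
    rw [FL2_const h hBO (hpar _) (hpar _) hy, hs0, hs0]
    simp [FL2_h, ι]
  have hx0 : ∀ y ∈ B, ∀ x, FL2_h g y (s (ι x) y) (s e0 y) = 0 := by
    intro y hy x
    rw [FL2_const h hBO (hpar _) (hpar _) hy, hs0, hs0]
    simp [FL2_h, ι, he0]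
  have h00 : ∀ y ∈ B, FL2_h g y (s e0 y) (s e0 y) = 0 := by
    intro y hy
    rw [FL2_const h hBO (hpar _) (hpar _) hy, hs0]
    simp [FL2_h, he0]
  -- ξ
  let ξ : E → E → E := fun y x => ((s e0 y).1 ^ 2)⁻¹ • ((s e0 y).1 • (s (ι x) y).2.1
    - (s (ι x) y).1 • (s e0 y).2.1)
  have hξa : ∀ y ∈ B, ∀ x x', ξ y (x + x') = ξ y x + ξ y x' := by
    intro y hy x x'
    have h1 : s (ι (x + x')) y = s (ι x) y + s (ι x') y := by
      rw [hιa]; exact hsa y (hBr0 hy) _ _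
    simp only [ξ, h1, Prod.fst_add, Prod.snd_add]
    module
  have hξm : ∀ y ∈ B, ∀ (a : ℝ) x, ξ y (a • x) = a • ξ y x := by
    intro y hy a x
    have h1 : s (ι (a • x)) y = a • s (ι x) y := by
      rw [hιm]; exact hsm y (hBr0 hy) _ _
    simp only [ξ, h1, Prod.smul_fst, Prod.smul_snd, smul_eq_mul]
    module
  have hξξ : ∀ y ∈ B, ∀ x x', g y (ξ y x) (ξ y x') = ((s e0 y).1 ^ 2)⁻¹ * g y0 x x' := by
    intro y hy x x'
    have p0 := hpos y hy
    have e1 := hxx y hy x x'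
    have e2 := hx0 y hy x
    have e3 := hx0 y hy x'
    have e4 := h00 y hy
    simp only [FL2_h] at e1 e2 e3 e4
    have e5 : g y (s e0 y).2.1 (s (ι x') y).2.1 = g y (s (ι x') y).2.1 (s e0 y).2.1 :=
      h.symm y (hBO hy) _ _
    simp only [ξ, map_smul, map_sub, smul_apply, sub_apply, smul_eq_mul, e5]
    rw [← e1]
    have e2' : g y (s (ι x) y).2.1 (s e0 y).2.1
        = -((s (ι x) y).1 * (s e0 y).2.2) - (s e0 y).1 * (s (ι x) y).2.2 := by linarith
    have e3' : g y (s (ι x') y).2.1 (s e0 y).2.1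
        = -((s (ι x') y).1 * (s e0 y).2.2) - (s e0 y).1 * (s (ι x') y).2.2 := by linarith
    have e4' : g y (s e0 y).2.1 (s e0 y).2.1 = -(2 * (s e0 y).1 * (s e0 y).2.2) := by linarith
    rw [e2', e3', e4']
    field_simp
    ring
  -- u
  let u : E → E → ℝ := fun x y => (s (ι x) y).1 * ((s e0 y).1)⁻¹
  have hud : ∀ x, ∀ y ∈ B, ∃ d : E →L[ℝ] ℝ, HasFDerivAt (u x) d y ∧
      ∀ Z, d Z = g y (ξ y x) Z := by
    intro x y hy
    have p0 := (hpos y hy).ne'
    obtain ⟨d1, -, -, k1, -, -, f1, -, -⟩ := FL2_d hBo (hpar (ι x)) hy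
    obtain ⟨d0, -, -, k0, -, -, f0, -, -⟩ := FL2_d hBo (hpar e0) hy
    have k0' : HasFDerivAt (fun y => ((s e0 y).1)⁻¹) ((-((s e0 y).1 ^ 2)⁻¹) • d0) y :=
      (hasDerivAt_inv p0).comp_hasFDerivAt y k0
    refine ⟨_, k1.mul k0', ?_⟩
    intro Z
    simp only [add_apply, smul_apply, smul_eq_mul, f1, f0, ξ, map_smul, map_sub, sub_apply]
    rw [h.symm y (hBO hy) Z, h.symm y (hBO hy) Z]
    field_simp
    ring
  have hus : ∀ x, ContDiffOn ℝ ∞ (u x) B := by
    intro x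
    have k1 : ContDiffOn ℝ ∞ (fun y => (s (ι x) y).1) B :=
      contDiff_fst.comp_contDiffOn (hpar (ι x)).1
    have k0 : ContDiffOn ℝ ∞ (fun y => (s e0 y).1) B :=
      contDiff_fst.comp_contDiffOn (hpar e0).1
    exact k1.mul (k0.inv (fun y hy => (hpos y hy).ne'))
  -- the map F
  let b := Module.finBasis ℝ E
  let co : Fin (Module.finrank ℝ E) → (E →L[ℝ] ℝ) := fun i =>
    LinearMap.toContinuousLinearMap (b.coord i)
  have hco : ∀ i x, co i x = b.repr x i := fun i x => rfl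
  let F : E → E := fun y => ∑ i, u (b i) y • sharp g y0 (co i)
  have hFs : ContDiffOn ℝ ∞ F B :=
    ContDiffOn.sum fun i _ => (hus (b i)).smul contDiffOn_const
  have hFd : ∀ y ∈ B, ∀ Z x, g y0 (fderiv ℝ F y Z) x = g y (ξ y x) Z := by
    intro y hy Z x
    choose d hd1 hd2 using fun x => hud x y hy
    have h1 : HasFDerivAt F (∑ i, (d (b i)).smulRight (sharp g y0 (co i))) y := by
      have := HasFDerivAt.fun_sum (u := Finset.univ) (A := fun i y => u (b i) y • sharp g y0 (co i))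
        (A' := fun i => (d (b i)).smulRight (sharp g y0 (co i))) (x := y)
        (fun i _ => (hd1 (b i)).smul_const _)
      exact this
    rw [h1.fderiv]
    have h2 : ξ y x = ∑ i, b.repr x i • ξ y (b i) := by
      let Ξ : E →ₗ[ℝ] E :=
        { toFun := ξ y
          map_add' := hξa y hy
          map_smul' := hξm y hy }
      have h3 : Ξ x = ∑ i, b.repr x i • Ξ (b i) := by
        conv_lhs => rw [← b.sum_repr x]
        rw [map_sum]
        exact Finset.sum_congr rfl fun i _ => map_smul Ξ _ _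
      exact h3
    rw [h2]
    simp only [sum_apply, ContinuousLinearMap.smulRight_apply, map_sum,
      map_smul, smul_apply, smul_eq_mul, h.g_sharp hy0, hco, hd2]
    refine Finset.sum_congr rfl fun i _ => ?_
    ring
  have hFξ : ∀ y ∈ B, ∀ x, fderiv ℝ F y (ξ y x) = ((s e0 y).1 ^ 2)⁻¹ • x := by
    intro y hy x
    refine h.eq_of_g hy0 fun w => ?_
    rw [hFd y hy, hξξ y hy, h.symm y0 hy0 w x]
    simp
  have hsur : ∀ y ∈ B, Function.Surjective (fderiv ℝ F y) := by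
    intro y hy x
    refine ⟨ξ y (((s e0 y).1 ^ 2) • x), ?_⟩
    have p0 := (hpos y hy).ne'
    rw [hFξ y hy, smul_smul, inv_mul_cancel₀ (pow_ne_zero 2 p0), one_smul]
  have hinj : ∀ y ∈ B, Function.Injective (fderiv ℝ F y) := fun y hy =>
    (LinearMap.injective_iff_surjective (f := (fderiv ℝ F y).toLinearMap)).2 (hsur y hy)
  refine ⟨r, hrpos, hBO, F, fun y => (s e0 y).1, hFs,
    contDiff_fst.comp_contDiffOn (hpar e0).1, fun y hy => ⟨hpos y hy, ⟨hinj y hy, hsur y hy⟩, ?_⟩⟩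
  intro Y Z
  have p0 := (hpos y hy).ne'
  have hY : Y = ξ y (((s e0 y).1 ^ 2) • fderiv ℝ F y Y) := by
    apply hinj y hy
    rw [hFξ y hy, smul_smul, inv_mul_cancel₀ (pow_ne_zero 2 p0), one_smul]
  have h1 : g y Y Z = g y0 (fderiv ℝ F y Z) (((s e0 y).1 ^ 2) • fderiv ℝ F y Y) := by
    rw [hFd y hy, ← hY]
  rw [h1, h.symm y0 hy0]
  simp


end Pool.Agent.EG

end

end M_FL2

section M_BR6

/-!
Row ec-BR6 (W = 0 and Cot = 0 in all charts imply ConformallyFlat; bridge, part 6).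
x ∈ M, e = chartAt x, y0 = e x.  `conf_flat_local` (E = Euc (n+1), finrank = n+1 ≥ 3) gives r, F, l with g = l² g(y0)(DF,DF) on ball y0 r; `lor_normal` for g(y0): A with g(y0)(u,v) = mink (Au)(Av).
Φ = A ∘ F, factor l²: apply `chart_of_local` (BR0).
-/

open scoped Manifold ContDiff Topology
open Set Filter

noncomputable section

set_option linter.unusedSectionVars false
set_option maxSynthPendingDepth 3

namespace Pool.Agent.EG

open Pool.Agent.NOHS

variable {m : ℕ} {M : Type*} [TopologicalSpace M] [ChartedSpace (Euc m) M]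
  [IsManifold 𝓘(ℝ, Euc m) ∞ M]

theorem flat_of_zero {n : ℕ} (hn : 2 ≤ n) {M : Type*} [TopologicalSpace M] [ChartedSpace (Euc (n + 1)) M]
    [IsManifold 𝓘(ℝ, Euc (n + 1)) ∞ M] (S : Spacetime (n + 1) M)
    (hW : ∀ e ∈ IsManifold.maximalAtlas 𝓘(ℝ, Euc (n + 1)) ∞ M, ∀ y ∈ e.target,
      Wey (coordForm S.g e) y = 0)
    (hC : ∀ e ∈ IsManifold.maximalAtlas 𝓘(ℝ, Euc (n + 1)) ∞ M, ∀ y ∈ e.target, ∀ X Y Z,
      Cot (coordForm S.g e) y X Y Z = 0) : ConformallyFlat S := by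
  intro x
  have he : chartAt (Euc (n + 1)) x ∈ IsManifold.maximalAtlas 𝓘(ℝ, Euc (n + 1)) ∞ M :=
    IsManifold.chart_mem_maximalAtlas x
  set e := chartAt (Euc (n + 1)) x with hedef
  have hxs : x ∈ e.source := mem_chart_source _ x
  set y0 := e x with hy0def
  have hy0 : y0 ∈ e.target := e.map_source hxs
  have hmet : IsMet e.target (coordForm S.g e) := met_coord S he
  have hlor := lor_coord S he hy0
  have hfin : Module.finrank ℝ (Euc (n + 1)) = n + 1 := by simp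
  obtain ⟨r, hr, hball, F, l, hF, hl, hFl⟩ := conf_flat_local hmet (by rw [hfin]; omega)
    (hW e he) (hC e he) hy0
  obtain ⟨A, hA⟩ := lor_normal hfin hlor
  have hfd : ∀ y ∈ Metric.ball y0 r, fderiv ℝ (fun z => A (F z)) y
      = (A : Euc (n + 1) →L[ℝ] Euc (n + 1)).comp (fderiv ℝ F y) := by
    intro y hy
    have h1 : DifferentiableAt ℝ F y :=
      (hF.contDiffAt (Metric.isOpen_ball.mem_nhds hy)).differentiableAt (by simp)
    exact (A.hasFDerivAt.comp y h1.hasFDerivAt).fderiv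
  obtain ⟨e', he', hx', l', hl', h'⟩ := chart_of_local S he (y0 := y0) hr hball
    (Φ := fun z => A (F z)) (l := fun z => l z ^ 2)
    (A.contDiff.comp_contDiffOn hF) (hl.pow 2) (by
      intro y hy
      obtain ⟨h1, h2, h3⟩ := hFl y hy
      refine ⟨by positivity, ?_, ?_⟩
      · rw [hfd y hy]
        exact A.bijective.comp h2
      · intro u v
        rw [hfd y hy, h3, hA]
        rfl)
  refine ⟨e', he', ?_, l', hl', h'⟩
  rwa [hy0def, e.left_inv hxs] at hx'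

end Pool.Agent.EG

end

end M_BR6

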