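import Pool.Agent.Lib.MP_eeed5f_gt.C1

/-!
Row ec-G15 (smooth Urysohn lemma for a system of charts).
Let I: ChartedSpace E M with atlas = range 𝒮.ch, chartAt x = 𝒮.ch (choose (cover x)).  It is a smooth manifold (IsManifold 𝓘(ℝ,E) ∞ M): the transition maps (ch i).symm ≫ ch j are rep i j id on domR i j id, ContDiffOn by (𝒮.trans i j).smooth_f
(isManifold_of_contDiffOn or contDiffGroupoid membership; every pair of elements of the atlas).  Then exists_contMDiffMap_zero_one_of_isClosed (or exists_contMDiff_zero_iff_one_iff_of_isClosed; E finite dimensional, M T2 and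
sigma compact: second countable and locally compact) gives χ smooth on M with values in [0,1], 0 on B, 1 on A.  In each chart ch i (member of the atlas, hence of the maximal atlas) y ↦ χ (ch_i.symm y) is ContDiffOn on the target
(contMDiffOn of the inverse chart: contMDiffOn_symm_of_mem_maximalAtlas, contMDiffOn_iff_contDiffOn).
-/

open scoped ContDiff Topology Manifold
open Set Filter

noncomputable section

set_option linter.unusedSectionVars false
set_option maxSynthPendingDepth 3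

namespace Pool.Agent.EG

variable {E : Type*} [NormedAddCommGroup E] [NormedSpace ℝ E] [FiniteDimensional ℝ E]
variable {M : Type*} [TopologicalSpace M] {ι : Type*}

/-- the charted space of a system of charts -/
@[reducible]
def g15_charted (𝒮 : LSys E M ι) : ChartedSpace E M where
  atlas := Set.range 𝒮.ch
  chartAt x := 𝒮.ch (Classical.choose (𝒮.cover x))
  mem_chart_source x := Classical.choose_spec (𝒮.cover x)
  chart_mem_atlas x := ⟨_, rfl⟩

theorem g15_manifold (𝒮 : LSys E M ι) :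
    letI := g15_charted 𝒮
    IsManifold 𝓘(ℝ, E) ∞ M := by
  letI := g15_charted 𝒮
  refine isManifold_of_contDiffOn 𝓘(ℝ, E) ∞ M ?_
  rintro e e' ⟨i, rfl⟩ ⟨j, rfl⟩
  have h := (𝒮.trans i j).smooth_f
  refine h.mono ?_
  rintro y ⟨hy, -⟩
  have hy' : y ∈ ((𝒮.ch i).symm ≫ₕ 𝒮.ch j).source := hy
  rw [OpenPartialHomeomorph.trans_source] at hy'
  exact ⟨hy'.1, hy'.2⟩

theorem smooth_urysohn [T2Space M] [SecondCountableTopology M] (𝒮 : LSys E M ι) {A B : Set M}
    (hA : IsClosed A) (hB : IsClosed B) (hAB : Disjoint A B) :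
    ∃ χ : M → ℝ, (∀ i, ContDiffOn ℝ ∞ (fun y => χ ((𝒮.ch i).symm y)) (𝒮.ch i).target) ∧
      (∀ x, 0 ≤ χ x) ∧ (∀ x ∈ A, χ x = 1) ∧ ∀ x ∈ B, χ x = 0 := by
  letI := g15_charted 𝒮
  haveI := g15_manifold 𝒮
  haveI : LocallyCompactSpace M := ChartedSpace.locallyCompactSpace E M
  haveI : SigmaCompactSpace M := inferInstance
  obtain ⟨χ, h0, h1, h2⟩ := exists_contMDiffMap_zero_one_of_isClosed (n := ⊤) 𝓘(ℝ, E) hB hA hAB.symm
  refine ⟨χ, fun i => ?_, fun x => (h2 x).1, fun x hx => h1 hx, fun x hx => h0 hx⟩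
  have hi : 𝒮.ch i ∈ IsManifold.maximalAtlas 𝓘(ℝ, E) ∞ M :=
    IsManifold.subset_maximalAtlas ⟨i, rfl⟩
  have h3 : ContMDiffOn 𝓘(ℝ, E) 𝓘(ℝ, E) ∞ (𝒮.ch i).symm (𝒮.ch i).target :=
    contMDiffOn_symm_of_mem_maximalAtlas hi
  have h4 : ContMDiffOn 𝓘(ℝ, E) 𝓘(ℝ, ℝ) ∞ (χ ∘ (𝒮.ch i).symm) (𝒮.ch i).target :=
    χ.contMDiff.comp_contMDiffOn h3
  exact contMDiffOn_iff_contDiffOn.1 h4

end Pool.Agent.EG
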