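import Mathlib

section M_G14

/-!
Row ec-G14 (a continuous proper function).  Let K = default : CompactExhaustion M, n(x) = K.find x.  exists_continuous_forall_mem_convex_of_local_const with t x = Set.Ici (n x : ℝ): near x0 (int K_{n(x0)+1}) n ≤ n(x0)+1, so the
constant n(x0)+1 works.  h x ≥ n x ≥ 0.  {h ≤ a} is closed and contained in K_{⌊a⌋} ∪ ... (x ∈ K (find x) ⊆ K N for find x ≤ N), compact.  (M is paracompact T2, hence normal: instances from SigmaCompact + LocallyCompact + T2.)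
-/

open scoped ContDiff Topology
open Set Filter

noncomputable section

set_option linter.unusedSectionVars false
set_option maxSynthPendingDepth 3

namespace Pool.Agent.EG

theorem proper_fn (M : Type*) [TopologicalSpace M] [T2Space M] [LocallyCompactSpace M] [SigmaCompactSpace M] :
    ∃ h : M → ℝ, Continuous h ∧ (∀ x, 0 ≤ h x) ∧ ∀ a : ℝ, IsCompact {x | h x ≤ a} := by
  let K : CompactExhaustion M := default
  obtain ⟨g, hg⟩ := exists_continuous_forall_mem_convex_of_local_const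
    (X := M) (E := ℝ) (t := fun x => Set.Ici ((K.find x : ℕ) : ℝ)) (fun x => convex_Ici _)
    (fun x => by
      refine ⟨((K.find x + 1 : ℕ) : ℝ), ?_⟩
      have h1 : interior (K (K.find x + 1)) ∈ 𝓝 x :=
        isOpen_interior.mem_nhds (K.subset_interior_succ _ (K.mem_find x))
      filter_upwards [h1] with y hy
      have h2 : K.find y ≤ K.find x + 1 := K.mem_iff_find_le.1 (interior_subset hy)
      exact Set.mem_Ici.2 (by exact_mod_cast h2))
  refine ⟨g, g.continuous, fun x => ?_, fun a => ?_⟩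
  · exact (Nat.cast_nonneg _).trans (Set.mem_Ici.1 (hg x))
  · refine IsCompact.of_isClosed_subset (K.isCompact ⌊a⌋₊) (isClosed_le g.continuous continuous_const) ?_
    intro x hx
    have h3 : ((K.find x : ℕ) : ℝ) ≤ a := (Set.mem_Ici.1 (hg x)).trans hx
    exact K.mem_iff_find_le.2 (Nat.le_floor h3)

end Pool.Agent.EG

end

end M_G14

section M_G4

/-!
Row ec-G4 (smooth dependence of a parameter integral on y, for solutions of a total differential equation).
Fix K, Ω, P, Y.  For q : E × F → ℝ smooth on Ω put I_q(y) = ∫_A q(y, Y a y).  Claim by induction on n : ℕ, for all q: ContDiffOn ℝ n I_q (ball).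
(0) measurability: q is continuous on K; for fixed y ∈ ball the map a ↦ (y, Y a y) is a.e. strongly measurable on A with values in K (closed, measurable),
so a ↦ q(y, Y a y) is a.e. strongly measurable on A (replace q by the measurable function K.indicator q; F finite dimensional, borelize); the same for q with values in E →L[ℝ] ℝ.
Bounded by C (K compact), μ A < ∞: integrable.
(1) derivative: HasFDerivAt I_q (∫_A (fderiv q (y,Y a y)).comp ((id).prod (P (y, Y a y)))) y by hasFDerivAt_integral_of_dominated_of_fderiv_le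
(bound constant on K; a ball around y inside ball y0 r; derivative of y ↦ q(y, Y a y) by the chain rule, q differentiable on the open set Ω).
(2) so I_q is differentiable, and (fderiv I_q y) v = I_{q_v}(y) with q_v(p) = fderiv q p (v, P p v), smooth on Ω (ContinuousLinearMap.integral_apply); by induction
each y ↦ (fderiv I_q y) v is C^n, so fderiv I_q is C^n (contDiffOn_clm_apply, E finite dimensional), and I_q is C^{n+1} (contDiffOn_succ_iff_fderiv_of_isOpen).
-/

open scoped ContDiff Topology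
open Set Filter

noncomputable section

set_option linter.unusedSectionVars false
set_option maxSynthPendingDepth 3

namespace Pool.Agent.EG

open MeasureTheory

variable {E : Type*} [NormedAddCommGroup E] [NormedSpace ℝ E] [FiniteDimensional ℝ E]
variable {F : Type*} [NormedAddCommGroup F] [NormedSpace ℝ F] [FiniteDimensional ℝ F]

theorem g4_meas {G : Type*} [MeasurableSpace G] {μ : Measure G} {A : Set G}
    (hA : MeasurableSet A) {K : Set (E × F)} (hK : IsCompact K) {y0 : E} {r : ℝ} {Y : G → E → F}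
    (hk : ∀ a ∈ A, ∀ y ∈ Metric.ball y0 r, (y, Y a y) ∈ K)
    (hm : ∀ y ∈ Metric.ball y0 r, AEStronglyMeasurable (fun a => Y a y) (μ.restrict A))
    {V : Type*} [NormedAddCommGroup V] [NormedSpace ℝ V] [FiniteDimensional ℝ V]
    {D : E × F → V} (hD : ContinuousOn D K) {y : E} (hy : y ∈ Metric.ball y0 r) :
    AEStronglyMeasurable (fun a => D (y, Y a y)) (μ.restrict A) := by
  obtain ⟨g, hg⟩ := ContinuousMap.exists_restrict_eq (Y := V) hK.isClosed
    (⟨K.domRestrict D, hD.domRestrict⟩ : C(K, V))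
  have hgD : ∀ p ∈ K, g p = D p := by
    intro p hp
    have := congrArg (fun h : C(K, V) => h ⟨p, hp⟩) hg
    exact this
  have h1 : AEStronglyMeasurable (fun a => g (y, Y a y)) (μ.restrict A) :=
    g.continuous.comp_aestronglyMeasurable (aestronglyMeasurable_const.prodMk (hm y hy))
  refine h1.congr ?_
  filter_upwards [ae_restrict_mem hA] with a ha
  exact hgD _ (hk a ha y hy)

theorem g4_int {G : Type*} [MeasurableSpace G] {μ : Measure G} {A : Set G}
    (hA : MeasurableSet A) (hfin : μ A < ⊤) {K : Set (E × F)} (hK : IsCompact K) {y0 : E} {r : ℝ}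
    {Y : G → E → F}
    (hk : ∀ a ∈ A, ∀ y ∈ Metric.ball y0 r, (y, Y a y) ∈ K)
    (hm : ∀ y ∈ Metric.ball y0 r, AEStronglyMeasurable (fun a => Y a y) (μ.restrict A))
    {V : Type*} [NormedAddCommGroup V] [NormedSpace ℝ V] [FiniteDimensional ℝ V]
    {D : E × F → V} (hD : ContinuousOn D K) {y : E} (hy : y ∈ Metric.ball y0 r) :
    Integrable (fun a => D (y, Y a y)) (μ.restrict A) := by
  obtain ⟨C, hC⟩ := hK.exists_bound_of_continuousOn hD
  have hfin' : IsFiniteMeasure (μ.restrict A) := ⟨by rwa [Measure.restrict_apply_univ]⟩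
  refine Integrable.of_bound (g4_meas hA hK hk hm hD hy) C ?_
  filter_upwards [ae_restrict_mem hA] with a ha
  exact hC _ (hk a ha y hy)

/-- the derivative of `q (y, Y a y)` with respect to `y` -/
def g4D (P : E × F → E →L[ℝ] F) (q : E × F → ℝ) (p : E × F) : E →L[ℝ] ℝ :=
  (fderiv ℝ q p).comp ((ContinuousLinearMap.id ℝ E).prod (P p))

theorem g4D_smooth {Ω : Set (E × F)} (hΩ : IsOpen Ω)
    {P : E × F → E →L[ℝ] F} (hP : ContDiffOn ℝ ∞ P Ω) {q : E × F → ℝ} (hq : ContDiffOn ℝ ∞ q Ω) (v : E) :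
    ContDiffOn ℝ ∞ (fun p => g4D P q p v) Ω := by
  have h1 : ContDiffOn ℝ ∞ (fderiv ℝ q) Ω := hq.fderiv_of_isOpen hΩ (by simp)
  exact h1.clm_apply (contDiffOn_const.prodMk (hP.clm_apply contDiffOn_const))

theorem g4D_smooth' {Ω : Set (E × F)} (hΩ : IsOpen Ω)
    {P : E × F → E →L[ℝ] F} (hP : ContDiffOn ℝ ∞ P Ω) {q : E × F → ℝ} (hq : ContDiffOn ℝ ∞ q Ω) :
    ContDiffOn ℝ ∞ (g4D P q) Ω :=
  contDiffOn_clm_apply.2 fun v => g4D_smooth hΩ hP hq v

theorem g4_deriv {G : Type*} [MeasurableSpace G] {μ : Measure G} {A : Set G}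
    (hA : MeasurableSet A) (hfin : μ A < ⊤) {Ω : Set (E × F)} (hΩ : IsOpen Ω)
    {P : E × F → E →L[ℝ] F} (hP : ContDiffOn ℝ ∞ P Ω) {K : Set (E × F)} (hK : IsCompact K) (hKΩ : K ⊆ Ω)
    {y0 : E} {r : ℝ} {Y : G → E → F}
    (hd : ∀ a ∈ A, ∀ y ∈ Metric.ball y0 r, HasFDerivAt (Y a) (P (y, Y a y)) y)
    (hk : ∀ a ∈ A, ∀ y ∈ Metric.ball y0 r, (y, Y a y) ∈ K)
    (hm : ∀ y ∈ Metric.ball y0 r, AEStronglyMeasurable (fun a => Y a y) (μ.restrict A))
    {q : E × F → ℝ} (hq : ContDiffOn ℝ ∞ q Ω) {y : E} (hy : y ∈ Metric.ball y0 r) :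
    HasFDerivAt (fun y => ∫ a in A, q (y, Y a y) ∂μ) (∫ a in A, g4D P q (y, Y a y) ∂μ) y := by
  have hqc : ContinuousOn q K := hq.continuousOn.mono hKΩ
  have hDc : ContinuousOn (g4D P q) K := (g4D_smooth' hΩ hP hq).continuousOn.mono hKΩ
  obtain ⟨C, hC⟩ := hK.exists_bound_of_continuousOn hDc
  have hfin' : IsFiniteMeasure (μ.restrict A) := ⟨by rwa [Measure.restrict_apply_univ]⟩
  have hnhds : Metric.ball y0 r ∈ 𝓝 y := Metric.isOpen_ball.mem_nhds hy
  refine hasFDerivAt_integral_of_dominated_of_fderiv_le (F := fun y a => q (y, Y a y))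
    (F' := fun y a => g4D P q (y, Y a y)) (bound := fun _ => C) hnhds ?_ ?_ ?_ ?_ ?_ ?_
  · filter_upwards [hnhds] with z hz
    exact g4_meas hA hK hk hm hqc hz
  · exact g4_int hA hfin hK hk hm hqc hy
  · exact g4_meas hA hK hk hm hDc hy
  · filter_upwards [ae_restrict_mem hA] with a ha z hz
    exact hC _ (hk a ha z hz)
  · exact integrable_const C
  · filter_upwards [ae_restrict_mem hA] with a ha z hz
    have h1 : HasFDerivAt q (fderiv ℝ q (z, Y a z)) (z, Y a z) :=
      ((hq.contDiffAt (hΩ.mem_nhds (hKΩ (hk a ha z hz)))).differentiableAt (by simp)).hasFDerivAt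
    have h2 : HasFDerivAt (fun z => (z, Y a z)) ((ContinuousLinearMap.id ℝ E).prod (P (z, Y a z))) z :=
      (hasFDerivAt_id z).prodMk (hd a ha z hz)
    exact h1.comp z h2

theorem param_integral {G : Type*} [MeasurableSpace G] {μ : Measure G} {A : Set G}
    (hA : MeasurableSet A) (hfin : μ A < ⊤) {Ω : Set (E × F)} (hΩ : IsOpen Ω)
    {P : E × F → E →L[ℝ] F} (hP : ContDiffOn ℝ ∞ P Ω) {K : Set (E × F)} (hK : IsCompact K) (hKΩ : K ⊆ Ω)
    {y0 : E} {r : ℝ} {Y : G → E → F}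
    (hd : ∀ a ∈ A, ∀ y ∈ Metric.ball y0 r, HasFDerivAt (Y a) (P (y, Y a y)) y)
    (hk : ∀ a ∈ A, ∀ y ∈ Metric.ball y0 r, (y, Y a y) ∈ K)
    (hm : ∀ y ∈ Metric.ball y0 r, AEStronglyMeasurable (fun a => Y a y) (μ.restrict A))
    {q : E × F → ℝ} (hq : ContDiffOn ℝ ∞ q Ω) :
    ContDiffOn ℝ ∞ (fun y => ∫ a in A, q (y, Y a y) ∂μ) (Metric.ball y0 r) := by
  rw [contDiffOn_infty]
  intro n
  induction n generalizing q with
  | zero =>
    rw [Nat.cast_zero, contDiffOn_zero]
    intro y hy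
    exact (g4_deriv hA hfin hΩ hP hK hKΩ hd hk hm hq hy).continuousAt.continuousWithinAt
  | succ n ih =>
    rw [Nat.cast_succ, contDiffOn_succ_iff_fderiv_of_isOpen Metric.isOpen_ball]
    refine ⟨fun y hy => (g4_deriv hA hfin hΩ hP hK hKΩ hd hk hm hq hy).differentiableAt.differentiableWithinAt,
      by simp, ?_⟩
    rw [contDiffOn_clm_apply]
    intro v
    refine (ih (q := fun p => g4D P q p v) (g4D_smooth hΩ hP hq v)).congr ?_
    intro y hy
    rw [(g4_deriv hA hfin hΩ hP hK hKΩ hd hk hm hq hy).fderiv]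
    exact ContinuousLinearMap.integral_apply (g4_int hA hfin hK hk hm
      ((g4D_smooth' hΩ hP hq).continuousOn.mono hKΩ) hy) v

end Pool.Agent.EG

end

end M_G4

section M_G3

/-!
Row ec-G3 (limits of solutions of total differential equations).
K is compact and P continuous on it: ‖P‖ ≤ C on K, so each Y_k is C-Lipschitz on the ball (convex; Convex.norm_image_sub_le_of_norm_hasFDerivWithin_le).
1. (y, Y0 y) ∈ K (closed).  2. joint convergence: ‖Y_k y' - Y0 y‖ ≤ C ‖y'-y‖ + ‖Y_k y - Y0 y‖ for k U-ev.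
3. derivative at y1 ∈ ball: ε > 0; P is continuous at (y1, Y0 y1) ∈ Ω (open), so ‖P(y,v) - P(y1,Y0 y1)‖ ≤ ε for ‖y-y1‖ < δ, ‖v - Y0 y1‖ < δ; by 2 there are ρ > 0
(with ball y1 ρ ⊆ ball y0 r) and a U-large set of k such that ‖y-y1‖ < ρ implies ‖Y_k y - Y0 y1‖ < δ, so ‖DY_k(y) - P(y1,Y0 y1)‖ ≤ ε on ball y1 ρ; mean value inequality for
Y_k - P(y1,Y0 y1): ‖Y_k y - Y_k y1 - P(y1,Y0 y1)(y-y1)‖ ≤ ε‖y-y1‖; limit along U (le_of_tendsto).  This is HasFDerivAt (hasFDerivAt_iff_isLittleO, isLittleO_iff).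
4. smooth: by induction on n, ContDiffOn ℝ n Y0 (ball): fderiv Y0 y = P (y, Y0 y), composition of ContDiffOn n (contDiffOn_succ_iff_fderiv_of_isOpen, contDiffOn_infty).
-/

open scoped ContDiff Topology
open Set Filter

noncomputable section

set_option linter.unusedSectionVars false
set_option maxSynthPendingDepth 3

namespace Pool.Agent.EG

variable {E : Type*} [NormedAddCommGroup E] [NormedSpace ℝ E]
variable {F : Type*} [NormedAddCommGroup F] [NormedSpace ℝ F]

theorem ode_limit {κ : Type*} {U : Filter κ} [U.NeBot] {Ω : Set (E × F)} (hΩ : IsOpen Ω)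
    {P : E × F → E →L[ℝ] F} (hP : ContDiffOn ℝ ∞ P Ω) {K : Set (E × F)} (hK : IsCompact K) (hKΩ : K ⊆ Ω)
    {y0 : E} {r : ℝ} {Y : κ → E → F} {Y0 : E → F}
    (hd : ∀ᶠ k in U, ∀ y ∈ Metric.ball y0 r, HasFDerivAt (Y k) (P (y, Y k y)) y)
    (hk : ∀ᶠ k in U, ∀ y ∈ Metric.ball y0 r, (y, Y k y) ∈ K)
    (hl : ∀ y ∈ Metric.ball y0 r, Tendsto (fun k => Y k y) U (𝓝 (Y0 y))) :
    (∀ y ∈ Metric.ball y0 r, (y, Y0 y) ∈ K) ∧
    (∀ y ∈ Metric.ball y0 r, HasFDerivAt Y0 (P (y, Y0 y)) y) ∧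
    ContDiffOn ℝ ∞ Y0 (Metric.ball y0 r) ∧
    ∀ y ∈ Metric.ball y0 r, Tendsto (fun p : κ × E => Y p.1 p.2) (U ×ˢ 𝓝 y) (𝓝 (Y0 y)) := by
  obtain ⟨C0, hC0⟩ := hK.exists_bound_of_continuousOn (hP.continuousOn.mono hKΩ)
  set C : ℝ := max C0 0 with hCdef
  have hC : ∀ p ∈ K, ‖P p‖ ≤ C := fun p hp => (hC0 p hp).trans (le_max_left _ _)
  have hCnn : 0 ≤ C := le_max_right _ _
  have hconv : Convex ℝ (Metric.ball y0 r) := convex_ball _ _
  -- Lipschitz
  have hLip : ∀ᶠ k in U, ∀ y ∈ Metric.ball y0 r, ∀ y' ∈ Metric.ball y0 r, ‖Y k y' - Y k y‖ ≤ C * ‖y' - y‖ := by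
    filter_upwards [hd, hk] with k h1 h2 y hy y' hy'
    exact Convex.norm_image_sub_le_of_norm_hasFDerivWithin_le (fun x hx => (h1 x hx).hasFDerivWithinAt)
      (fun x hx => hC _ (h2 x hx)) hconv hy hy'
  -- step 1
  have s1 : ∀ y ∈ Metric.ball y0 r, (y, Y0 y) ∈ K := by
    intro y hy
    refine hK.isClosed.mem_of_tendsto (tendsto_const_nhds.prodMk_nhds (hl y hy)) ?_
    filter_upwards [hk] with k h1
    exact h1 y hy
  -- step 2
  have s2 : ∀ y ∈ Metric.ball y0 r, Tendsto (fun p : κ × E => Y p.1 p.2) (U ×ˢ 𝓝 y) (𝓝 (Y0 y)) := by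
    intro y hy
    rw [Metric.tendsto_nhds]
    intro ε hε
    have h1 : ∀ᶠ k in U, dist (Y k y) (Y0 y) < ε / 2 := (Metric.tendsto_nhds.mp (hl y hy)) (ε / 2) (half_pos hε)
    have h2 : ∀ᶠ y' in 𝓝 y, y' ∈ Metric.ball y0 r := Metric.isOpen_ball.mem_nhds hy
    have h3 : ∀ᶠ y' in 𝓝 y, C * ‖y' - y‖ < ε / 2 := by
      have h4 : Tendsto (fun y' : E => C * ‖y' - y‖) (𝓝 y) (𝓝 (C * ‖y - y‖)) := by
        apply Continuous.tendsto
        fun_prop
      rw [sub_self, norm_zero, mul_zero] at h4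
      exact h4.eventually (gt_mem_nhds (half_pos hε))
    filter_upwards [(h1.and hLip).prod_mk (h2.and h3)] with p hp
    obtain ⟨⟨a1, a2⟩, a3, a4⟩ := hp
    have a5 := a2 y hy p.2 a3
    calc dist (Y p.1 p.2) (Y0 y) ≤ dist (Y p.1 p.2) (Y p.1 y) + dist (Y p.1 y) (Y0 y) := dist_triangle _ _ _
      _ < ε / 2 + ε / 2 := by
          apply add_lt_add _ a1
          rw [dist_eq_norm]
          exact lt_of_le_of_lt a5 a4
      _ = ε := add_halves ε
  -- step 3
  have s3 : ∀ y ∈ Metric.ball y0 r, HasFDerivAt Y0 (P (y, Y0 y)) y := by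
    intro y1 hy1
    apply HasFDerivAt.of_isLittleO
    rw [Asymptotics.isLittleO_iff]
    intro ε hε
    have hcont : ContinuousAt P (y1, Y0 y1) := by
      have h1 := hKΩ (s1 y1 hy1)
      exact (hP.continuousOn _ h1).continuousAt (hΩ.mem_nhds h1)
    obtain ⟨δ, hδ, hPδ⟩ := Metric.continuousAt_iff.mp hcont ε hε
    have h2 : ∀ᶠ p in U ×ˢ 𝓝 y1, dist (Y p.1 p.2) (Y0 y1) < δ := (Metric.tendsto_nhds.mp (s2 y1 hy1)) δ hδ
    rw [Filter.eventually_prod_iff] at h2
    obtain ⟨pa, hpa, pb, hpb, h3⟩ := h2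
    have h4a : ∀ᶠ y in 𝓝 y1, y ∈ Metric.ball y0 r := Metric.isOpen_ball.mem_nhds hy1
    have h4b : ∀ᶠ y in 𝓝 y1, dist y y1 < δ := Metric.ball_mem_nhds y1 hδ
    have h4 : ∀ᶠ y in 𝓝 y1, pb y ∧ y ∈ Metric.ball y0 r ∧ dist y y1 < δ := hpb.and (h4a.and h4b)
    obtain ⟨ρ, hρ, h5⟩ := Metric.eventually_nhds_iff.mp h4
    filter_upwards [Metric.ball_mem_nhds y1 hρ] with y hy
    have h6 : ∀ᶠ k in U, ‖Y k y - Y k y1 - P (y1, Y0 y1) (y - y1)‖ ≤ ε * ‖y - y1‖ := by
      filter_upwards [hpa, hd] with k hk1 hk2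
      refine Convex.norm_image_sub_le_of_norm_hasFDerivWithin_le' (s := Metric.ball y1 ρ)
        (fun x hx => (hk2 x (h5 (Metric.mem_ball.mp hx)).2.1).hasFDerivWithinAt)
        (fun x hx => ?_) (convex_ball _ _) (Metric.mem_ball_self hρ) hy
      obtain ⟨b1, b2, b3⟩ := h5 (Metric.mem_ball.mp hx)
      have b4 := h3 hk1 b1
      have b5 : dist (x, Y k x) (y1, Y0 y1) < δ := by
        rw [Prod.dist_eq]
        exact max_lt b3 b4
      have b6 := hPδ b5
      rw [dist_eq_norm] at b6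
      exact b6.le
    have hyB : y ∈ Metric.ball y0 r := (h5 (Metric.mem_ball.mp hy)).2.1
    have h7 : Tendsto (fun k => ‖Y k y - Y k y1 - P (y1, Y0 y1) (y - y1)‖) U
        (𝓝 ‖Y0 y - Y0 y1 - P (y1, Y0 y1) (y - y1)‖) :=
      (((hl y hyB).sub (hl y1 hy1)).sub tendsto_const_nhds).norm
    exact le_of_tendsto h7 h6
  -- step 4
  have hcontY : ContinuousOn Y0 (Metric.ball y0 r) := fun y hy => (s3 y hy).continuousAt.continuousWithinAt
  have s4 : ∀ n : ℕ, ContDiffOn ℝ n Y0 (Metric.ball y0 r) := by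
    intro n
    induction n with
    | zero => exact contDiffOn_zero.mpr hcontY
    | succ n ih =>
      have h1 : ContDiffOn ℝ ((n : WithTop ℕ∞) + 1) Y0 (Metric.ball y0 r) := by
        rw [contDiffOn_succ_iff_fderiv_of_isOpen Metric.isOpen_ball]
        refine ⟨fun y hy => (s3 y hy).differentiableAt.differentiableWithinAt, ?_, ?_⟩
        · intro h
          exact absurd h (by simp)
        · have h2 : ContDiffOn ℝ n (fun y => P (y, Y0 y)) (Metric.ball y0 r) := by
            have hPn : ContDiffOn ℝ n P Ω := hP.of_le (by exact_mod_cast le_top)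
            exact hPn.comp (contDiffOn_id.prodMk ih) (fun y hy => hKΩ (s1 y hy))
          exact h2.congr (fun y hy => (s3 y hy).fderiv)
      exact_mod_cast h1
  exact ⟨s1, s3, contDiffOn_infty.mpr s4, s2⟩

end Pool.Agent.EG

end

end M_G3

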