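import Pool.Agent.Lib.MP_eeed5f_gt.C1
import Pool.Agent.Lib.MP_eeed5f_gt.AC
import Pool.Agent.Lib.MP_eeed5f_gt.GA

section M_G5

/-!
Row ec-G5 (limits do not depend on the approximating points).
Suppose w0 ≠ w1.  Charts i ∋ z0, j ∋ w0; ρ > 0 with closedBall (ch_j w0) ρ ⊆ target j and w1 ∉ K := {x ∈ source j | ch_j x ∈ closedBall (ch_j w0) ρ}; K is compact (image of the closed ball
under ch_j.symm), hence closed (T2).  First exit point of the segment, worst point trick, mean value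
inequality along the segment.
-/

open scoped ContDiff Topology
open Set Filter

noncomputable section

set_option linter.unusedSectionVars false
set_option maxSynthPendingDepth 3

namespace Pool.Agent.EG

universe u

variable {E : Type*} [NormedAddCommGroup E] [NormedSpace ℝ E] [FiniteDimensional ℝ E]
variable {M : Type u} [TopologicalSpace M] {ι : Type*}
variable {𝒮 : LSys E M ι}

theorem g5_compact (e : OpenPartialHomeomorph M E) {w : E} {ρ : ℝ}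
    (hρ : Metric.closedBall w ρ ⊆ e.target) :
    IsCompact (e.source ∩ e ⁻¹' Metric.closedBall w ρ) := by
  rw [← e.symm_image_eq_source_inter_preimage hρ]
  have : ProperSpace E := FiniteDimensional.proper_real E
  exact (isCompact_closedBall w ρ).image_of_continuousOn (e.continuousOn_symm.mono hρ)

/-- first exit from a closed chart ball -/
theorem g5_exit [T2Space M] (e : OpenPartialHomeomorph M E) {w : E} {ρ : ℝ}
    (hρ : Metric.closedBall w ρ ⊆ e.target) {h : ℝ → M} (hc : ContinuousOn h (Icc 0 1))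
    (h0 : h 0 ∈ e.source ∩ e ⁻¹' Metric.ball w ρ)
    (h1 : h 1 ∉ e.source ∩ e ⁻¹' Metric.closedBall w ρ) :
    ∃ s ∈ Icc (0 : ℝ) 1, (∀ s' ∈ Icc (0 : ℝ) s, h s' ∈ e.source ∩ e ⁻¹' Metric.closedBall w ρ) ∧
      dist (e (h s)) w = ρ := by
  set K : Set M := e.source ∩ e ⁻¹' Metric.closedBall w ρ with hK
  set V : Set M := e.source ∩ e ⁻¹' Metric.ball w ρ with hV
  have hKc : IsClosed K := (g5_compact e hρ).isClosed
  have hVo : IsOpen V := e.isOpen_inter_preimage Metric.isOpen_ball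
  have hVK : V ⊆ K := inter_subset_inter_right _ (preimage_mono Metric.ball_subset_closedBall)
  have hA : IsClosed (Icc (0 : ℝ) 1 ∩ h ⁻¹' K) := hc.preimage_isClosed_of_isClosed isClosed_Icc hKc
  have hB : IsClosed (Icc (0 : ℝ) 1 ∩ h ⁻¹' Vᶜ) :=
    hc.preimage_isClosed_of_isClosed isClosed_Icc hVo.isClosed_compl
  have hne : (Icc (0 : ℝ) 1 ∩ h ⁻¹' Vᶜ).Nonempty :=
    ⟨1, ⟨zero_le_one, le_rfl⟩, fun hm => h1 (hVK hm)⟩
  have hbd : BddBelow (Icc (0 : ℝ) 1 ∩ h ⁻¹' Vᶜ) := ⟨0, fun t ht => ht.1.1⟩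
  set s := sInf (Icc (0 : ℝ) 1 ∩ h ⁻¹' Vᶜ) with hs
  have hsm : s ∈ Icc (0 : ℝ) 1 ∩ h ⁻¹' Vᶜ := hB.csInf_mem hne hbd
  have hs0 : 0 < s := by
    rcases hsm.1.1.lt_or_eq with h' | h'
    · exact h'
    · exfalso
      have := hsm.2
      rw [← h'] at this
      exact this h0
  have hlt : ∀ t ∈ Ico (0 : ℝ) s, h t ∈ V := by
    intro t ht
    by_contra hcon
    have : s ≤ t := csInf_le hbd ⟨⟨ht.1, ht.2.le.trans hsm.1.2⟩, hcon⟩
    exact absurd ht.2 (not_lt.mpr this)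
  have hcl : Icc (0 : ℝ) s ⊆ Icc (0 : ℝ) 1 ∩ h ⁻¹' K := by
    rw [← closure_Ico hs0.ne]
    exact closure_minimal (fun t ht => ⟨⟨ht.1, ht.2.le.trans hsm.1.2⟩, hVK (hlt t ht)⟩) hA
  refine ⟨s, hsm.1, fun t ht => (hcl ht).2, ?_⟩
  have h2 := (hcl ⟨hs0.le, le_rfl⟩).2
  have h3 : dist (e (h s)) w ≤ ρ := h2.2
  refine le_antisymm h3 ?_
  by_contra hcon
  exact hsm.2 ⟨h2.1, not_le.mp hcon⟩

theorem g5_seg {p q y0 : E} {r : ℝ} (hp : p ∈ Metric.ball y0 r) (hq : q ∈ Metric.ball y0 r) {s : ℝ}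
    (hs : s ∈ Icc (0 : ℝ) 1) : p + s • (q - p) ∈ Metric.ball y0 r :=
  (convex_ball y0 r).add_smul_sub_mem hp hq hs

/-- points of shrinking segments converge -/
theorem g5_tendsto {κ : Type*} {U : Filter κ} {p q : κ → E} {y0 : E} (hp : Tendsto p U (𝓝 y0))
    (hq : Tendsto q U (𝓝 y0)) {s : κ → ℝ} (hs : ∀ k, s k ∈ Icc (0 : ℝ) 1) :
    Tendsto (fun k => p k + s k • (q k - p k)) U (𝓝 y0) := by
  have h1 : Tendsto (fun k => ‖q k - p k‖) U (𝓝 0) := by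
    have := (hq.sub hp).norm
    rwa [sub_self, norm_zero] at this
  have h2 : Tendsto (fun k => s k • (q k - p k)) U (𝓝 0) := by
    refine squeeze_zero_norm (fun k => ?_) h1
    rw [norm_smul, Real.norm_eq_abs, abs_of_nonneg (hs k).1]
    exact mul_le_of_le_one_left (norm_nonneg _) (hs k).2
  simpa using hp.add h2

/-- Lipschitz estimate along chart segments whose images stay in a compact chart ball (worst point trick). -/
theorem seg_lip [T2Space M] (hJ : AllJB 𝒮) {κ : Type u} {U : Ultrafilter κ} {Φ : κ → Cf 𝒮} {i j : ι} {z0 : M}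
    (hi : z0 ∈ (𝒮.ch i).source) {w : E} {ρ : ℝ} (hρ : Metric.closedBall w ρ ⊆ (𝒮.ch j).target)
    {p q : κ → E} (hp : Tendsto p U (𝓝 (𝒮.ch i z0))) (hq : Tendsto q U (𝓝 (𝒮.ch i z0)))
    (hin : ∀ᶠ k in (U : Filter κ), ∀ s ∈ Icc (0 : ℝ) 1,
      (Φ k).φ ((𝒮.ch i).symm (p k + s • (q k - p k))) ∈ (𝒮.ch j).source ∧
      𝒮.ch j ((Φ k).φ ((𝒮.ch i).symm (p k + s • (q k - p k)))) ∈ Metric.closedBall w ρ) :
    Tendsto (fun k => 𝒮.ch j ((Φ k).φ ((𝒮.ch i).symm (q k))) - 𝒮.ch j ((Φ k).φ ((𝒮.ch i).symm (p k)))) U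
      (𝓝 0) := by
  classical
  have hy0 : 𝒮.ch i z0 ∈ (𝒮.ch i).target := (𝒮.ch i).map_source hi
  obtain ⟨r, hr, hball⟩ := Metric.isOpen_iff.mp (𝒮.ch i).open_target _ hy0
  have hpe : ∀ᶠ k in (U : Filter κ), p k ∈ Metric.ball (𝒮.ch i z0) r :=
    hp.eventually (Metric.ball_mem_nhds _ hr)
  have hqe : ∀ᶠ k in (U : Filter κ), q k ∈ Metric.ball (𝒮.ch i z0) r :=
    hq.eventually (Metric.ball_mem_nhds _ hr)
  -- the segment is in the domain of the representative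
  have hdom : ∀ᶠ k in (U : Filter κ), ∀ s ∈ Icc (0 : ℝ) 1,
      p k + s • (q k - p k) ∈ domR (𝒮.ch i) (𝒮.ch j) (Φ k).φ := by
    filter_upwards [hpe, hqe, hin] with k h1 h2 h3 s hs
    exact ⟨hball (g5_seg h1 h2 hs), (h3 s hs).1⟩
  -- the worst points
  have hex : ∀ k, ∃ s ∈ Icc (0 : ℝ) 1,
      (∀ s ∈ Icc (0 : ℝ) 1, p k + s • (q k - p k) ∈ domR (𝒮.ch i) (𝒮.ch j) (Φ k).φ) →
      ∀ s' ∈ Icc (0 : ℝ) 1,
        ‖fderiv ℝ (rep (𝒮.ch i) (𝒮.ch j) (Φ k).φ) (p k + s' • (q k - p k))‖ ≤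
          ‖fderiv ℝ (rep (𝒮.ch i) (𝒮.ch j) (Φ k).φ) (p k + s • (q k - p k))‖ := by
    intro k
    by_cases hk : ∀ s ∈ Icc (0 : ℝ) 1, p k + s • (q k - p k) ∈ domR (𝒮.ch i) (𝒮.ch j) (Φ k).φ
    · have hcf : ContinuousOn (fderiv ℝ (rep (𝒮.ch i) (𝒮.ch j) (Φ k).φ))
          (domR (𝒮.ch i) (𝒮.ch j) (Φ k).φ) :=
        (smooth_fderiv ((Φ k).h.lc i j).isOpen ((Φ k).h.lc i j).smooth_f).continuousOn
      have hcs : ContinuousOn (fun s : ℝ => p k + s • (q k - p k)) (Icc 0 1) := by fun_prop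
      have hcc : ContinuousOn (fun s : ℝ =>
          ‖fderiv ℝ (rep (𝒮.ch i) (𝒮.ch j) (Φ k).φ) (p k + s • (q k - p k))‖) (Icc 0 1) :=
        (hcf.comp hcs hk).norm
      obtain ⟨s, hs, hmax⟩ := isCompact_Icc.exists_isMaxOn ⟨0, le_rfl, zero_le_one⟩ hcc
      exact ⟨s, hs, fun _ s' hs' => hmax hs'⟩
    · exact ⟨0, ⟨le_rfl, zero_le_one⟩, fun h => absurd h hk⟩
  choose sk hsk hmax using hex
  have hγ : Tendsto (fun k => p k + sk k • (q k - p k)) U (𝓝 (𝒮.ch i z0)) := g5_tendsto hp hq hsk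
  have hz : Tendsto (fun k => (𝒮.ch i).symm (p k + sk k • (q k - p k))) U (𝓝 z0) := by
    have h1 := ((𝒮.ch i).continuousAt_symm hy0).tendsto.comp hγ
    rwa [(𝒮.ch i).left_inv hi] at h1
  -- convergence of the images of the worst points
  obtain ⟨w', hw', hlim⟩ := (g5_compact (𝒮.ch j) hρ).ultrafilter_le_nhds
    (U.map (fun k => (Φ k).φ ((𝒮.ch i).symm (p k + sk k • (q k - p k))))) (by
      rw [le_principal_iff, Ultrafilter.coe_map, mem_map]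
      filter_upwards [hin] with k hk
      exact hk _ (hsk k))
  have hcnv : Cnv Φ U (fun k => (𝒮.ch i).symm (p k + sk k • (q k - p k))) z0 w' :=
    ⟨hz, hlim⟩
  obtain ⟨C, hC⟩ := hJ κ Φ U _ z0 w' hcnv i j hi hw'.1
  have hpq : Tendsto (fun k => ‖q k - p k‖) U (𝓝 0) := by
    have := (hq.sub hp).norm
    rwa [sub_self, norm_zero] at this
  have hlip : Tendsto (fun k => C ^ 2 * ‖q k - p k‖) U (𝓝 0) := by
    simpa using hpq.const_mul (C ^ 2)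
  refine squeeze_zero_norm' ?_ hlip
  filter_upwards [hdom, hC] with k hk hCk
  have ht : p k + sk k • (q k - p k) ∈ (𝒮.ch i).target := (hk _ (hsk k)).1
  have hL : ‖fderiv ℝ (rep (𝒮.ch i) (𝒮.ch j) (Φ k).φ) (p k + sk k • (q k - p k))‖ ≤ C ^ 2 := by
    have h1 := norm_LLm_le (Φ k) (i := i) (j := j) ((𝒮.ch i).map_target ht)
    have h2 : ‖HHm (Φ k) i j ((𝒮.ch i).symm (p k + sk k • (q k - p k)))‖ ^ 2 ≤ C ^ 2 :=
      pow_le_pow_left₀ (norm_nonneg _) hCk 2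
    have h3 : LLm (Φ k) i j ((𝒮.ch i).symm (p k + sk k • (q k - p k))) =
        fderiv ℝ (rep (𝒮.ch i) (𝒮.ch j) (Φ k).φ) (p k + sk k • (q k - p k)) := by
      unfold LLm
      rw [(𝒮.ch i).right_inv ht]
    rw [h3] at h1
    exact h1.trans h2
  have hopen : IsOpen (domR (𝒮.ch i) (𝒮.ch j) (Φ k).φ) := ((Φ k).h.lc i j).isOpen
  have hparam : ∀ x ∈ segment ℝ (p k) (q k), ∃ s ∈ Icc (0 : ℝ) 1, x = p k + s • (q k - p k) := by
    intro x hx
    rw [segment_eq_image'] at hx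
    obtain ⟨s, hs, rfl⟩ := hx
    exact ⟨s, hs, rfl⟩
  have hmv := (convex_segment (𝕜 := ℝ) (p k) (q k)).norm_image_sub_le_of_norm_fderiv_le
    (f := rep (𝒮.ch i) (𝒮.ch j) (Φ k).φ) (C := C ^ 2) (𝕜 := ℝ) (x := p k) (y := q k)
    (fun x hx => by
      obtain ⟨s, hs, rfl⟩ := hparam x hx
      exact (((Φ k).h.lc i j).smooth_f.contDiffAt (hopen.mem_nhds (hk s hs))).differentiableAt
        (by simp))
    (fun x hx => by
      obtain ⟨s, hs, rfl⟩ := hparam x hx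
      exact (hmax k hk s hs).trans hL)
    (left_mem_segment ℝ _ _) (right_mem_segment ℝ _ _)
  exact hmv

theorem lim_unique [T2Space M] (hJ : AllJB 𝒮) {κ : Type u} {U : Ultrafilter κ} {Φ : κ → Cf 𝒮}
    {z z' : κ → M} {z0 w0 w1 : M} (hz : Tendsto z U (𝓝 z0)) (hz' : Tendsto z' U (𝓝 z0))
    (hw : Tendsto (fun k => (Φ k).φ (z k)) U (𝓝 w0)) (hw' : Tendsto (fun k => (Φ k).φ (z' k)) U (𝓝 w1)) :
    w0 = w1 := by
  classical
  by_contra hne
  obtain ⟨i, hi⟩ := 𝒮.cover z0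
  obtain ⟨j, hj⟩ := 𝒮.cover w0
  -- the radius
  obtain ⟨r, hr, hball⟩ := Metric.isOpen_iff.mp (𝒮.ch j).open_target _ ((𝒮.ch j).map_source hj)
  obtain ⟨ρ, hρ0, hρ, hw1⟩ : ∃ ρ : ℝ, 0 < ρ ∧ Metric.closedBall (𝒮.ch j w0) ρ ⊆ (𝒮.ch j).target ∧
      w1 ∉ (𝒮.ch j).source ∩ 𝒮.ch j ⁻¹' Metric.closedBall (𝒮.ch j w0) ρ := by
    by_cases h1 : w1 ∈ (𝒮.ch j).source
    · have h2 : 𝒮.ch j w1 ≠ 𝒮.ch j w0 := fun h => hne ((𝒮.ch j).injOn h1 hj h).symm
      have h3 : 0 < dist (𝒮.ch j w1) (𝒮.ch j w0) := dist_pos.mpr h2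
      refine ⟨min (r / 2) (dist (𝒮.ch j w1) (𝒮.ch j w0) / 2), by positivity, ?_, ?_⟩
      · refine (Metric.closedBall_subset_ball ?_).trans hball
        exact (min_le_left _ _).trans_lt (by linarith)
      · rintro ⟨_, h4⟩
        have h5 : dist (𝒮.ch j w1) (𝒮.ch j w0) ≤
            min (r / 2) (dist (𝒮.ch j w1) (𝒮.ch j w0) / 2) := h4
        have h6 := h5.trans (min_le_right _ _)
        linarith
    · exact ⟨r / 2, by positivity, (Metric.closedBall_subset_ball (by linarith)).trans hball,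
        fun h => h1 h.1⟩
  set K : Set M := (𝒮.ch j).source ∩ 𝒮.ch j ⁻¹' Metric.closedBall (𝒮.ch j w0) ρ with hK
  have hKcl : IsClosed K := (g5_compact (𝒮.ch j) hρ).isClosed
  have hVo : IsOpen ((𝒮.ch j).source ∩ 𝒮.ch j ⁻¹' Metric.ball (𝒮.ch j w0) ρ) :=
    (𝒮.ch j).isOpen_inter_preimage Metric.isOpen_ball
  have hV0 : w0 ∈ (𝒮.ch j).source ∩ 𝒮.ch j ⁻¹' Metric.ball (𝒮.ch j w0) ρ :=
    ⟨hj, Metric.mem_ball_self hρ0⟩
  have hy0 : 𝒮.ch i z0 ∈ (𝒮.ch i).target := (𝒮.ch i).map_source hi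
  obtain ⟨r', hr', hball'⟩ := Metric.isOpen_iff.mp (𝒮.ch i).open_target _ hy0
  have hp := cc1_ch (𝒮 := 𝒮) hz hi
  have hq := cc1_ch (𝒮 := 𝒮) hz' hi
  have hall : ∀ᶠ k in (U : Filter κ), ∃ s ∈ Icc (0 : ℝ) 1,
      (∀ s' ∈ Icc (0 : ℝ) s, (Φ k).φ ((𝒮.ch i).symm
        (𝒮.ch i (z k) + s' • (𝒮.ch i (z' k) - 𝒮.ch i (z k)))) ∈ K) ∧
      dist (𝒮.ch j ((Φ k).φ ((𝒮.ch i).symm
        (𝒮.ch i (z k) + s • (𝒮.ch i (z' k) - 𝒮.ch i (z k)))))) (𝒮.ch j w0) = ρ := by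
    filter_upwards [hp.eventually (Metric.ball_mem_nhds _ hr'),
      hq.eventually (Metric.ball_mem_nhds _ hr'), cc1_src (𝒮 := 𝒮) hz hi,
      cc1_src (𝒮 := 𝒮) hz' hi, hw.eventually (hVo.mem_nhds hV0),
      hw'.eventually (hKcl.isOpen_compl.mem_nhds hw1)] with k h1 h2 h3 h4 h5 h6
    have hcont : ContinuousOn (fun s : ℝ => (Φ k).φ ((𝒮.ch i).symm
        (𝒮.ch i (z k) + s • (𝒮.ch i (z' k) - 𝒮.ch i (z k))))) (Icc 0 1) := by
      refine (Φ k).φ.continuous.comp_continuousOn ?_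
      refine (𝒮.ch i).continuousOn_symm.comp (by fun_prop) ?_
      intro s hs
      exact hball' (g5_seg h1 h2 hs)
    refine g5_exit (𝒮.ch j) hρ hcont ?_ ?_
    · simp only [zero_smul, add_zero]
      rw [(𝒮.ch i).left_inv h3]
      exact h5
    · simp only [one_smul, add_sub_cancel]
      rw [(𝒮.ch i).left_inv h4]
      exact h6
  have hex : ∀ k, ∃ s ∈ Icc (0 : ℝ) 1, (∃ s ∈ Icc (0 : ℝ) 1,
      (∀ s' ∈ Icc (0 : ℝ) s, (Φ k).φ ((𝒮.ch i).symm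
        (𝒮.ch i (z k) + s' • (𝒮.ch i (z' k) - 𝒮.ch i (z k)))) ∈ K) ∧
      dist (𝒮.ch j ((Φ k).φ ((𝒮.ch i).symm
        (𝒮.ch i (z k) + s • (𝒮.ch i (z' k) - 𝒮.ch i (z k)))))) (𝒮.ch j w0) = ρ) →
      (∀ s' ∈ Icc (0 : ℝ) s, (Φ k).φ ((𝒮.ch i).symm
        (𝒮.ch i (z k) + s' • (𝒮.ch i (z' k) - 𝒮.ch i (z k)))) ∈ K) ∧
      dist (𝒮.ch j ((Φ k).φ ((𝒮.ch i).symm
        (𝒮.ch i (z k) + s • (𝒮.ch i (z' k) - 𝒮.ch i (z k)))))) (𝒮.ch j w0) = ρ := by
    intro k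
    by_cases h : ∃ s ∈ Icc (0 : ℝ) 1,
      (∀ s' ∈ Icc (0 : ℝ) s, (Φ k).φ ((𝒮.ch i).symm
        (𝒮.ch i (z k) + s' • (𝒮.ch i (z' k) - 𝒮.ch i (z k)))) ∈ K) ∧
      dist (𝒮.ch j ((Φ k).φ ((𝒮.ch i).symm
        (𝒮.ch i (z k) + s • (𝒮.ch i (z' k) - 𝒮.ch i (z k)))))) (𝒮.ch j w0) = ρ
    · obtain ⟨s, hs, h1⟩ := h
      exact ⟨s, hs, fun _ => h1⟩
    · exact ⟨0, ⟨le_rfl, zero_le_one⟩, fun h' => absurd h' h⟩
  choose sk hsk hprop using hex
  have hq' := g5_tendsto hp hq hsk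
  have hin : ∀ᶠ k in (U : Filter κ), ∀ s ∈ Icc (0 : ℝ) 1,
      (Φ k).φ ((𝒮.ch i).symm (𝒮.ch i (z k) + s • ((𝒮.ch i (z k) +
        sk k • (𝒮.ch i (z' k) - 𝒮.ch i (z k))) - 𝒮.ch i (z k)))) ∈ (𝒮.ch j).source ∧
      𝒮.ch j ((Φ k).φ ((𝒮.ch i).symm (𝒮.ch i (z k) + s • ((𝒮.ch i (z k) +
        sk k • (𝒮.ch i (z' k) - 𝒮.ch i (z k))) - 𝒮.ch i (z k))))) ∈
        Metric.closedBall (𝒮.ch j w0) ρ := by
    filter_upwards [hall] with k hk s hs
    have h1 := (hprop k hk).1 (s * sk k) ⟨mul_nonneg hs.1 (hsk k).1,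
      mul_le_of_le_one_left (hsk k).1 hs.2⟩
    rw [add_sub_cancel_left, smul_smul]
    exact h1
  have hlip := seg_lip hJ hi hρ hp hq' hin
  have hfin : Tendsto (fun k => 𝒮.ch j ((Φ k).φ (z k))) U (𝓝 (𝒮.ch j w0)) :=
    cc1_ch (𝒮 := 𝒮) hw hj
  have hfin' : Tendsto (fun k => 𝒮.ch j ((Φ k).φ ((𝒮.ch i).symm (𝒮.ch i (z k))))) U
      (𝓝 (𝒮.ch j w0)) := by
    refine hfin.congr' ?_
    filter_upwards [cc1_src (𝒮 := 𝒮) hz hi] with k hk
    rw [(𝒮.ch i).left_inv hk]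
  have hsum := hlip.add hfin'
  simp only [sub_add_cancel, zero_add] at hsum
  have hd : Tendsto (fun k => dist (𝒮.ch j ((Φ k).φ ((𝒮.ch i).symm (𝒮.ch i (z k) +
      sk k • (𝒮.ch i (z' k) - 𝒮.ch i (z k)))))) (𝒮.ch j w0)) U (𝓝 0) := by
    have := hsum.dist (tendsto_const_nhds (x := 𝒮.ch j w0))
    rwa [dist_self] at this
  have hd' : ∀ᶠ k in (U : Filter κ), dist (𝒮.ch j ((Φ k).φ ((𝒮.ch i).symm (𝒮.ch i (z k) +
      sk k • (𝒮.ch i (z' k) - 𝒮.ch i (z k)))))) (𝒮.ch j w0) = ρ := by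
    filter_upwards [hall] with k hk
    exact (hprop k hk).2
  have h1 : Tendsto (fun _ : κ => ρ) U (𝓝 0) := hd.congr' hd'
  have h2 := tendsto_nhds_unique h1 (tendsto_const_nhds (x := ρ))
  exact hρ0.ne h2

end Pool.Agent.EG

end

end M_G5

section M_G6

/-!
Row ec-G6 (the limit map; uniform bounds of the jets; the limit is a homeomorphism).
`limMap_exists`: f z0 := the limit of Φ_k z0 (hB with the constant family).  Tendsto on U ×ˢ 𝓝 z0: tendsto_iff_ultrafilter; let W be an ultrafilter on κ × M, W ≤ U ×ˢ 𝓝 z0; family Φ' p = Φ p.1 on the index type κ × M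
(in Type u), z p = p.2 → z0; map fst W ≤ U, so Φ'_p z0 → f z0 along W; `bounded_orbits` for W (x = constant z0): Φ'_p p.2 → w1 along W; lim_unique: w1 = f z0.
`jets_bdd`: otherwise for all n : ℕ, ∃ᶠ p in U ×ˢ 𝓝 z0, n < ‖HHm‖; then U ×ˢ 𝓝 z0 ⊓ comap (‖HHm ..‖) atTop is NeBot; an ultrafilter W below it: Cnv Φ' W snd z0 (f z0) (hf), so hJ gives a bound along W,
contradicting ‖HHm‖ → ∞ along W.
`lim_homeo`: BOf for Φ (bounded_orbits) and for the inverses (Φ k).inv (bounded_orbits with x_k := Φ_k (x k) → y0, (Φ k)⁻¹ x_k = x k → x0): f, g with LimMap; both continuous (M is regular: locally compact T2 or use: if f z ∉ closed nbhd..;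
for W a closed nbhd of f z0 there are A ∈ U, N ∈ 𝓝 z0 open with Φ_k z ∈ W for k ∈ A, z ∈ N, so f z ∈ W for z ∈ N; closed neighbourhoods form a basis, M is locally compact by `lcs`, T2, so regular);
g (f z) = z: k ↦ (k, Φ_k z) tends to U ×ˢ 𝓝 (f z) along U, so Φ_k⁻¹(Φ_k z) = z → g (f z).  Same for f (g z) = z.
`lcs`: ChartedSpace.locallyCompactSpace E M with the charts of 𝒮 (chartAt x := ch (choose (cover x))), E is proper (finite dimensional).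
-/

open scoped ContDiff Topology
open Set Filter

noncomputable section

set_option linter.unusedSectionVars false
set_option maxSynthPendingDepth 3

namespace Pool.Agent.EG

universe u

variable {E : Type*} [NormedAddCommGroup E] [NormedSpace ℝ E] [FiniteDimensional ℝ E]
variable {M : Type u} [TopologicalSpace M] {ι : Type*}
variable {𝒮 : LSys E M ι}

theorem lcs (𝒮 : LSys E M ι) : LocallyCompactSpace M := by
  letI : ChartedSpace E M :=
    { atlas := Set.range 𝒮.ch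
      chartAt := fun x => 𝒮.ch (Classical.choose (𝒮.cover x))
      mem_chart_source := fun x => Classical.choose_spec (𝒮.cover x)
      chart_mem_atlas := fun x => ⟨_, rfl⟩ }
  haveI : ProperSpace E := FiniteDimensional.proper ℝ E
  exact ChartedSpace.locallyCompactSpace E M

/-- pointwise convergence from locally uniform convergence -/
theorem g6_pt {κ : Type*} {f : κ → M → M} {U : Filter κ} {F : M → M} (h : LimMap f U F) {x : κ → M}
    {z : M} (hx : Tendsto x U (𝓝 z)) : Tendsto (fun k => f k (x k)) U (𝓝 (F z)) :=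
  (h z).comp (tendsto_id.prodMk hx)

/-- the limit map is continuous -/
theorem g6_cont [RegularSpace M] {κ : Type*} {f : κ → M → M} {U : Filter κ} [U.NeBot] {F : M → M}
    (h : LimMap f U F) : Continuous F := by
  rw [continuous_iff_continuousAt]
  intro z0
  refine (closed_nhds_basis (F z0)).tendsto_right_iff.2 ?_
  rintro V ⟨hV, hVc⟩
  have h1 : ∀ᶠ p : κ × M in U ×ˢ 𝓝 z0, f p.1 p.2 ∈ V := (h z0).eventually hV
  obtain ⟨pa, ha, pb, hb, hab⟩ := eventually_prod_iff.1 h1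
  filter_upwards [hb] with y hy
  have h2 : Tendsto (fun k => f k y) U (𝓝 (F y)) := g6_pt h tendsto_const_nhds
  exact hVc.mem_of_tendsto h2 (ha.mono fun k hk => hab hk hy)

theorem limMap_exists [T2Space M] [SecondCountableTopology M] (hN : Noh 𝒮) (hD : 3 ≤ Module.finrank ℝ E)
    (hJ : AllJB 𝒮) {κ : Type u} {U : Ultrafilter κ} {Φ : κ → Cf 𝒮} (hB : BOf Φ U) :
    ∃ f : M → M, LimMap (fun k => (Φ k).φ) U f := by
  have h0 : ∀ z0 : M, ∃ w0, Tendsto (fun k => (Φ k).φ z0) U (𝓝 w0) := fun z0 =>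
    hB (fun _ => z0) z0 tendsto_const_nhds
  choose f hf using h0
  refine ⟨f, fun z0 => ?_⟩
  rw [tendsto_iff_ultrafilter]
  intro W hW
  have hfst : Tendsto (Prod.fst : κ × M → κ) W U := tendsto_fst.mono_left hW
  have hsnd : Tendsto (Prod.snd : κ × M → M) W (𝓝 z0) := tendsto_snd.mono_left hW
  have hc : Tendsto (fun p : κ × M => (Φ p.1).φ z0) W (𝓝 (f z0)) := (hf z0).comp hfst
  have hBO : BOf (fun p : κ × M => Φ p.1) W :=
    bounded_orbits (by omega) hN W (fun p : κ × M => Φ p.1) (x := fun _ => z0) tendsto_const_nhds hc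
  obtain ⟨w1, hw1⟩ := hBO Prod.snd z0 hsnd
  have he : w1 = f z0 := lim_unique hJ (Φ := fun p : κ × M => Φ p.1) hsnd
    (tendsto_const_nhds (x := z0)) hw1 hc
  rw [← he]
  exact hw1

theorem jets_bdd (hJ : AllJB 𝒮) {κ : Type u} {U : Ultrafilter κ} {Φ : κ → Cf 𝒮} {f : M → M}
    (hf : LimMap (fun k => (Φ k).φ) U f) {z0 : M} {i j : ι} (hi : z0 ∈ (𝒮.ch i).source)
    (hj : f z0 ∈ (𝒮.ch j).source) :
    ∃ C, ∀ᶠ p in (U : Filter κ) ×ˢ 𝓝 z0, ‖HHm (Φ p.1) i j p.2‖ ≤ C := by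
  by_contra hcon
  have hfr : ∀ C : ℝ, ∃ᶠ p in (U : Filter κ) ×ˢ 𝓝 z0, C < ‖HHm (Φ p.1) i j p.2‖ := by
    intro C hC
    exact hcon ⟨C, hC.mono fun p hp => not_lt.1 hp⟩
  have hne : NeBot (((U : Filter κ) ×ˢ 𝓝 z0) ⊓
      comap (fun p : κ × M => ‖HHm (Φ p.1) i j p.2‖) atTop) := by
    rw [inf_neBot_iff_frequently_right]
    intro P hP
    rw [eventually_comap, eventually_atTop] at hP
    obtain ⟨C, hC⟩ := hP
    exact (hfr C).mono fun p hp => hC _ hp.le p rfl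
  set W : Ultrafilter (κ × M) := Ultrafilter.of (((U : Filter κ) ×ˢ 𝓝 z0) ⊓
      comap (fun p : κ × M => ‖HHm (Φ p.1) i j p.2‖) atTop) with hWdef
  have hW : (W : Filter (κ × M)) ≤ ((U : Filter κ) ×ˢ 𝓝 z0) ⊓
      comap (fun p : κ × M => ‖HHm (Φ p.1) i j p.2‖) atTop := Ultrafilter.of_le _
  have hW1 : (W : Filter (κ × M)) ≤ (U : Filter κ) ×ˢ 𝓝 z0 := hW.trans inf_le_left
  have hW2 : Tendsto (fun p : κ × M => ‖HHm (Φ p.1) i j p.2‖) W atTop :=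
    tendsto_iff_comap.2 (hW.trans inf_le_right)
  have hsnd : Tendsto (Prod.snd : κ × M → M) W (𝓝 z0) := tendsto_snd.mono_left hW1
  have hcv : Cnv (fun p : κ × M => Φ p.1) W Prod.snd z0 (f z0) := ⟨hsnd, (hf z0).mono_left hW1⟩
  obtain ⟨C, hC⟩ := hJ (κ × M) (fun p => Φ p.1) W Prod.snd z0 (f z0) hcv i j hi hj
  obtain ⟨p, hp1, hp2⟩ := (hC.and (hW2.eventually_gt_atTop C)).exists
  exact absurd hp1 (not_le.2 hp2)

theorem lim_homeo [T2Space M] [SecondCountableTopology M] (hN : Noh 𝒮) (hD : 3 ≤ Module.finrank ℝ E)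
    (hJ : AllJB 𝒮) {κ : Type u} {U : Ultrafilter κ} {Φ : κ → Cf 𝒮} {x : κ → M} {x0 y0 : M}
    (hx : Tendsto x U (𝓝 x0)) (hy : Tendsto (fun k => (Φ k).φ (x k)) U (𝓝 y0)) :
    ∃ ψ : M ≃ₜ M, LimMap (fun k => (Φ k).φ) U ψ ∧ LimMap (fun k => (Φ k).φ.symm) U ψ.symm := by
  haveI : LocallyCompactSpace M := lcs 𝒮
  have hB : BOf Φ U := bounded_orbits (by omega) hN U Φ hx hy
  have hB' : BOf (fun k => (Φ k).inv) U := by
    refine bounded_orbits (by omega) hN U (fun k => (Φ k).inv) (x := fun k => (Φ k).φ (x k)) hy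
      (y0 := x0) ?_
    refine hx.congr fun k => ?_
    exact ((Φ k).φ.symm_apply_apply (x k)).symm
  obtain ⟨f, hf⟩ := limMap_exists hN hD hJ hB
  obtain ⟨g, hg⟩ := limMap_exists hN hD hJ hB'
  have hg' : LimMap (fun k => (Φ k).φ.symm) (U : Filter κ) g := hg
  refine ⟨{ toFun := f
            invFun := g
            left_inv := fun z => ?_
            right_inv := fun z => ?_
            continuous_toFun := g6_cont hf
            continuous_invFun := g6_cont hg' }, hf, hg'⟩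
  · have h1 : Tendsto (fun k => (Φ k).φ z) U (𝓝 (f z)) :=
      g6_pt (f := fun k => ((Φ k).φ : M → M)) hf tendsto_const_nhds
    have h2 : Tendsto (fun k => (Φ k).φ.symm ((Φ k).φ z)) U (𝓝 (g (f z))) :=
      g6_pt (f := fun k => ((Φ k).φ.symm : M → M)) hg' h1
    have h3 : Tendsto (fun k => (Φ k).φ.symm ((Φ k).φ z)) U (𝓝 z) := by
      simp only [Homeomorph.symm_apply_apply]
      exact tendsto_const_nhds
    exact tendsto_nhds_unique h2 h3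
  · have h1 : Tendsto (fun k => (Φ k).φ.symm z) U (𝓝 (g z)) :=
      g6_pt (f := fun k => ((Φ k).φ.symm : M → M)) hg' tendsto_const_nhds
    have h2 : Tendsto (fun k => (Φ k).φ ((Φ k).φ.symm z)) U (𝓝 (f (g z))) :=
      g6_pt (f := fun k => ((Φ k).φ : M → M)) hf h1
    have h3 : Tendsto (fun k => (Φ k).φ ((Φ k).φ.symm z)) U (𝓝 z) := by
      simp only [Homeomorph.apply_symm_apply]
      exact tendsto_const_nhds
    exact tendsto_nhds_unique h2 h3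

end Pool.Agent.EG

end

end M_G6

section M_G7

/-!
Row ec-G7 (local form of the limit).
x0 = ch_i.symm y0 ∈ source i, ψ x0 ∈ source j, w0 = ch_j (ψ x0) = rep i j ψ y0.  ρ > 0 with closedBall w0 ρ ⊆ target j.
hψ at x0: eventually along U ×ˢ 𝓝 x0, Φ_k x ∈ source j and ch_j (Φ_k x) ∈ closedBall w0 ρ (open set of M around ψ x0); jets_bdd: ‖HHm Φ_k i j x‖ ≤ C eventually along U ×ˢ 𝓝 x0.
So there are A ∈ U and N ∈ 𝓝 x0 (eventually_prod_iff) with both for k ∈ A, x ∈ N; r > 0 with closedBall y0 r ⊆ target i ∩ ch_i.symm⁻¹ N.  K = closedBall y0 r ×ˢ (closedBall w0 ρ ×ˢ closedBall 0 C) compact,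
Ω = target i ×ˢ (target j ×ˢ univ) open; Psi smooth on Ω (Psi_smooth (𝒮.met i) (𝒮.met j)).  Y_k = Yf (Φ k) i j: (y, Y_k y) ∈ K for k ∈ A, y ∈ ball (Yf_symm), HasFDerivAt by Yf_deriv.
Pointwise limits along the ultrafilter U: first component rep i j Φ_k y → rep i j ψ y (hψ at ch_i.symm y, restricted to the constant point; ch_j continuous at ψ(..): need ψ(ch_i.symm y) ∈ source j: it is the limit of points of the compact
set ch_j.symm '' closedBall w0 ρ, closed because M is T2); second component: bounded by C in the finite dimensional space EndT E: converges along U (isCompact_closedBall.ultrafilter_le_nhds), H y := the limit (lim or choose).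
Apply ode_limit.
-/

open scoped ContDiff Topology
open Set Filter

noncomputable section

set_option linter.unusedSectionVars false
set_option maxSynthPendingDepth 3

namespace Pool.Agent.EG

universe u

variable {E : Type*} [NormedAddCommGroup E] [NormedSpace ℝ E] [FiniteDimensional ℝ E]
variable {M : Type u} [TopologicalSpace M] {ι : Type*}
variable {𝒮 : LSys E M ι}

/-- local form of the limit of a family of conformal maps near the point `y0` of the chart `i` -/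
structure LocLim {κ : Type*} (Φ : κ → Cf 𝒮) (U : Filter κ) (ψ : M → M) (i j : ι) (y0 : E) (r : ℝ)
    (H : E → EndT E) : Prop where
  pos : 0 < r
  sub : Metric.ball y0 r ⊆ domR (𝒮.ch i) (𝒮.ch j) ψ
  subk : ∀ᶠ k in U, Metric.ball y0 r ⊆ domR (𝒮.ch i) (𝒮.ch j) (Φ k).φ
  deriv : ∀ y ∈ Metric.ball y0 r, HasFDerivAt (fun z => ((rep (𝒮.ch i) (𝒮.ch j) ψ z, H z) : E × EndT E))
    (Psi (𝒮.g i) (𝒮.g j) (y, rep (𝒮.ch i) (𝒮.ch j) ψ y, H y)) y
  smooth : ContDiffOn ℝ ∞ (fun z => ((rep (𝒮.ch i) (𝒮.ch j) ψ z, H z) : E × EndT E)) (Metric.ball y0 r)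
  conv : ∀ y ∈ Metric.ball y0 r, Tendsto (fun p : κ × E => Yf (Φ p.1) i j p.2) (U ×ˢ 𝓝 y)
    (𝓝 ((rep (𝒮.ch i) (𝒮.ch j) ψ y, H y) : E × EndT E))

theorem local_limit [T2Space M] (hD : 3 ≤ Module.finrank ℝ E) (hJ : AllJB 𝒮) {κ : Type u} {U : Ultrafilter κ}
    {Φ : κ → Cf 𝒮} {ψ : M → M} (hψ : LimMap (fun k => (Φ k).φ) U ψ) {i j : ι} {y0 : E}
    (hy0 : y0 ∈ domR (𝒮.ch i) (𝒮.ch j) ψ) : ∃ r H, LocLim Φ U ψ i j y0 r H := by
  classical
  have hprop : ProperSpace E := FiniteDimensional.proper ℝ E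
  have hprop2 : ProperSpace (EndT E) := FiniteDimensional.proper ℝ (EndT E)
  have hyt : y0 ∈ (𝒮.ch i).target := hy0.1
  have hys : ψ ((𝒮.ch i).symm y0) ∈ (𝒮.ch j).source := hy0.2
  have hx0 : (𝒮.ch i).symm y0 ∈ (𝒮.ch i).source := (𝒮.ch i).map_target hyt
  obtain ⟨ρ, hρ, hρt⟩ := Metric.nhds_basis_closedBall.mem_iff.1
    ((𝒮.ch j).open_target.mem_nhds ((𝒮.ch j).map_source hys))
  -- a neighbourhood of the image point
  have hN1 : ∀ᶠ w in 𝓝 (ψ ((𝒮.ch i).symm y0)), w ∈ (𝒮.ch j).source ∧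
      𝒮.ch j w ∈ Metric.closedBall (𝒮.ch j (ψ ((𝒮.ch i).symm y0))) ρ := by
    have h1 := (𝒮.ch j).open_source.mem_nhds hys
    have h2 := ((𝒮.ch j).continuousAt hys).eventually (Metric.closedBall_mem_nhds _ hρ)
    filter_upwards [h1, h2] with w hw1 hw2
    exact ⟨hw1, hw2⟩
  have hE1 := (hψ ((𝒮.ch i).symm y0)).eventually hN1
  obtain ⟨C, hC⟩ := jets_bdd hJ hψ hx0 hys
  obtain ⟨pa, hpa, pb, hpb, hab⟩ := Filter.eventually_prod_iff.1 (hE1.and hC)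
  have hE2 : ∀ᶠ y in 𝓝 y0, y ∈ (𝒮.ch i).target ∧ pb ((𝒮.ch i).symm y) := by
    have h1 := (𝒮.ch i).open_target.mem_nhds hyt
    have h2 := ((𝒮.ch i).symm.continuousAt hyt).eventually hpb
    filter_upwards [h1, h2] with y hy1 hy2
    exact ⟨hy1, hy2⟩
  obtain ⟨r, hr, hrt⟩ := Metric.nhds_basis_closedBall.mem_iff.1 hE2
  have hrb : ∀ y ∈ Metric.ball y0 r, y ∈ (𝒮.ch i).target ∧ pb ((𝒮.ch i).symm y) := fun y hy =>
    hrt (Metric.ball_subset_closedBall hy)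
  -- facts for `k` with `pa k`
  have hk1 : ∀ k, pa k → ∀ y ∈ Metric.ball y0 r,
      y ∈ domR (𝒮.ch i) (𝒮.ch j) (Φ k).φ ∧
      𝒮.ch j ((Φ k).φ ((𝒮.ch i).symm y)) ∈ Metric.closedBall (𝒮.ch j (ψ ((𝒮.ch i).symm y0))) ρ ∧
      ‖HHm (Φ k) i j ((𝒮.ch i).symm y)‖ ≤ C := by
    intro k hk y hy
    obtain ⟨h1, h2⟩ := hrb y hy
    obtain ⟨⟨h3, h4⟩, h5⟩ := hab hk h2
    exact ⟨⟨h1, h3⟩, h4, h5⟩
  -- convergence of points
  have hpt : ∀ y ∈ Metric.ball y0 r,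
      Tendsto (fun k => (Φ k).φ ((𝒮.ch i).symm y)) U (𝓝 (ψ ((𝒮.ch i).symm y))) := by
    intro y hy
    have h1 : Tendsto (fun k : κ => ((k, (𝒮.ch i).symm y) : κ × M)) (U : Filter κ)
        ((U : Filter κ) ×ˢ 𝓝 ((𝒮.ch i).symm y)) :=
      Filter.Tendsto.prodMk tendsto_id tendsto_const_nhds
    exact (hψ ((𝒮.ch i).symm y)).comp h1
  have hKM : IsClosed ((𝒮.ch j).symm '' Metric.closedBall (𝒮.ch j (ψ ((𝒮.ch i).symm y0))) ρ) := by
    apply IsCompact.isClosed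
    apply (isCompact_closedBall _ _).image_of_continuousOn
    exact (𝒮.ch j).symm.continuousOn.mono hρt
  have hsub : ∀ y ∈ Metric.ball y0 r, ψ ((𝒮.ch i).symm y) ∈ (𝒮.ch j).source := by
    intro y hy
    have h1 : ψ ((𝒮.ch i).symm y) ∈
        (𝒮.ch j).symm '' Metric.closedBall (𝒮.ch j (ψ ((𝒮.ch i).symm y0))) ρ := by
      refine hKM.mem_of_tendsto (hpt y hy) ?_
      filter_upwards [hpa] with k hk
      obtain ⟨h2, h3, -⟩ := hk1 k hk y hy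
      exact ⟨_, h3, (𝒮.ch j).left_inv h2.2⟩
    obtain ⟨w, hw, hw2⟩ := h1
    rw [← hw2]
    exact (𝒮.ch j).map_target (hρt hw)
  have hfst : ∀ y ∈ Metric.ball y0 r, Tendsto (fun k => rep (𝒮.ch i) (𝒮.ch j) (Φ k).φ y) U
      (𝓝 (rep (𝒮.ch i) (𝒮.ch j) ψ y)) := by
    intro y hy
    exact (((𝒮.ch j).continuousAt (hsub y hy)).tendsto).comp (hpt y hy)
  have hsnd : ∀ y ∈ Metric.ball y0 r, ∃ L : EndT E,
      Tendsto (fun k => (Yf (Φ k) i j y).2) U (𝓝 L) := by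
    intro y hy
    have h1 : Metric.closedBall (0 : EndT E) C ∈ U.map (fun k => (Yf (Φ k) i j y).2) := by
      rw [Ultrafilter.mem_map]
      filter_upwards [hpa] with k hk
      obtain ⟨h2, -, h3⟩ := hk1 k hk y hy
      rw [Set.mem_preimage, Yf_symm (Φ k) i j h2.1, mem_closedBall_zero_iff]
      exact h3
    obtain ⟨L, -, hL⟩ := (isCompact_closedBall (0 : EndT E) C).ultrafilter_le_nhds' _ h1
    exact ⟨L, hL⟩
  let H : E → EndT E := fun y =>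
    if h : ∃ L : EndT E, Tendsto (fun k => (Yf (Φ k) i j y).2) U (𝓝 L) then h.choose else 0
  have hH : ∀ y ∈ Metric.ball y0 r, Tendsto (fun k => (Yf (Φ k) i j y).2) U (𝓝 (H y)) := by
    intro y hy
    have h := hsnd y hy
    have h2 : H y = h.choose := dif_pos h
    rw [h2]
    exact h.choose_spec
  have hK : IsCompact (Metric.closedBall y0 r ×ˢ
      (Metric.closedBall (𝒮.ch j (ψ ((𝒮.ch i).symm y0))) ρ ×ˢ Metric.closedBall (0 : EndT E) C)) :=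
    (isCompact_closedBall _ _).prod ((isCompact_closedBall _ _).prod (isCompact_closedBall _ _))
  have hΩ : IsOpen ((𝒮.ch i).target ×ˢ ((𝒮.ch j).target ×ˢ (univ : Set (EndT E)))) :=
    (𝒮.ch i).open_target.prod ((𝒮.ch j).open_target.prod isOpen_univ)
  have hKΩ : Metric.closedBall y0 r ×ˢ
      (Metric.closedBall (𝒮.ch j (ψ ((𝒮.ch i).symm y0))) ρ ×ˢ Metric.closedBall (0 : EndT E) C) ⊆
      (𝒮.ch i).target ×ˢ ((𝒮.ch j).target ×ˢ (univ : Set (EndT E))) := by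
    rintro ⟨a, b, c⟩ ⟨h1, h2, h3⟩
    exact ⟨(hrt h1).1, hρt h2, mem_univ _⟩
  obtain ⟨-, hd, hs, hc⟩ := ode_limit (U := (U : Filter κ)) hΩ (Psi_smooth (𝒮.met i) (𝒮.met j)) hK hKΩ
    (y0 := y0) (r := r) (Y := fun k => Yf (Φ k) i j)
    (Y0 := fun z => ((rep (𝒮.ch i) (𝒮.ch j) ψ z, H z) : E × EndT E))
    (by
      filter_upwards [hpa] with k hk y hy
      exact Yf_deriv hD (Φ k) (hk1 k hk y hy).1)
    (by
      filter_upwards [hpa] with k hk y hy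
      obtain ⟨h1, h2, h3⟩ := hk1 k hk y hy
      refine ⟨Metric.ball_subset_closedBall hy, h2, ?_⟩
      rw [mem_closedBall_zero_iff]
      have h4 := Yf_symm (Φ k) i j h1.1
      show ‖(Yf (Φ k) i j y).2‖ ≤ C
      rw [h4]
      exact h3)
    (by
      intro y hy
      exact (hfst y hy).prodMk_nhds (hH y hy))
  refine ⟨r, H, ⟨hr, ?_, ?_, hd, hs, hc⟩⟩
  · intro y hy
    exact ⟨(hrb y hy).1, hsub y hy⟩
  · filter_upwards [hpa] with k hk y hy
    exact (hk1 k hk y hy).1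

end Pool.Agent.EG

end

end M_G7

section M_G8

/-!
Row ec-G8 (properties of the local limit).  Write f_k = rep i j Φ_k, c_k = (Φ k).c ∘ ch_i.symm, f = rep i j ψ, H_k = Hm (g i) f_k c_k.  Fix y ∈ ball y0 r; along U: H_k y → H y (conv with the constant point y), f_k y → f y.
`L`: first component of `deriv` (Psi_fst).
`pos`: H_k y (0,0,1) = (0,0,c_k⁻¹), cH (H_k y) = c_k y; so c_k⁻¹ converges to a := (H y (0,0,1)).2.2 and c_k → cH (H y), c_k⁻¹ c_k = 1: a * cH (H y) = 1, and cH (H y) ≥ 0: positive.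
`conf`: g_j(f_k y)(L_k u, L_k v) = c_k² g_i(u,v) with L_k = fderiv f_k y = lH (H_k y) → lH (H y) (contDiff_lH.continuous), g_j continuous at f y ∈ target j: pass to the limit (LLm_conf or IsLC.conf).
`Hm_eq`: Hm (g i) f_k c_k y → Hm (g i) f (cH ∘ H) y because the formula Hm_apply is continuous in (c, fderiv f, fderiv c) (c ≠ 0) and c_k y → cH (H y), fderiv f_k y = lH (H_k y) → lH (H y) = fderiv f y, and
fderiv c_k y Z = ((Psi (y, f_k y, H_k y) Z).2 (1,0,0)).1 → ((Psi (y, f y, H y) Z).2 (1,0,0)).1 = fderiv (cH ∘ H) y Z (derivative of z ↦ (H z (1,0,0)).1, from Yf_deriv resp. `deriv`; Psi is continuous at (y, f y, H y)).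
On the other hand it converges to H y: uniqueness of limits.
-/

open scoped ContDiff Topology
open Set Filter

noncomputable section

set_option linter.unusedSectionVars false
set_option maxSynthPendingDepth 3

namespace Pool.Agent.EG

universe u

variable {E : Type*} [NormedAddCommGroup E] [NormedSpace ℝ E] [FiniteDimensional ℝ E]
variable {M : Type u} [TopologicalSpace M] {ι : Type*}
variable {𝒮 : LSys E M ι}
variable {κ : Type*} {Φ : κ → Cf 𝒮} {U : Filter κ} [U.NeBot] {ψ : M → M} {i j : ι} {y0 : E} {r : ℝ}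
variable {H : E → EndT E}

/-- the two-jet as a function of the inverse factor, the factor, the derivative and `τ` -/
def g8_G (b : (E →L[ℝ] ℝ) →L[ℝ] E) (q : ℝ × ℝ × (E →L[ℝ] E) × (E →L[ℝ] ℝ)) : EndT E :=
  (q.2.1 • ContinuousLinearMap.fst ℝ ℝ (E × ℝ)).prod
    ((q.1 • q.2.2.1.comp (prE E + (ContinuousLinearMap.fst ℝ ℝ (E × ℝ)).smulRight (b q.2.2.2))).prod
      (q.1 • ((ContinuousLinearMap.snd ℝ E ℝ).comp (ContinuousLinearMap.snd ℝ ℝ (E × ℝ))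
        - q.2.2.2.comp (prE E) - ((1 / 2) * q.2.2.2 (b q.2.2.2)) • ContinuousLinearMap.fst ℝ ℝ (E × ℝ))))

theorem g8_G_apply (b : (E →L[ℝ] ℝ) →L[ℝ] E) (q : ℝ × ℝ × (E →L[ℝ] E) × (E →L[ℝ] ℝ)) (s : Tr E) :
    g8_G b q s = ((q.2.1 * s.1, q.1 • q.2.2.1 (s.2.1 + s.1 • b q.2.2.2),
      q.1 * (s.2.2 - q.2.2.2 s.2.1 - (1 / 2) * q.2.2.2 (b q.2.2.2) * s.1)) : Tr E) := rfl

theorem g8_cont (b : (E →L[ℝ] ℝ) →L[ℝ] E) : Continuous (g8_G b) := by
  rw [continuous_clm_apply]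
  intro s
  simp only [g8_G_apply]
  have h1 : Continuous fun q : ℝ × ℝ × (E →L[ℝ] E) × (E →L[ℝ] ℝ) => b q.2.2.2 :=
    b.continuous.comp (continuous_snd.comp (continuous_snd.comp continuous_snd))
  have h2 : Continuous fun q : ℝ × ℝ × (E →L[ℝ] E) × (E →L[ℝ] ℝ) =>
      q.2.2.1 (s.2.1 + s.1 • b q.2.2.2) :=
    (continuous_fst.comp (continuous_snd.comp continuous_snd)).clm_apply
      (continuous_const.add (h1.const_smul s.1))
  have h3 : Continuous fun q : ℝ × ℝ × (E →L[ℝ] E) × (E →L[ℝ] ℝ) => q.2.2.2 s.2.1 :=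
    (continuous_snd.comp (continuous_snd.comp continuous_snd)).clm_apply continuous_const
  have h4 : Continuous fun q : ℝ × ℝ × (E →L[ℝ] E) × (E →L[ℝ] ℝ) => q.2.2.2 (b q.2.2.2) :=
    (continuous_snd.comp (continuous_snd.comp continuous_snd)).clm_apply h1
  exact ((continuous_fst.comp continuous_snd).mul continuous_const).prodMk
    ((continuous_fst.smul h2).prodMk
      (continuous_fst.mul ((continuous_const.sub h3).sub ((continuous_const.mul h4).mul continuous_const))))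

theorem g8_Hm (g : E → BF E) (f : E → E) (c : E → ℝ) (y : E) :
    Hm g f c y = g8_G (sharp g y) ((c y)⁻¹, c y, fderiv ℝ f y, tau c y) := rfl

/-- the two-jet depends continuously on the values and first derivatives of `f`, `c` -/
theorem Hm_tendsto {g : E → BF E} {f : κ → E → E} {c : κ → E → ℝ} {f0 : E → E} {c0 : E → ℝ} {y : E}
    (h0 : c0 y ≠ 0) (hc : Tendsto (fun k => c k y) U (𝓝 (c0 y)))
    (hf : Tendsto (fun k => fderiv ℝ (f k) y) U (𝓝 (fderiv ℝ f0 y)))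
    (hdc : Tendsto (fun k => fderiv ℝ (c k) y) U (𝓝 (fderiv ℝ c0 y))) :
    Tendsto (fun k => Hm g (f k) (c k) y) U (𝓝 (Hm g f0 c0 y)) := by
  have hinv := hc.inv₀ h0
  have htau : Tendsto (fun k => tau (c k) y) U (𝓝 (tau c0 y)) := hinv.smul hdc
  have hq := hinv.prodMk_nhds (hc.prodMk_nhds (hf.prodMk_nhds htau))
  exact ((g8_cont (sharp g y)).tendsto _).comp hq

theorem g8_conv (h : LocLim Φ U ψ i j y0 r H) {y : E} (hy : y ∈ Metric.ball y0 r) :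
    Tendsto (fun k => Yf (Φ k) i j y) U (𝓝 ((rep (𝒮.ch i) (𝒮.ch j) ψ y, H y) : E × EndT E)) := by
  have h1 : Tendsto (fun k : κ => (k, y)) U (U ×ˢ 𝓝 y) := tendsto_id.prodMk tendsto_const_nhds
  have h2 := (h.conv y hy).comp h1
  exact h2

theorem g8_dom (h : LocLim Φ U ψ i j y0 r H) {y : E} (hy : y ∈ Metric.ball y0 r) :
    ∀ᶠ k in U, y ∈ domR (𝒮.ch i) (𝒮.ch j) (Φ k).φ :=
  h.subk.mono fun _ hk => hk hy

theorem g8_tgt (h : LocLim Φ U ψ i j y0 r H) {y : E} (hy : y ∈ Metric.ball y0 r) :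
    y ∈ (𝒮.ch i).target ∧ rep (𝒮.ch i) (𝒮.ch j) ψ y ∈ (𝒮.ch j).target :=
  ⟨(h.sub hy).1, (𝒮.ch j).map_source (h.sub hy).2⟩

theorem g8_Hk (h : LocLim Φ U ψ i j y0 r H) {y : E} (hy : y ∈ Metric.ball y0 r) :
    Tendsto (fun k => Hm (𝒮.g i) (rep (𝒮.ch i) (𝒮.ch j) (Φ k).φ)
      (fun z => (Φ k).c ((𝒮.ch i).symm z)) y) U (𝓝 (H y)) :=
  (continuous_snd.tendsto _).comp (g8_conv h hy)

theorem g8_fk (h : LocLim Φ U ψ i j y0 r H) {y : E} (hy : y ∈ Metric.ball y0 r) :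
    Tendsto (fun k => rep (𝒮.ch i) (𝒮.ch j) (Φ k).φ y) U (𝓝 (rep (𝒮.ch i) (𝒮.ch j) ψ y)) :=
  (continuous_fst.tendsto _).comp (g8_conv h hy)

theorem LocLim.L (h : LocLim Φ U ψ i j y0 r H) {y : E} (hy : y ∈ Metric.ball y0 r) :
    HasFDerivAt (rep (𝒮.ch i) (𝒮.ch j) ψ) (lH (H y)) y :=
  (h.deriv y hy).fst

theorem LocLim.tendsto_c (h : LocLim Φ U ψ i j y0 r H) {y : E} (hy : y ∈ Metric.ball y0 r) :
    Tendsto (fun k => (Φ k).c ((𝒮.ch i).symm y)) U (𝓝 (cH (H y))) := by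
  have h1 := ((contDiff_cH (E := E)).continuous.tendsto (H y)).comp (g8_Hk h hy)
  refine h1.congr fun k => ?_
  exact cH_Hm (g := 𝒮.g i) (f := rep (𝒮.ch i) (𝒮.ch j) (Φ k).φ)
    (c := fun z => (Φ k).c ((𝒮.ch i).symm z)) (y := y)

theorem LocLim.posc (h : LocLim Φ U ψ i j y0 r H) {y : E} (hy : y ∈ Metric.ball y0 r) : 0 < cH (H y) := by
  have h1 : Tendsto (fun k => ‖Hm (𝒮.g i) (rep (𝒮.ch i) (𝒮.ch j) (Φ k).φ)
      (fun z => (Φ k).c ((𝒮.ch i).symm z)) y‖ * (Φ k).c ((𝒮.ch i).symm y)) U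
      (𝓝 (‖H y‖ * cH (H y))) := (g8_Hk h hy).norm.mul (h.tendsto_c hy)
  have h2 : 1 ≤ ‖H y‖ * cH (H y) := by
    refine ge_of_tendsto h1 ?_
    filter_upwards [g8_dom h hy] with k hk
    exact one_le_norm_Hm (((Φ k).h.lc i j).pos y hk)
  by_contra hneg
  have h3 : ‖H y‖ * cH (H y) ≤ 0 := mul_nonpos_of_nonneg_of_nonpos (norm_nonneg _) (not_lt.1 hneg)
  linarith

theorem g8_Lk (h : LocLim Φ U ψ i j y0 r H) {y : E} (hy : y ∈ Metric.ball y0 r) :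
    Tendsto (fun k => fderiv ℝ (rep (𝒮.ch i) (𝒮.ch j) (Φ k).φ) y) U (𝓝 (lH (H y))) := by
  have h1 := ((contDiff_lH (E := E)).continuous.tendsto (H y)).comp (g8_Hk h hy)
  refine h1.congr' ?_
  filter_upwards [g8_dom h hy] with k hk
  exact lH_Hm (((Φ k).h.lc i j).pos y hk).ne'

theorem g8_app {V W : Type*} [NormedAddCommGroup V] [NormedSpace ℝ V] [NormedAddCommGroup W]
    [NormedSpace ℝ W] {A : κ → V →L[ℝ] W} {a : V →L[ℝ] W} {v : κ → V} {b : V}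
    (h1 : Tendsto A U (𝓝 a)) (h2 : Tendsto v U (𝓝 b)) :
    Tendsto (fun k => A k (v k)) U (𝓝 (a b)) :=
  ((isBoundedBilinearMap_apply (𝕜 := ℝ) (E := V) (F := W)).continuous.tendsto (a, b)).comp
    (h1.prodMk_nhds h2)

theorem g8_gk (h : LocLim Φ U ψ i j y0 r H) {y : E} (hy : y ∈ Metric.ball y0 r) :
    Tendsto (fun k => 𝒮.g j (rep (𝒮.ch i) (𝒮.ch j) (Φ k).φ y)) U
      (𝓝 (𝒮.g j (rep (𝒮.ch i) (𝒮.ch j) ψ y))) :=
  (((𝒮.met j).smooth.continuousOn.continuousAt ((𝒮.met j).isOpen.mem_nhds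
    (g8_tgt h hy).2)).tendsto).comp (g8_fk h hy)

theorem g8_Tk (h : LocLim Φ U ψ i j y0 r H) {y : E} (hy : y ∈ Metric.ball y0 r) :
    Tendsto (fun k => 𝒮.T j (rep (𝒮.ch i) (𝒮.ch j) (Φ k).φ y)) U
      (𝓝 (𝒮.T j (rep (𝒮.ch i) (𝒮.ch j) ψ y))) :=
  (((𝒮.contT j).continuousAt ((𝒮.met j).isOpen.mem_nhds (g8_tgt h hy).2)).tendsto).comp (g8_fk h hy)

theorem LocLim.conf (h : LocLim Φ U ψ i j y0 r H) {y : E} (hy : y ∈ Metric.ball y0 r) (u v : E) :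
    𝒮.g j (rep (𝒮.ch i) (𝒮.ch j) ψ y) (lH (H y) u) (lH (H y) v) = cH (H y) ^ 2 * 𝒮.g i y u v := by
  have hL := g8_Lk h hy
  have h1 := g8_app (g8_app (g8_gk h hy) (g8_app hL (tendsto_const_nhds (x := u))))
    (g8_app hL (tendsto_const_nhds (x := v)))
  have h2 : Tendsto (fun k => (Φ k).c ((𝒮.ch i).symm y) ^ 2 * 𝒮.g i y u v) U
      (𝓝 (cH (H y) ^ 2 * 𝒮.g i y u v)) := ((h.tendsto_c hy).pow 2).mul_const _
  refine tendsto_nhds_unique (h1.congr' ?_) h2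
  filter_upwards [g8_dom h hy] with k hk
  exact ((Φ k).h.lc i j).conf y hk u v

theorem LocLim.orient (h : LocLim Φ U ψ i j y0 r H) {y : E} (hy : y ∈ Metric.ball y0 r) :
    𝒮.g j (rep (𝒮.ch i) (𝒮.ch j) ψ y) (𝒮.T j (rep (𝒮.ch i) (𝒮.ch j) ψ y)) (lH (H y) (𝒮.T i y)) < 0 := by
  have hL := g8_Lk h hy
  have h1 := g8_app (g8_app (g8_gk h hy) (g8_Tk h hy))
    (g8_app hL (tendsto_const_nhds (x := 𝒮.T i y)))
  have h2 : 𝒮.g j (rep (𝒮.ch i) (𝒮.ch j) ψ y) (𝒮.T j (rep (𝒮.ch i) (𝒮.ch j) ψ y))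
      (lH (H y) (𝒮.T i y)) ≤ 0 := by
    refine le_of_tendsto h1 ?_
    filter_upwards [g8_dom h hy] with k hk
    exact ((Φ k).h.orient i j y hk).le
  have h3 : 𝒮.g j (rep (𝒮.ch i) (𝒮.ch j) ψ y) (lH (H y) (𝒮.T i y)) (lH (H y) (𝒮.T i y)) < 0 := by
    rw [h.conf hy]
    exact mul_neg_of_pos_of_neg (pow_pos (h.posc hy) 2) (𝒮.lor i y (g8_tgt h hy).1).neg
  refine lt_of_le_of_ne h2 fun h4 => ?_
  have h5 : lH (H y) (𝒮.T i y) ≠ 0 := by
    intro h6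
    rw [h6] at h3
    simp at h3
  have h7 := (𝒮.lor j _ (g8_tgt h hy).2).pos _ h5 h4
  linarith

/-- the factor as a continuous linear form -/
def g8_cL (E : Type*) [NormedAddCommGroup E] [NormedSpace ℝ E] : EndT E →L[ℝ] ℝ :=
  (ContinuousLinearMap.fst ℝ ℝ (E × ℝ)).comp
    (ContinuousLinearMap.apply ℝ (Tr E) ((1, 0, 0) : Tr E))

theorem g8_cL_apply (K : EndT E) : g8_cL E K = cH K := rfl

theorem g8_dc (h : LocLim Φ U ψ i j y0 r H) {y : E} (hy : y ∈ Metric.ball y0 r) :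
    HasFDerivAt (fun z => cH (H z)) ((g8_cL E).comp ((ContinuousLinearMap.snd ℝ E (EndT E)).comp
      (Psi (𝒮.g i) (𝒮.g j) (y, rep (𝒮.ch i) (𝒮.ch j) ψ y, H y)))) y :=
  (g8_cL E).hasFDerivAt.comp y (h.deriv y hy).snd

theorem g8_dck (hD : 3 ≤ Module.finrank ℝ E) (Φ : Cf 𝒮) {y : E}
    (hy : y ∈ domR (𝒮.ch i) (𝒮.ch j) Φ.φ) :
    HasFDerivAt (fun z => Φ.c ((𝒮.ch i).symm z)) ((g8_cL E).comp
      ((ContinuousLinearMap.snd ℝ E (EndT E)).comp
      (Psi (𝒮.g i) (𝒮.g j) (y, Yf Φ i j y)))) y := by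
  have h1 := (g8_cL E).hasFDerivAt.comp y (Yf_deriv hD Φ hy).snd
  refine h1.congr_of_eventuallyEq (Filter.Eventually.of_forall fun z => ?_)
  exact (cH_Hm (g := 𝒮.g i) (f := rep (𝒮.ch i) (𝒮.ch j) Φ.φ)
    (c := fun z => Φ.c ((𝒮.ch i).symm z)) (y := z)).symm

theorem LocLim.Hm_eq (hD : 3 ≤ Module.finrank ℝ E) (h : LocLim Φ U ψ i j y0 r H) {y : E}
    (hy : y ∈ Metric.ball y0 r) :
    H y = Hm (𝒮.g i) (rep (𝒮.ch i) (𝒮.ch j) ψ) (fun z => cH (H z)) y := by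
  refine tendsto_nhds_unique (g8_Hk h hy) (Hm_tendsto (h.posc hy).ne' (h.tendsto_c hy) ?_ ?_)
  · rw [(h.L hy).fderiv]
    exact g8_Lk h hy
  · rw [(g8_dc h hy).fderiv]
    have hΩ : IsOpen ((𝒮.ch i).target ×ˢ ((𝒮.ch j).target ×ˢ (univ : Set (EndT E)))) :=
      (𝒮.met i).isOpen.prod ((𝒮.met j).isOpen.prod isOpen_univ)
    have hmem : ((y, rep (𝒮.ch i) (𝒮.ch j) ψ y, H y) : E × E × EndT E) ∈
        ((𝒮.ch i).target ×ˢ ((𝒮.ch j).target ×ˢ (univ : Set (EndT E)))) :=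
      ⟨(g8_tgt h hy).1, (g8_tgt h hy).2, mem_univ _⟩
    have hΨ : ContinuousAt (Psi (𝒮.g i) (𝒮.g j)) (y, rep (𝒮.ch i) (𝒮.ch j) ψ y, H y) :=
      (Psi_smooth (𝒮.met i) (𝒮.met j)).continuousOn.continuousAt (hΩ.mem_nhds hmem)
    have h1 : Tendsto (fun k => Psi (𝒮.g i) (𝒮.g j) (y, Yf (Φ k) i j y)) U
        (𝓝 (Psi (𝒮.g i) (𝒮.g j) (y, rep (𝒮.ch i) (𝒮.ch j) ψ y, H y))) :=
      hΨ.tendsto.comp (tendsto_const_nhds.prodMk_nhds (g8_conv h hy))
    have h2 : Continuous fun P : E →L[ℝ] (E × EndT E) =>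
        (g8_cL E).comp ((ContinuousLinearMap.snd ℝ E (EndT E)).comp P) :=
      continuous_const.clm_comp (continuous_const.clm_comp continuous_id)
    have h3 := (h2.tendsto _).comp h1
    refine h3.congr' ?_
    filter_upwards [g8_dom h hy] with k hk
    exact (g8_dck hD (Φ k) hk).fderiv.symm

end Pool.Agent.EG

end

end M_G8

section M_G9

/-!
Row ec-G9 (the limit is a conformal map; the jets converge).
`isCf_of_lim`: for x ∈ M with charts i ∋ x, j ∋ ψ x let r, H from local_limit at y0 = ch_i x; tendsto_c at y0: (Φ k).c x → cH (H y0) =: c x (choose; independent of the charts by uniqueness of limits: define c x as THE limit, by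
`choose` from ∃ a, Tendsto (fun k => (Φ k).c x) U (𝓝 a)).  IsLC for i, j: at each y ∈ domR i j ψ take the local limit at y: on the ball c ∘ ch_i.symm = cH ∘ H (limits unique), so smooth_f, smooth_c (ContDiffOn from local ContDiffAt;
LocLim.smooth, contDiff_cH), pos, conf (fderiv = lH (H y), LocLim.L.fderiv), maps/sub trivial, domR_open.  orient: LocLim.orient.
`limit_exists`: lim_homeo + isCf_of_lim.
`jets_conv`: y0 = ch_i z0; local_limit: Yf Φ_k i j y → (f y0, H y0) along U ×ˢ 𝓝 y0; compose with p ↦ (p.1, ch_i p.2) (HHm = (Yf ..).2 at ch_i x).  H y0 = HHm Ψ i j z0: by Hm_eq, H y0 = Hm (g i) (rep Ψ) (cH ∘ H) y0 and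
cH ∘ H = Ψ.c ∘ ch_i.symm on the ball: both c := cH (H y) and d := Ψ.c(..) satisfy c² g(T,T) = d² g(T,T) (LocLim.conf and (Ψ.h.lc i j).conf with fderiv = lH (H y)), g(T,T) ≠ 0, c, d > 0.  Hm_congr.
-/

open scoped ContDiff Topology
open Set Filter

noncomputable section

set_option linter.unusedSectionVars false
set_option maxSynthPendingDepth 3

namespace Pool.Agent.EG

universe u

variable {E : Type*} [NormedAddCommGroup E] [NormedSpace ℝ E] [FiniteDimensional ℝ E]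
variable {M : Type u} [TopologicalSpace M] {ι : Type*}
variable {𝒮 : LSys E M ι}

theorem g9_factor [T2Space M] (hD : 3 ≤ Module.finrank ℝ E) (hJ : AllJB 𝒮) {κ : Type u} {U : Ultrafilter κ}
    {Φ : κ → Cf 𝒮} {ψ : M → M} (hψ : LimMap (fun k => (Φ k).φ) U ψ) (x : M) :
    ∃ a : ℝ, Tendsto (fun k => (Φ k).c x) U (𝓝 a) := by
  obtain ⟨i, hi⟩ := 𝒮.cover x
  obtain ⟨j, hj⟩ := 𝒮.cover (ψ x)
  obtain ⟨r, H, h⟩ := local_limit hD hJ hψ (mem_domR hi hj)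
  have h1 := h.tendsto_c (Metric.mem_ball_self h.pos)
  rw [(𝒮.ch i).left_inv hi] at h1
  exact ⟨_, h1⟩

theorem g9_smooth_fst {κ : Type*} {Φ : κ → Cf 𝒮} {U : Filter κ} {ψ : M → M} {i j : ι} {y0 : E} {r : ℝ}
    {H : E → EndT E} (h : LocLim Φ U ψ i j y0 r H) :
    ContDiffAt ℝ ∞ (rep (𝒮.ch i) (𝒮.ch j) ψ) y0 := by
  have h1 : ContDiffOn ℝ ∞ (fun z => ((rep (𝒮.ch i) (𝒮.ch j) ψ z, H z) : E × EndT E).1)
      (Metric.ball y0 r) := contDiff_fst.comp_contDiffOn h.smooth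
  exact h1.contDiffAt (Metric.ball_mem_nhds y0 h.pos)

theorem g9_smooth_cH {κ : Type*} {Φ : κ → Cf 𝒮} {U : Filter κ} {ψ : M → M} {i j : ι} {y0 : E} {r : ℝ}
    {H : E → EndT E} (h : LocLim Φ U ψ i j y0 r H) :
    ContDiffAt ℝ ∞ (fun z => cH (H z)) y0 := by
  have h1 : ContDiffOn ℝ ∞ (fun z => cH ((rep (𝒮.ch i) (𝒮.ch j) ψ z, H z) : E × EndT E).2)
      (Metric.ball y0 r) := contDiff_cH.comp_contDiffOn (contDiff_snd.comp_contDiffOn h.smooth)
  exact h1.contDiffAt (Metric.ball_mem_nhds y0 h.pos)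

theorem isCf_of_lim [T2Space M] (hD : 3 ≤ Module.finrank ℝ E) (hJ : AllJB 𝒮) {κ : Type u} {U : Ultrafilter κ}
    {Φ : κ → Cf 𝒮} {ψ : M ≃ₜ M} (hψ : LimMap (fun k => (Φ k).φ) U ψ) : ∃ c : M → ℝ, IsCf 𝒮 ψ c := by
  choose c hc using g9_factor hD hJ hψ
  have key : ∀ (i j : ι) (y : E), y ∈ domR (𝒮.ch i) (𝒮.ch j) ψ → ∃ r H, LocLim Φ U ψ i j y r H ∧
      ∀ z ∈ Metric.ball y r, c ((𝒮.ch i).symm z) = cH (H z) := by
    intro i j y hy
    obtain ⟨r, H, h⟩ := local_limit hD hJ hψ hy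
    exact ⟨r, H, h, fun z hz => tendsto_nhds_unique (hc _) (h.tendsto_c hz)⟩
  refine ⟨c, ⟨fun i j => ⟨𝒮.met i, 𝒮.met j, domR_open _ _ ψ.continuous, inter_subset_left,
    fun y hy => (𝒮.ch j).map_source hy.2, ?_, ?_, ?_, ?_⟩, ?_⟩⟩
  · intro y hy
    obtain ⟨r, H, h, _⟩ := key i j y hy
    exact (g9_smooth_fst h).contDiffWithinAt
  · intro y hy
    obtain ⟨r, H, h, he⟩ := key i j y hy
    have h1 : (fun z => c ((𝒮.ch i).symm z)) =ᶠ[𝓝 y] fun z => cH (H z) := by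
      filter_upwards [Metric.ball_mem_nhds y h.pos] with z hz
      exact he z hz
    exact ((g9_smooth_cH h).congr_of_eventuallyEq h1).contDiffWithinAt
  · intro y hy
    obtain ⟨r, H, h, he⟩ := key i j y hy
    have h0 := Metric.mem_ball_self (x := y) h.pos
    show 0 < c ((𝒮.ch i).symm y)
    rw [he y h0]
    exact h.posc h0
  · intro y hy u v
    obtain ⟨r, H, h, he⟩ := key i j y hy
    have h0 := Metric.mem_ball_self (x := y) h.pos
    rw [(h.L h0).fderiv]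
    show _ = c ((𝒮.ch i).symm y) ^ 2 * _
    rw [he y h0]
    exact h.conf h0 u v
  · intro i j y hy
    obtain ⟨r, H, h, he⟩ := key i j y hy
    have h0 := Metric.mem_ball_self (x := y) h.pos
    rw [(h.L h0).fderiv]
    exact h.orient h0

theorem limit_exists [T2Space M] [SecondCountableTopology M] (hN : Noh 𝒮) (hD : 3 ≤ Module.finrank ℝ E)
    (hJ : AllJB 𝒮) {κ : Type u} {U : Ultrafilter κ} {Φ : κ → Cf 𝒮} {x : κ → M} {x0 y0 : M}
    (hx : Tendsto x U (𝓝 x0)) (hy : Tendsto (fun k => (Φ k).φ (x k)) U (𝓝 y0)) :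
    ∃ Ψ : Cf 𝒮, LimCf Φ U Ψ := by
  obtain ⟨ψ, h1, h2⟩ := lim_homeo hN hD hJ hx hy
  obtain ⟨c, hc⟩ := isCf_of_lim hD hJ h1
  exact ⟨⟨ψ, c, hc⟩, h1, h2⟩

theorem jets_conv [T2Space M] (hD : 3 ≤ Module.finrank ℝ E) (hJ : AllJB 𝒮) {κ : Type u} {U : Ultrafilter κ}
    {Φ : κ → Cf 𝒮} {Ψ : Cf 𝒮} (h : LimMap (fun k => (Φ k).φ) U Ψ.φ) {z0 : M} {i j : ι}
    (hi : z0 ∈ (𝒮.ch i).source) (hj : Ψ.φ z0 ∈ (𝒮.ch j).source) :
    Tendsto (fun p : κ × M => HHm (Φ p.1) i j p.2) ((U : Filter κ) ×ˢ 𝓝 z0) (𝓝 (HHm Ψ i j z0)) := by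
  obtain ⟨r, H, hL⟩ := local_limit hD hJ h (mem_domR hi hj)
  have h0 := Metric.mem_ball_self (x := 𝒮.ch i z0) hL.pos
  have h1 : Tendsto (fun p : κ × M => ((p.1, 𝒮.ch i p.2) : κ × E)) ((U : Filter κ) ×ˢ 𝓝 z0)
      ((U : Filter κ) ×ˢ 𝓝 (𝒮.ch i z0)) := tendsto_id.prodMap ((𝒮.ch i).continuousAt hi)
  have h2 : Tendsto (fun p : κ × M => (Yf (Φ p.1) i j (𝒮.ch i p.2)).2) ((U : Filter κ) ×ˢ 𝓝 z0)
      (𝓝 (H (𝒮.ch i z0))) := (continuous_snd.tendsto _).comp ((hL.conv _ h0).comp h1)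
  have h3 : H (𝒮.ch i z0) = HHm Ψ i j z0 := by
    rw [hL.Hm_eq hD h0]
    unfold HHm
    refine Hm_congr EventuallyEq.rfl ?_
    filter_upwards [Metric.ball_mem_nhds _ hL.pos] with z hz
    have hz' := hL.sub hz
    have e1 := hL.conf hz (𝒮.T i z) (𝒮.T i z)
    have e2 := (Ψ.h.lc i j).conf z hz' (𝒮.T i z) (𝒮.T i z)
    rw [(hL.L hz).fderiv, e1] at e2
    have e3 : 𝒮.g i z (𝒮.T i z) (𝒮.T i z) ≠ 0 := (𝒮.lor i z hz'.1).neg.ne
    have e4 := mul_right_cancel₀ e3 e2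
    have p1 : 0 < cH (H z) := hL.posc hz
    have p2 : 0 < Ψ.c ((𝒮.ch i).symm z) := (Ψ.h.lc i j).pos z hz'
    exact (sq_eq_sq₀ p1.le p2.le).1 e4
  rw [← h3]
  exact h2

end Pool.Agent.EG

end

end M_G9

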