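import Pool.Agent.Lib.MP_eeed5f_gt.GB
import Pool.Agent.Lib.MP_eeed5f_gt.C1
import Pool.Agent.Lib.MP_eeed5f_gt.GA
import Pool.Agent.Lib.MP_eeed5f_gt.G15

section M_G12

/-!
Row ec-G12 (properness; the group is locally compact; the factor and the jets are jointly continuous).
`isCompact_ret`: isCompact_iff_ultrafilter_le_nhds.  W an ultrafilter on Cf 𝒮 with S ∈ W; choose x_Φ ∈ A with Φ x_Φ ∈ B for Φ ∈ S (x_Φ arbitrary otherwise; if S = ∅ nothing to do); index type κ = Cf 𝒮 (in Type u), Φ = id.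
x_Φ → x0 ∈ A, Φ x_Φ → y0 ∈ B along W (compactness, IsCompact.ultrafilter_le_nhds for W.map).  limit_exists: LimCf id W Ψ; cf_tendsto_iff: W ≤ 𝓝 Ψ; Φ x_Φ → Ψ x0 (LimMap), so Ψ x0 = y0 ∈ B, Ψ ∈ S.
`cf_locallyCompact`: x0 a point, B a compact neighbourhood of x0: {Φ | ∃ x ∈ {x0}, Φ x ∈ B} is compact and a neighbourhood of 1 (cont_act): IsCompact.locallyCompactSpace_of_mem_nhds_of_group.
`contAt_HHm`: tendsto along 𝓝 Ψ ×ˢ 𝓝 z0 (nhds_prod_eq): tendsto_iff_ultrafilter; W ultrafilter on Cf 𝒮 × M (index type in Type u) ≤ 𝓝 Ψ ×ˢ 𝓝 z0, Φ' = Prod.fst → Ψ along W, so LimCf Φ' W Ψ (cf_tendsto_iff); jets_conv, composed with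
p ↦ (p, p.2), which tends to W ×ˢ 𝓝 z0 along W.
`cont_c`: Φ.c x = cH (HHm Φ i j x) near (Ψ, z0) (cH_HHm; x ∈ source i near z0), contDiff_cH.
-/

open scoped ContDiff Topology
open Set Filter

noncomputable section

set_option linter.unusedSectionVars false
set_option maxSynthPendingDepth 3

namespace Pool.Agent.EG

universe u

variable {E : Type*} [NormedAddCommGroup E] [NormedSpace ℝ E] [FiniteDimensional ℝ E]
variable {M : Type u} [TopologicalSpace M] {ι : Type*}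
variable {𝒮 : LSys E M ι}

theorem isCompact_ret [T2Space M] [SecondCountableTopology M] [LocallyCompactSpace M] (hN : Noh 𝒮)
    (hD : 3 ≤ Module.finrank ℝ E) (hJ : AllJB 𝒮) {A B : Set M} (hA : IsCompact A) (hB : IsCompact B) :
    IsCompact {Φ : Cf 𝒮 | ∃ x ∈ A, Φ.φ x ∈ B} := by
  rw [isCompact_iff_ultrafilter_le_nhds]
  intro W hW
  have hS : {Φ : Cf 𝒮 | ∃ x ∈ A, Φ.φ x ∈ B} ∈ (W : Filter (Cf 𝒮)) := le_principal_iff.1 hW
  obtain ⟨Φ0, x00, hx00, -⟩ := Filter.nonempty_of_mem hS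
  have hch : ∀ Φ : Cf 𝒮, ∃ x : M, (∃ y ∈ A, Φ.φ y ∈ B) → (x ∈ A ∧ Φ.φ x ∈ B) := by
    intro Φ
    by_cases h : ∃ y ∈ A, Φ.φ y ∈ B
    · obtain ⟨y, hy, hyB⟩ := h
      exact ⟨y, fun _ => ⟨hy, hyB⟩⟩
    · exact ⟨x00, fun h' => absurd h' h⟩
  choose x hx using hch
  have hxA : A ∈ (W.map x : Filter M) := by
    show x ⁻¹' A ∈ (W : Filter (Cf 𝒮))
    filter_upwards [hS] with Φ hΦ using (hx Φ hΦ).1
  have hxB : B ∈ (W.map (fun Φ => Φ.φ (x Φ)) : Filter M) := by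
    show (fun Φ : Cf 𝒮 => Φ.φ (x Φ)) ⁻¹' B ∈ (W : Filter (Cf 𝒮))
    filter_upwards [hS] with Φ hΦ using (hx Φ hΦ).2
  obtain ⟨x0, hx0A, hx0⟩ := isCompact_iff_ultrafilter_le_nhds.1 hA (W.map x) (le_principal_iff.2 hxA)
  obtain ⟨y0, hy0B, hy0⟩ := isCompact_iff_ultrafilter_le_nhds.1 hB (W.map (fun Φ => Φ.φ (x Φ)))
    (le_principal_iff.2 hxB)
  have tx : Tendsto x W (𝓝 x0) := hx0
  have ty : Tendsto (fun Φ : Cf 𝒮 => Φ.φ (x Φ)) W (𝓝 y0) := hy0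
  obtain ⟨Ψ, hΨ⟩ := limit_exists hN hD hJ (κ := Cf 𝒮) (U := W) (Φ := fun Φ => Φ) tx ty
  have hΨt : Tendsto (fun Φ : Cf 𝒮 => Φ) (W : Filter (Cf 𝒮)) (𝓝 Ψ) := cf_tendsto_iff.2 hΨ
  refine ⟨Ψ, ⟨x0, hx0A, ?_⟩, hΨt⟩
  have h1 : Tendsto (fun Φ : Cf 𝒮 => Φ.φ (x Φ)) W (𝓝 (Ψ.φ x0)) :=
    (hΨ.1 x0).comp (tendsto_id.prodMk tx)
  rw [tendsto_nhds_unique h1 ty]
  exact hy0B

theorem cf_locallyCompact [T2Space M] [SecondCountableTopology M] [LocallyCompactSpace M] [Nonempty M]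
    (hN : Noh 𝒮) (hD : 3 ≤ Module.finrank ℝ E) (hJ : AllJB 𝒮) : LocallyCompactSpace (Cf 𝒮) := by
  have := cf_topGroup (𝒮 := 𝒮)
  obtain ⟨x0⟩ := ‹Nonempty M›
  obtain ⟨B, hB, hBx⟩ := exists_compact_mem_nhds x0
  have hK := isCompact_ret (𝒮 := 𝒮) hN hD hJ (isCompact_singleton (x := x0)) hB
  refine hK.locallyCompactSpace_of_mem_nhds_of_group (x := 1) ?_
  have h1 : Continuous fun Φ : Cf 𝒮 => Φ.φ x0 :=
    cont_act.comp (continuous_id.prodMk continuous_const)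
  have h2 : ∀ᶠ Φ in 𝓝 (1 : Cf 𝒮), Φ.φ x0 ∈ B := h1.continuousAt.eventually hBx
  filter_upwards [h2] with Φ hΦ using ⟨x0, rfl, hΦ⟩

theorem contAt_HHm [T2Space M] [LocallyCompactSpace M] (hD : 3 ≤ Module.finrank ℝ E) (hJ : AllJB 𝒮)
    {Ψ : Cf 𝒮} {z0 : M} {i j : ι} (hi : z0 ∈ (𝒮.ch i).source) (hj : Ψ.φ z0 ∈ (𝒮.ch j).source) :
    ContinuousAt (fun p : Cf 𝒮 × M => HHm p.1 i j p.2) (Ψ, z0) := by
  unfold ContinuousAt
  rw [nhds_prod_eq, tendsto_iff_ultrafilter]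
  intro W hW
  have h1 : Tendsto (fun p : Cf 𝒮 × M => p.1) (W : Filter (Cf 𝒮 × M)) (𝓝 Ψ) :=
    tendsto_fst.mono_left hW
  have hL : LimCf (fun p : Cf 𝒮 × M => p.1) (W : Filter (Cf 𝒮 × M)) Ψ := cf_tendsto_iff.1 h1
  have h2 := jets_conv hD hJ (κ := Cf 𝒮 × M) (U := W) (Φ := fun p => p.1) hL.1 hi hj
  exact h2.comp (tendsto_id.prodMk (tendsto_snd.mono_left hW))

theorem cont_c [T2Space M] [LocallyCompactSpace M] (hD : 3 ≤ Module.finrank ℝ E) (hJ : AllJB 𝒮) :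
    Continuous (fun p : Cf 𝒮 × M => p.1.c p.2) := by
  rw [continuous_iff_continuousAt]
  rintro ⟨Ψ, z0⟩
  obtain ⟨i, hi⟩ := 𝒮.cover z0
  obtain ⟨j, hj⟩ := 𝒮.cover (Ψ.φ z0)
  have h : ContinuousAt (fun p : Cf 𝒮 × M => cH (HHm p.1 i j p.2)) (Ψ, z0) :=
    ContinuousAt.comp (g := (cH : EndT E → ℝ)) (contDiff_cH (E := E)).continuous.continuousAt
      (contAt_HHm hD hJ hi hj)
  refine h.congr ?_
  have h2 : ∀ᶠ p in 𝓝 (Ψ, z0), p.2 ∈ (𝒮.ch i).source :=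
    continuous_snd.continuousAt.eventually ((𝒮.ch i).open_source.mem_nhds hi)
  filter_upwards [h2] with p hp
  exact cH_HHm p.1 hp

end Pool.Agent.EG

end

end M_G12

section M_G16

/-!
Row ec-G16 (the cut-off function).
`exists_m`: m x = ⨅ Φ : Cf 𝒮, h (Φ.φ x) (bounded below by 0).  Invariance: reindex by Φ ↦ Φ * Ψ (Equiv.mulRight).  ∃ Φ, h (Φ x) < m x + 1: exists_lt_of_ciInf_lt.
Continuity at x0: (upper) {x | m x < a} is open: m x < a iff ∃ Φ, h (Φ x) < a, h ∘ Φ continuous.  (lower) for a < m x0 show m > a near x0, i.e. (a < b < m x0) otherwise there is an ultrafilter W on M, W ≤ 𝓝 x0, with m x < b for W-almost all x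
(frequently): choose Φ_x with h (Φ_x x) < b; index type κ = M: points Φ_x x in the compact set {h ≤ b} converge along W to y0, x → x0; limit_exists (x = id): Ψ with Φ_x x → Ψ x0 (LimMap along p ↦ (x,x)), h (Ψ x0) ≤ b < m x0 ≤ h (Ψ x0), contradiction.
`cutoff`: h from proper_fn, m from exists_m; A = {h ≤ m + 1}, B = {m + 2 ≤ h} closed disjoint; χ from smooth_urysohn.  ∃ Φ with h (Φ x) < m x + 1 = m (Φ x) + 1: χ (Φ x) = 1 > 0.  Given x0: N = {x | m x < m x0 + 1}, K = {h ≤ m x0 + 3}: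
χ (Φ x) ≠ 0 implies h (Φ x) < m (Φ x) + 2 = m x + 2 < m x0 + 3.
-/

open scoped ContDiff Topology
open Set Filter

noncomputable section

set_option linter.unusedSectionVars false
set_option maxSynthPendingDepth 3

namespace Pool.Agent.EG

universe u

variable {E : Type*} [NormedAddCommGroup E] [NormedSpace ℝ E] [FiniteDimensional ℝ E]
variable {M : Type u} [TopologicalSpace M] {ι : Type*}
variable {𝒮 : LSys E M ι}

theorem exists_m [T2Space M] [SecondCountableTopology M] [LocallyCompactSpace M] (hN : Noh 𝒮)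
    (hD : 3 ≤ Module.finrank ℝ E) (hJ : AllJB 𝒮) {h : M → ℝ} (hc : Continuous h) (h0 : ∀ x, 0 ≤ h x)
    (hp : ∀ a : ℝ, IsCompact {x | h x ≤ a}) :
    ∃ m : M → ℝ, Continuous m ∧ (∀ (Φ : Cf 𝒮) (x : M), m (Φ.φ x) = m x) ∧
      ∀ x, ∃ Φ : Cf 𝒮, h (Φ.φ x) < m x + 1 := by
  have hbdd : ∀ x, BddBelow (Set.range fun Φ : Cf 𝒮 => h (Φ.φ x)) := fun x =>
    ⟨0, by rintro _ ⟨Φ, rfl⟩; exact h0 _⟩
  have : Nonempty (Cf 𝒮) := ⟨1⟩
  set m : M → ℝ := fun x => ⨅ Φ : Cf 𝒮, h (Φ.φ x) with hm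
  have hle : ∀ (Φ : Cf 𝒮) (x : M), m x ≤ h (Φ.φ x) := fun Φ x => ciInf_le (hbdd x) Φ
  have hlt : ∀ (x : M) (a : ℝ), m x < a → ∃ Φ : Cf 𝒮, h (Φ.φ x) < a := fun x a hx =>
    exists_lt_of_ciInf_lt hx
  refine ⟨m, ?_, ?_, ?_⟩
  · rw [continuous_iff_continuousAt]
    intro x0
    unfold ContinuousAt
    rw [tendsto_order]
    refine ⟨fun a ha => ?_, fun a ha => ?_⟩
    · by_contra hcon
      obtain ⟨b, hab, hb⟩ := exists_between ha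
      have hfr : ∃ᶠ x in 𝓝 x0, x ∈ {x | m x < b} := by
        have h1 : ∃ᶠ x in 𝓝 x0, ¬ a < m x := Filter.not_eventually.mp hcon
        refine h1.mono fun x hx => ?_
        exact lt_of_le_of_lt (not_lt.mp hx) hab
      have hne : NeBot (𝓝 x0 ⊓ 𝓟 {x | m x < b}) := Filter.frequently_mem_iff_neBot.mp hfr
      let W : Ultrafilter M := Ultrafilter.of (𝓝 x0 ⊓ 𝓟 {x | m x < b})
      have hW1 : (W : Filter M) ≤ 𝓝 x0 := (Ultrafilter.of_le _).trans inf_le_left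
      have hW2 : (W : Filter M) ≤ 𝓟 {x | m x < b} := (Ultrafilter.of_le _).trans inf_le_right
      have hex : ∀ x : M, ∃ Φ : Cf 𝒮, m x < b → h (Φ.φ x) < b := by
        intro x
        by_cases hx : m x < b
        · obtain ⟨Φ, hΦ⟩ := hlt x b hx
          exact ⟨Φ, fun _ => hΦ⟩
        · exact ⟨1, fun h' => absurd h' hx⟩
      choose Φ hΦ using hex
      have hmap : ((W.map (fun x => (Φ x).φ x) : Ultrafilter M) : Filter M) ≤
          𝓟 {y | h y ≤ b} := by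
        rw [Filter.le_principal_iff, Ultrafilter.mem_coe, Ultrafilter.mem_map]
        refine Filter.mem_of_superset (Filter.le_principal_iff.mp hW2) fun x hx => ?_
        exact (hΦ x hx).le
      obtain ⟨y0, hy0, hy⟩ := isCompact_iff_ultrafilter_le_nhds.mp (hp b) _ hmap
      have hy' : Tendsto (fun x => (Φ x).φ x) (W : Filter M) (𝓝 y0) := by
        have := hy
        rw [Ultrafilter.coe_map] at this
        exact this
      have hx' : Tendsto (fun x : M => x) (W : Filter M) (𝓝 x0) := hW1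
      obtain ⟨Ψ, hΨ, -⟩ := limit_exists hN hD hJ (U := W) (Φ := Φ) (x := fun x => x) hx' hy'
      have h2 : Tendsto (fun x : M => (Φ x).φ x) (W : Filter M) (𝓝 (Ψ.φ x0)) := by
        have h3 : Tendsto (fun x : M => (x, x)) (W : Filter M) ((W : Filter M) ×ˢ 𝓝 x0) :=
          Filter.Tendsto.prodMk Filter.tendsto_id hx'
        exact (hΨ x0).comp h3
      have h4 : Ψ.φ x0 = y0 := tendsto_nhds_unique h2 hy'
      have h5 := hle Ψ x0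
      rw [h4] at h5
      have h6 : h y0 ≤ b := hy0
      linarith
    · obtain ⟨Φ, hΦ⟩ := hlt x0 a ha
      have hcont : Continuous fun x => h (Φ.φ x) := hc.comp Φ.φ.continuous
      filter_upwards [hcont.continuousAt.eventually (gt_mem_nhds hΦ)] with x hx
      exact lt_of_le_of_lt (hle Φ x) hx
  · intro Ψ x
    have h1 : m (Ψ.φ x) = ⨅ Φ : Cf 𝒮, h (((Equiv.mulRight Ψ) Φ).φ x) := by
      simp only [hm]
      rfl
    rw [h1, (Equiv.mulRight Ψ).surjective.iInf_comp (fun Φ : Cf 𝒮 => h (Φ.φ x))]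
  · intro x
    exact hlt x _ (by linarith)

theorem cutoff [T2Space M] [SecondCountableTopology M] [LocallyCompactSpace M] (hN : Noh 𝒮)
    (hD : 3 ≤ Module.finrank ℝ E) (hJ : AllJB 𝒮) :
    ∃ χ : M → ℝ, (∀ i, ContDiffOn ℝ ∞ (fun y => χ ((𝒮.ch i).symm y)) (𝒮.ch i).target) ∧
      (∀ x, 0 ≤ χ x) ∧ (∀ x, ∃ Φ : Cf 𝒮, 0 < χ (Φ.φ x)) ∧
      ∀ x0, ∃ N ∈ 𝓝 x0, ∃ K : Set M, IsCompact K ∧ ∀ (Φ : Cf 𝒮), ∀ x ∈ N, χ (Φ.φ x) ≠ 0 → Φ.φ x ∈ K := by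
  obtain ⟨h, hc, h0, hp⟩ := proper_fn M
  obtain ⟨m, hmc, hminv, hm⟩ := exists_m hN hD hJ hc h0 hp
  have hA : IsClosed {x | h x ≤ m x + 1} := isClosed_le hc (hmc.add continuous_const)
  have hB : IsClosed {x | m x + 2 ≤ h x} := isClosed_le (hmc.add continuous_const) hc
  have hAB : Disjoint {x | h x ≤ m x + 1} {x | m x + 2 ≤ h x} := by
    rw [Set.disjoint_left]
    intro x hx hx'
    simp only [Set.mem_ofPred_eq] at hx hx'
    linarith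
  obtain ⟨χ, hχ, hχ0, hχA, hχB⟩ := smooth_urysohn 𝒮 hA hB hAB
  refine ⟨χ, hχ, hχ0, fun x => ?_, fun x0 => ?_⟩
  · obtain ⟨Φ, hΦ⟩ := hm x
    refine ⟨Φ, ?_⟩
    rw [hχA (Φ.φ x) (by
      show h (Φ.φ x) ≤ m (Φ.φ x) + 1
      rw [hminv]
      exact hΦ.le)]
    exact one_pos
  · refine ⟨{x | m x < m x0 + 1}, ?_, {y | h y ≤ m x0 + 3}, hp _, ?_⟩
    · exact (isOpen_lt hmc continuous_const).mem_nhds (by
        show m x0 < m x0 + 1
        linarith)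
    · intro Φ x hx hne
      have h1 : ¬ (m (Φ.φ x) + 2 ≤ h (Φ.φ x)) := fun h' => hne (hχB _ h')
      rw [hminv] at h1
      have hx' : m x < m x0 + 1 := hx
      show h (Φ.φ x) ≤ m x0 + 3
      linarith [not_le.mp h1]

end Pool.Agent.EG

end

end M_G16

section M_G17

/-!
Row ec-G17 (the Haar average: invariance and positivity).
`avgF_inv`: avgF (Ψ x) * Ψ.c x ^ 2 = ∫ χ(Φ⁻¹ Ψ x) (c_{Φ⁻¹}(Ψ x) c_Ψ(x))² = ∫ χ((Ψ⁻¹Φ)⁻¹ x) c_{(Ψ⁻¹Φ)⁻¹}(x)² dμ(Φ) ((Ψ⁻¹Φ)⁻¹ = Φ⁻¹Ψ, mul_φ, mul_c; integral_mul_const to move the constant in) = ∫ f_x(Ψ⁻¹ * Φ) = ∫ f_x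
(integral_mul_left_eq_self; needs MeasurableMul: from BorelSpace and ContinuousMul).
`avgF_pos`: f_x(Φ) = χ(Φ⁻¹x) c_{Φ⁻¹}(x)² is continuous (cont_act, cont_c, continuous_inv; χ continuous: it is smooth in the charts), ≥ 0, f_x(Φ⁻¹) > 0 for the Φ of hpos (IsCf.pos: the factor is positive); compact support: f_x(Φ) ≠ 0 implies
Φ⁻¹ ∈ {Ψ | ∃ z ∈ {x}, Ψ z ∈ K} =: C compact (isCompact_ret), so Φ ∈ C⁻¹ compact (IsCompact.inv): HasCompactSupport.of_support_subset_isCompact-type lemma (HasCompactSupport.intro).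
Continuous.integral_pos_of_hasCompactSupport_nonneg_nonzero.
-/

open scoped ContDiff Topology
open Set Filter

noncomputable section

set_option linter.unusedSectionVars false
set_option maxSynthPendingDepth 3

namespace Pool.Agent.EG

open MeasureTheory

universe u

variable {E : Type*} [NormedAddCommGroup E] [NormedSpace ℝ E] [FiniteDimensional ℝ E]
variable {M : Type u} [TopologicalSpace M] {ι : Type*}
variable {𝒮 : LSys E M ι}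

/-- the integrand of the Haar average -/
def avgf (χ : M → ℝ) (x : M) (Φ : Cf 𝒮) : ℝ := χ ((Φ⁻¹).φ x) * (Φ⁻¹).c x ^ 2

/-- the Haar average -/
def avgF [MeasurableSpace (Cf 𝒮)] (μ : Measure (Cf 𝒮)) (χ : M → ℝ) (x : M) : ℝ := ∫ Φ : Cf 𝒮, avgf χ x Φ ∂μ

theorem avgF_inv [LocallyCompactSpace M] [MeasurableSpace (Cf 𝒮)] [BorelSpace (Cf 𝒮)] (μ : Measure (Cf 𝒮))
    [μ.IsMulLeftInvariant] (χ : M → ℝ) (Ψ : Cf 𝒮) (x : M) :
    avgF μ χ (Ψ.φ x) * Ψ.c x ^ 2 = avgF μ χ x := by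
  haveI : IsTopologicalGroup (Cf 𝒮) := cf_topGroup
  have key : ∀ Φ : Cf 𝒮, avgf χ (Ψ.φ x) Φ * Ψ.c x ^ 2 = avgf χ x (Ψ⁻¹ * Φ) := by
    intro Φ
    have h : (Ψ⁻¹ * Φ)⁻¹ = Φ⁻¹ * Ψ := by rw [mul_inv_rev, inv_inv]
    unfold avgf
    rw [h, mul_φ, mul_c]
    ring
  unfold avgF
  rw [← integral_mul_const]
  simp only [key]
  exact integral_mul_left_eq_self (μ := μ) (fun Φ => avgf χ x Φ) Ψ⁻¹

theorem chi_cont {χ : M → ℝ} (hs : ∀ i, ContDiffOn ℝ ∞ (fun y => χ ((𝒮.ch i).symm y)) (𝒮.ch i).target) :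
    Continuous χ := by
  rw [continuous_iff_continuousAt]
  intro x
  obtain ⟨i, hi⟩ := 𝒮.cover x
  have h1 : ContinuousAt (fun y => χ ((𝒮.ch i).symm y)) (𝒮.ch i x) :=
    (hs i).continuousOn.continuousAt ((𝒮.ch i).open_target.mem_nhds ((𝒮.ch i).map_source hi))
  have h2 : ContinuousAt (𝒮.ch i) x := (𝒮.ch i).continuousAt hi
  have h3 : ContinuousAt (fun z => χ ((𝒮.ch i).symm (𝒮.ch i z))) x :=
    ContinuousAt.comp (g := fun y => χ ((𝒮.ch i).symm y)) h1 h2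
  refine h3.congr ?_
  filter_upwards [(𝒮.ch i).open_source.mem_nhds hi] with z hz
  rw [(𝒮.ch i).left_inv hz]

theorem avgf_cont [T2Space M] [LocallyCompactSpace M] (hD : 3 ≤ Module.finrank ℝ E) (hJ : AllJB 𝒮) {χ : M → ℝ}
    (hχ : Continuous χ) (x : M) : Continuous (avgf (𝒮 := 𝒮) χ x) := by
  haveI : IsTopologicalGroup (Cf 𝒮) := cf_topGroup
  have h0 : Continuous (fun Φ : Cf 𝒮 => (Φ⁻¹, x)) := continuous_inv.prodMk continuous_const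
  have h1 : Continuous (fun Φ : Cf 𝒮 => (Φ⁻¹).φ x) := (cont_act (𝒮 := 𝒮)).comp h0
  have h2 : Continuous (fun Φ : Cf 𝒮 => (Φ⁻¹).c x) := (cont_c (𝒮 := 𝒮) hD hJ).comp h0
  exact (hχ.comp h1).mul (h2.pow 2)

theorem avgF_pos [T2Space M] [SecondCountableTopology M] [LocallyCompactSpace M] (hN : Noh 𝒮)
    (hD : 3 ≤ Module.finrank ℝ E) (hJ : AllJB 𝒮) [MeasurableSpace (Cf 𝒮)] [BorelSpace (Cf 𝒮)]
    (μ : Measure (Cf 𝒮)) [IsFiniteMeasureOnCompacts μ] [μ.IsOpenPosMeasure] {χ : M → ℝ} (hχ : Continuous χ)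
    (h0 : ∀ x, 0 ≤ χ x) (hpos : ∀ x, ∃ Φ : Cf 𝒮, 0 < χ (Φ.φ x))
    (hK : ∀ x0, ∃ N ∈ 𝓝 x0, ∃ K : Set M, IsCompact K ∧ ∀ (Φ : Cf 𝒮), ∀ x ∈ N, χ (Φ.φ x) ≠ 0 → Φ.φ x ∈ K)
    (x : M) : 0 < avgF μ χ x := by
  haveI : IsTopologicalGroup (Cf 𝒮) := cf_topGroup
  haveI : T2Space (Cf 𝒮) := cf_t2
  obtain ⟨Φ0, hΦ0⟩ := hpos x
  obtain ⟨N, hN0, K, hKc, hKN⟩ := hK x
  have hC : IsCompact {Φ : Cf 𝒮 | ∃ z ∈ ({x} : Set M), Φ.φ z ∈ K} :=
    isCompact_ret hN hD hJ isCompact_singleton hKc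
  unfold avgF
  refine Continuous.integral_pos_of_hasCompactSupport_nonneg_nonzero (x := Φ0⁻¹)
    (avgf_cont hD hJ hχ x) ?_ ?_ ?_
  · refine HasCompactSupport.intro hC.inv ?_
    intro Φ hΦ
    by_contra hne
    apply hΦ
    rw [Set.mem_inv]
    refine ⟨x, rfl, hKN _ x (mem_of_mem_nhds hN0) ?_⟩
    intro h0'
    exact hne (by unfold avgf; rw [h0', zero_mul])
  · intro Φ
    exact mul_nonneg (h0 _) (sq_nonneg _)
  · unfold avgf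
    rw [inv_inv]
    have hc : 0 < Φ0.c x := Φ0.h.pos x
    positivity

end Pool.Agent.EG

end

end M_G17

section M_G18

/-!
Row ec-G18 (a piece of the Haar average is smooth near a point).
x0 = ch_i.symm y0, Θ0 = Φ0⁻¹, chart j ∋ Θ0 x0, w0 = ch_j (Θ0 x0), ρ > 0 with closedBall w0 ρ ⊆ target j; C = ‖HHm Θ0 i j x0‖ + 1.  By continuity of (Θ,x) ↦ Θ x and of HHm at (Θ0, x0) (cont_act, contAt_HHm) and of Φ ↦ Φ⁻¹ there are an open
neighbourhood O of Φ0 and r > 0, closedBall y0 r ⊆ target i, such that for Φ ∈ O, y ∈ closedBall y0 r: Φ⁻¹(ch_i.symm y) ∈ source j, ch_j(..) ∈ closedBall w0 ρ, ‖HHm Φ⁻¹ i j (ch_i.symm y)‖ ≤ C.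
Apply param_integral with F = E × EndT E, P = Psi (g i) (g j), Ω = target i ×ˢ (target j ×ˢ univ), K = closedBall y0 r ×ˢ (closedBall w0 ρ ×ˢ closedBall 0 C), Y Φ y = Yf (Φ⁻¹) i j y (Yf_deriv, Yf_symm),
q (y, w, H) = χ (ch_j.symm w) * cH H ^ 2 (smooth on Ω: hχ j, contDiff_cH); q (y, Y Φ y) = avgf χ (ch_i.symm y) Φ (left_inv, cH_HHm).  Measurability: Φ ↦ Yf (Φ⁻¹) i j y is continuous on O (cont_act, contAt_HHm composed with Φ ↦ (Φ⁻¹, x)), A ⊆ O measurable: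
ContinuousOn.aestronglyMeasurable (the target is second countable: finite dimensional).
-/

open scoped ContDiff Topology
open Set Filter

noncomputable section

set_option linter.unusedSectionVars false
set_option maxSynthPendingDepth 3

namespace Pool.Agent.EG

open MeasureTheory

universe u

variable {E : Type*} [NormedAddCommGroup E] [NormedSpace ℝ E] [FiniteDimensional ℝ E]
variable {M : Type u} [TopologicalSpace M] {ι : Type*}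
variable {𝒮 : LSys E M ι}

theorem avg_piece [T2Space M] [LocallyCompactSpace M] (hD : 3 ≤ Module.finrank ℝ E) (hJ : AllJB 𝒮)
    [MeasurableSpace (Cf 𝒮)] [BorelSpace (Cf 𝒮)] (μ : Measure (Cf 𝒮)) {χ : M → ℝ}
    (hχ : ∀ i, ContDiffOn ℝ ∞ (fun y => χ ((𝒮.ch i).symm y)) (𝒮.ch i).target) {i : ι} {y0 : E}
    (hy0 : y0 ∈ (𝒮.ch i).target) (Φ0 : Cf 𝒮) :
    ∃ O : Set (Cf 𝒮), IsOpen O ∧ Φ0 ∈ O ∧ ∃ r > 0, ∀ A ⊆ O, MeasurableSet A → μ A < ⊤ →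
      ContDiffOn ℝ ∞ (fun y => ∫ Φ in A, avgf χ ((𝒮.ch i).symm y) Φ ∂μ) (Metric.ball y0 r) := by
  have : IsTopologicalGroup (Cf 𝒮) := cf_topGroup
  obtain ⟨x0, hx0⟩ : ∃ x0, x0 = (𝒮.ch i).symm y0 := ⟨_, rfl⟩
  have hx0s : x0 ∈ (𝒮.ch i).source := by rw [hx0]; exact (𝒮.ch i).map_target hy0
  obtain ⟨j, hj⟩ := 𝒮.cover ((Φ0⁻¹).φ x0)
  obtain ⟨w0, hw0⟩ : ∃ w0, w0 = 𝒮.ch j ((Φ0⁻¹).φ x0) := ⟨_, rfl⟩
  have hw0t : w0 ∈ (𝒮.ch j).target := by rw [hw0]; exact (𝒮.ch j).map_source hj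
  obtain ⟨ρ, hρ, hρt⟩ := Metric.nhds_basis_closedBall.mem_iff.1 ((𝒮.ch j).open_target.mem_nhds hw0t)
  obtain ⟨C, hC⟩ : ∃ C, C = ‖HHm (Φ0⁻¹ : Cf 𝒮) i j x0‖ + 1 := ⟨_, rfl⟩
  have hinv : Continuous (fun p : Cf 𝒮 × M => ((p.1⁻¹ : Cf 𝒮), p.2)) :=
    (continuous_inv.comp continuous_fst).prodMk continuous_snd
  have hact : Continuous (fun p : Cf 𝒮 × M => (p.1⁻¹).φ p.2) := cont_act.comp hinv
  have hjet : ∀ Φ : Cf 𝒮, ∀ x ∈ (𝒮.ch i).source, (Φ⁻¹).φ x ∈ (𝒮.ch j).source →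
      ContinuousAt (fun p : Cf 𝒮 × M => HHm (p.1⁻¹ : Cf 𝒮) i j p.2) (Φ, x) := by
    intro Φ x hx hx'
    exact ContinuousAt.comp (f := fun p : Cf 𝒮 × M => ((p.1⁻¹ : Cf 𝒮), p.2))
      (g := fun p : Cf 𝒮 × M => HHm p.1 i j p.2) (contAt_HHm hD hJ hx hx') hinv.continuousAt
  have hev : ∀ᶠ p in 𝓝 (Φ0, x0), ((p.1⁻¹).φ p.2 ∈ (𝒮.ch j).source ∧
      𝒮.ch j ((p.1⁻¹).φ p.2) ∈ Metric.closedBall w0 ρ) ∧ ‖HHm (p.1⁻¹ : Cf 𝒮) i j p.2‖ ≤ C := by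
    have e1 : ∀ᶠ p in 𝓝 (Φ0, x0), (p.1⁻¹).φ p.2 ∈ (𝒮.ch j).source :=
      hact.continuousAt.eventually ((𝒮.ch j).open_source.mem_nhds hj)
    have e2 : ∀ᶠ p in 𝓝 (Φ0, x0), 𝒮.ch j ((p.1⁻¹).φ p.2) ∈ Metric.closedBall w0 ρ := by
      have h1 : ContinuousAt (fun p : Cf 𝒮 × M => 𝒮.ch j ((p.1⁻¹).φ p.2)) (Φ0, x0) :=
        ContinuousAt.comp (f := fun p : Cf 𝒮 × M => (p.1⁻¹).φ p.2) (g := 𝒮.ch j)
          ((𝒮.ch j).continuousAt hj) hact.continuousAt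
      refine h1.eventually ?_
      show Metric.closedBall w0 ρ ∈ 𝓝 (𝒮.ch j ((Φ0⁻¹).φ x0))
      rw [← hw0]
      exact Metric.closedBall_mem_nhds _ hρ
    have e3 : ∀ᶠ p in 𝓝 (Φ0, x0), ‖HHm (p.1⁻¹ : Cf 𝒮) i j p.2‖ ≤ C := by
      have h1 := (hjet Φ0 x0 hx0s hj).norm
      have h2 : ‖HHm (Φ0⁻¹ : Cf 𝒮) i j x0‖ < C := by rw [hC]; exact lt_add_one _
      exact (h1.eventually_lt continuousAt_const h2).mono fun p hp => hp.le
    exact (e1.and e2).and e3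
  obtain ⟨O, N, hO, hΦO, hN, hxN, hON⟩ := mem_nhds_prod_iff'.1 hev
  have hr : (𝒮.ch i).target ∩ (𝒮.ch i).symm ⁻¹' N ∈ 𝓝 y0 := by
    refine Filter.inter_mem ((𝒮.ch i).open_target.mem_nhds hy0) ?_
    refine ((𝒮.ch i).continuousAt_symm hy0).preimage_mem_nhds ?_
    rw [← hx0]
    exact hN.mem_nhds hxN
  obtain ⟨r, hrp, hrt⟩ := Metric.nhds_basis_closedBall.mem_iff.1 hr
  refine ⟨O, hO, hΦO, r, hrp, ?_⟩
  intro A hAO hA hfin
  have hmain : ∀ Φ ∈ O, ∀ y ∈ Metric.closedBall y0 r,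
      y ∈ (𝒮.ch i).target ∧ (𝒮.ch i).symm y ∈ (𝒮.ch i).source ∧
      (Φ⁻¹).φ ((𝒮.ch i).symm y) ∈ (𝒮.ch j).source ∧
      𝒮.ch j ((Φ⁻¹).φ ((𝒮.ch i).symm y)) ∈ Metric.closedBall w0 ρ ∧
      ‖HHm (Φ⁻¹ : Cf 𝒮) i j ((𝒮.ch i).symm y)‖ ≤ C := by
    intro Φ hΦ y hy
    have h1 := hrt hy
    have h2 : (Φ, (𝒮.ch i).symm y) ∈ O ×ˢ N := ⟨hΦ, h1.2⟩
    have h3 := hON h2
    exact ⟨h1.1, (𝒮.ch i).map_target h1.1, h3.1.1, h3.1.2, h3.2⟩
  have hF : FiniteDimensional ℝ (E × EndT E) := inferInstance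
  have : SecondCountableTopology (E × EndT E) := by
    have : ProperSpace (E × EndT E) := FiniteDimensional.proper_real _
    infer_instance
  obtain ⟨q, hq⟩ : ∃ q : E × (E × EndT E) → ℝ, q = fun p => χ ((𝒮.ch j).symm p.2.1) * cH p.2.2 ^ 2 :=
    ⟨_, rfl⟩
  have hqs : ContDiffOn ℝ ∞ q ((𝒮.ch i).target ×ˢ ((𝒮.ch j).target ×ˢ (univ : Set (EndT E)))) := by
    rw [hq]
    refine ContDiffOn.mul ?_ ?_
    · refine ContDiffOn.comp (g := fun w => χ ((𝒮.ch j).symm w)) (hχ j)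
        (f := fun p : E × (E × EndT E) => p.2.1) ?_ (fun p hp => hp.2.1)
      exact (contDiff_fst.comp contDiff_snd).contDiffOn
    · have hc : ContDiff ℝ ∞ (cH : EndT E → ℝ) := contDiff_cH
      have hs2 : ContDiff ℝ ∞ (fun p : E × (E × EndT E) => p.2.2) := contDiff_snd.comp contDiff_snd
      exact ((hc.comp hs2).pow 2).contDiffOn
  have hpi := param_integral (μ := μ) hA hfin
    (Ω := (𝒮.ch i).target ×ˢ ((𝒮.ch j).target ×ˢ (univ : Set (EndT E))))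
    ((𝒮.ch i).open_target.prod ((𝒮.ch j).open_target.prod isOpen_univ))
    (P := Psi (𝒮.g i) (𝒮.g j)) (Psi_smooth (𝒮.met i) (𝒮.met j))
    (K := Metric.closedBall y0 r ×ˢ (Metric.closedBall w0 ρ ×ˢ Metric.closedBall (0 : EndT E) C))
    ((isCompact_closedBall _ _).prod ((isCompact_closedBall _ _).prod (isCompact_closedBall _ _)))
    (Set.prod_mono (fun y hy => (hrt hy).1) (Set.prod_mono hρt (subset_univ _)))
    (y0 := y0) (r := r) (Y := fun Φ y => Yf (Φ⁻¹ : Cf 𝒮) i j y)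
    (fun Φ hΦ y hy => by
      have h1 := hmain Φ (hAO hΦ) y (Metric.ball_subset_closedBall hy)
      exact Yf_deriv hD (Φ⁻¹ : Cf 𝒮) ⟨h1.1, h1.2.2.1⟩)
    (fun Φ hΦ y hy => by
      have h1 := hmain Φ (hAO hΦ) y (Metric.ball_subset_closedBall hy)
      refine ⟨Metric.ball_subset_closedBall hy, h1.2.2.2.1, ?_⟩
      show (Yf (Φ⁻¹ : Cf 𝒮) i j y).2 ∈ Metric.closedBall (0 : EndT E) C
      rw [Yf_symm (Φ⁻¹ : Cf 𝒮) i j h1.1, mem_closedBall_zero_iff]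
      exact h1.2.2.2.2)
    (fun y hy => by
      refine ContinuousOn.aestronglyMeasurable ?_ hA
      intro Φ hΦ
      have h1 := hmain Φ (hAO hΦ) y (Metric.ball_subset_closedBall hy)
      refine ContinuousAt.continuousWithinAt ?_
      have hpair : Continuous (fun Φ : Cf 𝒮 => (Φ, (𝒮.ch i).symm y)) := continuous_id.prodMk continuous_const
      have h2 : ContinuousAt (fun Φ : Cf 𝒮 => HHm (Φ⁻¹ : Cf 𝒮) i j ((𝒮.ch i).symm y)) Φ :=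
        ContinuousAt.comp (f := fun Φ : Cf 𝒮 => (Φ, (𝒮.ch i).symm y))
          (g := fun p : Cf 𝒮 × M => HHm (p.1⁻¹ : Cf 𝒮) i j p.2) (hjet Φ _ h1.2.1 h1.2.2.1) hpair.continuousAt
      have h3 : ContinuousAt (fun Φ : Cf 𝒮 => 𝒮.ch j ((Φ⁻¹).φ ((𝒮.ch i).symm y))) Φ :=
        ContinuousAt.comp (f := fun Φ : Cf 𝒮 => (Φ⁻¹).φ ((𝒮.ch i).symm y)) (g := 𝒮.ch j)
          ((𝒮.ch j).continuousAt h1.2.2.1) (hact.comp hpair).continuousAt
      have h4 : (fun Φ : Cf 𝒮 => Yf (Φ⁻¹ : Cf 𝒮) i j y) =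
          fun Φ : Cf 𝒮 => (𝒮.ch j ((Φ⁻¹).φ ((𝒮.ch i).symm y)), HHm (Φ⁻¹ : Cf 𝒮) i j ((𝒮.ch i).symm y)) := by
        funext Φ
        exact Prod.ext rfl (Yf_symm (Φ⁻¹ : Cf 𝒮) i j h1.1)
      rw [h4]
      exact h3.prodMk h2)
    hqs
  refine hpi.congr (fun y hy => ?_)
  refine setIntegral_congr_fun hA (fun Φ hΦ => ?_)
  have h1 := hmain Φ (hAO hΦ) y (Metric.ball_subset_closedBall hy)
  show avgf χ ((𝒮.ch i).symm y) Φ = q (y, Yf (Φ⁻¹ : Cf 𝒮) i j y)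
  rw [hq]
  show χ ((Φ⁻¹).φ ((𝒮.ch i).symm y)) * (Φ⁻¹).c ((𝒮.ch i).symm y) ^ 2 =
    χ ((𝒮.ch j).symm (𝒮.ch j ((Φ⁻¹).φ ((𝒮.ch i).symm y)))) * cH (Yf (Φ⁻¹ : Cf 𝒮) i j y).2 ^ 2
  rw [(𝒮.ch j).left_inv h1.2.2.1, Yf_symm (Φ⁻¹ : Cf 𝒮) i j h1.1, cH_HHm (Φ⁻¹ : Cf 𝒮) h1.2.1]

end Pool.Agent.EG

end

end M_G18

section M_G19

/-!
Row ec-G19 (gluing, and the main theorem of section G).
`avg_compact`: IsCompact.induction_on hQ with p(S) := ∃ S₁ ⊇ S, MeasurableSet S₁ ∧ ∃ r > 0, ∀ A ⊆ S₁, MeasurableSet A → μ A < ⊤ → ContDiffOn ℝ ∞ (∫ in A) (ball y0 r): empty: S₁ = ∅; mono; union: S₁ ∪ T₁, A = (A ∩ S₁) ∪ (A \ S₁),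
∫_A = ∫_{A∩S₁} + ∫_{A\S₁} (setIntegral_union / integral_inter_add_diff; integrable on A ⊆ Q: continuous on the compact Q: to have integrability work with sets A ⊆ Q only: add the hypothesis A ⊆ Q in p); nhds: avg_piece (𝓝[Q] Φ0).
`avgF_smooth`: at y0 ∈ target i, x0 = ch_i.symm y0, N, K from hK; N' ⊆ N compact neighbourhood of x0; Q = {Φ | ∃ x ∈ N', Φ⁻¹ x ∈ K} compact (inverse image of isCompact_ret under inv), for y with ch_i.symm y ∈ N' avgf χ x Φ = 0 off Q, so avgF = ∫ in Q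
(setIntegral_eq_integral_of_forall_compl_eq_zero); so avgF ∘ ch_i.symm is ContDiffAt y0; Q closed hence measurable, μ Q < ∞.
`avg_factor`: M empty: F = 1.  M nonempty: lcs, cf_topGroup, cf_t2, cf_locallyCompact as instances, borelize (Cf 𝒮), μ = Measure.haar, χ from cutoff, F = avgF μ χ; chi_cont, avgF_pos, avgF_smooth, avgF_inv.
-/

open scoped ContDiff Topology
open Set Filter

noncomputable section

set_option linter.unusedSectionVars false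
set_option maxSynthPendingDepth 3

namespace Pool.Agent.EG

open MeasureTheory

universe u

variable {E : Type*} [NormedAddCommGroup E] [NormedSpace ℝ E] [FiniteDimensional ℝ E]
variable {M : Type u} [TopologicalSpace M] {ι : Type*}
variable {𝒮 : LSys E M ι}

theorem avg_compact [T2Space M] [LocallyCompactSpace M] (hD : 3 ≤ Module.finrank ℝ E) (hJ : AllJB 𝒮)
    [MeasurableSpace (Cf 𝒮)] [BorelSpace (Cf 𝒮)] (μ : Measure (Cf 𝒮)) [IsFiniteMeasureOnCompacts μ]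
    {χ : M → ℝ} (hχ : ∀ i, ContDiffOn ℝ ∞ (fun y => χ ((𝒮.ch i).symm y)) (𝒮.ch i).target) {i : ι} {y0 : E}
    (hy0 : y0 ∈ (𝒮.ch i).target) {Q : Set (Cf 𝒮)} (hQ : IsCompact Q) :
    ∃ r > 0, ContDiffOn ℝ ∞ (fun y => ∫ Φ in Q, avgf χ ((𝒮.ch i).symm y) Φ ∂μ) (Metric.ball y0 r) := by
  have : IsTopologicalGroup (Cf 𝒮) := cf_topGroup
  have : T2Space (Cf 𝒮) := cf_t2
  have hQm : MeasurableSet Q := hQ.isClosed.measurableSet
  have hint : ∀ y, IntegrableOn (fun Φ : Cf 𝒮 => avgf χ ((𝒮.ch i).symm y) Φ) Q μ := fun y =>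
    ContinuousOn.integrableOn_compact' hQ hQm (avgf_cont hD hJ (chi_cont hχ) _).continuousOn
  have hp : ∃ S₁ : Set (Cf 𝒮), Q ⊆ S₁ ∧ MeasurableSet S₁ ∧ ∃ r > 0, ∀ A ⊆ S₁, A ⊆ Q → MeasurableSet A →
      μ A < ⊤ → ContDiffOn ℝ ∞ (fun y => ∫ Φ in A, avgf χ ((𝒮.ch i).symm y) Φ ∂μ) (Metric.ball y0 r) := by
    refine IsCompact.induction_on (p := fun S => ∃ S₁ : Set (Cf 𝒮), S ⊆ S₁ ∧ MeasurableSet S₁ ∧
      ∃ r > 0, ∀ A ⊆ S₁, A ⊆ Q → MeasurableSet A →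
      μ A < ⊤ → ContDiffOn ℝ ∞ (fun y => ∫ Φ in A, avgf χ ((𝒮.ch i).symm y) Φ ∂μ) (Metric.ball y0 r))
      hQ ?_ ?_ ?_ ?_
    · refine ⟨∅, Subset.rfl, MeasurableSet.empty, 1, one_pos, ?_⟩
      intro A hA _ _ _
      rw [subset_empty_iff.1 hA]
      simp only [Measure.restrict_empty, integral_zero_measure]
      exact contDiffOn_const
    · rintro S T hST ⟨S₁, h1, h2⟩
      exact ⟨S₁, hST.trans h1, h2⟩
    · rintro S T ⟨S₁, hS1, hS2, r1, hr1, hS3⟩ ⟨T₁, hT1, hT2, r2, hr2, hT3⟩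
      refine ⟨S₁ ∪ T₁, union_subset_union hS1 hT1, hS2.union hT2, min r1 r2, lt_min hr1 hr2, ?_⟩
      intro A hA hAQ hAm hAf
      have e1 := hS3 (A ∩ S₁) inter_subset_right (inter_subset_left.trans hAQ) (hAm.inter hS2)
        ((measure_mono inter_subset_left).trans_lt hAf)
      have e2 := hT3 (A \ S₁) (fun x hx => (hA hx.1).resolve_left hx.2) (sdiff_subset.trans hAQ)
        (hAm.diff hS2) ((measure_mono sdiff_subset).trans_lt hAf)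
      have e3 := (e1.mono (Metric.ball_subset_ball (min_le_left r1 r2))).add
        (e2.mono (Metric.ball_subset_ball (min_le_right r1 r2)))
      refine e3.congr (fun y _ => ?_)
      exact (integral_inter_add_sdiff hS2 ((hint y).mono_set hAQ)).symm
    · intro Φ0 _
      obtain ⟨O, hO, hΦO, r, hr, h1⟩ := avg_piece hD hJ μ hχ hy0 Φ0
      exact ⟨O, mem_nhdsWithin_of_mem_nhds (hO.mem_nhds hΦO), O, Subset.rfl, hO.measurableSet, r, hr,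
        fun A hA _ hAm hAf => h1 A hA hAm hAf⟩
  obtain ⟨S₁, hQS, -, r, hr, h1⟩ := hp
  exact ⟨r, hr, h1 Q hQS Subset.rfl hQm hQ.measure_lt_top⟩

theorem avgF_smooth [T2Space M] [SecondCountableTopology M] [LocallyCompactSpace M] (hN : Noh 𝒮)
    (hD : 3 ≤ Module.finrank ℝ E) (hJ : AllJB 𝒮)
    [MeasurableSpace (Cf 𝒮)] [BorelSpace (Cf 𝒮)] (μ : Measure (Cf 𝒮)) [IsFiniteMeasureOnCompacts μ]
    {χ : M → ℝ} (hχ : ∀ i, ContDiffOn ℝ ∞ (fun y => χ ((𝒮.ch i).symm y)) (𝒮.ch i).target)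
    (hK : ∀ x0, ∃ N ∈ 𝓝 x0, ∃ K : Set M, IsCompact K ∧ ∀ (Φ : Cf 𝒮), ∀ x ∈ N, χ (Φ.φ x) ≠ 0 → Φ.φ x ∈ K) (i : ι) :
    ContDiffOn ℝ ∞ (fun y => avgF μ χ ((𝒮.ch i).symm y)) (𝒮.ch i).target := by
  have : IsTopologicalGroup (Cf 𝒮) := cf_topGroup
  have : T2Space (Cf 𝒮) := cf_t2
  intro y0 hy0
  obtain ⟨x0, hx0⟩ : ∃ x0, x0 = (𝒮.ch i).symm y0 := ⟨_, rfl⟩
  obtain ⟨N, hN0, K, hKc, hK1⟩ := hK x0
  obtain ⟨N', hN'0, hN'N, hN'c⟩ := local_compact_nhds hN0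
  have hQ : IsCompact {Φ : Cf 𝒮 | ∃ x ∈ N', (Φ⁻¹).φ x ∈ K} := (isCompact_ret hN hD hJ hN'c hKc).inv
  obtain ⟨Q, hQd⟩ : ∃ Q, Q = {Φ : Cf 𝒮 | ∃ x ∈ N', (Φ⁻¹).φ x ∈ K} := ⟨_, rfl⟩
  rw [← hQd] at hQ
  obtain ⟨r, hr, hs⟩ := avg_compact hD hJ μ hχ hy0 hQ
  have h1 : ContDiffAt ℝ ∞ (fun y => ∫ Φ in Q, avgf χ ((𝒮.ch i).symm y) Φ ∂μ) y0 :=
    hs.contDiffAt (Metric.ball_mem_nhds y0 hr)
  have h2 : (fun y => avgF μ χ ((𝒮.ch i).symm y)) =ᶠ[𝓝 y0]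
      fun y => ∫ Φ in Q, avgf χ ((𝒮.ch i).symm y) Φ ∂μ := by
    have h3 : ∀ᶠ y in 𝓝 y0, (𝒮.ch i).symm y ∈ N' := by
      refine ((𝒮.ch i).continuousAt_symm hy0).eventually ?_
      rw [← hx0]
      exact hN'0
    filter_upwards [h3] with y hy
    refine (setIntegral_eq_integral_of_forall_compl_eq_zero (fun Φ hΦ => ?_)).symm
    rw [hQd] at hΦ
    by_contra hne
    refine hΦ ⟨(𝒮.ch i).symm y, hy, hK1 (Φ⁻¹) _ (hN'N hy) ?_⟩
    intro h0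
    apply hne
    unfold avgf
    rw [h0, zero_mul]
  exact (h1.congr_of_eventuallyEq h2).contDiffWithinAt

theorem avg_factor [T2Space M] [SecondCountableTopology M] (hN : Noh 𝒮) (hD : 3 ≤ Module.finrank ℝ E)
    (hJ : AllJB 𝒮) : ∃ F : M → ℝ, (∀ x, 0 < F x) ∧
      (∀ i, ContDiffOn ℝ ∞ (fun y => F ((𝒮.ch i).symm y)) (𝒮.ch i).target) ∧
      ∀ (Φ : Cf 𝒮) (x : M), F (Φ.φ x) * Φ.c x ^ 2 = F x := by
  rcases isEmpty_or_nonempty M with hM | hM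
  · exact ⟨fun _ => 1, fun _ => one_pos, fun _ => contDiffOn_const, fun _ x => isEmptyElim x⟩
  · have : LocallyCompactSpace M := lcs 𝒮
    have : IsTopologicalGroup (Cf 𝒮) := cf_topGroup
    have : T2Space (Cf 𝒮) := cf_t2
    have : LocallyCompactSpace (Cf 𝒮) := cf_locallyCompact hN hD hJ
    borelize (Cf 𝒮)
    obtain ⟨χ, hχs, h0, hpos, hK⟩ := cutoff hN hD hJ
    exact ⟨avgF (Measure.haar : Measure (Cf 𝒮)) χ,
      avgF_pos hN hD hJ Measure.haar (chi_cont hχs) h0 hpos hK,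
      avgF_smooth hN hD hJ Measure.haar hχs hK,
      avgF_inv Measure.haar χ⟩

end Pool.Agent.EG

end

end M_G19

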