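import Pool.Agent.Lib.MP_eeed5f_gt.L1

/-!
Row ec-LB3 (smoothness of curvature, Ricci, Schouten, Weyl, tractor objects).
All by `contDiffOn_clm_apply` (a map into `F →L G`, `F` finite dimensional, is smooth iff all
evaluations are), `smooth_fderiv`, `ContDiffOn.clm_apply`, `ContDiffOn.clm_comp`, `ContDiffOn.smul`,
and, for traces, `trE` is a linear map of a finite dimensional space (write it as
`LinearMap.toContinuousLinearMap` of the linear map `B ↦ trace B`), so `y ↦ trE (R y)` is smooth.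
Pairs: `ContDiffOn.prodMk`.
-/

open scoped ContDiff Topology
open Set

noncomputable section

set_option linter.unusedSectionVars false
set_option maxSynthPendingDepth 3

namespace Pool.Agent.EG

variable {E : Type*} [NormedAddCommGroup E] [NormedSpace ℝ E] [FiniteDimensional ℝ E]
variable {V : Type*} [NormedAddCommGroup V] [NormedSpace ℝ V] [FiniteDimensional ℝ V]
variable {V' : Type*} [NormedAddCommGroup V'] [NormedSpace ℝ V'] [FiniteDimensional ℝ V']
variable {O O' S : Set E} {g g' : E → BF E} {f : E → E} {c : E → ℝ} {y : E}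

theorem lb3_ap {F G : Type*} [NormedAddCommGroup F] [NormedSpace ℝ F] [NormedAddCommGroup G]
    [NormedSpace ℝ G] {A : E → F →L[ℝ] G} (hA : ContDiffOn ℝ ∞ A O) (v : F) :
    ContDiffOn ℝ ∞ (fun y => A y v) O :=
  hA.clm_apply contDiffOn_const

theorem smooth_Curv {A : E → E →L[ℝ] V →L[ℝ] V} (hO : IsOpen O) (hA : ContDiffOn ℝ ∞ A O) :
    ContDiffOn ℝ ∞ (Curv A) O := by
  have hD := smooth_fderiv hO hA
  rw [contDiffOn_clm_apply]
  intro X
  rw [contDiffOn_clm_apply]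
  intro Y
  simp only [Curv_apply]
  exact ((((lb3_ap (lb3_ap hD X) Y).sub (lb3_ap (lb3_ap hD Y) X)).add
    ((lb3_ap hA X).clm_comp (lb3_ap hA Y))).sub ((lb3_ap hA Y).clm_comp (lb3_ap hA X)))

theorem smooth_trE {B : E → E →L[ℝ] E} (hB : ContDiffOn ℝ ∞ B O) :
    ContDiffOn ℝ ∞ (fun y => trE (B y)) O := by
  let φ : (E →L[ℝ] E) →L[ℝ] ℝ :=
    LinearMap.toContinuousLinearMap ((LinearMap.trace ℝ E) ∘ₗ (ContinuousLinearMap.coeLM ℝ))
  exact φ.contDiff.comp_contDiffOn hB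

theorem IsMet.smooth_riem (h : IsMet O g) : ContDiffOn ℝ ∞ (Riem g) O :=
  smooth_Curv h.isOpen h.smooth_gam

theorem lb3_contr {R : E → E →L[ℝ] E →L[ℝ] E →L[ℝ] E} (hR : ContDiffOn ℝ ∞ R O) :
    ContDiffOn ℝ ∞ (fun y => contr (R y)) O := by
  rw [contDiffOn_clm_apply]
  intro Y
  rw [contDiffOn_clm_apply]
  intro Z
  simp only [contr_apply]
  refine smooth_trE ?_
  rw [contDiffOn_clm_apply]
  intro X
  exact lb3_ap (lb3_ap (lb3_ap hR X) Y) Z

theorem IsMet.smooth_ric (h : IsMet O g) : ContDiffOn ℝ ∞ (Ric g) O :=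
  lb3_contr h.smooth_riem

theorem lb3_trG (h : IsMet O g) {B : E → BF E} (hB : ContDiffOn ℝ ∞ B O) :
    ContDiffOn ℝ ∞ (fun y => trG g y (B y)) O :=
  smooth_trE (h.smooth_sharp.clm_comp hB)

theorem IsMet.smooth_sch (h : IsMet O g) : ContDiffOn ℝ ∞ (Sch g) O := by
  have h1 := (lb3_trG h h.smooth_ric).div_const (2 * (dimR E - 1))
  exact (h.smooth_ric.sub (h1.smul h.smooth)).const_smul (dimR E - 2)⁻¹

theorem lb3_curly (h : IsMet O g) {B : E → BF E} (hB : ContDiffOn ℝ ∞ B O) :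
    ContDiffOn ℝ ∞ (fun y => curly g y (B y)) O := by
  rw [contDiffOn_clm_apply]
  intro X
  rw [contDiffOn_clm_apply]
  intro Y
  rw [contDiffOn_clm_apply]
  intro Z
  simp only [curly_apply]
  have hg := h.smooth
  have hs := h.smooth_sharp
  exact ((((lb3_ap (lb3_ap hB Y) Z).smul contDiffOn_const).sub
    ((lb3_ap (lb3_ap hB X) Z).smul contDiffOn_const)).add
    ((lb3_ap (lb3_ap hg Y) Z).smul (hs.clm_apply (lb3_ap hB X)))).sub
    ((lb3_ap (lb3_ap hg X) Z).smul (hs.clm_apply (lb3_ap hB Y)))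

theorem IsMet.smooth_wey (h : IsMet O g) : ContDiffOn ℝ ∞ (Wey g) O :=
  h.smooth_riem.sub (lb3_curly h h.smooth_sch)

theorem IsMet.smooth_cot (h : IsMet O g) (X Y Z : E) :
    ContDiffOn ℝ ∞ (fun y => Cot g y X Y Z) O := by
  have hS := h.smooth_sch
  have hD := smooth_fderiv h.isOpen hS
  have hG := h.smooth_gam
  have hn : ∀ X Y Z : E, ContDiffOn ℝ ∞ (fun y => nabB g (Sch g) y X Y Z) O := by
    intro X Y Z
    exact ((lb3_ap (lb3_ap (lb3_ap hD X) Y) Z).sub
      (lb3_ap (hS.clm_apply (lb3_ap (lb3_ap hG X) Y)) Z)).sub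
      ((lb3_ap hS Y).clm_apply (lb3_ap (lb3_ap hG X) Z))
  exact (hn X Y Z).sub (hn Y X Z)

theorem IsMet.smooth_At (h : IsMet O g) : ContDiffOn ℝ ∞ (At g) O := by
  have hS := h.smooth_sch
  have hG := h.smooth_gam
  have hs := h.smooth_sharp
  rw [contDiffOn_clm_apply]
  intro Z
  rw [contDiffOn_clm_apply]
  intro s
  simp only [At_apply]
  refine ContDiffOn.prodMk ?_ (ContDiffOn.prodMk ?_ ?_)
  · exact (lb3_ap (lb3_ap h.smooth Z) s.2.1).neg
  · exact ((lb3_ap (lb3_ap hG Z) s.2.1).add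
      ((hs.clm_apply (lb3_ap hS Z)).const_smul s.1)).add contDiffOn_const
  · exact (lb3_ap (lb3_ap hS Z) s.2.1).neg

theorem IsLC.smooth_tau (h : IsLC O g O' g' S f c) : ContDiffOn ℝ ∞ (tau c) S :=
  (h.smooth_c.inv fun y hy => (h.pos y hy).ne').smul (smooth_fderiv h.isOpen h.smooth_c)

theorem IsLC.smooth_Hm (h : IsLC O g O' g' S f c) : ContDiffOn ℝ ∞ (Hm g f c) S := by
  have ht := h.smooth_tau
  have hs := h.met.smooth_sharp.mono h.sub
  have hc := h.smooth_c
  have hi : ContDiffOn ℝ ∞ (fun y => (c y)⁻¹) S := hc.inv fun y hy => (h.pos y hy).ne'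
  have hf := smooth_fderiv h.isOpen h.smooth_f
  rw [contDiffOn_clm_apply]
  intro s
  simp only [Hm_apply]
  have h1 := hs.clm_apply ht
  refine ContDiffOn.prodMk ?_ (ContDiffOn.prodMk ?_ ?_)
  · exact hc.mul contDiffOn_const
  · exact hi.smul (hf.clm_apply (contDiffOn_const.add (h1.const_smul s.1)))
  · exact hi.mul ((contDiffOn_const.sub (lb3_ap ht s.2.1)).sub
      ((contDiffOn_const.mul (ht.clm_apply h1)).mul contDiffOn_const))

end Pool.Agent.EG
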