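import Mathlib

/-!
# Local (chart level) conformal geometry for MP_eeed5f_gt: definitions

Everything lives on open subsets of a finite dimensional real normed space `E`.
-/

open scoped ContDiff
open Set

noncomputable section

set_option linter.unusedSectionVars false
set_option maxSynthPendingDepth 3

namespace Pool.Agent.EG

variable {E : Type*} [NormedAddCommGroup E] [NormedSpace ℝ E] [FiniteDimensional ℝ E]
variable {V : Type*} [NormedAddCommGroup V] [NormedSpace ℝ V] [FiniteDimensional ℝ V]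
variable {V' : Type*} [NormedAddCommGroup V'] [NormedSpace ℝ V'] [FiniteDimensional ℝ V']

/-- Bilinear forms. -/
abbrev BF (E : Type*) [NormedAddCommGroup E] [NormedSpace ℝ E] := E →L[ℝ] E →L[ℝ] ℝ

/-- `g` is a smooth nondegenerate symmetric form on the open set `O`. -/
structure IsMet (O : Set E) (g : E → BF E) : Prop where
  isOpen : IsOpen O
  smooth : ContDiffOn ℝ ∞ g O
  symm : ∀ y ∈ O, ∀ u v, g y u v = g y v u
  nondeg : ∀ y ∈ O, ∀ u, (∀ v, g y u v = 0) → u = 0

/-- Raising an index. -/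
def sharp (g : E → BF E) (y : E) : (E →L[ℝ] ℝ) →L[ℝ] E := (g y).inverse

/-- Christoffel symbols of the first kind. -/
def lowerC (g : E → BF E) (y u v : E) : E →L[ℝ] ℝ :=
  (1 / 2 : ℝ) • (fderiv ℝ g y u v + fderiv ℝ g y v u - ((fderiv ℝ g y).flip u).flip v)

/-- Christoffel symbols `Γ(u,v)`. -/
def Gam (g : E → BF E) (y : E) : E →L[ℝ] E →L[ℝ] E :=
  (LinearMap.mk₂ ℝ (fun u v => sharp g y (lowerC g y u v))
    (by intro u u' v; rw [← map_add]; congr 1; ext w; simp [lowerC]; ring)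
    (by intro a u v; rw [← map_smul]; congr 1; ext w; simp [lowerC]; ring)
    (by intro u v v'; rw [← map_add]; congr 1; ext w; simp [lowerC]; ring)
    (by intro a u v; rw [← map_smul]; congr 1; ext w; simp [lowerC]; ring)).toContinuousBilinearMap

theorem Gam_apply (g : E → BF E) (y u v : E) : Gam g y u v = sharp g y (lowerC g y u v) := rfl

/-- Curvature of the connection `D + A`. -/
def Curv (A : E → E →L[ℝ] V →L[ℝ] V) (y : E) : E →L[ℝ] E →L[ℝ] V →L[ℝ] V :=
  (LinearMap.mk₂ ℝ (fun X Y => fderiv ℝ A y X Y - fderiv ℝ A y Y X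
      + (A y X).comp (A y Y) - (A y Y).comp (A y X))
    (by intro u u' v; ext w; simp; abel)
    (by intro a u v; ext w; simp [smul_sub, smul_add])
    (by intro u v v'; ext w; simp; abel)
    (by intro a u v; ext w; simp [smul_sub, smul_add])).toContinuousBilinearMap

theorem Curv_apply (A : E → E →L[ℝ] V →L[ℝ] V) (y X Y : E) : Curv A y X Y =
    fderiv ℝ A y X Y - fderiv ℝ A y Y X + (A y X).comp (A y Y) - (A y Y).comp (A y X) := rfl

/-- Riemann curvature `R(X,Y)Z`. -/
def Riem (g : E → BF E) (y : E) : E →L[ℝ] E →L[ℝ] E →L[ℝ] E := Curv (Gam g) y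

/-- The trace `tr (X ↦ B X)` of an endomorphism. -/
def trE (B : E →L[ℝ] E) : ℝ := LinearMap.trace ℝ E B.toLinearMap

/-- Metric trace of a bilinear form. -/
def trG (g : E → BF E) (y : E) (B : BF E) : ℝ := trE ((sharp g y).comp B)

theorem trE_add (A B : E →L[ℝ] E) : trE (A + B) = trE A + trE B := by simp [trE]

theorem trE_smul (a : ℝ) (A : E →L[ℝ] E) : trE (a • A) = a * trE A := by simp [trE]

/-- The Ricci contraction `(Y,Z) ↦ tr (X ↦ R(X,Y)Z)` of a curvature-like map. -/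
def contr (R : E →L[ℝ] E →L[ℝ] E →L[ℝ] E) : BF E :=
  (LinearMap.mk₂ ℝ (fun Y Z => trE ((R.flip Y).flip Z))
    (by intro u u' v; rw [← trE_add]; congr 1; ext w; simp)
    (by intro a u v; rw [smul_eq_mul, ← trE_smul]; congr 1; ext w; simp)
    (by intro u v v'; rw [← trE_add]; congr 1; ext w; simp)
    (by intro a u v; rw [smul_eq_mul, ← trE_smul]; congr 1; ext w; simp)).toContinuousBilinearMap

theorem contr_apply (R : E →L[ℝ] E →L[ℝ] E →L[ℝ] E) (Y Z : E) :
    contr R Y Z = trE ((R.flip Y).flip Z) := rfl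

/-- Ricci tensor `Ric(Y,Z) = tr (X ↦ R(X,Y)Z)`. -/
def Ric (g : E → BF E) (y : E) : BF E := contr (Riem g y)

/-- The real number `dim E`. -/
def dimR (E : Type*) [NormedAddCommGroup E] [NormedSpace ℝ E] : ℝ := (Module.finrank ℝ E : ℝ)

/-- Schouten tensor: `Ric = (D-2) P + (tr_g P) g`. -/
def Sch (g : E → BF E) (y : E) : BF E :=
  (dimR E - 2)⁻¹ • (Ric g y - (trG g y (Ric g y) / (2 * (dimR E - 1))) • g y)

/-- `{B}(X,Y)Z = B(Y,Z)X - B(X,Z)Y + g(Y,Z)B_X^# - g(X,Z)B_Y^#`. -/
def curly (g : E → BF E) (y : E) (B : BF E) : E →L[ℝ] E →L[ℝ] E →L[ℝ] E :=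
  (LinearMap.mk₂ ℝ (fun X Y =>
      (B Y).smulRight X - (B X).smulRight Y
        + (g y Y).smulRight (sharp g y (B X)) - (g y X).smulRight (sharp g y (B Y)))
    (by intro u u' v; ext w; simp [add_smul]; abel)
    (by intro a u v; ext w; simp [smul_sub, smul_add, smul_smul, mul_comm])
    (by intro u v v'; ext w; simp [add_smul]; abel)
    (by intro a u v; ext w; simp [smul_sub, smul_add, smul_smul, mul_comm])).toContinuousBilinearMap

theorem curly_apply (g : E → BF E) (y : E) (B : BF E) (X Y Z : E) :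
    curly g y B X Y Z = B Y Z • X - B X Z • Y + g y Y Z • sharp g y (B X)
      - g y X Z • sharp g y (B Y) := rfl

/-- Weyl tensor `W(X,Y)Z`. -/
def Wey (g : E → BF E) (y : E) : E →L[ℝ] E →L[ℝ] E →L[ℝ] E := Riem g y - curly g y (Sch g y)

/-- Covariant derivative `(∇_X B)(Y,Z)` of a field of bilinear forms. -/
def nabB (g : E → BF E) (B : E → BF E) (y X Y Z : E) : ℝ :=
  fderiv ℝ B y X Y Z - B y (Gam g y X Y) Z - B y Y (Gam g y X Z)

/-- Cotton tensor `Cot(X,Y)(Z) = (∇_X P)(Y,Z) - (∇_Y P)(X,Z)`. -/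
def Cot (g : E → BF E) (y X Y Z : E) : ℝ := nabB g (Sch g) y X Y Z - nabB g (Sch g) y Y X Z

/-- `C^τ_X Y = τ(X)Y + τ(Y)X - g(X,Y)τ^#`. -/
def Ct (g : E → BF E) (y : E) (t : E →L[ℝ] ℝ) : E →L[ℝ] E →L[ℝ] E :=
  (LinearMap.mk₂ ℝ (fun X Y => t X • Y + t Y • X - g y X Y • sharp g y t)
    (by intro u u' v; simp [add_smul]; abel)
    (by intro a u v; simp [smul_sub, smul_add, smul_smul, mul_comm])
    (by intro u v v'; simp [add_smul]; abel)
    (by intro a u v; simp [smul_sub, smul_add, smul_smul, mul_comm])).toContinuousBilinearMap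

theorem Ct_apply (g : E → BF E) (y : E) (t : E →L[ℝ] ℝ) (X Y : E) :
    Ct g y t X Y = t X • Y + t Y • X - g y X Y • sharp g y t := rfl

/-- Covariant derivative of a one-form, `(∇_X t)(Y)`. -/
def nab1 (g : E → BF E) (t : E → E →L[ℝ] ℝ) (y : E) : BF E :=
  fderiv ℝ t y - (LinearMap.mk₂ ℝ (fun X Y => t y (Gam g y X Y))
    (by intro u u' v; simp) (by intro a u v; simp) (by intro u v v'; simp)
    (by intro a u v; simp)).toContinuousBilinearMap

theorem nab1_apply (g : E → BF E) (t : E → E →L[ℝ] ℝ) (y X Y : E) :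
    nab1 g t y X Y = fderiv ℝ t y X Y - t y (Gam g y X Y) := rfl

/-- Tensor product of a one-form with itself. -/
def sq1 (t : E →L[ℝ] ℝ) : BF E := t.smulRight t

theorem sq1_apply (t : E →L[ℝ] ℝ) (X Y : E) : sq1 t X Y = t X * t Y := rfl

/-- `S = ∇τ - τ⊗τ + ½|τ|² g`. -/
def Stau (g : E → BF E) (t : E → E →L[ℝ] ℝ) (y : E) : BF E :=
  nab1 g t y - sq1 (t y) + ((1 / 2 : ℝ) * t y (sharp g y (t y))) • g y

/-- Local conformal maps: `g'(Df u, Df v) = c² g(u,v)` on the open set `S ⊆ O`, `f : S → O'`. -/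
structure IsLC (O : Set E) (g : E → BF E) (O' : Set E) (g' : E → BF E) (S : Set E)
    (f : E → E) (c : E → ℝ) : Prop where
  met : IsMet O g
  met' : IsMet O' g'
  isOpen : IsOpen S
  sub : S ⊆ O
  maps : MapsTo f S O'
  smooth_f : ContDiffOn ℝ ∞ f S
  smooth_c : ContDiffOn ℝ ∞ c S
  pos : ∀ y ∈ S, 0 < c y
  conf : ∀ y ∈ S, ∀ u v, g' (f y) (fderiv ℝ f y u) (fderiv ℝ f y v) = c y ^ 2 * g y u v

/-- `τ = Dc/c`. -/
def tau (c : E → ℝ) (y : E) : E →L[ℝ] ℝ := (c y)⁻¹ • fderiv ℝ c y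

/-- Tractor space. -/
abbrev Tr (E : Type*) := ℝ × E × ℝ

/-- The tractor connection form `A(Z)(σ,X,ρ) = (-g(Z,X), Γ(Z,X)+σ P^#Z+ρ Z, -P(Z,X))`. -/
def At (g : E → BF E) (y : E) : E →L[ℝ] Tr E →L[ℝ] Tr E :=
  (LinearMap.mk₂ ℝ (fun (Z : E) (s : Tr E) =>
      ((- g y Z s.2.1, Gam g y Z s.2.1 + s.1 • sharp g y (Sch g y Z) + s.2.2 • Z,
        - Sch g y Z s.2.1) : Tr E))
    (by
      intro u u' v
      refine Prod.ext ?_ (Prod.ext ?_ ?_)
      · simp; ring
      · simp; abel
      · simp; ring)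
    (by
      intro a u v
      refine Prod.ext ?_ (Prod.ext ?_ ?_)
      · simp
      · simp only [Prod.smul_fst, Prod.smul_snd, map_smul, ContinuousLinearMap.smul_apply,
          smul_eq_mul]
        module
      · simp)
    (by
      intro u v v'
      refine Prod.ext ?_ (Prod.ext ?_ ?_)
      · simp; ring
      · simp [add_smul]; abel
      · simp; ring)
    (by
      intro a u v
      refine Prod.ext ?_ (Prod.ext ?_ ?_)
      · simp
      · simp only [Prod.smul_fst, Prod.smul_snd, map_smul, ContinuousLinearMap.smul_apply,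
          smul_eq_mul]
        module
      · simp)).toContinuousBilinearMap

theorem At_apply (g : E → BF E) (y Z : E) (s : Tr E) : At g y Z s =
    ((- g y Z s.2.1, Gam g y Z s.2.1 + s.1 • sharp g y (Sch g y Z) + s.2.2 • Z,
        - Sch g y Z s.2.1) : Tr E) := rfl

/-- The tractor two-jet `H(σ,X,ρ) = (cσ, c⁻¹L(X+σ τ^#), c⁻¹(ρ - τ(X) - ½τ(τ^#)σ))`. -/
def Hm (g : E → BF E) (f : E → E) (c : E → ℝ) (y : E) : Tr E →L[ℝ] Tr E :=
  LinearMap.toContinuousLinearMap
    { toFun := fun s => ((c y * s.1,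
        (c y)⁻¹ • fderiv ℝ f y (s.2.1 + s.1 • sharp g y (tau c y)),
        (c y)⁻¹ * (s.2.2 - tau c y s.2.1 - (1 / 2) * tau c y (sharp g y (tau c y)) * s.1)) : Tr E)
      map_add' := by
        intro s t
        refine Prod.ext ?_ (Prod.ext ?_ ?_)
        · simp; ring
        · simp [add_smul]; abel
        · simp; ring
      map_smul' := by
        intro a s
        refine Prod.ext ?_ (Prod.ext ?_ ?_)
        · simp; ring
        · simp only [Prod.smul_fst, Prod.smul_snd, map_add, map_smul, smul_eq_mul, RingHom.id_apply]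
          module
        · simp; ring }

theorem Hm_apply (g : E → BF E) (f : E → E) (c : E → ℝ) (y : E) (s : Tr E) :
    Hm g f c y s = ((c y * s.1,
        (c y)⁻¹ • fderiv ℝ f y (s.2.1 + s.1 • sharp g y (tau c y)),
        (c y)⁻¹ * (s.2.2 - tau c y s.2.1 - (1 / 2) * tau c y (sharp g y (tau c y)) * s.1)) : Tr E) := rfl

/-- Algebraic Weyl type tensors for the form `b`. -/
structure IsWeylTensor (b : BF E) (W : E →L[ℝ] E →L[ℝ] E →L[ℝ] E) : Prop where
  anti : ∀ X Y Z, W X Y Z = - W Y X Z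
  bianchi : ∀ X Y Z, W X Y Z + W Y Z X + W Z X Y = 0
  skew : ∀ X Y Z U, b (W X Y Z) U = - b Z (W X Y U)
  traceless : contr W = 0

/-- `b` is a Lorentz form (signature `- + ... +`) and `T` is a timelike vector (it fixes the time
orientation). -/
structure IsLor (b : BF E) (T : E) : Prop where
  symm : ∀ u v, b u v = b v u
  neg : b T T < 0
  pos : ∀ v, v ≠ 0 → b T v = 0 → 0 < b v v

/-- future timelike vectors -/
def FT (b : BF E) (T v : E) : Prop := b v v < 0 ∧ b T v < 0

/-- future causal vectors -/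
def FC (b : BF E) (T v : E) : Prop := b v v ≤ 0 ∧ b T v < 0

end Pool.Agent.EG
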