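import Pool.Agent.Lib.MP_eeed5f_gt.C1
import Pool.Agent.Lib.MP_eeed5f_gt.L7
import Pool.Agent.Lib.MP_eeed5f_gt.A2
import Pool.Agent.Lib.MP_eeed5f_gt.S1
import Pool.Agent.Lib.MP_eeed5f_gt.T1
import Pool.Agent.Lib.MP_eeed5f_gt.F1
import Pool.Agent.Lib.MP_eeed5f_gt.C2

section M_MM1

/-!
Row ec-MM1 (lower bound at one convergent family; paper M3).
z → z0, Φz → w0, charts i, j; v_k → v0 null at ch i (z k); u0 with g(u0,v0)=0, g(W(u0,v0)v0,u0) ≠ 0 at y0 = ch i z0.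
N with b(v0,N) ≠ 0 (null_partner); u_k = u0 - (g_k(u0,v_k)/g_k(N,v_k)) N ⟂ v_k, u_k → u0; |g(W(u_k,v_k)v_k,u_k)| ≥ δ = half of the limit value, g(u_k,u_k) ≤ C.
`lower` (MB2) on a compact ball K ⊂ target j around ch j w0 (box_ineq for K), ‖Wey g' (ch j Φz)‖ ≤ C: δ ≤ C' ‖L v_k‖² ⇒ ‖L v_k‖ ≥ b > 0.
`lower_zero`: if Wey (g j) (ch j w0) = 0 and ‖L v_k‖ is U-bounded this is impossible (‖Wey‖ → 0 by continuity).
-/

open scoped ContDiff Topology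
open Set Filter

noncomputable section

set_option linter.unusedSectionVars false
set_option maxSynthPendingDepth 3

namespace Pool.Agent.EG

variable {E : Type*} [NormedAddCommGroup E] [NormedSpace ℝ E] [FiniteDimensional ℝ E]
variable {M : Type*} [TopologicalSpace M] {ι : Type*}
variable {𝒮 : LSys E M ι}

variable {κ : Type*}

/-- a continuous choice of a vector orthogonal to `v` -/
theorem mm1_perp {i : ι} {y0 v0 : E} (hy : y0 ∈ (𝒮.ch i).target)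
    (hgood : Good (𝒮.g i y0) (𝒮.T i y0) (Wey (𝒮.g i) y0) v0) :
    ∃ uu : E × E → E, ContinuousAt uu (y0, v0) ∧
      (∀ᶠ z : E × E in 𝓝 (y0, v0), 𝒮.g i z.1 (uu z) z.2 = 0) ∧
      ContinuousAt (fun z : E × E => 𝒮.g i z.1 (Wey (𝒮.g i) z.1 (uu z) z.2 z.2) (uu z)) (y0, v0) ∧
      𝒮.g i y0 (Wey (𝒮.g i) y0 (uu (y0, v0)) v0 v0) (uu (y0, v0)) ≠ 0 := by
  have hL := 𝒮.lor i y0 hy
  obtain ⟨hvv, hTv, u0, hu, hW⟩ := hgood
  have hv0 : v0 ≠ 0 := by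
    rintro rfl
    simp at hTv
  obtain ⟨N, -, hvN⟩ := hL.null_partner hv0 hvv
  have hNv : 𝒮.g i y0 N v0 = 1 := by rw [hL.symm]; exact hvN
  have hgc : ContinuousAt (fun z : E × E => 𝒮.g i z.1) (y0, v0) :=
    ContinuousAt.comp (g := 𝒮.g i) (f := Prod.fst) (bx1_gcont hy) continuousAt_fst
  have hWc : ContinuousAt (fun z : E × E => Wey (𝒮.g i) z.1) (y0, v0) :=
    ContinuousAt.comp (g := Wey (𝒮.g i)) (f := Prod.fst)
      ((𝒮.met i).smooth_wey.continuousOn.continuousAt ((𝒮.ch i).open_target.mem_nhds hy))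
      continuousAt_fst
  have h1 : ContinuousAt (fun z : E × E => 𝒮.g i z.1 u0 z.2) (y0, v0) :=
    (hgc.clm_apply continuousAt_const).clm_apply continuousAt_snd
  have h2 : ContinuousAt (fun z : E × E => 𝒮.g i z.1 N z.2) (y0, v0) :=
    (hgc.clm_apply continuousAt_const).clm_apply continuousAt_snd
  have h2' : 𝒮.g i (y0, v0).1 N (y0, v0).2 ≠ 0 := by
    show 𝒮.g i y0 N v0 ≠ 0
    rw [hNv]
    exact one_ne_zero
  set uu : E × E → E := fun z => u0 - (𝒮.g i z.1 u0 z.2 / 𝒮.g i z.1 N z.2) • N with huu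
  have hc : ContinuousAt uu (y0, v0) := continuousAt_const.sub ((h1.div h2 h2').smul continuousAt_const)
  have h0 : uu (y0, v0) = u0 := by
    show u0 - (𝒮.g i y0 u0 v0 / 𝒮.g i y0 N v0) • N = u0
    rw [hu, zero_div, zero_smul, sub_zero]
  refine ⟨uu, hc, ?_, ?_, ?_⟩
  · filter_upwards [h2.eventually_ne h2'] with z hz
    show 𝒮.g i z.1 (u0 - (𝒮.g i z.1 u0 z.2 / 𝒮.g i z.1 N z.2) • N) z.2 = 0
    rw [map_sub, map_smul, sub_apply, smul_apply, smul_eq_mul, div_mul_cancel₀ _ hz, sub_self]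
  · exact (hgc.clm_apply (((hWc.clm_apply hc).clm_apply continuousAt_snd).clm_apply
      continuousAt_snd)).clm_apply hc
  · rw [h0]
    exact hW

/-- the inequality behind `lower_at` and `lower_zero` -/
theorem mm1_main (hD : 3 ≤ Module.finrank ℝ E) {Φ : κ → Cf 𝒮} {U : Ultrafilter κ} {z : κ → M}
    {z0 w0 : M} (h : Cnv Φ U z z0 w0) {i j : ι} (hi : z0 ∈ (𝒮.ch i).source)
    (hj : w0 ∈ (𝒮.ch j).source) {v : κ → E} {v0 : E} (hv : Tendsto v U (𝓝 v0))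
    (hnull : ∀ᶠ k in U, 𝒮.g i (𝒮.ch i (z k)) (v k) (v k) = 0)
    (hgood : Good (𝒮.g i (𝒮.ch i z0)) (𝒮.T i (𝒮.ch i z0)) (Wey (𝒮.g i) (𝒮.ch i z0)) v0) :
    ∃ δ A : ℝ, 0 < δ ∧ 0 < A ∧ ∀ᶠ k in U, δ ≤
      A * ‖Wey (𝒮.g j) (𝒮.ch j ((Φ k).φ (z k)))‖ * ‖LLm (Φ k) i j (z k) (v k)‖ ^ 2 := by
  have hy : 𝒮.ch i z0 ∈ (𝒮.ch i).target := (𝒮.ch i).map_source hi
  have hq : 𝒮.ch j w0 ∈ (𝒮.ch j).target := (𝒮.ch j).map_source hj
  obtain ⟨uu, huc, huperp, hFc, hF0⟩ := mm1_perp hy hgood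
  set y0 := 𝒮.ch i z0 with hy0
  set q0 := 𝒮.ch j w0 with hq0
  have hv0 : v0 ≠ 0 := by
    rintro rfl
    have := hgood.2.1
    simp at this
  have hyt : Tendsto (fun k => 𝒮.ch i (z k)) U (𝓝 y0) := ((𝒮.ch i).continuousAt hi).tendsto.comp h.hz
  have hqt : Tendsto (fun k => 𝒮.ch j ((Φ k).φ (z k))) U (𝓝 q0) :=
    ((𝒮.ch j).continuousAt hj).tendsto.comp h.hw
  have hpt : Tendsto (fun k => (𝒮.ch i (z k), v k)) U (𝓝 (y0, v0)) := hyt.prodMk_nhds hv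
  -- the compact ball
  obtain ⟨ρ, hρ, hρt⟩ := Metric.nhds_basis_closedBall.mem_iff.1 ((𝒮.ch j).open_target.mem_nhds hq)
  obtain ⟨C, hC, hbox⟩ := box_ineq (𝒮.met j) (𝒮.contT j) (𝒮.lor j) (isCompact_closedBall q0 ρ) hρt
  have hgc : ContinuousAt (fun z : E × E => 𝒮.g i z.1) (y0, v0) :=
    ContinuousAt.comp (g := 𝒮.g i) (f := Prod.fst) (bx1_gcont hy) continuousAt_fst
  have hguu : ContinuousAt (fun z : E × E => 𝒮.g i z.1 (uu z) (uu z)) (y0, v0) :=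
    (hgc.clm_apply huc).clm_apply huc
  set C1 : ℝ := |𝒮.g i y0 (uu (y0, v0)) (uu (y0, v0))| + 1 with hC1
  have hC1' : 𝒮.g i y0 (uu (y0, v0)) (uu (y0, v0)) < C1 := by
    rw [hC1]
    have := le_abs_self (𝒮.g i y0 (uu (y0, v0)) (uu (y0, v0)))
    linarith
  have hC10 : 0 < C1 := by positivity
  have e1 := hpt.eventually huperp
  have e2 := hpt.eventually (hguu.eventually (gt_mem_nhds hC1'))
  have hFabs : |𝒮.g i y0 (Wey (𝒮.g i) y0 (uu (y0, v0)) v0 v0) (uu (y0, v0))| / 2 <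
      |𝒮.g i y0 (Wey (𝒮.g i) y0 (uu (y0, v0)) v0 v0) (uu (y0, v0))| := half_lt_self (abs_pos.2 hF0)
  have e3 := hpt.eventually (hFc.abs.eventually (lt_mem_nhds hFabs))
  have e4 : ∀ᶠ k in U, 𝒮.ch j ((Φ k).φ (z k)) ∈ Metric.closedBall q0 ρ :=
    hqt.eventually (Metric.closedBall_mem_nhds q0 hρ)
  have e5 := h.hz.eventually ((𝒮.ch i).open_source.mem_nhds hi)
  have e6 := h.hw.eventually ((𝒮.ch j).open_source.mem_nhds hj)
  have e7 := hv.eventually_ne hv0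
  refine ⟨|𝒮.g i y0 (Wey (𝒮.g i) y0 (uu (y0, v0)) v0 v0) (uu (y0, v0))| / 2, C * C1,
    half_pos (abs_pos.2 hF0), mul_pos hC hC10, ?_⟩
  filter_upwards [e1, e2, e3, e4, e5, e6, e7, hnull] with k k1 k2 k3 k4 k5 k6 k7 k8
  have hdom : 𝒮.ch i (z k) ∈ domR (𝒮.ch i) (𝒮.ch j) (Φ k).φ := mem_domR k5 k6
  have hr : rep (𝒮.ch i) (𝒮.ch j) (Φ k).φ (𝒮.ch i (z k)) = 𝒮.ch j ((Φ k).φ (z k)) := rep_apply _ _ k5
  have h1 := lower ((Φ k).h.lc i j) hD hρt hbox hdom (by rw [hr]; exact k4) k7 k8 k1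
  rw [hr] at h1
  have h2 : 0 ≤ C * ‖Wey (𝒮.g j) (𝒮.ch j ((Φ k).φ (z k)))‖ := mul_nonneg hC.le (norm_nonneg _)
  have h3 : 0 ≤ ‖LLm (Φ k) i j (z k) (v k)‖ ^ 2 := sq_nonneg _
  have h4 : C * ‖Wey (𝒮.g j) (𝒮.ch j ((Φ k).φ (z k)))‖ *
      𝒮.g i (𝒮.ch i (z k)) (uu (𝒮.ch i (z k), v k)) (uu (𝒮.ch i (z k), v k)) *
        ‖LLm (Φ k) i j (z k) (v k)‖ ^ 2 ≤
      C * C1 * ‖Wey (𝒮.g j) (𝒮.ch j ((Φ k).φ (z k)))‖ * ‖LLm (Φ k) i j (z k) (v k)‖ ^ 2 := by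
    apply mul_le_mul_of_nonneg_right _ h3
    have h5 := mul_le_mul_of_nonneg_left (le_of_lt k2) h2
    refine h5.trans (le_of_eq ?_)
    ring
  exact (le_of_lt k3).trans (h1.trans h4)

theorem mm1_wey {Φ : κ → Cf 𝒮} {U : Ultrafilter κ} {z : κ → M} {z0 w0 : M} (h : Cnv Φ U z z0 w0)
    {j : ι} (hj : w0 ∈ (𝒮.ch j).source) :
    Tendsto (fun k => ‖Wey (𝒮.g j) (𝒮.ch j ((Φ k).φ (z k)))‖) U (𝓝 ‖Wey (𝒮.g j) (𝒮.ch j w0)‖) := by
  have hq : 𝒮.ch j w0 ∈ (𝒮.ch j).target := (𝒮.ch j).map_source hj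
  have hqt : Tendsto (fun k => 𝒮.ch j ((Φ k).φ (z k))) U (𝓝 (𝒮.ch j w0)) :=
    ((𝒮.ch j).continuousAt hj).tendsto.comp h.hw
  have hWc : ContinuousAt (Wey (𝒮.g j)) (𝒮.ch j w0) :=
    (𝒮.met j).smooth_wey.continuousOn.continuousAt ((𝒮.ch j).open_target.mem_nhds hq)
  have h1 := hWc.norm.tendsto.comp hqt
  simp only [Function.comp_def] at h1
  exact h1

theorem lower_at (hD : 3 ≤ Module.finrank ℝ E) {Φ : κ → Cf 𝒮} {U : Ultrafilter κ} {z : κ → M}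
    {z0 w0 : M} (h : Cnv Φ U z z0 w0) {i j : ι} (hi : z0 ∈ (𝒮.ch i).source)
    (hj : w0 ∈ (𝒮.ch j).source) {v : κ → E} {v0 : E} (hv : Tendsto v U (𝓝 v0))
    (hnull : ∀ᶠ k in U, 𝒮.g i (𝒮.ch i (z k)) (v k) (v k) = 0)
    (hgood : Good (𝒮.g i (𝒮.ch i z0)) (𝒮.T i (𝒮.ch i z0)) (Wey (𝒮.g i) (𝒮.ch i z0)) v0) :
    ∃ b > 0, ∀ᶠ k in U, b ≤ ‖LLm (Φ k) i j (z k) (v k)‖ := by
  obtain ⟨δ, A, hδ, hA, hev⟩ := mm1_main hD h hi hj hv hnull hgood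
  have hWt := mm1_wey h hj
  set om : ℝ := ‖Wey (𝒮.g j) (𝒮.ch j w0)‖ + 1 with hom
  have hom0 : 0 < om := by positivity
  have hW : ∀ᶠ k in U, ‖Wey (𝒮.g j) (𝒮.ch j ((Φ k).φ (z k)))‖ < om :=
    hWt.eventually (gt_mem_nhds (lt_add_one _))
  refine ⟨Real.sqrt (δ / (A * om)), Real.sqrt_pos.2 (by positivity), ?_⟩
  filter_upwards [hev, hW] with k h1 h2
  rw [Real.sqrt_le_iff]
  refine ⟨norm_nonneg _, ?_⟩
  rw [div_le_iff₀ (by positivity)]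
  have h3 : A * ‖Wey (𝒮.g j) (𝒮.ch j ((Φ k).φ (z k)))‖ * ‖LLm (Φ k) i j (z k) (v k)‖ ^ 2 ≤
      A * om * ‖LLm (Φ k) i j (z k) (v k)‖ ^ 2 := by
    apply mul_le_mul_of_nonneg_right _ (sq_nonneg _)
    exact mul_le_mul_of_nonneg_left h2.le hA.le
  linarith

theorem lower_zero (hD : 3 ≤ Module.finrank ℝ E) {Φ : κ → Cf 𝒮} {U : Ultrafilter κ} {z : κ → M}
    {z0 w0 : M} (h : Cnv Φ U z z0 w0) {i j : ι} (hi : z0 ∈ (𝒮.ch i).source)
    (hj : w0 ∈ (𝒮.ch j).source) {v : κ → E} {v0 : E} (hv : Tendsto v U (𝓝 v0))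
    (hnull : ∀ᶠ k in U, 𝒮.g i (𝒮.ch i (z k)) (v k) (v k) = 0)
    (hgood : Good (𝒮.g i (𝒮.ch i z0)) (𝒮.T i (𝒮.ch i z0)) (Wey (𝒮.g i) (𝒮.ch i z0)) v0)
    {C : ℝ} (hb : ∀ᶠ k in U, ‖LLm (Φ k) i j (z k) (v k)‖ ≤ C) :
    Wey (𝒮.g j) (𝒮.ch j w0) ≠ 0 := by
  intro hW0
  obtain ⟨δ, A, hδ, hA, hev⟩ := mm1_main hD h hi hj hv hnull hgood
  have hW := mm1_wey h hj
  rw [hW0, norm_zero] at hW
  have hlt : (0 : ℝ) < δ / (A * (|C| + 1) ^ 2) := by positivity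
  have hfalse : ∀ᶠ _ in (U : Filter κ), False := by
    filter_upwards [hev, hb, hW.eventually (gt_mem_nhds hlt)] with k h1 h2 h3
    have h4 : ‖LLm (Φ k) i j (z k) (v k)‖ ^ 2 ≤ (|C| + 1) ^ 2 := by
      apply pow_le_pow_left₀ (norm_nonneg _)
      exact h2.trans ((le_abs_self C).trans (by linarith))
    rw [lt_div_iff₀ (by positivity)] at h3
    have h5 : A * ‖Wey (𝒮.g j) (𝒮.ch j ((Φ k).φ (z k)))‖ * ‖LLm (Φ k) i j (z k) (v k)‖ ^ 2 ≤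
        A * ‖Wey (𝒮.g j) (𝒮.ch j ((Φ k).φ (z k)))‖ * (|C| + 1) ^ 2 :=
      mul_le_mul_of_nonneg_left h4 (mul_nonneg hA.le (norm_nonneg _))
    have h6 : A * ‖Wey (𝒮.g j) (𝒮.ch j ((Φ k).φ (z k)))‖ * (|C| + 1) ^ 2 =
        ‖Wey (𝒮.g j) (𝒮.ch j ((Φ k).φ (z k)))‖ * (A * (|C| + 1) ^ 2) := by ring
    linarith
  exact hfalse.exists.elim fun _ h => h

/-- good is an open condition on null vectors -/
theorem good_open {i : ι} {y0 v0 : E} (hy : y0 ∈ (𝒮.ch i).target)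
    (hgood : Good (𝒮.g i y0) (𝒮.T i y0) (Wey (𝒮.g i) y0) v0) :
    ∃ η > 0, ∀ y ∈ (𝒮.ch i).target, ‖y - y0‖ < η → ∀ v, ‖v - v0‖ < η → 𝒮.g i y v v = 0 →
      Good (𝒮.g i y) (𝒮.T i y) (Wey (𝒮.g i) y) v := by
  obtain ⟨uu, huc, huperp, hFc, hF0⟩ := mm1_perp hy hgood
  have hgc : ContinuousAt (fun z : E × E => 𝒮.g i z.1) (y0, v0) :=
    ContinuousAt.comp (g := 𝒮.g i) (f := Prod.fst) (bx1_gcont hy) continuousAt_fst
  have hTc : ContinuousAt (fun z : E × E => 𝒮.T i z.1) (y0, v0) :=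
    ContinuousAt.comp (g := 𝒮.T i) (f := Prod.fst) (bx1_Tcont hy) continuousAt_fst
  have h2 : ContinuousAt (fun z : E × E => 𝒮.g i z.1 (𝒮.T i z.1) z.2) (y0, v0) :=
    (hgc.clm_apply hTc).clm_apply continuousAt_snd
  obtain ⟨η, hη, hball⟩ := Metric.eventually_nhds_iff_ball.1
    (huperp.and ((h2.eventually (gt_mem_nhds hgood.2.1)).and (hFc.eventually_ne hF0)))
  refine ⟨η, hη, fun y _ hyy v hvv hnull => ?_⟩
  obtain ⟨h3, h4, h5⟩ := hball (y, v) (by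
    rw [Metric.mem_ball, Prod.dist_eq, max_lt_iff, dist_eq_norm, dist_eq_norm]
    exact ⟨hyy, hvv⟩)
  exact ⟨hnull, h4, uu (y, v), h3, h5⟩

end Pool.Agent.EG

end

end M_MM1

section M_MM2

/-!
Row ec-MM2 (THE MAIN LEMMA; paper M5).  Everything below is 'for U-many k'.
y_k = ch i (z k) → y0.  η from `good_open`, and such that FT/FC conditions hold; `exists_geodesic` at (y0,v0) with η gives ε0; fix ε = ε0/2.
γ_k, dγ_k, p1, r1, p2, r2 with γ_k 0 = y_k, dγ_k 0 = v_k; `geodesic_null`: dγ null along γ; dγ is FC (T-part < 0 near v0).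
z^ε_k = ch_i⁻¹ γ_k(ε) converges (‖γ_k-y0‖ ≤ η in a compact ball of the target) to some z0', dγ_k(ε) → v0' (bounded), v0' null and good (good_open);
images converge: Φ_k z^ε_k → w0' (BOf); chart j' ∋ w0'.
σ_k(s) = Φ_k(ch_i⁻¹ γ_k(s)), s ∈ [0,ε], is a causal curve (`img_curve`), ends → w0, w0'.
Notation: φ0 = 1/c_k(z k), φε = 1/c_k(z^ε_k), L0 = ‖LLm i j (z k) v_k‖, Lε = ‖LLm i j' z^ε_k dγ_k(ε)‖, x0 = φ0² L0, xε = φε² Lε (norms of `par_X` at 0 and ε).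
(1) lower_at twice: L0 ≥ b, Lε ≥ b.   (2) TRF (par_X, K = 0): xε ≤ C x0, x0 ≤ C xε.
(3) TRF (par_zeta with p1, r1): ζ1(0) = (0,0,-φ0) (Hm_null, p1 0 = 0, r1 0 = -1), norm φ0; ‖ζ1(ε)‖ ≥ p1(ε) φε Lε ; so p1(ε) φε Lε ≤ C φ0.
(4) TRF (par_zeta with p = p2(ε)p1 - p1(ε)p2, ρ = p2(ε)r1 - p1(ε)r2): at ε: (0,0,-φε) (Wronskian = -1); at 0: (0, -p1(ε)φ0 L v, φ0(p1(ε)τ(v) - p2(ε))).
    So φ0 |p1(ε)τ(v) - p2(ε)| ≤ C φε.
`final_real`: from (1)-(4), p1(ε) ≥ ε/2, |p2(ε)| ≤ 3/2: φε² b ≤ xε ≤ C x0; φ0 φε ≥ p1 xε/C ≥ p1 x0/C²; hence φ0 ≥ c √x0, L0 = x0/φ0² ≤ C'; φε ≤ √(C x0/b) ≤ C2 φ0, so |τ(v)| is bounded.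
-/

open scoped ContDiff Topology
open Set Filter

noncomputable section

set_option linter.unusedSectionVars false
set_option maxSynthPendingDepth 3

namespace Pool.Agent.EG

variable {E : Type*} [NormedAddCommGroup E] [NormedSpace ℝ E] [FiniteDimensional ℝ E]
variable {M : Type*} [TopologicalSpace M] {ι : Type*}
variable {𝒮 : LSys E M ι}

variable {κ : Type*}

theorem final_real {b C e : ℝ} (hb : 0 < b) (hC : 0 < C) (he : 0 < e) : ∃ D, ∀ f0 fe L0 Le p1 p2 t : ℝ,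
    0 < f0 → 0 < fe → b ≤ L0 → b ≤ Le → e / 2 ≤ p1 → |p2| ≤ 3 / 2 →
    fe ^ 2 * Le ≤ C * (f0 ^ 2 * L0) → f0 ^ 2 * L0 ≤ C * (fe ^ 2 * Le) →
    p1 * (fe * Le) ≤ C * f0 → f0 * |p1 * t - p2| ≤ C * fe → L0 ≤ D ∧ |t| ≤ D := by
  refine ⟨4 * C ^ 5 / (b * e ^ 2) +
    2 * (C * Real.sqrt (C * (4 * C ^ 5 / (b * e ^ 2)) / b) + 3 / 2) / e, ?_⟩
  intro f0 fe L0 Le p1 p2 t hf0 hfe hL0 hLe hp1 hp2 h1 h2 h3 h4
  obtain ⟨D1, hD1⟩ : ∃ D1, D1 = 4 * C ^ 5 / (b * e ^ 2) := ⟨_, rfl⟩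
  rw [← hD1]
  have hD1p : 0 < D1 := by rw [hD1]; positivity
  have hL0p : 0 < L0 := hb.trans_le hL0
  have hLep : 0 < Le := hb.trans_le hLe
  have hp1p : 0 < p1 := (half_pos he).trans_le hp1
  have ha : e / 2 * (f0 * L0) ≤ C ^ 2 * fe := by
    have q4 : f0 * (e / 2 * (f0 * L0)) ≤ f0 * (C ^ 2 * fe) := by
      calc f0 * (e / 2 * (f0 * L0)) = e / 2 * (f0 ^ 2 * L0) := by ring
        _ ≤ p1 * (f0 ^ 2 * L0) := mul_le_mul_of_nonneg_right hp1 (by positivity)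
        _ ≤ p1 * (C * (fe ^ 2 * Le)) := mul_le_mul_of_nonneg_left h2 hp1p.le
        _ = (C * fe) * (p1 * (fe * Le)) := by ring
        _ ≤ (C * fe) * (C * f0) := mul_le_mul_of_nonneg_left h3 (by positivity)
        _ = f0 * (C ^ 2 * fe) := by ring
    exact le_of_mul_le_mul_left q4 hf0
  have hb' : b * fe ^ 2 ≤ C * (f0 ^ 2 * L0) := by
    calc b * fe ^ 2 ≤ Le * fe ^ 2 := mul_le_mul_of_nonneg_right hLe (by positivity)
      _ = fe ^ 2 * Le := by ring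
      _ ≤ _ := h1
  have hL : L0 ≤ D1 := by
    have q1 : (e / 2 * (f0 * L0)) ^ 2 ≤ (C ^ 2 * fe) ^ 2 :=
      pow_le_pow_left₀ (by positivity) ha 2
    have q2 : (f0 ^ 2 * L0) * (L0 * (b * e ^ 2)) ≤ (f0 ^ 2 * L0) * (4 * C ^ 5) := by
      calc (f0 ^ 2 * L0) * (L0 * (b * e ^ 2)) = 4 * b * (e / 2 * (f0 * L0)) ^ 2 := by ring
        _ ≤ 4 * b * (C ^ 2 * fe) ^ 2 := mul_le_mul_of_nonneg_left q1 (by positivity)
        _ = 4 * C ^ 4 * (b * fe ^ 2) := by ring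
        _ ≤ 4 * C ^ 4 * (C * (f0 ^ 2 * L0)) := mul_le_mul_of_nonneg_left hb' (by positivity)
        _ = (f0 ^ 2 * L0) * (4 * C ^ 5) := by ring
    have q3 := le_of_mul_le_mul_left q2 (by positivity)
    rw [hD1, le_div_iff₀ (by positivity)]
    exact q3
  have hs : fe ≤ f0 * Real.sqrt (C * D1 / b) := by
    have q1 : fe ^ 2 ≤ f0 ^ 2 * (C * D1 / b) := by
      have q2 : b * fe ^ 2 ≤ b * (f0 ^ 2 * (C * D1 / b)) := by
        calc b * fe ^ 2 ≤ C * (f0 ^ 2 * L0) := hb'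
          _ ≤ C * (f0 ^ 2 * D1) := by gcongr
          _ = b * (f0 ^ 2 * (C * D1 / b)) := by field_simp
      exact le_of_mul_le_mul_left q2 hb
    have q3 := Real.sqrt_le_sqrt q1
    rw [Real.sqrt_sq hfe.le, Real.sqrt_mul (by positivity), Real.sqrt_sq hf0.le] at q3
    exact q3
  have hs0 := Real.sqrt_nonneg (C * D1 / b)
  have hG : |p1 * t - p2| ≤ C * Real.sqrt (C * D1 / b) := by
    have q1 : f0 * |p1 * t - p2| ≤ f0 * (C * Real.sqrt (C * D1 / b)) := by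
      calc f0 * |p1 * t - p2| ≤ C * fe := h4
        _ ≤ C * (f0 * Real.sqrt (C * D1 / b)) := mul_le_mul_of_nonneg_left hs hC.le
        _ = _ := by ring
    exact le_of_mul_le_mul_left q1 hf0
  have ht : |t| ≤ 2 * (C * Real.sqrt (C * D1 / b) + 3 / 2) / e := by
    rw [le_div_iff₀ he]
    have q1 : |p1 * t| ≤ |p1 * t - p2| + |p2| := by
      have := abs_add_le (p1 * t - p2) p2
      rwa [sub_add_cancel] at this
    rw [abs_mul, abs_of_pos hp1p] at q1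
    have q2 : e / 2 * |t| ≤ p1 * |t| := mul_le_mul_of_nonneg_right hp1 (abs_nonneg _)
    linarith
  constructor
  · have : 0 ≤ 2 * (C * Real.sqrt (C * D1 / b) + 3 / 2) / e := by positivity
    linarith
  · linarith

theorem main_lemma [T2Space M] [SecondCountableTopology M] (hN : Noh 𝒮) (hD : 3 ≤ Module.finrank ℝ E)
    {Φ : κ → Cf 𝒮} {U : Ultrafilter κ} (hΦ : BOf Φ U) {z : κ → M}
    {z0 w0 : M} (h : Cnv Φ U z z0 w0) {i j : ι} (hi : z0 ∈ (𝒮.ch i).source)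
    (hj : w0 ∈ (𝒮.ch j).source) {v : κ → E} {v0 : E} (hv : Tendsto v U (𝓝 v0))
    (hnull : ∀ᶠ k in U, 𝒮.g i (𝒮.ch i (z k)) (v k) (v k) = 0)
    (hgood : Good (𝒮.g i (𝒮.ch i z0)) (𝒮.T i (𝒮.ch i z0)) (Wey (𝒮.g i) (𝒮.ch i z0)) v0) :
    ∃ C, ∀ᶠ k in U, ‖LLm (Φ k) i j (z k) (v k)‖ ≤ C ∧ |tauM (Φ k) i (z k) (v k)| ≤ C := by
  have hnorm : ∀ (a : ℝ) (w : E) (c : ℝ), ‖((a, w, c) : Tr E)‖ = max |a| (max ‖w‖ |c|) := by
    intro a w c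
    rw [Prod.norm_def, Prod.norm_def, Real.norm_eq_abs, Real.norm_eq_abs]
  obtain ⟨y0, hy0⟩ : ∃ y0, y0 = 𝒮.ch i z0 := ⟨_, rfl⟩
  have hy0t : y0 ∈ (𝒮.ch i).target := by rw [hy0]; exact (𝒮.ch i).map_source hi
  have hsymm0 : (𝒮.ch i).symm y0 = z0 := by rw [hy0]; exact (𝒮.ch i).left_inv hi
  rw [← hy0] at hgood
  -- constants
  obtain ⟨η1, hη1, hgo⟩ := good_open hy0t hgood
  obtain ⟨ρ, hρ, hρt⟩ := Metric.nhds_basis_closedBall.mem_iff.1 ((𝒮.ch i).open_target.mem_nhds hy0t)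
  obtain ⟨η, hη⟩ : ∃ η, η = min (η1 / 2) ρ := ⟨_, rfl⟩
  have hηp : 0 < η := by rw [hη]; exact lt_min (half_pos hη1) hρ
  have hηη1 : η < η1 := by
    have : η ≤ η1 / 2 := by rw [hη]; exact min_le_left _ _
    linarith
  have hηρ : η ≤ ρ := by rw [hη]; exact min_le_right _ _
  obtain ⟨ε0, hε0, r, hr, hgeo⟩ := exists_geodesic (𝒮.met i) hy0t v0 hηp
  obtain ⟨ε, hεd⟩ : ∃ ε, ε = ε0 / 2 := ⟨_, rfl⟩
  have hε : 0 < ε := by rw [hεd]; exact half_pos hε0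
  have hεε : ε < ε0 := by rw [hεd]; linarith
  -- the good indices
  have hyk : Tendsto (fun k => 𝒮.ch i (z k)) U (𝓝 y0) := by
    rw [hy0]
    exact ((𝒮.ch i).continuousAt hi).tendsto.comp h.hz
  have hzs : ∀ᶠ k in U, z k ∈ (𝒮.ch i).source := h.hz.eventually ((𝒮.ch i).open_source.mem_nhds hi)
  have hG : ∀ᶠ k in U, z k ∈ (𝒮.ch i).source ∧ 𝒮.ch i (z k) ∈ Metric.ball y0 r ∧
      v k ∈ Metric.ball v0 r ∧ 𝒮.g i (𝒮.ch i (z k)) (v k) (v k) = 0 := by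
    filter_upwards [hzs, hyk.eventually (Metric.ball_mem_nhds y0 hr),
      hv.eventually (Metric.ball_mem_nhds v0 hr), hnull] with k h1 h2 h3 h4
    exact ⟨h1, h2, h3, h4⟩
  have hex : ∀ k, ∃ (γ dγ : ℝ → E) (p1 r1 p2 r2 : ℝ → ℝ),
      (z k ∈ (𝒮.ch i).source ∧ 𝒮.ch i (z k) ∈ Metric.ball y0 r ∧
      v k ∈ Metric.ball v0 r ∧ 𝒮.g i (𝒮.ch i (z k)) (v k) (v k) = 0) →
      (γ 0 = 𝒮.ch i (z k) ∧ dγ 0 = v k ∧ p1 0 = 0 ∧ r1 0 = -1 ∧ p2 0 = 1 ∧ r2 0 = 0 ∧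
      (∀ s ∈ Ioo (-ε0) ε0,
        γ s ∈ (𝒮.ch i).target ∧ ‖γ s - y0‖ < η ∧ ‖dγ s - v0‖ < η ∧ |p2 s - 1| < 1 / 2 ∧
        HasDerivAt γ (dγ s) s ∧
        HasDerivAt dγ (- Gam (𝒮.g i) (γ s) (dγ s) (dγ s)) s ∧
        HasDerivAt p1 (- r1 s) s ∧ HasDerivAt r1 (p1 s * Sch (𝒮.g i) (γ s) (dγ s) (dγ s)) s ∧
        HasDerivAt p2 (- r2 s) s ∧ HasDerivAt r2 (p2 s * Sch (𝒮.g i) (γ s) (dγ s) (dγ s)) s ∧
        p2 s * r1 s - p1 s * r2 s = -1) ∧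
      (∀ s ∈ Ico 0 ε0, s / 2 ≤ p1 s) ∧
      ∀ s ∈ Ioo (-ε0) ε0, 𝒮.g i (γ s) (dγ s) (dγ s) = 0) := by
    intro k
    by_cases hk : (z k ∈ (𝒮.ch i).source ∧ 𝒮.ch i (z k) ∈ Metric.ball y0 r ∧
      v k ∈ Metric.ball v0 r ∧ 𝒮.g i (𝒮.ch i (z k)) (v k) (v k) = 0)
    · obtain ⟨γ, dγ, p1, r1, p2, r2, e1, e2, e3, e4, e5, e6, e7, e8⟩ := hgeo _ hk.2.1 _ hk.2.2.1
      refine ⟨γ, dγ, p1, r1, p2, r2, fun _ => ⟨e1, e2, e3, e4, e5, e6, e7, e8, ?_⟩⟩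
      refine geodesic_null (𝒮.met i) hε0 (fun s hs => ?_) (by rw [e1, e2]; exact hk.2.2.2)
      have := e7 s hs
      exact ⟨this.1, this.2.2.2.2.1, this.2.2.2.2.2.1⟩
    · exact ⟨fun _ => 0, fun _ => 0, fun _ => 0, fun _ => 0, fun _ => 0, fun _ => 0,
        fun h => absurd h hk⟩
  choose γ dγ p1 r1 p2 r2 hγ using hex
  have hG' := hG.mono hγ
  have hIcc : ∀ s ∈ Icc (0 : ℝ) ε, s ∈ Ioo (-ε0) ε0 := fun s hs =>
    ⟨by linarith [hs.1], by linarith [hs.2]⟩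
  have h0I : (0 : ℝ) ∈ Icc (0 : ℝ) ε := ⟨le_rfl, hε.le⟩
  have hεI : ε ∈ Icc (0 : ℝ) ε := ⟨hε.le, le_rfl⟩
  -- limits at the end
  obtain ⟨y1, hy1b, hy1⟩ : ∃ y1 ∈ Metric.closedBall y0 η, Tendsto (fun k => γ k ε) U (𝓝 y1) := by
    have hK : IsCompact (Metric.closedBall y0 η) := isCompact_closedBall _ _
    have hmem : Metric.closedBall y0 η ∈ U.map (fun k => γ k ε) := by
      rw [Ultrafilter.mem_map]
      filter_upwards [hG'] with k hk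
      have h1 := (hk.2.2.2.2.2.2.1 ε (hIcc ε hεI)).2.1
      show γ k ε ∈ Metric.closedBall y0 η
      rw [mem_closedBall_iff_norm]
      exact h1.le
    obtain ⟨y1, h1, h2⟩ := hK.ultrafilter_le_nhds' _ hmem
    exact ⟨y1, h1, h2⟩
  obtain ⟨v1, hv1b, hv1⟩ : ∃ v1 ∈ Metric.closedBall v0 η, Tendsto (fun k => dγ k ε) U (𝓝 v1) := by
    have hK : IsCompact (Metric.closedBall v0 η) := isCompact_closedBall _ _
    have hmem : Metric.closedBall v0 η ∈ U.map (fun k => dγ k ε) := by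
      rw [Ultrafilter.mem_map]
      filter_upwards [hG'] with k hk
      have h1 := (hk.2.2.2.2.2.2.1 ε (hIcc ε hεI)).2.2.1
      show dγ k ε ∈ Metric.closedBall v0 η
      rw [mem_closedBall_iff_norm]
      exact h1.le
    obtain ⟨v1, h1, h2⟩ := hK.ultrafilter_le_nhds' _ hmem
    exact ⟨v1, h1, h2⟩
  have hy1t : y1 ∈ (𝒮.ch i).target := hρt (Metric.closedBall_subset_closedBall hηρ hy1b)
  have hg1 : 𝒮.g i y1 v1 v1 = 0 := by
    have hgc : ContinuousAt (𝒮.g i) y1 :=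
      (𝒮.met i).smooth.continuousOn.continuousAt ((𝒮.ch i).open_target.mem_nhds hy1t)
    have hgc2 : ContinuousAt (fun q : E × E => 𝒮.g i q.1 q.2 q.2) (y1, v1) := by
      have q0 : ContinuousAt (fun q : E × E => 𝒮.g i q.1) (y1, v1) :=
        ContinuousAt.comp (f := fun q : E × E => q.1) (g := 𝒮.g i) hgc continuousAt_fst
      exact (q0.clm_apply continuousAt_snd).clm_apply continuousAt_snd
    have h0 := hgc2.tendsto.comp (hy1.prodMk_nhds hv1)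
    have h1 : Tendsto (fun k => 𝒮.g i (γ k ε) (dγ k ε) (dγ k ε)) U (𝓝 (𝒮.g i y1 v1 v1)) := h0
    have h2 : Tendsto (fun k => 𝒮.g i (γ k ε) (dγ k ε) (dγ k ε)) U (𝓝 0) := by
      refine tendsto_const_nhds.congr' ?_
      filter_upwards [hG'] with k hk
      exact (hk.2.2.2.2.2.2.2.2 ε (hIcc ε hεI)).symm
    exact tendsto_nhds_unique h1 h2
  have hgood1 : Good (𝒮.g i y1) (𝒮.T i y1) (Wey (𝒮.g i) y1) v1 := by
    refine hgo y1 hy1t ?_ v1 ?_ hg1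
    · rw [mem_closedBall_iff_norm] at hy1b
      linarith
    · rw [mem_closedBall_iff_norm] at hv1b
      linarith
  -- the second family
  obtain ⟨z1, hz1⟩ : ∃ z1, z1 = (𝒮.ch i).symm y1 := ⟨_, rfl⟩
  have hz1s : z1 ∈ (𝒮.ch i).source := by rw [hz1]; exact (𝒮.ch i).map_target hy1t
  have hz1c : 𝒮.ch i z1 = y1 := by rw [hz1]; exact (𝒮.ch i).right_inv hy1t
  have hze : Tendsto (fun k => (𝒮.ch i).symm (γ k ε)) U (𝓝 z1) := by
    rw [hz1]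
    exact ((𝒮.ch i).continuousAt_symm hy1t).tendsto.comp hy1
  obtain ⟨w1, hw1⟩ := hΦ _ _ hze
  have hC1 : Cnv Φ U (fun k => (𝒮.ch i).symm (γ k ε)) z1 w1 := ⟨hze, hw1⟩
  obtain ⟨j1, hj1⟩ := 𝒮.cover w1
  -- lower bounds
  obtain ⟨b0, hb0, hlow0⟩ := lower_at hD h hi hj hv hnull (by rw [← hy0]; exact hgood)
  obtain ⟨b1, hb1, hlow1⟩ := lower_at hD hC1 hz1s hj1 hv1 (by
      filter_upwards [hG'] with k hk
      have h1 := (hk.2.2.2.2.2.2.1 ε (hIcc ε hεI)).1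
      rw [(𝒮.ch i).right_inv h1]
      exact hk.2.2.2.2.2.2.2.2 ε (hIcc ε hεI)) (by rw [hz1c]; exact hgood1)
  -- image curves
  have hσ : ∀ᶠ k in U, IsCurve 𝒮 FC (fun s => (Φ k).φ ((𝒮.ch i).symm (γ k s))) 0 ε := by
    filter_upwards [hG'] with k hk
    refine img_curve (Or.inr rfl) (Φ k) (dγ := dγ k) (fun s hs => ?_)
    have hs' := hIcc s hs
    have e7 := hk.2.2.2.2.2.2.1 s hs'
    have e9 := hk.2.2.2.2.2.2.2.2 s hs'
    have hgd := hgo (γ k s) e7.1 (by linarith [e7.2.1]) (dγ k s) (by linarith [e7.2.2.1]) e9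
    exact ⟨e7.1, e7.2.2.2.2.1, e9.le, hgd.2.1⟩
  have hp0 : Tendsto (fun k => (Φ k).φ ((𝒮.ch i).symm (γ k 0))) U (𝓝 w0) := by
    refine h.hw.congr' ?_
    filter_upwards [hG', hzs] with k hk hk'
    rw [hk.1, (𝒮.ch i).left_inv hk']
  -- transport
  obtain ⟨C1, hT1⟩ := TRF hN U (A := fun j => Gam (𝒮.g j))
    (fun i => (𝒮.met i).smooth_gam.continuousOn) (h := hTM 𝒮) hTM_cont (K := 0) le_rfl (R := ε)
    (σ := fun k s => (Φ k).φ ((𝒮.ch i).symm (γ k s))) (a := fun _ => 0) (b := fun _ => ε)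
    (Eventually.of_forall fun _ => hε.le) (Eventually.of_forall fun _ => by simp) hσ hp0 hw1 hj hj1
  obtain ⟨C2, hT2⟩ := TRF hN U (A := fun j => At (𝒮.g j))
    (fun i => (𝒮.met i).smooth_At.continuousOn) (h := hTr 𝒮) hTr_cont (K := 0) le_rfl (R := ε)
    (σ := fun k s => (Φ k).φ ((𝒮.ch i).symm (γ k s))) (a := fun _ => 0) (b := fun _ => ε)
    (Eventually.of_forall fun _ => hε.le) (Eventually.of_forall fun _ => by simp) hσ hp0 hw1 hj hj1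
  obtain ⟨C, hC⟩ : ∃ C, C = max (max C1 C2) 1 := ⟨_, rfl⟩
  have hCp : 0 < C := by rw [hC]; exact lt_max_of_lt_right one_pos
  have hC1C : C1 ≤ C := by rw [hC]; exact (le_max_left _ _).trans (le_max_left _ _)
  have hC2C : C2 ≤ C := by rw [hC]; exact (le_max_right _ _).trans (le_max_left _ _)
  obtain ⟨D, hDf⟩ := final_real (lt_min hb0 hb1) hCp hε
  refine ⟨D, ?_⟩
  filter_upwards [hG', hzs, hlow0, hlow1, hT1, hT2] with k hk hks hl0 hl1 ht1 ht2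
  obtain ⟨e1, e2, e3, e4, e5, e6, e7, e8, e9⟩ := hk
  have e7ε := e7 ε (hIcc ε hεI)
  have hcpos : ∀ x, 0 < (Φ k).c x := fun x => (Φ k).h.pos x
  -- notation
  obtain ⟨f0, hf0⟩ : ∃ f0, f0 = ((Φ k).c (z k))⁻¹ := ⟨_, rfl⟩
  obtain ⟨fe, hfe⟩ : ∃ fe, fe = ((Φ k).c ((𝒮.ch i).symm (γ k ε)))⁻¹ := ⟨_, rfl⟩
  have hf0p : 0 < f0 := by rw [hf0]; exact inv_pos.2 (hcpos _)
  have hfep : 0 < fe := by rw [hfe]; exact inv_pos.2 (hcpos _)
  have hLe : LLm (Φ k) i j1 ((𝒮.ch i).symm (γ k ε)) (dγ k ε) =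
      fderiv ℝ (rep (𝒮.ch i) (𝒮.ch j1) (Φ k).φ) (γ k ε) (dγ k ε) := by
    unfold LLm
    rw [(𝒮.ch i).right_inv e7ε.1]
  have hL0 : LLm (Φ k) i j (z k) (v k) =
      fderiv ℝ (rep (𝒮.ch i) (𝒮.ch j) (Φ k).φ) (γ k 0) (dγ k 0) := by
    unfold LLm
    rw [e1, e2]
  have hc0 : (Φ k).c ((𝒮.ch i).symm (γ k 0)) = (Φ k).c (z k) := by
    rw [e1, (𝒮.ch i).left_inv hks]
  -- the three parallel sections
  have hX := ht1 _ (par_X (Φ k) (i := i) (γ := γ k) (dγ := dγ k) (a := 0) (b := ε)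
    (fun s hs => ⟨(e7 s (hIcc s hs)).1, (e7 s (hIcc s hs)).2.2.2.2.1,
      (e7 s (hIcc s hs)).2.2.2.2.2.1, e9 s (hIcc s hs)⟩))
  have hZ1 := ht2 _ (par_zeta hD (Φ k) (i := i) (γ := γ k) (dγ := dγ k) (p := p1 k) (ρ := r1 k)
    (a := 0) (b := ε)
    (fun s hs => ⟨(e7 s (hIcc s hs)).1, (e7 s (hIcc s hs)).2.2.2.2.1,
      (e7 s (hIcc s hs)).2.2.2.2.2.1, e9 s (hIcc s hs), (e7 s (hIcc s hs)).2.2.2.2.2.2.1,
      (e7 s (hIcc s hs)).2.2.2.2.2.2.2.1⟩))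
  have hZ2 := ht2 _ (par_zeta hD (Φ k) (i := i) (γ := γ k) (dγ := dγ k)
    (p := fun s => p2 k ε * p1 k s - p1 k ε * p2 k s)
    (ρ := fun s => p2 k ε * r1 k s - p1 k ε * r2 k s)
    (a := 0) (b := ε)
    (fun s hs => ⟨(e7 s (hIcc s hs)).1, (e7 s (hIcc s hs)).2.2.2.2.1,
      (e7 s (hIcc s hs)).2.2.2.2.2.1, e9 s (hIcc s hs), by
        have q := (((e7 s (hIcc s hs)).2.2.2.2.2.2.1).const_mul (p2 k ε)).sub
          (((e7 s (hIcc s hs)).2.2.2.2.2.2.2.2.1).const_mul (p1 k ε))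
        refine q.congr_deriv ?_
        ring, by
        have q := (((e7 s (hIcc s hs)).2.2.2.2.2.2.2.1).const_mul (p2 k ε)).sub
          (((e7 s (hIcc s hs)).2.2.2.2.2.2.2.2.2.1).const_mul (p1 k ε))
        refine q.congr_deriv ?_
        ring⟩))
  beta_reduce at hX hZ1 hZ2
  rw [Hm_null, Hm_null, hnorm, hnorm] at hZ1 hZ2
  rw [e3, e4] at hZ1
  have hwr := e7ε.2.2.2.2.2.2.2.2.2.2
  have hw2 : p2 k ε * r1 k ε - p1 k ε * r2 k ε = -1 := hwr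
  have hp20 : p2 k ε * p1 k 0 - p1 k ε * p2 k 0 = - p1 k ε := by rw [e3, e5]; ring
  have hr20 : p2 k ε * r1 k 0 - p1 k ε * r2 k 0 = - p2 k ε := by rw [e4, e6]; ring
  have hpe : p2 k ε * p1 k ε - p1 k ε * p2 k ε = 0 := by ring
  rw [hw2, hp20, hr20, hpe] at hZ2
  rw [hc0] at hX hZ1 hZ2
  rw [← hL0, ← hLe] at hX hZ1 hZ2
  rw [← hf0, ← hfe] at hZ1 hZ2
  have htau : tauM (Φ k) i (z k) (v k) =
      tau (fun y => (Φ k).c ((𝒮.ch i).symm y)) (γ k 0) (dγ k 0) := by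
    unfold tauM
    rw [e1, e2]
  rw [htau]
  obtain ⟨t, ht⟩ : ∃ t, t = tau (fun y => (Φ k).c ((𝒮.ch i).symm y)) (γ k 0) (dγ k 0) := ⟨_, rfl⟩
  rw [← ht]
  rw [← ht] at hZ1 hZ2
  obtain ⟨Lv0, hLv0⟩ : ∃ Lv0, Lv0 = LLm (Φ k) i j (z k) (v k) := ⟨_, rfl⟩
  obtain ⟨Lve, hLve⟩ : ∃ Lve, Lve = LLm (Φ k) i j1 ((𝒮.ch i).symm (γ k ε)) (dγ k ε) := ⟨_, rfl⟩
  rw [← hLv0] at hl0 hX hZ1 hZ2 ⊢
  rw [← hLve] at hl1 hX hZ1 hZ2
  have hf02 : ((Φ k).c (z k) ^ 2)⁻¹ = f0 ^ 2 := by rw [hf0, inv_pow]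
  have hfe2 : ((Φ k).c ((𝒮.ch i).symm (γ k ε)) ^ 2)⁻¹ = fe ^ 2 := by rw [hfe, inv_pow]
  rw [hf02, hfe2, norm_smul, norm_smul, Real.norm_of_nonneg (sq_nonneg _),
    Real.norm_of_nonneg (sq_nonneg _)] at hX
  have hp1 : ε / 2 ≤ p1 k ε := e8 ε ⟨hε.le, hεε⟩
  have hp1p : 0 < p1 k ε := (half_pos hε).trans_le hp1
  refine hDf f0 fe ‖Lv0‖ ‖Lve‖ (p1 k ε) (p2 k ε) t hf0p hfep ((min_le_left _ _).trans hl0)
    ((min_le_right _ _).trans hl1) hp1 ?_ ?_ ?_ ?_ ?_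
  · have h1 := abs_lt.1 e7ε.2.2.2.1
    rw [abs_le]
    constructor <;> linarith [h1.1, h1.2]
  · exact hX.1.trans (mul_le_mul_of_nonneg_right hC1C (by positivity))
  · exact hX.2.trans (mul_le_mul_of_nonneg_right hC1C (by positivity))
  · have h1 : ‖(fe * p1 k ε) • Lve‖ ≤ C2 * f0 := by
      refine (le_max_left _ _).trans ((le_max_right _ _).trans (hZ1.1.trans (le_of_eq ?_)))
      rw [mul_zero, zero_smul, norm_zero, zero_mul, sub_zero, mul_neg_one, abs_neg, abs_zero,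
        abs_of_pos hf0p, max_eq_right hf0p.le, max_eq_right hf0p.le]
    rw [norm_smul, Real.norm_of_nonneg (by positivity)] at h1
    calc p1 k ε * (fe * ‖Lve‖) = fe * p1 k ε * ‖Lve‖ := by ring
      _ ≤ C2 * f0 := h1
      _ ≤ C * f0 := mul_le_mul_of_nonneg_right hC2C hf0p.le
  · have h1 : |f0 * (-p2 k ε - -p1 k ε * t)| ≤ C2 * fe := by
      refine (le_max_right _ _).trans ((le_max_right _ _).trans (hZ2.2.trans (le_of_eq ?_)))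
      rw [mul_zero, zero_smul, norm_zero, zero_mul, sub_zero, mul_neg_one, abs_neg, abs_zero,
        abs_of_pos hfep, max_eq_right hfep.le, max_eq_right hfep.le]
    rw [abs_mul, abs_of_pos hf0p] at h1
    have h2 : -p2 k ε - -p1 k ε * t = p1 k ε * t - p2 k ε := by ring
    rw [h2] at h1
    exact h1.trans (mul_le_mul_of_nonneg_right hC2C hfep.le)

end Pool.Agent.EG

end

end M_MM2

section M_MM3

/-!
Row ec-MM3 (W = 0 if JB fails; paper M6).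
`null_family`: v' null FC at ch j w0, y_k → ch j w0: there are null v'_k → v': v'_k = v' + t_k T, t_k the small root of
g_k(v',v') + 2 t g_k(v',T) + t² g_k(T,T) = 0, e.g. t_k = (-g_k(v',T) - sqrt(g_k(v',T)² - g_k(v',v')g_k(T,T)))/g_k(T,T)  (g(v',T) < 0, limit value 0), continuous.
`wey_zero`: suppose Wey (g i) y ≠ 0, y ∈ target i, z0 := ch_i⁻¹ y, constant family z = z0, images → w0 (BOf), chart j ∋ w0.  JB fails at this family (else JB_all).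
exists_good, span_good: the set of v with LLm v and tauM v U-bounded is a subspace containing all good vectors (main_lemma with constant v), so it is ⊤:
‖LLm‖, ‖tauM‖ are U-bounded (finite basis).  JB fails ⇒ by JB_of_bounds c_k(z0)⁻¹ is not U-bounded, so c_k(z0)⁻¹ → ∞ along U.
lower_zero: Wey (g j)(ch j w0) ≠ 0; two_good there: v1', v2' good with g(v1',v2') ≠ 0; null_family at w_k = Φ_k z0 → w0; main_lemma for the inverse family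
(Cnv (Φ⁻¹) w_k → w0, Φ_k⁻¹ w_k = z0 → z0): ‖LLm Φ_k⁻¹ j i w_k v'_{m,k}‖ ≤ C, m = 1,2.  LLm_conf for Φ_k⁻¹: g_i(L v1',L v2') = (c_{Φ⁻¹}(w_k))² g_j(v1',v2') with
c_{Φ⁻¹}(w_k) = c_k(z0)⁻¹ → ∞, while the left side is bounded: contradiction.
-/

open scoped ContDiff Topology
open Set Filter

noncomputable section

set_option linter.unusedSectionVars false
set_option maxSynthPendingDepth 3

namespace Pool.Agent.EG

variable {E : Type*} [NormedAddCommGroup E] [NormedSpace ℝ E] [FiniteDimensional ℝ E]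
variable {M : Type*} [TopologicalSpace M] {ι : Type*}
variable {𝒮 : LSys E M ι}

variable {κ : Type*}

theorem mm3_unif {F : Type*} [NormedAddCommGroup F] [NormedSpace ℝ F] {U : Ultrafilter κ}
    {L : κ → E →L[ℝ] F} (h : ∀ v, ∃ C, ∀ᶠ k in U, ‖L k v‖ ≤ C) : ∃ C, ∀ᶠ k in U, ‖L k‖ ≤ C := by
  obtain ⟨b, -⟩ : ∃ b : Module.Basis (Fin (Module.finrank ℝ E)) ℝ E, True :=
    ⟨Module.finBasis ℝ E, trivial⟩
  have hb : ∀ m, ∃ C, ∀ᶠ k in U, ‖L k (b m)‖ ≤ C := fun m => h (b m)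
  choose C hC using hb
  obtain ⟨K, hK⟩ : ∃ K : Fin (Module.finrank ℝ E) → ℝ, K = fun m => ‖(b.coord m).toContinuousLinearMap‖ :=
    ⟨_, rfl⟩
  refine ⟨∑ m, K m * |C m|, ?_⟩
  filter_upwards [eventually_all.2 hC] with k hk
  have hK0 : ∀ m, 0 ≤ K m := fun m => by rw [hK]; exact norm_nonneg _
  refine ContinuousLinearMap.opNorm_le_bound _
    (Finset.sum_nonneg fun m _ => mul_nonneg (hK0 m) (abs_nonneg _)) (fun v => ?_)
  have h1 : L k v = ∑ m, b.repr v m • L k (b m) := by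
    conv_lhs => rw [← b.sum_repr v]
    rw [map_sum]
    simp only [map_smul]
  rw [h1, Finset.sum_mul]
  refine (norm_sum_le _ _).trans (Finset.sum_le_sum fun m _ => ?_)
  rw [norm_smul]
  have h2 : ‖b.repr v m‖ ≤ K m * ‖v‖ := by
    rw [hK]
    exact (b.coord m).toContinuousLinearMap.le_opNorm v
  calc ‖b.repr v m‖ * ‖L k (b m)‖ ≤ (K m * ‖v‖) * |C m| :=
        mul_le_mul h2 ((hk m).trans (le_abs_self _)) (norm_nonneg _)
          (mul_nonneg (hK0 m) (norm_nonneg _))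
    _ = K m * |C m| * ‖v‖ := by ring

theorem null_family {U : Ultrafilter κ} {j : ι} {y : κ → E} {y0 v0 : E} (hy : Tendsto y U (𝓝 y0))
    (hy0 : y0 ∈ (𝒮.ch j).target) (hv : 𝒮.g j y0 v0 v0 = 0) (hT : 𝒮.g j y0 (𝒮.T j y0) v0 < 0) :
    ∃ v : κ → E, Tendsto v U (𝓝 v0) ∧ ∀ᶠ k in U, 𝒮.g j (y k) (v k) (v k) = 0 := by
  obtain ⟨T0, hT0⟩ : ∃ T0, T0 = 𝒮.T j y0 := ⟨_, rfl⟩
  rw [← hT0] at hT
  have hlor := 𝒮.lor j y0 hy0
  have ev : ∀ u w : E, Tendsto (fun k => 𝒮.g j (y k) u w) U (𝓝 (𝒮.g j y0 u w)) := by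
    intro u w
    have h1 : ContinuousAt (fun y => 𝒮.g j y u w) y0 :=
      ((bx1_gcont hy0).clm_apply continuousAt_const).clm_apply continuousAt_const
    exact h1.tendsto.comp hy
  have ha := ev T0 T0
  have hb := ev T0 v0
  have hc := ev v0 v0
  have ha0 : 𝒮.g j y0 T0 T0 < 0 := by rw [hT0]; exact hlor.neg
  obtain ⟨a, had⟩ : ∃ a : κ → ℝ, a = fun k => 𝒮.g j (y k) T0 T0 := ⟨_, rfl⟩
  obtain ⟨b, hbd⟩ : ∃ b : κ → ℝ, b = fun k => 𝒮.g j (y k) T0 v0 := ⟨_, rfl⟩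
  obtain ⟨c, hcd⟩ : ∃ c : κ → ℝ, c = fun k => 𝒮.g j (y k) v0 v0 := ⟨_, rfl⟩
  rw [← had] at ha
  rw [← hbd] at hb
  rw [← hcd, hv] at hc
  have hs : Tendsto (fun k => Real.sqrt (b k ^ 2 - a k * c k)) U (𝓝 (- 𝒮.g j y0 T0 v0)) := by
    have h1 : Tendsto (fun k => Real.sqrt (b k ^ 2 - a k * c k)) U
        (𝓝 (Real.sqrt (𝒮.g j y0 T0 v0 ^ 2 - 𝒮.g j y0 T0 T0 * 0))) :=
      ((hb.pow 2).sub (ha.mul hc)).sqrt
    have h2 : Real.sqrt (𝒮.g j y0 T0 v0 ^ 2 - 𝒮.g j y0 T0 T0 * 0) = - 𝒮.g j y0 T0 v0 := by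
      rw [mul_zero, sub_zero, ← neg_sq]
      exact Real.sqrt_sq (by linarith)
    rwa [h2] at h1
  obtain ⟨t, htd⟩ : ∃ t : κ → ℝ, t = fun k => (- b k - Real.sqrt (b k ^ 2 - a k * c k)) / a k := ⟨_, rfl⟩
  have ht : Tendsto t U (𝓝 0) := by
    have h1 := (hb.neg.sub hs).div ha ha0.ne
    rw [sub_neg_eq_add, neg_add_cancel, zero_div] at h1
    rw [htd]
    exact h1
  refine ⟨fun k => v0 + t k • T0, ?_, ?_⟩
  · have h1 : Tendsto (fun k => v0 + t k • T0) U (𝓝 (v0 + (0 : ℝ) • T0)) :=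
      tendsto_const_nhds.add (ht.smul tendsto_const_nhds)
    rwa [zero_smul, add_zero] at h1
  · have hdisc : ∀ᶠ k in U, 0 < b k ^ 2 - a k * c k := by
      have h1 : Tendsto (fun k => b k ^ 2 - a k * c k) U
          (𝓝 (𝒮.g j y0 T0 v0 ^ 2 - 𝒮.g j y0 T0 T0 * 0)) := (hb.pow 2).sub (ha.mul hc)
      refine h1.eventually_const_lt ?_
      rw [mul_zero, sub_zero, sq]
      exact mul_pos_of_neg_of_neg hT hT
    have hane : ∀ᶠ k in U, a k < 0 := ha.eventually_lt_const ha0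
    have hyt : ∀ᶠ k in U, y k ∈ (𝒮.ch j).target :=
      hy.eventually ((𝒮.ch j).open_target.mem_nhds hy0)
    filter_upwards [hdisc, hane, hyt] with k h1 h2 h3
    have hsq := Real.sq_sqrt h1.le
    have hsym := (𝒮.lor j (y k) h3).symm v0 T0
    have e : 𝒮.g j (y k) (v0 + t k • T0) (v0 + t k • T0) = a k * t k ^ 2 + 2 * b k * t k + c k := by
      simp only [map_add, map_smul, add_apply, smul_apply,
        smul_eq_mul]
      rw [hsym, had, hbd, hcd]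
      ring
    rw [e, htd]
    obtain ⟨s, hsd⟩ : ∃ s, s = Real.sqrt (b k ^ 2 - a k * c k) := ⟨_, rfl⟩
    rw [← hsd] at hsq
    show a k * ((- b k - Real.sqrt (b k ^ 2 - a k * c k)) / a k) ^ 2 +
      2 * b k * ((- b k - Real.sqrt (b k ^ 2 - a k * c k)) / a k) + c k = 0
    rw [← hsd]
    have ha' : a k ≠ 0 := h2.ne
    have e3 : a k * ((- b k - s) / a k) ^ 2 + 2 * b k * ((- b k - s) / a k) + c k =
        (s ^ 2 - (b k ^ 2 - a k * c k)) / a k := by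
      field_simp
      ring
    rw [e3, hsq, sub_self, zero_div]

theorem wey_zero [T2Space M] [SecondCountableTopology M] (hN : Noh 𝒮) (hD : 3 ≤ Module.finrank ℝ E)
    {Φ : κ → Cf 𝒮} {U : Ultrafilter κ} (hΦ : BOf Φ U) (hΦ' : BOf (fun k => (Φ k).inv) U) {z : κ → M}
    {z0 w0 : M} (h : Cnv Φ U z z0 w0) (hJ : ¬ JBat Φ U z z0 w0) :
    ∀ i, ∀ y ∈ (𝒮.ch i).target, Wey (𝒮.g i) y = 0 := by
  intro i y hy
  by_contra hne
  obtain ⟨x0, hx0⟩ : ∃ x0, x0 = (𝒮.ch i).symm y := ⟨_, rfl⟩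
  have hi : x0 ∈ (𝒮.ch i).source := by rw [hx0]; exact (𝒮.ch i).map_target hy
  have hix : 𝒮.ch i x0 = y := by rw [hx0]; exact (𝒮.ch i).right_inv hy
  obtain ⟨w1, h1⟩ := cnv_exists hΦ (z := fun _ => x0) (z0 := x0) tendsto_const_nhds
  obtain ⟨j, hj⟩ := 𝒮.cover w1
  have hJ1 : ¬ JBat Φ U (fun _ => x0) x0 w1 := fun hJ' => hJ (JB_all hN hD hΦ h1 h hJ')
  obtain ⟨v, hv⟩ := exists_good (𝒮.lor i y hy) ((𝒮.met i).isWeyl hD hy) hD hne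
  have hsp := span_good (𝒮.lor i y hy) hD hv
  -- bounded vectors
  have hgb : ∀ v, Good (𝒮.g i y) (𝒮.T i y) (Wey (𝒮.g i) y) v →
      ∃ C, ∀ᶠ k in U, ‖LLm (Φ k) i j x0 v‖ ≤ C ∧ |tauM (Φ k) i x0 v| ≤ C := by
    intro v hv
    exact main_lemma hN hD hΦ h1 hi hj (v := fun _ => v) tendsto_const_nhds
      (Eventually.of_forall fun k => by rw [hix]; exact hv.1) (by rw [hix]; exact hv)
  have hall : ∀ v, ∃ C, ∀ᶠ k in U, ‖LLm (Φ k) i j x0 v‖ ≤ C ∧ |tauM (Φ k) i x0 v| ≤ C := by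
    intro v
    have hvm : v ∈ Submodule.span ℝ {v | Good (𝒮.g i y) (𝒮.T i y) (Wey (𝒮.g i) y) v} := by
      rw [hsp]; trivial
    induction hvm using Submodule.span_induction with
    | mem x hx => exact hgb x hx
    | zero =>
      refine ⟨0, Eventually.of_forall fun k => ?_⟩
      rw [map_zero, map_zero, norm_zero, abs_zero]
      exact ⟨le_rfl, le_rfl⟩
    | add x y _ _ hx hy =>
      obtain ⟨C1, hC1⟩ := hx
      obtain ⟨C2, hC2⟩ := hy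
      refine ⟨C1 + C2, ?_⟩
      filter_upwards [hC1, hC2] with k k1 k2
      rw [map_add, map_add]
      exact ⟨(norm_add_le _ _).trans (add_le_add k1.1 k2.1),
        (abs_add_le _ _).trans (add_le_add k1.2 k2.2)⟩
    | smul a x _ hx =>
      obtain ⟨C1, hC1⟩ := hx
      refine ⟨|a| * C1, ?_⟩
      filter_upwards [hC1] with k k1
      rw [map_smul, map_smul, norm_smul, smul_eq_mul, abs_mul, Real.norm_eq_abs]
      exact ⟨mul_le_mul_of_nonneg_left k1.1 (abs_nonneg _),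
        mul_le_mul_of_nonneg_left k1.2 (abs_nonneg _)⟩
  obtain ⟨CL, hCL⟩ := mm3_unif (U := U) (L := fun k => LLm (Φ k) i j x0) (fun v => by
    obtain ⟨C, hC⟩ := hall v
    exact ⟨C, hC.mono fun k hk => hk.1⟩)
  obtain ⟨Ct, hCt⟩ := mm3_unif (U := U) (L := fun k => tauM (Φ k) i x0) (fun v => by
    obtain ⟨C, hC⟩ := hall v
    exact ⟨C, hC.mono fun k hk => hk.2⟩)
  -- the factors are unbounded
  have hcinf : ∀ C : ℝ, ∀ᶠ k in U, C < ((Φ k).c x0)⁻¹ := by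
    intro C
    by_contra hcon
    rw [← Ultrafilter.eventually_not] at hcon
    refine hJ1 (JB_of_bounds h1 hi hj (C := max (max CL Ct) C) ?_ ?_ ?_)
    · filter_upwards [hCL] with k hk
      exact hk.trans ((le_max_left _ _).trans (le_max_left _ _))
    · filter_upwards [hCt] with k hk
      exact hk.trans ((le_max_right _ _).trans (le_max_left _ _))
    · filter_upwards [hcon] with k hk
      exact (not_lt.1 hk).trans (le_max_right _ _)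
  -- the Weyl tensor at the limit point
  obtain ⟨Cv, hCv⟩ := hgb v hv
  have hne1 : Wey (𝒮.g j) (𝒮.ch j w1) ≠ 0 :=
    lower_zero hD h1 hi hj (v := fun _ => v) tendsto_const_nhds
      (Eventually.of_forall fun k => by rw [hix]; exact hv.1) (by rw [hix]; exact hv)
      (C := Cv) (hCv.mono fun k hk => hk.1)
  have hyj : 𝒮.ch j w1 ∈ (𝒮.ch j).target := (𝒮.ch j).map_source hj
  obtain ⟨v', hv'⟩ := exists_good (𝒮.lor j _ hyj) ((𝒮.met j).isWeyl hD hyj) hD hne1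
  obtain ⟨a1, a2, ha1, ha2, ha12⟩ := two_good (𝒮.lor j _ hyj) hD hv'
  have hyk : Tendsto (fun k => 𝒮.ch j ((Φ k).φ x0)) U (𝓝 (𝒮.ch j w1)) :=
    ((𝒮.ch j).continuousAt hj).tendsto.comp h1.hw
  obtain ⟨b1, hb1, hb1n⟩ := null_family hyk hyj ha1.1 ha1.2.1
  obtain ⟨b2, hb2, hb2n⟩ := null_family hyk hyj ha2.1 ha2.2.1
  have hinv : ∀ k, (Φ k).inv.φ ((Φ k).φ x0) = x0 := fun k => (Φ k).φ.symm_apply_apply x0
  have h2 : Cnv (fun k => (Φ k).inv) U (fun k => (Φ k).φ x0) w1 x0 := by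
    refine ⟨h1.hw, ?_⟩
    simp only [hinv]
    exact tendsto_const_nhds
  obtain ⟨D1, hD1⟩ := main_lemma hN hD hΦ' h2 hj hi hb1 hb1n ha1
  obtain ⟨D2, hD2⟩ := main_lemma hN hD hΦ' h2 hj hi hb2 hb2n ha2
  -- the conformal relation
  have hws : ∀ᶠ k in U, (Φ k).φ x0 ∈ (𝒮.ch j).source :=
    h1.hw.eventually ((𝒮.ch j).open_source.mem_nhds hj)
  have hlim : Tendsto (fun k => |𝒮.g j (𝒮.ch j ((Φ k).φ x0)) (b1 k) (b2 k)|) U
      (𝓝 |𝒮.g j (𝒮.ch j w1) a1 a2|) := by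
    have hgc2 : ContinuousAt (fun q : E × (E × E) => 𝒮.g j q.1 q.2.1 q.2.2) (𝒮.ch j w1, (a1, a2)) := by
      have q0 : ContinuousAt (fun q : E × (E × E) => 𝒮.g j q.1) (𝒮.ch j w1, (a1, a2)) :=
        ContinuousAt.comp (f := fun q : E × (E × E) => q.1) (g := 𝒮.g j) (bx1_gcont hyj)
          continuousAt_fst
      exact (q0.clm_apply continuousAt_snd.fst).clm_apply continuousAt_snd.snd
    exact (hgc2.tendsto.comp (hyk.prodMk_nhds (hb1.prodMk_nhds hb2))).abs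
  obtain ⟨δ, hδ⟩ : ∃ δ, δ = |𝒮.g j (𝒮.ch j w1) a1 a2| / 2 := ⟨_, rfl⟩
  have hδp : 0 < δ := by rw [hδ]; exact half_pos (abs_pos.2 ha12)
  have hδl : ∀ᶠ k in U, δ < |𝒮.g j (𝒮.ch j ((Φ k).φ x0)) (b1 k) (b2 k)| := by
    refine hlim.eventually_const_lt ?_
    rw [hδ] at hδp ⊢
    linarith
  obtain ⟨B, hB⟩ : ∃ B, B = ‖𝒮.g i y‖ * |D1| * |D2| := ⟨_, rfl⟩
  have hB0 : 0 ≤ B := by rw [hB]; positivity
  have hfin := (hcinf (B / δ + 1)).and ((hD1.and hD2).and (hws.and hδl))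
  obtain ⟨k, hk1, ⟨hk2, hk3⟩, hk4, hk5⟩ := hfin.exists
  have hconf := LLm_conf ((Φ k).inv) (i := j) (j := i) (x := (Φ k).φ x0) hk4
    (by rw [hinv k]; exact hi) (b1 k) (b2 k)
  rw [hinv k, hix] at hconf
  have hcc : (Φ k).inv.c ((Φ k).φ x0) = ((Φ k).c x0)⁻¹ := by
    show ((Φ k).c ((Φ k).φ.symm ((Φ k).φ x0)))⁻¹ = _
    rw [(Φ k).φ.symm_apply_apply]
  rw [hcc] at hconf
  have hle : |𝒮.g i y (LLm (Φ k).inv j i ((Φ k).φ x0) (b1 k)) (LLm (Φ k).inv j i ((Φ k).φ x0) (b2 k))|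
      ≤ B := by
    rw [hB, ← Real.norm_eq_abs]
    refine ((𝒮.g i y).le_opNorm₂ _ _).trans ?_
    exact mul_le_mul (mul_le_mul_of_nonneg_left (hk2.1.trans (le_abs_self _)) (norm_nonneg _))
      (hk3.1.trans (le_abs_self _)) (norm_nonneg _) (by positivity)
  rw [hconf, abs_mul, abs_of_nonneg (sq_nonneg _)] at hle
  have hq : 1 ≤ B / δ + 1 := by
    have : 0 ≤ B / δ := by positivity
    linarith
  have hq2 : (B / δ + 1) ≤ ((Φ k).c x0)⁻¹ ^ 2 := by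
    calc (B / δ + 1) ≤ (B / δ + 1) ^ 2 := by
          rw [sq]; exact le_mul_of_one_le_left (by linarith) hq
      _ ≤ _ := pow_le_pow_left₀ (by linarith) hk1.le 2
  have : (B / δ + 1) * δ ≤ B :=
    (mul_le_mul hq2 hk5.le hδp.le (sq_nonneg _)).trans hle
  rw [add_mul, div_mul_cancel₀ _ hδp.ne'] at this
  linarith

end Pool.Agent.EG

end

end M_MM3

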