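import Pool.Agent.Lib.MP_eeed5f_gt.GC
import Pool.Agent.Lib.MP_eeed5f_gt.B2
import Pool.Agent.Lib.MP_eeed5f_gt.F2
import Pool.Agent.Lib.MP_eeed5f_gt.B1
import Pool.Agent.Lib.MP_eeed5f_gt.C4
import Pool.Agent.Lib.MP_eeed5f_gt.M1

open scoped Manifold ContDiff Topology
open Set Filter

noncomputable section

set_option linter.unusedSectionVars false
set_option maxSynthPendingDepth 3

namespace Pool.Agent.EG

open Pool.Agent.NOHS

universe u v w

/-- The abstract form: if jets are unbounded along one family with bounded orbits, then the Weyl and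
Cotton tensors vanish. -/
theorem flat_or_allJB {E : Type v} [NormedAddCommGroup E] [NormedSpace ℝ E] [FiniteDimensional ℝ E]
    {M : Type u} [TopologicalSpace M] {ι : Type w} {𝒮 : LSys E M ι}
    [T2Space M] [SecondCountableTopology M] (hN : Noh 𝒮) (hD : 3 ≤ Module.finrank ℝ E) :
    AllJB 𝒮 ∨ (∀ i, ∀ y ∈ (𝒮.ch i).target, Wey (𝒮.g i) y = 0) ∧
      ∀ i, ∀ y ∈ (𝒮.ch i).target, CotL (𝒮.g i) y = 0 := by
  by_cases h : AllJB 𝒮
  · exact Or.inl h
  right
  unfold AllJB at h
  push Not at h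
  obtain ⟨κ, Φ, U, z, z0, w0, hc, hJ⟩ := h
  have hΦ : BOf Φ U := bounded_orbits (by omega) hN U Φ hc.hz hc.hw
  have hΦ' : BOf (fun k => (Φ k).inv) U := by
    refine bounded_orbits (x := fun k => (Φ k).φ (z k)) (x0 := w0) (y0 := z0) (by omega) hN U _ hc.hw ?_
    have : (fun k => ((Φ k).inv).φ ((Φ k).φ (z k))) = z := by
      funext k
      exact (Φ k).φ.symm_apply_apply (z k)
    rw [this]
    exact hc.hz
  have hW := wey_zero hN hD hΦ hΦ' hc hJ
  exact ⟨hW, cot_zero hN hD hW hΦ hc hJ⟩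

/-- **Main theorem.** -/
theorem main {n : ℕ} {M : Type u} [TopologicalSpace M] [ChartedSpace (Euc (n + 1)) M]
    [IsManifold 𝓘(ℝ, Euc (n + 1)) ∞ M] [T2Space M] [SecondCountableTopology M]
    (S : Spacetime (n + 1) M) (hc : IsCausal S) (hn : NoObserverHorizons S) (hess : Essential S) :
    ConformallyFlat S := by
  rcases n with _ | _ | n
  · exact flat_dim1 S
  · exact flat_dim2 S
  have hN : Noh (toSys S) := noh_of S hc hn
  have hfin : 3 ≤ Module.finrank ℝ (Euc (n + 1 + 1 + 1)) := by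
    rw [finrank_euclideanSpace_fin]; omega
  rcases flat_or_allJB hN hfin with h | ⟨hW, hC⟩
  · obtain ⟨F, hF0, hF1, hF2⟩ := avg_factor hN hfin h
    exact absurd hess (inessential_of S hF0 (fun e he => hF1 ⟨e, he⟩) hF2)
  · refine flat_of_zero (by omega) S (fun e he y hy => hW ⟨e, he⟩ y hy) ?_
    intro e he y hy X Y Z
    have := hC ⟨e, he⟩ y hy
    rw [← CotL_apply]
    change CotL (coordForm S.g e) y = 0 at this
    rw [this]
    rfl

end Pool.Agent.EG
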