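import Mathlib

/-!
# Statement-level definitions for MP_eeed5f_gt

Smooth time-oriented Lorentzian manifolds on Mathlib manifolds modelled on `ℝ^m`, chronology, causality,
the no observer horizons condition, the conformal group, essentiality, conformal flatness.
-/

open scoped Manifold ContDiff Topology
open Set Filter

noncomputable section

namespace Pool.Agent.NOHS

/-- Euclidean space of dimension `m`. -/
abbrev Euc (m : ℕ) := EuclideanSpace ℝ (Fin m)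

/-- A field of bilinear forms on the tangent spaces of `M`. -/
abbrev FormField (m : ℕ) (M : Type*) [TopologicalSpace M] [ChartedSpace (Euc m) M] :=
  (x : M) → TangentSpace 𝓘(ℝ, Euc m) x →L[ℝ] TangentSpace 𝓘(ℝ, Euc m) x →L[ℝ] ℝ

/-- A vector field on `M`. -/
abbrev VecField (m : ℕ) (M : Type*) [TopologicalSpace M] [ChartedSpace (Euc m) M] :=
  (x : M) → TangentSpace 𝓘(ℝ, Euc m) x

section

variable {m : ℕ} {M : Type*} [TopologicalSpace M] [ChartedSpace (Euc m) M]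

/-- The derivative of the inverse of the chart `e` at the point `y` of its target. -/
def chartD (e : OpenPartialHomeomorph M (Euc m)) (y : Euc m) :
    Euc m →L[ℝ] TangentSpace 𝓘(ℝ, Euc m) (e.symm y) :=
  mfderiv 𝓘(ℝ, Euc m) 𝓘(ℝ, Euc m) e.symm y

/-- Coordinate expression of a field of bilinear forms in the chart `e`. -/
def coordForm (B : FormField m M) (e : OpenPartialHomeomorph M (Euc m)) (y : Euc m) :
    Euc m →L[ℝ] Euc m →L[ℝ] ℝ :=
  ContinuousLinearMap.bilinearComp (E := Euc m) (F := Euc m) (E' := Euc m) (F' := Euc m)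
    (B (e.symm y)) (chartD e y) (chartD e y)

/-- Coordinate expression of a vector field in the chart `e`. -/
def coordVec (X : VecField m M) (e : OpenPartialHomeomorph M (Euc m)) (y : Euc m) : Euc m :=
  mfderiv 𝓘(ℝ, Euc m) 𝓘(ℝ, Euc m) e (e.symm y) (X (e.symm y))

/-- A spacetime: a smooth Lorentzian metric `g` of signature `(-,+,...,+)` together with a smooth timelike
vector field `T` which fixes the time orientation.  (Smoothness is read off in every chart of the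
maximal smooth atlas; `g` is negative on `T` and positive definite on the orthogonal complement of `T`.) -/
structure Spacetime (m : ℕ) (M : Type*) [TopologicalSpace M] [ChartedSpace (Euc m) M] where
  g : FormField m M
  T : VecField m M
  symm : ∀ x u v, g x u v = g x v u
  timelike : ∀ x, g x (T x) (T x) < 0
  lorentz : ∀ x v, v ≠ 0 → g x (T x) v = 0 → 0 < g x v v
  smooth_g : ∀ e ∈ IsManifold.maximalAtlas 𝓘(ℝ, Euc m) ∞ M, ContDiffOn ℝ ∞ (coordForm g e) e.target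
  smooth_T : ∀ e ∈ IsManifold.maximalAtlas 𝓘(ℝ, Euc m) ∞ M, ContDiffOn ℝ ∞ (coordVec T e) e.target

variable (S : Spacetime m M)

/-- Future directed causal (timelike or null, nonzero) vectors. -/
def FutureCausal (x : M) (v : TangentSpace 𝓘(ℝ, Euc m) x) : Prop := S.g x v v ≤ 0 ∧ S.g x (S.T x) v < 0

/-- Future directed timelike vectors. -/
def FutureTimelike (x : M) (v : TangentSpace 𝓘(ℝ, Euc m) x) : Prop :=
  S.g x v v < 0 ∧ S.g x (S.T x) v < 0

/-- `γ` is a `C¹` curve on `[s,t]` all of whose velocity vectors satisfy `P`. -/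
def Seg (P : (x : M) → TangentSpace 𝓘(ℝ, Euc m) x → Prop) (γ : ℝ → M) (s t : ℝ) : Prop :=
  ContMDiffOn 𝓘(ℝ, ℝ) 𝓘(ℝ, Euc m) 1 γ (Icc s t) ∧
    ∀ r ∈ Icc s t, P (γ r) (mfderivWithin 𝓘(ℝ, ℝ) 𝓘(ℝ, Euc m) γ (Icc s t) r (1 : ℝ))

/-- `γ` is a piecewise `C¹` curve on `[a,b]`, `a < b`, with velocity vectors satisfying `P`. -/
def PwCurve (P : (x : M) → TangentSpace 𝓘(ℝ, Euc m) x → Prop) (γ : ℝ → M) (a b : ℝ) : Prop :=
  ∃ (n : ℕ) (t : ℕ → ℝ), 0 < n ∧ t 0 = a ∧ t n = b ∧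
    ∀ i < n, t i < t (i + 1) ∧ Seg P γ (t i) (t (i + 1))

/-- The chronological future `I⁺(p)`. -/
def IPlus (p : M) : Set M := {q | ∃ (γ : ℝ → M) (a b : ℝ), PwCurve (FutureTimelike S) γ a b ∧ γ a = p ∧ γ b = q}

/-- The chronological past `I⁻(p)`. -/
def IMinus (p : M) : Set M := {q | p ∈ IPlus S q}

/-- The spacetime is causal: there is no closed causal curve. -/
def IsCausal : Prop := ¬ ∃ (γ : ℝ → M) (a b : ℝ), PwCurve (FutureCausal S) γ a b ∧ γ a = γ b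

/-- An inextendible future directed causal curve, parametrised by `ℝ`: piecewise `C¹` and causal on every
compact interval, without end point (no limit in `M`) in either direction. -/
def Inextendible (γ : ℝ → M) : Prop :=
  (∀ a b, a < b → PwCurve (FutureCausal S) γ a b) ∧
    (¬ ∃ p, Tendsto γ atTop (𝓝 p)) ∧ ¬ ∃ p, Tendsto γ atBot (𝓝 p)

/-- No observer horizons: `I⁺(γ) = I⁻(γ) = M` for every inextendible causal curve. -/
def NoObserverHorizons : Prop :=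
  ∀ γ : ℝ → M, Inextendible S γ → (⋃ t, IPlus S (γ t)) = univ ∧ (⋃ t, IMinus S (γ t)) = univ

/-- `φ` maps future directed causal vectors to future directed causal vectors. -/
def PreservesTime (φ : M ≃ₘ⟮𝓘(ℝ, Euc m), 𝓘(ℝ, Euc m)⟯ M) : Prop :=
  ∀ x v, FutureCausal S x v → FutureCausal S (φ x) (mfderiv 𝓘(ℝ, Euc m) 𝓘(ℝ, Euc m) φ x v)

/-- `φ ∈ Conf^↑(M,g)`: `φ^* g = Ω g` for a smooth positive `Ω`, and `φ` preserves the time orientation. -/
def ConfUp (φ : M ≃ₘ⟮𝓘(ℝ, Euc m), 𝓘(ℝ, Euc m)⟯ M) : Prop :=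
  (∃ Ω : M → ℝ, ContMDiff 𝓘(ℝ, Euc m) 𝓘(ℝ, ℝ) ∞ Ω ∧ (∀ x, 0 < Ω x) ∧ ∀ x u v,
    S.g (φ x) (mfderiv 𝓘(ℝ, Euc m) 𝓘(ℝ, Euc m) φ x u) (mfderiv 𝓘(ℝ, Euc m) 𝓘(ℝ, Euc m) φ x v)
      = Ω x * S.g x u v) ∧ PreservesTime S φ

/-- `φ ∈ Isom^↑(M,Ωg)`. -/
def IsomUp (Ω : M → ℝ) (φ : M ≃ₘ⟮𝓘(ℝ, Euc m), 𝓘(ℝ, Euc m)⟯ M) : Prop :=
  (∀ x u v, Ω (φ x) *
      S.g (φ x) (mfderiv 𝓘(ℝ, Euc m) 𝓘(ℝ, Euc m) φ x u) (mfderiv 𝓘(ℝ, Euc m) 𝓘(ℝ, Euc m) φ x v)
      = Ω x * S.g x u v) ∧ PreservesTime S φ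

/-- `Conf^↑(M,g)` is essential: there is no smooth `Ω > 0` with `Conf^↑(M,g) = Isom^↑(M,Ωg)`. -/
def Essential : Prop :=
  ¬ ∃ Ω : M → ℝ, ContMDiff 𝓘(ℝ, Euc m) 𝓘(ℝ, ℝ) ∞ Ω ∧ (∀ x, 0 < Ω x) ∧
    ∀ φ : M ≃ₘ⟮𝓘(ℝ, Euc m), 𝓘(ℝ, Euc m)⟯ M, ConfUp S φ ↔ IsomUp S Ω φ

end

/-- The Minkowski form `-u₀v₀ + u₁v₁ + ... + uₙvₙ` on `ℝ^{n+1}`. -/
def mink {n : ℕ} (u v : Euc (n + 1)) : ℝ := - (u 0 * v 0) + ∑ i : Fin n, u i.succ * v i.succ

/-- `(M,g)` is conformally flat: around every point there is a smooth chart in which `g` is a positive smooth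
multiple of the Minkowski metric. -/
def ConformallyFlat {n : ℕ} {M : Type*} [TopologicalSpace M] [ChartedSpace (Euc (n + 1)) M]
    (S : Spacetime (n + 1) M) : Prop :=
  ∀ x : M, ∃ e ∈ IsManifold.maximalAtlas 𝓘(ℝ, Euc (n + 1)) ∞ M, x ∈ e.source ∧
    ∃ l : Euc (n + 1) → ℝ, ContDiffOn ℝ ∞ l e.target ∧ ∀ y ∈ e.target, 0 < l y ∧
      ∀ u v, coordForm S.g e y u v = l y * mink u v

end Pool.Agent.NOHS
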