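import Pool.Agent.Lib.MP_eeed5f_gt.Stmt
import Pool.Agent.Lib.MP_eeed5f_gt.Main

/-!
From the statement-level spacetimes (`Stmt.lean`, namespace `NOH`) to the internal ones (`Pub.lean`, namespace
`NOHS`), whose metric takes values in continuous bilinear maps.
-/

open scoped Manifold ContDiff Topology
open Set Filter

noncomputable section

set_option linter.unusedSectionVars false

namespace Pool.Agent.EG

open Pool.Agent.NOHS (Euc)

universe u

/-- a bilinear function on a finite dimensional space as a continuous bilinear map -/
def stCLM {m : ℕ} (b : Euc m → Euc m → ℝ) (h : NOH.Bilinear b) : Euc m →L[ℝ] Euc m →L[ℝ] ℝ :=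
  LinearMap.toContinuousLinearMap
    { toFun := fun u => LinearMap.toContinuousLinearMap
        { toFun := b u
          map_add' := h.2.2.1 u
          map_smul' := fun c v => h.2.2.2 c u v }
      map_add' := fun u v => by
        ext w
        exact h.1 u v w
      map_smul' := fun c u => by
        ext w
        exact h.2.1 c u w }

theorem stCLM_apply {m : ℕ} (b : Euc m → Euc m → ℝ) (h : NOH.Bilinear b) (u v : Euc m) :
    stCLM b h u v = b u v := rfl

variable {m : ℕ} {M : Type u} [TopologicalSpace M] [ChartedSpace (Euc m) M]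

/-- the internal spacetime -/
def toInt (S : NOH.Spacetime (Euc m) M) : NOHS.Spacetime m M where
  g := fun x => stCLM (S.g x) (S.bilinear x)
  T := S.T
  symm := S.symm
  timelike := S.timelike
  lorentz := S.lorentz
  smooth_g := fun e he => by
    refine contDiffOn_clm_apply.2 fun u => contDiffOn_clm_apply.2 fun v => ?_
    exact S.smooth_g e he u v
  smooth_T := S.smooth_T

theorem st_causal (S : NOH.Spacetime (Euc m) M) (h : NOH.IsCausal S) : NOHS.IsCausal (toInt S) := h

theorem st_noh (S : NOH.Spacetime (Euc m) M) (h : NOH.NoObserverHorizons S) :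
    NOHS.NoObserverHorizons (toInt S) := h

theorem st_ess (S : NOH.Spacetime (Euc m) M) (h : NOH.Essential S) : NOHS.Essential (toInt S) := h

theorem st_flat {n : ℕ} {M : Type u} [TopologicalSpace M] [ChartedSpace (Euc (n + 1)) M]
    (S : NOH.Spacetime (Euc (n + 1)) M) (h : NOHS.ConformallyFlat (toInt S)) : NOH.ConformallyFlat S := h

/-- **Main theorem**, statement-level form. -/
theorem main' {n : ℕ} {M : Type u} [TopologicalSpace M] [ChartedSpace (EuclideanSpace ℝ (Fin (n + 1))) M]
    [IsManifold 𝓘(ℝ, EuclideanSpace ℝ (Fin (n + 1))) ∞ M] [T2Space M] [SecondCountableTopology M]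
    (S : NOH.Spacetime (EuclideanSpace ℝ (Fin (n + 1))) M) (hc : NOH.IsCausal S)
    (hn : NOH.NoObserverHorizons S) (hess : NOH.Essential S) : NOH.ConformallyFlat S :=
  st_flat S (main (toInt S) (st_causal S hc) (st_noh S hn) (st_ess S hess))

end Pool.Agent.EG
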